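import Pool.Agent.T2H10.DN.Ctr4

/-!
The layers around a centre: the force `FC` is a sum of layers.
-/

set_option autoImplicit false
set_option linter.unusedSectionVars false

open MeasureTheory Set Filter Topology
open scoped InnerProductSpace ENNReal ContDiff

namespace Pool.Agent.T2H10.DN

open H772R2.NS

namespace Ctr

theorem tensor {r lam a0 a1 f g h e11 e12 e22 E11 E12 E22 R X Y Z X' Y' Z' : ℝ}
    (hr : r ^ 2 = lam) (hf : f ^ 2 = 1 + e11) (hfg : f * g = e12) (hgh : g ^ 2 + h ^ 2 = 1 + e22)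
    (h01 : a0 * a1 = 0) (h1 : 3 * lam * e11 = E11) (h2 : 3 * lam * e12 = E12)
    (h3 : 3 * lam * e22 = E22)
    (hR : a0 ^ 2 * (E11 * (X * X') + E12 * (X * Y' + Y * X') + E22 * (Y * Y')) = R) :
    r * (a0 * (f * X + g * Y) + 32 * (a1 * Z)) * (r * (a0 * (f * X' + g * Y') + 32 * (a1 * Z')))
      + r * (a0 * (h * Y)) * (r * (a0 * (h * Y')))
      = lam * (a0 ^ 2 * (X * X') + a0 ^ 2 * (Y * Y') + 1024 * a1 ^ 2 * (Z * Z')) + 1 / 3 * R := by
  have e : r * (a0 * (f * X + g * Y) + 32 * (a1 * Z)) *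
      (r * (a0 * (f * X' + g * Y') + 32 * (a1 * Z')))
      + r * (a0 * (h * Y)) * (r * (a0 * (h * Y')))
      = r ^ 2 * (a0 ^ 2 * (f ^ 2 * (X * X') + f * g * (X * Y' + Y * X')
        + (g ^ 2 + h ^ 2) * (Y * Y')) + 1024 * a1 ^ 2 * (Z * Z')
        + a0 * a1 * (32 * ((f * X + g * Y) * Z' + Z * (f * X' + g * Y')))) := by ring
  rw [e, hr, hf, hfg, hgh, h01, ← hR, ← h1, ← h2, ← h3]
  ring

theorem layer {Ω : Set E3} {c : E3} {α β : ℝ} (hα : 0 < α) (hαβ : α < β) (hβ : β < 2 * α)
    (hball : Metric.closedBall c (2 * β) ⊆ Ω) {a σ Q P : ℝ → ℝ} (hp : Prof α β a σ Q P)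
    {v : VF} (hv : ∀ i, CS (UU c α β) (v i)) (hd : ∀ x, dv v x = 0) (k i j : Fin 3)
    (hs : ∀ f : Fin 3 → ℝ, ∑ p, f p = f k + f i + f j) (hik : i ≠ k) (hjk : j ≠ k) (hij : i ≠ j)
    (hall : ∀ p, p = k ∨ p = i ∨ p = j) :
    ∃ L : ℝ, ∀ lam, L ≤ lam → 0 < lam →
      IsLay Ω (fun p x => lam * GG Q c k p x + 1 / 3 * FC c v p x) := by
  have hα2 : 0 < α ^ 2 := by positivity
  have hβ0 : 0 < β := hα.trans hαβ
  have hβ2 : 0 < β ^ 2 := by positivity
  have hab : α ^ 2 < β ^ 2 := by nlinarith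
  have hba : β ^ 2 < 4 * α ^ 2 := by nlinarith
  have sv : ∀ i, ContDiff ℝ ∞ (v i) := fun i => (hv i).smooth
  have srx := sm_rx c
  have ssq := sm_sq c
  -- the product of the two cut offs vanishes
  have h01 : ∀ s, a s * a (16 * s) = 0 := by
    intro s
    rcases le_total s (α ^ 2 / 2) with h | h
    · rw [hp.a0 s h, zero_mul]
    · rw [hp.a2 (16 * s) (by linarith), mul_zero]
  obtain ⟨M1, hM1⟩ := bound_EE c hv k i i
  obtain ⟨M2, hM2⟩ := bound_EE c hv k i j
  obtain ⟨M3, hM3⟩ := bound_EE c hv k j j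
  refine ⟨max M1 (max M2 M3) * (4 / 3), fun lam hlam hpos => ?_⟩
  have L1 : M1 * (4 / 3) ≤ lam := le_trans (by nlinarith [le_max_left M1 (max M2 M3)]) hlam
  have L2 : M2 * (4 / 3) ≤ lam := le_trans
    (by nlinarith [(le_max_left M2 M3).trans (le_max_right M1 (max M2 M3))]) hlam
  have L3 : M3 * (4 / 3) ≤ lam := le_trans
    (by nlinarith [(le_max_right M2 M3).trans (le_max_right M1 (max M2 M3))]) hlam
  have hb : ∀ (p q : Fin 3) (M : ℝ), (∀ x, |EE c v k p q x| ≤ M) → M * (4 / 3) ≤ lam →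
      ∀ x, |(3 * lam)⁻¹ * EE c v k p q x| ≤ 1 / 4 := by
    intro p q M h hM x
    rw [abs_mul, abs_of_pos (by positivity), inv_mul_le_iff₀ (by positivity)]
    have := h x
    nlinarith
  have sE : ∀ p q, ContDiff ℝ ∞ fun x => (3 * lam)⁻¹ * EE c v k p q x := fun p q =>
    contDiff_const.mul (cs_EE c hv k p q).smooth
  obtain ⟨f, g, h, sf, sgg, sh, e1, e2, e3⟩ := exists_root (sE i i) (sE i j) (sE j j)
    (hb i i M1 hM1 L1) (hb i j M2 hM2 L2) (hb j j M3 hM3 L3)
  set r := √lam with hr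
  have hr2 : r ^ 2 = lam := Real.sq_sqrt hpos.le
  have s16 : ContDiff ℝ ∞ fun t : ℝ => 16 * t := by fun_prop
  have sa16 : ContDiff ℝ ∞ fun s : ℝ => a (16 * s) := hp.sa.comp s16
  have sa0 := sm_comp hp.sa c
  have sa1 : ContDiff ℝ ∞ fun x => a (16 * sq c x) := sm_comp sa16 c
  have sb := sm_bb c
  -- the amplitudes
  set A : VF := fun p x => r * (a (sq c x) * (f x * bb c i p x + g x * bb c j p x)
    + 32 * (a (16 * sq c x) * bb c k p x)) with hA
  set B : VF := fun p x => r * (a (sq c x) * (h x * bb c j p x)) with hB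
  set φ : E3 → ℝ := fun x => sq c x * σ (sq c x) with hφ
  set q : E3 → ℝ := fun x => lam * (P (sq c x) + Q (sq c x) * (rx c k x * rx c k x
    - 1 / 3 * sq c x)) - 1 / 3 * xd c v x with hq
  set O : Set E3 := {x | α ^ 2 / 64 < sq c x} with hO
  set K : Set E3 := {x | α ^ 2 / 32 ≤ sq c x ∧ sq c x ≤ 2 * β ^ 2} with hK
  set K' : Set E3 := {x | sq c x ≤ 2 * β ^ 2} with hK'
  have hK'b : K' ⊆ Metric.closedBall c (2 * β) := by
    intro x hx
    have hx' : sq c x ≤ 2 * β ^ 2 := hx
    rw [sq_eq] at hx'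
    rw [mem_closedBall_iff_norm]
    apply le_of_sq_le_sq _ (by positivity)
    nlinarith
  have cK' : IsCompact K' := (isCompact_closedBall c (2 * β)).of_isClosed_subset
    (isClosed_le ssq.continuous continuous_const) hK'b
  have hKK' : K ⊆ K' := fun x hx => hx.2
  have cK : IsCompact K := cK'.of_isClosed_subset
    ((isClosed_le continuous_const ssq.continuous).inter
      (isClosed_le ssq.continuous continuous_const)) hKK'
  have hKO : K ⊆ Ω ∩ O := fun x hx => ⟨hball (hK'b (hKK' hx)), by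
    have : α ^ 2 / 32 ≤ sq c x := hx.1
    show α ^ 2 / 64 < sq c x
    linarith⟩
  have hoff : ∀ x, x ∉ K → a (sq c x) = 0 ∧ a (16 * sq c x) = 0 := by
    intro x hx
    have hx' : sq c x < α ^ 2 / 32 ∨ 2 * β ^ 2 < sq c x := by
      by_contra hcon
      push Not at hcon
      exact hx ⟨hcon.1, hcon.2⟩
    rcases hx' with h | h
    · exact ⟨hp.a0 _ (by linarith), hp.a0 _ (by linarith)⟩
    · exact ⟨hp.a2 _ h.le, hp.a2 _ (by linarith)⟩
  have sA : ∀ p, ContDiff ℝ ∞ (A p) := fun p => contDiff_const.mul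
    ((sa0.mul ((sf.mul (sb i p)).add (sgg.mul (sb j p)))).add
      (contDiff_const.mul (sa1.mul (sb k p))))
  have sB : ∀ p, ContDiff ℝ ∞ (B p) := fun p => contDiff_const.mul
    (sa0.mul (sh.mul (sb j p)))
  have sxd := sm_xd c sv
  have sP := sm_comp hp.sP c
  have sQ := sm_comp hp.sQ c
  have sφ : ContDiff ℝ ∞ φ := ssq.mul (sm_comp hp.sσ c)
  have t1 := (srx k).mul (srx k)
  have t2 : ContDiff ℝ ∞ fun x => 1 / 3 * sq c x := contDiff_const.mul ssq
  have t3 := t1.sub t2
  have t4 := sQ.mul t3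
  have t5 := sP.add t4
  have t6 : ContDiff ℝ ∞ _ := (contDiff_const (c := lam)).mul t5
  have t7 : ContDiff ℝ ∞ fun x => 1 / 3 * xd c v x := contDiff_const.mul sxd
  have sq' : ContDiff ℝ ∞ q := t6.sub t7
  -- the gradient of the phase
  have dφ : ∀ l x, pd l φ x = (σ (sq c x) + sq c x * deriv σ (sq c x)) * (2 * rx c l x) := by
    intro l x
    rw [hφ, pd_mul ssq (sm_comp hp.sσ c), pd_sq, pd_comp hp.sσ]
    ring
  have orth : ∀ l x, ∑ p, bb c l p x * rx c p x = 0 := fun l x => bb_orth c l x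
  refine ⟨φ, O, A, B, q, sφ, isOpen_lt continuous_const ssq.continuous, ?_, ?_, ?_, ?_, ?_, ?_,
    ?_, ?_⟩
  · intro x hx
    have h1 := hp.σ1 (sq c x) hx
    have h2 := hp.σ2 (sq c x) hx
    simp only [dφ, h2, Fin.sum_univ_three]
    have h3 : sq c x = rx c 0 x ^ 2 + rx c 1 x ^ 2 + rx c 2 x ^ 2 := rfl
    set s := sq c x
    set t := σ s
    have e : (t + s * (-t ^ 3 / 2)) * 2 = t := by linear_combination (-t) * h1
    have e' : ∀ z : ℝ, ((t + s * (-t ^ 3 / 2)) * (2 * z)) ^ 2 = t ^ 2 * z ^ 2 := by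
      intro z
      rw [← mul_assoc, e, mul_pow]
    rw [e', e', e', ← mul_add, ← mul_add, ← h3, h1]
  · intro p
    refine cs_of_zero cK hKO (sA p) fun x hx => ?_
    simp only [hA, (hoff x hx).1, (hoff x hx).2]
    ring
  · intro p
    refine cs_of_zero cK hKO (sB p) fun x hx => ?_
    simp only [hB, (hoff x hx).1]
    ring
  · refine cs_of_zero cK' (hK'b.trans hball) sq' fun x hx => ?_
    have hx' : 2 * β ^ 2 < sq c x := not_le.1 hx
    have hxU : x ∉ UU c α β := by
      intro hxU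
      have := pow_lt_pow_left₀ hxU.2.1 (norm_nonneg _) two_ne_zero
      rw [← sq_eq] at this
      linarith
    have hv0 : ∀ l, v l x = 0 := fun l => cs_zero_of (hv l) hxU
    simp only [hq, hp.P0 _ hx'.le, hp.Q0 _ hx'.le, xd, hv0]
    simp
  · intro x
    have o := orth
    have e : ∑ p, A p x * pd p φ x = r * 2 * (σ (sq c x) + sq c x * deriv σ (sq c x)) *
        (a (sq c x) * (f x * ∑ p, bb c i p x * rx c p x + g x * ∑ p, bb c j p x * rx c p x)
          + 32 * (a (16 * sq c x) * ∑ p, bb c k p x * rx c p x)) := by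
      simp only [dφ, hA, Fin.sum_univ_three]
      ring
    rw [e, o, o, o]
    ring
  · intro x
    have o := orth
    have e : ∑ p, B p x * pd p φ x = r * 2 * (σ (sq c x) + sq c x * deriv σ (sq c x)) *
        (a (sq c x) * (h x * ∑ p, bb c j p x * rx c p x)) := by
      simp only [dφ, hB, Fin.sum_univ_three]
      ring
    rw [e, o]
    ring
  · intro p x
    -- the tensor
    have hT : ∀ l, (fun y => A p y * A l y + B p y * B l y) = fun y =>
        lam * (a (sq c y) ^ 2 * (bb c i p y * bb c i l y) + a (sq c y) ^ 2 *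
          (bb c j p y * bb c j l y) + 1024 * a (16 * sq c y) ^ 2 * (bb c k p y * bb c k l y))
          + 1 / 3 * RR c v p l y := by
      intro l
      funext y
      exact tensor hr2 (e1 y) (e2 y) (e3 y) (h01 _) (mul_inv_cancel_left₀ (by positivity) _)
        (mul_inv_cancel_left₀ (by positivity) _) (mul_inv_cancel_left₀ (by positivity) _)
        (star c hp.a1 hα hv k i j hs p l y)
    have u0 : ContDiff ℝ ∞ fun s : ℝ => a s ^ 2 := hp.sa.pow 2
    have u1 : ContDiff ℝ ∞ fun s : ℝ => 1024 * a (16 * s) ^ 2 := contDiff_const.mul (sa16.pow 2)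
    have w0 : ContDiff ℝ ∞ fun y => a (sq c y) ^ 2 := sm_comp u0 c
    have w1 : ContDiff ℝ ∞ fun y => 1024 * a (16 * sq c y) ^ 2 := sm_comp u1 c
    have div0 : ∀ (h : ℝ → ℝ), ContDiff ℝ ∞ h → ∀ l, ∑ m, pd m (fun y => h (sq c y) *
        (bb c l p y * bb c l m y)) x
        = h (sq c x) * ((if p = l then rx c l x else 0) - rx c p x) := by
      intro h sh l
      rw [div_bb c (sm_comp sh c)]
      have e : ∑ m, bb c l m x * pd m (fun y => h (sq c y)) x
          = deriv h (sq c x) * 2 * ∑ m, bb c l m x * rx c m x := by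
        rw [Finset.mul_sum]
        refine Finset.sum_congr rfl fun m _ => ?_
        rw [pd_comp sh]
        ring
      rw [e, orth]
      simp
    have hsum : (∑ l, pd l (fun y => A p y * A l y + B p y * B l y) x)
        = lam * (a (sq c x) ^ 2 * ((if p = i then rx c i x else 0) - rx c p x)
          + a (sq c x) ^ 2 * ((if p = j then rx c j x else 0) - rx c p x)
          + 1024 * a (16 * sq c x) ^ 2 * ((if p = k then rx c k x else 0) - rx c p x))
          + 1 / 3 * ∑ l, pd l (RR c v p l) x := by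
      rw [← div0 _ u0 i, ← div0 _ u0 j, ← div0 _ u1 k, ← Finset.sum_add_distrib,
        ← Finset.sum_add_distrib, Finset.mul_sum, Finset.mul_sum, ← Finset.sum_add_distrib]
      refine Finset.sum_congr rfl fun l _ => ?_
      have m1 := w0.mul ((sb i p).mul (sb i l))
      have m2 := w0.mul ((sb j p).mul (sb j l))
      have m3 := w1.mul ((sb k p).mul (sb k l))
      have m4 := (m1.add m2).add m3
      have m5 : ContDiff ℝ ∞ _ := (contDiff_const (c := lam)).mul m4
      have m6 : ContDiff ℝ ∞ fun y => 1 / 3 * RR c v p l y := contDiff_const.mul (sm_RR c sv p l)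
      rw [hT l, pd_add m5 m6, pd_cmul _ m4, pd_add (m1.add m2) m3, pd_add m1 m2,
        pd_cmul _ (sm_RR c sv p l)]
    have hqd : pd p q x = lam * (deriv P (sq c x) * (2 * rx c p x)
        + (deriv Q (sq c x) * (2 * rx c p x) * (rx c k x * rx c k x - 1 / 3 * sq c x)
          + Q (sq c x) * (((if k = p then 1 else 0) * rx c k x + rx c k x *
            (if k = p then 1 else 0)) - 1 / 3 * (2 * rx c p x)))) - 1 / 3 * pd p (xd c v) x := by
      rw [hq, pd_sub t6 t7, pd_cmul _ t5, pd_add sP t4, pd_mul sQ t3, pd_sub t1 t2,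
        pd_mul (srx k) (srx k), pd_cmul _ ssq, pd_cmul _ sxd, pd_comp hp.sP, pd_comp hp.sQ,
        pd_rx, pd_sq]
    have hode := hp.ode (sq c x)
    have hdP := hp.dP (sq c x)
    have hfor := formula c sv hd p x
    rw [hsum, hqd, hdP]
    unfold GG
    rcases hall p with h | h | h
    · subst h
      simp only [hik.symm, hjk.symm, if_true, if_false]
      linear_combination (-(2 / 3) * lam * rx c p x) * hode - (1 / 3) * hfor
    · subst h
      simp only [hik, hik.symm, hij, if_true, if_false]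
      linear_combination ((1 / 3) * lam * rx c p x) * hode - (1 / 3) * hfor
    · subst h
      simp only [hjk, hjk.symm, hij.symm, if_true, if_false]
      linear_combination ((1 / 3) * lam * rx c p x) * hode - (1 / 3) * hfor
  · intro x
    unfold dv
    have e : ∀ p, pd p (fun x => lam * GG Q c k p x + 1 / 3 * FC c v p x) x
        = lam * pd p (GG Q c k p) x + 1 / 3 * pd p (FC c v p) x := by
      intro p
      have m1 : ContDiff ℝ ∞ fun x => lam * GG Q c k p x := contDiff_const.mul (sm_GG hp.sQ c k p)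
      have m2 : ContDiff ℝ ∞ fun x => 1 / 3 * FC c v p x := contDiff_const.mul (sm_FC c sv p)
      rw [pd_add m1 m2, pd_cmul _ (sm_GG hp.sQ c k p), pd_cmul _ (sm_FC c sv p)]
    rw [Finset.sum_congr rfl fun p _ => e p, Finset.sum_add_distrib, ← Finset.mul_sum,
      ← Finset.mul_sum, dv_GG hp.sQ]
    have := dv_FC c sv hd x
    unfold dv at this
    rw [this]
    simp

theorem sum_GG (Q : ℝ → ℝ) (c : E3) (p : Fin 3) (x : E3) :
    GG Q c 0 p x + GG Q c 1 p x + GG Q c 2 p x = 0 := by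
  have h : sq c x = rx c 0 x ^ 2 + rx c 1 x ^ 2 + rx c 2 x ^ 2 := rfl
  unfold GG
  set Q0 := Q (sq c x)
  set Q1 := deriv Q (sq c x)
  rw [h]
  fin_cases p <;> simp <;> ring

end Ctr

theorem lay_center {Ω : Set E3} (hΩ : IsOpen Ω) {c : E3} {α β : ℝ} (hα : 0 < α) (hβ : β < 2 * α)
    (hball : Metric.closedBall c (2 * β) ⊆ Ω) {v : VF}
    (hv : ∀ i, CS {x : E3 | α < ‖x - c‖ ∧ ‖x - c‖ < β ∧ ∀ i, x i ≠ c i} (v i))
    (hd : ∀ x, dv v x = 0) : IsSum Ω (FC c v) := by
  have hv' : ∀ i, CS (Ctr.UU c α β) (v i) := hv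
  have sv : ∀ i, ContDiff ℝ ∞ (v i) := fun i => (hv i).smooth
  rcases lt_or_ge α β with hαβ | hαβ
  · obtain ⟨a, σ, Q, P, hp⟩ := Ctr.exists_prof hα hαβ hβ
    obtain ⟨L0, h0⟩ := Ctr.layer hα hαβ hβ hball hp hv' hd 0 1 2
      (fun f => by rw [Fin.sum_univ_three]) (by decide) (by decide) (by decide) (by decide)
    obtain ⟨L1, h1⟩ := Ctr.layer hα hαβ hβ hball hp hv' hd 1 0 2
      (fun f => by rw [Fin.sum_univ_three]; ring) (by decide) (by decide) (by decide) (by decide)
    obtain ⟨L2, h2⟩ := Ctr.layer hα hαβ hβ hball hp hv' hd 2 0 1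
      (fun f => by rw [Fin.sum_univ_three]; ring) (by decide) (by decide) (by decide) (by decide)
    set lam := max 1 (max L0 (max L1 L2)) with hlam
    have hpos : 0 < lam := lt_of_lt_of_le one_pos (le_max_left _ _)
    have k0 := h0 lam ((le_max_left _ _).trans (le_max_right _ _)) hpos
    have k1 := h1 lam ((le_max_left _ _).trans ((le_max_right _ _).trans (le_max_right _ _))) hpos
    have k2 := h2 lam ((le_max_right _ _).trans ((le_max_right _ _).trans (le_max_right _ _))) hpos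
    refine ⟨3, fun k p x => lam * Ctr.GG Q c k p x + 1 / 3 * FC c v p x, ?_, ?_⟩
    · intro l
      fin_cases l
      · exact k0
      · exact k1
      · exact k2
    · intro p x
      rw [Fin.sum_univ_three]
      linear_combination (-lam) * Ctr.sum_GG Q c p x
  · have hz : ∀ i, v i = fun _ => 0 := by
      intro i
      funext x
      by_contra h
      have := (hv i).supp (subset_tsupport _ h)
      have h1 := this.1
      have h2 := this.2.1
      linarith
    refine ⟨0, fun l => l.elim0, fun l => l.elim0, ?_⟩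
    intro i x
    have e : (fun y : E3 => ∑ l, rx c l y * cu v l y) = fun _ => 0 := by
      funext y
      have : ∀ l, cu v l y = 0 := by
        intro l
        fin_cases l <;> simp [cu, hz, Ctr.pd_const]
      simp [this]
    show FC c v i x = 0
    unfold FC
    rw [hz i, e]
    have : cr (rx c) (fun j => pd j fun _ => (0 : ℝ)) i x = 0 := by
      fin_cases i <;> simp [cr, Ctr.pd_const]
    rw [this]
    simp

end Pool.Agent.T2H10.DN
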