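import Pool.Agent.T2H10.DN.Local
import Pool.Agent.T2H10.DN.Center

/-!
The first differences of the layers in the centre: near every point the curls of all the fields
`∂_m η e_n` are sums of layers (helper86, for helper10).
-/

set_option autoImplicit false
set_option linter.unusedSectionVars false

open MeasureTheory Set Filter Topology
open scoped InnerProductSpace ENNReal ContDiff

namespace Pool.Agent.T2H10.DN

open H772R2.NS

namespace FD

open Loc

theorem isSum_zero' {Ω : Set E3} {F : VF} (h : ∀ i x, F i x = 0) : IsSum Ω F :=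
  ⟨0, fun l => l.elim0, fun l => l.elim0, fun i x => by simp [h]⟩

theorem cu_zero (i : Fin 3) (x : E3) : cu (0 : VF) i x = 0 := by
  fin_cases i <;> simp [cu, Loc.pd_zero]

/-- the smooth fields, all multiples of the curl of which are sums of layers -/
def SS (Ω : Set E3) : Submodule ℝ VF where
  carrier := {ψ | (∀ i, ContDiff ℝ ∞ (ψ i)) ∧ Q Ω (cu ψ)}
  add_mem' := by
    rintro a b ⟨ha, qa⟩ ⟨hb, qb⟩
    refine ⟨fun i => (ha i).add (hb i), ?_⟩
    refine Q_congr (Q_add qa qb) fun i x => ?_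
    exact cu_add ha hb i x
  zero_mem' := by
    refine ⟨fun i => contDiff_const, fun r => isSum_zero' fun i x => ?_⟩
    rw [cu_zero, mul_zero]
  smul_mem' := by
    rintro c a ⟨ha, qa⟩
    refine ⟨fun i => (contDiff_const (c := c)).mul (ha i), ?_⟩
    refine Q_congr (Q_mul qa c) fun i x => ?_
    exact cu_mul ha c i x

theorem mem_SS {Ω : Set E3} {ψ : VF} :
    ψ ∈ SS Ω ↔ (∀ i, ContDiff ℝ ∞ (ψ i)) ∧ Q Ω (cu ψ) := Iff.rfl

theorem cu_grad {g : E3 → ℝ} (hg : ContDiff ℝ ∞ g) (i : Fin 3) (x : E3) :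
    cu (fun j => pd j g) i x = 0 := by
  fin_cases i <;> simp [cu, pd_comm hg 1 2, pd_comm hg 2 0, pd_comm hg 0 1]

theorem grad_mem {Ω : Set E3} {g : E3 → ℝ} (hg : ContDiff ℝ ∞ g) :
    (fun j => pd j g : VF) ∈ SS Ω := by
  refine ⟨fun i => cd_pd hg i, fun r => isSum_zero' fun i x => ?_⟩
  rw [cu_grad hg, mul_zero]

/-- the value of the Kronecker symbol -/
def K (i l : Fin 3) : ℝ := if i = l then 1 else 0

theorem pd_rx (c : E3) (j l : Fin 3) (x : E3) : pd j (rx c l) x = K j l := by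
  unfold pd rx K
  have h : HasFDerivAt (fun x : E3 => x l - c l) (EuclideanSpace.proj (𝕜 := ℝ) l : E3 →L[ℝ] ℝ) x :=
    ((EuclideanSpace.proj (𝕜 := ℝ) l : E3 →L[ℝ] ℝ).hasFDerivAt).sub_const _
  rw [h.fderiv]
  by_cases hj : j = l
  · subst hj
    simp
  · simp [hj, Ne.symm hj]

theorem pd_mul' {f g : E3 → ℝ} (hf : ContDiff ℝ ∞ f) (hg : ContDiff ℝ ∞ g) (j : Fin 3) (x : E3) :
    pd j (fun y => f y * g y) x = pd j f x * g x + f x * pd j g x := by
  unfold pd
  rw [fderiv_fun_mul (hf.differentiable (by simp) x) (hg.differentiable (by simp) x)]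
  simp
  ring

theorem pd_rx_mul (c : E3) {η : E3 → ℝ} (hη : ContDiff ℝ ∞ η) (j l : Fin 3) (x : E3) :
    pd j (fun y => rx c l y * η y) x = K j l * η x + rx c l x * pd j η x := by
  rw [pd_mul' (cd_rx c l) hη, pd_rx]

theorem pd_pd_rx (c : E3) {η : E3 → ℝ} (hη : ContDiff ℝ ∞ η) (i j l : Fin 3) (x : E3) :
    pd i (pd j (fun y => rx c l y * η y)) x
      = K i l * pd j η x + K j l * pd i η x + rx c l x * pd i (pd j η) x := by
  have e : pd j (fun y => rx c l y * η y) = fun x => K j l * η x + rx c l x * pd j η x := by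
    funext x
    exact pd_rx_mul c hη j l x
  rw [e]
  have h1 : ContDiff ℝ ∞ (fun x => K j l * η x) := contDiff_const.mul hη
  have h2 : ContDiff ℝ ∞ (fun x => rx c l x * pd j η x) := (cd_rx c l).mul (cd_pd hη j)
  have h3 := congrFun (pd_add h1 h2 i) x
  rw [h3, congrFun (pd_mul_left hη i (K j l)) x, pd_rx_mul c (cd_pd hη j)]
  ring

theorem ww_eq {χ : E3 → ℝ} (hχ : ContDiff ℝ ∞ χ) (a l : Fin 3) (x : E3) :
    ww χ a l x = pd l (pd a χ) x - K l a * ∑ k, pd k (pd k χ) x := by
  by_cases h : l = a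
  · subst h
    rw [K, if_pos rfl, one_mul, Fin.sum_univ_three]
    fin_cases l
    · simp only [Fin.zero_eta]
      rw [ww_00]
      ring
    · simp only [Fin.mk_one]
      rw [ww_11]
      ring
    · simp only [Fin.reduceFinMk]
      rw [ww_22]
      ring
  · rw [ww_ne hχ h, K, if_neg h]
    ring

/-- the mixed field of the first differences -/
noncomputable def TT (c : E3) (e : Fin 3 → ℝ) (w : VF) : VF := fun i x =>
  e i * (∑ l, rx c l x * w l x) + rx c i x * ∑ l, e l * w l x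

theorem first_aux {A B : E3 → ℝ} (cA : ContDiff ℝ ∞ A) (cB : ContDiff ℝ ∞ B) (v : VF) (c : E3)
    (e : Fin 3 → ℝ) (h : ℝ) (i : Fin 3) (x : E3) :
    h * cu (fun i x => e i * A x + rx c i x * B x) i x
      = (-v i x - 1 / 2 * cr (rx (c - h • WithLp.toLp 2 e))
            (fun j => pd j (fun y => A y + h * B y)) i x)
        - (-v i x - 1 / 2 * cr (rx (c + h • WithLp.toLp 2 e))
            (fun j => pd j (fun y => A y - h * B y)) i x) := by
  have e3 : ∀ j, pd j (fun y => A y - h * B y) = fun y => pd j A y - h * pd j B y := by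
    intro j
    rw [pd_sub cA (contDiff_const.mul cB), pd_mul_left cB]
  have e4 : ∀ j, pd j (fun y => A y + h * B y) = fun y => pd j A y + h * pd j B y := by
    intro j
    rw [pd_add cA (contDiff_const.mul cB), pd_mul_left cB]
  have e5 : ∀ j k, pd j (fun x => e k * A x + rx c k x * B x) x
      = e k * pd j A x + (K j k * B x + rx c k x * pd j B x) := by
    intro j k
    have h1 : ContDiff ℝ ∞ (fun x => e k * A x) := contDiff_const.mul cA
    have h2 : ContDiff ℝ ∞ (fun x => rx c k x * B x) := (cd_rx c k).mul cB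
    rw [congrFun (pd_add h1 h2 j) x, congrFun (pd_mul_left cA j (e k)) x, pd_rx_mul c cB]
  simp only [e3, e4]
  fin_cases i <;> simp [cu, cr, e5, K] <;> simp [rx] <;> ring

theorem first_diff {v : VF} (hv : ∀ i, ContDiff ℝ ∞ (v i)) (c : E3) (e : Fin 3 → ℝ) (h : ℝ)
    (i : Fin 3) (x : E3) :
    h * cu (TT c e (cu v)) i x = FC (c - h • WithLp.toLp 2 e) v i x
      - FC (c + h • WithLp.toLp 2 e) v i x := by
  have hw : ∀ i, ContDiff ℝ ∞ (cu v i) := cd_cu hv
  have e1 : (fun y => ∑ l, rx (c + h • WithLp.toLp 2 e) l y * cu v l y)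
      = fun y => (∑ l, rx c l y * cu v l y) - h * (∑ l, e l * cu v l y) := by
    funext y
    simp only [rx]
    rw [Finset.mul_sum, ← Finset.sum_sub_distrib]
    refine Finset.sum_congr rfl fun l _ => ?_
    simp
    ring
  have e2 : (fun y => ∑ l, rx (c - h • WithLp.toLp 2 e) l y * cu v l y)
      = fun y => (∑ l, rx c l y * cu v l y) + h * (∑ l, e l * cu v l y) := by
    funext y
    simp only [rx]
    rw [Finset.mul_sum, ← Finset.sum_add_distrib]
    refine Finset.sum_congr rfl fun l _ => ?_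
    simp
    ring
  unfold TT FC
  rw [e1, e2]
  exact first_aux (cd_dot hw c) (ContDiff.sum fun l _ => contDiff_const.mul (hw l)) v c e h i x

/-! ### second derivatives -/

section second

variable {Ω : Set E3} {χ : E3 → ℝ}

theorem ev_add' (p : Fin 3) (f g : E3 → ℝ) :
    ev p (fun x => f x + g x) = ev p f + ev p g := by
  funext i x
  show ev p (fun x => f x + g x) i x = ev p f i x + ev p g i x
  simp only [ev_apply]
  split_ifs <;> simp

theorem ev_smul (p : Fin 3) (c : ℝ) (f : E3 → ℝ) :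
    ev p (fun x => c * f x) = c • ev p f := by
  funext i x
  show ev p (fun x => c * f x) i x = c * ev p f i x
  simp only [ev_apply]
  split_ifs <;> simp

/-- all the second derivatives -/
theorem second_all (hχ : ContDiff ℝ ∞ χ)
    (h1 : ∀ p a, Q Ω (Se (Pi.single p 1) (cu (ev a χ))))
    (h2 : ∀ p q a, p ≠ q → Q Ω (Se (Pi.single p 1 + Pi.single q 1) (cu (ev a χ))))
    (q i j : Fin 3) : ev q (pd i (pd j χ)) ∈ SS Ω := by
  have hc : ∀ a b, ContDiff ℝ ∞ (ww χ a b) := cd_ww hχ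
  have m1 : ∀ p a, ev p (ww χ a p) ∈ SS Ω := by
    intro p a
    refine ⟨cd_ev (hc a p) p, ?_⟩
    have := h1 p a
    rwa [Se_single] at this
  have m2 : ∀ p q a, p ≠ q → ev p (ww χ a q) + ev q (ww χ a p) ∈ SS Ω := by
    intro p q a hpq
    have h3 : ev p (ww χ a p) + ev p (ww χ a q) + (ev q (ww χ a p) + ev q (ww χ a q)) ∈ SS Ω := by
      rw [← ev_add', ← ev_add']
      refine ⟨fun i => (cd_ev ((hc a p).add (hc a q)) p i).add
        (cd_ev ((hc a p).add (hc a q)) q i), ?_⟩
      have := h2 p q a hpq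
      rwa [Se_add] at this
    have h4 := (SS Ω).sub_mem ((SS Ω).sub_mem h3 (m1 p a)) (m1 q a)
    have e : ev p (ww χ a p) + ev p (ww χ a q) + (ev q (ww χ a p) + ev q (ww χ a q))
        - ev p (ww χ a p) - ev q (ww χ a q) = ev p (ww χ a q) + ev q (ww χ a p) := by abel
    rwa [e] at h4
  have m3 : ∀ p q, ev q (ww χ p p) ∈ SS Ω := by
    intro p q
    by_cases h : q = p
    · subst h
      exact m1 q q
    · have h3 := m2 q p p h
      have h4 : ev p (ww χ p q) ∈ SS Ω := by
        rw [ww_symm hχ h]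
        exact m1 p q
      have h5 := (SS Ω).sub_mem h3 h4
      have e : ev q (ww χ p p) + ev p (ww χ p q) - ev p (ww χ p q) = ev q (ww χ p p) := by abel
      rwa [e] at h5
  have m4 : ∀ p q, ev q (pd p (pd p χ)) ∈ SS Ω := by
    intro p q
    have e : pd p (pd p χ) = fun x => ww χ p p x
        + ((-(1 / 2)) * ww χ 0 0 x + ((-(1 / 2)) * ww χ 1 1 x + (-(1 / 2)) * ww χ 2 2 x)) := by
      funext x
      simp only [ww_eq hχ, Fin.sum_univ_three, K]
      fin_cases p <;> simp <;> ring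
    rw [e, ev_add', ev_add', ev_add', ev_smul, ev_smul, ev_smul]
    exact (SS Ω).add_mem (m3 p q) ((SS Ω).add_mem ((SS Ω).smul_mem _ (m3 0 q))
      ((SS Ω).add_mem ((SS Ω).smul_mem _ (m3 1 q)) ((SS Ω).smul_mem _ (m3 2 q))))
  by_cases hij : i = j
  · subst hij
    exact m4 i q
  have e1 : pd i (pd j χ) = ww χ j i := (ww_ne hχ hij).symm
  rw [e1]
  by_cases hqi : q = i
  · subst hqi
    exact m1 q j
  by_cases hqj : q = j
  · subst hqj
    rw [ww_symm hχ hij]
    exact m1 q i
  have x1 := m2 q i j hqi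
  have x2 := m2 i j q hij
  have x3 := m2 q j i hqj
  rw [ww_symm hχ (Ne.symm hqj), ww_symm hχ (Ne.symm hqi)] at x2
  rw [ww_symm hχ (Ne.symm hij)] at x3
  have h5 := (SS Ω).smul_mem (1 / 2 : ℝ) ((SS Ω).sub_mem ((SS Ω).add_mem x1 x3) x2)
  have e : (1 / 2 : ℝ) • (ev q (ww χ j i) + ev i (ww χ j q) + (ev q (ww χ j i) + ev j (ww χ i q))
      - (ev i (ww χ j q) + ev j (ww χ i q))) = ev q (ww χ j i) := by
    have e2 : ev q (ww χ j i) + ev i (ww χ j q) + (ev q (ww χ j i) + ev j (ww χ i q))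
      - (ev i (ww χ j q) + ev j (ww χ i q)) = (2 : ℝ) • ev q (ww χ j i) := by
      rw [two_smul]
      abel
    rw [e2, smul_smul]
    norm_num
  rwa [e] at h5

end second

/-! ### first derivatives -/

section first

variable {Ω : Set E3}

/-- the sums of second derivatives -/
noncomputable def ZZ (c : E3) (η : E3 → ℝ) (n m : Fin 3) : VF :=
  (∑ l, ev n (pd l (pd m (fun y => rx c l y * η y))))
    - (∑ k, ev n (pd k (pd k (fun y => rx c m y * η y))))
    + (∑ p, ev p (pd n (pd m (fun y => rx c p y * η y))))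
    - K n m • (∑ p, ∑ k, ev p (pd k (pd k (fun y => rx c p y * η y))))
    + (2 * K n m) • (fun j => pd j η)

theorem sum_ev_apply (f : Fin 3 → E3 → ℝ) (i : Fin 3) (x : E3) :
    (∑ p, ev p (f p)) i x = f i x := by
  rw [Finset.sum_apply, Finset.sum_apply]
  simp only [ev_apply]
  simp

theorem ident (c : E3) {η : E3 → ℝ} (hη : ContDiff ℝ ∞ η) (n m : Fin 3) :
    (3 : ℝ) • ev n (pd m η) + ev m (pd n η)
      = ZZ c η n m - TT c (Pi.single n 1) (cu (cu (ev m η))) := by
  funext i x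
  have hw : ∀ l, cu (cu (ev m η)) l x = pd l (pd m η) x - K l m * ∑ k, pd k (pd k η) x :=
    fun l => ww_eq hη m l x
  have e0 : ((3 : ℝ) • ev n (pd m η) + ev m (pd n η)) i x
      = 3 * (if i = n then pd m η x else 0) + (if i = m then pd n η x else 0) := by
    show 3 * ev n (pd m η) i x + ev m (pd n η) i x = _
    rw [ev_apply, ev_apply]
  have e1 : (ZZ c η n m - TT c (Pi.single n 1) (cu (cu (ev m η)))) i x
      = (∑ l, (if i = n then pd l (pd m (fun y => rx c l y * η y)) x else 0))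
        - (∑ k, (if i = n then pd k (pd k (fun y => rx c m y * η y)) x else 0))
        + pd n (pd m (fun y => rx c i y * η y)) x
        - K n m * (∑ k, pd k (pd k (fun y => rx c i y * η y)) x)
        + (2 * K n m) * pd i η x
        - ((Pi.single n 1 : Fin 3 → ℝ) i * (∑ l, rx c l x * cu (cu (ev m η)) l x)
          + rx c i x * ∑ l, (Pi.single n 1 : Fin 3 → ℝ) l * cu (cu (ev m η)) l x) := by
    have a1 : (∑ l, ev n (pd l (pd m (fun y => rx c l y * η y)))) i x
        = ∑ l, (if i = n then pd l (pd m (fun y => rx c l y * η y)) x else 0) := by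
      rw [Finset.sum_apply, Finset.sum_apply]
      simp only [ev_apply]
    have a2 : (∑ k, ev n (pd k (pd k (fun y => rx c m y * η y)))) i x
        = ∑ k, (if i = n then pd k (pd k (fun y => rx c m y * η y)) x else 0) := by
      rw [Finset.sum_apply, Finset.sum_apply]
      simp only [ev_apply]
    have a3 : (∑ p, ev p (pd n (pd m (fun y => rx c p y * η y)))) i x
        = pd n (pd m (fun y => rx c i y * η y)) x :=
      sum_ev_apply (fun p => pd n (pd m (fun y => rx c p y * η y))) i x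
    have a4 : (∑ p, ∑ k, ev p (pd k (pd k (fun y => rx c p y * η y)))) i x
        = ∑ k, pd k (pd k (fun y => rx c i y * η y)) x := by
      rw [Finset.sum_comm, Finset.sum_apply, Finset.sum_apply]
      exact Finset.sum_congr rfl fun k _ =>
        sum_ev_apply (fun p => pd k (pd k (fun y => rx c p y * η y))) i x
    rw [← a1, ← a2, ← a3, ← a4]
    rfl
  rw [e0, e1]
  simp only [hw, pd_pd_rx c hη, Fin.sum_univ_three, K]
  fin_cases n <;> fin_cases m <;> fin_cases i <;> simp <;> ring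

/-- **all the first derivatives, near every point** -/
theorem first_local (hΩ : IsOpen Ω) {x0 : E3} (hx : x0 ∈ Ω) :
    ∃ δ : ℝ, 0 < δ ∧ ∀ η : E3 → ℝ, CS (Metric.ball x0 δ) η → ∀ n m : Fin 3,
      ev n (pd m η) ∈ SS Ω := by
  have lc : LC Ω := fun c α β hα hβ hball v hv hd => lay_center hΩ hα hβ hball hv hd
  obtain ⟨ε, hε, hball⟩ := Metric.isOpen_iff.1 hΩ x0 hx
  set ρ : ℝ := ε / 30 with hρ
  have hρ0 : 0 < ρ := by positivity
  have hb : Metric.closedBall x0 (20 * ρ) ⊆ Ω :=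
    (Metric.closedBall_subset_ball (by rw [hρ]; linarith)).trans hball
  refine ⟨ρ / 10, by positivity, fun η hη n m => ?_⟩
  set c : E3 := x0 - ρ • WithLp.toLp 2 (fun _ => (1 : ℝ)) with hc
  have hci : ∀ i, c i = x0 i - ρ := by
    intro i
    simp [hc]
  have hcent : ∀ χ : E3 → ℝ, CS (Metric.ball x0 (ρ / 10)) χ → ∀ a : Fin 3, ∀ c' : E3,
      (∀ i, |c' i - (x0 i - ρ)| ≤ ρ / 10) → Q Ω (FC c' (cu (ev a χ))) := by
    intro χ hχ a c' h
    exact centers lc hρ0 hb (cs_cu (cs_ev hχ a)) (dv_cu fun i => (cs_ev hχ a i).smooth) h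
  have hh : ρ / 10 ≠ 0 := by positivity
  have hplus : ∀ (e : Fin 3 → ℝ), (∀ i, |e i| ≤ 1) → ∀ i,
      |(c + (ρ / 10) • WithLp.toLp 2 e : E3) i - (x0 i - ρ)| ≤ ρ / 10 := by
    intro e he i
    have e1 : (c + (ρ / 10) • WithLp.toLp 2 e : E3) i = c i + ρ / 10 * e i := rfl
    rw [e1, hci, add_sub_cancel_left, abs_mul, abs_of_pos (by positivity : (0 : ℝ) < ρ / 10)]
    exact mul_le_of_le_one_right (by positivity) (he i)
  have hminus : ∀ (e : Fin 3 → ℝ), (∀ i, |e i| ≤ 1) → ∀ i,
      |(c - (ρ / 10) • WithLp.toLp 2 e : E3) i - (x0 i - ρ)| ≤ ρ / 10 := by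
    intro e he i
    have e1 : (c - (ρ / 10) • WithLp.toLp 2 e : E3) i = c i - ρ / 10 * e i := rfl
    rw [e1, hci, sub_sub_cancel_left, abs_neg, abs_mul,
      abs_of_pos (by positivity : (0 : ℝ) < ρ / 10)]
    exact mul_le_of_le_one_right (by positivity) (he i)
  have hS : ∀ χ : E3 → ℝ, CS (Metric.ball x0 (ρ / 10)) χ → ∀ (e : Fin 3 → ℝ),
      (∀ i, |e i| ≤ 1) → ∀ a, Q Ω (Se e (cu (ev a χ))) := by
    intro χ hχ e he a
    have hv : ∀ i, CS (Metric.ball x0 (ρ / 10)) (cu (ev a χ) i) := cs_cu (cs_ev hχ a)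
    have q1 := hcent χ hχ a _ (hplus e he)
    have q2 := hcent χ hχ a _ (hminus e he)
    have q3 := hcent χ hχ a c (by
      intro i
      rw [hci, sub_self, abs_zero]
      positivity)
    refine Q_congr (Q_mul (Q_add q1 (Q_add q2 (Q_mul q3 (-2)))) ((ρ / 10) ^ 2)⁻¹) ?_
    intro i x
    have h := second_diff (fun i => (hv i).smooth) c e (ρ / 10) i x
    rw [eq_inv_mul_iff_mul_eq₀ (pow_ne_zero 2 hh), h]
    ring
  have hsec : ∀ χ : E3 → ℝ, CS (Metric.ball x0 (ρ / 10)) χ → ∀ q i j,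
      ev q (pd i (pd j χ)) ∈ SS Ω := by
    intro χ hχ q i j
    refine second_all hχ.smooth (fun p a => hS χ hχ _ (by
      intro i
      rw [Pi.single_apply]
      split_ifs <;> simp) a) (fun p q a hpq => hS χ hχ _ (by
      intro i
      rw [Pi.add_apply, Pi.single_apply, Pi.single_apply]
      by_cases h1 : i = p
      · have h2 : i ≠ q := fun h => hpq (h1.symm.trans h)
        simp [h1, hpq]
      · by_cases h2 : i = q
        · simp [h2, Ne.symm hpq]
        · simp [h1, h2]) a) q i j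
  have hrx : ∀ l, CS (Metric.ball x0 (ρ / 10)) (fun y => rx c l y * η y) := fun l =>
    ⟨(cd_rx c l).mul hη.smooth, hη.compact.mul_left,
      (tsupport_mul_subset_right).trans hη.supp⟩
  have hT : ∀ n m, TT c (Pi.single n 1) (cu (cu (ev m η))) ∈ SS Ω := by
    intro n m
    have he : ∀ i, |(Pi.single n 1 : Fin 3 → ℝ) i| ≤ 1 := by
      intro i
      rw [Pi.single_apply]
      split_ifs <;> simp
    have hcc : ∀ i, ContDiff ℝ ∞ (cu (cu (ev m η)) i) := cd_cu (cd_cu (cd_ev hη.smooth m))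
    refine ⟨fun i => ?_, ?_⟩
    · exact (contDiff_const.mul (cd_dot hcc c)).add ((cd_rx c i).mul
        (ContDiff.sum fun l _ => contDiff_const.mul (hcc l)))
    · have q1 := hcent η hη m _ (hplus _ he)
      have q2 := hcent η hη m _ (hminus _ he)
      refine Q_congr (Q_mul (Q_add q2 (Q_mul q1 (-1))) (ρ / 10)⁻¹) ?_
      intro i x
      have h := first_diff (cd_cu (cd_ev hη.smooth m)) c (Pi.single n 1) (ρ / 10) i x
      rw [eq_inv_mul_iff_mul_eq₀ hh, h]
      ring
  have hZ : ∀ n m, ZZ c η n m ∈ SS Ω := by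
    intro n m
    unfold ZZ
    refine (SS Ω).add_mem ((SS Ω).sub_mem ((SS Ω).add_mem ((SS Ω).sub_mem ?_ ?_) ?_) ?_) ?_
    · exact (SS Ω).sum_mem fun l _ => hsec _ (hrx l) _ _ _
    · exact (SS Ω).sum_mem fun k _ => hsec _ (hrx m) _ _ _
    · exact (SS Ω).sum_mem fun p _ => hsec _ (hrx p) _ _ _
    · exact (SS Ω).smul_mem _ ((SS Ω).sum_mem fun p _ =>
        (SS Ω).sum_mem fun k _ => hsec _ (hrx p) _ _ _)
    · exact (SS Ω).smul_mem _ (grad_mem hη.smooth)
  have h3 : ∀ n m, (3 : ℝ) • ev n (pd m η) + ev m (pd n η) ∈ SS Ω := by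
    intro n m
    rw [ident c hη.smooth]
    exact (SS Ω).sub_mem (hZ n m) (hT n m)
  have h4 := (SS Ω).smul_mem (1 / 8 : ℝ)
    ((SS Ω).sub_mem ((SS Ω).smul_mem (3 : ℝ) (h3 n m)) (h3 m n))
  have e : (1 / 8 : ℝ) • ((3 : ℝ) • ((3 : ℝ) • ev n (pd m η) + ev m (pd n η))
      - ((3 : ℝ) • ev m (pd n η) + ev n (pd m η))) = ev n (pd m η) := by
    funext i x
    show 1 / 8 * (3 * (3 * ev n (pd m η) i x + ev m (pd n η) i x)
      - (3 * ev m (pd n η) i x + ev n (pd m η) i x)) = ev n (pd m η) i x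
    ring
  rwa [e] at h4

end first

end FD

end Pool.Agent.T2H10.DN
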