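import Pool.Agent.T2H10.DN.MeanZero
import Pool.Agent.T2H10.DN.FirstD

/-!
All the curls of smooth fields with compact support and mean zero in a connected open set are sums
of layers (helper86, for helper10).
-/

set_option autoImplicit false
set_option linter.unusedSectionVars false

open MeasureTheory Set Filter Topology
open scoped InnerProductSpace ENNReal ContDiff

namespace Pool.Agent.T2H10.DN

open H772R2.NS

namespace FD

open Loc

theorem first_global {Ω : Set E3} (hΩ : IsOpen Ω) {η : E3 → ℝ} (hη : CS Ω η) :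
    ∀ n m : Fin 3, Loc.ev n (pd m η) ∈ SS Ω := by
  refine MZ.local_global (P := fun η => ∀ n m : Fin 3, Loc.ev n (pd m η) ∈ SS Ω) ?_ ?_ ?_ hη
  · intro n m
    have e : Loc.ev n (pd m (fun _ => (0 : ℝ))) = 0 := by
      rw [pd_zero']
      funext i
      unfold Loc.ev
      split_ifs <;> rfl
    rw [e]
    exact (SS Ω).zero_mem
  · intro f g hf hg h1 h2 n m
    rw [pd_add hf.smooth hg.smooth m, ev_add']
    exact (SS Ω).add_mem (h1 n m) (h2 n m)
  · intro x hx
    obtain ⟨δ, hδ, h⟩ := first_local hΩ hx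
    exact ⟨δ, hδ, fun f hf _ => h f hf⟩

end FD

open FD Loc in
/-- TASK G1: all curls of fields with mean zero are sums of layers (the boundedness of the set is
not used) -/
theorem sum_all {Ω : Set E3} (hΩ : IsOpen Ω) (_hb : Bornology.IsBounded Ω)
    (hc : IsConnected Ω) {ψ : VF} (hψ : ∀ i, CS Ω (ψ i)) (h0 : ∀ i, ∫ x, ψ i x = 0) :
    IsSum Ω (cu ψ) := by
  have h1 : ∀ i, MZ.Dv Ω (ψ i) := fun i => MZ.mean_zero hΩ hc (hψ i) (h0 i)
  choose g hg eg using h1
  have h2 : (∑ p, ∑ j, Loc.ev p (pd j (g p j))) ∈ SS Ω :=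
    (SS Ω).sum_mem fun p _ => (SS Ω).sum_mem fun j _ => first_global hΩ (hg p j) p j
  have e : (∑ p, ∑ j, Loc.ev p (pd j (g p j))) = ψ := by
    funext i x
    rw [Finset.sum_comm, Finset.sum_apply, Finset.sum_apply, eg i x]
    exact Finset.sum_congr rfl fun j _ => sum_ev_apply (fun p => pd j (g p j)) i x
  rw [e] at h2
  have h3 := h2.2 1
  have e2 : (fun i x => 1 * cu ψ i x) = cu ψ := by
    funext i x
    exact one_mul _
  rwa [e2] at h3

end Pool.Agent.T2H10.DN
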