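import Pool.Agent.T2H10.DN.OneLayer

/-!
All the layers (TASK B2).
-/

set_option autoImplicit false
set_option linter.unusedSectionVars false

open MeasureTheory Set Filter Topology
open scoped InnerProductSpace ENNReal ContDiff

namespace Pool.Agent.T2H10.DN

open H772R2.NS
open H772R2.NSR (Frame)
open Pool.Agent.W795.TQ
open Pool.Agent.Y303.LV (heat cl clj)

namespace DM

/-- the statement of `one_layer` -/
def OneS (ν : ℝ) : Prop :=
    ∃ Cν : ℝ, 0 < Cν ∧ ∀ Ω : Set E3, IsOpen Ω → Bornology.IsBounded Ω → ∀ (w g F : VF)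
      (M Y η ε τ : ℝ), (∀ i, CS Ω (w i)) → (∀ i, CS Ω (g i)) → (∀ x, dv w x = 0) →
      (∀ x, dv g x = 0) → 0 ≤ M → LayM Ω F M → 0 ≤ Y → 0 ≤ η → 0 < τ → Bl w ε →
      GoodS Ω ν (fun i x => g i x + w i x) Y η →
      ∃ (w' : VF) (Y' : ℝ), (∀ i, CS Ω (w' i)) ∧ (∀ x, dv w' x = 0) ∧ 0 ≤ Y' ∧
        Bl w' (max ε (Cν * M) + τ) ∧
        GoodS Ω ν (fun i x => (g i x + F i x) + w' i x) Y' (η + τ)

variable {Ω : Set E3}

theorem layM_mono {F : VF} {M M' : ℝ} (h : LayM Ω F M) (hM : M ≤ M') : LayM Ω F M' := by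
  obtain ⟨φ, O, A, B, q, h1, h2, h3, h4, h5, h6, h7, h8, h9, h10, h11, h12⟩ := h
  exact ⟨φ, O, A, B, q, h1, h2, h3, h4, h5, h6, h7, h8, h9, h10,
    fun i x => (h11 i x).trans hM, fun i x => (h12 i x).trans hM⟩

theorem lay_bound {F : VF} (h : IsLay Ω F) : ∃ M : ℝ, 0 ≤ M ∧ LayM Ω F M := by
  obtain ⟨φ, O, A, B, q, h1, h2, h3, h4, h5, h6, h7, h8, h9, h10⟩ := h
  choose a ha0 ha using fun i => (h4 i).hbBound
  choose b hb0 hb using fun i => (h5 i).hbBound
  have hn : ∀ i, 0 ≤ a i + b i := fun i => add_nonneg (ha0 i) (hb0 i)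
  refine ⟨∑ i, (a i + b i), Finset.sum_nonneg fun i _ => hn i, φ, O, A, B, q, h1, h2, h3, h4, h5,
    h6, h7, h8, h9, h10, fun i x => ?_, fun i x => ?_⟩
  · have k1 := ha i x
    have k2 := hb0 i
    have k3 : a i + b i ≤ ∑ i, (a i + b i) :=
      Finset.single_le_sum (f := fun i => a i + b i) (fun i _ => hn i) (Finset.mem_univ i)
    linarith
  · have k1 := hb i x
    have k2 := ha0 i
    have k3 : a i + b i ≤ ∑ i, (a i + b i) :=
      Finset.single_le_sum (f := fun i => a i + b i) (fun i _ => hn i) (Finset.mem_univ i)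
    linarith

theorem quad_cs {O : Set E3} {A B : VF} (hA : ∀ i, CS O (A i)) (hB : ∀ i, CS O (B i))
    (i j : Fin 3) : CS O (fun y => A i y * A j y + B i y * B j y) :=
  ((hA i).hbMul (hA j).smooth).hbAdd ((hB i).hbMul (hB j).smooth)

theorem lay_cs {F : VF} {M : ℝ} (h : LayM Ω F M) (i : Fin 3) : CS Ω (F i) := by
  obtain ⟨φ, O, A, B, q, h1, h2, h3, h4, h5, h6, h7, h8, h9, h10, h11, h12⟩ := h
  have e : F i = fun x => (∑ j, pd j (fun y => A i y * A j y + B i y * B j y) x) + pd i q x := by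
    funext x; exact h9 i x
  rw [e]
  exact (OL.CS.sum Finset.univ fun j => (OL.CS.mono (quad_cs h4 h5 i j) inter_subset_left).hbPd j).hbAdd
    (h6.hbPd i)

theorem lay_dv {F : VF} {M : ℝ} (h : LayM Ω F M) (x : E3) : dv F x = 0 := by
  obtain ⟨φ, O, A, B, q, h1, h2, h3, h4, h5, h6, h7, h8, h9, h10, h11, h12⟩ := h
  exact h10 x

theorem dv_smul {V : VF} (hV : ∀ i, ContDiff ℝ ∞ (V i)) (c : ℝ) (x : E3) :
    dv (fun i y => c * V i y) x = c * dv V x := by
  unfold dv
  rw [Finset.mul_sum]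
  exact Finset.sum_congr rfl fun i _ => OL.pd_smul (hV i) c i x

theorem lay_scale {F : VF} {M c : ℝ} (hc : 0 ≤ c) (h : LayM Ω F M) :
    LayM Ω (fun i x => c ^ 2 * F i x) (c * M) := by
  have hcs := lay_cs h
  have hdv := lay_dv h
  obtain ⟨φ, O, A, B, q, h1, h2, h3, h4, h5, h6, h7, h8, h9, h10, h11, h12⟩ := h
  refine ⟨φ, O, fun i x => c * A i x, fun i x => c * B i x, fun x => c ^ 2 * q x, h1, h2, h3,
    fun i => OL.CS.smul (h4 i) c, fun i => OL.CS.smul (h5 i) c, OL.CS.smul h6 _, fun x => ?_,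
    fun x => ?_, fun i x => ?_, fun x => ?_, fun i x => ?_, fun i x => ?_⟩
  · have : ∑ j, c * A j x * pd j φ x = c * ∑ j, A j x * pd j φ x := by
      rw [Finset.mul_sum]
      exact Finset.sum_congr rfl fun j _ => by ring
    rw [this, h7, mul_zero]
  · have : ∑ j, c * B j x * pd j φ x = c * ∑ j, B j x * pd j φ x := by
      rw [Finset.mul_sum]
      exact Finset.sum_congr rfl fun j _ => by ring
    rw [this, h8, mul_zero]
  · show c ^ 2 * F i x = (∑ j, pd j (fun y => c * A i y * (c * A j y) + c * B i y * (c * B j y)) x)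
      + pd i (fun x => c ^ 2 * q x) x
    rw [h9 i x, OL.pd_smul h6.smooth, mul_add, Finset.mul_sum]
    congr 1
    refine Finset.sum_congr rfl fun j _ => ?_
    have e : (fun y => c * A i y * (c * A j y) + c * B i y * (c * B j y))
        = fun y => c ^ 2 * (A i y * A j y + B i y * B j y) := by
      funext y; ring
    rw [e, OL.pd_smul (quad_cs h4 h5 i j).smooth]
  · rw [dv_smul (fun i => (hcs i).smooth), hdv, mul_zero]
  · show |c * A i x| ≤ c * M
    rw [abs_mul, abs_of_nonneg hc]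
    exact mul_le_mul_of_nonneg_left (h11 i x) hc
  · show |c * B i x| ≤ c * M
    rw [abs_mul, abs_of_nonneg hc]
    exact mul_le_mul_of_nonneg_left (h12 i x) hc

theorem good_mono {ν Y η η' : ℝ} {v : VF} (h : GoodS Ω ν v Y η) (hη : η ≤ η') :
    GoodS Ω ν v Y η' := by
  intro T hT
  obtain ⟨u, u1, z, z1, k1, k2, k3, k4⟩ := h T hT
  exact ⟨u, u1, z, z1, k1, k2, k3, fun t ht h1 => (k4 t ht (hη.trans h1)).trans hη⟩

theorem good_zero (hun : S_univ) (hΩ : IsOpen Ω) (ν : ℝ) :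
    GoodS Ω ν (fun _ _ => 0) 0 0 := by
  intro T hT
  have hm : tensL (Ω := Ω) 0 = 0 := by
    obtain ⟨c, _, h⟩ := hun
    have := (h Ω hΩ).quart 0 (graphW Ω).zero_mem
    simpa using this
  have h0 : ((0 : L2V Ω), (0 : L2M Ω)) ∈ graphW Ω := (graphW Ω).zero_mem
  refine ⟨fun _ => 0, fun _ => 0, fun _ => 0, fun _ => 0, ?_, ?_, ?_, ?_⟩
  · refine ⟨fun t _ => h0, Eventually.of_forall fun _ => h0, ⟨0, by simp⟩, MemLp.zero, MemLp.zero,
      fun a b _ _ _ => by simp, fun a b _ _ _ => by simp, fun p _ t _ => ?_, fun t _ => ?_⟩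
    · simp [hm]
    · simp
  · have e : toE (fun _ _ => 0 : VF) = (0 : E3 → E3) := by
      funext x; ext i; rfl
    rw [e]
    exact (Pool.Agent.Y303.LV.cl_zero).symm
  · simp
  · intro t _ _
    simp

theorem bl_zero : Bl (fun _ _ => 0 : VF) 0 := by
  intro s x hs
  have e : toE (fun _ _ => 0 : VF) = (0 : E3 → E3) := by
    funext x; ext i; rfl
  rw [e]
  have : (heat s (0 : E3 → E3) x : E3) = 0 := by
    rw [HB.heat_eq]
    have h := OL.hE_smul 0 (0 : E3 → E3) s x
    have e0 : (fun y => (0 : ℝ) • (0 : E3 → E3) y) = (0 : E3 → E3) := by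
      funext y; simp
    rw [e0, zero_smul] at h
    exact h
  rw [this]
  simp

/-- the induction over the steps -/
theorem steps {ν Cν : ℝ} (h1 : ∀ Ω : Set E3, IsOpen Ω → Bornology.IsBounded Ω → ∀ (w g F : VF)
      (M Y η ε τ : ℝ), (∀ i, CS Ω (w i)) → (∀ i, CS Ω (g i)) → (∀ x, dv w x = 0) →
      (∀ x, dv g x = 0) → 0 ≤ M → LayM Ω F M → 0 ≤ Y → 0 ≤ η → 0 < τ → Bl w ε →
      GoodS Ω ν (fun i x => g i x + w i x) Y η →
      ∃ (w' : VF) (Y' : ℝ), (∀ i, CS Ω (w' i)) ∧ (∀ x, dv w' x = 0) ∧ 0 ≤ Y' ∧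
        Bl w' (max ε (Cν * M) + τ) ∧
        GoodS Ω ν (fun i x => (g i x + F i x) + w' i x) Y' (η + τ))
    (hun : S_univ) (hΩ : IsOpen Ω) (hb : Bornology.IsBounded Ω) {M τ : ℝ} (hCν : 0 < Cν)
    (hM : 0 ≤ M) (hτ : 0 < τ) (F : ℕ → VF) :
    ∀ m : ℕ, (∀ l, l < m → LayM Ω (F l) M) →
      ∃ (w : VF) (Y : ℝ), (∀ i, CS Ω (w i)) ∧ (∀ x, dv w x = 0) ∧ 0 ≤ Y ∧
        Bl w (Cν * M + m * τ) ∧
        GoodS Ω ν (fun i x => (∑ l ∈ Finset.range m, F l i x) + w i x) Y (m * τ) ∧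
        (∀ i, CS Ω (fun x => ∑ l ∈ Finset.range m, F l i x)) ∧
        ∀ x, dv (fun i x => ∑ l ∈ Finset.range m, F l i x) x = 0 := by
  intro m
  induction m with
  | zero =>
    intro _
    have hz : ∀ x, dv (fun _ _ => 0 : VF) x = 0 := by
      intro x
      unfold dv
      refine Finset.sum_eq_zero fun i _ => ?_
      have h := OL.pd_smul (f := fun _ : E3 => (0 : ℝ)) contDiff_const 0 i x
      simpa using h
    refine ⟨fun _ _ => 0, 0, fun i => OL.CS.zero, hz, le_rfl, ?_, ?_, ?_, ?_⟩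
    · intro s x hs
      have k1 := bl_zero s x hs
      have k2 : 0 ≤ Cν * M := by positivity
      simpa using k1.trans k2
    · have k := good_zero (Ω := Ω) hun hΩ ν
      simpa using k
    · intro i
      simpa using (OL.CS.zero (O := Ω))
    · intro x
      simpa using hz x
  | succ m ih =>
    intro hF
    obtain ⟨w, Y, k1, k2, k3, k4, k5, k6, k7⟩ := ih fun l hl => hF l (by omega)
    have hFm := hF m (by omega)
    obtain ⟨w', Y', j1, j2, j3, j4, j5⟩ := h1 Ω hΩ hb w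
      (fun i x => ∑ l ∈ Finset.range m, F l i x) (F m) M Y (m * τ) (Cν * M + m * τ) τ
      k1 k6 k2 k7 hM hFm k3 (by positivity) hτ k4 k5
    have e1 : max (Cν * M + m * τ) (Cν * M) + τ = Cν * M + ((m + 1 : ℕ) : ℝ) * τ := by
      rw [max_eq_left]
      · push_cast; ring
      · have : 0 ≤ (m : ℝ) * τ := by positivity
        linarith
    have e2 : (m : ℝ) * τ + τ = ((m + 1 : ℕ) : ℝ) * τ := by push_cast; ring
    rw [e1] at j4
    rw [e2] at j5
    refine ⟨w', Y', j1, j2, j3, j4, ?_, ?_, ?_⟩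
    · simpa only [Finset.sum_range_succ] using j5
    · intro i
      simp only [Finset.sum_range_succ]
      exact (k6 i).hbAdd (lay_cs hFm i)
    · intro x
      simp only [Finset.sum_range_succ]
      rw [OL.dv_add (V := fun i x => ∑ l ∈ Finset.range m, F l i x) (fun i => (k6 i).smooth)
        (fun i => (lay_cs hFm i).smooth), k7, lay_dv hFm, add_zero]

end DM

open DM in
/-- TASK B2: all the layers, from `one_layer` -/
theorem dense_mid_of {ν : ℝ} (hone : OneS ν) (hun : S_univ) {Ω : Set E3}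
    (hΩ : IsOpen Ω) (hb : Bornology.IsBounded Ω) {G : VF} (hG : IsSum Ω G) {ε : ℝ}
    (hε : 0 < ε) :
    ∃ (w : VF) (Y : ℝ), (∀ i, CS Ω (w i)) ∧ (∀ x, dv w x = 0) ∧ 0 ≤ Y ∧ Bl w ε ∧
      GoodS Ω ν (fun i x => G i x + w i x) Y ε := by
  obtain ⟨Cν, hCν, h1⟩ := hone
  obtain ⟨n, L, hL, hGL⟩ := hG
  choose M0 hM0 hLM using fun l => lay_bound (hL l)
  set M : ℝ := ∑ l, M0 l with hMdef
  have hM : 0 ≤ M := Finset.sum_nonneg fun l _ => hM0 l
  have hLM' : ∀ l, LayM Ω (L l) M := fun l => layM_mono (hLM l)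
    (Finset.single_le_sum (f := M0) (fun l _ => hM0 l) (Finset.mem_univ l))
  -- the number of repetitions
  obtain ⟨K, hK⟩ := exists_nat_gt (2 * (Cν * M) / ε)
  have hKε : 2 * (Cν * M) < K * ε := by
    rwa [div_lt_iff₀ hε] at hK
  have hKpos : (0 : ℝ) < K + 1 := by positivity
  set c : ℝ := ((K : ℝ) + 1)⁻¹ with hc
  have hc0 : 0 < c := by positivity
  -- the steps
  set N : ℕ := (K + 1) ^ 2 with hN
  have hNc : (N : ℝ) * c ^ 2 = 1 := by
    rw [hN, hc]
    push_cast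
    field_simp
  set F : ℕ → VF := fun l => if h : l % n < n then
    (fun i x => c ^ 2 * L ⟨l % n, h⟩ i x) else (fun _ _ => 0) with hF
  have hFl : ∀ l, l < N * n → LayM Ω (F l) (c * M) := by
    intro l hl
    have hn : 0 < n := by
      rcases Nat.eq_zero_or_pos n with h | h
      · subst h; simp at hl
      · exact h
    have h : l % n < n := Nat.mod_lt _ hn
    have e : F l = fun i x => c ^ 2 * L ⟨l % n, h⟩ i x := by
      rw [hF]
      simp only [dif_pos h]
    rw [e]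
    exact lay_scale hc0.le (hLM' _)
  have hsum : ∀ i x, ∑ l ∈ Finset.range (N * n), F l i x = G i x := by
    intro i x
    have hper : ∀ k : ℕ, ∑ l ∈ Finset.range (k * n), F l i x
        = (k : ℝ) * (c ^ 2 * ∑ l, L l i x) := by
      intro k
      induction k with
      | zero => simp
      | succ k ih =>
        rw [Nat.succ_mul, Finset.sum_range_add, ih]
        have e : ∑ y ∈ Finset.range n, F (k * n + y) i x = c ^ 2 * ∑ l, L l i x := by
          rw [Finset.sum_range, Finset.mul_sum]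
          refine Finset.sum_congr rfl fun l _ => ?_
          have h2 : (k * n + (l : ℕ)) % n = l := by
            rw [Nat.mul_comm, Nat.mul_add_mod, Nat.mod_eq_of_lt l.2]
          have h3 : (k * n + (l : ℕ)) % n < n := by rw [h2]; exact l.2
          have e2 : F (k * n + l) = fun i x => c ^ 2 * L ⟨(k * n + (l : ℕ)) % n, h3⟩ i x := by
            rw [hF]
            simp only [dif_pos h3]
          rw [e2]
          have e3 : (⟨(k * n + (l : ℕ)) % n, h3⟩ : Fin n) = l := Fin.ext h2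
          show c ^ 2 * L ⟨(k * n + (l : ℕ)) % n, h3⟩ i x = _
          rw [e3]
        rw [e]
        push_cast
        ring
    rw [hper N, ← mul_assoc, hNc, one_mul, hGL]
  set τ : ℝ := ε / (2 * ((N * n : ℕ) + 1)) with hτdef
  have hτ : 0 < τ := by positivity
  have hmτ : ((N * n : ℕ) : ℝ) * τ ≤ ε / 2 := by
    rw [hτdef, mul_div_assoc', div_le_div_iff₀ (by positivity) (by norm_num)]
    nlinarith [hε]
  have hCM : Cν * (c * M) ≤ ε / 2 := by
    have : Cν * (c * M) = (Cν * M) / ((K : ℝ) + 1) := by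
      rw [hc]; field_simp
    rw [this, div_le_div_iff₀ hKpos (by norm_num)]
    nlinarith
  obtain ⟨w, Y, k1, k2, k3, k4, k5, _, _⟩ := steps h1 hun hΩ hb hCν
    (mul_nonneg hc0.le hM) hτ F (N * n) hFl
  refine ⟨w, Y, k1, k2, k3, ?_, ?_⟩
  · intro s x hs
    exact (k4 s x hs).trans (by linarith)
  · have k6 := good_mono k5 (hmτ.trans (by linarith : ε / 2 ≤ ε))
    simpa only [hsum] using k6

end Pool.Agent.T2H10.DN
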