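import Pool.Agent.T2H10.DN.Defs3
import Pool.Agent.T2H10.DN.DenseMid

/-!
All the layers, in the norm of `B^{-1}_{∞,q}` and with a force (TASK G6).
-/

set_option autoImplicit false
set_option linter.unusedSectionVars false

open MeasureTheory Set Filter Topology
open scoped InnerProductSpace ENNReal ContDiff

namespace Pool.Agent.T2H10.DN

open H772R2.NS
open H772R2.NSR (Frame)
open Pool.Agent.W795.TQ
open Pool.Agent.Y303.RA (Hom)
open Pool.Agent.Y303.LV (heat cl clj)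

namespace DMF

/-- the statement of `one_layerF` -/
def OneF (ν q : ℝ) : Prop :=
    ∃ Cν : ℝ, 0 < Cν ∧ ∀ Ω : Set E3, IsOpen Ω → Bornology.IsBounded Ω → ∀ (TT' : Set ℝ)
      (f f1 : ℝ → L2M Ω) (Φ : ℝ) (U : ℝ → L2V Ω) (w g F : VF) (M Y η E τ : ℝ),
      ForceB Ω TT' f f1 Φ → (∀ i, CS Ω (w i)) → (∀ i, CS Ω (g i)) → (∀ x, dv w x = 0) →
      (∀ x, dv g x = 0) → 0 ≤ M → LayM Ω F M → 0 ≤ Y → 0 ≤ η → 0 < τ → Bq q w E →
      GoodF Ω ν TT' f U (fun i x => g i x + w i x) Y η →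
      ∃ (w' : VF) (Y' : ℝ), (∀ i, CS Ω (w' i)) ∧ (∀ x, dv w' x = 0) ∧ 0 ≤ Y' ∧
        Bq q w' (E + Cν * M ^ q + τ) ∧
        GoodF Ω ν TT' f U (fun i x => (g i x + F i x) + w' i x) Y' (η + τ)

variable {Ω : Set E3}

theorem goodF_mono {ν Y η η' : ℝ} {TT' : Set ℝ} {f : ℝ → L2M Ω} {U : ℝ → L2V Ω} {v : VF}
    (h : GoodF Ω ν TT' f U v Y η) (hη : η ≤ η') : GoodF Ω ν TT' f U v Y η' := by
  intro T hT
  obtain ⟨u, u1, z, z1, k1, k2, k3, k4⟩ := h T hT
  exact ⟨u, u1, z, z1, k1, k2, k3, fun t ht h1 => (k4 t ht (hη.trans h1)).trans hη⟩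

theorem bq_mono {q E E' : ℝ} {w : VF} (h : Bq q w E) (hE : E ≤ E') : Bq q w E' := by
  obtain ⟨a, h1, h2, h3, h4, h5⟩ := h
  exact ⟨a, h1, h2, h3, h4, h5.trans hE⟩

theorem bq_zero {q : ℝ} (hq : q ≠ 0) : Bq q (fun _ _ => 0 : VF) 0 := by
  refine ⟨fun _ => 0, measurable_const, fun _ => le_rfl, fun s x hs => DM.bl_zero s x hs, ?_, ?_⟩
  · simp only [Real.zero_rpow hq, zero_mul]
    exact integrableOn_zero
  · simp only [Real.zero_rpow hq, zero_mul, integral_zero]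
    exact le_rfl

/-- the induction over the steps -/
theorem steps {ν q Cν : ℝ} (hq : q ≠ 0)
    (h1 : ∀ Ω : Set E3, IsOpen Ω → Bornology.IsBounded Ω → ∀ (TT' : Set ℝ)
      (f f1 : ℝ → L2M Ω) (Φ : ℝ) (U : ℝ → L2V Ω) (w g F : VF) (M Y η E τ : ℝ),
      ForceB Ω TT' f f1 Φ → (∀ i, CS Ω (w i)) → (∀ i, CS Ω (g i)) → (∀ x, dv w x = 0) →
      (∀ x, dv g x = 0) → 0 ≤ M → LayM Ω F M → 0 ≤ Y → 0 ≤ η → 0 < τ → Bq q w E →
      GoodF Ω ν TT' f U (fun i x => g i x + w i x) Y η →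
      ∃ (w' : VF) (Y' : ℝ), (∀ i, CS Ω (w' i)) ∧ (∀ x, dv w' x = 0) ∧ 0 ≤ Y' ∧
        Bq q w' (E + Cν * M ^ q + τ) ∧
        GoodF Ω ν TT' f U (fun i x => (g i x + F i x) + w' i x) Y' (η + τ))
    (hΩ : IsOpen Ω) (hb : Bornology.IsBounded Ω) {TT' : Set ℝ}
    {f f1 : ℝ → L2M Ω} {Φ : ℝ} (hf : ForceB Ω TT' f f1 Φ) {U : ℝ → L2V Ω} {g : VF}
    (hg : ∀ i, CS Ω (g i)) (hdg : ∀ x, dv g x = 0) {Y : ℝ} (hY : 0 ≤ Y)
    (hgood : GoodF Ω ν TT' f U g Y 0) {M τ : ℝ} (hM : 0 ≤ M) (hτ : 0 < τ) (F : ℕ → VF) :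
    ∀ m : ℕ, (∀ l, l < m → LayM Ω (F l) M) →
      ∃ (w : VF) (Y : ℝ), (∀ i, CS Ω (w i)) ∧ (∀ x, dv w x = 0) ∧ 0 ≤ Y ∧
        Bq q w (m * (Cν * M ^ q + τ)) ∧
        GoodF Ω ν TT' f U (fun i x => (g i x + ∑ l ∈ Finset.range m, F l i x) + w i x) Y
          (m * τ) ∧
        (∀ i, CS Ω (fun x => g i x + ∑ l ∈ Finset.range m, F l i x)) ∧
        ∀ x, dv (fun i x => g i x + ∑ l ∈ Finset.range m, F l i x) x = 0 := by
  intro m
  induction m with
  | zero =>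
    intro _
    have hz : ∀ x, dv (fun _ _ => 0 : VF) x = 0 := by
      intro x
      unfold dv
      refine Finset.sum_eq_zero fun i _ => ?_
      have h := OL.pd_smul (f := fun _ : E3 => (0 : ℝ)) contDiff_const 0 i x
      simpa using h
    refine ⟨fun _ _ => 0, Y, fun i => OL.CS.zero, hz, hY, ?_, ?_, ?_, ?_⟩
    · have k := bq_zero hq
      simpa using k
    · simpa using hgood
    · intro i
      simpa using hg i
    · intro x
      simpa using hdg x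
  | succ m ih =>
    intro hF
    obtain ⟨w, Y, k1, k2, k3, k4, k5, k6, k7⟩ := ih fun l hl => hF l (by omega)
    have hFm := hF m (by omega)
    obtain ⟨w', Y', j1, j2, j3, j4, j5⟩ := h1 Ω hΩ hb TT' f f1 Φ U w
      (fun i x => g i x + ∑ l ∈ Finset.range m, F l i x) (F m) M Y (m * τ)
      (m * (Cν * M ^ q + τ)) τ hf k1 k6 k2 k7 hM hFm k3 (by positivity) hτ k4 k5
    have e1 : m * (Cν * M ^ q + τ) + Cν * M ^ q + τ
        = ((m + 1 : ℕ) : ℝ) * (Cν * M ^ q + τ) := by push_cast; ring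
    have e2 : (m : ℝ) * τ + τ = ((m + 1 : ℕ) : ℝ) * τ := by push_cast; ring
    rw [e1] at j4
    rw [e2] at j5
    refine ⟨w', Y', j1, j2, j3, j4, ?_, ?_, ?_⟩
    · simpa only [Finset.sum_range_succ, add_assoc] using j5
    · intro i
      simp only [Finset.sum_range_succ, ← add_assoc]
      exact (k6 i).hbAdd (DM.lay_cs hFm i)
    · intro x
      simp only [Finset.sum_range_succ, ← add_assoc]
      rw [OL.dv_add (V := fun i x => g i x + ∑ l ∈ Finset.range m, F l i x)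
        (fun i => (k6 i).smooth) (fun i => (DM.lay_cs hFm i).smooth), k7, DM.lay_dv hFm, add_zero]

end DMF

open DM DMF in
/-- TASK G6: all the layers, from `one_layerF` -/
theorem dense_midF_of {ν q : ℝ} (hq : 2 < q) (hone : OneF ν q)
    {Ω : Set E3} (hΩ : IsOpen Ω) (hb : Bornology.IsBounded Ω) {TT' : Set ℝ}
    {f f1 : ℝ → L2M Ω} {Φ : ℝ} (hf : ForceB Ω TT' f f1 Φ) {U : ℝ → L2V Ω} {g G : VF}
    (hg : ∀ i, CS Ω (g i)) (hdg : ∀ x, dv g x = 0) {Y : ℝ} (hY : 0 ≤ Y)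
    (hgood : GoodF Ω ν TT' f U g Y 0) (hG : IsSum Ω G) {ε : ℝ} (hε : 0 < ε) :
    ∃ (w : VF) (Y' : ℝ), (∀ i, CS Ω (w i)) ∧ (∀ x, dv w x = 0) ∧ 0 ≤ Y' ∧ Bq q w ε ∧
      GoodF Ω ν TT' f U (fun i x => (g i x + G i x) + w i x) Y' ε := by
  obtain ⟨Cν, hCν, h1⟩ := hone
  obtain ⟨n, L, hL, hGL⟩ := hG
  choose M0 hM0 hLM using fun l => lay_bound (hL l)
  set M : ℝ := ∑ l, M0 l with hMdef
  have hM : 0 ≤ M := Finset.sum_nonneg fun l _ => hM0 l
  have hLM' : ∀ l, LayM Ω (L l) M := fun l => layM_mono (hLM l)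
    (Finset.single_le_sum (f := M0) (fun l _ => hM0 l) (Finset.mem_univ l))
  -- the number of repetitions
  have hlim : Tendsto (fun K : ℕ => (n : ℝ) * (Cν * M ^ q) * ((K : ℝ) + 1) ^ (-(q - 2))) atTop
      (𝓝 0) := by
    have h := (tendsto_rpow_neg_atTop (by linarith : 0 < q - 2)).comp
      (tendsto_atTop_add_const_right atTop (1 : ℝ) tendsto_natCast_atTop_atTop)
    have h2 := h.const_mul ((n : ℝ) * (Cν * M ^ q))
    simpa using h2
  obtain ⟨K, hK⟩ := (hlim.eventually (gt_mem_nhds (half_pos hε))).exists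
  have hKpos : (0 : ℝ) < K + 1 := by positivity
  set c : ℝ := ((K : ℝ) + 1)⁻¹ with hc
  have hc0 : 0 < c := by positivity
  -- the steps
  set N : ℕ := (K + 1) ^ 2 with hN
  have hNc : (N : ℝ) * c ^ 2 = 1 := by
    rw [hN, hc]
    push_cast
    field_simp
  set F : ℕ → VF := fun l => if h : l % n < n then
    (fun i x => c ^ 2 * L ⟨l % n, h⟩ i x) else (fun _ _ => 0) with hF
  have hFl : ∀ l, l < N * n → LayM Ω (F l) (c * M) := by
    intro l hl
    have hn : 0 < n := by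
      rcases Nat.eq_zero_or_pos n with h | h
      · subst h; simp at hl
      · exact h
    have h : l % n < n := Nat.mod_lt _ hn
    have e : F l = fun i x => c ^ 2 * L ⟨l % n, h⟩ i x := by
      rw [hF]
      simp only [dif_pos h]
    rw [e]
    exact lay_scale hc0.le (hLM' _)
  have hsum : ∀ i x, ∑ l ∈ Finset.range (N * n), F l i x = G i x := by
    intro i x
    have hper : ∀ k : ℕ, ∑ l ∈ Finset.range (k * n), F l i x
        = (k : ℝ) * (c ^ 2 * ∑ l, L l i x) := by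
      intro k
      induction k with
      | zero => simp
      | succ k ih =>
        rw [Nat.succ_mul, Finset.sum_range_add, ih]
        have e : ∑ y ∈ Finset.range n, F (k * n + y) i x = c ^ 2 * ∑ l, L l i x := by
          rw [Finset.sum_range, Finset.mul_sum]
          refine Finset.sum_congr rfl fun l _ => ?_
          have h2 : (k * n + (l : ℕ)) % n = l := by
            rw [Nat.mul_comm, Nat.mul_add_mod, Nat.mod_eq_of_lt l.2]
          have h3 : (k * n + (l : ℕ)) % n < n := by rw [h2]; exact l.2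
          have e2 : F (k * n + l) = fun i x => c ^ 2 * L ⟨(k * n + (l : ℕ)) % n, h3⟩ i x := by
            rw [hF]
            simp only [dif_pos h3]
          rw [e2]
          have e3 : (⟨(k * n + (l : ℕ)) % n, h3⟩ : Fin n) = l := Fin.ext h2
          show c ^ 2 * L ⟨(k * n + (l : ℕ)) % n, h3⟩ i x = _
          rw [e3]
        rw [e]
        push_cast
        ring
    rw [hper N, ← mul_assoc, hNc, one_mul, hGL]
  set τ : ℝ := ε / (2 * ((N * n : ℕ) + 1)) with hτdef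
  have hτ : 0 < τ := by positivity
  have hmτ : ((N * n : ℕ) : ℝ) * τ ≤ ε / 2 := by
    rw [hτdef, mul_div_assoc', div_le_div_iff₀ (by positivity) (by norm_num)]
    nlinarith [hε]
  have hCM : ((N * n : ℕ) : ℝ) * (Cν * (c * M) ^ q) ≤ ε / 2 := by
    have e1 : (c * M) ^ q = ((K : ℝ) + 1) ^ (-q) * M ^ q := by
      rw [Real.mul_rpow hc0.le hM, hc, Real.inv_rpow hKpos.le, Real.rpow_neg hKpos.le]
    have e2 : ((K : ℝ) + 1) ^ (-(q - 2)) = ((K : ℝ) + 1) ^ 2 * ((K : ℝ) + 1) ^ (-q) := by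
      rw [← Real.rpow_natCast, ← Real.rpow_add hKpos]
      congr 1
      push_cast
      ring
    have e3 : ((N * n : ℕ) : ℝ) * (Cν * (c * M) ^ q)
        = (n : ℝ) * (Cν * M ^ q) * ((K : ℝ) + 1) ^ (-(q - 2)) := by
      rw [e1, e2, hN]
      push_cast
      ring
    rw [e3]
    exact hK.le
  obtain ⟨w, Y', k1, k2, k3, k4, k5, _, _⟩ := DMF.steps (by linarith : q ≠ 0) h1 hΩ hb hf hg hdg
    hY hgood (mul_nonneg hc0.le hM) hτ F (N * n) hFl
  refine ⟨w, Y', k1, k2, k3, bq_mono k4 ?_, ?_⟩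
  · rw [mul_add]
    linarith
  · have k6 := goodF_mono k5 (hmτ.trans (by linarith : ε / 2 ≤ ε))
    simpa only [hsum] using k6

end Pool.Agent.T2H10.DN
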