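import Pool.Agent.T2H10.DN.Defs
import Pool.Agent.H772R2.NS.Space1

/-!
Bounds for the heat kernel (TASK T3).
-/

set_option autoImplicit false
set_option linter.unusedSectionVars false

open MeasureTheory Set Filter Topology
open scoped InnerProductSpace ENNReal ContDiff

namespace Pool.Agent.T2H10.DN

open H772R2.NS
open Pool.Agent.Y303.LV (heat)

namespace HB

/-- the unnormalised kernel -/
noncomputable def ker (s : ℝ) (x y : E3) : ℝ := Real.exp (-‖x - y‖ ^ 2 / (4 * s))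

/-- the normalisation -/
noncomputable def nrm (s : ℝ) : ℝ := ((4 * Real.pi * s) ^ (3 / 2 : ℝ))⁻¹

/-- the heat semigroup on `E3` -/
noncomputable def hE (s : ℝ) (φ : E3 → E3) (x : E3) : E3 := nrm s • ∫ y, ker s x y • φ y

/-- the heat semigroup on functions -/
noncomputable def hS (s : ℝ) (f : E3 → ℝ) (x : E3) : ℝ := nrm s * ∫ y, ker s x y * f y

theorem heat_eq (s : ℝ) (φ : E3 → E3) (x : E3) : (heat s φ x : E3) = hE s φ x := rfl

theorem nrm_nonneg {s : ℝ} (hs : 0 < s) : 0 ≤ nrm s := by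
  unfold nrm
  have := Real.pi_pos
  positivity

theorem ker_pos (s : ℝ) (x y : E3) : 0 < ker s x y := Real.exp_pos _

theorem ker_le_one {s : ℝ} (hs : 0 < s) (x y : E3) : ker s x y ≤ 1 := by
  unfold ker
  rw [Real.exp_le_one_iff]
  apply div_nonpos_of_nonpos_of_nonneg
  · nlinarith [sq_nonneg ‖x - y‖]
  · positivity

theorem ker_cont (s : ℝ) (x : E3) : Continuous (ker s x) := by
  unfold ker
  fun_prop

theorem ker_int {s : ℝ} (hs : 0 < s) (x : E3) : Integrable (ker s x) := by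
  have h1 : Integrable (fun v : E3 => Real.exp (-(1 / (4 * s)) * ‖v‖ ^ 2)) := by
    have := GaussianFourier.integrable_cexp_neg_mul_sq_norm_add (V := E3) (b := ((1 / (4 * s) : ℝ) : ℂ))
      (by simpa using hs) 0 0
    have h2 := this.re
    refine h2.congr (Eventually.of_forall fun v => ?_)
    simp only [zero_mul, add_zero, RCLike.re_to_complex]
    have : (-((1 / (4 * s) : ℝ) : ℂ) * (‖v‖ : ℂ) ^ 2) = ((-(1 / (4 * s)) * ‖v‖ ^ 2 : ℝ) : ℂ) := by
      push_cast
      ring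
    rw [this, ← Complex.ofReal_exp, Complex.ofReal_re]
  have h3 := h1.comp_sub_left x
  refine h3.congr (Eventually.of_forall fun y => ?_)
  unfold ker
  congr 1
  field_simp

theorem ker_mass {s : ℝ} (hs : 0 < s) (x : E3) : ∫ y, ker s x y = (4 * Real.pi * s) ^ (3 / 2 : ℝ) := by
  have h1 := GaussianFourier.integral_rexp_neg_mul_sq_norm (V := E3) (b := 1 / (4 * s)) (by positivity)
  have h2 := integral_sub_left_eq_self (fun v : E3 => Real.exp (-(1 / (4 * s)) * ‖v‖ ^ 2)) volume x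
  rw [h1, finrank_euclideanSpace, Fintype.card_fin] at h2
  have e : Real.pi / (1 / (4 * s)) = 4 * Real.pi * s := by field_simp
  rw [e] at h2
  have e3 : (((3 : ℕ) : ℝ) / 2) = (3 / 2 : ℝ) := by norm_num
  rw [e3] at h2
  rw [← h2]
  refine integral_congr_ae (Eventually.of_forall fun y => ?_)
  unfold ker
  simp only
  congr 1
  field_simp

theorem nrm_mul_mass {s : ℝ} (hs : 0 < s) (x : E3) : nrm s * ∫ y, ker s x y = 1 := by
  rw [ker_mass hs, nrm, inv_mul_cancel₀]
  have := Real.pi_pos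
  positivity

/-- integral against a bounded function -/
theorem norm_hE_le {φ : E3 → E3} {M : ℝ} (hM : ∀ x, ‖φ x‖ ≤ M) {s : ℝ} (hs : 0 < s) (x : E3) :
    ‖hE s φ x‖ ≤ M := by
  unfold hE
  rw [norm_smul, Real.norm_of_nonneg (nrm_nonneg hs)]
  calc nrm s * ‖∫ y, ker s x y • φ y‖ ≤ nrm s * ∫ y, ker s x y * M := by
        refine mul_le_mul_of_nonneg_left ?_ (nrm_nonneg hs)
        have hb : Integrable (fun y => ker s x y * M) := (ker_int hs x).mul_const M
        refine norm_integral_le_of_norm_le hb (Eventually.of_forall fun y => ?_)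
        rw [norm_smul, Real.norm_of_nonneg (ker_pos s x y).le]
        exact mul_le_mul_of_nonneg_left (hM y) (ker_pos s x y).le
    _ = M := by
        rw [integral_mul_const, ← mul_assoc, nrm_mul_mass hs x, one_mul]

theorem ker_smul_int {φ : E3 → E3} (hφ : Continuous φ) (hc : HasCompactSupport φ) (s : ℝ) (x : E3) :
    Integrable (fun y => ker s x y • φ y) := by
  have h1 : Continuous (fun y => ker s x y • φ y) := (ker_cont s x).smul hφ
  refine h1.integrable_of_hasCompactSupport (hc.mono fun y hy h0 => hy ?_)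
  simp only [h0, smul_zero]

theorem hE_add {φ ψ : E3 → E3} (hφ : Continuous φ) (hc : HasCompactSupport φ)
    (hψ : Continuous ψ) (hc' : HasCompactSupport ψ) (s : ℝ) (x : E3) :
    hE s (fun y => φ y + ψ y) x = hE s φ x + hE s ψ x := by
  unfold hE
  rw [← smul_add, ← integral_add (ker_smul_int hφ hc s x) (ker_smul_int hψ hc' s x)]
  simp only [smul_add]

theorem nrm_le {s : ℝ} (hs : 1 ≤ s) : √s * nrm s ≤ 1 := by
  have hs0 : 0 < s := by linarith
  have hpi := Real.pi_gt_three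
  unfold nrm
  have h1 : √s ≤ (4 * Real.pi * s) ^ (3 / 2 : ℝ) := by
    rw [Real.sqrt_eq_rpow]
    calc s ^ (1 / 2 : ℝ) ≤ s ^ (3 / 2 : ℝ) := Real.rpow_le_rpow_of_exponent_le hs (by norm_num)
      _ ≤ (4 * Real.pi * s) ^ (3 / 2 : ℝ) := by
          refine Real.rpow_le_rpow hs0.le ?_ (by norm_num)
          nlinarith
  have h2 : 0 < (4 * Real.pi * s) ^ (3 / 2 : ℝ) := by positivity
  calc √s * ((4 * Real.pi * s) ^ (3 / 2 : ℝ))⁻¹
      ≤ (4 * Real.pi * s) ^ (3 / 2 : ℝ) * ((4 * Real.pi * s) ^ (3 / 2 : ℝ))⁻¹ := by gcongr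
    _ = 1 := mul_inv_cancel₀ h2.ne'

theorem hE_sqrt {φ : E3 → E3} (hφ : Continuous φ) (hc : HasCompactSupport φ) :
    ∃ C : ℝ, 0 ≤ C ∧ ∀ (s : ℝ) (x : E3), 0 < s → √s * ‖hE s φ x‖ ≤ C := by
  obtain ⟨M, hM⟩ := hc.exists_bound_of_continuous hφ
  have hM0 : 0 ≤ M := (norm_nonneg _).trans (hM 0)
  have hi : Integrable φ := hφ.integrable_of_hasCompactSupport hc
  have hI0 : 0 ≤ ∫ y, ‖φ y‖ := integral_nonneg fun y => norm_nonneg _
  refine ⟨M + ∫ y, ‖φ y‖, by positivity, fun s x hs => ?_⟩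
  rcases le_total s 1 with h | h
  · have h1 := norm_hE_le hM hs x
    have h2 : √s ≤ 1 := Real.sqrt_le_one.2 h
    calc √s * ‖hE s φ x‖ ≤ 1 * M := by gcongr
      _ ≤ _ := by linarith
  · unfold hE
    rw [norm_smul, Real.norm_of_nonneg (nrm_nonneg hs), ← mul_assoc]
    have h2 : ‖∫ y, ker s x y • φ y‖ ≤ ∫ y, ‖φ y‖ := by
      refine norm_integral_le_of_norm_le hi.norm (Eventually.of_forall fun y => ?_)
      rw [norm_smul, Real.norm_of_nonneg (ker_pos s x y).le]
      calc ker s x y * ‖φ y‖ ≤ 1 * ‖φ y‖ := by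
            gcongr
            exact ker_le_one hs x y
        _ = ‖φ y‖ := one_mul _
    calc √s * nrm s * ‖∫ y, ker s x y • φ y‖ ≤ 1 * ∫ y, ‖φ y‖ := by
          gcongr
          exact nrm_le h
      _ ≤ _ := by linarith

theorem ker_hasFDerivAt (s : ℝ) (x y : E3) :
    HasFDerivAt (ker s x) ((ker s x y / (2 * s)) • (innerSL ℝ (x - y) : E3 →L[ℝ] ℝ)) y := by
  have h1 : HasFDerivAt (fun y : E3 => x - y) (-(ContinuousLinearMap.id ℝ E3)) y :=
    (hasFDerivAt_id (𝕜 := ℝ) y).const_sub x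
  have h2 := h1.norm_sq
  have h2' : HasFDerivAt (fun y : E3 => -(‖x - y‖ ^ 2) * (1 / (4 * s) : ℝ)) _ y :=
    (h2.neg).mul_const (1 / (4 * s) : ℝ)
  have h3 : HasFDerivAt (fun y : E3 => Real.exp (-(‖x - y‖ ^ 2) * (1 / (4 * s) : ℝ))) _ y :=
    (Real.hasDerivAt_exp _).comp_hasFDerivAt y h2'
  have e : (fun y : E3 => Real.exp (-(‖x - y‖ ^ 2) * (1 / (4 * s)))) = ker s x := by
    funext z
    unfold ker
    congr 1
    ring
  have h4 := h3
  rw [e] at h4
  refine h4.congr_fderiv ?_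
  ext v
  simp only [ContinuousLinearMap.smul_apply, ContinuousLinearMap.neg_apply,
    ContinuousLinearMap.comp_apply, innerSL_apply_apply, smul_eq_mul, nsmul_eq_mul,
    ContinuousLinearMap.id_apply, inner_neg_right]
  have e2 : Real.exp (-(‖x - y‖ ^ 2) * (1 / (4 * s))) = ker s x y := congrFun e y
  simp only [e2]
  push_cast
  by_cases hs : s = 0
  · subst hs
    simp
  · field_simp
    ring

theorem pd_ker (s : ℝ) (x : E3) (j : Fin 3) :
    pd j (ker s x) = fun y => ker s x y * ((x j - y j) / (2 * s)) := by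
  funext y
  unfold pd
  rw [(ker_hasFDerivAt s x y).fderiv]
  simp only [_root_.smul_apply, innerSL_apply_apply, smul_eq_mul]
  have : ⟪x - y, EuclideanSpace.single j (1 : ℝ)⟫_ℝ = x j - y j := by
    rw [EuclideanSpace.inner_single_right]
    simp
  rw [this]
  ring

/-- the derivative of the kernel -/
noncomputable def k1 (s : ℝ) (x : E3) (a : Fin 3) (y : E3) : ℝ :=
  ker s x y * ((x a - y a) / (2 * s))

/-- the second derivative of the kernel -/
noncomputable def k2 (s : ℝ) (x : E3) (a j : Fin 3) (y : E3) : ℝ :=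
  ker s x y * ((x a - y a) / (2 * s) * ((x j - y j) / (2 * s)) - (if a = j then 1 else 0) / (2 * s))

theorem ker_differentiable (s : ℝ) (x : E3) : Differentiable ℝ (ker s x) :=
  fun y => (ker_hasFDerivAt s x y).differentiableAt

theorem coord_hasFDerivAt (a : Fin 3) (y : E3) :
    HasFDerivAt (fun z : E3 => z a) (EuclideanSpace.proj (𝕜 := ℝ) a : E3 →L[ℝ] ℝ) y :=
  (EuclideanSpace.proj (𝕜 := ℝ) a : E3 →L[ℝ] ℝ).hasFDerivAt

theorem lin_hasFDerivAt (s : ℝ) (x : E3) (a : Fin 3) (y : E3) :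
    HasFDerivAt (fun z : E3 => (x a - z a) * (1 / (2 * s)))
      ((1 / (2 * s)) • (-(EuclideanSpace.proj (𝕜 := ℝ) a : E3 →L[ℝ] ℝ))) y := by
  have h := ((coord_hasFDerivAt a y).const_sub (x a)).mul_const (1 / (2 * s) : ℝ)
  exact h

theorem k1_differentiable (s : ℝ) (x : E3) (a : Fin 3) : Differentiable ℝ (k1 s x a) := by
  intro y
  have h := (ker_hasFDerivAt s x y).mul (lin_hasFDerivAt s x a y)
  have e : (fun z => ker s x z * ((x a - z a) * (1 / (2 * s)))) = k1 s x a := by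
    funext z
    unfold k1
    ring
  have h2 := h.differentiableAt
  rw [← e]
  exact h2

theorem pd_k1 (s : ℝ) (x : E3) (a j : Fin 3) : pd j (k1 s x a) = k2 s x a j := by
  funext y
  have h := (ker_hasFDerivAt s x y).mul (lin_hasFDerivAt s x a y)
  have e : (fun z => ker s x z * ((x a - z a) * (1 / (2 * s)))) = k1 s x a := by
    funext z
    unfold k1
    ring
  have e' : (ker s x * fun z : E3 => (x a - z a) * (1 / (2 * s))) = k1 s x a := e
  have h2 := h.fderiv
  rw [e'] at h2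
  unfold pd
  rw [h2]
  have e1 : ⟪x - y, EuclideanSpace.single j (1 : ℝ)⟫_ℝ = x j - y j := by
    rw [EuclideanSpace.inner_single_right]
    simp
  have e3 : (EuclideanSpace.proj (𝕜 := ℝ) a : E3 →L[ℝ] ℝ) (EuclideanSpace.single j (1 : ℝ))
      = if a = j then 1 else 0 := by
    change (EuclideanSpace.single j (1 : ℝ) : E3) a = _
    rw [PiLp.single_apply]
  simp only [_root_.add_apply, _root_.smul_apply, innerSL_apply_apply, smul_eq_mul,
    _root_.neg_apply, e1, e3]
  unfold k2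
  split_ifs <;> ring

theorem k1_cont (s : ℝ) (x : E3) (a : Fin 3) : Continuous (k1 s x a) :=
  (k1_differentiable s x a).continuous

theorem k2_cont (s : ℝ) (x : E3) (a j : Fin 3) : Continuous (k2 s x a j) := by
  unfold k2
  have := ker_cont s x
  fun_prop

theorem coord_le (v : E3) (a : Fin 3) : |v a| ≤ ‖v‖ := by
  have := PiLp.norm_apply_le v a
  rwa [Real.norm_eq_abs] at this

theorem ker_two {s : ℝ} (hs : 0 < s) (x y : E3) :
    ker s x y * (1 + ‖x - y‖ ^ 2 / (8 * s)) ≤ ker (2 * s) x y := by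
  have h1 : ker s x y = ker (2 * s) x y * Real.exp (-(‖x - y‖ ^ 2 / (8 * s))) := by
    unfold ker
    rw [← Real.exp_add]
    congr 1
    field_simp
    ring
  have h2 : 1 + ‖x - y‖ ^ 2 / (8 * s) ≤ Real.exp (‖x - y‖ ^ 2 / (8 * s)) := by
    have := Real.add_one_le_exp (‖x - y‖ ^ 2 / (8 * s))
    linarith
  have h3 := ker_pos (2 * s) x y
  calc ker s x y * (1 + ‖x - y‖ ^ 2 / (8 * s))
      ≤ ker s x y * Real.exp (‖x - y‖ ^ 2 / (8 * s)) :=
        mul_le_mul_of_nonneg_left h2 (ker_pos s x y).le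
    _ = ker (2 * s) x y := by
        rw [h1, mul_assoc, ← Real.exp_add]
        simp

theorem k1_le {s : ℝ} (hs : 0 < s) (x : E3) (a : Fin 3) (y : E3) :
    √s * |k1 s x a y| ≤ ker (2 * s) x y := by
  set q := √s with hq
  have hq0 : 0 < q := Real.sqrt_pos.2 hs
  have hqs : q ^ 2 = s := Real.sq_sqrt hs.le
  set r := ‖x - y‖ with hr
  have hr0 : 0 ≤ r := norm_nonneg _
  have h1 : |x a - y a| ≤ r := coord_le (x - y) a
  have h2 : q * |(x a - y a) / (2 * s)| ≤ 1 + r ^ 2 / (8 * s) := by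
    rw [abs_div, abs_of_pos (show 0 < 2 * s by positivity), ← hqs]
    have h3 : q * (|x a - y a| / (2 * q ^ 2)) ≤ q * (r / (2 * q ^ 2)) := by gcongr
    refine h3.trans ?_
    have e1 : q * (r / (2 * q ^ 2)) = 4 * r * q / (8 * q ^ 2) := by
      field_simp
      ring
    have e2 : 1 + r ^ 2 / (8 * q ^ 2) = (8 * q ^ 2 + r ^ 2) / (8 * q ^ 2) := by
      field_simp
    rw [e1, e2]
    gcongr
    nlinarith [sq_nonneg (r - 2 * q), sq_nonneg q]
  unfold k1
  rw [abs_mul, abs_of_pos (ker_pos s x y)]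
  calc q * (ker s x y * |(x a - y a) / (2 * s)|) = ker s x y * (q * |(x a - y a) / (2 * s)|) := by
        ring
    _ ≤ ker s x y * (1 + r ^ 2 / (8 * s)) := mul_le_mul_of_nonneg_left h2 (ker_pos s x y).le
    _ ≤ _ := ker_two hs x y

theorem k2_le {s : ℝ} (hs : 0 < s) (x : E3) (a j : Fin 3) (y : E3) :
    s * |k2 s x a j y| ≤ 2 * ker (2 * s) x y := by
  set r := ‖x - y‖ with hr
  have hr0 : 0 ≤ r := norm_nonneg _
  have h1 : |x a - y a| ≤ r := coord_le (x - y) a
  have h1' : |x j - y j| ≤ r := coord_le (x - y) j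
  have h4 : |(if a = j then 1 else 0 : ℝ)| ≤ 1 := by split_ifs <;> simp
  have h2 : s * |(x a - y a) / (2 * s) * ((x j - y j) / (2 * s))
      - (if a = j then 1 else 0) / (2 * s)| ≤ 2 * (1 + r ^ 2 / (8 * s)) := by
    have h5 : |(x a - y a) / (2 * s) * ((x j - y j) / (2 * s))
      - (if a = j then 1 else 0) / (2 * s)| ≤ r / (2 * s) * (r / (2 * s)) + 1 / (2 * s) := by
      refine (abs_sub _ _).trans ?_
      rw [abs_mul, abs_div, abs_div, abs_div, abs_of_pos (show 0 < 2 * s by positivity)]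
      gcongr
    have h6 : s * (r / (2 * s) * (r / (2 * s)) + 1 / (2 * s)) = r ^ 2 / (4 * s) + 1 / 2 := by
      field_simp
      ring
    have h7 : r ^ 2 / (4 * s) = 2 * (r ^ 2 / (8 * s)) := by
      field_simp
      ring
    calc _ ≤ s * (r / (2 * s) * (r / (2 * s)) + 1 / (2 * s)) := by gcongr
      _ ≤ _ := by
        rw [h6, h7]
        linarith
  unfold k2
  rw [abs_mul, abs_of_pos (ker_pos s x y)]
  calc s * (ker s x y * |(x a - y a) / (2 * s) * ((x j - y j) / (2 * s))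
        - (if a = j then 1 else 0) / (2 * s)|)
      = ker s x y * (s * |(x a - y a) / (2 * s) * ((x j - y j) / (2 * s))
        - (if a = j then 1 else 0) / (2 * s)|) := by ring
    _ ≤ ker s x y * (2 * (1 + r ^ 2 / (8 * s))) :=
        mul_le_mul_of_nonneg_left h2 (ker_pos s x y).le
    _ = 2 * (ker s x y * (1 + r ^ 2 / (8 * s))) := by ring
    _ ≤ _ := by
        have := ker_two hs x y
        linarith

theorem nrm_two {s : ℝ} (hs : 0 < s) (x : E3) : nrm s * ∫ y, ker (2 * s) x y ≤ 3 := by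
  rw [ker_mass (by positivity)]
  have hpi := Real.pi_pos
  have h1 : (4 * Real.pi * (2 * s)) ^ (3 / 2 : ℝ) = 2 ^ (3 / 2 : ℝ) * (4 * Real.pi * s) ^ (3 / 2 : ℝ) := by
    rw [← Real.mul_rpow (by norm_num) (by positivity)]
    congr 1
    ring
  have h2 : 0 < (4 * Real.pi * s) ^ (3 / 2 : ℝ) := by positivity
  rw [h1, nrm]
  have h3 : (2 : ℝ) ^ (3 / 2 : ℝ) ≤ 3 := by
    have h4 : ((2 : ℝ) ^ (3 / 2 : ℝ)) ^ 2 = 8 := by
      rw [← Real.rpow_natCast, ← Real.rpow_mul (by norm_num)]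
      norm_num
    have h5 : (0 : ℝ) ≤ 2 ^ (3 / 2 : ℝ) := by positivity
    nlinarith
  calc ((4 * Real.pi * s) ^ (3 / 2 : ℝ))⁻¹ * (2 ^ (3 / 2 : ℝ) * (4 * Real.pi * s) ^ (3 / 2 : ℝ))
      = 2 ^ (3 / 2 : ℝ) := by field_simp
    _ ≤ 3 := h3

/-- the functional `nrm s ∫ κ f` is bounded -/
theorem abs_int_le {s : ℝ} (hs : 0 < s) (x : E3) {κ f : E3 → ℝ} {b M : ℝ} (hb : 0 ≤ b) (hM : 0 ≤ M)
    (hκ : ∀ y, |κ y| ≤ b * ker (2 * s) x y) (hf : ∀ y, |f y| ≤ M) :
    |nrm s * ∫ y, κ y * f y| ≤ 3 * b * M := by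
  have hi : Integrable (fun y => b * M * ker (2 * s) x y) :=
    (ker_int (by positivity) x).const_mul (b * M)
  have h1 : ‖∫ y, κ y * f y‖ ≤ ∫ y, b * M * ker (2 * s) x y := by
    refine norm_integral_le_of_norm_le hi (Eventually.of_forall fun y => ?_)
    rw [Real.norm_eq_abs, abs_mul]
    calc |κ y| * |f y| ≤ (b * ker (2 * s) x y) * M :=
          mul_le_mul (hκ y) (hf y) (abs_nonneg _) (mul_nonneg hb (ker_pos _ _ _).le)
      _ = b * M * ker (2 * s) x y := by ring
  rw [abs_mul, abs_of_nonneg (nrm_nonneg hs), ← Real.norm_eq_abs]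
  calc nrm s * ‖∫ y, κ y * f y‖ ≤ nrm s * ∫ y, b * M * ker (2 * s) x y :=
        mul_le_mul_of_nonneg_left h1 (nrm_nonneg hs)
    _ = b * M * (nrm s * ∫ y, ker (2 * s) x y) := by
        rw [integral_const_mul]
        ring
    _ ≤ b * M * 3 := mul_le_mul_of_nonneg_left (nrm_two hs x) (by positivity)
    _ = 3 * b * M := by ring

/-- the functional -/
noncomputable def T (s : ℝ) (x : E3) (a : Fin 3) (f : E3 → ℝ) : ℝ := nrm s * ∫ y, k1 s x a y * f y

theorem T_le {s : ℝ} (hs : 0 < s) (x : E3) (a : Fin 3) {f : E3 → ℝ} {M : ℝ} (hM : 0 ≤ M)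
    (hf : ∀ y, |f y| ≤ M) : √s * |T s x a f| ≤ 3 * M := by
  have hq0 : 0 < √s := Real.sqrt_pos.2 hs
  have h := abs_int_le hs x (κ := k1 s x a) (f := f) (b := 1 / √s) (by positivity) hM
    (fun y => by
      have := k1_le hs x a y
      rw [one_div, inv_mul_eq_div, le_div_iff₀ hq0]
      linarith) hf
  calc √s * |T s x a f| ≤ √s * (3 * (1 / √s) * M) := mul_le_mul_of_nonneg_left h hq0.le
    _ = 3 * M := by field_simp

theorem mul_int {κ f : E3 → ℝ} (hκ : Continuous κ) (hf : Continuous f) (hc : HasCompactSupport f) :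
    Integrable (fun y => κ y * f y) := by
  refine (hκ.mul hf).integrable_of_hasCompactSupport (hc.mono fun y hy h0 => hy ?_)
  change κ y * f y = 0
  rw [h0, mul_zero]

theorem _root_.Pool.Agent.T2H10.DN.CS.hbPd {O : Set E3} {f : E3 → ℝ} (hf : CS O f) (j : Fin 3) : CS O (pd j f) := by
  refine ⟨?_, ?_, ?_⟩
  · exact (hf.smooth.fderiv_right (m := ∞) (by simp)).clm_apply contDiff_const
  · exact hf.compact.fderiv_apply (𝕜 := ℝ) _
  · exact (tsupport_fderiv_apply_subset ℝ _).trans hf.supp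

theorem pd_cont {f : E3 → ℝ} (hf : ContDiff ℝ ∞ f) (j : Fin 3) : Continuous (pd j f) :=
  ((hf.fderiv_right (m := ∞) (by simp)).clm_apply contDiff_const).continuous

theorem pd_cs {f : E3 → ℝ} (hf : HasCompactSupport f) (j : Fin 3) : HasCompactSupport (pd j f) :=
  hf.fderiv_apply (𝕜 := ℝ) _

theorem hS_pd (s : ℝ) (x : E3) (a : Fin 3) {f : E3 → ℝ} (hf : ContDiff ℝ ∞ f)
    (hc : HasCompactSupport f) : hS s (pd a f) x = -T s x a f := by
  unfold hS T
  rw [← mul_neg]
  congr 1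
  have h := integral_mul_fderiv_eq_neg_fderiv_mul_of_integrable (μ := (volume : Measure E3))
    (f := ker s x) (g := f) (v := EuclideanSpace.single a (1 : ℝ))
    (by
      have := mul_int (k1_cont s x a) hf.continuous hc
      have e := pd_ker s x a
      exact this.congr (Eventually.of_forall fun y => by
        have := congrFun e y
        unfold pd at this
        simp only [this]
        rfl))
    (mul_int (ker_cont s x) (pd_cont hf a) (pd_cs hc a))
    (mul_int (ker_cont s x) hf.continuous hc)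
    (fun y _ => ker_differentiable s x y)
    (fun y _ => hf.differentiable (by simp) y)
  have e := pd_ker s x a
  have e2 : ∀ y, fderiv ℝ (ker s x) y (EuclideanSpace.single a 1) = k1 s x a y := fun y => by
    have := congrFun e y
    unfold pd at this
    exact this
  simp only [e2] at h
  exact h

theorem T_pd (s : ℝ) (x : E3) (a j : Fin 3) {f : E3 → ℝ} (hf : ContDiff ℝ ∞ f)
    (hc : HasCompactSupport f) : T s x a (pd j f) = -(nrm s * ∫ y, k2 s x a j y * f y) := by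
  unfold T
  rw [← mul_neg]
  congr 1
  have e2 : ∀ y, fderiv ℝ (k1 s x a) y (EuclideanSpace.single j 1) = k2 s x a j y := fun y => by
    have := congrFun (pd_k1 s x a j) y
    unfold pd at this
    exact this
  have h := integral_mul_fderiv_eq_neg_fderiv_mul_of_integrable (μ := (volume : Measure E3))
    (f := k1 s x a) (g := f) (v := EuclideanSpace.single j (1 : ℝ))
    (by
      simp only [e2]
      exact mul_int (k2_cont s x a j) hf.continuous hc)
    (mul_int (k1_cont s x a) (pd_cont hf j) (pd_cs hc j))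
    (mul_int (k1_cont s x a) hf.continuous hc)
    (fun y _ => k1_differentiable s x a y)
    (fun y _ => hf.differentiable (by simp) y)
  simp only [e2] at h
  exact h

theorem T_pd_le {s : ℝ} (hs : 0 < s) (x : E3) (a j : Fin 3) {f : E3 → ℝ} {M : ℝ}
    (hf : ContDiff ℝ ∞ f) (hc : HasCompactSupport f) (hM : 0 ≤ M)
    (hfM : ∀ y, |f y| ≤ M) : s * |T s x a (pd j f)| ≤ 6 * M := by
  rw [T_pd s x a j hf hc, abs_neg]
  have h := abs_int_le hs x (κ := k2 s x a j) (f := f) (b := 2 / s) (by positivity) hM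
    (fun y => by
      have := k2_le hs x a j y
      rw [div_mul_eq_mul_div, le_div_iff₀ hs]
      linarith) hfM
  calc s * |nrm s * ∫ y, k2 s x a j y * f y| ≤ s * (3 * (2 / s) * M) :=
        mul_le_mul_of_nonneg_left h hs.le
    _ = 6 * M := by
        field_simp
        ring

theorem toE_cont {V : VF} (h : ∀ i, Continuous (V i)) : Continuous (toE V) := by
  unfold toE
  exact (PiLp.continuous_toLp 2 _).comp (continuous_pi h)

theorem toE_cs {V : VF} (h : ∀ i, HasCompactSupport (V i)) : HasCompactSupport (toE V) := by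
  refine HasCompactSupport.of_support_subset_isCompact (isCompact_iUnion fun i => (h i)) ?_
  intro x hx
  rw [mem_iUnion]
  by_contra hcon
  push Not at hcon
  refine hx ?_
  ext i
  change V i x = 0
  exact image_eq_zero_of_notMem_tsupport (hcon i)

theorem hE_coord {V : VF} (h : ∀ i, Continuous (V i)) (hc : ∀ i, HasCompactSupport (V i)) (s : ℝ)
    (x : E3) (i : Fin 3) : (hE s (toE V) x) i = hS s (V i) x := by
  unfold hE hS
  have h1 := ker_smul_int (toE_cont h) (toE_cs hc) s x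
  have h2 := (EuclideanSpace.proj (𝕜 := ℝ) i : E3 →L[ℝ] ℝ).integral_comp_comm h1
  change nrm s * (∫ y, ker s x y • toE V y) i = _
  congr 1
  exact h2.symm

theorem norm_le_sum (v : E3) : ‖v‖ ≤ |v 0| + |v 1| + |v 2| := by
  have h1 := norm_sq_E3 v
  rw [Fin.sum_univ_three] at h1
  have h2 : ‖v‖ ^ 2 ≤ (|v 0| + |v 1| + |v 2|) ^ 2 := by
    rw [h1, ← sq_abs (v 0), ← sq_abs (v 1), ← sq_abs (v 2)]
    nlinarith [mul_nonneg (abs_nonneg (v 0)) (abs_nonneg (v 1)),
      mul_nonneg (abs_nonneg (v 0)) (abs_nonneg (v 2)),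
      mul_nonneg (abs_nonneg (v 1)) (abs_nonneg (v 2))]
  exact abs_le_of_sq_le_sq' h2 (by positivity) |>.2

theorem hS_sub (s : ℝ) (x : E3) {f g : E3 → ℝ} (hf : Continuous f) (hfc : HasCompactSupport f)
    (hg : Continuous g) (hgc : HasCompactSupport g) :
    hS s (fun y => f y - g y) x = hS s f x - hS s g x := by
  unfold hS
  rw [← mul_sub, ← integral_sub (mul_int (ker_cont s x) hf hfc) (mul_int (ker_cont s x) hg hgc)]
  simp only [mul_sub]

/-- the curl: from bounds of the functionals `T` -/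
theorem curl_le {W : VF} (hW : ∀ i, ContDiff ℝ ∞ (W i)) (hc : ∀ i, HasCompactSupport (W i))
    {s : ℝ} (x : E3) {c : Fin 3 → ℝ} (h : ∀ a b, √s * |T s x a (W b)| ≤ c b) :
    √s * ‖hE s (toE (cu W)) x‖ ≤ 2 * (c 0 + c 1 + c 2) := by
  have hcont : ∀ i, Continuous (cu W i) := by
    intro i
    fin_cases i
    · exact (pd_cont (hW 2) 1).sub (pd_cont (hW 1) 2)
    · exact (pd_cont (hW 0) 2).sub (pd_cont (hW 2) 0)
    · exact (pd_cont (hW 1) 0).sub (pd_cont (hW 0) 1)
  have hcs : ∀ i, HasCompactSupport (cu W i) := by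
    intro i
    fin_cases i
    · exact (pd_cs (hc 2) 1).sub (pd_cs (hc 1) 2)
    · exact (pd_cs (hc 0) 2).sub (pd_cs (hc 2) 0)
    · exact (pd_cs (hc 1) 0).sub (pd_cs (hc 0) 1)
  have hq : 0 ≤ √s := Real.sqrt_nonneg s
  have key : ∀ a b c' d : Fin 3, √s * |hS s (fun y => pd a (W b) y - pd c' (W d) y) x|
      ≤ c b + c d := by
    intro a b c' d
    rw [hS_sub s x (pd_cont (hW b) a) (pd_cs (hc b) a) (pd_cont (hW d) c') (pd_cs (hc d) c'),
      hS_pd s x a (hW b) (hc b), hS_pd s x c' (hW d) (hc d)]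
    have h1 := h a b
    have h2 := h c' d
    have h3 : |-T s x a (W b) - -T s x c' (W d)| ≤ |T s x a (W b)| + |T s x c' (W d)| := by
      have := abs_sub (-T s x a (W b)) (-T s x c' (W d))
      rwa [abs_neg, abs_neg] at this
    calc √s * |-T s x a (W b) - -T s x c' (W d)|
        ≤ √s * (|T s x a (W b)| + |T s x c' (W d)|) := mul_le_mul_of_nonneg_left h3 hq
      _ ≤ _ := by
          rw [mul_add]
          exact add_le_add h1 h2
  have h0 := key 1 2 2 1
  have h1 := key 2 0 0 2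
  have h2 := key 0 1 1 0
  have e0 : (hE s (toE (cu W)) x) 0 = hS s (fun y => pd 1 (W 2) y - pd 2 (W 1) y) x :=
    hE_coord hcont hcs s x 0
  have e1 : (hE s (toE (cu W)) x) 1 = hS s (fun y => pd 2 (W 0) y - pd 0 (W 2) y) x :=
    hE_coord hcont hcs s x 1
  have e2 : (hE s (toE (cu W)) x) 2 = hS s (fun y => pd 0 (W 1) y - pd 1 (W 0) y) x :=
    hE_coord hcont hcs s x 2
  have hn := norm_le_sum (hE s (toE (cu W)) x)
  rw [e0, e1, e2] at hn
  calc √s * ‖hE s (toE (cu W)) x‖ ≤ √s * _ := mul_le_mul_of_nonneg_left hn hq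
    _ = √s * |hS s (fun y => pd 1 (W 2) y - pd 2 (W 1) y) x|
        + √s * |hS s (fun y => pd 2 (W 0) y - pd 0 (W 2) y) x|
        + √s * |hS s (fun y => pd 0 (W 1) y - pd 1 (W 0) y) x| := by ring
    _ ≤ (c 2 + c 1) + (c 0 + c 2) + (c 1 + c 0) := add_le_add (add_le_add h0 h1) h2
    _ = _ := by ring

theorem hE_curl {Z : VF} {M : ℝ} (hZ : ∀ i, CS univ (Z i)) (hM : ∀ i x, |Z i x| ≤ M) {s : ℝ}
    (x : E3) (hs : 0 < s) : √s * ‖hE s (toE (cu Z)) x‖ ≤ 18 * M := by
  have hM0 : 0 ≤ M := (abs_nonneg _).trans (hM 0 0)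
  have h := curl_le (fun i => (hZ i).smooth) (fun i => (hZ i).compact) (s := s) x
    (c := fun _ => 3 * M) (fun a b => T_le hs x a hM0 (hM b))
  linarith

theorem T_add (s : ℝ) (x : E3) (a : Fin 3) {f g : E3 → ℝ} (hf : Continuous f)
    (hfc : HasCompactSupport f) (hg : Continuous g) (hgc : HasCompactSupport g) :
    T s x a (fun y => f y + g y) = T s x a f + T s x a g := by
  unfold T
  rw [← mul_add, ← integral_add (mul_int (k1_cont s x a) hf hfc) (mul_int (k1_cont s x a) hg hgc)]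
  simp only [mul_add]

theorem T_smul (s : ℝ) (x : E3) (a : Fin 3) (c : ℝ) (f : E3 → ℝ) :
    T s x a (fun y => c * f y) = c * T s x a f := by
  have h : ∫ y, k1 s x a y * (c * f y) = c * ∫ y, k1 s x a y * f y := by
    rw [← integral_const_mul]
    refine integral_congr_ae (Eventually.of_forall fun y => ?_)
    simp only
    ring
  unfold T
  simp only
  rw [h]
  ring

theorem pd_hasFDerivAt {f : E3 → ℝ} (hf : ContDiff ℝ ∞ f) (x : E3) :
    HasFDerivAt f (fderiv ℝ f x) x := (hf.differentiable (by simp) x).hasFDerivAt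

theorem pd_mul {f g : E3 → ℝ} (hf : ContDiff ℝ ∞ f) (hg : ContDiff ℝ ∞ g) (j : Fin 3) (x : E3) :
    pd j (fun y => f y * g y) x = f x * pd j g x + g x * pd j f x := by
  have h := (pd_hasFDerivAt hf x).mul (pd_hasFDerivAt hg x)
  have h2 : fderiv ℝ (fun y => f y * g y) x = _ := h.fderiv
  unfold pd
  rw [h2]
  rfl

theorem pd_sub {f g : E3 → ℝ} (hf : ContDiff ℝ ∞ f) (hg : ContDiff ℝ ∞ g) (j : Fin 3) (x : E3) :
    pd j (fun y => f y - g y) x = pd j f x - pd j g x := by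
  have h := (pd_hasFDerivAt hf x).sub (pd_hasFDerivAt hg x)
  have h2 : fderiv ℝ (fun y => f y - g y) x = _ := h.fderiv
  unfold pd
  rw [h2]
  rfl

theorem pd_sin {f : E3 → ℝ} (hf : ContDiff ℝ ∞ f) (k : ℝ) (j : Fin 3) (x : E3) :
    pd j (fun y => Real.sin (k * f y)) x = k * Real.cos (k * f x) * pd j f x := by
  have h := ((pd_hasFDerivAt hf x).const_mul k).sin
  have h2 : fderiv ℝ (fun y => Real.sin (k * f y)) x = _ := h.fderiv
  unfold pd
  rw [h2]
  simp only [_root_.smul_apply, smul_eq_mul]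
  ring

theorem pd_cos {f : E3 → ℝ} (hf : ContDiff ℝ ∞ f) (k : ℝ) (j : Fin 3) (x : E3) :
    pd j (fun y => Real.cos (k * f y)) x = -(k * Real.sin (k * f x) * pd j f x) := by
  have h := ((pd_hasFDerivAt hf x).const_mul k).cos
  have h2 : fderiv ℝ (fun y => Real.cos (k * f y)) x = _ := h.fderiv
  unfold pd
  rw [h2]
  simp only [_root_.smul_apply, smul_eq_mul]
  ring

theorem _root_.Pool.Agent.T2H10.DN.CS.hbBound {O : Set E3} {f : E3 → ℝ} (hf : CS O f) : ∃ A : ℝ, 0 ≤ A ∧ ∀ x, |f x| ≤ A := by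
  obtain ⟨A, hA⟩ := hf.compact.exists_bound_of_continuous hf.smooth.continuous
  exact ⟨A, (norm_nonneg _).trans (hA 0), fun x => by
    have := hA x
    rwa [Real.norm_eq_abs] at this⟩

theorem pd_smooth {f : E3 → ℝ} (hf : ContDiff ℝ ∞ f) (j : Fin 3) : ContDiff ℝ ∞ (pd j f) :=
  (hf.fderiv_right (m := ∞) (by simp)).clm_apply contDiff_const

theorem _root_.Pool.Agent.T2H10.DN.CS.hbMul {O : Set E3} {f g : E3 → ℝ} (hf : CS O f) (hg : ContDiff ℝ ∞ g) :
    CS O (fun x => f x * g x) := by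
  refine ⟨hf.smooth.mul hg, ?_, ?_⟩
  · refine hf.compact.mono fun y hy h0 => hy ?_
    simp only [h0, zero_mul]
  · exact (tsupport_mul_subset_left).trans hf.supp

theorem _root_.Pool.Agent.T2H10.DN.CS.hbSub {O : Set E3} {f g : E3 → ℝ} (hf : CS O f) (hg : CS O g) :
    CS O (fun x => f x - g x) := by
  refine ⟨hf.smooth.sub hg.smooth, hf.compact.sub hg.compact, ?_⟩
  exact (tsupport_sub _ _).trans (union_subset hf.supp hg.supp)

theorem _root_.Pool.Agent.T2H10.DN.CS.hbAdd {O : Set E3} {f g : E3 → ℝ} (hf : CS O f) (hg : CS O g) :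
    CS O (fun x => f x + g x) := by
  refine ⟨hf.smooth.add hg.smooth, hf.compact.add hg.compact, ?_⟩
  exact (tsupport_add _ _).trans (union_subset hf.supp hg.supp)

theorem osc_key {φ : E3 → ℝ} (hφ : ContDiff ℝ ∞ φ) {O : Set E3}
    (hn : ∀ x ∈ O, ∑ j, pd j φ x ^ 2 = 1) {X Y : E3 → ℝ} (hX : CS O X) (hY : CS O Y)
    {s0 : ℝ} (hs0 : 0 < s0) :
    ∃ C : ℝ, 0 ≤ C ∧ ∀ k : ℝ, 1 ≤ k → ∀ (s : ℝ) (x : E3) (a : Fin 3), s0 ≤ s →
      √s * |T s x a (fun y => X y * Real.cos (k * φ y) + Y y * Real.sin (k * φ y))| ≤ C / k := by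
  have hXj : ∀ j, CS O (fun y => X y * pd j φ y) := fun j => hX.hbMul (pd_smooth hφ j)
  have hYj : ∀ j, CS O (fun y => Y y * pd j φ y) := fun j => hY.hbMul (pd_smooth hφ j)
  choose A hA0 hA using fun j => (hXj j).hbBound
  choose B hB0 hB using fun j => (hYj j).hbBound
  choose A' hA0' hA' using fun j => ((hXj j).hbPd j).hbBound
  choose B' hB0' hB' using fun j => ((hYj j).hbPd j).hbBound
  have hsq : 0 < √s0 := Real.sqrt_pos.2 hs0
  refine ⟨(6 * (A 0 + B 0) / √s0 + 6 * (A 1 + B 1) / √s0 + 6 * (A 2 + B 2) / √s0)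
    + 3 * ((A' 0 + B' 0) + (A' 1 + B' 1) + (A' 2 + B' 2)), ?_, ?_⟩
  · have := hA0 0
    have := hA0 1
    have := hA0 2
    have := hB0 0
    have := hB0 1
    have := hB0 2
    have := hA0' 0
    have := hA0' 1
    have := hA0' 2
    have := hB0' 0
    have := hB0' 1
    have := hB0' 2
    positivity
  intro k hk s x a hs
  have hk0 : 0 < k := by linarith
  have hs' : 0 < s := by linarith
  have hsin : ContDiff ℝ ∞ (fun y => Real.sin (k * φ y)) :=
    Real.contDiff_sin.comp (contDiff_const.mul hφ)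
  have hcos : ContDiff ℝ ∞ (fun y => Real.cos (k * φ y)) :=
    Real.contDiff_cos.comp (contDiff_const.mul hφ)
  set P : Fin 3 → E3 → ℝ := fun j y => X y * pd j φ y * Real.sin (k * φ y)
    - Y y * pd j φ y * Real.cos (k * φ y) with hP
  have hPc : ∀ j, CS O (P j) := fun j => ((hXj j).hbMul hsin).hbSub ((hYj j).hbMul hcos)
  set Q : E3 → ℝ := fun y =>
    (pd 0 (fun z => Y z * pd 0 φ z) y + pd 1 (fun z => Y z * pd 1 φ z) y
      + pd 2 (fun z => Y z * pd 2 φ z) y) * Real.cos (k * φ y)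
    - (pd 0 (fun z => X z * pd 0 φ z) y + pd 1 (fun z => X z * pd 1 φ z) y
      + pd 2 (fun z => X z * pd 2 φ z) y) * Real.sin (k * φ y) with hQ
  have hQc : CS O Q :=
    (((((hYj 0).hbPd 0).hbAdd ((hYj 1).hbPd 1)).hbAdd ((hYj 2).hbPd 2)).hbMul hcos).hbSub
      (((((hXj 0).hbPd 0).hbAdd ((hXj 1).hbPd 1)).hbAdd ((hXj 2).hbPd 2)).hbMul hsin)
  have hpP : ∀ j y, pd j (P j) y = (X y * pd j φ y) * (k * Real.cos (k * φ y) * pd j φ y)
      + Real.sin (k * φ y) * pd j (fun z => X z * pd j φ z) y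
      - ((Y y * pd j φ y) * (-(k * Real.sin (k * φ y) * pd j φ y))
      + Real.cos (k * φ y) * pd j (fun z => Y z * pd j φ z) y) := by
    intro j y
    rw [hP]
    simp only
    rw [pd_sub ((hXj j).hbMul hsin).smooth ((hYj j).hbMul hcos).smooth,
      pd_mul (hXj j).smooth hsin, pd_mul (hYj j).smooth hcos, pd_sin hφ, pd_cos hφ]
  have hW : (fun y => X y * Real.cos (k * φ y) + Y y * Real.sin (k * φ y))
      = fun y => (1 / k) * (((pd 0 (P 0) y + pd 1 (P 1) y) + pd 2 (P 2) y) + Q y) := by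
    funext y
    have e1 : X y * (pd 0 φ y ^ 2 + pd 1 φ y ^ 2 + pd 2 φ y ^ 2) = X y := by
      by_cases h : X y = 0
      · rw [h, zero_mul]
      · have hy : y ∈ O := hX.supp (subset_tsupport _ h)
        have := hn y hy
        rw [Fin.sum_univ_three] at this
        rw [this, mul_one]
    have e2 : Y y * (pd 0 φ y ^ 2 + pd 1 φ y ^ 2 + pd 2 φ y ^ 2) = Y y := by
      by_cases h : Y y = 0
      · rw [h, zero_mul]
      · have hy : y ∈ O := hY.supp (subset_tsupport _ h)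
        have := hn y hy
        rw [Fin.sum_univ_three] at this
        rw [this, mul_one]
    rw [hpP, hpP, hpP, hQ]
    simp only
    have e3 : X y * Real.cos (k * φ y) + Y y * Real.sin (k * φ y)
        = (X y * (pd 0 φ y ^ 2 + pd 1 φ y ^ 2 + pd 2 φ y ^ 2)) * Real.cos (k * φ y)
        + (Y y * (pd 0 φ y ^ 2 + pd 1 φ y ^ 2 + pd 2 φ y ^ 2)) * Real.sin (k * φ y) := by
      rw [e1, e2]
    rw [e3]
    field_simp
    ring
  have hpc : ∀ j, Continuous (pd j (P j)) := fun j => pd_cont (hPc j).smooth j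
  have hps : ∀ j, HasCompactSupport (pd j (P j)) := fun j => pd_cs (hPc j).compact j
  have hT : T s x a (fun y => X y * Real.cos (k * φ y) + Y y * Real.sin (k * φ y))
      = (1 / k) * (((T s x a (pd 0 (P 0)) + T s x a (pd 1 (P 1))) + T s x a (pd 2 (P 2)))
        + T s x a Q) := by
    have t1 := T_add s x a (f := fun y => (pd 0 (P 0) y + pd 1 (P 1) y) + pd 2 (P 2) y) (g := Q)
      (((hpc 0).add (hpc 1)).add (hpc 2))
      (((hps 0).add (hps 1)).add (hps 2)) hQc.smooth.continuous hQc.compact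
    have t2 := T_add s x a (f := fun y => pd 0 (P 0) y + pd 1 (P 1) y) (g := pd 2 (P 2))
      ((hpc 0).add (hpc 1)) ((hps 0).add (hps 1)) (hpc 2) (hps 2)
    have t3 := T_add s x a (f := pd 0 (P 0)) (g := pd 1 (P 1)) (hpc 0) (hps 0) (hpc 1) (hps 1)
    rw [hW, T_smul, t1, t2, t3]
  have hPle : ∀ j y, |P j y| ≤ A j + B j := by
    intro j y
    have h1 := hA j y
    have h2 := hB j y
    have h3 := Real.abs_sin_le_one (k * φ y)
    have h4 := Real.abs_cos_le_one (k * φ y)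
    calc |P j y| ≤ |X y * pd j φ y * Real.sin (k * φ y)| + |Y y * pd j φ y * Real.cos (k * φ y)| :=
          abs_sub _ _
      _ = |X y * pd j φ y| * |Real.sin (k * φ y)| + |Y y * pd j φ y| * |Real.cos (k * φ y)| := by
          rw [abs_mul, abs_mul _ (Real.cos _)]
      _ ≤ A j * 1 + B j * 1 :=
          add_le_add (mul_le_mul h1 h3 (abs_nonneg _) (hA0 j)) (mul_le_mul h2 h4 (abs_nonneg _) (hB0 j))
      _ = _ := by ring
  have hQle : ∀ y, |Q y| ≤ (A' 0 + B' 0) + (A' 1 + B' 1) + (A' 2 + B' 2) := by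
    intro y
    have h3 := Real.abs_sin_le_one (k * φ y)
    have h4 := Real.abs_cos_le_one (k * φ y)
    have hy : |pd 0 (fun z => Y z * pd 0 φ z) y + pd 1 (fun z => Y z * pd 1 φ z) y
      + pd 2 (fun z => Y z * pd 2 φ z) y| ≤ B' 0 + B' 1 + B' 2 :=
      (abs_add_three _ _ _).trans (add_le_add (add_le_add (hB' 0 y) (hB' 1 y)) (hB' 2 y))
    have hx : |pd 0 (fun z => X z * pd 0 φ z) y + pd 1 (fun z => X z * pd 1 φ z) y
      + pd 2 (fun z => X z * pd 2 φ z) y| ≤ A' 0 + A' 1 + A' 2 :=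
      (abs_add_three _ _ _).trans (add_le_add (add_le_add (hA' 0 y) (hA' 1 y)) (hA' 2 y))
    calc |Q y| ≤ |(pd 0 (fun z => Y z * pd 0 φ z) y + pd 1 (fun z => Y z * pd 1 φ z) y
          + pd 2 (fun z => Y z * pd 2 φ z) y) * Real.cos (k * φ y)|
        + |(pd 0 (fun z => X z * pd 0 φ z) y + pd 1 (fun z => X z * pd 1 φ z) y
          + pd 2 (fun z => X z * pd 2 φ z) y) * Real.sin (k * φ y)| := abs_sub _ _
      _ ≤ (B' 0 + B' 1 + B' 2) * 1 + (A' 0 + A' 1 + A' 2) * 1 := by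
          rw [abs_mul, abs_mul _ (Real.sin _)]
          exact add_le_add (mul_le_mul hy h4 (abs_nonneg _) ((abs_nonneg _).trans hy))
            (mul_le_mul hx h3 (abs_nonneg _) ((abs_nonneg _).trans hx))
      _ = _ := by ring
  have hq0 : 0 < √s := Real.sqrt_pos.2 hs'
  have hP' : ∀ j, √s * |T s x a (pd j (P j))| ≤ 6 * (A j + B j) / √s0 := by
    intro j
    have h1 := T_pd_le hs' x a j (hPc j).smooth (hPc j).compact (add_nonneg (hA0 j) (hB0 j))
      (hPle j)
    have h2 : √s0 ≤ √s := Real.sqrt_le_sqrt hs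
    rw [le_div_iff₀ hsq]
    calc √s * |T s x a (pd j (P j))| * √s0 ≤ √s * |T s x a (pd j (P j))| * √s := by gcongr
      _ = (√s * √s) * |T s x a (pd j (P j))| := by ring
      _ = s * |T s x a (pd j (P j))| := by rw [Real.mul_self_sqrt hs'.le]
      _ ≤ _ := h1
  have hQ' : √s * |T s x a Q| ≤ 3 * ((A' 0 + B' 0) + (A' 1 + B' 1) + (A' 2 + B' 2)) :=
    T_le hs' x a ((abs_nonneg _).trans (hQle 0)) hQle
  rw [hT, abs_mul, abs_of_pos (show 0 < 1 / k by positivity)]
  have h5 : |((T s x a (pd 0 (P 0)) + T s x a (pd 1 (P 1))) + T s x a (pd 2 (P 2))) + T s x a Q|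
      ≤ |T s x a (pd 0 (P 0))| + |T s x a (pd 1 (P 1))| + |T s x a (pd 2 (P 2))| + |T s x a Q| :=
    (abs_add_le _ _).trans (add_le_add (abs_add_three _ _ _) le_rfl)
  calc √s * (1 / k * |((T s x a (pd 0 (P 0)) + T s x a (pd 1 (P 1))) + T s x a (pd 2 (P 2)))
        + T s x a Q|)
      ≤ √s * (1 / k * (|T s x a (pd 0 (P 0))| + |T s x a (pd 1 (P 1))| + |T s x a (pd 2 (P 2))|
        + |T s x a Q|)) := by gcongr
    _ = (√s * |T s x a (pd 0 (P 0))| + √s * |T s x a (pd 1 (P 1))|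
        + √s * |T s x a (pd 2 (P 2))| + √s * |T s x a Q|) / k := by
        field_simp
    _ ≤ _ := div_le_div_of_nonneg_right
        (add_le_add (add_le_add (add_le_add (hP' 0) (hP' 1)) (hP' 2)) hQ') hk0.le

end HB

/-- TASK T3 -/
theorem heat_le {φ : E3 → E3} (hφ : Continuous φ) (hc : HasCompactSupport φ) {M : ℝ}
    (hM : ∀ x, ‖φ x‖ ≤ M) {s : ℝ} (hs : 0 < s) (x : E3) : ‖(heat s φ x : E3)‖ ≤ M :=
  HB.norm_hE_le hM hs x

theorem heat_add {φ ψ : E3 → E3} (hφ : Continuous φ) (hc : HasCompactSupport φ)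
    (hψ : Continuous ψ) (hc' : HasCompactSupport ψ) {s : ℝ} (hs : 0 < s) (x : E3) :
    (heat s (fun y => φ y + ψ y) x : E3) = (heat s φ x : E3) + (heat s ψ x : E3) :=
  HB.hE_add hφ hc hψ hc' s x

theorem heat_sqrt {φ : E3 → E3} (hφ : Continuous φ) (hc : HasCompactSupport φ) :
    ∃ C : ℝ, 0 ≤ C ∧ ∀ (s : ℝ) (x : E3), 0 < s → √s * ‖(heat s φ x : E3)‖ ≤ C :=
  HB.hE_sqrt hφ hc

theorem heat_curl : ∃ C : ℝ, 0 < C ∧ ∀ (Z : VF) (M : ℝ), (∀ i, CS univ (Z i)) →
    (∀ i x, |Z i x| ≤ M) → ∀ (s : ℝ) (x : E3), 0 < s →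
      √s * ‖(heat s (toE (cu Z)) x : E3)‖ ≤ C * M :=
  ⟨18, by norm_num, fun _ _ hZ hM _ x hs => HB.hE_curl hZ hM x hs⟩

theorem heat_osc {φ : E3 → ℝ} (hφ : ContDiff ℝ ∞ φ) {O : Set E3}
    (hn : ∀ x ∈ O, ∑ j, pd j φ x ^ 2 = 1) {X Y : VF} (hX : ∀ i, CS O (X i))
    (hY : ∀ i, CS O (Y i)) {s0 : ℝ} (hs0 : 0 < s0) :
    ∃ C : ℝ, 0 ≤ C ∧ ∀ k : ℝ, 1 ≤ k → ∀ (s : ℝ) (x : E3), s0 ≤ s →
      √s * ‖(heat s (toE (cu (fun i y => X i y * Real.cos (k * φ y)
        + Y i y * Real.sin (k * φ y)))) x : E3)‖ ≤ C / k := by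
  choose C hC0 hC using fun i => HB.osc_key hφ hn (hX i) (hY i) hs0
  refine ⟨2 * (C 0 + C 1 + C 2), ?_, fun k hk s x hs => ?_⟩
  · have := hC0 0
    have := hC0 1
    have := hC0 2
    positivity
  have hsin : ContDiff ℝ ∞ (fun y => Real.sin (k * φ y)) :=
    Real.contDiff_sin.comp (contDiff_const.mul hφ)
  have hcos : ContDiff ℝ ∞ (fun y => Real.cos (k * φ y)) :=
    Real.contDiff_cos.comp (contDiff_const.mul hφ)
  have hW : ∀ i, CS O (fun y => X i y * Real.cos (k * φ y) + Y i y * Real.sin (k * φ y)) :=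
    fun i => ((hX i).hbMul hcos).hbAdd ((hY i).hbMul hsin)
  have h := HB.curl_le (W := fun i y => X i y * Real.cos (k * φ y) + Y i y * Real.sin (k * φ y))
    (fun i => (hW i).smooth) (fun i => (hW i).compact) (s := s) x (c := fun b => C b / k)
    (fun a b => hC b k hk s x a hs)
  refine h.trans (le_of_eq ?_)
  ring

end Pool.Agent.T2H10.DN
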