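import Pool.Agent.T2H10.DN.Defs3
import Pool.Agent.T2H10.DN.HeatB

/-!
The heat semigroup for large times on fields with support in a bounded set (TASK G2a).
-/

set_option autoImplicit false
set_option linter.unusedSectionVars false

open MeasureTheory Set Filter Topology
open scoped InnerProductSpace ENNReal ContDiff

namespace Pool.Agent.T2H10.DN

open H772R2.NS
open Pool.Agent.Y303.LV (heat)

namespace HF

open HB

theorem nrm_le2 {s : ℝ} (hs : 0 < s) : √s * nrm s ≤ s⁻¹ := by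
  have hpi := Real.pi_gt_three
  unfold nrm
  have hq : 0 < √s := Real.sqrt_pos.2 hs
  have h0 : s * √s = s ^ (3 / 2 : ℝ) := by
    rw [Real.sqrt_eq_rpow]
    nth_rewrite 1 [← Real.rpow_one s]
    rw [← Real.rpow_add hs]
    norm_num
  have h1 : s * √s ≤ (4 * Real.pi * s) ^ (3 / 2 : ℝ) := by
    rw [h0]
    refine Real.rpow_le_rpow hs.le ?_ (by norm_num)
    nlinarith
  have h2 : 0 < s * √s := by positivity
  calc √s * ((4 * Real.pi * s) ^ (3 / 2 : ℝ))⁻¹ ≤ √s * (s * √s)⁻¹ := by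
        gcongr
    _ = s⁻¹ := by
        field_simp

theorem int_le {Ω : Set E3} {V : ℝ} (hΩ : IsOpen Ω) (hb : Bornology.IsBounded Ω)
    (hV : volume.real Ω ≤ V) {κ f : E3 → ℝ} {b M : ℝ} (hb0 : 0 ≤ b) (hM : 0 ≤ M)
    (hκ : ∀ y, |κ y| ≤ b) (hf : CS Ω f) (hfM : ∀ y, |f y| ≤ M) :
    |∫ y, κ y * f y| ≤ b * M * V := by
  have hfin : volume Ω < ⊤ := hb.measure_lt_top
  have hi : Integrable (Ω.indicator fun _ : E3 => b * M) :=
    (integrable_indicator_iff hΩ.measurableSet).2 (integrableOn_const hfin.ne)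
  have h1 : ‖∫ y, κ y * f y‖ ≤ ∫ y, Ω.indicator (fun _ : E3 => b * M) y := by
    refine norm_integral_le_of_norm_le hi (Eventually.of_forall fun y => ?_)
    rw [Real.norm_eq_abs, abs_mul]
    by_cases hy : y ∈ Ω
    · rw [indicator_of_mem hy]
      exact mul_le_mul (hκ y) (hfM y) (abs_nonneg _) hb0
    · rw [indicator_of_notMem hy]
      have h0 : f y = 0 := image_eq_zero_of_notMem_tsupport fun h => hy (hf.supp h)
      rw [h0, abs_zero, mul_zero]
  rw [integral_indicator hΩ.measurableSet, setIntegral_const, smul_eq_mul] at h1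
  rw [← Real.norm_eq_abs]
  calc _ ≤ volume.real Ω * (b * M) := h1
    _ ≤ V * (b * M) := by gcongr
    _ = _ := by ring

end HF

open HB in
theorem heat_far : ∃ c : ℝ, 0 < c ∧ ∀ (Ω : Set E3) (V : ℝ), IsOpen Ω → Bornology.IsBounded Ω →
    volume.real Ω ≤ V → ∀ (Z : VF) (M : ℝ), 0 ≤ M → (∀ i, CS Ω (Z i)) → (∀ i x, |Z i x| ≤ M) →
      ∀ (s : ℝ) (x : E3), 0 < s →
        √s * ‖(heat s (toE Z) x : E3)‖ ≤ c * V * M * s⁻¹ ∧
        √s * ‖(heat s (toE (cu Z)) x : E3)‖ ≤ c * V * M * s⁻¹ * (√s)⁻¹ := by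
  refine ⟨6, by norm_num, fun Ω V hΩ hb hV Z M hM hZ hZM s x hs => ?_⟩
  have hV0 : 0 ≤ V := (measureReal_nonneg).trans hV
  have hq : 0 < √s := Real.sqrt_pos.2 hs
  have hn := HF.nrm_le2 hs
  have hn0 : 0 ≤ √s * nrm s := mul_nonneg hq.le (nrm_nonneg hs)
  have hs1 : 0 < s⁻¹ := by positivity
  constructor
  · change √s * ‖hE s (toE Z) x‖ ≤ _
    have hcoord : ∀ i, √s * |(hE s (toE Z) x) i| ≤ s⁻¹ * (M * V) := by
      intro i
      rw [hE_coord (fun i => (hZ i).smooth.continuous) (fun i => (hZ i).compact) s x i]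
      unfold hS
      rw [abs_mul, abs_of_nonneg (nrm_nonneg hs), ← mul_assoc]
      have h := HF.int_le hΩ hb hV (κ := ker s x) (b := 1) zero_le_one hM
        (fun y => by
          rw [abs_of_pos (ker_pos s x y)]
          exact ker_le_one hs x y) (hZ i) (hZM i)
      rw [one_mul] at h
      exact mul_le_mul hn h (abs_nonneg _) hs1.le
    have h3 := norm_le_sum (hE s (toE Z) x)
    calc √s * ‖hE s (toE Z) x‖ ≤ √s * _ := mul_le_mul_of_nonneg_left h3 hq.le
      _ = √s * |(hE s (toE Z) x) 0| + √s * |(hE s (toE Z) x) 1| + √s * |(hE s (toE Z) x) 2| := by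
          ring
      _ ≤ s⁻¹ * (M * V) + s⁻¹ * (M * V) + s⁻¹ * (M * V) :=
          add_le_add (add_le_add (hcoord 0) (hcoord 1)) (hcoord 2)
      _ ≤ 6 * V * M * s⁻¹ := by
          have : 0 ≤ s⁻¹ * (M * V) := by positivity
          nlinarith
  · change √s * ‖hE s (toE (cu Z)) x‖ ≤ _
    have h := curl_le (W := Z) (fun i => (hZ i).smooth) (fun i => (hZ i).compact) (s := s) x
      (c := fun _ => s⁻¹ * ((√s)⁻¹ * M * V)) (fun a b => by
        unfold T
        rw [abs_mul, abs_of_nonneg (nrm_nonneg hs), ← mul_assoc]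
        refine mul_le_mul hn ?_ (abs_nonneg _) hs1.le
        refine HF.int_le hΩ hb hV (b := (√s)⁻¹) (by positivity) hM (fun y => ?_) (hZ b) (hZM b)
        have h1 := k1_le hs x a y
        have h2 := ker_le_one (s := 2 * s) (by positivity) x y
        rw [← one_div, le_div_iff₀ hq]
        linarith)
    refine h.trans (le_of_eq ?_)
    ring

end Pool.Agent.T2H10.DN
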