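import Pool.Agent.T2H10.DN.Defs3
import Pool.Agent.T2H10.DN.HeatB

/-!
The heat semigroup on oscillating fields, with constants that depend only on the size of the
amplitude in the main term (TASK G2b).
-/

set_option autoImplicit false
set_option linter.unusedSectionVars false

open MeasureTheory Set Filter Topology
open scoped InnerProductSpace ENNReal ContDiff

namespace Pool.Agent.T2H10.DN

open H772R2.NS
open Pool.Agent.Y303.LV (heat)

namespace HO2

open HB

theorem pd_add {f g : E3 → ℝ} (hf : ContDiff ℝ ∞ f) (hg : ContDiff ℝ ∞ g) (j : Fin 3) (x : E3) :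
    pd j (fun y => f y + g y) x = pd j f x + pd j g x := by
  have h := (pd_hasFDerivAt hf x).add (pd_hasFDerivAt hg x)
  have h2 : fderiv ℝ (fun y => f y + g y) x = _ := h.fderiv
  unfold pd
  rw [h2]
  rfl

/-- the amplitude times a derivative of the phase -/
theorem amp_le {φ : E3 → ℝ} {O : Set E3} (hn : ∀ x ∈ O, ∑ j, pd j φ x ^ 2 = 1) {X : E3 → ℝ}
    {a : ℝ} (ha : 0 ≤ a) (hX : CS O X) (hXa : ∀ x, |X x| ≤ a) (j : Fin 3) (y : E3) :
    |X y * pd j φ y| ≤ a := by
  by_cases hy : y ∈ O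
  · have h := hn y hy
    rw [Fin.sum_univ_three] at h
    have h1 : |pd j φ y| ≤ 1 := by
      rw [abs_le_one_iff_mul_self_le_one]
      have h0 := sq_nonneg (pd 0 φ y)
      have h1 := sq_nonneg (pd 1 φ y)
      have h2 := sq_nonneg (pd 2 φ y)
      fin_cases j
      · change pd 0 φ y * pd 0 φ y ≤ 1
        nlinarith
      · change pd 1 φ y * pd 1 φ y ≤ 1
        nlinarith
      · change pd 2 φ y * pd 2 φ y ≤ 1
        nlinarith
    rw [abs_mul]
    calc |X y| * |pd j φ y| ≤ a * 1 := mul_le_mul (hXa y) h1 (abs_nonneg _) ha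
      _ = a := mul_one a
  · have h0 : X y = 0 := image_eq_zero_of_notMem_tsupport fun h => hy (hX.supp h)
    rw [h0, zero_mul, abs_zero]
    exact ha

theorem osc_key2 {φ : E3 → ℝ} (hφ : ContDiff ℝ ∞ φ) {O : Set E3}
    (hn : ∀ x ∈ O, ∑ j, pd j φ x ^ 2 = 1) {X Y : E3 → ℝ} {a : ℝ} (ha : 0 ≤ a) (hX : CS O X)
    (hY : CS O Y) (hXa : ∀ x, |X x| ≤ a) (hYa : ∀ x, |Y x| ≤ a) :
    ∃ C : ℝ, 0 ≤ C ∧ ∀ k : ℝ, 1 ≤ k → ∀ (s : ℝ) (x : E3) (b : Fin 3), 0 < s →
      √s * |T s x b (fun y => X y * Real.cos (k * φ y) + Y y * Real.sin (k * φ y))|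
        ≤ (36 * a / √s + C) / k := by
  have hXj : ∀ j, CS O (fun y => X y * pd j φ y) := fun j => hX.hbMul (pd_smooth hφ j)
  have hYj : ∀ j, CS O (fun y => Y y * pd j φ y) := fun j => hY.hbMul (pd_smooth hφ j)
  have hA : ∀ j x, |X x * pd j φ x| ≤ a := fun j x => amp_le hn ha hX hXa j x
  have hB : ∀ j x, |Y x * pd j φ x| ≤ a := fun j x => amp_le hn ha hY hYa j x
  choose A' hA0' hA' using fun j => ((hXj j).hbPd j).hbBound
  choose B' hB0' hB' using fun j => ((hYj j).hbPd j).hbBound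
  refine ⟨3 * ((A' 0 + B' 0) + (A' 1 + B' 1) + (A' 2 + B' 2)), ?_, ?_⟩
  · have := hA0' 0
    have := hA0' 1
    have := hA0' 2
    have := hB0' 0
    have := hB0' 1
    have := hB0' 2
    positivity
  intro k hk s x b hs'
  have hk0 : 0 < k := by linarith
  have hsin : ContDiff ℝ ∞ (fun y => Real.sin (k * φ y)) :=
    Real.contDiff_sin.comp (contDiff_const.mul hφ)
  have hcos : ContDiff ℝ ∞ (fun y => Real.cos (k * φ y)) :=
    Real.contDiff_cos.comp (contDiff_const.mul hφ)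
  set P : Fin 3 → E3 → ℝ := fun j y => X y * pd j φ y * Real.sin (k * φ y)
    - Y y * pd j φ y * Real.cos (k * φ y) with hP
  have hPc : ∀ j, CS O (P j) := fun j => ((hXj j).hbMul hsin).hbSub ((hYj j).hbMul hcos)
  set Q : E3 → ℝ := fun y =>
    (pd 0 (fun z => Y z * pd 0 φ z) y + pd 1 (fun z => Y z * pd 1 φ z) y
      + pd 2 (fun z => Y z * pd 2 φ z) y) * Real.cos (k * φ y)
    - (pd 0 (fun z => X z * pd 0 φ z) y + pd 1 (fun z => X z * pd 1 φ z) y
      + pd 2 (fun z => X z * pd 2 φ z) y) * Real.sin (k * φ y) with hQ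
  have hQc : CS O Q :=
    (((((hYj 0).hbPd 0).hbAdd ((hYj 1).hbPd 1)).hbAdd ((hYj 2).hbPd 2)).hbMul hcos).hbSub
      (((((hXj 0).hbPd 0).hbAdd ((hXj 1).hbPd 1)).hbAdd ((hXj 2).hbPd 2)).hbMul hsin)
  have hpP : ∀ j y, pd j (P j) y = (X y * pd j φ y) * (k * Real.cos (k * φ y) * pd j φ y)
      + Real.sin (k * φ y) * pd j (fun z => X z * pd j φ z) y
      - ((Y y * pd j φ y) * (-(k * Real.sin (k * φ y) * pd j φ y))
      + Real.cos (k * φ y) * pd j (fun z => Y z * pd j φ z) y) := by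
    intro j y
    rw [hP]
    simp only
    rw [pd_sub ((hXj j).hbMul hsin).smooth ((hYj j).hbMul hcos).smooth,
      pd_mul (hXj j).smooth hsin, pd_mul (hYj j).smooth hcos, pd_sin hφ, pd_cos hφ]
  have hW : (fun y => X y * Real.cos (k * φ y) + Y y * Real.sin (k * φ y))
      = fun y => (1 / k) * (((pd 0 (P 0) y + pd 1 (P 1) y) + pd 2 (P 2) y) + Q y) := by
    funext y
    have e1 : X y * (pd 0 φ y ^ 2 + pd 1 φ y ^ 2 + pd 2 φ y ^ 2) = X y := by
      by_cases h : X y = 0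
      · rw [h, zero_mul]
      · have hy : y ∈ O := hX.supp (subset_tsupport _ h)
        have := hn y hy
        rw [Fin.sum_univ_three] at this
        rw [this, mul_one]
    have e2 : Y y * (pd 0 φ y ^ 2 + pd 1 φ y ^ 2 + pd 2 φ y ^ 2) = Y y := by
      by_cases h : Y y = 0
      · rw [h, zero_mul]
      · have hy : y ∈ O := hY.supp (subset_tsupport _ h)
        have := hn y hy
        rw [Fin.sum_univ_three] at this
        rw [this, mul_one]
    rw [hpP, hpP, hpP, hQ]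
    simp only
    have e3 : X y * Real.cos (k * φ y) + Y y * Real.sin (k * φ y)
        = (X y * (pd 0 φ y ^ 2 + pd 1 φ y ^ 2 + pd 2 φ y ^ 2)) * Real.cos (k * φ y)
        + (Y y * (pd 0 φ y ^ 2 + pd 1 φ y ^ 2 + pd 2 φ y ^ 2)) * Real.sin (k * φ y) := by
      rw [e1, e2]
    rw [e3]
    field_simp
    ring
  have hpc : ∀ j, Continuous (pd j (P j)) := fun j => pd_cont (hPc j).smooth j
  have hps : ∀ j, HasCompactSupport (pd j (P j)) := fun j => pd_cs (hPc j).compact j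
  have hT : T s x b (fun y => X y * Real.cos (k * φ y) + Y y * Real.sin (k * φ y))
      = (1 / k) * (((T s x b (pd 0 (P 0)) + T s x b (pd 1 (P 1))) + T s x b (pd 2 (P 2)))
        + T s x b Q) := by
    have t1 := T_add s x b (f := fun y => (pd 0 (P 0) y + pd 1 (P 1) y) + pd 2 (P 2) y) (g := Q)
      (((hpc 0).add (hpc 1)).add (hpc 2))
      (((hps 0).add (hps 1)).add (hps 2)) hQc.smooth.continuous hQc.compact
    have t2 := T_add s x b (f := fun y => pd 0 (P 0) y + pd 1 (P 1) y) (g := pd 2 (P 2))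
      ((hpc 0).add (hpc 1)) ((hps 0).add (hps 1)) (hpc 2) (hps 2)
    have t3 := T_add s x b (f := pd 0 (P 0)) (g := pd 1 (P 1)) (hpc 0) (hps 0) (hpc 1) (hps 1)
    rw [hW, T_smul, t1, t2, t3]
  have hPle : ∀ j y, |P j y| ≤ a + a := by
    intro j y
    have h1 := hA j y
    have h2 := hB j y
    have h3 := Real.abs_sin_le_one (k * φ y)
    have h4 := Real.abs_cos_le_one (k * φ y)
    calc |P j y| ≤ |X y * pd j φ y * Real.sin (k * φ y)| + |Y y * pd j φ y * Real.cos (k * φ y)| :=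
          abs_sub _ _
      _ = |X y * pd j φ y| * |Real.sin (k * φ y)| + |Y y * pd j φ y| * |Real.cos (k * φ y)| := by
          rw [abs_mul, abs_mul _ (Real.cos _)]
      _ ≤ a * 1 + a * 1 :=
          add_le_add (mul_le_mul h1 h3 (abs_nonneg _) ha) (mul_le_mul h2 h4 (abs_nonneg _) ha)
      _ = _ := by ring
  have hQle : ∀ y, |Q y| ≤ (A' 0 + B' 0) + (A' 1 + B' 1) + (A' 2 + B' 2) := by
    intro y
    have h3 := Real.abs_sin_le_one (k * φ y)
    have h4 := Real.abs_cos_le_one (k * φ y)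
    have hy : |pd 0 (fun z => Y z * pd 0 φ z) y + pd 1 (fun z => Y z * pd 1 φ z) y
      + pd 2 (fun z => Y z * pd 2 φ z) y| ≤ B' 0 + B' 1 + B' 2 :=
      (abs_add_three _ _ _).trans (add_le_add (add_le_add (hB' 0 y) (hB' 1 y)) (hB' 2 y))
    have hx : |pd 0 (fun z => X z * pd 0 φ z) y + pd 1 (fun z => X z * pd 1 φ z) y
      + pd 2 (fun z => X z * pd 2 φ z) y| ≤ A' 0 + A' 1 + A' 2 :=
      (abs_add_three _ _ _).trans (add_le_add (add_le_add (hA' 0 y) (hA' 1 y)) (hA' 2 y))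
    calc |Q y| ≤ |(pd 0 (fun z => Y z * pd 0 φ z) y + pd 1 (fun z => Y z * pd 1 φ z) y
          + pd 2 (fun z => Y z * pd 2 φ z) y) * Real.cos (k * φ y)|
        + |(pd 0 (fun z => X z * pd 0 φ z) y + pd 1 (fun z => X z * pd 1 φ z) y
          + pd 2 (fun z => X z * pd 2 φ z) y) * Real.sin (k * φ y)| := abs_sub _ _
      _ ≤ (B' 0 + B' 1 + B' 2) * 1 + (A' 0 + A' 1 + A' 2) * 1 := by
          rw [abs_mul, abs_mul _ (Real.sin _)]
          exact add_le_add (mul_le_mul hy h4 (abs_nonneg _) ((abs_nonneg _).trans hy))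
            (mul_le_mul hx h3 (abs_nonneg _) ((abs_nonneg _).trans hx))
      _ = _ := by ring
  have hq0 : 0 < √s := Real.sqrt_pos.2 hs'
  have hP' : ∀ j, √s * |T s x b (pd j (P j))| ≤ 12 * a / √s := by
    intro j
    have h1 := T_pd_le hs' x b j (hPc j).smooth (hPc j).compact (add_nonneg ha ha)
      (hPle j)
    rw [le_div_iff₀ hq0]
    calc √s * |T s x b (pd j (P j))| * √s = (√s * √s) * |T s x b (pd j (P j))| := by ring
      _ = s * |T s x b (pd j (P j))| := by rw [Real.mul_self_sqrt hs'.le]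
      _ ≤ 6 * (a + a) := h1
      _ = 12 * a := by ring
  have hQ' : √s * |T s x b Q| ≤ 3 * ((A' 0 + B' 0) + (A' 1 + B' 1) + (A' 2 + B' 2)) :=
    T_le hs' x b ((abs_nonneg _).trans (hQle 0)) hQle
  rw [hT, abs_mul, abs_of_pos (show 0 < 1 / k by positivity)]
  have h5 : |((T s x b (pd 0 (P 0)) + T s x b (pd 1 (P 1))) + T s x b (pd 2 (P 2))) + T s x b Q|
      ≤ |T s x b (pd 0 (P 0))| + |T s x b (pd 1 (P 1))| + |T s x b (pd 2 (P 2))| + |T s x b Q| :=
    (abs_add_le _ _).trans (add_le_add (abs_add_three _ _ _) le_rfl)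
  calc √s * (1 / k * |((T s x b (pd 0 (P 0)) + T s x b (pd 1 (P 1))) + T s x b (pd 2 (P 2)))
        + T s x b Q|)
      ≤ √s * (1 / k * (|T s x b (pd 0 (P 0))| + |T s x b (pd 1 (P 1))| + |T s x b (pd 2 (P 2))|
        + |T s x b Q|)) := by gcongr
    _ = (√s * |T s x b (pd 0 (P 0))| + √s * |T s x b (pd 1 (P 1))|
        + √s * |T s x b (pd 2 (P 2))| + √s * |T s x b Q|) / k := by
        field_simp
    _ ≤ ((12 * a / √s + 12 * a / √s + 12 * a / √s)
        + 3 * ((A' 0 + B' 0) + (A' 1 + B' 1) + (A' 2 + B' 2))) / k :=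
        div_le_div_of_nonneg_right
          (add_le_add (add_le_add (add_le_add (hP' 0) (hP' 1)) (hP' 2)) hQ') hk0.le
    _ = _ := by ring

/-- the derivatives of the oscillating field -/
theorem pd_osc {φ : E3 → ℝ} (hφ : ContDiff ℝ ∞ φ) {O : Set E3}
    (hn : ∀ x ∈ O, ∑ j, pd j φ x ^ 2 = 1) {X Y : E3 → ℝ} {a : ℝ} (ha : 0 ≤ a) (hX : CS O X)
    (hY : CS O Y) (hXa : ∀ x, |X x| ≤ a) (hYa : ∀ x, |Y x| ≤ a) (j : Fin 3) :
    ∃ C : ℝ, 0 ≤ C ∧ ∀ k : ℝ, 1 ≤ k → ∀ x,
      |pd j (fun y => X y * Real.cos (k * φ y) + Y y * Real.sin (k * φ y)) x| ≤ 2 * a * k + C := by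
  obtain ⟨A, hA0, hA⟩ := (hX.hbPd j).hbBound
  obtain ⟨B, hB0, hB⟩ := (hY.hbPd j).hbBound
  refine ⟨A + B, by positivity, fun k hk x => ?_⟩
  have hk0 : 0 ≤ k := by linarith
  have hsin : ContDiff ℝ ∞ (fun y => Real.sin (k * φ y)) :=
    Real.contDiff_sin.comp (contDiff_const.mul hφ)
  have hcos : ContDiff ℝ ∞ (fun y => Real.cos (k * φ y)) :=
    Real.contDiff_cos.comp (contDiff_const.mul hφ)
  rw [pd_add (hX.hbMul hcos).smooth (hY.hbMul hsin).smooth, pd_mul hX.smooth hcos,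
    pd_mul hY.smooth hsin, pd_sin hφ, pd_cos hφ]
  have h1 := amp_le hn ha hX hXa j x
  have h2 := amp_le hn ha hY hYa j x
  have h3 := Real.abs_sin_le_one (k * φ x)
  have h4 := Real.abs_cos_le_one (k * φ x)
  have e1 : |X x * -(k * Real.sin (k * φ x) * pd j φ x)| ≤ a * k := by
    have : X x * -(k * Real.sin (k * φ x) * pd j φ x)
        = -((X x * pd j φ x) * (Real.sin (k * φ x) * k)) := by ring
    rw [this, abs_neg, abs_mul, abs_mul (Real.sin (k * φ x)), abs_of_nonneg hk0]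
    calc |X x * pd j φ x| * (|Real.sin (k * φ x)| * k) ≤ a * (1 * k) := by gcongr
      _ = a * k := by ring
  have e2 : |Y x * (k * Real.cos (k * φ x) * pd j φ x)| ≤ a * k := by
    have : Y x * (k * Real.cos (k * φ x) * pd j φ x)
        = (Y x * pd j φ x) * (Real.cos (k * φ x) * k) := by ring
    rw [this, abs_mul, abs_mul (Real.cos (k * φ x)), abs_of_nonneg hk0]
    calc |Y x * pd j φ x| * (|Real.cos (k * φ x)| * k) ≤ a * (1 * k) := by gcongr
      _ = a * k := by ring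
  have e3 : |Real.cos (k * φ x) * pd j X x| ≤ A := by
    rw [abs_mul]
    calc |Real.cos (k * φ x)| * |pd j X x| ≤ 1 * A := by
          gcongr
          exact hA x
      _ = A := one_mul A
  have e4 : |Real.sin (k * φ x) * pd j Y x| ≤ B := by
    rw [abs_mul]
    calc |Real.sin (k * φ x)| * |pd j Y x| ≤ 1 * B := by
          gcongr
          exact hB x
      _ = B := one_mul B
  have t1 := abs_add_le (X x * -(k * Real.sin (k * φ x) * pd j φ x) + Real.cos (k * φ x) * pd j X x)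
    (Y x * (k * Real.cos (k * φ x) * pd j φ x) + Real.sin (k * φ x) * pd j Y x)
  have t2 := abs_add_le (X x * -(k * Real.sin (k * φ x) * pd j φ x)) (Real.cos (k * φ x) * pd j X x)
  have t3 := abs_add_le (Y x * (k * Real.cos (k * φ x) * pd j φ x)) (Real.sin (k * φ x) * pd j Y x)
  linarith

end HO2

open HB in
theorem heat_osc2 : ∃ c : ℝ, 0 < c ∧ ∀ (φ : E3 → ℝ) (O : Set E3) (X Y : VF) (a : ℝ), 0 ≤ a →
    ContDiff ℝ ∞ φ → (∀ x ∈ O, ∑ j, pd j φ x ^ 2 = 1) → (∀ i, CS O (X i)) → (∀ i, CS O (Y i)) →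
    (∀ i x, |X i x| ≤ a) → (∀ i x, |Y i x| ≤ a) →
    ∃ C : ℝ, 0 ≤ C ∧ ∀ k : ℝ, 1 ≤ k → ∀ (s : ℝ) (x : E3), 0 < s →
      √s * ‖(heat s (toE (cu (fun i y => X i y * Real.cos (k * φ y)
        + Y i y * Real.sin (k * φ y)))) x : E3)‖ ≤ c * a * (k * √s)⁻¹ + C / k ∧
      √s * ‖(heat s (toE (cu (fun i y => X i y * Real.cos (k * φ y)
        + Y i y * Real.sin (k * φ y)))) x : E3)‖ ≤ √s * (c * a * k + C) := by
  refine ⟨216, by norm_num, fun φ O X Y a ha hφ hn hX hY hXa hYa => ?_⟩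
  choose C hC0 hC using fun i => HO2.osc_key2 hφ hn ha (hX i) (hY i) (hXa i) (hYa i)
  choose D hD0 hD using fun i j => HO2.pd_osc hφ hn ha (hX i) (hY i) (hXa i) (hYa i) j
  refine ⟨2 * (C 0 + C 1 + C 2)
    + (D 2 1 + D 1 2 + D 0 2 + D 2 0 + D 1 0 + D 0 1), ?_, fun k hk s x hs => ?_⟩
  · have := hC0 0
    have := hC0 1
    have := hC0 2
    have := hD0 2 1
    have := hD0 1 2
    have := hD0 0 2
    have := hD0 2 0
    have := hD0 1 0
    have := hD0 0 1
    positivity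
  have hk0 : 0 < k := by linarith
  have hq : 0 < √s := Real.sqrt_pos.2 hs
  have hsin : ContDiff ℝ ∞ (fun y => Real.sin (k * φ y)) :=
    Real.contDiff_sin.comp (contDiff_const.mul hφ)
  have hcos : ContDiff ℝ ∞ (fun y => Real.cos (k * φ y)) :=
    Real.contDiff_cos.comp (contDiff_const.mul hφ)
  have hW : ∀ i, CS O (fun y => X i y * Real.cos (k * φ y) + Y i y * Real.sin (k * φ y)) :=
    fun i => ((hX i).hbMul hcos).hbAdd ((hY i).hbMul hsin)
  have hDs : 0 ≤ D 2 1 + D 1 2 + D 0 2 + D 2 0 + D 1 0 + D 0 1 := by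
    have := hD0 2 1
    have := hD0 1 2
    have := hD0 0 2
    have := hD0 2 0
    have := hD0 1 0
    have := hD0 0 1
    positivity
  have hCs : 0 ≤ C 0 + C 1 + C 2 := by
    have := hC0 0
    have := hC0 1
    have := hC0 2
    positivity
  set W : VF := fun i y => X i y * Real.cos (k * φ y) + Y i y * Real.sin (k * φ y) with hWd
  constructor
  · have h := curl_le (W := W)
      (fun i => (hW i).smooth) (fun i => (hW i).compact) (s := s) x
      (c := fun b => (36 * a / √s + C b) / k) (fun b' b => hC b k hk s x b' hs)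
    refine h.trans ?_
    have e : 2 * ((36 * a / √s + C 0) / k + (36 * a / √s + C 1) / k + (36 * a / √s + C 2) / k)
        = 216 * a * (k * √s)⁻¹ + 2 * (C 0 + C 1 + C 2) / k := by
      field_simp
      ring
    rw [e]
    gcongr
    linarith
  · refine mul_le_mul_of_nonneg_left ?_ hq.le
    have hp : ∀ i j y, |pd j (W i) y| ≤ 2 * a * k + D i j := fun i j y => hD i j k hk y
    have hb : ∀ y, ‖toE (cu W) y‖ ≤ 216 * a * k + (2 * (C 0 + C 1 + C 2)
        + (D 2 1 + D 1 2 + D 0 2 + D 2 0 + D 1 0 + D 0 1)) := by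
      intro y
      have h1 := norm_le_sum (toE (cu W) y)
      have e0 : (toE (cu W) y) 0 = pd 1 (W 2) y - pd 2 (W 1) y := rfl
      have e1 : (toE (cu W) y) 1 = pd 2 (W 0) y - pd 0 (W 2) y := rfl
      have e2 : (toE (cu W) y) 2 = pd 0 (W 1) y - pd 1 (W 0) y := rfl
      rw [e0, e1, e2] at h1
      have a0 := abs_sub (pd 1 (W 2) y) (pd 2 (W 1) y)
      have a1 := abs_sub (pd 2 (W 0) y) (pd 0 (W 2) y)
      have a2 := abs_sub (pd 0 (W 1) y) (pd 1 (W 0) y)
      have b1 := hp 2 1 y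
      have b2 := hp 1 2 y
      have b3 := hp 0 2 y
      have b4 := hp 2 0 y
      have b5 := hp 1 0 y
      have b6 := hp 0 1 y
      have hak : 0 ≤ a * k := by positivity
      linarith
    exact norm_hE_le hb hs x

end Pool.Agent.T2H10.DN
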