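import Mathlib

/-!
Real analysis for the layers in the norm of `B^{-1}_{∞,q}` (TASK G2c).
-/

set_option autoImplicit false
set_option linter.unusedSectionVars false

open MeasureTheory Set Filter Topology

namespace Pool.Agent.T2H10.DN

namespace HQ

/-- the profile `min (u ^ p) (u ^ (-p))` -/
noncomputable def m (p u : ℝ) : ℝ := min (|u| ^ p) (|u| ^ (-p))

theorem m_nonneg (p u : ℝ) : 0 ≤ m p u :=
  le_min (Real.rpow_nonneg (abs_nonneg _) _) (Real.rpow_nonneg (abs_nonneg _) _)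

theorem m_meas (p : ℝ) : Measurable (m p) := by
  unfold m
  fun_prop

theorem m_small {p u : ℝ} (hp : 0 ≤ p) (hu : 0 < u) (hu1 : u ≤ 1) : m p u = u ^ p := by
  unfold m
  rw [abs_of_pos hu]
  exact min_eq_left (Real.rpow_le_rpow_of_exponent_ge hu hu1 (by linarith))

theorem m_large {p u : ℝ} (hp : 0 ≤ p) (hu1 : 1 ≤ u) : m p u = u ^ (-p) := by
  unfold m
  rw [abs_of_pos (by linarith)]
  exact min_eq_right (Real.rpow_le_rpow_of_exponent_le hu1 (by linarith))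

theorem m_rpow {p q u : ℝ} (hp : 0 ≤ p) (hq : 0 ≤ q) (hu : 0 < u) : m p u ^ q = m (p * q) u := by
  rcases le_total u 1 with h | h
  · rw [m_small hp hu h, m_small (by positivity) hu h, Real.rpow_mul hu.le]
  · rw [m_large hp h, m_large (by positivity) h, ← Real.rpow_mul hu.le, neg_mul]

/-- the integrand -/
noncomputable def h (p u : ℝ) : ℝ := m p u * u⁻¹

theorem h_small_int {p : ℝ} (hp : 0 < p) : IntegrableOn (h p) (Ioc 0 1) := by
  have h1 : IntegrableOn (fun u : ℝ => u ^ (p - 1)) (Ioc 0 1) := by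
    have := intervalIntegral.intervalIntegrable_rpow' (a := 0) (b := 1) (r := p - 1) (by linarith)
    rwa [intervalIntegrable_iff_integrableOn_Ioc_of_le zero_le_one] at this
  refine h1.congr_fun (fun u hu => ?_) measurableSet_Ioc
  have hu0 : 0 < u := hu.1
  unfold h
  simp only
  rw [m_small hp.le hu.1 hu.2, Real.rpow_sub_one hu0.ne', div_eq_mul_inv]

theorem h_large_int {p c : ℝ} (hp : 0 < p) (hc : 1 ≤ c) : IntegrableOn (h p) (Ioi c) ∧
    ∫ u in Ioi c, h p u = c ^ (-p) / p := by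
  have hc0 : 0 < c := by linarith
  have h1 : IntegrableOn (fun u : ℝ => u ^ (-p - 1)) (Ioi c) :=
    integrableOn_Ioi_rpow_of_lt (by linarith) hc0
  have e : EqOn (fun u : ℝ => u ^ (-p - 1)) (h p) (Ioi c) := by
    intro u hu
    have hu1 : c < u := hu
    have hu0 : 0 < u := by linarith
    unfold h
    simp only
    rw [m_large hp.le (by linarith), Real.rpow_sub_one hu0.ne', div_eq_mul_inv]
  refine ⟨h1.congr_fun e measurableSet_Ioi, ?_⟩
  rw [← setIntegral_congr_fun measurableSet_Ioi e, integral_Ioi_rpow_of_lt (by linarith) hc0]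
  rw [show -p - 1 + 1 = -p by ring, neg_div_neg_eq]

theorem h_int {p : ℝ} (hp : 0 < p) : IntegrableOn (h p) (Ioi 0) := by
  rw [← Ioc_union_Ioi_eq_Ioi (zero_le_one (α := ℝ))]
  exact (h_small_int hp).union (h_large_int hp le_rfl).1

/-- the integral of the profile -/
noncomputable def I (p : ℝ) : ℝ := ∫ u in Ioi (0 : ℝ), h p u

theorem I_nonneg (p : ℝ) : 0 ≤ I p :=
  setIntegral_nonneg measurableSet_Ioi fun u hu =>
    mul_nonneg (m_nonneg _ _) (inv_nonneg.2 (le_of_lt hu))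

theorem h_scale {p k : ℝ} (hp : 0 < p) (hk : 0 < k) (a : ℝ) (ha : 0 ≤ a) :
    IntegrableOn (fun s => m p (k * s) * s⁻¹) (Ioi a) ∧
      ∫ s in Ioi a, m p (k * s) * s⁻¹ = ∫ u in Ioi (k * a), h p u := by
  have e : (fun s => m p (k * s) * s⁻¹) = fun s => k * h p (k * s) := by
    funext s
    unfold h
    by_cases hs : s = 0
    · subst hs; simp
    · field_simp
  have hsub : IntegrableOn (h p) (Ioi (k * a)) :=
    (h_int hp).mono_set (Ioi_subset_Ioi (by positivity))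
  rw [e]
  constructor
  · exact ((integrableOn_Ioi_comp_mul_left_iff (h p) a hk).2 hsub).const_mul k
  · rw [integral_const_mul, integral_comp_mul_left_Ioi (h p) a hk, smul_eq_mul, ← mul_assoc,
      mul_inv_cancel₀ hk.ne', one_mul]

theorem rpow_add_le {q : ℝ} (hq : 1 < q) {θ : ℝ} (hθ : 0 < θ) : ∃ C : ℝ, 0 < C ∧
    ∀ x y : ℝ, 0 ≤ x → 0 ≤ y → (x + y) ^ q ≤ (1 + θ) * x ^ q + C * y ^ q := by
  have hq0 : 0 < q := by linarith
  have hc : Tendsto (fun t : ℝ => (1 + t) ^ q) (𝓝[>] 0) (𝓝 1) := by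
    have h1 : ContinuousAt (fun t : ℝ => (1 + t) ^ q) 0 :=
      ContinuousAt.rpow_const (by fun_prop) (Or.inr hq0.le)
    have h2 := h1.tendsto
    simp only [add_zero, Real.one_rpow] at h2
    exact h2.mono_left nhdsWithin_le_nhds
  obtain ⟨t, ht1, ht0⟩ := ((hc.eventually (gt_mem_nhds (by linarith : (1 : ℝ) < 1 + θ))).and
    self_mem_nhdsWithin).exists
  have ht0' : 0 < t := ht0
  refine ⟨(1 + t⁻¹) ^ q, by positivity, fun x y hx hy => ?_⟩
  have hxq : 0 ≤ x ^ q := Real.rpow_nonneg hx _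
  have hyq : 0 ≤ y ^ q := Real.rpow_nonneg hy _
  rcases le_total y (t * x) with hyx | hyx
  · calc (x + y) ^ q ≤ ((1 + t) * x) ^ q := by
          refine Real.rpow_le_rpow (by positivity) (by linarith) hq0.le
      _ = (1 + t) ^ q * x ^ q := Real.mul_rpow (by positivity) hx
      _ ≤ (1 + θ) * x ^ q := by gcongr
      _ ≤ _ := by
          have : 0 ≤ (1 + t⁻¹) ^ q * y ^ q := by positivity
          linarith
  · have hx' : x ≤ t⁻¹ * y := by
      rw [← div_eq_inv_mul, le_div_iff₀ ht0']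
      linarith
    calc (x + y) ^ q ≤ ((1 + t⁻¹) * y) ^ q := by
          refine Real.rpow_le_rpow (by positivity) (by linarith) hq0.le
      _ = (1 + t⁻¹) ^ q * y ^ q := Real.mul_rpow (by positivity) hy
      _ ≤ _ := by
          have : 0 ≤ (1 + θ) * x ^ q := by positivity
          linarith

theorem rpow_two_le {q : ℝ} (hq : 1 < q) {x y : ℝ} (hx : 0 ≤ x) (hy : 0 ≤ y) :
    (x + y) ^ q ≤ 2 ^ q * (x ^ q + y ^ q) := by
  have hq0 : 0 < q := by linarith
  have hxq : 0 ≤ x ^ q := Real.rpow_nonneg hx _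
  have hyq : 0 ≤ y ^ q := Real.rpow_nonneg hy _
  have h2 : (0 : ℝ) < 2 ^ q := by positivity
  rcases le_total x y with hxy | hxy
  · calc (x + y) ^ q ≤ (2 * y) ^ q := Real.rpow_le_rpow (by positivity) (by linarith) hq0.le
      _ = 2 ^ q * y ^ q := Real.mul_rpow (by norm_num) hy
      _ ≤ _ := by nlinarith
  · calc (x + y) ^ q ≤ (2 * x) ^ q := Real.rpow_le_rpow (by positivity) (by linarith) hq0.le
      _ = 2 ^ q * x ^ q := Real.mul_rpow (by norm_num) hx
      _ ≤ _ := by nlinarith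

theorem small_set {g : ℝ → ℝ} (hg : IntegrableOn g (Ioi 0)) {δ : ℝ} (hδ : 0 < δ) :
    ∃ s0 : ℝ, 0 < s0 ∧ ∫ s in Ioi 0 ∩ Iic s0, g s < δ := by
  have hs : Tendsto (fun s0 : ℝ => (volume.restrict (Ioi (0 : ℝ))) (Iic s0)) (𝓝[>] 0) (𝓝 0) := by
    have e : (fun s0 : ℝ => (volume.restrict (Ioi (0 : ℝ))) (Iic s0))
        = fun s0 => ENNReal.ofReal s0 := by
      funext s0
      rw [Measure.restrict_apply measurableSet_Iic, inter_comm, Ioi_inter_Iic, Real.volume_Ioc,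
        sub_zero]
    rw [e]
    have h1 : Tendsto (fun s0 : ℝ => ENNReal.ofReal s0) (𝓝 0) (𝓝 (ENNReal.ofReal 0)) :=
      ENNReal.tendsto_ofReal tendsto_id
    rw [ENNReal.ofReal_zero] at h1
    exact h1.mono_left nhdsWithin_le_nhds
  have h1 := Integrable.tendsto_setIntegral_nhds_zero hg (s := fun s0 => Iic s0)
    (l := 𝓝[>] (0 : ℝ)) hs
  obtain ⟨s0, hs1, hs0⟩ := ((h1.eventually (gt_mem_nhds hδ)).and self_mem_nhdsWithin).exists
  refine ⟨s0, hs0, ?_⟩
  rw [Measure.restrict_restrict measurableSet_Iic] at hs1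
  rwa [inter_comm]

/-- the main estimate -/
theorem main {q : ℝ} (hq : 1 < q) {A : ℝ → ℝ} (hAm : Measurable A) (hA0 : ∀ s, 0 ≤ A s)
    (hAi : IntegrableOn (fun s => A s ^ q * s⁻¹) (Ioi 0)) {E : ℝ}
    (hAE : ∫ s in Ioi (0 : ℝ), A s ^ q * s⁻¹ ≤ E) {b C τ : ℝ} (hb : 0 ≤ b) (hC : 0 ≤ C)
    (hτ : 0 < τ) : ∃ k0 : ℝ, 1 ≤ k0 ∧ ∀ k, k0 ≤ k →
      IntegrableOn (fun s => (A s + (b * m (1 / 2) (k ^ 2 * s)
        + C * (√k)⁻¹ * m (1 / 4) s)) ^ q * s⁻¹) (Ioi 0) ∧
      ∫ s in Ioi (0 : ℝ), (A s + (b * m (1 / 2) (k ^ 2 * s)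
        + C * (√k)⁻¹ * m (1 / 4) s)) ^ q * s⁻¹ ≤ E + b ^ q * I (1 / 2 * q) + τ := by
  have hq0 : 0 < q := by linarith
  have hE0 : 0 ≤ E := by
    refine le_trans (setIntegral_nonneg measurableSet_Ioi fun s hs => ?_) hAE
    exact mul_nonneg (Real.rpow_nonneg (hA0 s) _) (inv_nonneg.2 (le_of_lt hs))
  have hp1 : (0 : ℝ) < 1 / 2 * q := by positivity
  have hp2 : (0 : ℝ) < 1 / 4 * q := by positivity
  have hbq : 0 ≤ b ^ q := Real.rpow_nonneg hb _
  have hI1 := I_nonneg (1 / 2 * q)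
  have hI2 := I_nonneg (1 / 4 * q)
  -- the choice of `θ`
  set W : ℝ := E + b ^ q * I (1 / 2 * q) with hW
  have hW0 : 0 ≤ W := by positivity
  set θ : ℝ := τ / (4 * (W + 1)) with hθdef
  have hθ : 0 < θ := by positivity
  have hθW : θ * W ≤ τ / 4 := by
    rw [hθdef, div_mul_eq_mul_div, div_le_div_iff₀ (by positivity) (by norm_num)]
    nlinarith
  obtain ⟨Cθ, hCθ, hineq⟩ := rpow_add_le hq hθ
  set Γ : ℝ := Cθ * 2 ^ q with hΓ
  have hΓ0 : 0 < Γ := by positivity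
  -- the choice of `s0`
  obtain ⟨s0, hs0, hδ1⟩ := small_set hAi (δ := τ / (4 * Γ)) (by positivity)
  -- the choice of `k0`
  have hlim1 : Tendsto (fun k : ℝ => Γ * (2 ^ q * (b ^ q * ((k ^ 2 * s0) ^ (-(1 / 2 * q)) / (1 / 2 * q))))) atTop
      (𝓝 0) := by
    have h1 : Tendsto (fun k : ℝ => k ^ 2 * s0) atTop atTop :=
      (tendsto_pow_atTop two_ne_zero).atTop_mul_const hs0
    have h2 := (tendsto_rpow_neg_atTop hp1).comp h1
    have h3 := (((h2.div_const (1 / 2 * q)).const_mul (b ^ q)).const_mul (2 ^ q)).const_mul Γ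
    simpa using h3
  have hlim2 : Tendsto (fun k : ℝ => Γ * (2 ^ q * ((C * (√k)⁻¹) ^ q * I (1 / 4 * q)))) atTop
      (𝓝 0) := by
    have h1 : Tendsto (fun k : ℝ => (√k)⁻¹) atTop (𝓝 0) :=
      tendsto_inv_atTop_zero.comp Real.tendsto_sqrt_atTop
    have h2 : Tendsto (fun k : ℝ => (C * (√k)⁻¹) ^ q) atTop (𝓝 0) := by
      have h3 := (h1.const_mul C)
      rw [mul_zero] at h3
      have h4 := h3.rpow_const (p := q) (Or.inr hq0.le)
      rwa [Real.zero_rpow hq0.ne'] at h4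
    have h3 := ((h2.mul_const (I (1 / 4 * q))).const_mul (2 ^ q)).const_mul Γ
    simpa using h3
  have hev : ∀ᶠ k : ℝ in atTop,
      Γ * (2 ^ q * (b ^ q * ((k ^ 2 * s0) ^ (-(1 / 2 * q)) / (1 / 2 * q)))) ≤ τ / 4 ∧
      Γ * (2 ^ q * ((C * (√k)⁻¹) ^ q * I (1 / 4 * q))) ≤ τ / 4 ∧ 1 ≤ k ^ 2 * s0 := by
    have hτ4 : 0 < τ / 4 := by positivity
    have h1 : Tendsto (fun k : ℝ => k ^ 2 * s0) atTop atTop :=
      (tendsto_pow_atTop two_ne_zero).atTop_mul_const hs0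
    filter_upwards [hlim1.eventually (gt_mem_nhds hτ4), hlim2.eventually (gt_mem_nhds hτ4),
      h1.eventually_ge_atTop 1] with k a1 a2 a3
    exact ⟨a1.le, a2.le, a3⟩
  obtain ⟨k1, hk1⟩ := eventually_atTop.1 hev
  refine ⟨max 1 k1, le_max_left _ _, fun k hk => ?_⟩
  obtain ⟨hb1, hb2, hb3⟩ := hk1 k ((le_max_right _ _).trans hk)
  have hk1' : 1 ≤ k := (le_max_left _ _).trans hk
  have hk0 : 0 < k := by linarith
  have hk2 : 0 < k ^ 2 := by positivity
  set β : ℝ → ℝ := fun s => b * m (1 / 2) (k ^ 2 * s) with hβ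
  set r : ℝ → ℝ := fun s => C * (√k)⁻¹ * m (1 / 4) s with hr
  have hβ0 : ∀ s, 0 ≤ β s := fun s => mul_nonneg hb (m_nonneg _ _)
  have hCk : 0 ≤ C * (√k)⁻¹ := by positivity
  have hr0 : ∀ s, 0 ≤ r s := fun s => mul_nonneg hCk (m_nonneg _ _)
  have hβm : Measurable β := ((m_meas _).comp (measurable_id.const_mul _)).const_mul b
  have hrm : Measurable r := (m_meas _).const_mul _
  -- the integrable functions
  set gA : ℝ → ℝ := fun s => A s ^ q * s⁻¹ with hgA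
  set gβ : ℝ → ℝ := fun s => b ^ q * (m (1 / 2 * q) (k ^ 2 * s) * s⁻¹) with hgβ
  set gr : ℝ → ℝ := fun s => (C * (√k)⁻¹) ^ q * h (1 / 4 * q) s with hgr
  have hgβi : ∀ a : ℝ, 0 ≤ a → IntegrableOn gβ (Ioi a) ∧
      ∫ s in Ioi a, gβ s = b ^ q * ∫ u in Ioi (k ^ 2 * a), h (1 / 2 * q) u := by
    intro a ha
    have h1 := h_scale (p := 1 / 2 * q) hp1 hk2 a ha
    refine ⟨h1.1.const_mul _, ?_⟩
    rw [hgβ, integral_const_mul, h1.2]
  have hgri : IntegrableOn gr (Ioi 0) ∧ ∫ s in Ioi (0 : ℝ), gr s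
      = (C * (√k)⁻¹) ^ q * I (1 / 4 * q) := by
    refine ⟨(h_int hp2).const_mul _, ?_⟩
    rw [hgr, integral_const_mul]
    rfl
  set G : ℝ → ℝ := fun s => (1 + θ) * (gA s + gβ s) + Γ * ((Iic s0).indicator gA s)
    + Γ * (2 ^ q * ((Ioi s0).indicator gβ s)) + Γ * (2 ^ q * gr s) with hG
  have hGi : IntegrableOn G (Ioi 0) := by
    refine (((((hAi.add (hgβi 0 le_rfl).1).const_mul (1 + θ))).add ?_).add ?_).add ?_
    · exact (hAi.indicator measurableSet_Iic).const_mul _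
    · exact (((hgβi 0 le_rfl).1.indicator measurableSet_Ioi).const_mul _).const_mul _
    · exact (hgri.1.const_mul _).const_mul _
  have hpt : ∀ s ∈ Ioi (0 : ℝ), (A s + (β s + r s)) ^ q * s⁻¹ ≤ G s := by
    intro s hs
    have hs' : 0 < s := hs
    have hsi : 0 ≤ s⁻¹ := inv_nonneg.2 hs'.le
    have eβ : β s ^ q * s⁻¹ = gβ s := by
      rw [hβ, hgβ]
      simp only
      rw [Real.mul_rpow hb (m_nonneg _ _), m_rpow (by norm_num) hq0.le (by positivity)]
      ring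
    have er : r s ^ q * s⁻¹ = gr s := by
      rw [hr, hgr]
      simp only
      rw [Real.mul_rpow hCk (m_nonneg _ _), m_rpow (by norm_num) hq0.le hs', h]
      ring
    have gA0 : 0 ≤ gA s := mul_nonneg (Real.rpow_nonneg (hA0 s) _) hsi
    have gβ0 : 0 ≤ gβ s := by rw [← eβ]; exact mul_nonneg (Real.rpow_nonneg (hβ0 s) _) hsi
    have gr0 : 0 ≤ gr s := by rw [← er]; exact mul_nonneg (Real.rpow_nonneg (hr0 s) _) hsi
    have h2q : (1 : ℝ) ≤ 2 ^ q := Real.one_le_rpow (by norm_num) hq0.le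
    rcases le_or_gt s s0 with hss | hss
    · -- `s ≤ s0`
      have i1 : (Iic s0).indicator gA s = gA s := indicator_of_mem (mem_Iic.2 hss) _
      have i2 : (Ioi s0).indicator gβ s = 0 := indicator_of_notMem (by simpa using hss) _
      have h3 := hineq (β s) (A s + r s) (hβ0 s) (add_nonneg (hA0 s) (hr0 s))
      have h4 := rpow_two_le hq (hA0 s) (hr0 s)
      have h5 : (A s + (β s + r s)) ^ q ≤ (1 + θ) * β s ^ q
          + Cθ * (2 ^ q * (A s ^ q + r s ^ q)) := by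
        calc (A s + (β s + r s)) ^ q = (β s + (A s + r s)) ^ q := by ring_nf
          _ ≤ _ := h3
          _ ≤ _ := by gcongr
      have h6 : (A s + (β s + r s)) ^ q * s⁻¹ ≤ (1 + θ) * gβ s + Γ * gA s + Γ * gr s := by
        calc (A s + (β s + r s)) ^ q * s⁻¹ ≤ ((1 + θ) * β s ^ q
          + Cθ * (2 ^ q * (A s ^ q + r s ^ q))) * s⁻¹ := mul_le_mul_of_nonneg_right h5 hsi
          _ = (1 + θ) * (β s ^ q * s⁻¹) + Γ * (A s ^ q * s⁻¹) + Γ * (r s ^ q * s⁻¹) := by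
              rw [hΓ]; ring
          _ = _ := by rw [eβ, er]
      rw [hG]
      simp only [i1, i2, mul_zero, add_zero]
      have h7 : Γ * gr s ≤ Γ * (2 ^ q * gr s) := by
        refine mul_le_mul_of_nonneg_left ?_ hΓ0.le
        nlinarith
      have h8 : 0 ≤ (1 + θ) * gA s := by positivity
      linarith
    · have i1 : (Iic s0).indicator gA s = 0 := indicator_of_notMem (by simpa using hss) _
      have i2 : (Ioi s0).indicator gβ s = gβ s := indicator_of_mem (mem_Ioi.2 hss) _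
      have h3 := hineq (A s) (β s + r s) (hA0 s) (add_nonneg (hβ0 s) (hr0 s))
      have h4 := rpow_two_le hq (hβ0 s) (hr0 s)
      have h5 : (A s + (β s + r s)) ^ q ≤ (1 + θ) * A s ^ q
          + Cθ * (2 ^ q * (β s ^ q + r s ^ q)) := h3.trans (by gcongr)
      have h6 : (A s + (β s + r s)) ^ q * s⁻¹ ≤ (1 + θ) * gA s + Γ * gβ s + Γ * gr s := by
        calc (A s + (β s + r s)) ^ q * s⁻¹ ≤ ((1 + θ) * A s ^ q
          + Cθ * (2 ^ q * (β s ^ q + r s ^ q))) * s⁻¹ := mul_le_mul_of_nonneg_right h5 hsi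
          _ = (1 + θ) * (A s ^ q * s⁻¹) + Γ * (β s ^ q * s⁻¹) + Γ * (r s ^ q * s⁻¹) := by
              rw [hΓ]; ring
          _ = _ := by rw [eβ, er]
      rw [hG]
      simp only [i1, i2, mul_zero, add_zero]
      have h7 : Γ * gr s ≤ Γ * (2 ^ q * gr s) := by
        refine mul_le_mul_of_nonneg_left ?_ hΓ0.le
        nlinarith
      have h7' : Γ * gβ s ≤ Γ * (2 ^ q * gβ s) := by
        refine mul_le_mul_of_nonneg_left ?_ hΓ0.le
        nlinarith
      have h8 : 0 ≤ (1 + θ) * gβ s := by positivity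
      linarith
  have hDm : Measurable (fun s => (A s + (β s + r s)) ^ q * s⁻¹) :=
    ((hAm.add (hβm.add hrm)).pow_const q).mul measurable_inv
  have hD0 : ∀ s ∈ Ioi (0 : ℝ), 0 ≤ (A s + (β s + r s)) ^ q * s⁻¹ := fun s hs =>
    mul_nonneg (Real.rpow_nonneg (add_nonneg (hA0 s) (add_nonneg (hβ0 s) (hr0 s))) _)
      (inv_nonneg.2 (le_of_lt hs))
  have hDi : IntegrableOn (fun s => (A s + (β s + r s)) ^ q * s⁻¹) (Ioi 0) := by
    refine Integrable.mono' hGi hDm.aestronglyMeasurable ?_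
    refine (ae_restrict_iff' measurableSet_Ioi).2 (Eventually.of_forall fun s hs => ?_)
    rw [Real.norm_of_nonneg (hD0 s hs)]
    exact hpt s hs
  refine ⟨hDi, ?_⟩
  have hle : ∫ s in Ioi (0 : ℝ), (A s + (β s + r s)) ^ q * s⁻¹ ≤ ∫ s in Ioi (0 : ℝ), G s :=
    setIntegral_mono_on hDi hGi measurableSet_Ioi hpt
  have f1 : IntegrableOn (fun s => (1 + θ) * (gA s + gβ s)) (Ioi 0) :=
    (hAi.add (hgβi 0 le_rfl).1).const_mul (1 + θ)
  have f2 : IntegrableOn (fun s => Γ * ((Iic s0).indicator gA s)) (Ioi 0) :=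
    (hAi.indicator measurableSet_Iic).const_mul _
  have f3 : IntegrableOn (fun s => Γ * (2 ^ q * ((Ioi s0).indicator gβ s))) (Ioi 0) :=
    (((hgβi 0 le_rfl).1.indicator measurableSet_Ioi).const_mul _).const_mul _
  have f4 : IntegrableOn (fun s => Γ * (2 ^ q * gr s)) (Ioi 0) :=
    (hgri.1.const_mul _).const_mul _
  have f12 : IntegrableOn (fun s => (1 + θ) * (gA s + gβ s)
    + Γ * ((Iic s0).indicator gA s)) (Ioi 0) := f1.add f2
  have f123 : IntegrableOn (fun s => (1 + θ) * (gA s + gβ s)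
    + Γ * ((Iic s0).indicator gA s) + Γ * (2 ^ q * ((Ioi s0).indicator gβ s))) (Ioi 0) :=
    f12.add f3
  have hGint : ∫ s in Ioi (0 : ℝ), G s = (1 + θ) * ((∫ s in Ioi (0 : ℝ), gA s)
      + ∫ s in Ioi (0 : ℝ), gβ s) + Γ * (∫ s in Ioi 0 ∩ Iic s0, gA s)
      + Γ * (2 ^ q * ∫ s in Ioi s0, gβ s) + Γ * (2 ^ q * ∫ s in Ioi (0 : ℝ), gr s) := by
    rw [hG, integral_add f123 f4, integral_add f12 f3, integral_add f1 f2]
    simp only [integral_const_mul]
    rw [integral_add hAi (hgβi 0 le_rfl).1, setIntegral_indicator measurableSet_Iic,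
      setIntegral_indicator measurableSet_Ioi, Ioi_inter_Ioi, max_eq_right hs0.le]
  refine hle.trans ?_
  rw [hGint, hgri.2, (hgβi 0 le_rfl).2, (hgβi s0 hs0.le).2, mul_zero,
    (h_large_int hp1 hb3).2]
  change (1 + θ) * ((∫ s in Ioi (0 : ℝ), gA s) + b ^ q * I (1 / 2 * q)) + _ + _ + _ ≤ _
  have k1 : Γ * (∫ s in Ioi 0 ∩ Iic s0, gA s) ≤ τ / 4 := by
    calc Γ * (∫ s in Ioi 0 ∩ Iic s0, gA s) ≤ Γ * (τ / (4 * Γ)) := by gcongr
      _ = τ / 4 := by field_simp
  have k2 : (1 + θ) * ((∫ s in Ioi (0 : ℝ), gA s) + b ^ q * I (1 / 2 * q)) ≤ W + τ / 4 := by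
    calc (1 + θ) * ((∫ s in Ioi (0 : ℝ), gA s) + b ^ q * I (1 / 2 * q))
        ≤ (1 + θ) * (E + b ^ q * I (1 / 2 * q)) := by gcongr
      _ = W + θ * W := by rw [hW]; ring
      _ ≤ _ := by linarith
  linarith

end HQ

end Pool.Agent.T2H10.DN
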