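import Pool.Agent.T2H10.DN.Defs2
import Pool.Agent.T2H10.DN.HeatB

/-!
One layer (TASK B1).
-/

set_option autoImplicit false
set_option linter.unusedSectionVars false

open MeasureTheory Set Filter Topology
open scoped InnerProductSpace ENNReal ContDiff

namespace Pool.Agent.T2H10.DN

open H772R2.NS
open H772R2.NSR (Frame)
open Pool.Agent.W795.TQ
open Pool.Agent.Y303.RA (Hom)
open Pool.Agent.Y303.LV (heat cl clj)

/-- the bound in `B^{-1}_{∞,∞}` -/
def Bl (w : VF) (ε : ℝ) : Prop := ∀ (s : ℝ) (x : E3), 0 < s → √s * ‖(heat s (toE w) x : E3)‖ ≤ ε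

namespace OL

/-- the statement of `step` -/
def StepS (ν : ℝ) : Prop := ∀ (Ω : Set E3), IsOpen Ω → Bornology.IsBounded Ω → ∀ (v : VF),
    (∀ i, CS Ω (v i)) → (∀ x, dv v x = 0) → ∀ (Y η η' : ℝ), 0 ≤ Y → 0 ≤ η → η < η' →
    GoodS Ω ν v Y η → ∀ (s : Finset (ℕ × ℕ)) (X : ℕ × ℕ → VF), (∀ a i, CS Ω (X a i)) →
    ∀ (C0 : ℝ), 0 ≤ C0 →
    ∃ S : ℕ × ℕ → VF, (∀ a i, CS Ω (S a i)) ∧ (∀ a x, dv (S a) x = 0) ∧
      ∀ C : ℝ, 0 ≤ C → ∀ K : Set E3, IsCompact K → K ⊆ Ω → ∃ k0 : ℝ, 1 ≤ k0 ∧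
        ∀ k : ℝ, k0 ≤ k → ∀ D D1 : ℝ → VF, Fam Ω ν v s X S C0 C k K D D1 →
          ∃ Y' : ℝ, 0 ≤ Y' ∧ GoodS Ω ν (fun i x => v i x + D 0 i x) Y' η'

/-- the statement of `layer_expansion` -/
def ExpS (ν : ℝ) : Prop := ∀ (Ω : Set E3) (v : VF), (∀ i, CS Ω (v i)) → ∀ (F : VF) (M : ℝ),
    LayM Ω F M →
    ∃ (φ : E3 → ℝ) (O : Set E3) (P Q : VF) (s : Finset (ℕ × ℕ)) (X : ℕ × ℕ → VF) (C0 : ℝ),
      0 ≤ C0 ∧ ContDiff ℝ ∞ φ ∧ (∀ x ∈ O, ∑ j, pd j φ x ^ 2 = 1) ∧ (∀ i, CS (Ω ∩ O) (P i)) ∧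
      (∀ i, CS (Ω ∩ O) (Q i)) ∧ (∀ i x, |P i x| ≤ 4 * √ν * M) ∧ (∀ i x, |Q i x| ≤ 4 * √ν * M) ∧
      (∀ a i, CS Ω (X a i)) ∧
      ∀ S : ℕ × ℕ → VF, (∀ a i, CS Ω (S a i)) → (∀ a x, dv (S a) x = 0) →
        ∃ (C : ℝ) (K : Set E3) (c : ℕ × ℕ → ℝ) (D D1 : ℝ → ℝ → VF) (R : ℝ → VF),
          0 ≤ C ∧ IsCompact K ∧ K ⊆ Ω ∧ ∀ k : ℝ, 1 ≤ k →
            Fam Ω ν v s X S C0 C k K (D k) (D1 k) ∧ (∀ i, CS Ω (R k i)) ∧
            (∀ i x, |R k i x| ≤ C) ∧
            ∀ i x, D k 0 i x = F i x + k⁻¹ * ∑ a ∈ s, c a * S a i x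
              + cu (fun j y => P j y * Real.cos (k * φ y) + Q j y * Real.sin (k * φ y)
                + k⁻¹ * R k j y) i x

variable {Ω O : Set E3}

theorem CS.mono {O O' : Set E3} {f : E3 → ℝ} (hf : CS O f) (h : O ⊆ O') : CS O' f :=
  ⟨hf.smooth, hf.compact, hf.supp.trans h⟩

theorem CS.smul {f : E3 → ℝ} (hf : CS O f) (c : ℝ) : CS O (fun x => c * f x) := by
  have h := hf.hbMul (g := fun _ => c) contDiff_const
  have e : (fun x => f x * c) = fun x => c * f x := by funext x; ring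
  rwa [e] at h

theorem CS.zero : CS O (fun _ => (0 : ℝ)) := by
  refine ⟨contDiff_const, HasCompactSupport.zero, ?_⟩
  have : tsupport (fun _ : E3 => (0 : ℝ)) = ∅ := by
    rw [tsupport_eq_empty_iff]; rfl
  rw [this]; exact empty_subset _

theorem CS.sum {ι : Type*} (s : Finset ι) {f : ι → E3 → ℝ} (hf : ∀ a, CS O (f a)) :
    CS O (fun x => ∑ a ∈ s, f a x) := by
  classical
  induction s using Finset.induction_on with
  | empty => simp only [Finset.sum_empty]; exact CS.zero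
  | insert a s ha ih =>
    simp only [Finset.sum_insert ha]
    exact (hf a).hbAdd ih

theorem CS.cu {Z : VF} (hZ : ∀ i, CS O (Z i)) (i : Fin 3) : CS O (cu Z i) := by
  fin_cases i
  · exact ((hZ 2).hbPd 1).hbSub ((hZ 1).hbPd 2)
  · exact ((hZ 0).hbPd 2).hbSub ((hZ 2).hbPd 0)
  · exact ((hZ 1).hbPd 0).hbSub ((hZ 0).hbPd 1)

theorem pd_add {f g : E3 → ℝ} (hf : ContDiff ℝ ∞ f) (hg : ContDiff ℝ ∞ g) (j : Fin 3) (x : E3) :
    pd j (fun y => f y + g y) x = pd j f x + pd j g x := by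
  have h := (HB.pd_hasFDerivAt hf x).add (HB.pd_hasFDerivAt hg x)
  have h2 : fderiv ℝ (fun y => f y + g y) x = _ := h.fderiv
  unfold pd
  rw [h2]
  rfl

theorem pd_smul {f : E3 → ℝ} (hf : ContDiff ℝ ∞ f) (c : ℝ) (j : Fin 3) (x : E3) :
    pd j (fun y => c * f y) x = c * pd j f x := by
  have h := (HB.pd_hasFDerivAt hf x).const_mul c
  have h2 : fderiv ℝ (fun y => c * f y) x = _ := h.fderiv
  unfold pd
  rw [h2]
  rfl

theorem cu_add {Z W : VF} (hZ : ∀ i, ContDiff ℝ ∞ (Z i)) (hW : ∀ i, ContDiff ℝ ∞ (W i))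
    (c : ℝ) (i : Fin 3) (x : E3) :
    cu (fun j y => Z j y + c * W j y) i x = cu Z i x + c * cu W i x := by
  have hs : ∀ j, ContDiff ℝ ∞ (fun y => c * W j y) := fun j => contDiff_const.mul (hW j)
  fin_cases i <;>
    simp only [cu, Fin.zero_eta, Fin.mk_one, Fin.reduceFinMk, Matrix.cons_val_zero,
      Matrix.cons_val_one, Matrix.cons_val, Fin.isValue] <;>
    rw [pd_add (hZ _) (hs _), pd_add (hZ _) (hs _), pd_smul (hW _), pd_smul (hW _)] <;> ring

theorem toE_norm_le {V : VF} {x : E3} {a : ℝ} (h : ∀ i, |V i x| ≤ a) : ‖toE V x‖ ≤ 3 * a := by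
  have h1 := HB.norm_le_sum (toE V x)
  have h2 := h 0
  have h3 := h 1
  have h4 := h 2
  have e : ∀ i, (toE V x) i = V i x := fun i => rfl
  rw [e, e, e] at h1
  linarith

theorem dv_add {V U : VF} (hV : ∀ i, ContDiff ℝ ∞ (V i)) (hU : ∀ i, ContDiff ℝ ∞ (U i)) (x : E3) :
    dv (fun i y => V i y + U i y) x = dv V x + dv U x := by
  unfold dv
  rw [← Finset.sum_add_distrib]
  exact Finset.sum_congr rfl fun i _ => pd_add (hV i) (hU i) i x

theorem csmul (c : ℝ) {φ : E3 → E3} (h : Continuous φ) : Continuous (fun y => c • φ y) :=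
  Continuous.const_smul h c

theorem cssmul (c : ℝ) {φ : E3 → E3} (h : HasCompactSupport φ) :
    HasCompactSupport (fun y => c • φ y) := by
  refine h.mono fun y hy h0 => hy ?_
  simp only [h0, smul_zero]

theorem hE_smul (c : ℝ) (φ : E3 → E3) (s : ℝ) (x : E3) :
    HB.hE s (fun y => c • φ y) x = c • HB.hE s φ x := by
  have h : (∫ y, HB.ker s x y • (c • φ y)) = c • ∫ y, HB.ker s x y • φ y := by
    rw [← integral_smul]
    exact integral_congr_ae (Eventually.of_forall fun y => smul_comm _ _ _)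
  have h2 : HB.hE s (fun y => c • φ y) x = HB.nrm s • ∫ y, HB.ker s x y • (c • φ y) := rfl
  rw [h2, h, smul_comm]
  rfl

end OL

open OL in
/-- TASK B1: one layer (uses `step`, `layer_expansion` and the heat lemmas) -/
theorem one_layer_of {ν : ℝ} (hstep : StepS ν) (hexp : ExpS ν) (hν : 0 < ν) :
    ∃ Cν : ℝ, 0 < Cν ∧ ∀ Ω : Set E3, IsOpen Ω → Bornology.IsBounded Ω → ∀ (w g F : VF)
      (M Y η ε τ : ℝ), (∀ i, CS Ω (w i)) → (∀ i, CS Ω (g i)) → (∀ x, dv w x = 0) →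
      (∀ x, dv g x = 0) → 0 ≤ M → LayM Ω F M → 0 ≤ Y → 0 ≤ η → 0 < τ → Bl w ε →
      GoodS Ω ν (fun i x => g i x + w i x) Y η →
      ∃ (w' : VF) (Y' : ℝ), (∀ i, CS Ω (w' i)) ∧ (∀ x, dv w' x = 0) ∧ 0 ≤ Y' ∧
        Bl w' (max ε (Cν * M) + τ) ∧
        GoodS Ω ν (fun i x => (g i x + F i x) + w' i x) Y' (η + τ) := by
  obtain ⟨Ch, hCh, hcurl⟩ := heat_curl
  refine ⟨8 * Ch * √ν + 1, by positivity, ?_⟩
  intro Ω hΩ hb w g F M Y η ε τ hw hg hdw hdg hM hF hY hη hτ hBl hG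
  have hv : ∀ i, CS Ω (fun x => g i x + w i x) := fun i => (hg i).hbAdd (hw i)
  have hdv : ∀ x, dv (fun i x => g i x + w i x) x = 0 := fun x => by
    rw [dv_add (fun i => (hg i).smooth) (fun i => (hw i).smooth), hdg, hdw, add_zero]
  obtain ⟨φ, O, P, Q, s, X, C0, hC0, hφ, hφn, hP, hQ, hPb, hQb, hX, hex⟩ :=
    hexp Ω (fun i x => g i x + w i x) hv F M hF
  obtain ⟨S, hS, hSd, hst⟩ := hstep Ω hΩ hb (fun i x => g i x + w i x) hv hdv Y η (η + τ) hY hη
    (by linarith) hG s X hX C0 hC0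
  obtain ⟨C, K, c, D, D1, R, hC, hK, hKΩ, hk⟩ := hex S hS hSd
  obtain ⟨k0, hk0, hst⟩ := hst C hC K hK hKΩ
  -- the sum of the `S a`
  have hSS : ∀ i, CS Ω (fun x => ∑ a ∈ s, c a * S a i x) := fun i =>
    CS.sum s fun a => CS.smul (hS a i) (c a)
  obtain ⟨Cs, hCs, hsq⟩ := heat_sqrt (φ := toE (fun i x => ∑ a ∈ s, c a * S a i x))
    (HB.toE_cont fun i => (hSS i).smooth.continuous) (HB.toE_cs fun i => (hSS i).compact)
  -- the bound for `w`
  choose W hW0 hW using fun i => (hw i).hbBound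
  set W0 : ℝ := 3 * (W 0 + W 1 + W 2) + 1 with hW0d
  have hW0p : 0 < W0 := by
    have := hW0 0
    have := hW0 1
    have := hW0 2
    positivity
  have hWn : ∀ x, ‖toE w x‖ ≤ W0 := by
    intro x
    refine (toE_norm_le (a := W 0 + W 1 + W 2) fun i => ?_).trans (by linarith)
    have h0 := hW0 0
    have h1 := hW0 1
    have h2 := hW0 2
    have := hW i x
    fin_cases i <;> simp at this ⊢ <;> linarith
  set s0 : ℝ := (τ / (2 * W0)) ^ 2 with hs0
  have hs0p : 0 < s0 := by positivity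
  obtain ⟨Co, hCo, hosc⟩ := heat_osc hφ (O := Ω ∩ O) (fun x hx => hφn x hx.2) hP hQ hs0p
  -- the choice of `k`
  obtain ⟨k, hkk, hk1, hk2⟩ : ∃ k : ℝ, k0 ≤ k ∧ 1 ≤ k ∧ (Ch * C + Cs + Co) / k ≤ τ / 2 := by
    refine ⟨max k0 (2 * (Ch * C + Cs + Co) / τ), le_max_left _ _, hk0.trans (le_max_left _ _), ?_⟩
    have h1 : 0 < max k0 (2 * (Ch * C + Cs + Co) / τ) :=
      lt_of_lt_of_le (by linarith) (le_max_left _ _)
    rw [div_le_iff₀ h1]
    have h2 := le_max_right k0 (2 * (Ch * C + Cs + Co) / τ)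
    rw [div_le_iff₀ hτ] at h2
    linarith
  have hkp : 0 < k := by linarith
  obtain ⟨hFam, hR, hRb, hD⟩ := hk k hk1
  set SS : VF := fun i x => ∑ a ∈ s, c a * S a i x with hSSd
  set Z1 : VF := fun j y => P j y * Real.cos (k * φ y) + Q j y * Real.sin (k * φ y) with hZ1
  set Z : VF := fun j y => P j y * Real.cos (k * φ y) + Q j y * Real.sin (k * φ y)
    + k⁻¹ * R k j y with hZ
  have hsin : ContDiff ℝ ∞ (fun y => Real.sin (k * φ y)) :=
    Real.contDiff_sin.comp (contDiff_const.mul hφ)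
  have hcos : ContDiff ℝ ∞ (fun y => Real.cos (k * φ y)) :=
    Real.contDiff_cos.comp (contDiff_const.mul hφ)
  have hZ1c : ∀ i, CS (Ω ∩ O) (Z1 i) := fun i => ((hP i).hbMul hcos).hbAdd ((hQ i).hbMul hsin)
  have hZc : ∀ i, CS Ω (Z i) := fun i =>
    (CS.mono (hZ1c i) inter_subset_left).hbAdd (CS.smul (hR i) _)
  have hcZ : ∀ i, CS Ω (cu Z i) := CS.cu hZc
  set w' : VF := fun i x => w i x + (k⁻¹ * SS i x + cu Z i x) with hw'
  have hU : ∀ i, CS Ω (fun x => k⁻¹ * SS i x + cu Z i x) := fun i =>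
    (CS.smul (hSS i) _).hbAdd (hcZ i)
  have hw'c : ∀ i, CS Ω (w' i) := fun i => (hw i).hbAdd (hU i)
  -- smoothness of `F`
  have hFs : ∀ i, ContDiff ℝ ∞ (F i) := by
    obtain ⟨φ', O', A, B, q, -, -, -, hA, hB, hq, -, -, hFe, -, -, -⟩ := hF
    intro i
    have e : F i = fun x => (∑ j, pd j (fun y => A i y * A j y + B i y * B j y) x) + pd i q x :=
      funext fun x => hFe i x
    rw [e]
    refine ContDiff.add (ContDiff.sum fun j _ => ?_) (hq.hbPd i).smooth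
    exact HB.pd_smooth (((hA i).smooth.mul (hA j).smooth).add ((hB i).smooth.mul (hB j).smooth)) j
  have hFd : ∀ x, dv F x = 0 := by
    obtain ⟨φ', O', A, B, q, -, -, -, -, -, -, -, -, -, hFd, -, -⟩ := hF
    exact hFd
  have hDe : D k 0 = fun i x => F i x + (k⁻¹ * SS i x + cu Z i x) := by
    funext i x
    rw [hD i x]
    ring
  have hdU : ∀ x, dv (fun i x => k⁻¹ * SS i x + cu Z i x) x = 0 := by
    intro x
    have h1 := hFam.div 0 x
    rw [hDe, dv_add hFs (fun i => (hU i).smooth), hFd, zero_add] at h1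
    exact h1
  have hdw' : ∀ x, dv w' x = 0 := by
    intro x
    rw [hw', dv_add (fun i => (hw i).smooth) (fun i => (hU i).smooth), hdw, hdU, add_zero]
  obtain ⟨Y', hY', hG'⟩ := hst k hkk (D k) (D1 k) hFam
  refine ⟨w', Y', hw'c, hdw', hY', ?_, ?_⟩
  · -- the bound in the Besov space
    intro σ x hσ
    change √σ * ‖HB.hE σ (toE w') x‖ ≤ _
    have hcw : Continuous (toE w) := HB.toE_cont fun i => (hw i).smooth.continuous
    have hsw : HasCompactSupport (toE w) := HB.toE_cs fun i => (hw i).compact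
    have hcS : Continuous (toE SS) := HB.toE_cont fun i => (hSS i).smooth.continuous
    have hsS : HasCompactSupport (toE SS) := HB.toE_cs fun i => (hSS i).compact
    have hcU : Continuous (toE (fun i x => k⁻¹ * SS i x + cu Z i x)) :=
      HB.toE_cont fun i => (hU i).smooth.continuous
    have hsU : HasCompactSupport (toE (fun i x => k⁻¹ * SS i x + cu Z i x)) :=
      HB.toE_cs fun i => (hU i).compact
    have hckS : Continuous (fun y => k⁻¹ • toE SS y) := csmul k⁻¹ hcS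
    have hskS : HasCompactSupport (fun y => k⁻¹ • toE SS y) := cssmul k⁻¹ hsS
    have hcC : Continuous (toE (cu Z)) := HB.toE_cont fun i => (hcZ i).smooth.continuous
    have hsC : HasCompactSupport (toE (cu Z)) := HB.toE_cs fun i => (hcZ i).compact
    have e1 : toE w' = fun y => toE w y + toE (fun i x => k⁻¹ * SS i x + cu Z i x) y := by
      funext y; ext i; rfl
    have e2 : toE (fun i x => k⁻¹ * SS i x + cu Z i x) = fun y => k⁻¹ • toE SS y + toE (cu Z) y := by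
      funext y; ext i; rfl
    have h1 : (HB.hE σ (toE w') x : E3) = HB.hE σ (toE w) x + (k⁻¹ • HB.hE σ (toE SS) x
        + HB.hE σ (toE (cu Z)) x) := by
      rw [e1, HB.hE_add hcw hsw hcU hsU σ x, e2, HB.hE_add hckS hskS hcC hsC σ x, hE_smul]
    have hq0 : 0 ≤ √σ := Real.sqrt_nonneg σ
    have h2 : √σ * ‖(HB.hE σ (toE w') x : E3)‖ ≤ √σ * ‖(HB.hE σ (toE w) x : E3)‖
        + (Cs / k + √σ * ‖(HB.hE σ (toE (cu Z)) x : E3)‖) := by
      rw [h1]
      have h3 := norm_add_le (HB.hE σ (toE w) x : E3) (k⁻¹ • HB.hE σ (toE SS) x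
        + HB.hE σ (toE (cu Z)) x)
      have h4 := norm_add_le (k⁻¹ • (HB.hE σ (toE SS) x : E3)) (HB.hE σ (toE (cu Z)) x)
      have h5 : √σ * ‖k⁻¹ • (HB.hE σ (toE SS) x : E3)‖ ≤ Cs / k := by
        rw [norm_smul, norm_inv, Real.norm_of_nonneg hkp.le]
        have h6 : √σ * ‖HB.hE σ (toE SS) x‖ ≤ Cs := hsq σ x hσ
        rw [le_div_iff₀ hkp]
        calc √σ * (k⁻¹ * ‖(HB.hE σ (toE SS) x : E3)‖) * k
            = √σ * ‖(HB.hE σ (toE SS) x : E3)‖ * (k⁻¹ * k) := by ring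
          _ = √σ * ‖(HB.hE σ (toE SS) x : E3)‖ := by rw [inv_mul_cancel₀ hkp.ne', mul_one]
          _ ≤ Cs := h6
      have h7 : √σ * ‖(HB.hE σ (toE w) x : E3) + (k⁻¹ • HB.hE σ (toE SS) x
        + HB.hE σ (toE (cu Z)) x)‖ ≤ √σ * (‖(HB.hE σ (toE w) x : E3)‖
          + (‖k⁻¹ • (HB.hE σ (toE SS) x : E3)‖ + ‖(HB.hE σ (toE (cu Z)) x : E3)‖)) := by
        gcongr
        linarith
      refine h7.trans ?_
      linarith
    refine h2.trans ?_
    have hk3 : Ch * (C / k) + Cs / k + Co / k ≤ τ / 2 := by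
      refine le_trans (le_of_eq ?_) hk2
      ring
    have hCk : 0 ≤ C / k := by positivity
    have hCsk : 0 ≤ Cs / k := by positivity
    have hCok : 0 ≤ Co / k := by positivity
    have hsν : 0 ≤ √ν := Real.sqrt_nonneg ν
    have hRk : ∀ i y, |k⁻¹ * R k i y| ≤ C / k := by
      intro i y
      rw [abs_mul, abs_inv, abs_of_pos hkp, inv_mul_eq_div]
      exact div_le_div_of_nonneg_right (hRb i y) hkp.le
    rcases le_total σ s0 with h | h
    · -- short times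
      have h3 : √σ * ‖(HB.hE σ (toE w) x : E3)‖ ≤ τ / 2 := by
        have h4 : ‖HB.hE σ (toE w) x‖ ≤ W0 := HB.norm_hE_le hWn hσ x
        have h5 : √σ ≤ τ / (2 * W0) := by
          rw [show τ / (2 * W0) = √s0 by rw [hs0, Real.sqrt_sq (by positivity)]]
          exact Real.sqrt_le_sqrt h
        calc √σ * ‖(HB.hE σ (toE w) x : E3)‖ ≤ τ / (2 * W0) * W0 :=
              mul_le_mul h5 h4 (norm_nonneg _) (by positivity)
          _ = τ / 2 := by field_simp
      have hZb : ∀ i y, |Z i y| ≤ 8 * √ν * M + C / k := by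
        intro i y
        have h4 := hPb i y
        have h5 := hQb i y
        have h6 := Real.abs_sin_le_one (k * φ y)
        have h7 := Real.abs_cos_le_one (k * φ y)
        have h8 : |P i y * Real.cos (k * φ y)| ≤ 4 * √ν * M := by
          rw [abs_mul]
          calc |P i y| * |Real.cos (k * φ y)| ≤ |P i y| * 1 :=
                mul_le_mul_of_nonneg_left h7 (abs_nonneg _)
            _ ≤ _ := by linarith
        have h9 : |Q i y * Real.sin (k * φ y)| ≤ 4 * √ν * M := by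
          rw [abs_mul]
          calc |Q i y| * |Real.sin (k * φ y)| ≤ |Q i y| * 1 :=
                mul_le_mul_of_nonneg_left h6 (abs_nonneg _)
            _ ≤ _ := by linarith
        have h10 := abs_add_three (P i y * Real.cos (k * φ y)) (Q i y * Real.sin (k * φ y))
          (k⁻¹ * R k i y)
        have h11 := hRk i y
        refine h10.trans ?_
        linarith
      have h12 : √σ * ‖HB.hE σ (toE (cu Z)) x‖ ≤ Ch * (8 * √ν * M + C / k) :=
        hcurl Z (8 * √ν * M + C / k) (fun i => CS.mono (hZc i) (subset_univ _)) hZb σ x hσ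
      have h13 : Ch * (8 * √ν * M + C / k) = 8 * Ch * √ν * M + Ch * (C / k) := by ring
      rw [h13] at h12
      have h14 := le_max_right ε ((8 * Ch * √ν + 1) * M)
      have h15 : 8 * Ch * √ν * M ≤ (8 * Ch * √ν + 1) * M := by nlinarith
      linarith
    · -- long times
      have h3 : √σ * ‖HB.hE σ (toE w) x‖ ≤ ε := hBl σ x hσ
      have h4 := le_max_left ε ((8 * Ch * √ν + 1) * M)
      have e3 : cu Z = fun i x => cu Z1 i x + k⁻¹ * cu (R k) i x := by
        funext i x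
        exact cu_add (fun i => (hZ1c i).smooth) (fun i => (hR i).smooth) k⁻¹ i x
      have hc1 : ∀ i, CS (Ω ∩ O) (cu Z1 i) := CS.cu hZ1c
      have hc2 : ∀ i, CS Ω (cu (R k) i) := CS.cu hR
      have e4 : toE (cu Z) = fun y => toE (cu Z1) y + k⁻¹ • toE (cu (R k)) y := by
        rw [e3]
        funext y; ext i; rfl
      have h5 : (HB.hE σ (toE (cu Z)) x : E3) = HB.hE σ (toE (cu Z1)) x
          + k⁻¹ • HB.hE σ (toE (cu (R k))) x := by
        rw [e4, HB.hE_add (HB.toE_cont fun i => (hc1 i).smooth.continuous)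
          (HB.toE_cs fun i => (hc1 i).compact)
          (csmul k⁻¹ (HB.toE_cont fun i => (hc2 i).smooth.continuous))
          (cssmul k⁻¹ (HB.toE_cs fun i => (hc2 i).compact)) σ x, hE_smul]
      have h6 : √σ * ‖(HB.hE σ (toE (cu Z1)) x : E3)‖ ≤ Co / k := hosc k hk1 σ x h
      have h7 : √σ * ‖HB.hE σ (toE (cu (R k))) x‖ ≤ Ch * C :=
        hcurl (R k) C (fun i => CS.mono (hR i) (subset_univ _)) hRb σ x hσ
      have h8 : √σ * ‖k⁻¹ • (HB.hE σ (toE (cu (R k))) x : E3)‖ ≤ Ch * (C / k) := by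
        rw [norm_smul, norm_inv, Real.norm_of_nonneg hkp.le]
        rw [← mul_div_assoc, le_div_iff₀ hkp]
        calc √σ * (k⁻¹ * ‖(HB.hE σ (toE (cu (R k))) x : E3)‖) * k
            = √σ * ‖(HB.hE σ (toE (cu (R k))) x : E3)‖ * (k⁻¹ * k) := by ring
          _ = √σ * ‖(HB.hE σ (toE (cu (R k))) x : E3)‖ := by
              rw [inv_mul_cancel₀ hkp.ne', mul_one]
          _ ≤ _ := h7
      have h9 : √σ * ‖(HB.hE σ (toE (cu Z)) x : E3)‖ ≤ Co / k + Ch * (C / k) := by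
        rw [h5]
        calc √σ * ‖(HB.hE σ (toE (cu Z1)) x : E3) + k⁻¹ • HB.hE σ (toE (cu (R k))) x‖
            ≤ √σ * (‖(HB.hE σ (toE (cu Z1)) x : E3)‖
              + ‖k⁻¹ • (HB.hE σ (toE (cu (R k))) x : E3)‖) := by
              gcongr
              exact norm_add_le _ _
          _ = √σ * ‖(HB.hE σ (toE (cu Z1)) x : E3)‖
              + √σ * ‖k⁻¹ • (HB.hE σ (toE (cu (R k))) x : E3)‖ := by ring
          _ ≤ _ := add_le_add h6 h8
      linarith
  · have e : (fun i x => (g i x + F i x) + w' i x) =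
        fun i x => (g i x + w i x) + D k 0 i x := by
      funext i x
      rw [hDe]
      simp only [hw']
      ring
    rw [e]
    exact hG'

end Pool.Agent.T2H10.DN
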