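import Pool.Agent.T2H10.DN.Defs3
import Pool.Agent.T2H10.DN.HeatQA
import Pool.Agent.T2H10.DN.OneLayer

/-!
One more layer in the norm of `B^{-1}_{∞,q}` (TASK G2c).
-/

set_option autoImplicit false
set_option linter.unusedSectionVars false

open MeasureTheory Set Filter Topology
open scoped InnerProductSpace ENNReal ContDiff

namespace Pool.Agent.T2H10.DN

open H772R2.NS
open Pool.Agent.W795.TQ
open Pool.Agent.Y303.LV (heat cl clj)

namespace HQ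

/-- the statement of `heat_far` -/
def FarS : Prop := ∃ c : ℝ, 0 < c ∧ ∀ (Ω : Set E3) (V : ℝ), IsOpen Ω → Bornology.IsBounded Ω →
    volume.real Ω ≤ V → ∀ (Z : VF) (M : ℝ), 0 ≤ M → (∀ i, CS Ω (Z i)) → (∀ i x, |Z i x| ≤ M) →
      ∀ (s : ℝ) (x : E3), 0 < s →
        √s * ‖(heat s (toE Z) x : E3)‖ ≤ c * V * M * s⁻¹ ∧
        √s * ‖(heat s (toE (cu Z)) x : E3)‖ ≤ c * V * M * s⁻¹ * (√s)⁻¹

/-- the statement of `heat_osc2` -/
def OscS : Prop := ∃ c : ℝ, 0 < c ∧ ∀ (φ : E3 → ℝ) (O : Set E3) (X Y : VF) (a : ℝ), 0 ≤ a →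
    ContDiff ℝ ∞ φ → (∀ x ∈ O, ∑ j, pd j φ x ^ 2 = 1) → (∀ i, CS O (X i)) → (∀ i, CS O (Y i)) →
    (∀ i x, |X i x| ≤ a) → (∀ i x, |Y i x| ≤ a) →
    ∃ C : ℝ, 0 ≤ C ∧ ∀ k : ℝ, 1 ≤ k → ∀ (s : ℝ) (x : E3), 0 < s →
      √s * ‖(heat s (toE (cu (fun i y => X i y * Real.cos (k * φ y)
        + Y i y * Real.sin (k * φ y)))) x : E3)‖ ≤ c * a * (k * √s)⁻¹ + C / k ∧
      √s * ‖(heat s (toE (cu (fun i y => X i y * Real.cos (k * φ y)
        + Y i y * Real.sin (k * φ y)))) x : E3)‖ ≤ √s * (c * a * k + C)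

theorem m_le_one {p u : ℝ} (hp : 0 ≤ p) (hu : 0 < u) : m p u ≤ 1 := by
  rcases le_total u 1 with h | h
  · rw [m_small hp hu h]
    exact Real.rpow_le_one hu.le h hp
  · rw [m_large hp h]
    exact Real.rpow_le_one_of_one_le_of_nonpos h (by linarith)

theorem m2_small {s : ℝ} (hs : 0 < s) (h : s ≤ 1) : m (1 / 4) s ^ 2 = √s := by
  rw [m_small (by norm_num) hs h, ← Real.rpow_natCast, ← Real.rpow_mul hs.le, Real.sqrt_eq_rpow]
  norm_num

theorem m2_large {s : ℝ} (h : 1 ≤ s) : m (1 / 4) s ^ 2 = (√s)⁻¹ := by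
  have hs : 0 < s := by linarith
  rw [m_large (by norm_num) h, ← Real.rpow_natCast, ← Real.rpow_mul hs.le, Real.sqrt_eq_rpow,
    ← Real.rpow_neg hs.le]
  norm_num

theorem mk_small {k s : ℝ} (hk : 0 < k) (hs : 0 < s) (h : k ^ 2 * s ≤ 1) :
    m (1 / 2) (k ^ 2 * s) = k * √s := by
  rw [m_small (by norm_num) (by positivity) h, ← Real.sqrt_eq_rpow, Real.sqrt_mul (by positivity),
    Real.sqrt_sq hk.le]

theorem mk_large {k s : ℝ} (hk : 0 < k) (hs : 0 < s) (h : 1 ≤ k ^ 2 * s) :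
    m (1 / 2) (k ^ 2 * s) = (k * √s)⁻¹ := by
  rw [m_large (by norm_num) h, Real.rpow_neg (by positivity), ← Real.sqrt_eq_rpow,
    Real.sqrt_mul (by positivity), Real.sqrt_sq hk.le]

theorem gm {y B κ t : ℝ} (hB : 0 ≤ B) (hκ : 0 ≤ κ) (ht : 0 ≤ t) (h1 : y ≤ B * t ^ 2)
    (h2 : y ≤ B * κ ^ 2) : y ≤ B * (κ * t) := by
  rcases le_total κ t with h | h
  · refine h2.trans (mul_le_mul_of_nonneg_left ?_ hB)
    nlinarith
  · refine h1.trans (mul_le_mul_of_nonneg_left ?_ hB)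
    nlinarith

theorem kap {k : ℝ} (hk : 1 ≤ k) : 0 < (√k)⁻¹ ∧ (√k)⁻¹ ≤ 1 ∧ (√k)⁻¹ ^ 2 = k⁻¹ := by
  have hk0 : 0 < k := by linarith
  have h1 : 1 ≤ √k := Real.one_le_sqrt.2 hk
  refine ⟨by positivity, inv_le_one_of_one_le₀ h1, ?_⟩
  rw [inv_pow, Real.sq_sqrt hk0.le]

/-- the oscillating part -/
theorem osc_bound {c a C1 B k s y : ℝ} (hc : 0 ≤ c) (ha : 0 ≤ a) (hC1 : 0 ≤ C1) (hB : 0 ≤ B)
    (hk : 1 ≤ k) (hs : 0 < s) (h1 : y ≤ c * a * (k * √s)⁻¹ + C1 / k)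
    (h2 : y ≤ √s * (c * a * k + C1)) (h3 : y ≤ B * s⁻¹ * (√s)⁻¹) :
    y ≤ c * a * m (1 / 2) (k ^ 2 * s) + (c * a + C1 + B) * ((√k)⁻¹ * m (1 / 4) s) := by
  obtain ⟨κ0, κ1, κ2⟩ := kap hk
  have hk0 : 0 < k := by linarith
  have hsq : 0 < √s := Real.sqrt_pos.2 hs
  have ht0 := m_nonneg (1 / 4) s
  have hg0 := m_nonneg (1 / 2) (k ^ 2 * s)
  have hca : 0 ≤ c * a := mul_nonneg hc ha
  have hp0 : 0 ≤ (√k)⁻¹ * m (1 / 4) s := mul_nonneg κ0.le ht0
  rcases le_total s 1 with h | h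
  · have ht2 := m2_small hs h
    rcases le_total (k ^ 2 * s) 1 with h' | h'
    · have hg := mk_small hk0 hs h'
      have h4 : k * √s ≤ 1 := by rw [← hg]; exact m_le_one (by norm_num) (by positivity)
      have h5 : m (1 / 4) s ^ 2 ≤ (√k)⁻¹ ^ 2 := by
        rw [ht2, κ2, ← one_div, le_div_iff₀ hk0]
        linarith
      have h6 : m (1 / 4) s ≤ (√k)⁻¹ := (sq_le_sq₀ ht0 κ0.le).1 h5
      have h7 : √s ≤ (√k)⁻¹ * m (1 / 4) s := by
        rw [← ht2]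
        nlinarith
      rw [hg]
      calc y ≤ √s * (c * a * k + C1) := h2
        _ = c * a * (k * √s) + C1 * √s := by ring
        _ ≤ c * a * (k * √s) + C1 * ((√k)⁻¹ * m (1 / 4) s) := by gcongr
        _ ≤ _ := by nlinarith
    · have hg := mk_large hk0 hs h'
      have h4 : (k * √s)⁻¹ ≤ 1 := by rw [← hg]; exact m_le_one (by norm_num) (by positivity)
      have h4' : 1 ≤ k * √s := by
        have := (inv_le_one₀ (by positivity)).1 h4
        exact this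
      have h5 : (√k)⁻¹ ^ 2 ≤ m (1 / 4) s ^ 2 := by
        rw [ht2, κ2, ← one_div, div_le_iff₀ hk0]
        linarith
      have h6 : (√k)⁻¹ ≤ m (1 / 4) s := (sq_le_sq₀ κ0.le ht0).1 h5
      have h7 : C1 / k ≤ C1 * ((√k)⁻¹ * m (1 / 4) s) := by
        rw [div_eq_mul_inv, ← κ2]
        refine mul_le_mul_of_nonneg_left ?_ hC1
        nlinarith
      rw [hg]
      nlinarith
  · have ht2 := m2_large h
    have hsq1 : 1 ≤ √s := Real.one_le_sqrt.2 h
    have hs1 : (√s)⁻¹ ≤ 1 := inv_le_one_of_one_le₀ hsq1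
    have hs2 : s⁻¹ ≤ 1 := inv_le_one_of_one_le₀ h
    have h4 : y ≤ (c * a + C1 + B) * m (1 / 4) s ^ 2 := by
      rw [ht2]
      calc y ≤ B * s⁻¹ * (√s)⁻¹ := h3
        _ ≤ B * 1 * (√s)⁻¹ := by gcongr
        _ ≤ (c * a + C1 + B) * (√s)⁻¹ := by
            gcongr
            linarith
    have h5 : y ≤ (c * a + C1 + B) * (√k)⁻¹ ^ 2 := by
      rw [κ2]
      calc y ≤ c * a * (k * √s)⁻¹ + C1 / k := h1
        _ = c * a * (k⁻¹ * (√s)⁻¹) + C1 * k⁻¹ := by rw [mul_inv, div_eq_mul_inv]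
        _ ≤ c * a * (k⁻¹ * 1) + C1 * k⁻¹ := by gcongr
        _ ≤ (c * a + C1 + B) * k⁻¹ := by
            have : 0 ≤ B * k⁻¹ := by positivity
            linarith
    have h6 := gm (by positivity) κ0.le ht0 h4 h5
    have : 0 ≤ c * a * m (1 / 2) (k ^ 2 * s) := mul_nonneg hca hg0
    linarith

/-- the part `k⁻¹ G` -/
theorem small_bound {B k s y : ℝ} (hB : 0 ≤ B) (hk : 1 ≤ k) (hs : 0 < s) (hy : 0 ≤ y)
    (h2 : y ≤ √s * B) (h3 : y ≤ B * s⁻¹) :
    k⁻¹ * y ≤ B * ((√k)⁻¹ * m (1 / 4) s) := by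
  obtain ⟨κ0, κ1, κ2⟩ := kap hk
  have ht0 := m_nonneg (1 / 4) s
  have ht1 := m_le_one (p := 1 / 4) (by norm_num) hs
  have h5 : y ≤ B * m (1 / 4) s ^ 2 := by
    rcases le_total s 1 with h | h
    · rw [m2_small hs h]
      linarith
    · rw [m2_large h]
      refine h3.trans (mul_le_mul_of_nonneg_left ?_ hB)
      refine inv_anti₀ (by positivity) ?_
      rw [Real.sqrt_le_left (by linarith)]
      nlinarith
  have h6 : y ≤ B * m (1 / 4) s := by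
    refine h5.trans (mul_le_mul_of_nonneg_left ?_ hB)
    nlinarith
  have h7 : k⁻¹ ≤ (√k)⁻¹ := by
    rw [← κ2]
    nlinarith
  calc k⁻¹ * y ≤ (√k)⁻¹ * (B * m (1 / 4) s) := mul_le_mul h7 h6 hy κ0.le
    _ = _ := by ring

/-- the part `k⁻¹ curl R` -/
theorem curl_bound {B k s y : ℝ} (hB : 0 ≤ B) (hk : 1 ≤ k) (hs : 0 < s)
    (h1 : y ≤ B) (h2 : y ≤ √s * (B * k)) (h3 : y ≤ B * s⁻¹ * (√s)⁻¹) :
    k⁻¹ * y ≤ B * ((√k)⁻¹ * m (1 / 4) s) := by
  obtain ⟨κ0, κ1, κ2⟩ := kap hk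
  have hk0 : 0 < k := by linarith
  have ht0 := m_nonneg (1 / 4) s
  have h4 : k⁻¹ * y ≤ B * (√k)⁻¹ ^ 2 := by
    rw [κ2, mul_comm]
    exact mul_le_mul_of_nonneg_right h1 (by positivity)
  have h5 : k⁻¹ * y ≤ B * m (1 / 4) s ^ 2 := by
    rcases le_total s 1 with h | h
    · rw [m2_small hs h]
      calc k⁻¹ * y ≤ k⁻¹ * (√s * (B * k)) := by gcongr
        _ = B * √s := by field_simp
    · rw [m2_large h]
      have hs2 : s⁻¹ ≤ 1 := inv_le_one_of_one_le₀ h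
      have hk2 : k⁻¹ ≤ 1 := inv_le_one_of_one_le₀ hk
      calc k⁻¹ * y ≤ k⁻¹ * (B * s⁻¹ * (√s)⁻¹) := by gcongr
        _ ≤ 1 * (B * 1 * (√s)⁻¹) := by gcongr
        _ = _ := by ring
  exact gm hB κ0.le ht0 h5 h4

end HQ

open HQ OL in
/-- TASK G2c: one more layer in the norm of `B^{-1}_{∞,q}` -/
theorem heat_layer_q_of (hfar : FarS) (hosc : OscS) {q : ℝ} (hq : 1 < q) :
    ∃ c : ℝ, 0 < c ∧ ∀ (Ω : Set E3), IsOpen Ω →
    Bornology.IsBounded Ω → ∀ (φ : E3 → ℝ) (O : Set E3) (P Q w G : VF) (R : ℝ → VF)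
      (a C E τ : ℝ), 0 ≤ a → 0 < τ → ContDiff ℝ ∞ φ → (∀ x ∈ O, ∑ j, pd j φ x ^ 2 = 1) →
      (∀ i, CS (Ω ∩ O) (P i)) → (∀ i, CS (Ω ∩ O) (Q i)) → (∀ i x, |P i x| ≤ a) →
      (∀ i x, |Q i x| ≤ a) → (∀ i, CS Ω (w i)) → (∀ i, CS Ω (G i)) →
      (∀ k, 1 ≤ k → (∀ i, CS Ω (R k i)) ∧ (∀ i x, |R k i x| ≤ C) ∧
        ∀ i j x, |pd j (R k i) x| ≤ C * k) → Bq q w E →
      ∃ k0 : ℝ, 1 ≤ k0 ∧ ∀ k, k0 ≤ k → Bq q (fun i x => w i x + (k⁻¹ * G i x
        + cu (fun j y => P j y * Real.cos (k * φ y) + Q j y * Real.sin (k * φ y)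
          + k⁻¹ * R k j y) i x)) (E + c * a ^ q + τ) := by
  obtain ⟨cf, hcf, hfar⟩ := hfar
  obtain ⟨co, hco, hosc⟩ := hosc
  obtain ⟨ch, hch, hcurl⟩ := heat_curl
  refine ⟨co ^ q * HQ.I (1 / 2 * q) + 1, ?_, ?_⟩
  · have := I_nonneg (1 / 2 * q)
    positivity
  intro Ω hΩ hb φ O P Q w G R a C E τ ha hτ hφ hφn hP hQ hPa hQa hw hG hR hB
  obtain ⟨A, hAm, hA0, hAb, hAi, hAE⟩ := hB
  obtain ⟨C1, hC1, hosc⟩ := hosc φ (Ω ∩ O) P Q a ha hφ (fun x hx => hφn x hx.2) hP hQ hPa hQa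
  have hC : 0 ≤ C := (abs_nonneg _).trans ((hR 1 le_rfl).2.1 0 0)
  set V : ℝ := volume.real Ω with hV
  have hV0 : 0 ≤ V := measureReal_nonneg
  choose g hg0 hgb using fun i => (hG i).hbBound
  set MG : ℝ := g 0 + g 1 + g 2 with hMG
  have hMG0 : 0 ≤ MG := by
    have := hg0 0
    have := hg0 1
    have := hg0 2
    positivity
  have hGb : ∀ i x, |G i x| ≤ MG := by
    intro i x
    have h0 := hg0 0
    have h1 := hg0 1
    have h2 := hg0 2
    have := hgb i x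
    fin_cases i <;> simp at this ⊢ <;> linarith
  set B1 : ℝ := cf * V * (2 * a) with hB1
  set B2 : ℝ := 3 * MG + cf * V * MG with hB2
  set B3 : ℝ := 6 * C + ch * C + cf * V * C with hB3
  have hB10 : 0 ≤ B1 := by positivity
  have hB20 : 0 ≤ B2 := by positivity
  have hB30 : 0 ≤ B3 := by positivity
  set CC : ℝ := (co * a + C1 + B1) + B2 + B3 with hCC
  have hCC0 : 0 ≤ CC := by positivity
  obtain ⟨k0, hk0, hmain⟩ := main hq hAm hA0 hAi hAE (b := co * a) (C := CC) (τ := τ)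
    (by positivity) hCC0 hτ
  refine ⟨k0, hk0, fun k hk => ?_⟩
  have hk1 : 1 ≤ k := hk0.trans hk
  have hkp : 0 < k := by linarith
  obtain ⟨hD1, hD2⟩ := hmain k hk
  refine ⟨fun s => A s + (co * a * m (1 / 2) (k ^ 2 * s) + CC * (√k)⁻¹ * m (1 / 4) s), ?_, ?_, ?_,
    hD1, ?_⟩
  · have h1 : Measurable (fun s => m (1 / 2) (k ^ 2 * s)) :=
      (m_meas (1 / 2)).comp (measurable_id.const_mul (k ^ 2))
    exact hAm.add ((h1.const_mul _).add ((m_meas _).const_mul _))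
  · intro s
    have h1 := hA0 s
    have h2 := m_nonneg (1 / 2) (k ^ 2 * s)
    have h3 := m_nonneg (1 / 4) s
    positivity
  · intro s x hs
    obtain ⟨hRc, hRb, hRd⟩ := hR k hk1
    set Z1 : VF := fun j y => P j y * Real.cos (k * φ y) + Q j y * Real.sin (k * φ y) with hZ1
    set Z : VF := fun j y => P j y * Real.cos (k * φ y) + Q j y * Real.sin (k * φ y)
      + k⁻¹ * R k j y with hZ
    have hsin : ContDiff ℝ ∞ (fun y => Real.sin (k * φ y)) :=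
      Real.contDiff_sin.comp (contDiff_const.mul hφ)
    have hcos : ContDiff ℝ ∞ (fun y => Real.cos (k * φ y)) :=
      Real.contDiff_cos.comp (contDiff_const.mul hφ)
    have hZ1c : ∀ i, CS Ω (Z1 i) := fun i =>
      CS.mono (((hP i).hbMul hcos).hbAdd ((hQ i).hbMul hsin)) inter_subset_left
    have hcZ1 : ∀ i, CS Ω (cu Z1 i) := CS.cu hZ1c
    have hcR : ∀ i, CS Ω (cu (R k) i) := CS.cu hRc
    have hsq : 0 ≤ √s := Real.sqrt_nonneg s
    -- the splitting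
    set g1 : E3 := HB.hE s (toE w) x with hg1
    set g2 : E3 := HB.hE s (toE G) x with hg2
    set g3 : E3 := HB.hE s (toE (cu Z1)) x with hg3
    set g4 : E3 := HB.hE s (toE (cu (R k))) x with hg4
    have hcc : ∀ {U : VF}, (∀ i, CS Ω (U i)) → Continuous (toE U) := fun hU =>
      HB.toE_cont fun i => (hU i).smooth.continuous
    have hss : ∀ {U : VF}, (∀ i, CS Ω (U i)) → HasCompactSupport (toE U) := fun hU =>
      HB.toE_cs fun i => (hU i).compact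
    have e0 : toE (fun i x => w i x + (k⁻¹ * G i x + cu Z i x))
        = fun y => toE w y + (k⁻¹ • toE G y + (toE (cu Z1) y + k⁻¹ • toE (cu (R k)) y)) := by
      funext y
      ext i
      show w i y + (k⁻¹ * G i y + cu Z i y) = w i y + (k⁻¹ * G i y + (cu Z1 i y
        + k⁻¹ * cu (R k) i y))
      rw [hZ, cu_add (fun i => (hZ1c i).smooth) (fun i => (hRc i).smooth)]
    have c34 : Continuous (fun y => toE (cu Z1) y + k⁻¹ • toE (cu (R k)) y) :=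
      (hcc hcZ1).add (csmul k⁻¹ (hcc hcR))
    have s34 : HasCompactSupport (fun y => toE (cu Z1) y + k⁻¹ • toE (cu (R k)) y) :=
      (hss hcZ1).add (cssmul k⁻¹ (hss hcR))
    have c234 : Continuous (fun y => k⁻¹ • toE G y + (toE (cu Z1) y + k⁻¹ • toE (cu (R k)) y)) :=
      (csmul k⁻¹ (hcc hG)).add c34
    have s234 : HasCompactSupport
        (fun y => k⁻¹ • toE G y + (toE (cu Z1) y + k⁻¹ • toE (cu (R k)) y)) :=
      (cssmul k⁻¹ (hss hG)).add s34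
    have hsplit : HB.hE s (toE (fun i x => w i x + (k⁻¹ * G i x + cu Z i x))) x
        = g1 + (k⁻¹ • g2 + (g3 + k⁻¹ • g4)) := by
      rw [e0, HB.hE_add (hcc hw) (hss hw) c234 s234, HB.hE_add (csmul k⁻¹ (hcc hG))
        (cssmul k⁻¹ (hss hG)) c34 s34, HB.hE_add (hcc hcZ1) (hss hcZ1) (csmul k⁻¹ (hcc hcR))
        (cssmul k⁻¹ (hss hcR)), hE_smul, hE_smul]
    have hn : ‖g1 + (k⁻¹ • g2 + (g3 + k⁻¹ • g4))‖ ≤ ‖g1‖ + (k⁻¹ * ‖g2‖ + (‖g3‖ + k⁻¹ * ‖g4‖)) := by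
      have i1 := norm_add_le g1 (k⁻¹ • g2 + (g3 + k⁻¹ • g4))
      have i2 := norm_add_le (k⁻¹ • g2) (g3 + k⁻¹ • g4)
      have i3 := norm_add_le g3 (k⁻¹ • g4)
      rw [norm_smul, norm_inv, Real.norm_of_nonneg hkp.le] at i2 i3
      linarith
    -- the bounds
    have hZ1b : ∀ i y, |Z1 i y| ≤ 2 * a := by
      intro i y
      have h4 := hPa i y
      have h5 := hQa i y
      have h6 := Real.abs_sin_le_one (k * φ y)
      have h7 := Real.abs_cos_le_one (k * φ y)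
      have h8 : |P i y * Real.cos (k * φ y)| ≤ a := by
        rw [abs_mul]
        calc |P i y| * |Real.cos (k * φ y)| ≤ |P i y| * 1 :=
              mul_le_mul_of_nonneg_left h7 (abs_nonneg _)
          _ ≤ _ := by linarith
      have h9 : |Q i y * Real.sin (k * φ y)| ≤ a := by
        rw [abs_mul]
        calc |Q i y| * |Real.sin (k * φ y)| ≤ |Q i y| * 1 :=
              mul_le_mul_of_nonneg_left h6 (abs_nonneg _)
          _ ≤ _ := by linarith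
      refine (abs_add_le _ _).trans ?_
      linarith
    have b1 : √s * ‖g1‖ ≤ A s := hAb s x hs
    have b2 : k⁻¹ * (√s * ‖g2‖) ≤ B2 * ((√k)⁻¹ * m (1 / 4) s) := by
      refine small_bound hB20 hk1 hs (by positivity) ?_ ?_
      · have : ‖g2‖ ≤ 3 * MG := HB.norm_hE_le (fun y => toE_norm_le fun i => hGb i y) hs x
        have h1 : (0 : ℝ) ≤ cf * V * MG := by positivity
        refine mul_le_mul_of_nonneg_left ?_ hsq
        linarith
      · have h1 : √s * ‖g2‖ ≤ cf * V * MG * s⁻¹ := (hfar Ω V hΩ hb le_rfl G MG hMG0 hG hGb s x hs).1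
        refine h1.trans ?_
        have h2 : (0 : ℝ) ≤ 3 * MG := by positivity
        gcongr
        linarith
    have b3 : √s * ‖g3‖ ≤ co * a * m (1 / 2) (k ^ 2 * s)
        + (co * a + C1 + B1) * ((√k)⁻¹ * m (1 / 4) s) := by
      obtain ⟨h1, h2⟩ := hosc k hk1 s x hs
      exact osc_bound hco.le ha hC1 hB10 hk1 hs h1 h2
        (hfar Ω V hΩ hb le_rfl Z1 (2 * a) (by positivity) hZ1c hZ1b s x hs).2
    have hcRb : ∀ i y, |cu (R k) i y| ≤ 2 * (C * k) := by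
      intro i y
      have key : ∀ u v a' b', |pd u (R k v) y - pd a' (R k b') y| ≤ 2 * (C * k) := by
        intro u v a' b'
        have i1 := hRd v u y
        have i2 := hRd b' a' y
        refine (abs_sub _ _).trans ?_
        linarith
      fin_cases i
      · exact key 1 2 2 1
      · exact key 2 0 0 2
      · exact key 0 1 1 0
    have b4 : k⁻¹ * (√s * ‖g4‖) ≤ B3 * ((√k)⁻¹ * m (1 / 4) s) := by
      have j1 : 0 ≤ 6 * C := by positivity
      have j2 : 0 ≤ ch * C := by positivity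
      have j3 : 0 ≤ cf * V * C := by positivity
      refine curl_bound hB30 hk1 hs ?_ ?_ ?_
      · have h1 : √s * ‖g4‖ ≤ ch * C :=
          hcurl (R k) C (fun i => CS.mono (hRc i) (subset_univ _)) hRb s x hs
        linarith
      · have : ‖g4‖ ≤ 3 * (2 * (C * k)) :=
          HB.norm_hE_le (fun y => toE_norm_le fun i => hcRb i y) hs x
        refine mul_le_mul_of_nonneg_left (this.trans ?_) hsq
        have : 0 ≤ (ch * C + cf * V * C) * k := by positivity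
        rw [hB3]
        linarith
      · have h1 : √s * ‖g4‖ ≤ cf * V * C * s⁻¹ * (√s)⁻¹ :=
          (hfar Ω V hΩ hb le_rfl (R k) C hC hRc hRb s x hs).2
        refine h1.trans ?_
        gcongr
        linarith
    change √s * ‖HB.hE s (toE (fun i x => w i x + (k⁻¹ * G i x + cu Z i x))) x‖ ≤ _
    rw [hsplit]
    calc √s * ‖g1 + (k⁻¹ • g2 + (g3 + k⁻¹ • g4))‖
        ≤ √s * (‖g1‖ + (k⁻¹ * ‖g2‖ + (‖g3‖ + k⁻¹ * ‖g4‖))) := mul_le_mul_of_nonneg_left hn hsq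
      _ = √s * ‖g1‖ + (k⁻¹ * (√s * ‖g2‖) + (√s * ‖g3‖ + k⁻¹ * (√s * ‖g4‖))) := by ring
      _ ≤ _ := by
        rw [hCC]
        linarith
  · refine hD2.trans ?_
    have h1 : (co * a) ^ q = co ^ q * a ^ q := Real.mul_rpow hco.le ha
    have h2 : 0 ≤ a ^ q := Real.rpow_nonneg ha _
    rw [h1]
    linarith

end Pool.Agent.T2H10.DN
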