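import Pool.Agent.T2H10.DN.Defs3
import Pool.Agent.T2H10.DN.OneLayer

/-!
One layer, with a force and in the norm of `B^{-1}_{∞,q}` (TASK G5).
-/

set_option autoImplicit false
set_option linter.unusedSectionVars false

open MeasureTheory Set Filter Topology
open scoped InnerProductSpace ENNReal ContDiff

namespace Pool.Agent.T2H10.DN

open H772R2.NS
open H772R2.NSR (Frame)
open Pool.Agent.W795.TQ
open Pool.Agent.Y303.RA (Hom)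
open Pool.Agent.Y303.LV (heat cl clj)

namespace OLF

/-- the statement of `stepF` (without the hypotheses `S_loc`, `S_univ`) -/
def StepFS (ν : ℝ) : Prop := ∀ (Ω : Set E3), IsOpen Ω → Bornology.IsBounded Ω →
    ∀ (TT' : Set ℝ) (f f1 : ℝ → L2M Ω) (Φ : ℝ), ForceB Ω TT' f f1 Φ → ∀ (U : ℝ → L2V Ω) (v : VF),
    (∀ i, CS Ω (v i)) → (∀ x, dv v x = 0) → ∀ (Y η η' : ℝ), 0 ≤ Y → 0 ≤ η → η < η' →
    GoodF Ω ν TT' f U v Y η → ∀ (s : Finset (ℕ × ℕ)) (X : ℕ × ℕ → VF), (∀ a i, CS Ω (X a i)) →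
    ∀ (C0 : ℝ), 0 ≤ C0 →
    ∃ S : ℕ × ℕ → VF, (∀ a i, CS Ω (S a i)) ∧ (∀ a x, dv (S a) x = 0) ∧
      ∀ C : ℝ, 0 ≤ C → ∀ K : Set E3, IsCompact K → K ⊆ Ω → ∃ k0 : ℝ, 1 ≤ k0 ∧
        ∀ k : ℝ, k0 ≤ k → ∀ D D1 : ℝ → VF, Fam Ω ν v s X S C0 C k K D D1 →
          ∃ Y' : ℝ, 0 ≤ Y' ∧ GoodF Ω ν TT' f U (fun i x => v i x + D 0 i x) Y' η'

/-- the statement of `layer_expansion2` -/
def Exp2S (ν : ℝ) : Prop := ∀ (Ω : Set E3) (v : VF), (∀ i, CS Ω (v i)) → ∀ (F : VF) (M : ℝ),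
    LayM Ω F M →
    ∃ (φ : E3 → ℝ) (O : Set E3) (P Q : VF) (s : Finset (ℕ × ℕ)) (X : ℕ × ℕ → VF) (C0 : ℝ),
      0 ≤ C0 ∧ ContDiff ℝ ∞ φ ∧ (∀ x ∈ O, ∑ j, pd j φ x ^ 2 = 1) ∧ (∀ i, CS (Ω ∩ O) (P i)) ∧
      (∀ i, CS (Ω ∩ O) (Q i)) ∧ (∀ i x, |P i x| ≤ 4 * √ν * M) ∧ (∀ i x, |Q i x| ≤ 4 * √ν * M) ∧
      (∀ a i, CS Ω (X a i)) ∧
      ∀ S : ℕ × ℕ → VF, (∀ a i, CS Ω (S a i)) → (∀ a x, dv (S a) x = 0) →
        ∃ (C : ℝ) (K : Set E3) (c : ℕ × ℕ → ℝ) (D D1 : ℝ → ℝ → VF) (R : ℝ → VF),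
          0 ≤ C ∧ IsCompact K ∧ K ⊆ Ω ∧ ∀ k : ℝ, 1 ≤ k →
            Fam Ω ν v s X S C0 C k K (D k) (D1 k) ∧ (∀ i, CS Ω (R k i)) ∧
            (∀ i x, |R k i x| ≤ C) ∧ (∀ i j x, |pd j (R k i) x| ≤ C * k) ∧
            ∀ i x, D k 0 i x = F i x + k⁻¹ * ∑ a ∈ s, c a * S a i x
              + cu (fun j y => P j y * Real.cos (k * φ y) + Q j y * Real.sin (k * φ y)
                + k⁻¹ * R k j y) i x

/-- the statement of `heat_layer_q` -/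
def HeatS (q : ℝ) : Prop := ∃ c : ℝ, 0 < c ∧ ∀ (Ω : Set E3), IsOpen Ω →
    Bornology.IsBounded Ω → ∀ (φ : E3 → ℝ) (O : Set E3) (P Q w G : VF) (R : ℝ → VF)
      (a C E τ : ℝ), 0 ≤ a → 0 < τ → ContDiff ℝ ∞ φ → (∀ x ∈ O, ∑ j, pd j φ x ^ 2 = 1) →
      (∀ i, CS (Ω ∩ O) (P i)) → (∀ i, CS (Ω ∩ O) (Q i)) → (∀ i x, |P i x| ≤ a) →
      (∀ i x, |Q i x| ≤ a) → (∀ i, CS Ω (w i)) → (∀ i, CS Ω (G i)) →
      (∀ k, 1 ≤ k → (∀ i, CS Ω (R k i)) ∧ (∀ i x, |R k i x| ≤ C) ∧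
        ∀ i j x, |pd j (R k i) x| ≤ C * k) → Bq q w E →
      ∃ k0 : ℝ, 1 ≤ k0 ∧ ∀ k, k0 ≤ k → Bq q (fun i x => w i x + (k⁻¹ * G i x
        + cu (fun j y => P j y * Real.cos (k * φ y) + Q j y * Real.sin (k * φ y)
          + k⁻¹ * R k j y) i x)) (E + c * a ^ q + τ)

end OLF

open OL OLF in
/-- TASK G5: one layer (uses `stepF`, `layer_expansion2` and `heat_layer_q`) -/
theorem one_layerF_of {ν : ℝ} (hstep : StepFS ν) (hexp : Exp2S ν) (hν : 0 < ν) {q : ℝ}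
    (hheat : HeatS q) :
    ∃ Cν : ℝ, 0 < Cν ∧ ∀ Ω : Set E3, IsOpen Ω → Bornology.IsBounded Ω → ∀ (TT' : Set ℝ)
      (f f1 : ℝ → L2M Ω) (Φ : ℝ) (U : ℝ → L2V Ω) (w g F : VF) (M Y η E τ : ℝ),
      ForceB Ω TT' f f1 Φ → (∀ i, CS Ω (w i)) → (∀ i, CS Ω (g i)) → (∀ x, dv w x = 0) →
      (∀ x, dv g x = 0) → 0 ≤ M → LayM Ω F M → 0 ≤ Y → 0 ≤ η → 0 < τ → Bq q w E →
      GoodF Ω ν TT' f U (fun i x => g i x + w i x) Y η →
      ∃ (w' : VF) (Y' : ℝ), (∀ i, CS Ω (w' i)) ∧ (∀ x, dv w' x = 0) ∧ 0 ≤ Y' ∧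
        Bq q w' (E + Cν * M ^ q + τ) ∧
        GoodF Ω ν TT' f U (fun i x => (g i x + F i x) + w' i x) Y' (η + τ) := by
  obtain ⟨c, hc, hheat⟩ := hheat
  have hsν : 0 < √ν := Real.sqrt_pos.2 hν
  refine ⟨c * (4 * √ν) ^ q, by positivity, ?_⟩
  intro Ω hΩ hb TT' f f1 Φ U w g F M Y η E τ hForce hw hg hdw hdg hM hF hY hη hτ hBq hG
  have hv : ∀ i, CS Ω (fun x => g i x + w i x) := fun i => (hg i).hbAdd (hw i)
  have hdv : ∀ x, dv (fun i x => g i x + w i x) x = 0 := fun x => by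
    rw [OL.dv_add (fun i => (hg i).smooth) (fun i => (hw i).smooth), hdg, hdw, add_zero]
  obtain ⟨φ, O, P, Q, s, X, C0, hC0, hφ, hφn, hP, hQ, hPb, hQb, hX, hex⟩ :=
    hexp Ω (fun i x => g i x + w i x) hv F M hF
  obtain ⟨S, hS, hSd, hst⟩ := hstep Ω hΩ hb TT' f f1 Φ hForce U (fun i x => g i x + w i x) hv hdv
    Y η (η + τ) hY hη (by linarith) hG s X hX C0 hC0
  obtain ⟨C, K, cc, D, D1, R, hC, hK, hKΩ, hk⟩ := hex S hS hSd
  obtain ⟨k0, hk0, hst⟩ := hst C hC K hK hKΩ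
  -- the sum of the `S a`
  have hSS : ∀ i, CS Ω (fun x => ∑ a ∈ s, cc a * S a i x) := fun i =>
    OL.CS.sum s fun a => OL.CS.smul (hS a i) (cc a)
  set SS : VF := fun i x => ∑ a ∈ s, cc a * S a i x with hSSd
  have ha0 : 0 ≤ 4 * √ν * M := by positivity
  obtain ⟨k1, hk1, hheat⟩ := hheat Ω hΩ hb φ O P Q w SS R (4 * √ν * M) C E τ ha0 hτ hφ hφn hP hQ
    hPb hQb hw hSS (fun k hk' => ⟨(hk k hk').2.1, (hk k hk').2.2.1, (hk k hk').2.2.2.1⟩) hBq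
  -- the choice of `k`
  obtain ⟨k, hkk, hkk1, hk1'⟩ : ∃ k : ℝ, k0 ≤ k ∧ k1 ≤ k ∧ 1 ≤ k :=
    ⟨max k0 k1, le_max_left _ _, le_max_right _ _, hk0.trans (le_max_left _ _)⟩
  have hkp : 0 < k := by linarith
  obtain ⟨hFam, hR, hRb, hRd, hD⟩ := hk k hk1'
  set Z1 : VF := fun j y => P j y * Real.cos (k * φ y) + Q j y * Real.sin (k * φ y) with hZ1
  set Z : VF := fun j y => P j y * Real.cos (k * φ y) + Q j y * Real.sin (k * φ y)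
    + k⁻¹ * R k j y with hZ
  have hsin : ContDiff ℝ ∞ (fun y => Real.sin (k * φ y)) :=
    Real.contDiff_sin.comp (contDiff_const.mul hφ)
  have hcos : ContDiff ℝ ∞ (fun y => Real.cos (k * φ y)) :=
    Real.contDiff_cos.comp (contDiff_const.mul hφ)
  have hZ1c : ∀ i, CS (Ω ∩ O) (Z1 i) := fun i => ((hP i).hbMul hcos).hbAdd ((hQ i).hbMul hsin)
  have hZc : ∀ i, CS Ω (Z i) := fun i =>
    (OL.CS.mono (hZ1c i) inter_subset_left).hbAdd (OL.CS.smul (hR i) _)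
  have hcZ : ∀ i, CS Ω (cu Z i) := OL.CS.cu hZc
  set w' : VF := fun i x => w i x + (k⁻¹ * SS i x + cu Z i x) with hw'
  have hU : ∀ i, CS Ω (fun x => k⁻¹ * SS i x + cu Z i x) := fun i =>
    (OL.CS.smul (hSS i) _).hbAdd (hcZ i)
  have hw'c : ∀ i, CS Ω (w' i) := fun i => (hw i).hbAdd (hU i)
  -- smoothness of `F`
  have hFs : ∀ i, ContDiff ℝ ∞ (F i) := by
    obtain ⟨φ', O', A, B, q, -, -, -, hA, hB, hq, -, -, hFe, -, -, -⟩ := hF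
    intro i
    have e : F i = fun x => (∑ j, pd j (fun y => A i y * A j y + B i y * B j y) x) + pd i q x :=
      funext fun x => hFe i x
    rw [e]
    refine ContDiff.add (ContDiff.sum fun j _ => ?_) (hq.hbPd i).smooth
    exact HB.pd_smooth (((hA i).smooth.mul (hA j).smooth).add ((hB i).smooth.mul (hB j).smooth)) j
  have hFd : ∀ x, dv F x = 0 := by
    obtain ⟨φ', O', A, B, q, -, -, -, -, -, -, -, -, -, hFd, -, -⟩ := hF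
    exact hFd
  have hDe : D k 0 = fun i x => F i x + (k⁻¹ * SS i x + cu Z i x) := by
    funext i x
    rw [hD i x]
    ring
  have hdU : ∀ x, dv (fun i x => k⁻¹ * SS i x + cu Z i x) x = 0 := by
    intro x
    have h1 := hFam.div 0 x
    rw [hDe, OL.dv_add hFs (fun i => (hU i).smooth), hFd, zero_add] at h1
    exact h1
  have hdw' : ∀ x, dv w' x = 0 := by
    intro x
    rw [hw', OL.dv_add (fun i => (hw i).smooth) (fun i => (hU i).smooth), hdw, hdU, add_zero]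
  obtain ⟨Y', hY', hG'⟩ := hst k hkk (D k) (D1 k) hFam
  refine ⟨w', Y', hw'c, hdw', hY', ?_, ?_⟩
  · -- the bound in the Besov space
    have h1 := hheat k hkk1
    have e : c * (4 * √ν * M) ^ q = c * (4 * √ν) ^ q * M ^ q := by
      rw [Real.mul_rpow (by positivity) hM]; ring
    rw [e] at h1
    exact h1
  · have e : (fun i x => (g i x + F i x) + w' i x) =
        fun i x => (g i x + w i x) + D k 0 i x := by
      funext i x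
      rw [hDe]
      simp only [hw']
      ring
    rw [e]
    exact hG'

end Pool.Agent.T2H10.DN
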