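import Pool.Agent.T2H10.DN.Defs
import Pool.Agent.Y303.LV.Est

/-!
The bilinear terms `(u · ∇) D + (D · ∇) u` as a bounded operator, and the mixed part of the tensor
square.
-/

set_option autoImplicit false
set_option linter.unusedSectionVars false

open MeasureTheory Set Filter Topology
open scoped InnerProductSpace ENNReal ContDiff

namespace Pool.Agent.T2H10.DN

open H772R2.NS
open Pool.Agent.Y303.LV (cl)
open Pool.Agent.W52.TQ (tns ibp)

section smooth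

variable {Ω : Set E3} {f : E3 → ℝ} {V D : VF}

theorem CS.pd_cont (hf : CS Ω f) (j : Fin 3) : Continuous (pd j f) :=
  (hf.smooth.continuous_fderiv (by simp)).clm_apply continuous_const

theorem contDiff_toE (hV : ∀ i, ContDiff ℝ ∞ (V i)) : ContDiff ℝ ∞ (toE V) := by
  rw [contDiff_euclidean]
  exact hV

theorem jac_toE (hV : ∀ i, ContDiff ℝ ∞ (V i)) (x : E3) (i j : Fin 3) :
    jac (toE V) x (i, j) = pd j (V i) x := by
  rw [jac_apply, ← fderiv_coord (contDiff_toE hV)]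
  rfl

theorem toE_compact (hV : ∀ i, CS Ω (V i)) : HasCompactSupport (toE V) := by
  have hK : IsCompact (⋃ i, tsupport (V i)) := isCompact_iUnion fun i => (hV i).compact
  refine HasCompactSupport.intro hK fun x hx => ?_
  simp only [mem_iUnion, not_exists] at hx
  ext i
  have h : V i x = 0 := image_eq_zero_of_notMem_tsupport (hx i)
  exact h

theorem toE_supp (hV : ∀ i, CS Ω (V i)) : tsupport (toE V) ⊆ Ω := by
  have hK : IsClosed (⋃ i, tsupport (V i)) :=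
    (isCompact_iUnion fun i => (hV i).compact).isClosed
  refine (closure_minimal (fun x hx => ?_) hK).trans (iUnion_subset fun i => (hV i).supp)
  by_contra hcon
  simp only [mem_iUnion, not_exists] at hcon
  refine hx ?_
  ext i
  have h : V i x = 0 := image_eq_zero_of_notMem_tsupport (hcon i)
  exact h

theorem test_toE (hV : ∀ i, CS Ω (V i)) (hd : ∀ x, dv V x = 0) : IsTest Ω (toE V) where
  smooth := contDiff_toE fun i => (hV i).smooth
  compact := toE_compact hV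
  supp := toE_supp hV
  divfree := fun x => by
    rw [← hd x]
    exact Finset.sum_congr rfl fun i _ => jac_toE (fun i => (hV i).smooth) x i i

theorem cl_coe' {F : E3 → E3} (hF : MemLp F 2 (volume.restrict Ω)) :
    (cl Ω F : E3 → E3) =ᵐ[volume.restrict Ω] F := by
  unfold cl
  rw [dif_pos hF]
  exact MemLp.coeFn_toLp _

end smooth

/-- the first bilinear term at a point -/
noncomputable def b1 (D : VF) (x u : E3) : E3 := WithLp.toLp 2 fun i => ∑ j, u j * pd j (D i) x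

/-- the second bilinear term at a point -/
noncomputable def b2 (D : VF) (x : E3) (g : M3) : E3 :=
  WithLp.toLp 2 fun i => ∑ j, D j x * g (i, j)

theorem norm_b1 {D : VF} {Q : ℝ} (hQ : ∀ i j x, |pd j (D i) x| ≤ Q) (x u : E3) :
    ‖b1 D x u‖ ≤ 9 * Q * ‖u‖ := by
  have hQ0 : 0 ≤ Q := (abs_nonneg _).trans (hQ 0 0 x)
  refine le_of_sq_le_sq ?_ (by positivity)
  rw [norm_sq_E3, mul_pow, norm_sq_E3]
  have h : ∀ i, (b1 D x u) i ^ 2 ≤ 3 * Q ^ 2 * ∑ j, u j ^ 2 := by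
    intro i
    have h1 : (∑ j, u j * pd j (D i) x) ^ 2 ≤ (∑ j, u j ^ 2) * ∑ j, pd j (D i) x ^ 2 :=
      Finset.sum_mul_sq_le_sq_mul_sq _ _ _
    have h2 : ∑ j, pd j (D i) x ^ 2 ≤ 3 * Q ^ 2 := by
      calc ∑ j, pd j (D i) x ^ 2 ≤ ∑ _j : Fin 3, Q ^ 2 :=
            Finset.sum_le_sum fun j _ => sq_le_sq' (by linarith [neg_abs_le (pd j (D i) x), hQ i j x])
              ((le_abs_self _).trans (hQ i j x))
        _ = 3 * Q ^ 2 := by simp
    have h3 : 0 ≤ ∑ j, u j ^ 2 := Finset.sum_nonneg fun _ _ => sq_nonneg _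
    calc (b1 D x u) i ^ 2 = (∑ j, u j * pd j (D i) x) ^ 2 := rfl
      _ ≤ (∑ j, u j ^ 2) * (3 * Q ^ 2) := h1.trans (mul_le_mul_of_nonneg_left h2 h3)
      _ = _ := by ring
  have h3 : 0 ≤ ∑ j, u j ^ 2 := Finset.sum_nonneg fun _ _ => sq_nonneg _
  calc ∑ i, (b1 D x u) i ^ 2 ≤ ∑ _i : Fin 3, 3 * Q ^ 2 * ∑ j, u j ^ 2 :=
        Finset.sum_le_sum fun i _ => h i
    _ = 9 * Q ^ 2 * ∑ j, u j ^ 2 := by simp; ring
    _ ≤ (9 * Q) ^ 2 * ∑ j, u j ^ 2 := by
        refine mul_le_mul_of_nonneg_right ?_ h3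
        nlinarith [sq_nonneg Q]

theorem norm_b2 {D : VF} {P : ℝ} (hP : ∀ i x, |D i x| ≤ P) (x : E3) (g : M3) :
    ‖b2 D x g‖ ≤ 9 * P * ‖g‖ := by
  have hP0 : 0 ≤ P := (abs_nonneg _).trans (hP 0 x)
  refine le_of_sq_le_sq ?_ (by positivity)
  rw [norm_sq_E3, mul_pow, norm_sq_M3]
  have h2 : ∑ j, D j x ^ 2 ≤ 3 * P ^ 2 := by
    calc ∑ j, D j x ^ 2 ≤ ∑ _j : Fin 3, P ^ 2 :=
          Finset.sum_le_sum fun j _ => sq_le_sq' (by linarith [neg_abs_le (D j x), hP j x])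
            ((le_abs_self _).trans (hP j x))
      _ = 3 * P ^ 2 := by simp
  have h : ∀ i, (b2 D x g) i ^ 2 ≤ 3 * P ^ 2 * ∑ j, g (i, j) ^ 2 := by
    intro i
    have h1 : (∑ j, D j x * g (i, j)) ^ 2 ≤ (∑ j, D j x ^ 2) * ∑ j, g (i, j) ^ 2 :=
      Finset.sum_mul_sq_le_sq_mul_sq _ _ _
    exact h1.trans (mul_le_mul_of_nonneg_right h2 (Finset.sum_nonneg fun _ _ => sq_nonneg _))
  have h3 : 0 ≤ ∑ i, ∑ j, g (i, j) ^ 2 :=
    Finset.sum_nonneg fun _ _ => Finset.sum_nonneg fun _ _ => sq_nonneg _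
  calc ∑ i, (b2 D x g) i ^ 2 ≤ ∑ i, 3 * P ^ 2 * ∑ j, g (i, j) ^ 2 :=
        Finset.sum_le_sum fun i _ => h i
    _ = 3 * P ^ 2 * ∑ i, ∑ j, g (i, j) ^ 2 := by rw [Finset.mul_sum]
    _ ≤ (9 * P) ^ 2 * ∑ i, ∑ j, g (i, j) ^ 2 := by
        refine mul_le_mul_of_nonneg_right ?_ h3
        nlinarith [sq_nonneg P]

section op

variable {Ω : Set E3} {D : VF} {P Q : ℝ}

theorem meas_b1 (hD : ∀ i, CS Ω (D i)) (u : L2V Ω) :
    AEStronglyMeasurable (fun x => b1 D x (u x)) (volume.restrict Ω) := by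
  have h : Continuous (fun p : E3 × E3 => b1 D p.1 p.2) := by
    unfold b1
    refine (PiLp.continuous_toLp 2 _).comp (continuous_pi fun i => ?_)
    refine continuous_finsetSum _ fun j _ => ?_
    exact ((EuclideanSpace.proj (𝕜 := ℝ) j : E3 →L[ℝ] ℝ).continuous.comp continuous_snd).mul
      (((hD i).pd_cont j).comp continuous_fst)
  exact h.comp_aestronglyMeasurable
    (aestronglyMeasurable_id.prodMk (Lp.aestronglyMeasurable u))

theorem meas_b2 (hD : ∀ i, CS Ω (D i)) (g : L2M Ω) :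
    AEStronglyMeasurable (fun x => b2 D x (g x)) (volume.restrict Ω) := by
  have h : Continuous (fun p : E3 × M3 => b2 D p.1 p.2) := by
    unfold b2
    refine (PiLp.continuous_toLp 2 _).comp (continuous_pi fun i => ?_)
    refine continuous_finsetSum _ fun j _ => ?_
    exact (((hD j).smooth.continuous).comp continuous_fst).mul
      ((EuclideanSpace.proj (𝕜 := ℝ) (i, j) : M3 →L[ℝ] ℝ).continuous.comp continuous_snd)
  exact h.comp_aestronglyMeasurable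
    (aestronglyMeasurable_id.prodMk (Lp.aestronglyMeasurable g))

theorem memLp_b1 (hD : ∀ i, CS Ω (D i)) (hQ : ∀ i j x, |pd j (D i) x| ≤ Q) (u : L2V Ω) :
    MemLp (fun x => b1 D x (u x)) 2 (volume.restrict Ω) :=
  (Lp.memLp u).of_le_mul (meas_b1 hD u) (Eventually.of_forall fun x => norm_b1 hQ x (u x))

theorem memLp_b2 (hD : ∀ i, CS Ω (D i)) (hP : ∀ i x, |D i x| ≤ P) (g : L2M Ω) :
    MemLp (fun x => b2 D x (g x)) 2 (volume.restrict Ω) :=
  (Lp.memLp g).of_le_mul (meas_b2 hD g) (Eventually.of_forall fun x => norm_b2 hP x (g x))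

/-- the first operator -/
noncomputable def B1 (hD : ∀ i, CS Ω (D i)) (hQ : ∀ i j x, |pd j (D i) x| ≤ Q) :
    L2V Ω →ₗ[ℝ] L2V Ω where
  toFun u := (memLp_b1 hD hQ u).toLp _
  map_add' u v := by
    rw [← MemLp.toLp_add]
    refine MemLp.toLp_congr _ _ ?_
    filter_upwards [Lp.coeFn_add u v] with x hx
    rw [hx]
    ext i
    simp [b1, add_mul, Finset.sum_add_distrib]
  map_smul' c u := by
    rw [RingHom.id_apply, ← MemLp.toLp_const_smul]
    refine MemLp.toLp_congr _ _ ?_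
    filter_upwards [Lp.coeFn_smul c u] with x hx
    rw [hx]
    ext i
    simp [b1, mul_assoc, Finset.mul_sum]

/-- the second operator -/
noncomputable def B2 (hD : ∀ i, CS Ω (D i)) (hP : ∀ i x, |D i x| ≤ P) :
    L2M Ω →ₗ[ℝ] L2V Ω where
  toFun g := (memLp_b2 hD hP g).toLp _
  map_add' u v := by
    rw [← MemLp.toLp_add]
    refine MemLp.toLp_congr _ _ ?_
    filter_upwards [Lp.coeFn_add u v] with x hx
    rw [hx]
    ext i
    simp [b2, mul_add, Finset.sum_add_distrib]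
  map_smul' c u := by
    rw [RingHom.id_apply, ← MemLp.toLp_const_smul]
    refine MemLp.toLp_congr _ _ ?_
    filter_upwards [Lp.coeFn_smul c u] with x hx
    rw [hx]
    ext i
    simp [b2, mul_left_comm, Finset.mul_sum]

theorem B1_coe (hD : ∀ i, CS Ω (D i)) (hQ : ∀ i j x, |pd j (D i) x| ≤ Q) (u : L2V Ω) :
    (B1 hD hQ u : E3 → E3) =ᵐ[volume.restrict Ω] fun x => b1 D x (u x) :=
  MemLp.coeFn_toLp (memLp_b1 hD hQ u)

theorem B2_coe (hD : ∀ i, CS Ω (D i)) (hP : ∀ i x, |D i x| ≤ P) (g : L2M Ω) :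
    (B2 hD hP g : E3 → E3) =ᵐ[volume.restrict Ω] fun x => b2 D x (g x) :=
  MemLp.coeFn_toLp (memLp_b2 hD hP g)

theorem norm_B1 (hD : ∀ i, CS Ω (D i)) (hQ : ∀ i j x, |pd j (D i) x| ≤ Q) (u : L2V Ω) :
    ‖B1 hD hQ u‖ ≤ 9 * Q * ‖u‖ := by
  have hQ0 : 0 ≤ Q := (abs_nonneg _).trans (hQ 0 0 0)
  refine Lp.norm_le_mul_norm_of_ae_le_mul ?_
  filter_upwards [B1_coe hD hQ u] with x hx
  rw [hx]
  exact norm_b1 hQ x _

theorem norm_B2 (hD : ∀ i, CS Ω (D i)) (hP : ∀ i x, |D i x| ≤ P) (g : L2M Ω) :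
    ‖B2 hD hP g‖ ≤ 9 * P * ‖g‖ := by
  refine Lp.norm_le_mul_norm_of_ae_le_mul ?_
  filter_upwards [B2_coe hD hP g] with x hx
  rw [hx]
  exact norm_b2 hP x _

/-- the sum of the two operators -/
noncomputable def BB (hD : ∀ i, CS Ω (D i)) (hP : ∀ i x, |D i x| ≤ P)
    (hQ : ∀ i j x, |pd j (D i) x| ≤ Q) : (L2V Ω × L2M Ω) →ₗ[ℝ] L2V Ω :=
  (B1 hD hQ).comp (LinearMap.fst ℝ _ _) + (B2 hD hP).comp (LinearMap.snd ℝ _ _)

theorem BB_apply (hD : ∀ i, CS Ω (D i)) (hP : ∀ i x, |D i x| ≤ P)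
    (hQ : ∀ i j x, |pd j (D i) x| ≤ Q) (p : L2V Ω × L2M Ω) :
    BB hD hP hQ p = B1 hD hQ p.1 + B2 hD hP p.2 := rfl

theorem norm_BB (hD : ∀ i, CS Ω (D i)) (hP : ∀ i x, |D i x| ≤ P)
    (hQ : ∀ i j x, |pd j (D i) x| ≤ Q) (p : L2V Ω × L2M Ω) :
    ‖BB hD hP hQ p‖ ≤ 9 * (Q * ‖p.1‖ + P * ‖p.2‖) := by
  rw [BB_apply]
  refine (norm_add_le _ _).trans ?_
  linarith [norm_B1 hD hQ p.1, norm_B2 hD hP p.2]

theorem BB_coe (hD : ∀ i, CS Ω (D i)) (hP : ∀ i x, |D i x| ≤ P)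
    (hQ : ∀ i j x, |pd j (D i) x| ≤ Q) (p : L2V Ω × L2M Ω) :
    (BB hD hP hQ p : E3 → E3) =ᵐ[volume.restrict Ω] fun x => b1 D x (p.1 x) + b2 D x (p.2 x) := by
  rw [BB_apply]
  filter_upwards [Lp.coeFn_add (B1 hD hQ p.1) (B2 hD hP p.2), B1_coe hD hQ p.1,
    B2_coe hD hP p.2] with x h1 h2 h3
  rw [h1, Pi.add_apply, h2, h3]

theorem BB_cont (hD : ∀ i, CS Ω (D i)) (hP : ∀ i x, |D i x| ≤ P)
    (hQ : ∀ i j x, |pd j (D i) x| ≤ Q) : Continuous (BB hD hP hQ) := by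
  have hP0 : 0 ≤ P := (abs_nonneg _).trans (hP 0 0)
  have hQ0 : 0 ≤ Q := (abs_nonneg _).trans (hQ 0 0 0)
  refine (LinearMap.mkContinuous (BB hD hP hQ) (9 * (Q + P)) fun p => ?_).continuous
  refine (norm_BB hD hP hQ p).trans ?_
  have h1 : ‖p.1‖ ≤ ‖p‖ := norm_fst_le p
  have h2 : ‖p.2‖ ≤ ‖p‖ := norm_snd_le p
  nlinarith [mul_le_mul_of_nonneg_left h1 hQ0, mul_le_mul_of_nonneg_left h2 hP0]

end op

theorem continuous_tns {φ ψ : E3 → E3} (hφ : Continuous φ) (hψ : Continuous ψ) :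
    Continuous fun x => tns (ψ x) (φ x) := by
  unfold tns
  refine (PiLp.continuous_toLp 2 _).comp (continuous_pi fun p => ?_)
  exact ((EuclideanSpace.proj (𝕜 := ℝ) p.1 : E3 →L[ℝ] ℝ).continuous.comp hψ).mul
    ((EuclideanSpace.proj (𝕜 := ℝ) p.2 : E3 →L[ℝ] ℝ).continuous.comp hφ)

theorem tns_add (x y z : E3) : tns x (y + z) = tns x y + tns x z := by
  ext p
  simp [tns, mul_add]

/-- the mixed part of the tensor square, for test fields -/
theorem mix_test {Ω : Set E3} {φ d ψ : E3 → E3} (h : IsTest Ω φ) (hd : IsTest Ω d)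
    (k : IsTest Ω ψ) :
    ∫ x, ⟪tens (φ x + d x) - tens (φ x) - tens (d x), jac ψ x⟫_ℝ
      = - ∫ x, (⟪jac φ x, tns (ψ x) (d x)⟫_ℝ + ⟪jac d x, tns (ψ x) (φ x)⟫_ℝ) := by
  have i1 : ∀ {f : E3 → E3}, IsTest Ω f → Integrable fun x => ⟪tens (f x), jac ψ x⟫_ℝ := by
    intro f hf
    refine Continuous.integrable_of_hasCompactSupport
      ((continuous_tens.comp hf.smooth.continuous).inner (continuous_jac k.smooth)) ?_
    refine (hasCompactSupport_jac k.compact).mono fun x hx => ?_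
    intro h0
    apply hx
    simp [h0]
  have i2 : ∀ {f g : E3 → E3}, IsTest Ω f → IsTest Ω g →
      Integrable fun x => ⟪jac f x, tns (ψ x) (g x)⟫_ℝ := by
    intro f g hf hg
    refine Continuous.integrable_of_hasCompactSupport
      ((continuous_jac hf.smooth).inner (continuous_tns hg.smooth.continuous
        k.smooth.continuous)) ?_
    refine (hasCompactSupport_jac hf.compact).mono fun x hx => ?_
    intro h0
    apply hx
    simp [h0]
  have e0 : ∀ x, ⟪tens (φ x + d x) - tens (φ x) - tens (d x), jac ψ x⟫_ℝ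
      = ⟪tens ((φ + d) x), jac ψ x⟫_ℝ - ⟪tens (φ x), jac ψ x⟫_ℝ - ⟪tens (d x), jac ψ x⟫_ℝ := by
    intro x
    rw [inner_sub_left, inner_sub_left, Pi.add_apply]
  have e1 : ∀ x, ⟪jac (φ + d) x, tns (ψ x) ((φ + d) x)⟫_ℝ
      = ⟪jac φ x, tns (ψ x) (φ x)⟫_ℝ + ⟪jac d x, tns (ψ x) (d x)⟫_ℝ
        + (⟪jac φ x, tns (ψ x) (d x)⟫_ℝ + ⟪jac d x, tns (ψ x) (φ x)⟫_ℝ) := by
    intro x
    rw [jac_add h.smooth hd.smooth, Pi.add_apply, tns_add, inner_add_left, inner_add_right,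
      inner_add_right]
    ring
  simp only [e0]
  have s1 : ∫ x, (⟪tens ((φ + d) x), jac ψ x⟫_ℝ - ⟪tens (φ x), jac ψ x⟫_ℝ
      - ⟪tens (d x), jac ψ x⟫_ℝ) = (∫ x, ⟪tens ((φ + d) x), jac ψ x⟫_ℝ)
      - (∫ x, ⟪tens (φ x), jac ψ x⟫_ℝ) - ∫ x, ⟪tens (d x), jac ψ x⟫_ℝ := by
    have h1 := integral_sub ((i1 (h.add hd)).sub (i1 h)) (i1 hd)
    have h2 := integral_sub (i1 (h.add hd)) (i1 h)
    simp only [Pi.sub_apply] at h1
    rw [h1, h2]
  have s2 : ∫ x, (⟪jac φ x, tns (ψ x) (φ x)⟫_ℝ + ⟪jac d x, tns (ψ x) (d x)⟫_ℝ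
        + (⟪jac φ x, tns (ψ x) (d x)⟫_ℝ + ⟪jac d x, tns (ψ x) (φ x)⟫_ℝ))
      = (∫ x, ⟪jac φ x, tns (ψ x) (φ x)⟫_ℝ) + (∫ x, ⟪jac d x, tns (ψ x) (d x)⟫_ℝ)
        + ∫ x, (⟪jac φ x, tns (ψ x) (d x)⟫_ℝ + ⟪jac d x, tns (ψ x) (φ x)⟫_ℝ) := by
    have h1 := integral_add ((i2 h h).add (i2 hd hd)) ((i2 h hd).add (i2 hd h))
    have h2 := integral_add (i2 h h) (i2 hd hd)
    simp only [Pi.add_apply] at h1
    rw [h1, h2]
  rw [s1, ibp (h.add hd) k, ibp h k, ibp hd k]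
  simp only [e1]
  rw [s2]
  ring

theorem exists_mix {Ω : Set E3} (hΩ : IsOpen Ω) {D : VF} (hD : ∀ i, CS Ω (D i))
    (hdv : ∀ x, dv D x = 0) {P Q : ℝ} (hP : ∀ i x, |D i x| ≤ P)
    (hQ : ∀ i j x, |pd j (D i) x| ≤ Q) :
    ∃ B : (L2V Ω × L2M Ω) →ₗ[ℝ] L2V Ω,
      (∀ p, ‖B p‖ ≤ 9 * (Q * ‖p.1‖ + P * ‖p.2‖)) ∧
      (∀ p ∈ graphW Ω, ∀ p' ∈ graphW Ω,
        ⟪tensL (Ω := Ω) (p.1 + cl Ω (toE D)) - tensL p.1 - tensL (cl Ω (toE D)), p'.2⟫_ℝ
          = -⟪B p, p'.1⟫_ℝ) ∧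
      (∀ (p : L2V Ω × L2M Ω) (v : VF), (∀ i, CS Ω (v i)) → p.1 =ᵐ[volume.restrict Ω] toE v →
        p.2 =ᵐ[volume.restrict Ω] jac (toE v) → B p =ᵐ[volume.restrict Ω] toE (fun i x => ∑ j, (v j x * pd j (D i) x
          + D j x * pd j (v i) x))) := by
  have hT : IsTest Ω (toE D) := test_toE hD hdv
  have hm : MeasurableSet Ω := hΩ.measurableSet
  have hDm : MemLp (toE D) 2 (volume.restrict Ω) := (hT.memLp 2).restrict Ω
  have hJm : MemLp (jac (toE D)) 2 (volume.restrict Ω) := (hT.jac_memLp 2).restrict Ω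
  have hcl := cl_coe' hDm
  set c : L2V Ω := cl Ω (toE D) with hc
  have hpD : (c, hJm.toLp _) ∈ preW Ω := ⟨toE D, hT, hcl, MemLp.coeFn_toLp hJm⟩
  have hgD : (c, hJm.toLp _) ∈ graphW Ω := Submodule.le_topologicalClosure _ hpD
  refine ⟨BB hD hP hQ, norm_BB hD hP hQ, ?_, ?_⟩
  · -- the identity for test pairs
    have key : ∀ q ∈ preW Ω, ∀ q' ∈ preW Ω,
        ⟪tensL (Ω := Ω) (q.1 + c) - tensL q.1 - tensL c, q'.2⟫_ℝ
          + ⟪BB hD hP hQ q, q'.1⟫_ℝ = 0 := by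
      intro q hq q' hq'
      have hqW : q ∈ graphW Ω := Submodule.le_topologicalClosure _ hq
      have hqD : q + (c, hJm.toLp _) ∈ graphW Ω := (graphW Ω).add_mem hqW hgD
      obtain ⟨φ, h1, h2, h3⟩ := hq
      obtain ⟨ψ, k1, k2, k3⟩ := hq'
      have e1 : ⟪tensL (Ω := Ω) (q.1 + c) - tensL q.1 - tensL c, q'.2⟫_ℝ
          = ∫ x in Ω, ⟪tens (φ x + toE D x) - tens (φ x) - tens (toE D x), jac ψ x⟫_ℝ := by
        rw [L2.inner_def]
        apply integral_congr_ae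
        have t1 := tensL_coe hm hqW
        have t2 := tensL_coe hm hgD
        have t3 := tensL_coe hm hqD
        filter_upwards [t1, t2, t3, h2, k3, hcl, Lp.coeFn_add q.1 c,
          Lp.coeFn_sub (tensL (Ω := Ω) (q.1 + c) - tensL q.1) (tensL c),
          Lp.coeFn_sub (tensL (Ω := Ω) (q.1 + c)) (tensL q.1)] with x a1 a2 a3 a4 a5 a6 a7 a8 a9
        have a3' : tensL (Ω := Ω) (q.1 + c) x = tens ((q.1 + c : L2V Ω) x) := a3
        rw [a8, Pi.sub_apply, a9, Pi.sub_apply, a3', a1, a2, a7, Pi.add_apply, a4, a5, a6]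
      have e2 : ⟪BB hD hP hQ q, q'.1⟫_ℝ
          = ∫ x in Ω, (⟪jac φ x, tns (ψ x) (toE D x)⟫_ℝ
            + ⟪jac (toE D) x, tns (ψ x) (φ x)⟫_ℝ) := by
        rw [L2.inner_def]
        apply integral_congr_ae
        filter_upwards [BB_coe hD hP hQ q, h2, h3, k2] with x a1 a2 a3 a4
        rw [a1, a2, a3, a4, inner_add_left, inner_E3, inner_E3, inner_M3, inner_M3, add_comm]
        congr 1
        · refine Finset.sum_congr rfl fun i _ => ?_
          simp only [b2, tns, toE, Finset.sum_mul]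
          refine Finset.sum_congr rfl fun j _ => ?_
          ring
        · refine Finset.sum_congr rfl fun i _ => ?_
          simp only [b1, tns, Finset.sum_mul]
          refine Finset.sum_congr rfl fun j _ => ?_
          rw [jac_toE fun i => (hD i).smooth]
          ring
      rw [e1, e2, setIntegral_eq_integral_of_forall_compl_eq_zero,
        setIntegral_eq_integral_of_forall_compl_eq_zero, mix_test h1 hT k1]
      · ring
      · intro x hx
        have : ψ x = 0 := image_eq_zero_of_notMem_tsupport fun hc => hx (k1.supp hc)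
        have t : ∀ y : E3, tns (0 : E3) y = 0 := fun y => by
          ext p
          simp [tns]
        rw [this, t, t, inner_zero_right, inner_zero_right, add_zero]
      · intro x hx
        have : jac ψ x = 0 := by
          apply image_eq_zero_of_notMem_tsupport
          intro hc
          exact hx (k1.supp (tsupport_jac_subset hc))
        rw [this, inner_zero_right]
    have hB := BB_cont hD hP hQ
    have key2 : ∀ q ∈ preW Ω, ∀ p' ∈ graphW Ω,
        ⟪tensL (Ω := Ω) (q.1 + c) - tensL q.1 - tensL c, p'.2⟫_ℝ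
          + ⟪BB hD hP hQ q, p'.1⟫_ℝ = 0 := by
      intro q hq p' hp'
      refine graphW_induction (fun p' : L2V Ω × L2M Ω =>
        ⟪tensL (Ω := Ω) (q.1 + c) - tensL q.1 - tensL c, p'.2⟫_ℝ + ⟪BB hD hP hQ q, p'.1⟫_ℝ)
        ?_ (fun q' hq' => key q hq q' hq') hp'
      exact ((continuous_const.inner continuous_snd).add
        (continuous_const.inner continuous_fst)).continuousOn
    intro p hp p' hp'
    have hsh : ContinuousOn (fun p : L2V Ω × L2M Ω => tensL (Ω := Ω) (p.1 + c))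
        (graphW Ω : Set (L2V Ω × L2M Ω)) := by
      have h1 := (tensL_continuousOn hm).comp
        (s := (graphW Ω : Set (L2V Ω × L2M Ω)))
        (f := fun p : L2V Ω × L2M Ω => p + (c, hJm.toLp _))
        (continuous_id.add continuous_const).continuousOn
        (fun p hp => (graphW Ω).add_mem hp hgD)
      exact h1
    have h := graphW_induction (fun p : L2V Ω × L2M Ω =>
        ⟪tensL (Ω := Ω) (p.1 + c) - tensL p.1 - tensL c, p'.2⟫_ℝ + ⟪BB hD hP hQ p, p'.1⟫_ℝ)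
        ((((hsh.sub (tensL_continuousOn hm)).sub continuousOn_const).inner
          continuousOn_const).add ((hB.inner continuous_const).continuousOn))
        (fun q hq => key2 q hq p' hp') hp
    have h' : ⟪tensL (Ω := Ω) (p.1 + c) - tensL p.1 - tensL c, p'.2⟫_ℝ
      + ⟪BB hD hP hQ p, p'.1⟫_ℝ = 0 := h
    linarith
  · intro p v hv h1 h2
    filter_upwards [BB_coe hD hP hQ p, h1, h2] with x a1 a2 a3
    rw [a1, a2, a3]
    ext i
    simp only [b1, b2, toE, PiLp.add_apply]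
    rw [← Finset.sum_add_distrib]
    refine Finset.sum_congr rfl fun j _ => ?_
    rw [jac_toE (fun i => (hv i).smooth) x i j]

end Pool.Agent.T2H10.DN
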