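import Pool.Agent.Y303.LV.Pert

/-!
Strong solutions near an approximate solution, in the abstract frame, with a force and with a
background whose gradient is only bounded in a weaker norm.
-/

set_option autoImplicit false
set_option linter.unusedSectionVars false

open MeasureTheory Set Filter Topology
open scoped InnerProductSpace ENNReal ContDiff

namespace Pool.Agent.T2H10.DN

open Pool.Agent.Y303.RA Pool.Agent.Y303.NF
open Pool.Agent.W795.TQ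
open Pool.Agent.W918.ES (gronL1)
open H772R2.NSR (Frame prim_cont memLp_ii ae_deriv_of_prim)
open H772R2.NSG (St ii_of_int int_inner norm_m_le mem_cont)
open Pool.Agent.W790.TQ (toSt sq_prim)

/-- approximate solutions with a background -/
structure Appr2 {H K : Type} [NormedAddCommGroup H] [InnerProductSpace ℝ H]
    [NormedAddCommGroup K] [InnerProductSpace ℝ K] (W : Submodule ℝ (H × K)) (m : H → K)
    (ν T : ℝ) (F : ℝ → K) (V V1 g : ℝ → H) (D : ℝ → K) (N M γ : ℝ → ℝ) : Prop where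
  mem : ∀ t ∈ Icc 0 T, (V t, D t) ∈ W
  V1m : MemLp V1 2 (volume.restrict (Ioc 0 T))
  pV : ∀ a b, 0 ≤ a → a ≤ b → b ≤ T → V b - V a = ∫ s in a..b, V1 s
  eqn : ∀ᵐ t ∂(volume.restrict (Ioc 0 T)), ∀ p ∈ W,
    ⟪V1 t, p.1⟫_ℝ = ⟪F t - ν • D t + m (V t), p.2⟫_ℝ + ⟪g t, p.1⟫_ℝ
  tri : ∀ t ∈ Icc 0 T, ∀ p ∈ W, |⟪m p.1, D t⟫_ℝ|
    ≤ N t * (‖p.1‖ * ‖p.2‖) + M t * (√‖p.1‖ * (‖p.2‖ * √‖p.2‖))
  gle : ∀ᵐ t ∂(volume.restrict (Ioc 0 T)), ‖g t‖ ≤ γ t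
  N0 : ∀ t, 0 ≤ N t
  M0 : ∀ t, 0 ≤ M t
  γ0 : ∀ t, 0 ≤ γ t
  Nc : ContinuousOn N (Icc 0 T)
  Mc : ContinuousOn M (Icc 0 T)
  γc : ContinuousOn γ (Icc 0 T)

/-- Young's inequality with the exponents 4 and 4/3 -/
theorem young43 {ν M x y : ℝ} (hν : 0 < ν) (hx : 0 ≤ x) (hy : 0 ≤ y) :
    2 * (M * (√x * (y * √y))) ≤ ν * y ^ 2 + 2 * M ^ 4 / ν ^ 3 * x ^ 2 := by
  set a := √x with ha
  set b := √y with hb
  have ea : x = a ^ 2 := (Real.sq_sqrt hx).symm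
  have eb : y = b ^ 2 := (Real.sq_sqrt hy).symm
  rw [ea, eb]
  have h1 : 0 ≤ (((ν * b) ^ 2 - (ν * b) * (M * a) - (M * a) ^ 2) ^ 2
      + ((ν * b) * (M * a) - (M * a) ^ 2) ^ 2) / ν ^ 3 := by positivity
  have e : (((ν * b) ^ 2 - (ν * b) * (M * a) - (M * a) ^ 2) ^ 2
      + ((ν * b) * (M * a) - (M * a) ^ 2) ^ 2) / ν ^ 3
      = ν * (b ^ 2) ^ 2 + 2 * M ^ 4 / ν ^ 3 * (a ^ 2) ^ 2 - 2 * (M * (a * (b ^ 2 * b))) := by
    field_simp
    ring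
  linarith

section
variable {H K : Type} [NormedAddCommGroup H] [InnerProductSpace ℝ H] [CompleteSpace H]
  [NormedAddCommGroup K] [InnerProductSpace ℝ K] [CompleteSpace K]
  {W : Submodule ℝ (H × K)} {m : H → K} {C c ν T τ : ℝ} {F F1 : ℝ → K} {u u1 : ℝ → H}
  {z z1 : ℝ → K} {V V1 g : ℝ → H} {D : ℝ → K} {N M γ : ℝ → ℝ}

theorem Appr2.mono (A : Appr2 W m ν T F V V1 g D N M γ) (h : τ ≤ T) :
    Appr2 W m ν τ F V V1 g D N M γ where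
  mem := fun t ht => A.mem t ⟨ht.1, ht.2.trans h⟩
  V1m := A.V1m.mono_measure (Measure.restrict_mono (Ioc_subset_Ioc_right h) le_rfl)
  pV := fun a b h1 h2 h3 => A.pV a b h1 h2 (h3.trans h)
  eqn := ae_mono (Measure.restrict_mono (Ioc_subset_Ioc_right h) le_rfl) A.eqn
  tri := fun t ht => A.tri t ⟨ht.1, ht.2.trans h⟩
  gle := ae_mono (Measure.restrict_mono (Ioc_subset_Ioc_right h) le_rfl) A.gle
  N0 := A.N0
  M0 := A.M0
  γ0 := A.γ0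
  Nc := A.Nc.mono (Icc_subset_Icc_right h)
  Mc := A.Mc.mono (Icc_subset_Icc_right h)
  γc := A.γc.mono (Icc_subset_Icc_right h)

/-- the equation of the difference -/
theorem diff_eq2 (Fr : Frame W m C) (hτ : 0 < τ) (hF : FH τ F F1)
    (S : Str W m ν τ F u u1 z z1) (A : Appr2 W m ν τ F V V1 g D N M γ) :
    ∀ᵐ s ∂(volume.restrict (Ioc 0 τ)),
      ⟪u1 s - V1 s, u s - V s⟫_ℝ + ν * ‖z s - D s‖ ^ 2
        ≤ N s * (‖u s - V s‖ * ‖z s - D s‖)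
          + M s * (√‖u s - V s‖ * (‖z s - D s‖ * √‖z s - D s‖)) + γ s * ‖u s - V s‖ := by
  obtain ⟨Z, St1⟩ := toSt hF S
  filter_upwards [St1.deriv_weak Fr hτ, A.eqn, A.gle, ae_restrict_mem measurableSet_Ioc]
    with s h1 h2 h3 hs
  have hsI := Ioc_subset_Icc_self hs
  have hW : (u s - V s, z s - D s) ∈ W := W.sub_mem (S.mem s hsI) (A.mem s hsI)
  have e1 := h1 _ hW
  have e2 := h2 _ hW
  have e3 := Fr.anti _ (S.mem s hsI) _ (A.mem s hsI)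
  have e4 := A.tri s hsI _ hW
  simp only at e1 e2 e3 e4
  have e5 : ⟪u1 s - V1 s, u s - V s⟫_ℝ = -(ν * ‖z s - D s‖ ^ 2) - ⟪m (u s - V s), D s⟫_ℝ
      - ⟪g s, u s - V s⟫_ℝ := by
    rw [inner_sub_left, e1, e2]
    have e6 : ⟪F s - ν • z s + m (u s), z s - D s⟫_ℝ - (⟪F s - ν • D s + m (V s), z s - D s⟫_ℝ)
        = ⟪m (u s) - m (V s), z s - D s⟫_ℝ - ν * ⟪z s - D s, z s - D s⟫_ℝ := by
      rw [← inner_sub_left, ← real_inner_smul_left, ← inner_sub_left]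
      congr 1
      rw [smul_sub]
      abel
    rw [real_inner_self_eq_norm_sq] at e6
    linarith
  have e7 : -⟪g s, u s - V s⟫_ℝ ≤ γ s * ‖u s - V s‖ := by
    have k1 := abs_real_inner_le_norm (g s) (u s - V s)
    have k2 := neg_abs_le ⟪g s, u s - V s⟫_ℝ
    have k3 := mul_le_mul_of_nonneg_right h3 (norm_nonneg (u s - V s))
    linarith
  have e8 := neg_abs_le ⟪m (u s - V s), D s⟫_ℝ
  linarith

/-- the difference in `H` -/
theorem diff_bd2 (Fr : Frame W m C) (hν : 0 < ν) (hτ : 0 < τ) (hF : FH τ F F1)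
    (S : Str W m ν τ F u u1 z z1) (A : Appr2 W m ν τ F V V1 g D N M γ) (h0 : u 0 = V 0)
    {L Γ : ℝ} (hL : ∫ s in (0 : ℝ)..τ, N s ^ 2 ≤ L) (hM : ∫ s in (0 : ℝ)..τ, M s ^ 4 ≤ L)
    (hΓ : ∫ s in (0 : ℝ)..τ, γ s ≤ Γ) (hΓ0 : 0 < Γ) :
    ‖u τ - V τ‖ ^ 2 ≤ Real.exp (L / ν + 2 * L / ν ^ 3 + 1) * Γ ^ 2 := by
  have hγ0 := A.γ0
  have huc : ContinuousOn u (Icc 0 τ) := prim_cont S.u1m S.pu
  have hVc : ContinuousOn V (Icc 0 τ) := prim_cont A.V1m A.pV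
  have hg1 : MemLp (fun s => u1 s - V1 s) 2 (volume.restrict (Ioc 0 τ)) := S.u1m.sub A.V1m
  have hgp : ∀ a b, 0 ≤ a → a ≤ b → b ≤ τ → (u b - V b) - (u a - V a)
      = ∫ s in a..b, (u1 s - V1 s) := by
    intro a b ha hab hb
    have i1 : IntervalIntegrable u1 volume a b :=
      ii_of_int (S.u1m.integrable (by norm_num)) ha hab hb
    have i2 : IntervalIntegrable V1 volume a b :=
      ii_of_int (A.V1m.integrable (by norm_num)) ha hab hb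
    rw [intervalIntegral.integral_sub i1 i2, ← S.pu a b ha hab hb, ← A.pV a b ha hab hb]
    abel
  have hwc : ContinuousOn (fun t => ‖u t - V t‖ ^ 2) (Icc 0 τ) := (huc.sub hVc).norm.pow 2
  set β : ℝ → ℝ := fun s => 1 / ν * N s ^ 2 + 2 / ν ^ 3 * M s ^ 4 + 1 / Γ * γ s with hβ
  have hβc : ContinuousOn β (Icc 0 τ) :=
    ((continuousOn_const.mul (A.Nc.pow 2)).add (continuousOn_const.mul (A.Mc.pow 4))).add
      (continuousOn_const.mul A.γc)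
  have hβii : IntervalIntegrable β volume 0 τ := by
    refine ContinuousOn.intervalIntegrable ?_
    rwa [uIcc_of_le hτ.le]
  have hβ0 : ∀ s, 0 ≤ β s := fun s => by
    have := hγ0 s
    positivity
  have hkey := gronL1 (y := fun t => ‖u t - V t‖ ^ 2) (β := β) (k := Γ ^ 2) hτ.le hwc hβii
    hβ0 (by
      intro t ht
      have hs : Icc 0 t ⊆ Icc 0 τ := Icc_subset_Icc_right ht.2
      have h1 := sq_prim hg1 hgp le_rfl ht.1 ht.2
      have h2 : ‖u 0 - V 0‖ ^ 2 = 0 := by rw [h0, sub_self]; simp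
      have i1 : IntegrableOn (fun s => 2 * ⟪u1 s - V1 s, u s - V s⟫_ℝ) (Ioc 0 t) := by
        have k1 : MemLp (fun s => u1 s - V1 s) 2 (volume.restrict (Ioc 0 t)) :=
          hg1.mono_measure (Measure.restrict_mono (Ioc_subset_Ioc_right ht.2) le_rfl)
        exact (int_inner k1 (mem_cont ((huc.sub hVc).mono hs))).const_mul 2
      have i2 : IntegrableOn (fun s => β s * ‖u s - V s‖ ^ 2 + γ s * Γ) (Ioc 0 t) := by
        have : ContinuousOn (fun s => β s * ‖u s - V s‖ ^ 2 + γ s * Γ) (Icc 0 t) :=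
          ((hβc.mul hwc).add (A.γc.mul continuousOn_const)).mono hs
        exact this.integrableOn_Icc.mono_set Ioc_subset_Icc_self
      have h3 : ∫ s in (0 : ℝ)..t, 2 * ⟪u1 s - V1 s, u s - V s⟫_ℝ
          ≤ ∫ s in (0 : ℝ)..t, (β s * ‖u s - V s‖ ^ 2 + γ s * Γ) := by
        rw [intervalIntegral.integral_of_le ht.1, intervalIntegral.integral_of_le ht.1]
        refine integral_mono_ae i1 i2 ?_
        filter_upwards [ae_mono (Measure.restrict_mono (Ioc_subset_Ioc_right ht.2) le_rfl)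
          (diff_eq2 Fr hτ hF S A), ae_restrict_mem measurableSet_Ioc] with s k1 k2
        have hγs : 0 ≤ γ s := hγ0 s
        have k3 : 2 * (N s * (‖u s - V s‖ * ‖z s - D s‖))
            ≤ ν * ‖z s - D s‖ ^ 2 + 1 / ν * N s ^ 2 * ‖u s - V s‖ ^ 2 := by
          have : 0 ≤ (ν * ‖z s - D s‖ - N s * ‖u s - V s‖) ^ 2 / ν := by positivity
          have e : (ν * ‖z s - D s‖ - N s * ‖u s - V s‖) ^ 2 / ν
              = ν * ‖z s - D s‖ ^ 2 - 2 * (N s * (‖u s - V s‖ * ‖z s - D s‖))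
                + 1 / ν * N s ^ 2 * ‖u s - V s‖ ^ 2 := by
            field_simp
            ring
          linarith
        have k4 : 2 * (γ s * ‖u s - V s‖) ≤ 1 / Γ * γ s * ‖u s - V s‖ ^ 2 + γ s * Γ := by
          have : 0 ≤ γ s * (‖u s - V s‖ - Γ) ^ 2 / Γ := by positivity
          have e : γ s * (‖u s - V s‖ - Γ) ^ 2 / Γ
              = 1 / Γ * γ s * ‖u s - V s‖ ^ 2 + γ s * Γ - 2 * (γ s * ‖u s - V s‖) := by
            field_simp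
            ring
          linarith
        have k5 := young43 (M := M s) hν (norm_nonneg (u s - V s)) (norm_nonneg (z s - D s))
        simp only [hβ]
        have e : (1 / ν * N s ^ 2 + 2 / ν ^ 3 * M s ^ 4 + 1 / Γ * γ s) * ‖u s - V s‖ ^ 2 + γ s * Γ
            = 1 / ν * N s ^ 2 * ‖u s - V s‖ ^ 2 + 2 * M s ^ 4 / ν ^ 3 * ‖u s - V s‖ ^ 2
              + (1 / Γ * γ s * ‖u s - V s‖ ^ 2 + γ s * Γ) := by
          ring
        rw [e]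
        linarith
      have i3 : IntervalIntegrable (fun s => β s * ‖u s - V s‖ ^ 2) volume 0 t := by
        refine ContinuousOn.intervalIntegrable ?_
        rw [uIcc_of_le ht.1]
        exact (hβc.mul hwc).mono hs
      have i4 : IntervalIntegrable (fun s => γ s * Γ) volume 0 t := by
        refine ContinuousOn.intervalIntegrable ?_
        rw [uIcc_of_le ht.1]
        exact (A.γc.mul continuousOn_const).mono hs
      rw [intervalIntegral.integral_add i3 i4, intervalIntegral.integral_mul_const] at h3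
      have h4 : ∫ s in (0 : ℝ)..t, γ s ≤ Γ := by
        have h5 : ∫ s in (0 : ℝ)..t, γ s ≤ ∫ s in (0 : ℝ)..τ, γ s := by
          refine intervalIntegral.integral_mono_interval le_rfl ht.1 ht.2
            (Eventually.of_forall fun s => hγ0 s) ?_
          refine ContinuousOn.intervalIntegrable ?_
          rw [uIcc_of_le hτ.le]
          exact A.γc
        linarith
      have h7 : (∫ s in (0 : ℝ)..t, γ s) * Γ ≤ Γ ^ 2 := by
        calc (∫ s in (0 : ℝ)..t, γ s) * Γ ≤ Γ * Γ := by gcongr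
          _ = Γ ^ 2 := by ring
      rw [h2, sub_zero] at h1
      linarith)
  have hβL : ∫ s in (0 : ℝ)..τ, β s ≤ L / ν + 2 * L / ν ^ 3 + 1 := by
    have i5 : IntervalIntegrable (fun s => N s ^ 2) volume 0 τ := by
      refine ContinuousOn.intervalIntegrable ?_
      rw [uIcc_of_le hτ.le]
      exact A.Nc.pow 2
    have i7 : IntervalIntegrable (fun s => M s ^ 4) volume 0 τ := by
      refine ContinuousOn.intervalIntegrable ?_
      rw [uIcc_of_le hτ.le]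
      exact A.Mc.pow 4
    have i6 : IntervalIntegrable (fun s => γ s) volume 0 τ := by
      refine ContinuousOn.intervalIntegrable ?_
      rw [uIcc_of_le hτ.le]
      exact A.γc
    simp only [hβ]
    rw [intervalIntegral.integral_add ((i5.const_mul _).add (i7.const_mul _)) (i6.const_mul _),
      intervalIntegral.integral_add (i5.const_mul _) (i7.const_mul _),
      intervalIntegral.integral_const_mul, intervalIntegral.integral_const_mul,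
      intervalIntegral.integral_const_mul]
    have h8 : 1 / ν * (∫ s in (0 : ℝ)..τ, N s ^ 2) ≤ L / ν := by
      rw [one_div, div_eq_inv_mul]
      gcongr
    have h10 : 2 / ν ^ 3 * (∫ s in (0 : ℝ)..τ, M s ^ 4) ≤ 2 * L / ν ^ 3 := by
      have : 2 * L / ν ^ 3 = 2 / ν ^ 3 * L := by ring
      rw [this]
      gcongr
    have h9 : 1 / Γ * (∫ s in (0 : ℝ)..τ, γ s) ≤ 1 := by
      rw [one_div, inv_mul_le_iff₀ hΓ0, mul_one]
      exact hΓ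
    linarith
  calc ‖u τ - V τ‖ ^ 2 ≤ Γ ^ 2 * Real.exp (∫ s in (0 : ℝ)..τ, β s) := hkey
    _ ≤ Γ ^ 2 * Real.exp (L / ν + 2 * L / ν ^ 3 + 1) := by gcongr
    _ = _ := by ring

/-- the bound of the gradient of the difference -/
theorem diff_grad2 (Fr : Frame W m C) (hν : 0 < ν) (hτ : 0 < τ) (hF : FH τ F F1)
    (S : Str W m ν τ F u u1 z z1) (A : Appr2 W m ν τ F V V1 g D N M γ)
    {K0 Y Y1 Nb Mb γb : ℝ} (hK0 : ∀ t ∈ Icc 0 τ, ‖u t - V t‖ ≤ K0)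
    (hY : ∀ᵐ s ∂(volume.restrict (Ioc 0 τ)), ‖u1 s‖ ≤ Y)
    (hY1 : ∀ᵐ s ∂(volume.restrict (Ioc 0 τ)), ‖V1 s‖ ≤ Y1)
    (hNb : ∀ t ∈ Icc 0 τ, N t ≤ Nb) (hMb : ∀ t ∈ Icc 0 τ, M t ≤ Mb)
    (hγb : ∀ t ∈ Icc 0 τ, γ t ≤ γb) :
    ∀ᵐ s ∂(volume.restrict (Ioc 0 τ)), ‖z s - D s‖ ^ 2
      ≤ 4 / ν * ((Y + Y1 + γb) * K0 + (Nb ^ 2 / ν + Mb ^ 4 / ν ^ 3) * K0 ^ 2) := by
  filter_upwards [diff_eq2 Fr hτ hF S A, hY, hY1, ae_restrict_mem measurableSet_Ioc]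
    with s h1 h2 k2 hs
  have hsI := Ioc_subset_Icc_self hs
  have hN0 := A.N0 s
  have hM0 := A.M0 s
  have k1 := hK0 s hsI
  have k3 := hNb s hsI
  have k3' := hMb s hsI
  have k4 := hγb s hsI
  have hγ0 : 0 ≤ γ s := A.γ0 s
  have hn := norm_nonneg (u s - V s)
  have hd := norm_nonneg (z s - D s)
  have hK0' : 0 ≤ K0 := hn.trans k1
  have k5 : -⟪u1 s - V1 s, u s - V s⟫_ℝ ≤ (Y + Y1) * K0 := by
    have a1 := abs_real_inner_le_norm (u1 s - V1 s) (u s - V s)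
    have a2 := neg_abs_le ⟪u1 s - V1 s, u s - V s⟫_ℝ
    have a3 : ‖u1 s - V1 s‖ ≤ Y + Y1 := (norm_sub_le _ _).trans (add_le_add h2 k2)
    have a4 : ‖u1 s - V1 s‖ * ‖u s - V s‖ ≤ (Y + Y1) * K0 :=
      mul_le_mul a3 k1 hn ((norm_nonneg _).trans a3)
    linarith
  have k6 : γ s * ‖u s - V s‖ ≤ γb * K0 := mul_le_mul k4 k1 hn (hγ0.trans k4)
  have k7 : N s * (‖u s - V s‖ * ‖z s - D s‖)
      ≤ ν / 4 * ‖z s - D s‖ ^ 2 + Nb ^ 2 / ν * K0 ^ 2 := by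
    have hNb0 : 0 ≤ Nb := hN0.trans k3
    have a1 : N s * (‖u s - V s‖ * ‖z s - D s‖) ≤ Nb * (K0 * ‖z s - D s‖) := by gcongr
    have a2 : 0 ≤ (ν / 2 * ‖z s - D s‖ - Nb * K0) ^ 2 / ν := by positivity
    have e : (ν / 2 * ‖z s - D s‖ - Nb * K0) ^ 2 / ν
        = ν / 4 * ‖z s - D s‖ ^ 2 - Nb * (K0 * ‖z s - D s‖) + Nb ^ 2 / ν * K0 ^ 2 := by
      field_simp
      ring
    linarith
  have k9 : M s * (√‖u s - V s‖ * (‖z s - D s‖ * √‖z s - D s‖))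
      ≤ ν / 2 * ‖z s - D s‖ ^ 2 + Mb ^ 4 / ν ^ 3 * K0 ^ 2 := by
    have hMb0 : 0 ≤ Mb := hM0.trans k3'
    have a1 : M s * (√‖u s - V s‖ * (‖z s - D s‖ * √‖z s - D s‖))
        ≤ Mb * (√K0 * (‖z s - D s‖ * √‖z s - D s‖)) := by gcongr
    have a2 := young43 (M := Mb) hν hK0' hd
    have e : Mb ^ 4 / ν ^ 3 * K0 ^ 2 = (2 * Mb ^ 4 / ν ^ 3 * K0 ^ 2) / 2 := by ring
    rw [e]
    linarith
  have k8 : ν / 4 * ‖z s - D s‖ ^ 2
      ≤ (Y + Y1 + γb) * K0 + (Nb ^ 2 / ν + Mb ^ 4 / ν ^ 3) * K0 ^ 2 := by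
    have e : (Y + Y1 + γb) * K0 + (Nb ^ 2 / ν + Mb ^ 4 / ν ^ 3) * K0 ^ 2
        = (Y + Y1) * K0 + γb * K0 + Nb ^ 2 / ν * K0 ^ 2 + Mb ^ 4 / ν ^ 3 * K0 ^ 2 := by ring
    rw [e]
    linarith
  calc ‖z s - D s‖ ^ 2 = 4 / ν * (ν / 4 * ‖z s - D s‖ ^ 2) := by field_simp
    _ ≤ _ := by gcongr

/-- **Strong solutions near an approximate solution.** -/
theorem pert2_aux (hloc : S_loc) (Fr : Frame W m C) (hm : Hom W m) (Un : Univ W m c)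
    (hcomp : ∀ R : ℝ, TotallyBounded {v : H | ∃ z, (v, z) ∈ W ∧ ‖z‖ ≤ R})
    (hν : 0 < ν) (hT : 0 < T) (hF : FH T F F1) (A : Appr2 W m ν T F V V1 g D N M γ) {g0 : H}
    (hg0 : ∀ p ∈ W, ⟪F 0 - ν • D 0 + m (V 0), p.2⟫_ℝ = ⟪g0, p.1⟫_ℝ)
    {L Γ K0 Y Y1 Nb Mb : ℝ} (hL0 : 0 ≤ L) (hY10 : ‖g0‖ ≤ Y1)
    (hY1 : ∀ᵐ s ∂(volume.restrict (Ioc 0 T)), ‖V1 s‖ ≤ Y1) (hγb : ∀ t ∈ Icc 0 T, γ t ≤ Y1)
    (hNb : ∀ t ∈ Icc 0 T, N t ≤ Nb) (hMb : ∀ t ∈ Icc 0 T, M t ≤ Mb)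
    (hL : ∫ s in (0 : ℝ)..T, N s ^ 2 ≤ L) (hM : ∫ s in (0 : ℝ)..T, M s ^ 4 ≤ L)
    (hΓ : ∫ s in (0 : ℝ)..T, γ s ≤ Γ) (hΓ0 : 0 < Γ)
    (hK0 : Real.exp (L / ν + 2 * L / ν ^ 3 + 1) * Γ ^ 2 ≤ K0 ^ 2) (hK00 : 0 ≤ K0) (hY0 : 0 ≤ Y)
    (hY : (16 * Y1 ^ 2 + (∫ s in (0 : ℝ)..T, ‖F1 s‖ ^ 2) / (2 * (1 / 8) * ν))
      * Real.exp (2 * (2 * L / ν + L / ν ^ 3)) < Y ^ 2)
    (hcond : K0 ^ 2 * (4 / ν * ((Y + Y1 + Y1) * K0 + (Nb ^ 2 / ν + Mb ^ 4 / ν ^ 3) * K0 ^ 2))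
      ≤ (ν / (4 * c)) ^ 4) :
    ∃ (u u1 : ℝ → H) (z z1 : ℝ → K), Str W m ν T F u u1 z z1 ∧ u 0 = V 0 ∧
      (∀ᵐ t ∂(volume.restrict (Ioc 0 T)), ‖u1 t‖ ≤ Y) ∧ ∀ t ∈ Icc 0 T, ‖u t - V t‖ ≤ K0 := by
  have hc := Un.c0
  have h0T : (0 : ℝ) ∈ Icc 0 T := ⟨le_rfl, hT.le⟩
  have hY1n : 0 ≤ Y1 := (norm_nonneg _).trans hY10
  have hNb0 : 0 ≤ Nb := (A.N0 0).trans (hNb 0 h0T)
  have hMb0 : 0 ≤ Mb := (A.M0 0).trans (hMb 0 h0T)
  have hFc : ContinuousOn F (Icc 0 T) := prim_cont hF.memLp hF.prim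
  have hFH : ∀ T' ≤ T, FH T' F F1 := fun T' hT' =>
    ⟨hF.memLp.mono_measure (Measure.restrict_mono (Ioc_subset_Ioc_right hT') le_rfl),
      fun a b ha hab hb => hF.prim a b ha hab (hb.trans hT')⟩
  obtain ⟨Φ, hΦ⟩ : ∃ Φ : ℝ, ∀ t ∈ Icc 0 T, ‖F t‖ ≤ Φ := by
    obtain ⟨Φ, hΦ⟩ := isCompact_Icc.exists_bound_of_continuousOn hFc
    exact ⟨Φ, hΦ⟩
  have hIF : 0 ≤ ∫ s in (0 : ℝ)..T, ‖F s‖ ^ 2 :=
    intervalIntegral.integral_nonneg hT.le fun s _ => by positivity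
  set E : ℝ := √(‖V 0‖ ^ 2 + (∫ s in (0 : ℝ)..T, ‖F s‖ ^ 2) / ν) with hE
  have hE0 : 0 ≤ E := Real.sqrt_nonneg _
  have hE2 : E ^ 2 = ‖V 0‖ ^ 2 + (∫ s in (0 : ℝ)..T, ‖F s‖ ^ 2) / ν := Real.sq_sqrt (by positivity)
  set b : ℝ := Φ ^ 2 / ν ^ 2 + 2 * E * Y / ν with hb
  have hb0 : 0 ≤ b := by positivity
  set N1 : ℝ := ‖D 0‖ + (b + 1) with hN1
  obtain ⟨τ, u, u1, z, z1, hτ, hτT, S, hu0, hend⟩ :=
    hloc H K W m C ν T F F1 (V 0) g0 (D 0) N1 Fr hcomp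
      hν hT hF (A.mem 0 h0T) hg0 (by rw [hN1]; linarith)
  have hz0 : z 0 = D 0 := by
    have h1 : (u 0, z 0) ∈ W := S.mem 0 ⟨le_rfl, hτ.le⟩
    rw [hu0] at h1
    have h2 : (V 0, z 0) - (V 0, D 0) ∈ W := W.sub_mem h1 (A.mem 0 h0T)
    have h3 := Fr.uniq _ h2 (by simp)
    simpa [sub_eq_zero] using h3
  -- the energy
  have huE : ∀ t ∈ Icc 0 τ, ‖u t‖ ≤ E := by
    intro t ht
    have h1 := energy_bd hν (hFc.mono (Icc_subset_Icc_right hτT)) S (E := E) (by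
      intro r hr
      rw [hu0, hE2]
      have h5 : ∫ s in (0 : ℝ)..r, ‖F s‖ ^ 2 ≤ ∫ s in (0 : ℝ)..T, ‖F s‖ ^ 2 := by
        refine intervalIntegral.integral_mono_interval le_rfl hr.1 (hr.2.trans hτT)
          (Eventually.of_forall fun s => sq_nonneg _) ?_
        refine ContinuousOn.intervalIntegrable ?_
        rw [uIcc_of_le hT.le]
        exact hFc.norm.pow 2
      gcongr) t ht
    have h2 : 0 ≤ ν * ∫ s in (0 : ℝ)..t, ‖z s‖ ^ 2 :=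
      mul_nonneg hν.le (intervalIntegral.integral_nonneg ht.1 fun s _ => by positivity)
    have h3 : ‖u t‖ ^ 2 ≤ E ^ 2 := by linarith
    exact (pow_le_pow_iff_left₀ (norm_nonneg _) hE0 (by norm_num)).mp h3
  have hNint : ∀ t ∈ Icc 0 T, ∫ s in (0 : ℝ)..t, N s ^ 2 ≤ L := by
    intro t ht
    refine le_trans ?_ hL
    refine intervalIntegral.integral_mono_interval le_rfl ht.1 ht.2
      (Eventually.of_forall fun s => sq_nonneg _) ?_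
    refine ContinuousOn.intervalIntegrable ?_
    rw [uIcc_of_le hT.le]
    exact A.Nc.pow 2
  have hMint : ∀ t ∈ Icc 0 T, ∫ s in (0 : ℝ)..t, M s ^ 4 ≤ L := by
    intro t ht
    refine le_trans ?_ hM
    refine intervalIntegral.integral_mono_interval le_rfl ht.1 ht.2
      (Eventually.of_forall fun s => by positivity) ?_
    refine ContinuousOn.intervalIntegrable ?_
    rw [uIcc_of_le hT.le]
    exact A.Mc.pow 4
  have hγint : ∀ t ∈ Icc 0 T, ∫ s in (0 : ℝ)..t, γ s ≤ Γ := by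
    intro t ht
    refine le_trans ?_ hΓ
    refine intervalIntegral.integral_mono_interval le_rfl ht.1 ht.2
      (Eventually.of_forall fun s => A.γ0 s) ?_
    refine ContinuousOn.intervalIntegrable ?_
    rw [uIcc_of_le hT.le]
    exact A.γc
  have hwK : ∀ t ∈ Icc 0 τ, ‖u t - V t‖ ≤ K0 := by
    intro t ht
    rcases eq_or_lt_of_le ht.1 with h | h
    · rw [← h, hu0, sub_self, norm_zero]
      exact hK00
    · have htT : t ≤ T := ht.2.trans hτT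
      have h1 := diff_bd2 Fr hν h (hFH t htT) (S.mono ht.2) (A.mono htT) hu0
        (hNint t ⟨h.le, htT⟩) (hMint t ⟨h.le, htT⟩) (hγint t ⟨h.le, htT⟩) hΓ0
      exact (pow_le_pow_iff_left₀ (norm_nonneg _) hK00 (by norm_num)).mp (h1.trans hK0)
  have hIF1 : 0 ≤ ∫ s in (0 : ℝ)..T, ‖F1 s‖ ^ 2 :=
    intervalIntegral.integral_nonneg hT.le fun s _ => by positivity
  have hYb : (16 * ‖g0‖ ^ 2 + (∫ s in (0 : ℝ)..T, ‖F1 s‖ ^ 2) / (2 * (1 / 8) * ν))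
      * Real.exp (2 * (2 * L / ν + L / ν ^ 3)) < Y ^ 2 := by
    refine lt_of_le_of_lt ?_ hY
    gcongr
  have hbd := boot Fr hm hν hτ hτT hF (fun t ht => S.mono ht.2.le) (g0 := g0) (by
    intro p hp
    rw [hz0, hu0]
    exact hg0 p hp) (δ := 1 / 8) (L := 2 * L / ν + L / ν ^ 3) (Y := Y) (by norm_num)
    (by positivity) hY0 hYb (by
    intro t ht hYt
    have St := S.mono ht.2.le
    have htT : t ≤ T := ht.2.le.trans hτT
    have At := A.mono htT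
    have hD := diff_grad2 Fr hν ht.1 (hFH t htT) St At (K0 := K0) (Y := Y) (Y1 := Y1) (Nb := Nb)
      (Mb := Mb) (γb := Y1)
      (fun s hs => hwK s ⟨hs.1, hs.2.trans ht.2.le⟩) hYt
      (ae_mono (Measure.restrict_mono (Ioc_subset_Ioc_right htT) le_rfl) hY1)
      (fun s hs => hNb s ⟨hs.1, hs.2.trans htT⟩) (fun s hs => hMb s ⟨hs.1, hs.2.trans htT⟩)
      (fun s hs => hγb s ⟨hs.1, hs.2.trans htT⟩)
    have hc1 : ContinuousOn (fun s => 2 / ν * N s ^ 2) (Icc 0 t) :=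
      continuousOn_const.mul (At.Nc.pow 2)
    have hc2 : ContinuousOn (fun s => 1 / ν ^ 3 * M s ^ 4) (Icc 0 t) :=
      continuousOn_const.mul (At.Mc.pow 4)
    refine ⟨fun s => 2 / ν * N s ^ 2 + 1 / ν ^ 3 * M s ^ 4, fun s => by positivity,
      (hc1.add hc2).integrableOn_Icc.mono_set Ioc_subset_Icc_self, ?_, ?_⟩
    · have i1 : IntervalIntegrable (fun s => 2 / ν * N s ^ 2) volume 0 t := by
        refine ContinuousOn.intervalIntegrable ?_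
        rwa [uIcc_of_le ht.1.le]
      have i2 : IntervalIntegrable (fun s => 1 / ν ^ 3 * M s ^ 4) volume 0 t := by
        refine ContinuousOn.intervalIntegrable ?_
        rwa [uIcc_of_le ht.1.le]
      rw [intervalIntegral.integral_add i1 i2, intervalIntegral.integral_const_mul,
        intervalIntegral.integral_const_mul]
      have h1 := hNint t ⟨ht.1.le, htT⟩
      have h2 := hMint t ⟨ht.1.le, htT⟩
      have h3 : 2 / ν * (∫ s in (0 : ℝ)..t, N s ^ 2) ≤ 2 / ν * L := by gcongr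
      have h4 : 1 / ν ^ 3 * (∫ s in (0 : ℝ)..t, M s ^ 4) ≤ 1 / ν ^ 3 * L := by gcongr
      have e1 : 2 * L / ν = 2 / ν * L := by ring
      have e2 : L / ν ^ 3 = 1 / ν ^ 3 * L := by ring
      rw [e1, e2]
      linarith
    · filter_upwards [hD, St.mem1, ae_restrict_mem measurableSet_Ioc] with s h1 h2 hs
      have hsI : s ∈ Icc 0 τ := ⟨hs.1.le, hs.2.trans ht.2.le⟩
      have hsT : s ∈ Icc 0 T := ⟨hs.1.le, hs.2.trans htT⟩
      have hW : (u s - V s, z s - D s) ∈ W := W.sub_mem (S.mem s hsI) (A.mem s hsT)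
      have k1 := Un.tri _ h2 _ hW
      have k2 := A.tri s hsT _ h2
      simp only at k1 k2
      have e1 : -⟪m (u1 s), z s⟫_ℝ = -⟪m (u1 s), D s⟫_ℝ - ⟪m (u1 s), z s - D s⟫_ℝ := by
        rw [inner_sub_right]
        ring
      have k3 : √‖u s - V s‖ * √‖z s - D s‖ ≤ ν / (4 * c) := by
        have a1 : (√‖u s - V s‖ * √‖z s - D s‖) ^ 4 ≤ (ν / (4 * c)) ^ 4 := by
          have a2 : (√‖u s - V s‖ * √‖z s - D s‖) ^ 4 = ‖u s - V s‖ ^ 2 * ‖z s - D s‖ ^ 2 := by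
            have b1 := Real.sq_sqrt (norm_nonneg (u s - V s))
            have b2 := Real.sq_sqrt (norm_nonneg (z s - D s))
            calc (√‖u s - V s‖ * √‖z s - D s‖) ^ 4
                = ((√‖u s - V s‖) ^ 2) ^ 2 * ((√‖z s - D s‖) ^ 2) ^ 2 := by ring
              _ = _ := by rw [b1, b2]
          have a3 := hwK s hsI
          rw [a2]
          refine le_trans ?_ hcond
          gcongr
        exact (pow_le_pow_iff_left₀ (by positivity) (by positivity) (by norm_num)).mp a1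
      have k4 : c * (‖z1 s‖ ^ 2 * (√‖u s - V s‖ * √‖z s - D s‖)) ≤ ν / 4 * ‖z1 s‖ ^ 2 := by
        calc c * (‖z1 s‖ ^ 2 * (√‖u s - V s‖ * √‖z s - D s‖))
            ≤ c * (‖z1 s‖ ^ 2 * (ν / (4 * c))) := by gcongr
          _ = ν / 4 * ‖z1 s‖ ^ 2 := by field_simp
      have k5 : N s * (‖u1 s‖ * ‖z1 s‖) ≤ ν / 8 * ‖z1 s‖ ^ 2 + 2 / ν * N s ^ 2 * ‖u1 s‖ ^ 2 := by
        have a2 : 0 ≤ 2 * (ν / 4 * ‖z1 s‖ - N s * ‖u1 s‖) ^ 2 / ν := by positivity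
        have e : 2 * (ν / 4 * ‖z1 s‖ - N s * ‖u1 s‖) ^ 2 / ν
            = ν / 8 * ‖z1 s‖ ^ 2 - N s * (‖u1 s‖ * ‖z1 s‖) + 2 / ν * N s ^ 2 * ‖u1 s‖ ^ 2 := by
          field_simp
          ring
        linarith
      have k8 : M s * (√‖u1 s‖ * (‖z1 s‖ * √‖z1 s‖))
          ≤ ν / 2 * ‖z1 s‖ ^ 2 + 1 / ν ^ 3 * M s ^ 4 * ‖u1 s‖ ^ 2 := by
        have a2 := young43 (M := M s) hν (norm_nonneg (u1 s)) (norm_nonneg (z1 s))
        have e : 1 / ν ^ 3 * M s ^ 4 * ‖u1 s‖ ^ 2 = (2 * M s ^ 4 / ν ^ 3 * ‖u1 s‖ ^ 2) / 2 := by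
          ring
        rw [e]
        linarith
      have k6 := neg_abs_le ⟪m (u1 s), D s⟫_ℝ
      have k7 := neg_abs_le ⟪m (u1 s), z s - D s⟫_ℝ
      rw [e1]
      have e2 : (1 - 1 / 8) * ν * ‖z1 s‖ ^ 2
          = ν / 4 * ‖z1 s‖ ^ 2 + ν / 8 * ‖z1 s‖ ^ 2 + ν / 2 * ‖z1 s‖ ^ 2 := by ring
      have e3 : (2 / ν * N s ^ 2 + 1 / ν ^ 3 * M s ^ 4) * ‖u1 s‖ ^ 2
          = 2 / ν * N s ^ 2 * ‖u1 s‖ ^ 2 + 1 / ν ^ 3 * M s ^ 4 * ‖u1 s‖ ^ 2 := by ring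
      rw [e2, e3]
      linarith)
  -- the bound of the gradient up to `τ`
  have hbd' : ∀ᵐ t ∂(volume.restrict (Ioc 0 τ)), ‖u1 t‖ ≤ Y := by
    have hne : ∀ᵐ s ∂(volume.restrict (Ioc 0 τ)), s ≠ τ := by
      refine ae_restrict_of_ae ?_
      simp [ae_iff, measure_singleton]
    rw [ae_restrict_iff' measurableSet_Ioo] at hbd
    rw [ae_restrict_iff' measurableSet_Ioc] at hne ⊢
    filter_upwards [hbd, hne] with t h1 h2 h3
    exact h1 ⟨h3.1, lt_of_le_of_ne h3.2 (h2 h3)⟩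
  have hzb := grad_bd Fr hν hτ (hFH τ hτT) S hE0 huE (Φ := Φ)
    (fun s hs => hΦ s ⟨hs.1, hs.2.trans hτT⟩) hbd' τ ⟨hτ.le, le_rfl⟩
  rcases hend with h1 | h1
  · rw [h1] at S hbd' hwK
    exact ⟨u, u1, z, z1, S, hu0, hbd', hwK⟩
  · exfalso
    have h2 : b + 1 ≤ ‖z τ‖ := by
      have := norm_nonneg (D 0)
      linarith
    have h3 : (b + 1) ^ 2 ≤ ‖z τ‖ ^ 2 := pow_le_pow_left₀ (by positivity) h2 2
    have h4 : ‖z τ‖ ^ 2 ≤ b := hzb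
    nlinarith

end

/-- **Strong solutions near an approximate solution, with a force and a background.** -/
theorem pert2 (hloc : S_loc) {c ν L Mb : ℝ} (hc : 0 < c) (hν : 0 < ν) (hL : 0 ≤ L)
    (hMb : 0 ≤ Mb) : ∃ κ : ℝ, 0 < κ ∧
    ∀ (H K : Type) [NormedAddCommGroup H] [InnerProductSpace ℝ H] [CompleteSpace H]
      [NormedAddCommGroup K] [InnerProductSpace ℝ K] [CompleteSpace K]
      (W : Submodule ℝ (H × K)) (m : H → K) (C : ℝ), Frame W m C → Hom W m → Univ W m c →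
      (∀ R : ℝ, TotallyBounded {v : H | ∃ z, (v, z) ∈ W ∧ ‖z‖ ≤ R}) →
      ∀ (T : ℝ) (F F1 : ℝ → K) (V V1 g : ℝ → H) (D : ℝ → K) (N M γ : ℝ → ℝ) (g0 : H)
        (Γ Y1 Nb Φ : ℝ), 0 < T → FH T F F1 → Appr2 W m ν T F V V1 g D N M γ →
        (∀ p ∈ W, ⟪F 0 - ν • D 0 + m (V 0), p.2⟫_ℝ = ⟪g0, p.1⟫_ℝ) → ‖g0‖ ≤ Y1 →
        (∀ᵐ t ∂(volume.restrict (Ioc 0 T)), ‖V1 t‖ ≤ Y1) → (∀ t ∈ Icc 0 T, γ t ≤ Y1) →
        (∀ t ∈ Icc 0 T, N t ≤ Nb) → (∀ t ∈ Icc 0 T, M t ≤ Mb) →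
        ∫ s in (0 : ℝ)..T, N s ^ 2 ≤ L → ∫ s in (0 : ℝ)..T, M s ^ 4 ≤ L →
        ∫ s in (0 : ℝ)..T, γ s ≤ Γ → 0 < Γ → 0 ≤ Φ → ∫ s in (0 : ℝ)..T, ‖F1 s‖ ^ 2 ≤ Φ ^ 2 →
        Γ ≤ κ → Γ ^ 3 * (1 + Y1 + Φ) ≤ κ → Γ ^ 4 * Nb ^ 2 ≤ κ →
        ∃ (u u1 : ℝ → H) (z z1 : ℝ → K), Str W m ν T F u u1 z z1 ∧ u 0 = V 0 ∧
          (∀ᵐ t ∂(volume.restrict (Ioc 0 T)), ‖u1 t‖ ≤ (1 + Y1 + Φ) / κ) ∧
          ∀ t ∈ Icc 0 T, ‖u t - V t‖ ≤ Γ / κ := by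
  set E0 : ℝ := Real.exp (L / ν + 2 * L / ν ^ 3 + 1) with hE0
  have hE0p : 1 ≤ E0 := Real.one_le_exp (by positivity)
  set B : ℝ := 1 + (16 + 4 / ν) * Real.exp (2 * (2 * L / ν + L / ν ^ 3)) with hB
  have hB1 : 1 ≤ B := by
    have : 0 ≤ (16 + 4 / ν) * Real.exp (2 * (2 * L / ν + L / ν ^ 3)) := by positivity
    linarith
  set R : ℝ := 4 / ν * (E0 ^ 3 * (B + 2) + E0 ^ 4 / ν + E0 ^ 4 * (Mb ^ 4 / ν ^ 3)) with hR
  have hR0 : 0 ≤ R := by positivity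
  have hq0 : 0 < (ν / (4 * c)) ^ 4 := by positivity
  set Q : ℝ := E0 + B + R / (ν / (4 * c)) ^ 4 with hQ
  have hRq : 0 ≤ R / (ν / (4 * c)) ^ 4 := by positivity
  have hQ1 : 1 ≤ Q := by linarith
  have hQ0 : 0 < Q := by linarith
  have hκE : 1 / Q ≤ 1 / E0 := one_div_le_one_div_of_le (by linarith) (by linarith)
  have hκR : R * (1 / Q) ≤ (ν / (4 * c)) ^ 4 := by
    rw [mul_one_div, div_le_iff₀ hQ0]
    have h1 : R / (ν / (4 * c)) ^ 4 ≤ Q := by linarith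
    rw [div_le_iff₀ hq0] at h1
    linarith
  refine ⟨1 / Q, by positivity, ?_⟩
  intro H K _ _ _ _ _ _ W m C Fr hm Un hcomp T F F1 V V1 g D N M γ g0 Γ Y1 Nb Φ hT hF A hg0 hY10
    hY1 hγb hNb hMb' hLN hLM hΓ hΓ0 hΦ0 hΦ hκ1 hκ2 hκ3
  have hY1n : 0 ≤ Y1 := (norm_nonneg _).trans hY10
  have hsum : 1 ≤ 1 + Y1 + Φ := by linarith
  have hκle : 1 / Q ≤ 1 := by
    rw [div_le_iff₀ hQ0]
    linarith
  have hΓ1 : Γ ≤ 1 := hκ1.trans hκle
  obtain ⟨u, u1, z, z1, S, hu0, hb, hw⟩ := pert2_aux hloc Fr hm Un hcomp hν hT hF A hg0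
    (L := L) (Γ := Γ) (K0 := E0 * Γ) (Y := B * (1 + Y1 + Φ)) (Y1 := Y1) (Nb := Nb) (Mb := Mb)
    hL hY10 hY1 hγb hNb hMb' hLN hLM hΓ hΓ0 (by
      rw [mul_pow]
      have : E0 ≤ E0 ^ 2 := by nlinarith
      gcongr) (by positivity) (by positivity) (by
      have e1 : (∫ s in (0 : ℝ)..T, ‖F1 s‖ ^ 2) / (2 * (1 / 8) * ν) ≤ 4 / ν * Φ ^ 2 := by
        have e : 4 / ν * Φ ^ 2 = Φ ^ 2 / (2 * (1 / 8) * ν) := by field_simp; ring
        rw [e]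
        gcongr
      have e2 : 16 * Y1 ^ 2 + (∫ s in (0 : ℝ)..T, ‖F1 s‖ ^ 2) / (2 * (1 / 8) * ν)
          ≤ (16 + 4 / ν) * (1 + Y1 + Φ) ^ 2 := by
        have h1 : Y1 ^ 2 ≤ (1 + Y1 + Φ) ^ 2 := by
          apply pow_le_pow_left₀ hY1n; linarith
        have h2 : Φ ^ 2 ≤ (1 + Y1 + Φ) ^ 2 := by
          apply pow_le_pow_left₀ hΦ0; linarith
        have h3 : 4 / ν * Φ ^ 2 ≤ 4 / ν * (1 + Y1 + Φ) ^ 2 := by gcongr
        have e : (16 + 4 / ν) * (1 + Y1 + Φ) ^ 2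
          = 16 * (1 + Y1 + Φ) ^ 2 + 4 / ν * (1 + Y1 + Φ) ^ 2 := by ring
        rw [e]
        linarith
      have e3 : (16 + 4 / ν) * (1 + Y1 + Φ) ^ 2 * Real.exp (2 * (2 * L / ν + L / ν ^ 3))
          = (B - 1) * (1 + Y1 + Φ) ^ 2 := by
        rw [hB]; ring
      refine lt_of_le_of_lt (mul_le_mul_of_nonneg_right e2 (Real.exp_pos _).le) ?_
      rw [e3, mul_pow]
      have h4 : B - 1 < B ^ 2 := by nlinarith
      have h5 : 0 < (1 + Y1 + Φ) ^ 2 := by positivity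
      exact mul_lt_mul_of_pos_right h4 h5) (by
      have hN0 : 0 ≤ Nb := (A.N0 0).trans (hNb 0 ⟨le_rfl, hT.le⟩)
      have h1 : Γ ^ 3 * (B * (1 + Y1 + Φ) + Y1 + Y1) ≤ (B + 2) * (1 / Q) := by
        calc Γ ^ 3 * (B * (1 + Y1 + Φ) + Y1 + Y1)
            ≤ Γ ^ 3 * ((B + 2) * (1 + Y1 + Φ)) := by
              gcongr
              have e : (B + 2) * (1 + Y1 + Φ) = B * (1 + Y1 + Φ) + (1 + Y1 + Φ) + (1 + Y1 + Φ) := by
                ring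
              rw [e]
              linarith
          _ = (B + 2) * (Γ ^ 3 * (1 + Y1 + Φ)) := by ring
          _ ≤ (B + 2) * (1 / Q) := by gcongr
      have h2 : Γ ^ 4 ≤ 1 / Q := by
        calc Γ ^ 4 = Γ * Γ ^ 3 := by ring
          _ ≤ Γ * 1 := by
            gcongr
            exact pow_le_one₀ hΓ0.le hΓ1
          _ ≤ 1 / Q := by linarith
      calc (E0 * Γ) ^ 2 * (4 / ν * ((B * (1 + Y1 + Φ) + Y1 + Y1) * (E0 * Γ)
            + (Nb ^ 2 / ν + Mb ^ 4 / ν ^ 3) * (E0 * Γ) ^ 2))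
          = 4 / ν * (E0 ^ 3 * (Γ ^ 3 * (B * (1 + Y1 + Φ) + Y1 + Y1))
            + E0 ^ 4 / ν * (Γ ^ 4 * Nb ^ 2) + E0 ^ 4 * (Mb ^ 4 / ν ^ 3) * Γ ^ 4) := by ring
        _ ≤ 4 / ν * (E0 ^ 3 * ((B + 2) * (1 / Q))
            + E0 ^ 4 / ν * (1 / Q) + E0 ^ 4 * (Mb ^ 4 / ν ^ 3) * (1 / Q)) := by gcongr
        _ = R * (1 / Q) := by rw [hR]; ring
        _ ≤ (ν / (4 * c)) ^ 4 := hκR)
  refine ⟨u, u1, z, z1, S, hu0, ?_, ?_⟩
  · filter_upwards [hb] with t ht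
    refine ht.trans ?_
    have e : (1 + Y1 + Φ) / (1 / Q) = Q * (1 + Y1 + Φ) := by field_simp
    rw [e]
    have : B ≤ Q := by linarith
    gcongr
  · intro t ht
    refine (hw t ht).trans ?_
    have e : Γ / (1 / Q) = Q * Γ := by field_simp
    rw [e]
    have : E0 ≤ Q := by linarith
    gcongr

end Pool.Agent.T2H10.DN
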