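import Pool.Agent.T2H10.DN.Prof

/-!
The algebra of profiles.
-/

set_option autoImplicit false
set_option linter.unusedSectionVars false

open MeasureTheory Set Filter Topology
open scoped InnerProductSpace ENNReal ContDiff

namespace Pool.Agent.T2H10.DN

open H772R2.NS

variable {ν : ℝ} {O Ω : Set E3} {z : Bool}

/-! ### functions with compact support -/

theorem CS.mono {O O' : Set E3} (h : O ⊆ O') {f : E3 → ℝ} (hf : CS O f) : CS O' f :=
  ⟨hf.smooth, hf.compact, hf.supp.trans h⟩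

theorem CS.zero : CS O (fun _ => (0 : ℝ)) :=
  ⟨contDiff_const, HasCompactSupport.zero, by
    rw [show (fun _ : E3 => (0 : ℝ)) = 0 from rfl, tsupport_zero]; exact empty_subset _⟩

theorem CS.add {f g : E3 → ℝ} (hf : CS O f) (hg : CS O g) : CS O (fun x => f x + g x) :=
  ⟨hf.smooth.add hg.smooth, hf.compact.add hg.compact,
    (tsupport_add f g).trans (union_subset hf.supp hg.supp)⟩

theorem CS.mul_left {f g : E3 → ℝ} (hf : ContDiff ℝ ∞ f) (hg : CS O g) :
    CS O (fun x => f x * g x) :=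
  ⟨hf.mul hg.smooth, hg.compact.mul_left, (tsupport_mul_subset_right).trans hg.supp⟩

theorem CS.const_mul {g : E3 → ℝ} (c : ℝ) (hg : CS O g) : CS O (fun x => c * g x) :=
  CS.mul_left contDiff_const hg

theorem CS.neg {f : E3 → ℝ} (hf : CS O f) : CS O (fun x => -f x) := by
  simpa using hf.const_mul (-1)

theorem CS.sub {f g : E3 → ℝ} (hf : CS O f) (hg : CS O g) : CS O (fun x => f x - g x) := by
  simpa [sub_eq_add_neg] using hf.add hg.neg

theorem CS.mul_right {f g : E3 → ℝ} (hf : CS O f) (hg : ContDiff ℝ ∞ g) :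
    CS O (fun x => f x * g x) := by
  simpa [mul_comm] using hf.mul_left hg

theorem CS.sum {ι : Type*} (s : Finset ι) {f : ι → E3 → ℝ} (hf : ∀ i ∈ s, CS O (f i)) :
    CS O (fun x => ∑ i ∈ s, f i x) := by
  classical
  induction s using Finset.induction_on with
  | empty => simpa using CS.zero
  | insert a s ha ih =>
    have e : (fun x => ∑ i ∈ insert a s, f i x) = fun x => f a x + ∑ i ∈ s, f i x := by
      funext x; rw [Finset.sum_insert ha]
    rw [e]
    exact (hf a (Finset.mem_insert_self _ _)).add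
      (ih fun i hi => hf i (Finset.mem_insert_of_mem hi))

theorem pd_contDiff {f : E3 → ℝ} (hf : ContDiff ℝ ∞ f) (j : Fin 3) : ContDiff ℝ ∞ (pd j f) :=
  (hf.fderiv_right (m := ∞) (by simp)).clm_apply contDiff_const

theorem CS.pd {f : E3 → ℝ} (hf : CS O f) (j : Fin 3) : CS O (pd j f) := by
  refine ⟨pd_contDiff hf.smooth j, ?_, ?_⟩
  · have h := hf.compact.fderiv ℝ
    exact h.comp_left (g := fun L : E3 →L[ℝ] ℝ => L (EuclideanSpace.single j 1)) (by simp)
  · refine Subset.trans ?_ hf.supp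
    refine Subset.trans ?_ (tsupport_fderiv_subset ℝ (f := f))
    exact tsupport_comp_subset (g := fun L : E3 →L[ℝ] ℝ => L (EuclideanSpace.single j 1))
      (by simp) _

theorem CS.eq_zero {f : E3 → ℝ} (hf : CS O f) {x : E3} (hx : x ∉ O) : f x = 0 :=
  image_eq_zero_of_notMem_tsupport fun h => hx (hf.supp h)

theorem CS.bound {f : E3 → ℝ} (hf : CS O f) : ∃ C : ℝ, 0 ≤ C ∧ ∀ x, |f x| ≤ C := by
  obtain ⟨C, hC⟩ := hf.compact.exists_bound_of_continuous hf.smooth.continuous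
  exact ⟨max C 0, le_max_right _ _, fun x => (hC x).trans (le_max_left _ _)⟩

theorem pd_pd_comm {f : E3 → ℝ} (hf : ContDiff ℝ ∞ f) (i j : Fin 3) :
    pd i (pd j f) = pd j (pd i f) := by
  funext p
  unfold pd
  have h1 : DifferentiableAt ℝ (fderiv ℝ f) p :=
    (hf.fderiv_right (m := ∞) (by simp)).differentiable (by simp) p
  rw [fderiv_clm_apply h1 (differentiableAt_const _), fderiv_clm_apply h1 (differentiableAt_const _)]
  simp only [fderiv_fun_const, Pi.zero_apply, ContinuousLinearMap.comp_zero, zero_add,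
    ContinuousLinearMap.flip_apply]
  have h2 : IsSymmSndFDerivAt ℝ f p := (hf.contDiffAt).isSymmSndFDerivAt (by
    simp only [minSmoothness_of_isRCLikeNormedField]
    exact WithTop.coe_le_coe.2 le_top)
  exact h2 _ _

/-! ### generators -/

/-- the generators -/
noncomputable def gn (ν : ℝ) (j m : ℕ) (n : ℤ) (σ : Bool) (X : E3 → ℝ) : PP → ℝ :=
  fun p => tb ν j m p.1 * tr n σ p.2.1 * X p.2.2

/-- the class of profiles; for `z = true` the profiles with mean zero -/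
def PQ (ν : ℝ) (z : Bool) (O : Set E3) : Submodule ℝ (PP → ℝ) :=
  Submodule.span ℝ {E | ∃ (j m : ℕ) (n : ℤ) (σ : Bool) (X : E3 → ℝ), (z = true → n ≠ 0) ∧
    CS O X ∧ E = gn ν j m n σ X}

theorem gn_mem {j m : ℕ} {n : ℤ} {σ : Bool} {X : E3 → ℝ} (hn : z = true → n ≠ 0)
    (hX : CS O X) : gn ν j m n σ X ∈ PQ ν z O :=
  Submodule.subset_span ⟨j, m, n, σ, X, hn, hX, rfl⟩

theorem PQ_mono {O O' : Set E3} (h : O ⊆ O') : PQ ν z O ≤ PQ ν z O' := by
  refine Submodule.span_mono ?_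
  rintro E ⟨j, m, n, σ, X, hn, hX, rfl⟩
  exact ⟨j, m, n, σ, X, hn, hX.mono h, rfl⟩

theorem PQ_le {E : PP → ℝ} (h : E ∈ PQ ν z O) : E ∈ PQ ν false O := by
  refine (Submodule.span_mono ?_ : PQ ν z O ≤ PQ ν false O) h
  rintro E ⟨j, m, n, σ, X, hn, hX, rfl⟩
  exact ⟨j, m, n, σ, X, by simp, hX, rfl⟩

theorem gn_contDiff (j m : ℕ) (n : ℤ) (σ : Bool) {X : E3 → ℝ} (hX : ContDiff ℝ ∞ X) :
    ContDiff ℝ ∞ (gn ν j m n σ X) :=
  (((tb_contDiff j m).comp contDiff_fst).mul
    ((tr_contDiff n σ).comp (contDiff_fst.comp contDiff_snd))).mul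
    (hX.comp (contDiff_snd.comp contDiff_snd))

theorem PQ_contDiff {E : PP → ℝ} (h : E ∈ PQ ν z O) : ContDiff ℝ ∞ E := by
  induction h using Submodule.span_induction with
  | mem x h => obtain ⟨j, m, n, σ, X, -, hX, rfl⟩ := h; exact gn_contDiff j m n σ hX.smooth
  | zero => exact contDiff_const
  | add x y _ _ h1 h2 => exact h1.add h2
  | smul a x _ h => exact contDiff_const.mul h

theorem PQ_add {E G : PP → ℝ} (hE : E ∈ PQ ν z O) (hG : G ∈ PQ ν z O) :
    (fun p => E p + G p) ∈ PQ ν z O := (PQ ν z O).add_mem hE hG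

theorem PQ_sub {E G : PP → ℝ} (hE : E ∈ PQ ν z O) (hG : G ∈ PQ ν z O) :
    (fun p => E p - G p) ∈ PQ ν z O := (PQ ν z O).sub_mem hE hG

theorem PQ_neg {E : PP → ℝ} (hE : E ∈ PQ ν z O) :
    (fun p => -E p) ∈ PQ ν z O := (PQ ν z O).neg_mem hE

theorem PQ_smul {E : PP → ℝ} (c : ℝ) (hE : E ∈ PQ ν z O) :
    (fun p => c * E p) ∈ PQ ν z O := (PQ ν z O).smul_mem c hE

theorem PQ_zero : (fun _ => (0 : ℝ)) ∈ PQ ν z O := (PQ ν z O).zero_mem

theorem PQ_sum {ι : Type*} (s : Finset ι) {E : ι → PP → ℝ} (hE : ∀ i ∈ s, E i ∈ PQ ν z O) :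
    (fun p => ∑ i ∈ s, E i p) ∈ PQ ν z O := by
  have e : (fun p => ∑ i ∈ s, E i p) = ∑ i ∈ s, E i := by funext p; simp
  rw [e]
  exact Submodule.sum_mem _ hE

/-- induction over the generators for linear maps -/
theorem PQ_map {z' : Bool} {O' : Set E3} (f : (PP → ℝ) → PP → ℝ)
    (hg : ∀ (j m : ℕ) (n : ℤ) (σ : Bool) (X : E3 → ℝ), (z = true → n ≠ 0) → CS O X →
      f (gn ν j m n σ X) ∈ PQ ν z' O')
    (h0 : f 0 = 0)
    (ha : ∀ E G, ContDiff ℝ ∞ E → ContDiff ℝ ∞ G → f (E + G) = f E + f G)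
    (hs : ∀ (c : ℝ) E, ContDiff ℝ ∞ E → f (c • E) = c • f E) {E : PP → ℝ}
    (h : E ∈ PQ ν z O) : f E ∈ PQ ν z' O' := by
  induction h using Submodule.span_induction with
  | mem x h => obtain ⟨j, m, n, σ, X, hn, hX, rfl⟩ := h; exact hg j m n σ X hn hX
  | zero => rw [h0]; exact (PQ ν z' O').zero_mem
  | add x y hx hy h1 h2 =>
    rw [ha _ _ (PQ_contDiff hx) (PQ_contDiff hy)]
    exact (PQ ν z' O').add_mem h1 h2
  | smul a x hx h =>
    rw [hs _ _ (PQ_contDiff hx)]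
    exact (PQ ν z' O').smul_mem _ h

theorem PQ_mul_left {g : E3 → ℝ} (hg : ContDiff ℝ ∞ g) {E : PP → ℝ} (h : E ∈ PQ ν z O) :
    (fun p => g p.2.2 * E p) ∈ PQ ν z O := by
  refine PQ_map (fun E p => g p.2.2 * E p) ?_ ?_ ?_ ?_ h
  · intro j m n σ X hn hX
    have e : (fun p : PP => g p.2.2 * gn ν j m n σ X p) = gn ν j m n σ (fun x => g x * X x) := by
      funext p; unfold gn; ring
    simp only [e]
    exact gn_mem hn (hX.mul_left hg)
  · funext p; simp
  · intro E G _ _; funext p; simp [mul_add]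
  · intro c E _; funext p; simp; ring

/-! ### products -/

theorem tr_mul (n m : ℤ) (σ τ : Bool) : ∃ c1 c2 : ℝ, ∀ θ, tr n σ θ * tr m τ θ
    = c1 * tr (n + m) (xor σ τ) θ + c2 * tr (n - m) (xor σ τ) θ := by
  cases σ <;> cases τ
  · refine ⟨1 / 2, 1 / 2, fun θ => ?_⟩
    simp only [tr_false, Bool.xor_false, Int.cast_add, Int.cast_sub, add_mul, sub_mul,
      Real.cos_add, Real.cos_sub]
    ring
  · refine ⟨1 / 2, -1 / 2, fun θ => ?_⟩
    simp only [tr_false, tr_true, Bool.xor_true, Bool.not_false, Int.cast_add, Int.cast_sub,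
      add_mul, sub_mul, Real.sin_add, Real.sin_sub]
    ring
  · refine ⟨1 / 2, 1 / 2, fun θ => ?_⟩
    simp only [tr_false, tr_true, Bool.xor_false, Int.cast_add, Int.cast_sub,
      add_mul, sub_mul, Real.sin_add, Real.sin_sub]
    ring
  · refine ⟨-1 / 2, 1 / 2, fun θ => ?_⟩
    simp only [tr_false, tr_true, Bool.xor_true, Bool.not_true, Int.cast_add, Int.cast_sub,
      add_mul, sub_mul, Real.cos_add, Real.cos_sub]
    ring

theorem gn_mul {O' : Set E3} (j m : ℕ) (n : ℤ) (σ : Bool) {X : E3 → ℝ} (hX : CS O X)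
    (j' m' : ℕ) (n' : ℤ) (σ' : Bool) {X' : E3 → ℝ} (hX' : CS O' X') :
    (fun p => gn ν j m n σ X p * gn ν j' m' n' σ' X' p) ∈ PQ ν false O := by
  obtain ⟨c1, c2, h⟩ := tr_mul n n' σ σ'
  have e : (fun p => gn ν j m n σ X p * gn ν j' m' n' σ' X' p)
      = fun p => c1 * gn ν (j + j') (m + m' + 1) (n + n') (xor σ σ') (fun x => X x * X' x) p
        + c2 * gn ν (j + j') (m + m' + 1) (n - n') (xor σ σ') (fun x => X x * X' x) p := by
    funext p
    unfold gn
    rw [← tb_mul]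
    calc _ = tb ν j m p.1 * tb ν j' m' p.1 * (tr n σ p.2.1 * tr n' σ' p.2.1)
          * (X p.2.2 * X' p.2.2) := by ring
      _ = _ := by rw [h]; ring
  rw [e]
  exact PQ_add (PQ_smul _ (gn_mem (by simp) (hX.mul_right hX'.smooth)))
    (PQ_smul _ (gn_mem (by simp) (hX.mul_right hX'.smooth)))

theorem PQ_mul {z' : Bool} {O' : Set E3} {E G : PP → ℝ} (hE : E ∈ PQ ν z O)
    (hG : G ∈ PQ ν z' O') : (fun p => E p * G p) ∈ PQ ν false O := by
  refine PQ_map (fun E p => E p * G p) ?_ ?_ ?_ ?_ hE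
  · intro j m n σ X _ hX
    refine PQ_map (fun G p => gn ν j m n σ X p * G p) ?_ ?_ ?_ ?_ hG
    · intro j' m' n' σ' X' _ hX'
      exact gn_mul j m n σ hX j' m' n' σ' hX'
    · funext p; simp
    · intro E G _ _; funext p; simp [mul_add]
    · intro c E _; funext p; simp; ring
  · funext p; simp
  · intro E G _ _; funext p; simp [add_mul]
  · intro c E _; funext p; simp; ring

theorem PQ_mul' {z' : Bool} {O' : Set E3} {E G : PP → ℝ} (hE : E ∈ PQ ν z O')
    (hG : G ∈ PQ ν z' O) : (fun p => E p * G p) ∈ PQ ν false O := by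
  have e : (fun p => E p * G p) = fun p => G p * E p := by funext p; ring
  rw [e]
  exact PQ_mul hG hE

/-! ### derivatives -/

theorem dd_fst {v : PP} {f : ℝ → ℝ} (hf : ContDiff ℝ ∞ f) :
    dd v (fun p => f p.1) = fun p => v.1 * deriv f p.1 := by
  funext p
  unfold dd
  have h1 : HasFDerivAt (fun p : PP => p.1) (ContinuousLinearMap.fst ℝ ℝ (ℝ × E3)) p :=
    hasFDerivAt_fst
  have h2 : HasDerivAt f (deriv f p.1) p.1 := (hf.differentiable (by simp) _).hasDerivAt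
  have h3 := (h2.comp_hasFDerivAt p h1).fderiv
  have h4 : (f ∘ fun p : PP => p.1) = fun p : PP => f p.1 := rfl
  rw [h4] at h3
  rw [h3]
  simp [mul_comm]

theorem dd_snd {v : PP} {f : ℝ → ℝ} (hf : ContDiff ℝ ∞ f) :
    dd v (fun p => f p.2.1) = fun p => v.2.1 * deriv f p.2.1 := by
  funext p
  unfold dd
  have h1 : HasFDerivAt (fun p : PP => p.2.1) ((ContinuousLinearMap.fst ℝ ℝ E3).comp
      (ContinuousLinearMap.snd ℝ ℝ (ℝ × E3))) p := by
    exact hasFDerivAt_fst.comp p hasFDerivAt_snd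
  have h2 : HasDerivAt f (deriv f p.2.1) p.2.1 := (hf.differentiable (by simp) _).hasDerivAt
  have h3 := (h2.comp_hasFDerivAt p h1).fderiv
  have h4 : (f ∘ fun p : PP => p.2.1) = fun p : PP => f p.2.1 := rfl
  rw [h4] at h3
  rw [h3]
  simp [mul_comm]

theorem dd_trd {v : PP} {X : E3 → ℝ} (hf : ContDiff ℝ ∞ X) :
    dd v (fun p => X p.2.2) = fun p => fderiv ℝ X p.2.2 v.2.2 := by
  funext p
  unfold dd
  have h1 : HasFDerivAt (fun p : PP => p.2.2) ((ContinuousLinearMap.snd ℝ ℝ E3).comp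
      (ContinuousLinearMap.snd ℝ ℝ (ℝ × E3))) p := by
    exact hasFDerivAt_snd.comp p hasFDerivAt_snd
  have h2 : HasFDerivAt X (fderiv ℝ X p.2.2) p.2.2 := (hf.differentiable (by simp) _).hasFDerivAt
  have h3 := (h2.comp p h1).fderiv
  have h4 : (X ∘ fun p : PP => p.2.2) = fun p : PP => X p.2.2 := rfl
  rw [h4] at h3
  rw [h3]
  simp

/-- the sign in the derivative -/
def sg (σ : Bool) : ℝ := if σ then 1 else -1

theorem deriv_tr (n : ℤ) (σ : Bool) (θ : ℝ) : deriv (tr n σ) θ = sg σ * n * tr n (!σ) θ := by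
  have h0 : HasDerivAt (fun θ : ℝ => (n : ℝ) * θ) n θ := by
    simpa using (hasDerivAt_id θ).const_mul (n : ℝ)
  cases σ
  · rw [tr_false, h0.cos.deriv]
    simp [sg, tr]
    ring
  · rw [tr_true, h0.sin.deriv]
    simp [sg, tr]
    ring

theorem dd_gn (v : PP) (j m : ℕ) (n : ℤ) (σ : Bool) {X : E3 → ℝ} (hX : ContDiff ℝ ∞ X) :
    dd v (gn ν j m n σ X) = fun p =>
      v.1 * (j * gn ν (j - 1) m n σ X p - (m + 1) * ν * gn ν j m n σ X p)
        + v.2.1 * (sg σ * n * gn ν j m n (!σ) X p)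
        + tb ν j m p.1 * tr n σ p.2.1 * fderiv ℝ X p.2.2 v.2.2 := by
  have h1 : ContDiff ℝ ∞ (fun p : PP => tb ν j m p.1) := (tb_contDiff j m).comp contDiff_fst
  have h2 : ContDiff ℝ ∞ (fun p : PP => tr n σ p.2.1) :=
    (tr_contDiff n σ).comp (contDiff_fst.comp contDiff_snd)
  have h3 : ContDiff ℝ ∞ (fun p : PP => X p.2.2) := hX.comp (contDiff_snd.comp contDiff_snd)
  have e : gn ν j m n σ X = fun p => (tb ν j m p.1 * tr n σ p.2.1) * X p.2.2 := rfl
  rw [e, dd_mul (h1.mul h2) h3, dd_mul h1 h2, dd_fst (tb_contDiff j m), dd_snd (tr_contDiff n σ),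
    dd_trd hX]
  funext p
  beta_reduce
  rw [(hasDerivAt_tb j m p.1).deriv, deriv_tr]
  unfold gn
  ring

theorem dd_zero (v : PP) : dd v 0 = 0 := by
  funext p
  unfold dd
  rw [show (0 : PP → ℝ) = fun _ => 0 from rfl, fderiv_fun_const]
  rfl

theorem PQ_dd_gen {z' : Bool} {O' : Set E3} (v : PP)
    (hg : ∀ (j m : ℕ) (n : ℤ) (σ : Bool) (X : E3 → ℝ), (z = true → n ≠ 0) → CS O X →
      dd v (gn ν j m n σ X) ∈ PQ ν z' O') {E : PP → ℝ} (h : E ∈ PQ ν z O) :
    dd v E ∈ PQ ν z' O' := by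
  refine PQ_map (dd v) hg (dd_zero v) ?_ ?_ h
  · intro E G hE hG
    exact dd_add hE hG
  · intro c E hE
    exact dd_smul c hE

theorem PQ_eT {E : PP → ℝ} (h : E ∈ PQ ν z O) : dd eT E ∈ PQ ν z O := by
  refine PQ_dd_gen eT ?_ h
  intro j m n σ X hn hX
  rw [dd_gn eT j m n σ hX.smooth]
  have e : (fun p => (eT : PP).1 * (j * gn ν (j - 1) m n σ X p - (m + 1) * ν * gn ν j m n σ X p)
        + (eT : PP).2.1 * (sg σ * n * gn ν j m n (!σ) X p)
        + tb ν j m p.1 * tr n σ p.2.1 * fderiv ℝ X p.2.2 (eT : PP).2.2)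
      = fun p => j * gn ν (j - 1) m n σ X p - (m + 1) * ν * gn ν j m n σ X p := by
    funext p; simp [eT]
  rw [e]
  exact PQ_sub (PQ_smul _ (gn_mem hn hX)) (PQ_smul _ (gn_mem hn hX))

theorem PQ_eH {z' : Bool} {E : PP → ℝ} (h : E ∈ PQ ν z O) : dd eH E ∈ PQ ν z' O := by
  refine PQ_dd_gen eH ?_ h
  intro j m n σ X hn hX
  rw [dd_gn eH j m n σ hX.smooth]
  have e : (fun p => (eH : PP).1 * (j * gn ν (j - 1) m n σ X p - (m + 1) * ν * gn ν j m n σ X p)
        + (eH : PP).2.1 * (sg σ * n * gn ν j m n (!σ) X p)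
        + tb ν j m p.1 * tr n σ p.2.1 * fderiv ℝ X p.2.2 (eH : PP).2.2)
      = fun p => (sg σ * n) * gn ν j m n (!σ) X p := by
    funext p; simp [eH]
  rw [e]
  by_cases h0 : n = 0
  · subst h0
    have e2 : (fun p => (sg σ * ((0 : ℤ) : ℝ)) * gn ν j m 0 (!σ) X p) = fun _ => 0 := by
      funext p; simp
    rw [e2]
    exact PQ_zero
  · exact PQ_smul _ (gn_mem (fun _ => h0) hX)

theorem PQ_eX {E : PP → ℝ} (i : Fin 3) (h : E ∈ PQ ν z O) : dd (eX i) E ∈ PQ ν z O := by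
  refine PQ_dd_gen (eX i) ?_ h
  intro j m n σ X hn hX
  rw [dd_gn (eX i) j m n σ hX.smooth]
  have e : (fun p => (eX i : PP).1 * (j * gn ν (j - 1) m n σ X p
        - (m + 1) * ν * gn ν j m n σ X p)
        + (eX i : PP).2.1 * (sg σ * n * gn ν j m n (!σ) X p)
        + tb ν j m p.1 * tr n σ p.2.1 * fderiv ℝ X p.2.2 (eX i : PP).2.2)
      = gn ν j m n σ (pd i X) := by
    funext p; simp [eX, gn, pd]
  rw [e]
  exact gn_mem hn (hX.pd i)

/-! ### bounds -/

theorem tr_abs (n : ℤ) (σ : Bool) (θ : ℝ) : |tr n σ θ| ≤ 1 := by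
  cases σ
  · rw [tr_false]; exact Real.abs_cos_le_one _
  · rw [tr_true]; exact Real.abs_sin_le_one _

theorem PQ_bound (hν : 0 < ν) {E : PP → ℝ} (h : E ∈ PQ ν z O) :
    ∃ C : ℝ, 0 ≤ C ∧ ∀ p : PP, 0 ≤ p.1 → |E p| ≤ C * Real.exp (-(ν / 2) * p.1) := by
  induction h using Submodule.span_induction with
  | mem x h =>
    obtain ⟨j, m, n, σ, X, hn, hX, rfl⟩ := h
    obtain ⟨C, hC, h1⟩ := TT_bound hν (tb_mem j m)
    obtain ⟨C', hC', h2⟩ := hX.bound
    refine ⟨C * C', by positivity, fun p hp => ?_⟩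
    unfold gn
    rw [abs_mul, abs_mul]
    calc |tb ν j m p.1| * |tr n σ p.2.1| * |X p.2.2|
        ≤ (C * Real.exp (-(ν / 2) * p.1)) * 1 * C' := by
          refine mul_le_mul (mul_le_mul (h1 _ hp) (tr_abs _ _ _) (abs_nonneg _) ?_) (h2 _)
            (abs_nonneg _) ?_ <;> positivity
      _ = _ := by ring
  | zero => exact ⟨0, le_rfl, fun τ _ => by simp⟩
  | add x y _ _ h1 h2 =>
    obtain ⟨C, hC, h1⟩ := h1
    obtain ⟨C', hC', h2⟩ := h2
    refine ⟨C + C', by positivity, fun p hp => ?_⟩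
    rw [add_mul]
    exact (abs_add_le _ _).trans (add_le_add (h1 p hp) (h2 p hp))
  | smul a x _ h =>
    obtain ⟨C, hC, h⟩ := h
    refine ⟨|a| * C, by positivity, fun p hp => ?_⟩
    simp only [Pi.smul_apply, smul_eq_mul, abs_mul]
    rw [mul_assoc]
    exact mul_le_mul_of_nonneg_left (h p hp) (abs_nonneg _)

theorem PQ_out {E : PP → ℝ} (h : E ∈ PQ ν z O) (p : PP) (hp : p.2.2 ∉ O) : E p = 0 := by
  induction h using Submodule.span_induction with
  | mem x h =>
    obtain ⟨j, m, n, σ, X, hn, hX, rfl⟩ := h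
    unfold gn
    rw [hX.eq_zero hp, mul_zero]
  | zero => rfl
  | add x y _ _ h1 h2 => simp [h1, h2]
  | smul a x _ h => simp [h]

/-- common compact support -/
theorem PQ_supp {E : PP → ℝ} (h : E ∈ PQ ν z O) :
    ∃ K : Set E3, IsCompact K ∧ K ⊆ O ∧ ∀ p : PP, p.2.2 ∉ K → E p = 0 := by
  induction h using Submodule.span_induction with
  | mem x h =>
    obtain ⟨j, m, n, σ, X, hn, hX, rfl⟩ := h
    refine ⟨tsupport X, hX.compact, hX.supp, fun p hp => ?_⟩
    unfold gn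
    rw [image_eq_zero_of_notMem_tsupport hp, mul_zero]
  | zero => exact ⟨∅, isCompact_empty, empty_subset _, fun _ _ => rfl⟩
  | add x y _ _ h1 h2 =>
    obtain ⟨K1, hK1, hs1, h1⟩ := h1
    obtain ⟨K2, hK2, hs2, h2⟩ := h2
    refine ⟨K1 ∪ K2, hK1.union hK2, union_subset hs1 hs2, fun p hp => ?_⟩
    rw [mem_union, not_or] at hp
    simp [h1 p hp.1, h2 p hp.2]
  | smul a x _ h =>
    obtain ⟨K, hK, hs, h⟩ := h
    exact ⟨K, hK, hs, fun p hp => by simp [h p hp]⟩

/-! ### solutions of the equations in the fast variables -/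

theorem PQ_int {E : PP → ℝ} (h : E ∈ PQ ν true O) : ∃ Z ∈ PQ ν true O, dd eH Z = E := by
  induction h using Submodule.span_induction with
  | mem x h =>
    obtain ⟨j, m, n, σ, X, hn, hX, rfl⟩ := h
    have hn0 : (n : ℝ) ≠ 0 := by exact_mod_cast hn rfl
    have hs : sg (!σ) ≠ 0 := by unfold sg; split <;> norm_num
    refine ⟨(sg (!σ) * n)⁻¹ • gn ν j m n (!σ) X, Submodule.smul_mem _ _ (gn_mem hn hX), ?_⟩
    have e := dd_smul (v := eH) ((sg (!σ) * n)⁻¹) (gn_contDiff (ν := ν) j m n (!σ) hX.smooth)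
    refine e.trans ?_
    rw [dd_gn eH j m n (!σ) hX.smooth]
    funext p
    simp only [eH, zero_mul, one_mul, zero_add, map_zero, mul_zero, add_zero, Bool.not_not]
    field_simp
  | zero => exact ⟨0, Submodule.zero_mem _, dd_zero _⟩
  | add x y _ _ h1 h2 =>
    obtain ⟨Z1, hZ1, h1⟩ := h1
    obtain ⟨Z2, hZ2, h2⟩ := h2
    refine ⟨Z1 + Z2, Submodule.add_mem _ hZ1 hZ2, ?_⟩
    rw [← h1, ← h2]
    exact dd_add (PQ_contDiff hZ1) (PQ_contDiff hZ2)
  | smul a x _ h =>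
    obtain ⟨Z, hZ, h⟩ := h
    refine ⟨a • Z, Submodule.smul_mem _ _ hZ, ?_⟩
    rw [← h]
    exact dd_smul a (PQ_contDiff hZ)

/-- the heat operator in the fast variables -/
noncomputable def HH (ν : ℝ) (E : PP → ℝ) (p : PP) : ℝ := dd eT E p - ν * dd eH (dd eH E) p

theorem HH_add {E G : PP → ℝ} (hE : ContDiff ℝ ∞ E) (hG : ContDiff ℝ ∞ G) :
    HH ν (fun p => E p + G p) = fun p => HH ν E p + HH ν G p := by
  funext p
  unfold HH
  rw [dd_add hE hG, dd_add hE hG, dd_add (dd_contDiff hE) (dd_contDiff hG)]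
  ring

theorem HH_smul (c : ℝ) {E : PP → ℝ} (hE : ContDiff ℝ ∞ E) :
    HH ν (fun p => c * E p) = fun p => c * HH ν E p := by
  funext p
  unfold HH
  rw [dd_smul c hE, dd_smul c hE, dd_smul c (dd_contDiff hE)]
  ring

theorem PQ_HH {E : PP → ℝ} (h : E ∈ PQ ν z O) : HH ν E ∈ PQ ν z O :=
  PQ_sub (PQ_eT h) (PQ_smul ν (PQ_eH (PQ_eH (z' := z) h)))

theorem PQ_heat {E : PP → ℝ} (h : E ∈ PQ ν true O) : ∃ Z ∈ PQ ν true O, HH ν Z = E := by
  induction h using Submodule.span_induction with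
  | mem x h =>
    obtain ⟨j, m, n, σ, X, hn, hX, rfl⟩ := h
    -- the functions of time times a fixed function are profiles
    have hT : ∀ y ∈ TT ν, (fun p : PP => y p.1 * tr n σ p.2.1 * X p.2.2) ∈ PQ ν true O := by
      intro y hy
      induction hy using Submodule.span_induction with
      | mem x h => obtain ⟨j, m, rfl⟩ := h; exact gn_mem hn hX
      | zero => simpa using PQ_zero
      | add x y _ _ h1 h2 =>
        have e : (fun p : PP => (x + y) p.1 * tr n σ p.2.1 * X p.2.2)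
            = fun p => (x p.1 * tr n σ p.2.1 * X p.2.2) + (y p.1 * tr n σ p.2.1 * X p.2.2) := by
          funext p; simp [add_mul]
        rw [e]
        exact PQ_add h1 h2
      | smul a x _ h =>
        have e : (fun p : PP => (a • x) p.1 * tr n σ p.2.1 * X p.2.2)
            = fun p => a * (x p.1 * tr n σ p.2.1 * X p.2.2) := by
          funext p; simp; ring
        rw [e]
        exact PQ_smul a h
    obtain ⟨y, hy, h1⟩ := TT_solve (ν * n ^ 2) (tb_mem (ν := ν) j m)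
    refine ⟨_, hT y hy, ?_⟩
    have c1 : ContDiff ℝ ∞ (fun p : PP => y p.1) := (TT_contDiff hy).comp contDiff_fst
    have c2 : ContDiff ℝ ∞ (fun p : PP => tr n σ p.2.1) :=
      (tr_contDiff n σ).comp (contDiff_fst.comp contDiff_snd)
    have c2' : ContDiff ℝ ∞ (fun p : PP => tr n (!σ) p.2.1) :=
      (tr_contDiff n (!σ)).comp (contDiff_fst.comp contDiff_snd)
    have c3 : ContDiff ℝ ∞ (fun p : PP => X p.2.2) := hX.smooth.comp (contDiff_snd.comp contDiff_snd)
    have e1 : dd eT (fun p : PP => y p.1 * tr n σ p.2.1 * X p.2.2)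
        = fun p => deriv y p.1 * tr n σ p.2.1 * X p.2.2 := by
      rw [dd_mul (c1.mul c2) c3, dd_mul c1 c2, dd_fst (TT_contDiff hy), dd_snd (tr_contDiff n σ),
        dd_trd hX.smooth]
      funext p
      simp [eT]
    have e2 : ∀ τ : Bool, dd eH (fun p : PP => y p.1 * tr n τ p.2.1 * X p.2.2)
        = fun p => (sg τ * n) * (y p.1 * tr n (!τ) p.2.1 * X p.2.2) := by
      intro τ
      have c2 : ContDiff ℝ ∞ (fun p : PP => tr n τ p.2.1) :=
        (tr_contDiff n τ).comp (contDiff_fst.comp contDiff_snd)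
      rw [dd_mul (c1.mul c2) c3, dd_mul c1 c2, dd_fst (TT_contDiff hy), dd_snd (tr_contDiff n τ),
        dd_trd hX.smooth]
      funext p
      beta_reduce
      rw [deriv_tr]
      simp [eH]
      ring
    funext p
    unfold HH
    rw [e1, e2 σ, dd_smul _ ((c1.mul c2').mul c3), e2 (!σ), Bool.not_not]
    have h2 := h1 p.1
    have h3 : sg σ * sg (!σ) = -1 := by cases σ <;> simp [sg]
    unfold gn
    rw [← h2]
    linear_combination (-ν * n ^ 2 * (y p.1 * tr n σ p.2.1 * X p.2.2)) * h3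
  | zero => exact ⟨0, Submodule.zero_mem _, by
      funext p
      unfold HH
      rw [dd_zero, dd_zero, dd_zero]
      simp⟩
  | add x y _ _ h1 h2 =>
    obtain ⟨Z1, hZ1, h1⟩ := h1
    obtain ⟨Z2, hZ2, h2⟩ := h2
    refine ⟨Z1 + Z2, Submodule.add_mem _ hZ1 hZ2, ?_⟩
    rw [← h1, ← h2]
    exact HH_add (PQ_contDiff hZ1) (PQ_contDiff hZ2)
  | smul a x _ h =>
    obtain ⟨Z, hZ, h⟩ := h
    refine ⟨a • Z, Submodule.smul_mem _ _ hZ, ?_⟩
    rw [← h]
    exact HH_smul a (PQ_contDiff hZ)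

/-- the equation for the amplitudes -/
theorem PQ_solve {E : PP → ℝ} (h : E ∈ PQ ν true O) :
    ∃ Z ∈ PQ ν true O, HH ν (dd eH Z) = E := by
  obtain ⟨Y, hY, h1⟩ := PQ_heat h
  obtain ⟨Z, hZ, h2⟩ := PQ_int hY
  exact ⟨Z, hZ, by rw [h2, h1]⟩

/-! ### means -/

theorem PQ_mean {E : PP → ℝ} (h : E ∈ PQ ν z O) :
    ∃ (s : Finset (ℕ × ℕ)) (X : ℕ × ℕ → E3 → ℝ), (∀ a, CS O (X a)) ∧
      (fun p => E p - ∑ a ∈ s, tb ν a.1 a.2 p.1 * X a p.2.2) ∈ PQ ν true O := by
  classical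
  induction h using Submodule.span_induction with
  | mem x h =>
    obtain ⟨j, m, n, σ, X, hn, hX, rfl⟩ := h
    by_cases h0 : n = 0
    · subst h0
      cases σ
      · refine ⟨{(j, m)}, fun _ => X, fun _ => hX, ?_⟩
        have e : (fun p => gn ν j m 0 false X p - ∑ a ∈ {(j, m)}, tb ν a.1 a.2 p.1 * X p.2.2)
            = fun _ => 0 := by
          funext p
          simp [gn, tr]
        rw [e]
        exact PQ_zero
      · refine ⟨∅, fun _ => X, fun _ => hX, ?_⟩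
        have e : (fun p => gn ν j m 0 true X p - ∑ a ∈ ∅, tb ν (a : ℕ × ℕ).1 a.2 p.1 * X p.2.2)
            = fun _ => 0 := by
          funext p
          simp [gn, tr]
        rw [e]
        exact PQ_zero
    · refine ⟨∅, fun _ => X, fun _ => hX, ?_⟩
      simp only [Finset.sum_empty, sub_zero]
      exact gn_mem (fun _ => h0) hX
  | zero => exact ⟨∅, fun _ _ => 0, fun _ => CS.zero, by simpa using PQ_zero⟩
  | add x y _ _ h1 h2 =>
    obtain ⟨s1, X1, hX1, h1⟩ := h1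
    obtain ⟨s2, X2, hX2, h2⟩ := h2
    refine ⟨s1 ∪ s2, fun a x => (if a ∈ s1 then X1 a x else 0) + (if a ∈ s2 then X2 a x else 0),
      fun a => ?_, ?_⟩
    · refine CS.add ?_ ?_
      · split_ifs
        · exact hX1 a
        · exact CS.zero
      · split_ifs
        · exact hX2 a
        · exact CS.zero
    · have e : (fun p : PP => (x + y) p - ∑ a ∈ s1 ∪ s2, tb ν a.1 a.2 p.1
          * ((if a ∈ s1 then X1 a p.2.2 else 0) + (if a ∈ s2 then X2 a p.2.2 else 0)))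
          = fun p => (x p - ∑ a ∈ s1, tb ν a.1 a.2 p.1 * X1 a p.2.2)
            + (y p - ∑ a ∈ s2, tb ν a.1 a.2 p.1 * X2 a p.2.2) := by
        funext p
        have e1 : ∑ a ∈ s1 ∪ s2, tb ν a.1 a.2 p.1 * (if a ∈ s1 then X1 a p.2.2 else 0)
            = ∑ a ∈ s1, tb ν a.1 a.2 p.1 * X1 a p.2.2 := by
          rw [← Finset.sum_subset (Finset.subset_union_left (s₁ := s1) (s₂ := s2))]
          · exact Finset.sum_congr rfl fun a ha => by simp [ha]
          · intro a _ ha; simp [ha]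
        have e2 : ∑ a ∈ s1 ∪ s2, tb ν a.1 a.2 p.1 * (if a ∈ s2 then X2 a p.2.2 else 0)
            = ∑ a ∈ s2, tb ν a.1 a.2 p.1 * X2 a p.2.2 := by
          rw [← Finset.sum_subset (Finset.subset_union_right (s₁ := s1) (s₂ := s2))]
          · exact Finset.sum_congr rfl fun a ha => by simp [ha]
          · intro a _ ha; simp [ha]
        simp only [mul_add, Finset.sum_add_distrib, e1, e2, Pi.add_apply]
        ring
      rw [e]
      exact PQ_add h1 h2
  | smul c x _ h =>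
    obtain ⟨s, X, hX, h⟩ := h
    refine ⟨s, fun a x => c * X a x, fun a => (hX a).const_mul c, ?_⟩
    have e : (fun p : PP => (c • x) p - ∑ a ∈ s, tb ν a.1 a.2 p.1 * (c * X a p.2.2))
        = fun p => c * (x p - ∑ a ∈ s, tb ν a.1 a.2 p.1 * X a p.2.2) := by
      funext p
      simp only [Pi.smul_apply, smul_eq_mul, mul_sub, Finset.mul_sum]
      congr 1
      exact Finset.sum_congr rfl fun a _ => by ring
    rw [e]
    exact PQ_smul c h

end Pool.Agent.T2H10.DN
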