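import Pool.Agent.T2H10.DN.Defs2
import Pool.Agent.T2H10.DN.Mix
import Pool.Agent.T2H10.DN.Pert2
import Pool.Agent.T2H10.DN.Prof2
import Pool.Agent.Y303.NF.Apri

/-!
Bounds for the background flow near the initial time.
-/

set_option autoImplicit false
set_option linter.unusedSectionVars false

open MeasureTheory Set Filter Topology
open scoped InnerProductSpace ENNReal ContDiff

namespace Pool.Agent.T2H10.DN

open H772R2.NS
open H772R2.NSR (Frame prim_cont compat_ext)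
open Pool.Agent.W795.TQ
open Pool.Agent.W790.TQ (toSt)
open Pool.Agent.Y303.RA (Hom hom_tensL)
open Pool.Agent.Y303.NF (ae_le_all young2 energy_bd grad_bd)
open Pool.Agent.Y303.LV (heat cl clj clj_coe lap ibp_lap integral_restrict_of_off jac_off test_off)

namespace Bg

section abs

variable {H K : Type} [NormedAddCommGroup H] [InnerProductSpace ℝ H] [CompleteSpace H]
  [NormedAddCommGroup K] [InnerProductSpace ℝ K] [CompleteSpace K]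
  {W : Submodule ℝ (H × K)} {m : H → K} {C ν T : ℝ} {u u1 : ℝ → H} {z z1 : ℝ → K}

theorem fh_zero : FH T (fun _ => (0 : K)) (fun _ => 0) :=
  ⟨MemLp.zero', fun a b _ _ _ => by simp⟩

theorem abs_bd (Fr : Frame W m C) (hν : 0 < ν) (hT : 0 < T)
    (S : Str W m ν T (fun _ => 0) u u1 z z1) {V0 : H} {Z0 : K} {g : H} {Y : ℝ} (hY0 : 0 ≤ Y)
    (hW : (V0, Z0) ∈ W) (hg : ∀ p ∈ W, ⟪-(ν • Z0) + m V0, p.2⟫_ℝ = ⟪g, p.1⟫_ℝ)
    (hu0 : u 0 = V0) (hY : ∀ᵐ t ∂(volume.restrict (Ioc 0 T)), ‖u1 t‖ ≤ Y) :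
    (∀ t ∈ Icc 0 T, ‖u t‖ ≤ ‖V0‖) ∧ (∀ t ∈ Icc 0 T, ‖z t‖ ^ 2 ≤ 2 * ‖V0‖ * Y / ν) ∧
      (∫ s in (0 : ℝ)..T, ‖z s‖ ^ 2 ≤ ‖V0‖ ^ 2 / ν) ∧ (∀ t ∈ Icc 0 T, ‖u t - V0‖ ≤ Y * t) ∧
      z 0 = Z0 ∧ (∀ t ∈ Icc 0 T, ‖z t - Z0‖ ^ 2 ≤
        4 / (3 * ν) * ((Y + ‖g‖ + 108 * C ^ 2 / ν ^ 3 * ‖Z0‖ ^ 4 * ‖V0‖) * Y) * t) := by
  have hC0 := Fr.C0
  have hzc : ContinuousOn z (Icc 0 T) := prim_cont S.z1m S.pz
  have huc : ContinuousOn u (Icc 0 T) := prim_cont S.u1m S.pu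
  -- energy
  have hen := energy_bd (τ := T) hν continuousOn_const S (E := ‖V0‖) (by
    intro t ht
    rw [hu0]
    simp)
  have hI0 : ∀ t ∈ Icc 0 T, 0 ≤ ∫ s in (0 : ℝ)..t, ‖z s‖ ^ 2 := fun t ht =>
    intervalIntegral.integral_nonneg ht.1 fun s _ => by positivity
  have b1 : ∀ t ∈ Icc 0 T, ‖u t‖ ≤ ‖V0‖ := by
    intro t ht
    have h1 := hen t ht
    have h2 : 0 ≤ ν * ∫ s in (0 : ℝ)..t, ‖z s‖ ^ 2 := mul_nonneg hν.le (hI0 t ht)
    have h3 : ‖u t‖ ^ 2 ≤ ‖V0‖ ^ 2 := by linarith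
    exact (pow_le_pow_iff_left₀ (norm_nonneg _) (norm_nonneg _) (by norm_num)).mp h3
  have b3 : ∫ s in (0 : ℝ)..T, ‖z s‖ ^ 2 ≤ ‖V0‖ ^ 2 / ν := by
    rw [le_div_iff₀ hν]
    have h1 := hen T ⟨hT.le, le_rfl⟩
    have h2 : 0 ≤ ‖u T‖ ^ 2 := by positivity
    linarith
  -- gradient
  have b2 : ∀ t ∈ Icc 0 T, ‖z t‖ ^ 2 ≤ 2 * ‖V0‖ * Y / ν := by
    intro t ht
    have := grad_bd Fr hν hT fh_zero S (E := ‖V0‖) (Φ := 0) (Y := Y) (norm_nonneg _) b1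
      (by intro t _; simp) hY t ht
    simpa using this
  -- the difference of the velocities
  have b4 : ∀ t ∈ Icc 0 T, ‖u t - V0‖ ≤ Y * t := by
    intro t ht
    rw [← hu0, S.pu 0 t le_rfl ht.1 ht.2]
    have h1 := intervalIntegral.norm_integral_le_of_norm_le_const_ae (a := 0) (b := t)
      (f := u1) (C := Y) (by
        rw [uIoc_of_le ht.1]
        rw [ae_restrict_iff' measurableSet_Ioc] at hY
        filter_upwards [hY] with s hs hst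
        exact hs ⟨hst.1, hst.2.trans ht.2⟩)
    rwa [sub_zero, abs_of_nonneg ht.1] at h1
  have b5 : z 0 = Z0 := by
    have h1 : (u 0, z 0) ∈ W := S.mem 0 ⟨le_rfl, hT.le⟩
    rw [hu0] at h1
    have h2 : (V0, z 0) - (V0, Z0) ∈ W := W.sub_mem h1 hW
    have h3 := Fr.uniq _ h2 (by simp)
    simpa [sub_eq_zero] using h3
  refine ⟨b1, b2, b3, b4, b5, ?_⟩
  set c : ℝ := 4 / (3 * ν) * ((Y + ‖g‖ + 108 * C ^ 2 / ν ^ 3 * ‖Z0‖ ^ 4 * ‖V0‖) * Y) with hc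
  have key : ∀ t ∈ Icc 0 T, ‖z t - Z0‖ ^ 2 - c * t ≤ 0 := by
    refine ae_le_all hT ?_ ?_
    · exact ((hzc.sub continuousOn_const).norm.pow 2).sub (continuousOn_const.mul continuousOn_id)
    · obtain ⟨Z, St1⟩ := toSt fh_zero S
      filter_upwards [St1.deriv_weak Fr hT, hY, ae_restrict_mem measurableSet_Ioc] with t h1 h2 ht
      have htI := Ioc_subset_Icc_self ht
      set w : H := u t - V0 with hw
      set y : K := z t - Z0 with hy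
      have hwy : (w, y) ∈ W := W.sub_mem (S.mem t htI) hW
      have e1 := h1 _ hwy
      have e2 := hg _ hwy
      simp only at e1 e2
      have e3 := Fr.anti _ (S.mem t htI) _ hW
      simp only at e3
      rw [← hw, ← hy] at e3
      have e4 : ν * ‖y‖ ^ 2 = -⟪u1 t - g, w⟫_ℝ - ⟪m w, Z0⟫_ℝ := by
        rw [inner_sub_left, e1, ← e2]
        rw [inner_sub_left] at e3
        have e5 : ν * ‖y‖ ^ 2 = ν * ⟪z t, y⟫_ℝ - ν * ⟪Z0, y⟫_ℝ := by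
          rw [← real_inner_self_eq_norm_sq y]
          conv_lhs => rw [hy, inner_sub_left]
          ring
        rw [e5]
        simp only [inner_add_left, inner_sub_left, inner_neg_left, inner_smul_left, inner_zero_left,
          conj_trivial]
        linarith
      have f1 : -⟪u1 t - g, w⟫_ℝ ≤ (Y + ‖g‖) * ‖w‖ := by
        have k1 := abs_real_inner_le_norm (u1 t - g) w
        have k2 := neg_abs_le ⟪u1 t - g, w⟫_ℝ
        have k3 : ‖u1 t - g‖ ≤ Y + ‖g‖ := (norm_sub_le _ _).trans (by linarith)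
        have k4 : ‖u1 t - g‖ * ‖w‖ ≤ (Y + ‖g‖) * ‖w‖ :=
          mul_le_mul_of_nonneg_right k3 (norm_nonneg _)
        linarith
      have f2 : -⟪m w, Z0⟫_ℝ ≤ ‖m w‖ * ‖Z0‖ := by
        have k1 := abs_real_inner_le_norm (m w) Z0
        have k2 := neg_abs_le ⟪m w, Z0⟫_ℝ
        linarith
      have f3 := young2 (a := 0) (b := C) (w := ‖w‖) (y := ‖y‖) (x := ‖Z0‖) (X := ‖m w‖) hν le_rfl
        hC0.le (norm_nonneg _) (norm_nonneg _) (by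
          have := Fr.quart _ hwy
          simp only at this
          refine this.trans (le_of_eq ?_)
          ring)
      have f4 : ‖w‖ ≤ 2 * ‖V0‖ := by
        rw [hw]
        refine (norm_sub_le _ _).trans ?_
        have := b1 t htI
        linarith
      have f5 : ‖w‖ ≤ Y * t := b4 t htI
      have hK0 : 0 ≤ 54 * C ^ 2 / ν ^ 3 * ‖Z0‖ ^ 4 := by positivity
      have f6 : 54 * C ^ 2 / ν ^ 3 * ‖Z0‖ ^ 4 * ‖w‖ ^ 2 ≤
          54 * C ^ 2 / ν ^ 3 * ‖Z0‖ ^ 4 * (2 * ‖V0‖ * ‖w‖) := by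
        refine mul_le_mul_of_nonneg_left ?_ hK0
        rw [pow_two]
        exact mul_le_mul_of_nonneg_right f4 (norm_nonneg _)
      have f7 : 3 / 4 * ν * ‖y‖ ^ 2 ≤
          (Y + ‖g‖ + 108 * C ^ 2 / ν ^ 3 * ‖Z0‖ ^ 4 * ‖V0‖) * ‖w‖ := by
        have k1 : (2 * 0 / ν * ‖Z0‖ ^ 2 + 54 * C ^ 2 / ν ^ 3 * ‖Z0‖ ^ 4) * ‖w‖ ^ 2 =
          54 * C ^ 2 / ν ^ 3 * ‖Z0‖ ^ 4 * ‖w‖ ^ 2 := by ring
        rw [k1] at f3
        have k2 : (Y + ‖g‖ + 108 * C ^ 2 / ν ^ 3 * ‖Z0‖ ^ 4 * ‖V0‖) * ‖w‖ =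
          (Y + ‖g‖) * ‖w‖ + 54 * C ^ 2 / ν ^ 3 * ‖Z0‖ ^ 4 * (2 * ‖V0‖ * ‖w‖) := by ring
        rw [k2]
        linarith
      have hA0 : 0 ≤ Y + ‖g‖ + 108 * C ^ 2 / ν ^ 3 * ‖Z0‖ ^ 4 * ‖V0‖ := by positivity
      have f8 : 3 / 4 * ν * ‖y‖ ^ 2 ≤
          (Y + ‖g‖ + 108 * C ^ 2 / ν ^ 3 * ‖Z0‖ ^ 4 * ‖V0‖) * (Y * t) :=
        f7.trans (mul_le_mul_of_nonneg_left f5 hA0)
      have f9 : ‖y‖ ^ 2 = 4 / (3 * ν) * (3 / 4 * ν * ‖y‖ ^ 2) := by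
        field_simp
      have f10 : ‖y‖ ^ 2 ≤ c * t := by
        rw [f9, hc]
        have k : 4 / (3 * ν) * ((Y + ‖g‖ + 108 * C ^ 2 / ν ^ 3 * ‖Z0‖ ^ 4 * ‖V0‖) * Y) * t =
          4 / (3 * ν) * ((Y + ‖g‖ + 108 * C ^ 2 / ν ^ 3 * ‖Z0‖ ^ 4 * ‖V0‖) * (Y * t)) := by ring
        rw [k]
        exact mul_le_mul_of_nonneg_left f8 (by positivity)
      linarith
  intro t ht
  have := key t ht
  linarith

end abs

/-! ### the right side at the initial time -/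

theorem memLp_toE {Ω : Set E3} {V : VF} (hV : ∀ i, CS Ω (V i)) :
    MemLp (toE V) 2 (volume.restrict Ω) :=
  ((contDiff_toE fun i => (hV i).smooth).continuous.memLp_of_hasCompactSupport
    (toE_compact hV)).restrict Ω

theorem lap_toE {Ω : Set E3} {v : VF} (hv : ∀ i, CS Ω (v i)) (x : E3) (i : Fin 3) :
    lap (toE v) x i = ∑ j, pd j (pd j (v i)) x := by
  unfold lap
  refine Finset.sum_congr rfl fun j _ => ?_
  have e : (fun y => jac (toE v) y (i, j)) = pd j (v i) := by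
    funext y
    exact jac_toE (fun i => (hv i).smooth) y i j
  rw [e]
  rfl

theorem mem_graph {Ω : Set E3} {v : VF} (hv : ∀ i, CS Ω (v i)) (hd : ∀ x, dv v x = 0) :
    (cl Ω (toE v), clj Ω (toE v)) ∈ graphW Ω :=
  Submodule.le_topologicalClosure _ ⟨toE v, test_toE hv hd, cl_coe' (memLp_toE hv),
    clj_coe (test_toE hv hd)⟩

theorem exists_g {Ω : Set E3} (hΩ : IsOpen Ω) (ν : ℝ) {v : VF} (hv : ∀ i, CS Ω (v i))
    (hd : ∀ x, dv v x = 0) : ∃ g : L2V Ω, ∀ p ∈ graphW Ω,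
      ⟪-(ν • clj Ω (toE v)) + tensL (Ω := Ω) (cl Ω (toE v)), p.2⟫_ℝ = ⟪g, p.1⟫_ℝ := by
  have hm : MeasurableSet Ω := hΩ.measurableSet
  have hT : IsTest Ω (toE v) := test_toE hv hd
  choose P hP0 hP using fun i => (hv i).bound
  choose Q hQ0 hQ using fun i j => ((hv i).pd j).bound
  obtain ⟨B, -, hB, -⟩ := exists_mix hΩ hv hd (P := ∑ i, P i) (Q := ∑ i, ∑ j, Q i j)
    (fun i x => (hP i x).trans (Finset.single_le_sum (f := P) (fun i _ => hP0 i)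
      (Finset.mem_univ i)))
    (fun i j x => (hQ i j x).trans ((Finset.single_le_sum (f := fun j => Q i j)
      (fun j _ => hQ0 i j) (Finset.mem_univ j)).trans
      (Finset.single_le_sum (f := fun i => ∑ j, Q i j)
        (fun i _ => Finset.sum_nonneg fun j _ => hQ0 i j) (Finset.mem_univ i))))
  set V0 := cl Ω (toE v) with hV0
  set Z0 := clj Ω (toE v) with hZ0
  have hW : (V0, Z0) ∈ graphW Ω := mem_graph hv hd
  -- the Laplace operator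
  set Lv : VF := fun i x => ∑ j, pd j (pd j (v i)) x with hLv
  have hL : ∀ i, CS Ω (Lv i) := fun i => CS.sum _ fun j _ => ((hv i).pd j).pd j
  have h1 : ∀ p ∈ graphW Ω, ⟪Z0, p.2⟫_ℝ = ⟪-cl Ω (toE Lv), p.1⟫_ℝ := by
    refine compat_ext ?_
    rintro p ⟨ψ, k1, k2, k3⟩
    have e2 : ⟪Z0, p.2⟫_ℝ = ∫ x, ⟪jac (toE v) x, jac ψ x⟫_ℝ := by
      rw [L2.inner_def, ← integral_restrict_of_off hm (fun x hx => by rw [jac_off k1 hx,
        inner_zero_right])]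
      refine integral_congr_ae ?_
      filter_upwards [clj_coe hT, k3] with x c1 c2
      rw [c1, c2]
    have e3 : ⟪cl Ω (toE Lv), p.1⟫_ℝ = ∫ x, ∑ i, lap (toE v) x i * ψ x i := by
      rw [L2.inner_def, ← integral_restrict_of_off hm (fun x hx => by
        rw [test_off k1 hx]; simp)]
      refine integral_congr_ae ?_
      filter_upwards [cl_coe' (memLp_toE hL), k2] with x c1 c2
      rw [c1, c2, inner_E3]
      refine Finset.sum_congr rfl fun i _ => ?_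
      rw [lap_toE hv]
      rfl
    rw [e2, inner_neg_left, e3, ibp_lap hT k1]
  have h2 : ∀ p ∈ graphW Ω, ⟪tensL (Ω := Ω) V0, p.2⟫_ℝ = ⟪-((1 / 2 : ℝ) • B (V0, Z0)), p.1⟫_ℝ := by
    intro p hp
    have e1 := hB _ hW p hp
    simp only at e1
    have e2 : tensL (Ω := Ω) (V0 + V0) = (4 : ℝ) • tensL (Ω := Ω) V0 := by
      have := hom_tensL hm _ hW 2
      simp only at this
      rw [two_smul] at this
      rw [this]
      norm_num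
    rw [e2] at e1
    rw [inner_neg_left, inner_smul_left]
    simp only [inner_sub_left, inner_smul_left, conj_trivial] at e1 ⊢
    linarith
  refine ⟨ν • cl Ω (toE Lv) - (1 / 2 : ℝ) • B (V0, Z0), fun p hp => ?_⟩
  have e1 := h1 p hp
  have e2 := h2 p hp
  rw [inner_neg_left] at e1 e2
  rw [inner_add_left, inner_sub_left, inner_neg_left, inner_smul_left, inner_smul_left, e1, e2]
  simp only [conj_trivial]
  ring

end Bg

/-- TASK A1: bounds for the background flow -/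
theorem bg {Ω : Set E3} (hΩ : IsOpen Ω) (hb : Bornology.IsBounded Ω) {ν : ℝ} (hν : 0 < ν)
    {v : VF} (hv : ∀ i, CS Ω (v i)) (hd : ∀ x, dv v x = 0) {Y : ℝ} (hY : 0 ≤ Y) :
    ∃ C : ℝ, 0 ≤ C ∧ ∀ (T : ℝ) (u u1 : ℝ → L2V Ω) (z z1 : ℝ → L2M Ω), 0 < T →
      Str (graphW Ω) (tensL (Ω := Ω)) ν T (fun _ => 0) u u1 z z1 → u 0 = cl Ω (toE v) →
      (∀ᵐ t ∂(volume.restrict (Ioc 0 T)), ‖u1 t‖ ≤ Y) →
      (∀ t ∈ Icc 0 T, ‖u t‖ ≤ C) ∧ (∀ t ∈ Icc 0 T, ‖z t‖ ≤ C) ∧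
      (∫ s in (0 : ℝ)..T, ‖z s‖ ^ 2 ≤ C) ∧ (∀ t ∈ Icc 0 T, ‖u t - cl Ω (toE v)‖ ≤ C * t) ∧
      (∀ t ∈ Icc 0 T, ‖z t - clj Ω (toE v)‖ ≤ C * √t) ∧ z 0 = clj Ω (toE v) ∧
      ∃ g : L2V Ω, ‖g‖ ≤ C ∧ ∀ p ∈ graphW Ω,
        ⟪-(ν • z 0) + tensL (Ω := Ω) (u 0), p.2⟫_ℝ = ⟪g, p.1⟫_ℝ := by
  obtain ⟨C, Fr⟩ := H772R2.NSR.exists_frame hΩ hb
  obtain ⟨g, hg⟩ := Bg.exists_g hΩ ν hv hd
  have hW := Bg.mem_graph hv hd
  set V0 := cl Ω (toE v) with hV0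
  set Z0 := clj Ω (toE v) with hZ0
  have hC0 := Fr.C0
  set c5 : ℝ := 4 / (3 * ν) * ((Y + ‖g‖ + 108 * C ^ 2 / ν ^ 3 * ‖Z0‖ ^ 4 * ‖V0‖) * Y) with hc5
  have hc50 : 0 ≤ c5 := by positivity
  have p1 : 0 ≤ ‖V0‖ := norm_nonneg _
  have p2 : 0 ≤ √(2 * ‖V0‖ * Y / ν) := Real.sqrt_nonneg _
  have p3 : 0 ≤ ‖V0‖ ^ 2 / ν := by positivity
  have p4 : 0 ≤ √c5 := Real.sqrt_nonneg _
  have p5 : 0 ≤ ‖g‖ := norm_nonneg _
  refine ⟨‖V0‖ + √(2 * ‖V0‖ * Y / ν) + ‖V0‖ ^ 2 / ν + Y + √c5 + ‖g‖, by positivity, ?_⟩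
  intro T u u1 z z1 hT S hu0 hYb
  obtain ⟨b1, b2, b3, b4, b5, b6⟩ := Bg.abs_bd Fr hν hT S hY hW hg hu0 hYb
  rw [← hc5] at b6
  refine ⟨fun t ht => (b1 t ht).trans (by linarith), fun t ht => ?_, b3.trans (by linarith),
    fun t ht => (b4 t ht).trans ?_, fun t ht => ?_, b5, g, by linarith, ?_⟩
  · have h1 : ‖z t‖ ≤ √(2 * ‖V0‖ * Y / ν) := Real.le_sqrt_of_sq_le (b2 t ht)
    linarith
  · exact mul_le_mul_of_nonneg_right (by linarith) ht.1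
  · have h1 : ‖z t - Z0‖ ≤ √(c5 * t) := Real.le_sqrt_of_sq_le (b6 t ht)
    rw [Real.sqrt_mul hc50] at h1
    exact h1.trans (mul_le_mul_of_nonneg_right (by linarith) (Real.sqrt_nonneg _))
  · rw [b5, hu0]
    exact hg

end Pool.Agent.T2H10.DN
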