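import Pool.Agent.T2H10.DN.Defs3
import Pool.Agent.T2H10.DN.Bg

/-!
Bounds for the background flow near the initial time, with a force.
-/

set_option autoImplicit false
set_option linter.unusedSectionVars false

open MeasureTheory Set Filter Topology
open scoped InnerProductSpace ENNReal ContDiff

namespace Pool.Agent.T2H10.DN

open H772R2.NS
open H772R2.NSR (Frame prim_cont compat_ext)
open Pool.Agent.W795.TQ
open Pool.Agent.W790.TQ (toSt)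
open Pool.Agent.Y303.RA (Hom hom_tensL norm_int_sq_le)
open Pool.Agent.Y303.NF (ae_le_all young2 energy_bd grad_bd)
open Pool.Agent.Y303.LV (heat cl clj)

namespace Bg

variable {H K : Type} [NormedAddCommGroup H] [InnerProductSpace ℝ H] [CompleteSpace H]
  [NormedAddCommGroup K] [InnerProductSpace ℝ K] [CompleteSpace K]
  {W : Submodule ℝ (H × K)} {m : H → K} {C ν T : ℝ} {F F1 : ℝ → K} {u u1 : ℝ → H} {z z1 : ℝ → K}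

theorem abs_bdF (Fr : Frame W m C) (hν : 0 < ν) (hT : 0 < T) (hF : FH T F F1)
    (S : Str W m ν T F u u1 z z1) {V0 : H} {Z0 : K} {g : H} {Y Φ E : ℝ} (hY0 : 0 ≤ Y)
    (hΦ0 : 0 ≤ Φ) (hE0 : 0 ≤ E) (hE : E ^ 2 = ‖V0‖ ^ 2 + Φ / ν)
    (hΦ : ∀ t ∈ Icc 0 T, ‖F t‖ ≤ Φ) (hI : ∫ s in (0 : ℝ)..T, ‖F s‖ ^ 2 ≤ Φ)
    (hI1 : ∫ s in (0 : ℝ)..T, ‖F1 s‖ ^ 2 ≤ Φ ^ 2)
    (hW : (V0, Z0) ∈ W) (hg : ∀ p ∈ W, ⟪F 0 - ν • Z0 + m V0, p.2⟫_ℝ = ⟪g, p.1⟫_ℝ)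
    (hu0 : u 0 = V0) (hY : ∀ᵐ t ∂(volume.restrict (Ioc 0 T)), ‖u1 t‖ ≤ Y) :
    (∀ t ∈ Icc 0 T, ‖u t‖ ≤ E) ∧ (∀ t ∈ Icc 0 T, ‖z t‖ ^ 2 ≤ Φ ^ 2 / ν ^ 2 + 2 * E * Y / ν) ∧
      (∫ s in (0 : ℝ)..T, ‖z s‖ ^ 2 ≤ E ^ 2 / ν) ∧ (∀ t ∈ Icc 0 T, ‖u t - V0‖ ≤ Y * t) ∧
      z 0 = Z0 ∧ (∀ t ∈ Icc 0 T, ‖z t - Z0‖ ^ 2 ≤
        2 / ν * ((Y + ‖g‖ + 108 * C ^ 2 / ν ^ 3 * ‖Z0‖ ^ 4 * E) * Y + Φ ^ 2 / ν) * t) := by
  have hC0 := Fr.C0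
  have hzc : ContinuousOn z (Icc 0 T) := prim_cont S.z1m S.pz
  have huc : ContinuousOn u (Icc 0 T) := prim_cont S.u1m S.pu
  have hFc : ContinuousOn F (Icc 0 T) := prim_cont hF.memLp hF.prim
  have hFi : IntervalIntegrable (fun s => ‖F s‖ ^ 2) volume 0 T := by
    refine ContinuousOn.intervalIntegrable ?_
    rw [uIcc_of_le hT.le]
    exact hFc.norm.pow 2
  have hV0E : ‖V0‖ ≤ E := by
    have h1 : ‖V0‖ ^ 2 ≤ E ^ 2 := by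
      rw [hE]
      have : 0 ≤ Φ / ν := by positivity
      linarith
    exact (pow_le_pow_iff_left₀ (norm_nonneg _) hE0 (by norm_num)).mp h1
  -- energy
  have hen := energy_bd (τ := T) hν hFc S (E := E) (by
    intro t ht
    rw [hu0, hE]
    have h1 : ∫ s in (0 : ℝ)..t, ‖F s‖ ^ 2 ≤ ∫ s in (0 : ℝ)..T, ‖F s‖ ^ 2 :=
      intervalIntegral.integral_mono_interval le_rfl ht.1 ht.2
        (Eventually.of_forall fun s => by positivity) hFi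
    have h2 : (∫ s in (0 : ℝ)..t, ‖F s‖ ^ 2) / ν ≤ Φ / ν :=
      div_le_div_of_nonneg_right (h1.trans hI) hν.le
    linarith)
  have hI0 : ∀ t ∈ Icc 0 T, 0 ≤ ∫ s in (0 : ℝ)..t, ‖z s‖ ^ 2 := fun t ht =>
    intervalIntegral.integral_nonneg ht.1 fun s _ => by positivity
  have b1 : ∀ t ∈ Icc 0 T, ‖u t‖ ≤ E := by
    intro t ht
    have h1 := hen t ht
    have h2 : 0 ≤ ν * ∫ s in (0 : ℝ)..t, ‖z s‖ ^ 2 := mul_nonneg hν.le (hI0 t ht)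
    have h3 : ‖u t‖ ^ 2 ≤ E ^ 2 := by linarith
    exact (pow_le_pow_iff_left₀ (norm_nonneg _) hE0 (by norm_num)).mp h3
  have b3 : ∫ s in (0 : ℝ)..T, ‖z s‖ ^ 2 ≤ E ^ 2 / ν := by
    rw [le_div_iff₀ hν]
    have h1 := hen T ⟨hT.le, le_rfl⟩
    have h2 : 0 ≤ ‖u T‖ ^ 2 := by positivity
    linarith
  -- gradient
  have b2 : ∀ t ∈ Icc 0 T, ‖z t‖ ^ 2 ≤ Φ ^ 2 / ν ^ 2 + 2 * E * Y / ν :=
    grad_bd Fr hν hT hF S hE0 b1 hΦ hY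
  -- the difference of the velocities
  have b4 : ∀ t ∈ Icc 0 T, ‖u t - V0‖ ≤ Y * t := by
    intro t ht
    rw [← hu0, S.pu 0 t le_rfl ht.1 ht.2]
    have h1 := intervalIntegral.norm_integral_le_of_norm_le_const_ae (a := 0) (b := t)
      (f := u1) (C := Y) (by
        rw [uIoc_of_le ht.1]
        rw [ae_restrict_iff' measurableSet_Ioc] at hY
        filter_upwards [hY] with s hs hst
        exact hs ⟨hst.1, hst.2.trans ht.2⟩)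
    rwa [sub_zero, abs_of_nonneg ht.1] at h1
  have b5 : z 0 = Z0 := by
    have h1 : (u 0, z 0) ∈ W := S.mem 0 ⟨le_rfl, hT.le⟩
    rw [hu0] at h1
    have h2 : (V0, z 0) - (V0, Z0) ∈ W := W.sub_mem h1 hW
    have h3 := Fr.uniq _ h2 (by simp)
    simpa [sub_eq_zero] using h3
  -- the difference of the forces
  have b6 : ∀ t ∈ Icc 0 T, ‖F t - F 0‖ ^ 2 ≤ t * Φ ^ 2 := by
    intro t ht
    rcases ht.1.eq_or_lt with h0 | h0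
    · rw [← h0]; simp
    rw [hF.prim 0 t le_rfl ht.1 ht.2]
    have h1 := norm_int_sq_le hF.memLp le_rfl h0 ht.2
    rw [sub_zero] at h1
    have hi : IntervalIntegrable (fun s => ‖F1 s‖ ^ 2) volume 0 T := by
      rw [intervalIntegrable_iff_integrableOn_Ioc_of_le hT.le]
      exact (memLp_two_iff_integrable_sq_norm hF.memLp.aestronglyMeasurable).mp hF.memLp
    have h2 : ∫ s in (0 : ℝ)..t, ‖F1 s‖ ^ 2 ≤ ∫ s in (0 : ℝ)..T, ‖F1 s‖ ^ 2 :=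
      intervalIntegral.integral_mono_interval le_rfl ht.1 ht.2
        (Eventually.of_forall fun s => by positivity) hi
    exact h1.trans (mul_le_mul_of_nonneg_left (h2.trans hI1) ht.1)
  refine ⟨b1, b2, b3, b4, b5, ?_⟩
  set c : ℝ := 2 / ν * ((Y + ‖g‖ + 108 * C ^ 2 / ν ^ 3 * ‖Z0‖ ^ 4 * E) * Y + Φ ^ 2 / ν) with hc
  have key : ∀ t ∈ Icc 0 T, ‖z t - Z0‖ ^ 2 - c * t ≤ 0 := by
    refine ae_le_all hT ?_ ?_
    · exact ((hzc.sub continuousOn_const).norm.pow 2).sub (continuousOn_const.mul continuousOn_id)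
    · obtain ⟨Z, St1⟩ := toSt hF S
      filter_upwards [St1.deriv_weak Fr hT, hY, ae_restrict_mem measurableSet_Ioc] with t h1 h2 ht
      have htI := Ioc_subset_Icc_self ht
      set w : H := u t - V0 with hw
      set y : K := z t - Z0 with hy
      have hwy : (w, y) ∈ W := W.sub_mem (S.mem t htI) hW
      have e1 := h1 _ hwy
      have e2 := hg _ hwy
      simp only at e1 e2
      have e3 := Fr.anti _ (S.mem t htI) _ hW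
      simp only at e3
      rw [← hw, ← hy] at e3
      have e4 : ν * ‖y‖ ^ 2 = -⟪u1 t - g, w⟫_ℝ - ⟪m w, Z0⟫_ℝ + ⟪F t - F 0, y⟫_ℝ := by
        rw [inner_sub_left, e1, ← e2]
        rw [inner_sub_left] at e3
        have e5 : ν * ‖y‖ ^ 2 = ν * ⟪z t, y⟫_ℝ - ν * ⟪Z0, y⟫_ℝ := by
          rw [← real_inner_self_eq_norm_sq y]
          conv_lhs => rw [hy, inner_sub_left]
          ring
        rw [e5]
        simp only [inner_add_left, inner_sub_left, inner_smul_left, conj_trivial]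
        linarith
      have f1 : -⟪u1 t - g, w⟫_ℝ ≤ (Y + ‖g‖) * ‖w‖ := by
        have k1 := abs_real_inner_le_norm (u1 t - g) w
        have k2 := neg_abs_le ⟪u1 t - g, w⟫_ℝ
        have k3 : ‖u1 t - g‖ ≤ Y + ‖g‖ := (norm_sub_le _ _).trans (by linarith)
        have k4 : ‖u1 t - g‖ * ‖w‖ ≤ (Y + ‖g‖) * ‖w‖ :=
          mul_le_mul_of_nonneg_right k3 (norm_nonneg _)
        linarith
      have f2 : -⟪m w, Z0⟫_ℝ ≤ ‖m w‖ * ‖Z0‖ := by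
        have k1 := abs_real_inner_le_norm (m w) Z0
        have k2 := neg_abs_le ⟪m w, Z0⟫_ℝ
        linarith
      have f3 := young2 (a := 0) (b := C) (w := ‖w‖) (y := ‖y‖) (x := ‖Z0‖) (X := ‖m w‖) hν le_rfl
        hC0.le (norm_nonneg _) (norm_nonneg _) (by
          have := Fr.quart _ hwy
          simp only at this
          refine this.trans (le_of_eq ?_)
          ring)
      have f4 : ‖w‖ ≤ 2 * E := by
        rw [hw]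
        refine (norm_sub_le _ _).trans ?_
        have := b1 t htI
        linarith
      have f5 : ‖w‖ ≤ Y * t := b4 t htI
      have hK0 : 0 ≤ 54 * C ^ 2 / ν ^ 3 * ‖Z0‖ ^ 4 := by positivity
      have f6 : 54 * C ^ 2 / ν ^ 3 * ‖Z0‖ ^ 4 * ‖w‖ ^ 2 ≤
          54 * C ^ 2 / ν ^ 3 * ‖Z0‖ ^ 4 * (2 * E * ‖w‖) := by
        refine mul_le_mul_of_nonneg_left ?_ hK0
        rw [pow_two]
        exact mul_le_mul_of_nonneg_right f4 (norm_nonneg _)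
      have f0 : ⟪F t - F 0, y⟫_ℝ ≤ ν / 4 * ‖y‖ ^ 2 + Φ ^ 2 / ν * t := by
        have k1 : ⟪F t - F 0, y⟫_ℝ ≤ ‖F t - F 0‖ * ‖y‖ := real_inner_le_norm _ _
        have k2 : 0 ≤ (ν * ‖y‖ - 2 * ‖F t - F 0‖) ^ 2 / (4 * ν) := by positivity
        have k3 : (ν * ‖y‖ - 2 * ‖F t - F 0‖) ^ 2 / (4 * ν) =
            ν / 4 * ‖y‖ ^ 2 - ‖F t - F 0‖ * ‖y‖ + ‖F t - F 0‖ ^ 2 / ν := by
          field_simp; ring
        have k4 : ‖F t - F 0‖ ^ 2 / ν ≤ t * Φ ^ 2 / ν := div_le_div_of_nonneg_right (b6 t htI) hν.le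
        have k5 : t * Φ ^ 2 / ν = Φ ^ 2 / ν * t := by ring
        linarith
      have f7 : ν / 2 * ‖y‖ ^ 2 ≤
          (Y + ‖g‖ + 108 * C ^ 2 / ν ^ 3 * ‖Z0‖ ^ 4 * E) * ‖w‖ + Φ ^ 2 / ν * t := by
        have k1 : (2 * 0 / ν * ‖Z0‖ ^ 2 + 54 * C ^ 2 / ν ^ 3 * ‖Z0‖ ^ 4) * ‖w‖ ^ 2 =
          54 * C ^ 2 / ν ^ 3 * ‖Z0‖ ^ 4 * ‖w‖ ^ 2 := by ring
        rw [k1] at f3
        have k2 : (Y + ‖g‖ + 108 * C ^ 2 / ν ^ 3 * ‖Z0‖ ^ 4 * E) * ‖w‖ =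
          (Y + ‖g‖) * ‖w‖ + 54 * C ^ 2 / ν ^ 3 * ‖Z0‖ ^ 4 * (2 * E * ‖w‖) := by ring
        rw [k2]
        linarith
      have hA0 : 0 ≤ Y + ‖g‖ + 108 * C ^ 2 / ν ^ 3 * ‖Z0‖ ^ 4 * E := by positivity
      have f8 : ν / 2 * ‖y‖ ^ 2 ≤
          (Y + ‖g‖ + 108 * C ^ 2 / ν ^ 3 * ‖Z0‖ ^ 4 * E) * (Y * t) + Φ ^ 2 / ν * t :=
        f7.trans (add_le_add_left (mul_le_mul_of_nonneg_left f5 hA0) _)
      have f9 : ‖y‖ ^ 2 = 2 / ν * (ν / 2 * ‖y‖ ^ 2) := by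
        field_simp
      have f10 : ‖y‖ ^ 2 ≤ c * t := by
        rw [f9, hc]
        have k : 2 / ν * ((Y + ‖g‖ + 108 * C ^ 2 / ν ^ 3 * ‖Z0‖ ^ 4 * E) * Y + Φ ^ 2 / ν) * t =
          2 / ν * ((Y + ‖g‖ + 108 * C ^ 2 / ν ^ 3 * ‖Z0‖ ^ 4 * E) * (Y * t) + Φ ^ 2 / ν * t) := by
            ring
        rw [k]
        exact mul_le_mul_of_nonneg_left f8 (by positivity)
      linarith
  intro t ht
  have := key t ht
  linarith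

end Bg

/-- TASK G3: bounds for the background flow, with a force -/
theorem bgF {Ω : Set E3} (hΩ : IsOpen Ω) (hb : Bornology.IsBounded Ω) {ν : ℝ} (hν : 0 < ν)
    {TT' : Set ℝ} {f f1 : ℝ → L2M Ω} {Φ : ℝ} (hf : ForceB Ω TT' f f1 Φ)
    {v : VF} (hv : ∀ i, CS Ω (v i)) (hd : ∀ x, dv v x = 0) {Y : ℝ} (hY : 0 ≤ Y) :
    ∃ C : ℝ, 0 ≤ C ∧ ∀ T ∈ TT', ∀ (u u1 : ℝ → L2V Ω) (z z1 : ℝ → L2M Ω),
      Str (graphW Ω) (tensL (Ω := Ω)) ν T f u u1 z z1 → u 0 = cl Ω (toE v) →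
      (∀ᵐ t ∂(volume.restrict (Ioc 0 T)), ‖u1 t‖ ≤ Y) →
      (∀ t ∈ Icc 0 T, ‖u t‖ ≤ C) ∧ (∀ t ∈ Icc 0 T, ‖z t‖ ≤ C) ∧
      (∫ s in (0 : ℝ)..T, ‖z s‖ ^ 2 ≤ C) ∧ (∀ t ∈ Icc 0 T, ‖u t - cl Ω (toE v)‖ ≤ C * t) ∧
      (∀ t ∈ Icc 0 T, ‖z t - clj Ω (toE v)‖ ≤ C * √t) ∧ z 0 = clj Ω (toE v) ∧
      ∃ g : L2V Ω, ‖g‖ ≤ C ∧ ∀ p ∈ graphW Ω,
        ⟪f 0 - ν • z 0 + tensL (Ω := Ω) (u 0), p.2⟫_ℝ = ⟪g, p.1⟫_ℝ := by
  obtain ⟨C, Fr⟩ := H772R2.NSR.exists_frame hΩ hb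
  obtain ⟨g0, hg0⟩ := Bg.exists_g hΩ ν hv hd
  obtain ⟨f0, -, hf0⟩ := hf.init
  have hΦ0 := hf.Φ0
  have hW := Bg.mem_graph hv hd
  set V0 := cl Ω (toE v) with hV0
  set Z0 := clj Ω (toE v) with hZ0
  set g : L2V Ω := f0 + g0 with hgdef
  have hg : ∀ p ∈ graphW Ω, ⟪f 0 - ν • Z0 + tensL (Ω := Ω) V0, p.2⟫_ℝ = ⟪g, p.1⟫_ℝ := by
    intro p hp
    have e1 := hg0 p hp
    have e2 := hf0 p hp
    have e3 : ⟪g, p.1⟫_ℝ = ⟪f0, p.1⟫_ℝ + ⟪g0, p.1⟫_ℝ := by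
      rw [hgdef]
      exact inner_add_left _ _ _
    rw [e3, ← e1, ← e2]
    simp only [inner_add_left, inner_sub_left, inner_neg_left]
    ring
  have hC0 := Fr.C0
  set E : ℝ := √(‖V0‖ ^ 2 + Φ / ν) with hEdef
  have hE0 : 0 ≤ E := Real.sqrt_nonneg _
  have hE : E ^ 2 = ‖V0‖ ^ 2 + Φ / ν := Real.sq_sqrt (by positivity)
  set c5 : ℝ := 2 / ν * ((Y + ‖g‖ + 108 * C ^ 2 / ν ^ 3 * ‖Z0‖ ^ 4 * E) * Y + Φ ^ 2 / ν) with hc5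
  have hc50 : 0 ≤ c5 := by positivity
  have p2 : 0 ≤ √(Φ ^ 2 / ν ^ 2 + 2 * E * Y / ν) := Real.sqrt_nonneg _
  have p3 : 0 ≤ E ^ 2 / ν := by positivity
  have p4 : 0 ≤ √c5 := Real.sqrt_nonneg _
  have p5 : 0 ≤ ‖g‖ := norm_nonneg _
  refine ⟨E + √(Φ ^ 2 / ν ^ 2 + 2 * E * Y / ν) + E ^ 2 / ν + Y + √c5 + ‖g‖, by positivity, ?_⟩
  intro T hTT u u1 z z1 S hu0 hYb
  have hT := hf.pos T hTT
  obtain ⟨b1, b2, b3, b4, b5, b6⟩ := Bg.abs_bdF Fr hν hT (hf.fh T hTT) S hY hΦ0 hE0 hE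
    (hf.sup T hTT) (hf.int T hTT) (hf.int1 T hTT) hW hg hu0 hYb
  rw [← hc5] at b6
  refine ⟨fun t ht => (b1 t ht).trans (by linarith), fun t ht => ?_, b3.trans (by linarith),
    fun t ht => (b4 t ht).trans ?_, fun t ht => ?_, b5, g, by linarith, ?_⟩
  · have h1 : ‖z t‖ ≤ √(Φ ^ 2 / ν ^ 2 + 2 * E * Y / ν) := Real.le_sqrt_of_sq_le (b2 t ht)
    linarith
  · exact mul_le_mul_of_nonneg_right (by linarith) ht.1
  · have h1 : ‖z t - Z0‖ ≤ √(c5 * t) := Real.le_sqrt_of_sq_le (b6 t ht)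
    rw [Real.sqrt_mul hc50] at h1
    exact h1.trans (mul_le_mul_of_nonneg_right (by linarith) (Real.sqrt_nonneg _))
  · rw [b5, hu0]
    exact hg

end Pool.Agent.T2H10.DN
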