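import Pool.Agent.T2H10.DN.Exp4
import Pool.Agent.T2H10.DN.StepF
import Pool.Agent.T2H10.DN.OneLayerF
import Pool.Agent.T2H10.DN.DenseMidF
import Pool.Agent.T2H10.DN.HeatFar
import Pool.Agent.T2H10.DN.HeatOsc2
import Pool.Agent.T2H10.DN.HeatQ

/-!
Assembly: all the layers, with a force, in `B^{-1}_{∞,q}`.
-/

set_option autoImplicit false
set_option linter.unusedSectionVars false

open MeasureTheory Set Filter Topology
open scoped InnerProductSpace ENNReal ContDiff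

namespace Pool.Agent.T2H10.DN

open H772R2.NS
open H772R2.NSR (Frame)
open Pool.Agent.W795.TQ
open Pool.Agent.Y303.RA (Hom)
open Pool.Agent.Y303.LV (heat cl clj)

theorem oneF (hloc : S_loc) (hun : S_univ) {ν : ℝ} (hν : 0 < ν) {q : ℝ} (hq : 1 < q) :
    DMF.OneF ν q := by
  refine one_layerF_of (fun Ω hΩ hb TT' f f1 Φ hf U v hv hd Y η η' hY hη hη' hG s X hX C0 hC0 =>
    stepF hloc hun hΩ hb hν hf U hv hd hY hη hη' hG s hX hC0)
    (fun Ω v hv F M hF => layer_expansion2 hν hv hF) hν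
    (heat_layer_q_of heat_far heat_osc2 hq)

theorem dense_midF (hloc : S_loc) (hun : S_univ) {ν : ℝ} (hν : 0 < ν) {q : ℝ} (hq : 2 < q)
    {Ω : Set E3} (hΩ : IsOpen Ω) (hb : Bornology.IsBounded Ω) {TT' : Set ℝ}
    {f f1 : ℝ → L2M Ω} {Φ : ℝ} (hf : ForceB Ω TT' f f1 Φ) {U : ℝ → L2V Ω} {g G : VF}
    (hg : ∀ i, CS Ω (g i)) (hdg : ∀ x, dv g x = 0) {Y : ℝ} (hY : 0 ≤ Y)
    (hgood : GoodF Ω ν TT' f U g Y 0) (hG : IsSum Ω G) {ε : ℝ} (hε : 0 < ε) :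
    ∃ (w : VF) (Y' : ℝ), (∀ i, CS Ω (w i)) ∧ (∀ x, dv w x = 0) ∧ 0 ≤ Y' ∧ Bq q w ε ∧
      GoodF Ω ν TT' f U (fun i x => (g i x + G i x) + w i x) Y' ε :=
  dense_midF_of hq (oneF hloc hun hν (by linarith)) hΩ hb hf hg hdg hY hgood hG hε

end Pool.Agent.T2H10.DN
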