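import Pool.Agent.T2H10.DN.Defs

/-!
Partial derivatives of smooth functions: rules of calculus.
-/

set_option autoImplicit false

open MeasureTheory Set Filter Topology
open scoped InnerProductSpace ENNReal ContDiff

namespace Pool.Agent.T2H10.DN.Ctr

open H772R2.NS

variable {f g : E3 → ℝ}

theorem sm_diff (hf : ContDiff ℝ ∞ f) : Differentiable ℝ f := hf.differentiable (by simp)

theorem sm_pd (hf : ContDiff ℝ ∞ f) (j : Fin 3) : ContDiff ℝ ∞ (pd j f) := by
  unfold pd
  exact (hf.fderiv_right (m := ∞) (by simp)).clm_apply contDiff_const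

theorem pd_add (hf : ContDiff ℝ ∞ f) (hg : ContDiff ℝ ∞ g) (j : Fin 3) (x : E3) :
    pd j (fun y => f y + g y) x = pd j f x + pd j g x := by
  unfold pd
  rw [fderiv_fun_add (sm_diff hf x) (sm_diff hg x)]
  rfl

theorem pd_sub (hf : ContDiff ℝ ∞ f) (hg : ContDiff ℝ ∞ g) (j : Fin 3) (x : E3) :
    pd j (fun y => f y - g y) x = pd j f x - pd j g x := by
  unfold pd
  rw [fderiv_fun_sub (sm_diff hf x) (sm_diff hg x)]
  rfl

theorem pd_neg (j : Fin 3) (x : E3) : pd j (fun y => - f y) x = - pd j f x := by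
  unfold pd
  rw [fderiv_fun_neg]
  rfl

theorem pd_mul (hf : ContDiff ℝ ∞ f) (hg : ContDiff ℝ ∞ g) (j : Fin 3) (x : E3) :
    pd j (fun y => f y * g y) x = pd j f x * g x + f x * pd j g x := by
  unfold pd
  rw [fderiv_fun_mul (sm_diff hf x) (sm_diff hg x)]
  simp only [ContinuousLinearMap.add_apply, ContinuousLinearMap.smul_apply, smul_eq_mul]
  ring

theorem pd_cmul (a : ℝ) (hf : ContDiff ℝ ∞ f) (j : Fin 3) (x : E3) :
    pd j (fun y => a * f y) x = a * pd j f x := by
  unfold pd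
  rw [fderiv_const_mul (sm_diff hf x)]
  rfl

theorem pd_const (a : ℝ) (j : Fin 3) (x : E3) : pd j (fun _ => a) x = 0 := by
  unfold pd
  rw [fderiv_fun_const]
  rfl

theorem pd_comm (hf : ContDiff ℝ ∞ f) (i j : Fin 3) (x : E3) :
    pd i (pd j f) x = pd j (pd i f) x := by
  have hd : DifferentiableAt ℝ (fderiv ℝ f) x :=
    ((hf.fderiv_right (m := ∞) (by simp)).differentiable (by simp)) x
  have h : ∀ i j : Fin 3, pd i (pd j f) x
      = (fderiv ℝ (fderiv ℝ f) x (EuclideanSpace.single i 1)) (EuclideanSpace.single j 1) := by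
    intro i j
    unfold pd
    have := fderiv_clm_apply hd (differentiableAt_const (EuclideanSpace.single j (1 : ℝ)))
    rw [this]
    simp
  rw [h, h]
  have hs : IsSymmSndFDerivAt ℝ f x := by
    apply ContDiffAt.isSymmSndFDerivAt hf.contDiffAt
    simp only [minSmoothness_of_isRCLikeNormedField]
    exact WithTop.coe_le_coe.2 (le_top : (2 : ℕ∞) ≤ ⊤)
  exact hs _ _

theorem pd_sum {ι : Type} (s : Finset ι) {F : ι → E3 → ℝ} (hF : ∀ i, ContDiff ℝ ∞ (F i))
    (j : Fin 3) (x : E3) : pd j (fun y => ∑ i ∈ s, F i y) x = ∑ i ∈ s, pd j (F i) x := by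
  unfold pd
  rw [fderiv_fun_sum fun i _ => sm_diff (hF i) x]
  simp [ContinuousLinearMap.sum_apply]

theorem sm_sum {ι : Type} (s : Finset ι) {F : ι → E3 → ℝ} (hF : ∀ i, ContDiff ℝ ∞ (F i)) :
    ContDiff ℝ ∞ (fun y => ∑ i ∈ s, F i y) := ContDiff.sum fun i _ => hF i

theorem sm_rx (c : E3) (i : Fin 3) : ContDiff ℝ ∞ (rx c i) := by
  unfold rx
  fun_prop

theorem pd_rx (c : E3) (i j : Fin 3) (x : E3) : pd j (rx c i) x = if i = j then 1 else 0 := by
  unfold pd rx
  have h : HasFDerivAt (fun y : E3 => y i - c i)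
      (EuclideanSpace.proj i : E3 →L[ℝ] ℝ) x :=
    ((EuclideanSpace.proj i : E3 →L[ℝ] ℝ).hasFDerivAt).sub_const _
  rw [h.fderiv]
  simp [EuclideanSpace.single_apply]

/-- the squared distance to the centre -/
noncomputable def sq (c : E3) (x : E3) : ℝ := rx c 0 x ^ 2 + rx c 1 x ^ 2 + rx c 2 x ^ 2

theorem sm_sq (c : E3) : ContDiff ℝ ∞ (sq c) := by
  unfold sq
  exact (((sm_rx c 0).pow 2).add ((sm_rx c 1).pow 2)).add ((sm_rx c 2).pow 2)

theorem sq_eq (c x : E3) : sq c x = ‖x - c‖ ^ 2 := by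
  unfold sq rx
  rw [EuclideanSpace.norm_sq_eq, Fin.sum_univ_three]
  simp [sq_abs]

theorem pd_sq (c : E3) (j : Fin 3) (x : E3) : pd j (sq c) x = 2 * rx c j x := by
  have h : sq c = fun y => (rx c 0 y * rx c 0 y + rx c 1 y * rx c 1 y) + rx c 2 y * rx c 2 y := by
    funext y; unfold sq; ring
  have s := sm_rx c
  rw [h, pd_add (((s 0).mul (s 0)).add ((s 1).mul (s 1))) ((s 2).mul (s 2)),
    pd_add ((s 0).mul (s 0)) ((s 1).mul (s 1)), pd_mul (s 0) (s 0), pd_mul (s 1) (s 1),
    pd_mul (s 2) (s 2)]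
  simp only [pd_rx]
  fin_cases j <;> simp <;> ring

theorem sm_comp {h : ℝ → ℝ} (hh : ContDiff ℝ ∞ h) (c : E3) :
    ContDiff ℝ ∞ fun y => h (sq c y) := hh.comp (sm_sq c)

theorem pd_comp {h : ℝ → ℝ} (hh : ContDiff ℝ ∞ h) (c : E3) (j : Fin 3) (x : E3) :
    pd j (fun y => h (sq c y)) x = deriv h (sq c x) * (2 * rx c j x) := by
  unfold pd
  have h1 : HasDerivAt h (deriv h (sq c x)) (sq c x) :=
    ((hh.differentiable (by simp)) _).hasDerivAt
  have h2 : HasFDerivAt (sq c) (fderiv ℝ (sq c) x) x := (sm_diff (sm_sq c) x).hasFDerivAt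
  have h3 := h1.comp_hasFDerivAt x h2
  have h4 : fderiv ℝ (fun y => h (sq c y)) x = deriv h (sq c x) • fderiv ℝ (sq c) x := h3.fderiv
  rw [h4]
  have := pd_sq c j x
  unfold pd at this
  simp only [ContinuousLinearMap.smul_apply, smul_eq_mul, this]

/-- the vector products of the basis vectors with `x - c` -/
noncomputable def bb (c : E3) : Fin 3 → VF :=
  ![![fun _ => 0, fun x => - rx c 2 x, rx c 1], ![rx c 2, fun _ => 0, fun x => - rx c 0 x],
    ![fun x => - rx c 1 x, rx c 0, fun _ => 0]]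

theorem sm_bb (c : E3) (i p : Fin 3) : ContDiff ℝ ∞ (bb c i p) := by
  have s := sm_rx c
  fin_cases i <;> fin_cases p <;> simp only [bb] <;>
    first | exact contDiff_const | exact s _ | exact (s _).neg

/-- the divergence of a tensor of the type `h b_i b_j` -/
theorem div_bb (c : E3) {h : E3 → ℝ} (hh : ContDiff ℝ ∞ h) (i j p : Fin 3) (x : E3) :
    ∑ q, pd q (fun y => h y * (bb c i p y * bb c j q y)) x
      = (∑ q, bb c j q x * pd q h x) * bb c i p x
        + h x * ((if p = j then rx c i x else 0) - (if i = j then rx c p x else 0)) := by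
  have hb := sm_bb c
  have hbb : ∀ q, ContDiff ℝ ∞ fun y => bb c i p y * bb c j q y := fun q => (hb i p).mul (hb j q)
  have e : ∀ q, pd q (fun y => h y * (bb c i p y * bb c j q y)) x
      = pd q h x * (bb c i p x * bb c j q x)
        + h x * (pd q (bb c i p) x * bb c j q x + bb c i p x * pd q (bb c j q) x) := by
    intro q
    rw [pd_mul hh (hbb q), pd_mul (hb i p) (hb j q)]
  simp only [e, Fin.sum_univ_three]
  fin_cases i <;> fin_cases j <;> fin_cases p <;>
    simp [bb, pd_neg, pd_const, pd_rx] <;> ring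

end Pool.Agent.T2H10.DN.Ctr
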