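import Pool.Agent.T2H10.DN.Ctr1

/-!
The tensor whose divergence is the force `FC`.
-/

set_option autoImplicit false

open MeasureTheory Set Filter Topology
open scoped InnerProductSpace ENNReal ContDiff

namespace Pool.Agent.T2H10.DN.Ctr

open H772R2.NS

/-- the symmetric gradient -/
noncomputable def hh (v : VF) (b d : Fin 3) : E3 → ℝ := fun x =>
  1 / 2 * (pd b (v d) x + pd d (v b) x)

theorem sm_hh {v : VF} (hv : ∀ i, ContDiff ℝ ∞ (v i)) (b d : Fin 3) :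
    ContDiff ℝ ∞ (hh v b d) :=
  contDiff_const.mul ((sm_pd (hv d) b).add (sm_pd (hv b) d))

theorem pd_hh {v : VF} (hv : ∀ i, ContDiff ℝ ∞ (v i)) (b d q : Fin 3) (x : E3) :
    pd q (hh v b d) x = 1 / 2 * (pd q (pd b (v d)) x + pd q (pd d (v b)) x) := by
  unfold hh
  rw [pd_cmul _ ((sm_pd (hv d) b).add (sm_pd (hv b) d)), pd_add (sm_pd (hv d) b) (sm_pd (hv b) d)]

theorem sm_cu {v : VF} (hv : ∀ i, ContDiff ℝ ∞ (v i)) (l : Fin 3) : ContDiff ℝ ∞ (cu v l) := by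
  fin_cases l <;> simp only [cu] <;> exact (sm_pd (hv _) _).sub (sm_pd (hv _) _)

theorem pd_cu0 {v : VF} (hv : ∀ i, ContDiff ℝ ∞ (v i)) (q : Fin 3) (x : E3) :
    pd q (cu v 0) x = pd q (pd 1 (v 2)) x - pd q (pd 2 (v 1)) x := by
  show pd q (fun x => pd 1 (v 2) x - pd 2 (v 1) x) x = _
  rw [pd_sub (sm_pd (hv 2) 1) (sm_pd (hv 1) 2)]

theorem pd_cu1 {v : VF} (hv : ∀ i, ContDiff ℝ ∞ (v i)) (q : Fin 3) (x : E3) :
    pd q (cu v 1) x = pd q (pd 2 (v 0)) x - pd q (pd 0 (v 2)) x := by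
  show pd q (fun x => pd 2 (v 0) x - pd 0 (v 2) x) x = _
  rw [pd_sub (sm_pd (hv 0) 2) (sm_pd (hv 2) 0)]

theorem pd_cu2 {v : VF} (hv : ∀ i, ContDiff ℝ ∞ (v i)) (q : Fin 3) (x : E3) :
    pd q (cu v 2) x = pd q (pd 0 (v 1)) x - pd q (pd 1 (v 0)) x := by
  show pd q (fun x => pd 0 (v 1) x - pd 1 (v 0) x) x = _
  rw [pd_sub (sm_pd (hv 1) 0) (sm_pd (hv 0) 1)]

/-- the function `(x - c) · V` -/
noncomputable def xd (c : E3) (V : VF) : E3 → ℝ := fun y => ∑ l, rx c l y * V l y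

theorem sm_xd (c : E3) {V : VF} (hV : ∀ i, ContDiff ℝ ∞ (V i)) : ContDiff ℝ ∞ (xd c V) :=
  sm_sum _ fun l => (sm_rx c l).mul (hV l)

theorem pd_xd (c : E3) {V : VF} (hV : ∀ i, ContDiff ℝ ∞ (V i)) (q : Fin 3) (x : E3) :
    pd q (xd c V) x = V q x + ∑ l, rx c l x * pd q (V l) x := by
  unfold xd
  rw [pd_sum _ fun l => (sm_rx c l).mul (hV l)]
  have e : ∀ l, pd q (fun y => rx c l y * V l y) x
      = (if l = q then V l x else 0) + rx c l x * pd q (V l) x := by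
    intro l
    rw [pd_mul (sm_rx c l) (hV l), pd_rx]
    split_ifs <;> ring
  rw [Finset.sum_congr rfl fun l _ => e l, Finset.sum_add_distrib]
  simp

/-- the tensor -/
noncomputable def RR (c : E3) (v : VF) (p q : Fin 3) : E3 → ℝ := fun y =>
  ∑ b, ∑ d, hh v b d y * (bb c b p y * bb c d q y)

theorem sm_RR (c : E3) {v : VF} (hv : ∀ i, ContDiff ℝ ∞ (v i)) (p q : Fin 3) :
    ContDiff ℝ ∞ (RR c v p q) :=
  sm_sum _ fun b => sm_sum _ fun d => (sm_hh hv b d).mul ((sm_bb c b p).mul (sm_bb c d q))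

theorem FC_eq (c : E3) (v : VF) (p : Fin 3) (x : E3) :
    FC c v p x = -v p x - 1 / 2 * cr (rx c) (fun j => pd j (xd c (cu v))) p x := rfl

theorem formula (c : E3) {v : VF} (hv : ∀ i, ContDiff ℝ ∞ (v i)) (hd : ∀ x, dv v x = 0)
    (p : Fin 3) (x : E3) :
    (∑ q, pd q (RR c v p q) x) - pd p (xd c v) x = FC c v p x := by
  have e1 : (∑ q, pd q (RR c v p q) x) = ∑ b, ∑ d,
      ((∑ q, bb c d q x * (1 / 2 * (pd q (pd b (v d)) x + pd q (pd d (v b)) x))) * bb c b p x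
        + hh v b d x * ((if p = d then rx c b x else 0) - (if b = d then rx c p x else 0))) := by
    have e2 : ∀ q, pd q (RR c v p q) x = ∑ b, ∑ d,
        pd q (fun y => hh v b d y * (bb c b p y * bb c d q y)) x := by
      intro q
      unfold RR
      rw [pd_sum _ fun b => sm_sum _ fun d =>
        (sm_hh hv b d).mul ((sm_bb c b p).mul (sm_bb c d q))]
      refine Finset.sum_congr rfl fun b _ => ?_
      rw [pd_sum _ fun d => (sm_hh hv b d).mul ((sm_bb c b p).mul (sm_bb c d q))]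
    rw [Finset.sum_congr rfl fun q _ => e2 q, Finset.sum_comm]
    refine Finset.sum_congr rfl fun b _ => ?_
    rw [Finset.sum_comm]
    refine Finset.sum_congr rfl fun d _ => ?_
    rw [div_bb c (sm_hh hv b d)]
    simp only [pd_hh hv]
  have hdx := hd x
  unfold dv at hdx
  rw [Fin.sum_univ_three] at hdx
  rw [e1, pd_xd c hv, FC_eq]
  have c10 : ∀ i, pd 1 (pd 0 (v i)) x = pd 0 (pd 1 (v i)) x := fun i => pd_comm (hv i) _ _ x
  have c20 : ∀ i, pd 2 (pd 0 (v i)) x = pd 0 (pd 2 (v i)) x := fun i => pd_comm (hv i) _ _ x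
  have c21 : ∀ i, pd 2 (pd 1 (v i)) x = pd 1 (pd 2 (v i)) x := fun i => pd_comm (hv i) _ _ x
  have g : ∀ j, pd j (xd c (cu v)) x = cu v j x + ∑ l, rx c l x * pd j (cu v l) x :=
    fun j => pd_xd c (sm_cu hv) j x
  fin_cases p
  · simp only [cr, Fin.sum_univ_three, hh, bb]
    simp [g, Fin.sum_univ_three, pd_cu0 hv, pd_cu1 hv, pd_cu2 hv, c10, c20, c21]
    simp only [cu]
    simp
    linear_combination (- rx c 0 x) * hdx
  · simp only [cr, Fin.sum_univ_three, hh, bb]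
    simp [g, Fin.sum_univ_three, pd_cu0 hv, pd_cu1 hv, pd_cu2 hv, c10, c20, c21]
    simp only [cu]
    simp
    linear_combination (- rx c 1 x) * hdx
  · simp only [cr, Fin.sum_univ_three, hh, bb]
    simp [g, Fin.sum_univ_three, pd_cu0 hv, pd_cu1 hv, pd_cu2 hv, c10, c20, c21]
    simp only [cu]
    simp
    linear_combination (- rx c 2 x) * hdx

/-- the force `FC` is smooth and divergence free -/
theorem sm_FC (c : E3) {v : VF} (hv : ∀ i, ContDiff ℝ ∞ (v i)) (p : Fin 3) :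
    ContDiff ℝ ∞ (FC c v p) := by
  have hx := sm_xd c (sm_cu hv)
  have hcr : ∀ p, ContDiff ℝ ∞ (cr (rx c) (fun j => pd j (xd c (cu v))) p) := by
    intro p
    fin_cases p <;> simp only [cr] <;>
      exact ((sm_rx c _).mul (sm_pd hx _)).sub ((sm_rx c _).mul (sm_pd hx _))
  show ContDiff ℝ ∞ (fun x => -v p x - 1 / 2 * cr (rx c) (fun j => pd j (xd c (cu v))) p x)
  exact (hv p).neg.sub (contDiff_const.mul (hcr p))

theorem dv_FC (c : E3) {v : VF} (hv : ∀ i, ContDiff ℝ ∞ (v i)) (hd : ∀ x, dv v x = 0)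
    (x : E3) : dv (FC c v) x = 0 := by
  set f := xd c (cu v) with hf
  have hx : ContDiff ℝ ∞ f := sm_xd c (sm_cu hv)
  have s := sm_rx c
  have key : ∀ (i a b : Fin 3), pd i (fun y => -v i y - 1 / 2 * (rx c a y * pd b f y
      - rx c b y * pd a f y)) x = - pd i (v i) x - 1 / 2 * (((if a = i then 1 else 0) * pd b f x
        + rx c a x * pd i (pd b f) x) - ((if b = i then 1 else 0) * pd a f x
        + rx c b x * pd i (pd a f) x)) := by
    intro i a b
    have h1 := (s a).mul (sm_pd hx b)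
    have h2 := (s b).mul (sm_pd hx a)
    rw [pd_sub (hv i).neg (contDiff_const.mul (h1.sub h2)), pd_neg, pd_cmul _ (h1.sub h2),
      pd_sub h1 h2, pd_mul (s a) (sm_pd hx b), pd_mul (s b) (sm_pd hx a), pd_rx, pd_rx]
  have hdx := hd x
  unfold dv at hdx
  rw [Fin.sum_univ_three] at hdx
  unfold dv
  rw [Fin.sum_univ_three]
  have k0 := key 0 1 2
  have k1 := key 1 2 0
  have k2 := key 2 0 1
  have c10 : pd 1 (pd 0 f) x = pd 0 (pd 1 f) x := pd_comm hx _ _ x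
  have c20 : pd 2 (pd 0 f) x = pd 0 (pd 2 f) x := pd_comm hx _ _ x
  have c21 : pd 2 (pd 1 f) x = pd 1 (pd 2 f) x := pd_comm hx _ _ x
  have e0 : FC c v 0 = fun y => -v 0 y - 1 / 2 * (rx c 1 y * pd 2 f y - rx c 2 y * pd 1 f y) := rfl
  have e1 : FC c v 1 = fun y => -v 1 y - 1 / 2 * (rx c 2 y * pd 0 f y - rx c 0 y * pd 2 f y) := rfl
  have e2 : FC c v 2 = fun y => -v 2 y - 1 / 2 * (rx c 0 y * pd 1 f y - rx c 1 y * pd 0 f y) := rfl
  rw [e0, e1, e2, k0, k1, k2, c10, c20, c21]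
  simp
  linear_combination (-1) * hdx

end Pool.Agent.T2H10.DN.Ctr
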