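import Pool.Agent.T2H10.DN.Defs

/-!
The radial profiles of the layers.
-/

set_option autoImplicit false

open MeasureTheory Set Filter Topology
open scoped InnerProductSpace ENNReal ContDiff

namespace Pool.Agent.T2H10.DN.Ctr

/-- the primitive of a function -/
noncomputable def prim (w : ℝ → ℝ) (t : ℝ) : ℝ := ∫ u in (0 : ℝ)..t, w u

theorem hasDerivAt_prim {w : ℝ → ℝ} (hw : ContDiff ℝ ∞ w) (t : ℝ) :
    HasDerivAt (prim w) (w t) t :=
  (hw.continuous.integral_hasStrictDerivAt 0 t).hasDerivAt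

theorem sm_prim {w : ℝ → ℝ} (hw : ContDiff ℝ ∞ w) : ContDiff ℝ ∞ (prim w) := by
  rw [contDiff_infty_iff_deriv]
  refine ⟨fun t => (hasDerivAt_prim hw t).differentiableAt, ?_⟩
  have : deriv (prim w) = w := funext fun t => (hasDerivAt_prim hw t).deriv
  rw [this]
  exact hw

theorem prim_eq {w : ℝ → ℝ} (hw : ContDiff ℝ ∞ w) {x y : ℝ} (h : ∀ t ∈ uIcc x y, w t = 0) :
    prim w y - prim w x = 0 := by
  unfold prim
  rw [intervalIntegral.integral_interval_sub_left (hw.continuous.intervalIntegrable _ _)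
    (hw.continuous.intervalIntegrable _ _), intervalIntegral.integral_congr (g := fun _ => 0) h]
  simp

/-- the profiles of the layers -/
structure Prof (α β : ℝ) (a σ Q P : ℝ → ℝ) : Prop where
  sa : ContDiff ℝ ∞ a
  sσ : ContDiff ℝ ∞ σ
  sQ : ContDiff ℝ ∞ Q
  sP : ContDiff ℝ ∞ P
  a1 : ∀ s, α ^ 2 ≤ s → s ≤ β ^ 2 → a s = 1
  a0 : ∀ s, s ≤ α ^ 2 / 2 → a s = 0
  a2 : ∀ s, 2 * β ^ 2 ≤ s → a s = 0
  σ1 : ∀ s, α ^ 2 / 64 < s → σ s ^ 2 * s = 1
  σ2 : ∀ s, α ^ 2 / 64 < s → deriv σ s = - σ s ^ 3 / 2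
  Q0 : ∀ s, 2 * β ^ 2 ≤ s → Q s = 0
  P0 : ∀ s, 2 * β ^ 2 ≤ s → P s = 0
  ode : ∀ s, 2 * s * deriv Q s + 5 * Q s = a s ^ 2 - 1024 * a (16 * s) ^ 2
  dP : ∀ s, deriv P s = 2 / 3 * a s ^ 2 + 1024 / 3 * a (16 * s) ^ 2

/-- the cut off of the layers -/
noncomputable def aa (α β s : ℝ) : ℝ :=
  Real.smoothTransition ((s - α ^ 2 / 2) / (α ^ 2 / 2)) *
    Real.smoothTransition ((2 * β ^ 2 - s) / β ^ 2)

theorem sm_aa (α β : ℝ) : ContDiff ℝ ∞ (aa α β) := by
  unfold aa
  have h1 : ContDiff ℝ ∞ fun s : ℝ => (s - α ^ 2 / 2) / (α ^ 2 / 2) := by fun_prop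
  have h2 : ContDiff ℝ ∞ fun s : ℝ => (2 * β ^ 2 - s) / β ^ 2 := by fun_prop
  exact (Real.smoothTransition.contDiff.comp h1).mul (Real.smoothTransition.contDiff.comp h2)

/-- a smooth function which is `1 / √s` away from `0` -/
noncomputable def sg (α s : ℝ) : ℝ :=
  Real.smoothTransition ((s - α ^ 2 / 128) / (α ^ 2 / 128)) / √s

theorem sg_eq {α s : ℝ} (hα : 0 < α) (hs : α ^ 2 / 64 < s) : sg α s = (√s)⁻¹ := by
  unfold sg
  rw [Real.smoothTransition.one_of_one_le, one_div]
  rw [le_div_iff₀ (by positivity)]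
  linarith

theorem sm_sg {α : ℝ} (hα : 0 < α) : ContDiff ℝ ∞ (sg α) := by
  rw [contDiff_iff_contDiffAt]
  intro s
  have hp : 0 < α ^ 2 := by positivity
  by_cases hs : s < α ^ 2 / 128
  · have h : sg α =ᶠ[𝓝 s] fun _ => 0 := by
      filter_upwards [Iio_mem_nhds hs] with t ht
      have ht' : t < α ^ 2 / 128 := ht
      unfold sg
      rw [Real.smoothTransition.zero_of_nonpos, zero_div]
      exact div_nonpos_of_nonpos_of_nonneg (by linarith) (by positivity)
    exact contDiffAt_const.congr_of_eventuallyEq h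
  · have h0 : 0 < s := by linarith
    have h1 : ContDiff ℝ ∞ fun s : ℝ => (s - α ^ 2 / 128) / (α ^ 2 / 128) := by fun_prop
    exact ((Real.smoothTransition.contDiff.comp h1).contDiffAt).div
      (Real.contDiffAt_sqrt h0.ne') (Real.sqrt_pos.2 h0).ne'

theorem hasDerivAt_sg {α s : ℝ} (hα : 0 < α) (hs : α ^ 2 / 64 < s) :
    HasDerivAt (sg α) (- sg α s ^ 3 / 2) s := by
  have hp : 0 < α ^ 2 := by positivity
  have h0 : 0 < s := by linarith
  have hq : 0 < √s := Real.sqrt_pos.2 h0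
  have h : sg α =ᶠ[𝓝 s] fun t => (√t)⁻¹ := by
    filter_upwards [Ioi_mem_nhds hs] with t ht
    exact sg_eq hα ht
  have h1 := (Real.hasDerivAt_sqrt h0.ne').inv hq.ne'
  have h2 := h1.congr_of_eventuallyEq h
  refine h2.congr_deriv ?_
  rw [sg_eq hα hs]
  have : √s ≠ 0 := hq.ne'
  field_simp

theorem exists_prof {α β : ℝ} (hα : 0 < α) (hαβ : α < β) (hβ : β < 2 * α) :
    ∃ a σ Q P, Prof α β a σ Q P := by
  have hα2 : 0 < α ^ 2 := by positivity
  have hβ0 : 0 < β := hα.trans hαβ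
  have hβ2 : 0 < β ^ 2 := by positivity
  have hab : α ^ 2 < β ^ 2 := by nlinarith
  have hba : β ^ 2 < 4 * α ^ 2 := by nlinarith
  have a0 : ∀ s, s ≤ α ^ 2 / 2 → aa α β s = 0 := by
    intro s hs
    unfold aa
    rw [Real.smoothTransition.zero_of_nonpos, zero_mul]
    exact div_nonpos_of_nonpos_of_nonneg (by linarith) (by positivity)
  have a2 : ∀ s, 2 * β ^ 2 ≤ s → aa α β s = 0 := by
    intro s hs
    unfold aa
    rw [mul_comm, Real.smoothTransition.zero_of_nonpos, zero_mul]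
    exact div_nonpos_of_nonpos_of_nonneg (by linarith) (by positivity)
  have a1 : ∀ s, α ^ 2 ≤ s → s ≤ β ^ 2 → aa α β s = 1 := by
    intro s h1 h2
    unfold aa
    rw [Real.smoothTransition.one_of_one_le, Real.smoothTransition.one_of_one_le, one_mul]
    · rw [le_div_iff₀ (by positivity)]
      linarith
    · rw [le_div_iff₀ (by positivity)]
      linarith
  have sa := sm_aa α β
  have ss := sm_sg hα
  set a := aa α β with ha
  set σ := sg α with hσ
  have sw : ContDiff ℝ ∞ fun t : ℝ => t ^ 2 * σ t * a t ^ 2 :=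
    ((contDiff_id.pow 2).mul ss).mul (sa.pow 2)
  set w : ℝ → ℝ := fun t => t ^ 2 * σ t * a t ^ 2 with hw
  have sa2 : ContDiff ℝ ∞ fun t : ℝ => a t ^ 2 := sa.pow 2
  set a' : ℝ → ℝ := fun t => a t ^ 2 with ha'
  have s16 : ContDiff ℝ ∞ fun t : ℝ => 16 * t := by fun_prop
  have d16 : ∀ s : ℝ, HasDerivAt (fun t : ℝ => 16 * t) 16 s := fun s => by
    simpa using (hasDerivAt_id s).const_mul (16 : ℝ)
  -- the function `Q`
  set Q : ℝ → ℝ := fun s => -(1 / 2) * (σ s ^ 5 * (prim w (16 * s) - prim w s)) with hQ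
  have sQ : ContDiff ℝ ∞ Q :=
    contDiff_const.mul ((ss.pow 5).mul (((sm_prim sw).comp s16).sub (sm_prim sw)))
  set P : ℝ → ℝ := fun s => 2 / 3 * (prim a' s - prim a' (2 * β ^ 2))
    + 64 / 3 * (prim a' (16 * s) - prim a' (2 * β ^ 2)) with hP
  have sP : ContDiff ℝ ∞ P :=
    (contDiff_const.mul ((sm_prim sa2).sub contDiff_const)).add
      (contDiff_const.mul (((sm_prim sa2).comp s16).sub contDiff_const))
  refine ⟨a, σ, Q, P, sa, ss, sQ, sP, a1, a0, a2, ?_, fun s hs => (hasDerivAt_sg hα hs).deriv,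
    ?_, ?_, ?_, ?_⟩
  · intro s hs
    have h0 : 0 < s := by linarith
    rw [hσ, sg_eq hα hs, inv_pow, Real.sq_sqrt h0.le]
    exact inv_mul_cancel₀ h0.ne'
  · intro s hs
    have h : prim w (16 * s) - prim w s = 0 := by
      apply prim_eq sw
      intro t ht
      have h1 : s ≤ t := by
        rw [uIcc_of_le (by linarith)] at ht
        exact ht.1
      simp only [hw, a2 t (by linarith)]
      ring
    simp only [hQ, h]
    ring
  · intro s hs
    have h : ∀ t, 2 * β ^ 2 ≤ t → prim a' t - prim a' (2 * β ^ 2) = 0 := by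
      intro t ht
      apply prim_eq sa2
      intro u hu
      rw [uIcc_of_le ht] at hu
      simp only [ha', a2 u hu.1]
      ring
    simp only [hP, h s hs, h (16 * s) (by linarith)]
    ring
  · intro s
    rcases lt_or_ge (α ^ 2 / 64) s with hs | hs
    · have h0 : 0 < s := by linarith
      have h1 := (hasDerivAt_sg hα hs).pow 5
      have h2 : HasDerivAt (fun t => prim w (16 * t)) (w (16 * s) * 16) s :=
        (hasDerivAt_prim sw (16 * s)).comp s (d16 s)
      have h3 := h2.sub (hasDerivAt_prim sw s)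
      have h4 := (h1.mul h3).const_mul (-(1 / 2) : ℝ)
      have h5 : deriv Q s = _ := h4.deriv
      have hq : σ s ^ 2 * s = 1 := by
        rw [hσ, sg_eq hα hs, inv_pow, Real.sq_sqrt h0.le]
        exact inv_mul_cancel₀ h0.ne'
      have h16 : σ (16 * s) = σ s / 4 := by
        rw [hσ, sg_eq hα hs, sg_eq hα (by linarith), Real.sqrt_mul (by norm_num),
          show (16 : ℝ) = 4 ^ 2 by norm_num, Real.sqrt_sq (by norm_num), mul_inv]
        ring
      rw [h5]
      simp only [hQ, hw, h16]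
      simp only [Pi.sub_apply, Pi.pow_apply, ← hσ]
      push_cast
      linear_combination (5 / 2 * σ s ^ 5 * (prim w (16 * s) - prim w s)
        - (1024 * a (16 * s) ^ 2 - a s ^ 2) * ((σ s ^ 2 * s) ^ 2 + σ s ^ 2 * s + 1)) * hq
    · have h : ∀ t, t < α ^ 2 / 32 → Q t = 0 := by
        intro t ht
        have h1 : prim w (16 * t) - prim w t = 0 := by
          apply prim_eq sw
          intro u hu
          have h2 : u ≤ α ^ 2 / 2 := by
            rcases le_total t (16 * t) with h | h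
            · rw [uIcc_of_le h] at hu
              linarith [hu.2]
            · rw [uIcc_of_ge h] at hu
              linarith [hu.2]
          simp only [hw, a0 u h2]
          ring
        simp only [hQ, h1]
        ring
      have h1 : Q =ᶠ[𝓝 s] fun _ => 0 := by
        filter_upwards [Iio_mem_nhds (show s < α ^ 2 / 32 by linarith)] with t ht
        exact h t ht
      rw [h1.deriv_eq, h s (by linarith), a0 s (by linarith), a0 (16 * s) (by linarith)]
      simp
  · intro s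
    have h2 : HasDerivAt (fun t => prim a' (16 * t)) (a' (16 * s) * 16) s :=
      (hasDerivAt_prim sa2 (16 * s)).comp s (d16 s)
    have h3 := ((hasDerivAt_prim sa2 s).sub_const (prim a' (2 * β ^ 2))).const_mul (2 / 3 : ℝ)
    have h4 := (h2.sub_const (prim a' (2 * β ^ 2))).const_mul (64 / 3 : ℝ)
    have h5 : deriv P s = _ := (h3.add h4).deriv
    rw [h5]
    simp only [ha']
    ring

end Pool.Agent.T2H10.DN.Ctr
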