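import Pool.Agent.T2H10.DN.Defs

/-!
Layers around a point: the second difference in the centre.
-/

set_option autoImplicit false
set_option linter.unusedSectionVars false

open MeasureTheory Set Filter Topology
open scoped InnerProductSpace ENNReal ContDiff

namespace Pool.Agent.T2H10.DN

open H772R2.NS

namespace Loc

theorem cd_pd {f : E3 → ℝ} (hf : ContDiff ℝ ∞ f) (j : Fin 3) : ContDiff ℝ ∞ (pd j f) := by
  have h : ContDiff ℝ ∞ (fderiv ℝ f) := hf.fderiv_right (m := ∞) (by norm_num)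
  exact h.clm_apply contDiff_const

theorem pd_add {f g : E3 → ℝ} (hf : ContDiff ℝ ∞ f) (hg : ContDiff ℝ ∞ g) (j : Fin 3) :
    pd j (fun x => f x + g x) = fun x => pd j f x + pd j g x := by
  funext x
  have h1 : DifferentiableAt ℝ f x := hf.differentiable (by norm_num) x
  have h2 : DifferentiableAt ℝ g x := hg.differentiable (by norm_num) x
  unfold pd
  rw [show (fun x => f x + g x) = f + g from rfl, fderiv_add h1 h2]
  rfl

theorem pd_mul_left {f : E3 → ℝ} (hf : ContDiff ℝ ∞ f) (j : Fin 3) (r : ℝ) :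
    pd j (fun x => r * f x) = fun x => r * pd j f x := by
  funext x
  have h1 : DifferentiableAt ℝ f x := hf.differentiable (by norm_num) x
  unfold pd
  rw [fderiv_const_mul h1]
  rfl

theorem pd_sub {f g : E3 → ℝ} (hf : ContDiff ℝ ∞ f) (hg : ContDiff ℝ ∞ g) (j : Fin 3) :
    pd j (fun x => f x - g x) = fun x => pd j f x - pd j g x := by
  funext x
  have h1 : DifferentiableAt ℝ f x := hf.differentiable (by norm_num) x
  have h2 : DifferentiableAt ℝ g x := hg.differentiable (by norm_num) x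
  unfold pd
  rw [show (fun x => f x - g x) = f - g from rfl, fderiv_sub h1 h2]
  rfl

theorem pd_comm {f : E3 → ℝ} (hf : ContDiff ℝ ∞ f) (i j : Fin 3) :
    pd i (pd j f) = pd j (pd i f) := by
  funext x
  have h : ContDiff ℝ ∞ (fderiv ℝ f) := hf.fderiv_right (m := ∞) (by norm_num)
  have hd : DifferentiableAt ℝ (fderiv ℝ f) x := h.differentiable (by norm_num) x
  have e : ∀ a b : Fin 3, pd a (pd b f) x
      = fderiv ℝ (fderiv ℝ f) x (EuclideanSpace.single a 1) (EuclideanSpace.single b 1) := by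
    intro a b
    unfold pd
    rw [fderiv_clm_apply hd (differentiableAt_const _)]
    simp
  rw [e, e]
  have hs : IsSymmSndFDerivAt ℝ f x := by
    refine (hf.contDiffAt).isSymmSndFDerivAt ?_
    rw [minSmoothness_of_isRCLikeNormedField]
    exact WithTop.coe_le_coe.2 (le_top : (2 : ℕ∞) ≤ ⊤)
  exact hs _ _

theorem cs_mono {O P : Set E3} {f : E3 → ℝ} (h : CS O f) (hs : O ⊆ P) : CS P f :=
  ⟨h.smooth, h.compact, h.supp.trans hs⟩

theorem cs_pd {O : Set E3} {f : E3 → ℝ} (h : CS O f) (j : Fin 3) :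
    CS O (pd j f) := by
  have hs : Function.support (pd j f) ⊆ Function.support (fderiv ℝ f) := by
    intro x hx hx'
    apply hx
    unfold pd
    rw [show fderiv ℝ f x = 0 from by simpa using hx']
    simp
  have hs2 : tsupport (pd j f) ⊆ tsupport f :=
    (closure_mono hs).trans ((tsupport_fderiv_subset ℝ (f := f)))
  exact ⟨cd_pd h.smooth j, h.compact.mono' ((subset_tsupport _).trans hs2), hs2.trans h.supp⟩

theorem cs_add {O : Set E3} {f g : E3 → ℝ} (hf : CS O f) (hg : CS O g) :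
    CS O (fun x => f x + g x) :=
  ⟨hf.smooth.add hg.smooth, hf.compact.add hg.compact,
    (tsupport_add (f := f) (g := g)).trans (union_subset hf.supp hg.supp)⟩

theorem cs_mul {O : Set E3} {f : E3 → ℝ} (hf : CS O f) (r : ℝ) :
    CS O (fun x => r * f x) :=
  ⟨contDiff_const.mul hf.smooth, hf.compact.mul_left, (tsupport_mul_subset_right).trans hf.supp⟩

theorem cs_sub {O : Set E3} {f g : E3 → ℝ} (hf : CS O f) (hg : CS O g) :
    CS O (fun x => f x - g x) := by
  have h := cs_add hf (cs_mul hg (-1))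
  have e : (fun x => f x - g x) = fun x => f x + -1 * g x := by
    funext x
    ring
  rw [e]
  exact h

theorem cs_zero (O : Set E3) : CS O (0 : E3 → ℝ) :=
  ⟨contDiff_const, HasCompactSupport.zero, by
    rw [tsupport, Function.support_zero, closure_empty]
    exact empty_subset _⟩

theorem cs_cu {O : Set E3} {V : VF} (h : ∀ i, CS O (V i)) (i : Fin 3) : CS O (cu V i) := by
  fin_cases i
  · exact cs_sub (cs_pd (h 2) 1) (cs_pd (h 1) 2)
  · exact cs_sub (cs_pd (h 0) 2) (cs_pd (h 2) 0)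
  · exact cs_sub (cs_pd (h 1) 0) (cs_pd (h 0) 1)

theorem cd_cu {V : VF} (h : ∀ i, ContDiff ℝ ∞ (V i)) (i : Fin 3) : ContDiff ℝ ∞ (cu V i) := by
  fin_cases i
  · exact (cd_pd (h 2) 1).sub (cd_pd (h 1) 2)
  · exact (cd_pd (h 0) 2).sub (cd_pd (h 2) 0)
  · exact (cd_pd (h 1) 0).sub (cd_pd (h 0) 1)

theorem dv_cu {V : VF} (h : ∀ i, ContDiff ℝ ∞ (V i)) (x : E3) : dv (cu V) x = 0 := by
  unfold dv
  rw [Fin.sum_univ_three]
  have e0 : pd 0 (cu V 0) x = pd 0 (pd 1 (V 2)) x - pd 0 (pd 2 (V 1)) x :=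
    congrFun (pd_sub (cd_pd (h 2) 1) (cd_pd (h 1) 2) 0) x
  have e1 : pd 1 (cu V 1) x = pd 1 (pd 2 (V 0)) x - pd 1 (pd 0 (V 2)) x :=
    congrFun (pd_sub (cd_pd (h 0) 2) (cd_pd (h 2) 0) 1) x
  have e2 : pd 2 (cu V 2) x = pd 2 (pd 0 (V 1)) x - pd 2 (pd 1 (V 0)) x :=
    congrFun (pd_sub (cd_pd (h 1) 0) (cd_pd (h 0) 1) 2) x
  rw [e0, e1, e2, pd_comm (h 2) 0 1, pd_comm (h 1) 0 2, pd_comm (h 0) 1 2]
  ring

theorem isSum_add {Ω : Set E3} {F G : VF} (hF : IsSum Ω F) (hG : IsSum Ω G) :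
    IsSum Ω (fun i x => F i x + G i x) := by
  obtain ⟨n, f, hf, ef⟩ := hF
  obtain ⟨m, g, hg, eg⟩ := hG
  refine ⟨n + m, Fin.append f g, ?_, ?_⟩
  · intro l
    refine Fin.addCases (fun i => ?_) (fun i => ?_) l
    · rw [Fin.append_left]
      exact hf i
    · rw [Fin.append_right]
      exact hg i
  · intro i x
    rw [Fin.sum_univ_add]
    show F i x + G i x = _
    rw [ef, eg]
    simp [Fin.append_left, Fin.append_right]

/-! ### linearity -/

theorem cu_add {V U : VF} (hV : ∀ i, ContDiff ℝ ∞ (V i)) (hU : ∀ i, ContDiff ℝ ∞ (U i))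
    (i : Fin 3) (x : E3) : cu (fun i x => V i x + U i x) i x = cu V i x + cu U i x := by
  have e : ∀ j l, pd j (fun x => V l x + U l x) x = pd j (V l) x + pd j (U l) x :=
    fun j l => congrFun (pd_add (hV l) (hU l) j) x
  fin_cases i <;> simp [cu, e] <;> ring

theorem cu_mul {V : VF} (hV : ∀ i, ContDiff ℝ ∞ (V i)) (r : ℝ) (i : Fin 3) (x : E3) :
    cu (fun i x => r * V i x) i x = r * cu V i x := by
  have e : ∀ j l, pd j (fun x => r * V l x) x = r * pd j (V l) x :=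
    fun j l => congrFun (pd_mul_left (hV l) j r) x
  fin_cases i <;> simp [cu, e] <;> ring

theorem cd_rx (c : E3) (l : Fin 3) : ContDiff ℝ ∞ (rx c l) := by
  have h : ContDiff ℝ ∞ (fun x : E3 => x l) :=
    (EuclideanSpace.proj (𝕜 := ℝ) l : E3 →L[ℝ] ℝ).contDiff
  exact h.sub contDiff_const

/-- the components of `(x - c)·w` -/
theorem cd_dot {w : VF} (hw : ∀ i, ContDiff ℝ ∞ (w i)) (c : E3) :
    ContDiff ℝ ∞ (fun y => ∑ l, rx c l y * w l y) :=
  ContDiff.sum fun l _ => (cd_rx c l).mul (hw l)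

theorem FC_mul {v : VF} (hv : ∀ i, ContDiff ℝ ∞ (v i)) (c : E3) (r : ℝ) (i : Fin 3) (x : E3) :
    FC c (fun i x => r * v i x) i x = r * FC c v i x := by
  have e1 : (fun y => ∑ l, rx c l y * cu (fun i x => r * v i x) l y)
      = fun y => r * ∑ l, rx c l y * cu v l y := by
    funext y
    rw [Finset.mul_sum]
    refine Finset.sum_congr rfl fun l _ => ?_
    rw [cu_mul hv]
    ring
  have e2 : ∀ j, pd j (fun y => ∑ l, rx c l y * cu (fun i x => r * v i x) l y)
      = fun y => r * pd j (fun y => ∑ l, rx c l y * cu v l y) y := by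
    intro j
    rw [e1]
    exact pd_mul_left (cd_dot (cd_cu hv) c) j r
  unfold FC
  simp only [e2]
  fin_cases i <;> simp [cr] <;> ring

/-- `curl (e (e·curl v))` -/
noncomputable def Se (e : Fin 3 → ℝ) (v : VF) : VF :=
  cu (fun i x => e i * ∑ l, e l * cu v l x)

theorem second_aux {A B : E3 → ℝ} (cA : ContDiff ℝ ∞ A) (cB : ContDiff ℝ ∞ B) (v : VF) (c : E3)
    (e : Fin 3 → ℝ) (h : ℝ) (i : Fin 3) (x : E3) :
    h ^ 2 * cu (fun i x => e i * B x) i x
      = (-v i x - 1 / 2 * cr (rx (c + h • WithLp.toLp 2 e))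
            (fun j => pd j (fun y => A y - h * B y)) i x)
        + (-v i x - 1 / 2 * cr (rx (c - h • WithLp.toLp 2 e))
            (fun j => pd j (fun y => A y + h * B y)) i x)
        - 2 * (-v i x - 1 / 2 * cr (rx c) (fun j => pd j A) i x) := by
  have e3 : ∀ j, pd j (fun y => A y - h * B y) = fun y => pd j A y - h * pd j B y := by
    intro j
    rw [pd_sub cA (contDiff_const.mul cB), pd_mul_left cB]
  have e4 : ∀ j, pd j (fun y => A y + h * B y) = fun y => pd j A y + h * pd j B y := by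
    intro j
    rw [pd_add cA (contDiff_const.mul cB), pd_mul_left cB]
  have e5 : ∀ j k, pd j (fun x => e k * B x) = fun x => e k * pd j B x := by
    intro j k
    exact pd_mul_left cB j (e k)
  simp only [e3, e4]
  fin_cases i <;> simp [cu, cr, rx, e5] <;> ring

theorem second_diff {v : VF} (hv : ∀ i, ContDiff ℝ ∞ (v i)) (c : E3) (e : Fin 3 → ℝ) (h : ℝ)
    (i : Fin 3) (x : E3) :
    h ^ 2 * Se e v i x = FC (c + h • WithLp.toLp 2 e) v i x + FC (c - h • WithLp.toLp 2 e) v i x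
      - 2 * FC c v i x := by
  have hw : ∀ i, ContDiff ℝ ∞ (cu v i) := cd_cu hv
  have e1 : (fun y => ∑ l, rx (c + h • WithLp.toLp 2 e) l y * cu v l y)
      = fun y => (∑ l, rx c l y * cu v l y) - h * (∑ l, e l * cu v l y) := by
    funext y
    simp only [rx]
    rw [Finset.mul_sum, ← Finset.sum_sub_distrib]
    refine Finset.sum_congr rfl fun l _ => ?_
    simp
    ring
  have e2 : (fun y => ∑ l, rx (c - h • WithLp.toLp 2 e) l y * cu v l y)
      = fun y => (∑ l, rx c l y * cu v l y) + h * (∑ l, e l * cu v l y) := by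
    funext y
    simp only [rx]
    rw [Finset.mul_sum, ← Finset.sum_add_distrib]
    refine Finset.sum_congr rfl fun l _ => ?_
    simp
    ring
  unfold Se FC
  rw [e1, e2]
  exact second_aux (cd_dot hw c) (ContDiff.sum fun l _ => contDiff_const.mul (hw l)) v c e h i x

/-! ### the fields `f e_p` -/

/-- `f e_p` -/
def ev (p : Fin 3) (f : E3 → ℝ) : VF := fun i => if i = p then f else 0

theorem cs_ev {O : Set E3} {f : E3 → ℝ} (hf : CS O f) (p i : Fin 3) : CS O (ev p f i) := by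
  unfold ev
  split_ifs
  · exact hf
  · exact cs_zero O

theorem cd_ev {f : E3 → ℝ} (hf : ContDiff ℝ ∞ f) (p i : Fin 3) : ContDiff ℝ ∞ (ev p f i) := by
  unfold ev
  split_ifs
  · exact hf
  · exact contDiff_const

theorem pd_zero (j : Fin 3) : pd j (0 : E3 → ℝ) = 0 := by
  funext x
  unfold pd
  simp

theorem pd_zero' (j : Fin 3) : pd j (fun _ => (0 : ℝ)) = 0 := pd_zero j

theorem pd_neg (j : Fin 3) (f : E3 → ℝ) : pd j (fun x => -f x) = fun x => -pd j f x := by
  funext x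
  unfold pd
  rw [fderiv_fun_neg]
  rfl

/-- `curl curl (χ e_a)` -/
noncomputable def ww (χ : E3 → ℝ) (a l : Fin 3) : E3 → ℝ := cu (cu (ev a χ)) l

theorem ww_ne {χ : E3 → ℝ} (hχ : ContDiff ℝ ∞ χ) {a l : Fin 3} (h : l ≠ a) :
    ww χ a l = pd l (pd a χ) := by
  funext x
  fin_cases a <;> fin_cases l <;>
    simp_all [ww, cu, ev, pd_zero, pd_zero', pd_neg] <;>
    first
      | rfl
      | (rw [pd_comm hχ])

theorem ww_symm {χ : E3 → ℝ} (hχ : ContDiff ℝ ∞ χ) {a l : Fin 3} (h : l ≠ a) :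
    ww χ a l = ww χ l a := by
  rw [ww_ne hχ h, ww_ne hχ h.symm, pd_comm hχ]

theorem ww_00 (χ : E3 → ℝ) (x : E3) :
    ww χ 0 0 x = -(pd 1 (pd 1 χ) x + pd 2 (pd 2 χ) x) := by
  simp [ww, cu, ev, pd_zero, pd_zero', pd_neg]
  ring

theorem ww_11 (χ : E3 → ℝ) (x : E3) :
    ww χ 1 1 x = -(pd 0 (pd 0 χ) x + pd 2 (pd 2 χ) x) := by
  simp [ww, cu, ev, pd_zero, pd_zero', pd_neg]
  ring

theorem ww_22 (χ : E3 → ℝ) (x : E3) :
    ww χ 2 2 x = -(pd 0 (pd 0 χ) x + pd 1 (pd 1 χ) x) := by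
  simp [ww, cu, ev, pd_zero, pd_zero', pd_neg]
  ring

theorem cd_ww {χ : E3 → ℝ} (hχ : ContDiff ℝ ∞ χ) (a l : Fin 3) : ContDiff ℝ ∞ (ww χ a l) :=
  cd_cu (cd_cu (cd_ev hχ a)) l

theorem ev_apply (p : Fin 3) (f : E3 → ℝ) (i : Fin 3) (x : E3) :
    ev p f i x = if i = p then f x else 0 := by
  unfold ev
  split_ifs <;> rfl

theorem Se_single {χ : E3 → ℝ} (p a : Fin 3) :
    Se (Pi.single p 1) (cu (ev a χ)) = cu (ev p (ww χ a p)) := by
  unfold Se
  congr 1
  funext i x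
  rw [ev_apply]
  have e : ∑ l, (Pi.single p 1 : Fin 3 → ℝ) l * cu (cu (ev a χ)) l x = ww χ a p x := by
    simp [Pi.single_apply, ww]
  rw [e, Pi.single_apply]
  split_ifs <;> simp

theorem Se_add {χ : E3 → ℝ} (p q a : Fin 3) :
    Se (Pi.single p 1 + Pi.single q 1) (cu (ev a χ))
      = cu (fun i x => ev p (fun x => ww χ a p x + ww χ a q x) i x
        + ev q (fun x => ww χ a p x + ww χ a q x) i x) := by
  unfold Se
  congr 1
  funext i x
  have e : ∑ l, (Pi.single p 1 + Pi.single q 1 : Fin 3 → ℝ) l * cu (cu (ev a χ)) l x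
      = ww χ a p x + ww χ a q x := by
    simp [Pi.single_apply, add_mul, Finset.sum_add_distrib, ww]
  rw [e, ev_apply, ev_apply, Pi.add_apply, Pi.single_apply, Pi.single_apply]
  split_ifs <;> ring

theorem key {χ : E3 → ℝ} (hχ : ContDiff ℝ ∞ χ) {p q : Fin 3} (h : q ≠ p) (i : Fin 3) (x : E3) :
    cu (ev q (ww χ p p)) i x = Se (Pi.single p 1 + Pi.single q 1) (cu (ev p χ)) i x
      + (-1 * Se (Pi.single p 1) (cu (ev p χ)) i x
      + (-1 * Se (Pi.single q 1) (cu (ev p χ)) i x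
      + -1 * Se (Pi.single p 1) (cu (ev q χ)) i x)) := by
  have hc : ∀ a b, ContDiff ℝ ∞ (ww χ a b) := cd_ww hχ
  have e1 := cu_add (cd_ev (hc p p) q) (cd_ev (hc p p) p) i x
  have e2 := cu_add (cd_ev (hc p q) q) (cd_ev (hc q p) p) i x
  have e3 := cu_add (V := fun i x => ev q (ww χ p p) i x + ev p (ww χ p p) i x)
    (U := fun i x => ev q (ww χ p q) i x + ev p (ww χ q p) i x)
    (fun j => (cd_ev (hc p p) q j).add (cd_ev (hc p p) p j))
    (fun j => (cd_ev (hc p q) q j).add (cd_ev (hc q p) p j)) i x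
  rw [Se_single, Se_single, Se_single, Se_add]
  have e4 : (fun i x => (fun i x => ev q (ww χ p p) i x + ev p (ww χ p p) i x) i x
      + (fun i x => ev q (ww χ p q) i x + ev p (ww χ q p) i x) i x)
      = fun i x => ev p (fun x => ww χ p p x + ww χ p q x) i x
        + ev q (fun x => ww χ p p x + ww χ p q x) i x := by
    funext j y
    rw [ww_symm hχ h]
    unfold ev
    by_cases h1 : j = p
    · subst h1
      simp [h.symm]
    · by_cases h2 : j = q
      · subst h2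
        simp [h1]
      · simp [h1, h2]
  rw [e4] at e3
  rw [e3, e1, e2]
  ring

theorem pd00 {χ : E3 → ℝ} (hχ : ContDiff ℝ ∞ χ) (q i : Fin 3) (x : E3) :
    cu (ev q (pd 0 (pd 0 χ))) i x = 1 / 2 * cu (ev q (ww χ 0 0)) i x
      + (-(1 / 2) * cu (ev q (ww χ 1 1)) i x + -(1 / 2) * cu (ev q (ww χ 2 2)) i x) := by
  have hc : ∀ a b, ContDiff ℝ ∞ (ww χ a b) := cd_ww hχ
  have m : ∀ a b (r : ℝ) j, ContDiff ℝ ∞ (fun x => r * ev q (ww χ a b) j x) := fun a b r j =>
    contDiff_const.mul (cd_ev (hc a b) q j)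
  rw [← cu_mul (cd_ev (hc 0 0) q), ← cu_mul (cd_ev (hc 1 1) q), ← cu_mul (cd_ev (hc 2 2) q),
    ← cu_add (m 1 1 (-(1 / 2))) (m 2 2 (-(1 / 2))),
    ← cu_add (m 0 0 (1 / 2)) (fun j => (m 1 1 (-(1 / 2)) j).add (m 2 2 (-(1 / 2)) j))]
  congr 2
  funext j y
  simp only [ev_apply, ww_00, ww_11, ww_22]
  split_ifs <;> ring

/-! ### the predicate -/

/-- all the multiples are sums of layers -/
def Q (Ω : Set E3) (F : VF) : Prop := ∀ r : ℝ, IsSum Ω (fun i x => r * F i x)

theorem Q_add {Ω : Set E3} {F G : VF} (hF : Q Ω F) (hG : Q Ω G) :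
    Q Ω (fun i x => F i x + G i x) := by
  intro r
  have h := isSum_add (hF r) (hG r)
  have e : (fun (i : Fin 3) (x : E3) => r * (F i x + G i x))
      = fun i x => r * F i x + r * G i x := by
    funext i x
    ring
  rw [e]
  exact h

theorem Q_mul {Ω : Set E3} {F : VF} (hF : Q Ω F) (s : ℝ) : Q Ω (fun i x => s * F i x) := by
  intro r
  have e : (fun (i : Fin 3) (x : E3) => r * (s * F i x)) = fun i x => r * s * F i x := by
    funext i x
    ring
  rw [e]
  exact hF (r * s)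

theorem Q_congr {Ω : Set E3} {F G : VF} (hF : Q Ω F) (h : ∀ i x, G i x = F i x) : Q Ω G := by
  have e : G = F := by
    funext i x
    exact h i x
  rw [e]
  exact hF

theorem Q_final {Ω : Set E3} {χ : E3 → ℝ} (hχ : ContDiff ℝ ∞ χ)
    (h1 : ∀ p a, Q Ω (Se (Pi.single p 1) (cu (ev a χ))))
    (h2 : ∀ p q a, p ≠ q → Q Ω (Se (Pi.single p 1 + Pi.single q 1) (cu (ev a χ)))) (q : Fin 3) :
    Q Ω (cu (ev q (pd 0 (pd 0 χ)))) := by
  have h3 : ∀ p, Q Ω (cu (ev q (ww χ p p))) := by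
    intro p
    by_cases h : q = p
    · subst h
      have := h1 q q
      rwa [Se_single] at this
    · refine Q_congr ?_ (key hχ h)
      exact Q_add (h2 p q p (Ne.symm h)) (Q_add (Q_mul (h1 p p) (-1))
        (Q_add (Q_mul (h1 q p) (-1)) (Q_mul (h1 p q) (-1))))
  refine Q_congr ?_ (pd00 hχ q)
  exact Q_add (Q_mul (h3 0) _) (Q_add (Q_mul (h3 1) _) (Q_mul (h3 2) _))

theorem dv_mul {v : VF} (hv : ∀ i, ContDiff ℝ ∞ (v i)) (hd : ∀ x, dv v x = 0) (r : ℝ) (x : E3) :
    dv (fun i x => r * v i x) x = 0 := by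
  have h := hd x
  unfold dv at h ⊢
  have e : ∀ i, pd i (fun x => r * v i x) x = r * pd i (v i) x := fun i =>
    congrFun (pd_mul_left (hv i) i r) x
  simp only [e]
  rw [← Finset.mul_sum, h, mul_zero]

/-- The statement of `lay_center`. -/
def LC (Ω : Set E3) : Prop := ∀ (c : E3) (α β : ℝ), 0 < α → β < 2 * α →
  Metric.closedBall c (2 * β) ⊆ Ω → ∀ v : VF,
    (∀ i, CS {x : E3 | α < ‖x - c‖ ∧ ‖x - c‖ < β ∧ ∀ i, x i ≠ c i} (v i)) →
      (∀ x, dv v x = 0) → IsSum Ω (FC c v)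

theorem centers {Ω : Set E3} (lc : LC Ω) {x0 : E3} {ρ : ℝ} (hρ : 0 < ρ)
    (hball : Metric.closedBall x0 (20 * ρ) ⊆ Ω) {v : VF}
    (hv : ∀ i, CS (Metric.ball x0 (ρ / 10)) (v i)) (hd : ∀ x, dv v x = 0) {c : E3}
    (hc : ∀ i, |c i - (x0 i - ρ)| ≤ ρ / 10) : Q Ω (FC c v) := by
  have hcc : ∀ i, x0 i - c i ∈ Icc (9 / 10 * ρ) (11 / 10 * ρ) := by
    intro i
    have := abs_le.1 (hc i)
    exact ⟨by linarith [this.2], by linarith [this.1]⟩
  have hn : ∀ y : E3, ‖y‖ ^ 2 = y 0 ^ 2 + y 1 ^ 2 + y 2 ^ 2 := by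
    intro y
    rw [EuclideanSpace.norm_sq_eq, Fin.sum_univ_three]
    simp
  have hsq : ∀ t : ℝ, ∀ a b : ℝ, 0 ≤ a → t ∈ Icc a b → a ^ 2 ≤ t ^ 2 ∧ t ^ 2 ≤ b ^ 2 := by
    intro t a b ha ht
    exact ⟨pow_le_pow_left₀ ha ht.1 2, pow_le_pow_left₀ (ha.trans ht.1) ht.2 2⟩
  have hsub : Metric.ball x0 (ρ / 10)
      ⊆ {x : E3 | 13 / 10 * ρ < ‖x - c‖ ∧ ‖x - c‖ < 22 / 10 * ρ ∧ ∀ i, x i ≠ c i} := by
    intro x hx
    have hx1 : ‖x - x0‖ < ρ / 10 := by simpa [dist_eq_norm] using hx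
    have hxi : ∀ i, |x i - x0 i| ≤ ρ / 10 := by
      intro i
      have h1 : ‖(x - x0) i‖ ≤ ‖x - x0‖ := PiLp.norm_apply_le (x - x0) i
      have h2 : (x - x0) i = x i - x0 i := rfl
      rw [h2, Real.norm_eq_abs] at h1
      linarith
    have hxc : ∀ i, (x - c) i ∈ Icc (8 / 10 * ρ) (12 / 10 * ρ) := by
      intro i
      have h1 := abs_le.1 (hxi i)
      have h2 := hcc i
      have h3 : (x - c) i = x i - c i := rfl
      rw [h3]
      exact ⟨by linarith [h1.1, h2.1], by linarith [h1.2, h2.2]⟩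
    have k0 := hsq _ _ _ (by positivity) (hxc 0)
    have k1 := hsq _ _ _ (by positivity) (hxc 1)
    have k2 := hsq _ _ _ (by positivity) (hxc 2)
    have k := hn (x - c)
    refine ⟨?_, ?_, ?_⟩
    · refine lt_of_pow_lt_pow_left₀ 2 (norm_nonneg _) ?_
      nlinarith [k0.1, k1.1, k2.1, sq_nonneg ρ, mul_pos hρ hρ]
    · refine lt_of_pow_lt_pow_left₀ 2 (by positivity) ?_
      nlinarith [k0.2, k1.2, k2.2, sq_nonneg ρ, mul_pos hρ hρ]
    · intro i h
      have h1 := (hxc i).1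
      have h3 : (x - c) i = x i - c i := rfl
      rw [h3, h, sub_self] at h1
      linarith
  have hcx : ‖c - x0‖ ≤ 2 * ρ := by
    have k0 := hsq _ _ _ (by positivity) (hcc 0)
    have k1 := hsq _ _ _ (by positivity) (hcc 1)
    have k2 := hsq _ _ _ (by positivity) (hcc 2)
    have k := hn (x0 - c)
    have e : ∀ i, (x0 - c) i = x0 i - c i := fun i => rfl
    rw [e, e, e] at k
    rw [norm_sub_rev]
    refine le_of_sq_le_sq ?_ (by positivity)
    nlinarith [k0.2, k1.2, k2.2, sq_nonneg ρ, mul_pos hρ hρ]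
  intro r
  have e : (fun i x => r * FC c v i x) = FC c (fun i x => r * v i x) := by
    funext i x
    rw [FC_mul fun i => (hv i).smooth]
  rw [e]
  refine lc c (13 / 10 * ρ) (22 / 10 * ρ) (by positivity) (by linarith) ?_ _
    (fun i => cs_mono (cs_mul (hv i) r) hsub) (dv_mul (fun i => (hv i).smooth) hd r)
  refine (Metric.closedBall_subset_closedBall' ?_).trans hball
  rw [dist_eq_norm]
  linarith

end Loc

open Loc in
theorem lay_local_of {Ω : Set E3} (hΩ : IsOpen Ω) (lc : Loc.LC Ω) {x0 : E3} (hx : x0 ∈ Ω) :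
    ∃ δ : ℝ, 0 < δ ∧ ∀ χ : E3 → ℝ, CS (Metric.ball x0 δ) χ → ∀ p : Fin 3,
      IsSum Ω (cu (fun i => if i = p then pd 0 (pd 0 χ) else 0)) := by
  obtain ⟨ε, hε, hball⟩ := Metric.isOpen_iff.1 hΩ x0 hx
  set ρ : ℝ := ε / 30 with hρ
  have hρ0 : 0 < ρ := by positivity
  have hb : Metric.closedBall x0 (20 * ρ) ⊆ Ω :=
    (Metric.closedBall_subset_ball (by rw [hρ]; linarith)).trans hball
  refine ⟨ρ / 10, by positivity, fun χ hχ p => ?_⟩
  set c : E3 := x0 - ρ • WithLp.toLp 2 (fun _ => (1 : ℝ)) with hc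
  have hci : ∀ i, c i = x0 i - ρ := by
    intro i
    simp [hc]
  have hS : ∀ (e : Fin 3 → ℝ), (∀ i, |e i| ≤ 1) → ∀ a,
      Q Ω (Se e (cu (ev a χ))) := by
    intro e he a
    have hv : ∀ i, CS (Metric.ball x0 (ρ / 10)) (cu (ev a χ) i) :=
      cs_cu (cs_ev hχ a)
    have hd : ∀ x, dv (cu (ev a χ)) x = 0 := dv_cu fun i => (cs_ev hχ a i).smooth
    have hh : ρ / 10 ≠ 0 := by positivity
    have hcent : ∀ c' : E3, (∀ i, |c' i - (x0 i - ρ)| ≤ ρ / 10) → Q Ω (FC c' (cu (ev a χ))) :=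
      fun c' h => centers lc hρ0 hb hv hd h
    have q1 := hcent (c + (ρ / 10) • WithLp.toLp 2 e) (by
      intro i
      have e1 : (c + (ρ / 10) • WithLp.toLp 2 e : E3) i = c i + ρ / 10 * e i := rfl
      rw [e1, hci, add_sub_cancel_left, abs_mul, abs_of_pos (by positivity : (0 : ℝ) < ρ / 10)]
      exact mul_le_of_le_one_right (by positivity) (he i))
    have q2 := hcent (c - (ρ / 10) • WithLp.toLp 2 e) (by
      intro i
      have e1 : (c - (ρ / 10) • WithLp.toLp 2 e : E3) i = c i - ρ / 10 * e i := rfl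
      rw [e1, hci, sub_sub_cancel_left, abs_neg, abs_mul,
        abs_of_pos (by positivity : (0 : ℝ) < ρ / 10)]
      exact mul_le_of_le_one_right (by positivity) (he i))
    have q3 := hcent c (by
      intro i
      rw [hci, sub_self, abs_zero]
      positivity)
    refine Q_congr (Q_mul (Q_add q1 (Q_add q2 (Q_mul q3 (-2)))) ((ρ / 10) ^ 2)⁻¹) ?_
    intro i x
    have h := second_diff (fun i => (hv i).smooth) c e (ρ / 10) i x
    rw [eq_inv_mul_iff_mul_eq₀ (pow_ne_zero 2 hh), h]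
    ring
  have hfin := Q_final (Ω := Ω) hχ.smooth (fun p a => hS _ (by
    intro i
    rw [Pi.single_apply]
    split_ifs <;> simp) a) (fun p q a hpq => hS _ (by
    intro i
    rw [Pi.add_apply, Pi.single_apply, Pi.single_apply]
    by_cases h1 : i = p
    · have h2 : i ≠ q := fun h => hpq (h1.symm.trans h)
      simp [h1, hpq]
    · by_cases h2 : i = q
      · simp [h2, Ne.symm hpq]
      · simp [h1, h2]) a) p 1
  have e : (fun i x => 1 * cu (ev p (pd 0 (pd 0 χ))) i x)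
      = cu (fun i => if i = p then pd 0 (pd 0 χ) else 0) := by
    funext i x
    rw [one_mul]
    rfl
  rw [e] at hfin
  exact hfin

end Pool.Agent.T2H10.DN
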