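import Pool.Agent.T2H10.DN.Ctr2
import Pool.Agent.T2H10.DN.Ctr3
import Pool.Agent.T2H10.DN.Local

/-!
The three layers around a centre.
-/

set_option autoImplicit false

open MeasureTheory Set Filter Topology
open scoped InnerProductSpace ENNReal ContDiff

namespace Pool.Agent.T2H10.DN.Ctr

open H772R2.NS

/-- the region of the flow -/
def UU (c : E3) (α β : ℝ) : Set E3 := {x : E3 | α < ‖x - c‖ ∧ ‖x - c‖ < β ∧ ∀ i, x i ≠ c i}

theorem cs_mul_at {U : Set E3} {f g : E3 → ℝ} (hf : CS U f) (hg : ∀ x ∈ U, ContDiffAt ℝ ∞ g x) :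
    CS U (fun x => f x * g x) := by
  refine ⟨?_, hf.compact.mul_right, (tsupport_mul_subset_left).trans hf.supp⟩
  rw [contDiff_iff_contDiffAt]
  intro x
  by_cases hx : x ∈ tsupport f
  · exact hf.smooth.contDiffAt.mul (hg x (hf.supp hx))
  · have h := notMem_tsupport_iff_eventuallyEq.1 hx
    have h1 : (fun x => f x * g x) =ᶠ[𝓝 x] fun _ => 0 := by
      filter_upwards [h] with y hy
      rw [hy]
      simp
    exact contDiffAt_const.congr_of_eventuallyEq h1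

theorem cs_of_zero {W K : Set E3} (hK : IsCompact K) (hKW : K ⊆ W) {f : E3 → ℝ}
    (hf : ContDiff ℝ ∞ f) (h0 : ∀ x, x ∉ K → f x = 0) : CS W f := by
  refine ⟨hf, HasCompactSupport.intro hK h0, ?_⟩
  refine (closure_minimal ?_ hK.isClosed).trans hKW
  intro x hx
  by_contra h
  exact hx (h0 x h)

theorem cs_zero_of {U : Set E3} {f : E3 → ℝ} (hf : CS U f) {x : E3} (hx : x ∉ U) : f x = 0 := by
  by_contra h
  exact hx (hf.supp (subset_tsupport _ h))

theorem exists_root {e11 e12 e22 : E3 → ℝ} (h11 : ContDiff ℝ ∞ e11) (h12 : ContDiff ℝ ∞ e12)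
    (h22 : ContDiff ℝ ∞ e22) (b11 : ∀ x, |e11 x| ≤ 1 / 4) (b12 : ∀ x, |e12 x| ≤ 1 / 4)
    (b22 : ∀ x, |e22 x| ≤ 1 / 4) :
    ∃ f g h : E3 → ℝ, ContDiff ℝ ∞ f ∧ ContDiff ℝ ∞ g ∧ ContDiff ℝ ∞ h ∧
      (∀ x, f x ^ 2 = 1 + e11 x) ∧ (∀ x, f x * g x = e12 x) ∧
      ∀ x, g x ^ 2 + h x ^ 2 = 1 + e22 x := by
  have p1 : ∀ x, 3 / 4 ≤ 1 + e11 x := fun x => by linarith [(abs_le.1 (b11 x)).1]
  have p1' : ∀ x, 0 < 1 + e11 x := fun x => by linarith [p1 x]
  have q1 : ∀ x, e12 x ^ 2 / (1 + e11 x) ≤ 1 / 12 := by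
    intro x
    rw [div_le_iff₀ (p1' x)]
    have := sq_le_sq' (by linarith [(abs_le.1 (b12 x)).1]) (abs_le.1 (b12 x)).2
    nlinarith [p1 x]
  have p2 : ∀ x, 0 < 1 + e22 x - e12 x ^ 2 / (1 + e11 x) := fun x => by
    linarith [(abs_le.1 (b22 x)).1, q1 x]
  have s1 : ContDiff ℝ ∞ fun x => 1 + e11 x := contDiff_const.add h11
  have s2 : ContDiff ℝ ∞ fun x => 1 + e22 x - e12 x ^ 2 / (1 + e11 x) :=
    (contDiff_const.add h22).sub ((h12.pow 2).div s1 fun x => (p1' x).ne')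
  have s3 : ContDiff ℝ ∞ fun x => √(1 + e11 x) := s1.sqrt fun x => (p1' x).ne'
  refine ⟨fun x => √(1 + e11 x), fun x => e12 x / √(1 + e11 x),
    fun x => √(1 + e22 x - e12 x ^ 2 / (1 + e11 x)), s3,
    h12.div s3 fun x => (Real.sqrt_pos.2 (p1' x)).ne', s2.sqrt fun x => (p2 x).ne', ?_, ?_, ?_⟩
  · intro x
    exact Real.sq_sqrt (p1' x).le
  · intro x
    exact mul_div_cancel₀ _ (Real.sqrt_pos.2 (p1' x)).ne'
  · intro x
    simp only
    rw [Real.sq_sqrt (p2 x).le, div_pow, Real.sq_sqrt (p1' x).le]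
    ring

/-- the reduced form -/
noncomputable def EE (c : E3) (v : VF) (k p q : Fin 3) : E3 → ℝ := fun x =>
  hh v p q x - (rx c p x * (hh v q k x * (rx c k x)⁻¹) + rx c q x * (hh v p k x * (rx c k x)⁻¹))
    + rx c p x * rx c q x * (hh v k k x * ((rx c k x)⁻¹) ^ 2)

theorem cs_hh {U : Set E3} {v : VF} (hv : ∀ i, CS U (v i)) (b d : Fin 3) : CS U (hh v b d) :=
  Loc.cs_mul (Loc.cs_add (Loc.cs_pd (hv d) b) (Loc.cs_pd (hv b) d)) (1 / 2)

theorem cs_smul {U : Set E3} {f g : E3 → ℝ} (hf : CS U f) (hg : ContDiff ℝ ∞ g) :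
    CS U (fun x => g x * f x) := by
  have h := cs_mul_at hf fun x _ => hg.contDiffAt (x := x)
  have e : (fun x => g x * f x) = fun x => f x * g x := by
    funext x
    ring
  rw [e]
  exact h

theorem cs_EE (c : E3) {α β : ℝ} {v : VF} (hv : ∀ i, CS (UU c α β) (v i)) (k p q : Fin 3) :
    CS (UU c α β) (EE c v k p q) := by
  have hr : ∀ x ∈ UU c α β, ContDiffAt ℝ ∞ (fun x => (rx c k x)⁻¹) x := by
    intro x hx
    refine (sm_rx c k).contDiffAt.inv ?_
    have := hx.2.2 k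
    unfold rx
    exact sub_ne_zero.2 this
  have h1 : ∀ a b, CS (UU c α β) fun x => hh v a b x * (rx c k x)⁻¹ := fun a b =>
    cs_mul_at (cs_hh hv a b) hr
  have h2 : CS (UU c α β) fun x => hh v k k x * ((rx c k x)⁻¹) ^ 2 :=
    cs_mul_at (cs_hh hv k k) fun x hx => (hr x hx).pow 2
  exact Loc.cs_add (Loc.cs_sub (cs_hh hv p q) (Loc.cs_add (cs_smul (h1 q k) (sm_rx c p))
    (cs_smul (h1 p k) (sm_rx c q)))) (cs_smul h2 ((sm_rx c p).mul (sm_rx c q)))

theorem bound_EE (c : E3) {α β : ℝ} {v : VF} (hv : ∀ i, CS (UU c α β) (v i)) (k p q : Fin 3) :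
    ∃ M : ℝ, ∀ x, |EE c v k p q x| ≤ M := by
  have h := cs_EE c hv k p q
  obtain ⟨M, hM⟩ := h.compact.exists_bound_of_continuous h.smooth.continuous
  exact ⟨M, hM⟩

theorem bb_orth (c : E3) (l : Fin 3) (x : E3) : ∑ q, bb c l q x * rx c q x = 0 := by
  fin_cases l <;> simp [bb, Fin.sum_univ_three] <;> ring

theorem bb_sum (c : E3) (p : Fin 3) (x : E3) : ∑ l, rx c l x * bb c l p x = 0 := by
  fin_cases p <;> simp [bb, Fin.sum_univ_three] <;> ring

theorem hh_symm (v : VF) (b d : Fin 3) (x : E3) : hh v b d x = hh v d b x := by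
  unfold hh
  ring

theorem star (c : E3) {α β : ℝ} {a : ℝ → ℝ} (h1 : ∀ s, α ^ 2 ≤ s → s ≤ β ^ 2 → a s = 1)
    (hα : 0 < α) {v : VF} (hv : ∀ i, CS (UU c α β) (v i)) (k i j : Fin 3)
    (hs : ∀ f : Fin 3 → ℝ, ∑ p, f p = f k + f i + f j) (p q : Fin 3) (x : E3) :
    a (sq c x) ^ 2 * (EE c v k i i x * (bb c i p x * bb c i q x)
      + EE c v k i j x * (bb c i p x * bb c j q x + bb c j p x * bb c i q x)
      + EE c v k j j x * (bb c j p x * bb c j q x)) = RR c v p q x := by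
  unfold RR
  simp only [hs]
  by_cases hx : x ∈ UU c α β
  · have h0 : a (sq c x) = 1 := by
      apply h1
      · rw [sq_eq]
        exact pow_le_pow_left₀ hα.le hx.1.le 2
      · rw [sq_eq]
        exact pow_le_pow_left₀ (norm_nonneg _) hx.2.1.le 2
    have hk : rx c k x ≠ 0 := sub_ne_zero.2 (hx.2.2 k)
    have e : ∀ r, bb c k r x = -((rx c k x)⁻¹ * (rx c i x * bb c i r x + rx c j x * bb c j r x)) := by
      intro r
      have h := bb_sum c r x
      rw [hs] at h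
      field_simp
      linear_combination h
    unfold EE
    set t := (rx c k x)⁻¹ with ht
    rw [h0, e p, e q, hh_symm v i k x, hh_symm v j k x, hh_symm v j i x]
    ring
  · have h0 : ∀ b d, hh v b d x = 0 := fun b d => cs_zero_of (cs_hh hv b d) hx
    unfold EE
    simp only [h0]
    ring

/-- the force of the unperturbed layer -/
noncomputable def GG (Q : ℝ → ℝ) (c : E3) (k p : Fin 3) : E3 → ℝ := fun x =>
  2 * (deriv Q (sq c x) * (rx c p x * (rx c k x * rx c k x))) + Q (sq c x) * rx c p x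
    - (if p = k then 1 else 0) * ((2 * (sq c x * deriv Q (sq c x)) + 3 * Q (sq c x)) * rx c k x)

theorem sm_deriv {Q : ℝ → ℝ} (hQ : ContDiff ℝ ∞ Q) : ContDiff ℝ ∞ (deriv Q) :=
  (contDiff_infty_iff_deriv.1 hQ).2

theorem sm_GG {Q : ℝ → ℝ} (hQ : ContDiff ℝ ∞ Q) (c : E3) (k p : Fin 3) :
    ContDiff ℝ ∞ (GG Q c k p) := by
  have s := sm_rx c
  have q0 := sm_comp hQ c
  have q1 := sm_comp (sm_deriv hQ) c
  exact ((contDiff_const.mul (q1.mul ((s p).mul ((s k).mul (s k))))).add (q0.mul (s p))).sub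
    (contDiff_const.mul (((contDiff_const.mul ((sm_sq c).mul q1)).add
      (contDiff_const.mul q0)).mul (s k)))

theorem pd_GG {Q : ℝ → ℝ} (hQ : ContDiff ℝ ∞ Q) (c : E3) (k p : Fin 3) (x : E3) :
    pd p (GG Q c k p) x =
      2 * (deriv (deriv Q) (sq c x) * (2 * rx c p x) * (rx c p x * (rx c k x * rx c k x))
        + deriv Q (sq c x) * (rx c k x * rx c k x
          + rx c p x * ((if k = p then 1 else 0) * rx c k x + rx c k x * (if k = p then 1 else 0))))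
      + (deriv Q (sq c x) * (2 * rx c p x) * rx c p x + Q (sq c x))
      - (if p = k then 1 else 0) * ((2 * (2 * rx c p x * deriv Q (sq c x)
          + sq c x * (deriv (deriv Q) (sq c x) * (2 * rx c p x)))
        + 3 * (deriv Q (sq c x) * (2 * rx c p x))) * rx c k x
        + (2 * (sq c x * deriv Q (sq c x)) + 3 * Q (sq c x)) * (if k = p then 1 else 0)) := by
  have s := sm_rx c
  have q0 := sm_comp hQ c
  have q1 := sm_comp (sm_deriv hQ) c
  have a1 := (s k).mul (s k)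
  have a2 := (s p).mul a1
  have a3 := q1.mul a2
  have a4 : ContDiff ℝ ∞ _ := (contDiff_const (c := (2 : ℝ))).mul a3
  have a5 := q0.mul (s p)
  have b1 := (sm_sq c).mul q1
  have b2 : ContDiff ℝ ∞ _ := (contDiff_const (c := (2 : ℝ))).mul b1
  have b3 : ContDiff ℝ ∞ _ := (contDiff_const (c := (3 : ℝ))).mul q0
  have b4 := b2.add b3
  have b5 := b4.mul (s k)
  have b6 : ContDiff ℝ ∞ _ := (contDiff_const (c := (if p = k then (1 : ℝ) else 0))).mul b5
  unfold GG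
  rw [pd_sub (a4.add a5) b6, pd_add a4 a5, pd_cmul _ a3, pd_mul q1 a2, pd_mul (s p) a1,
    pd_mul (s k) (s k), pd_mul q0 (s p), pd_cmul _ b5, pd_mul b4 (s k), pd_add b2 b3,
    pd_cmul _ b1, pd_mul (sm_sq c) q1, pd_cmul _ q0, pd_comp hQ, pd_comp (sm_deriv hQ), pd_rx, pd_rx,
    pd_sq]
  simp

theorem dv_GG {Q : ℝ → ℝ} (hQ : ContDiff ℝ ∞ Q) (c : E3) (k : Fin 3) (x : E3) :
    ∑ p, pd p (GG Q c k p) x = 0 := by
  have h : sq c x = rx c 0 x ^ 2 + rx c 1 x ^ 2 + rx c 2 x ^ 2 := rfl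
  simp only [pd_GG hQ, Fin.sum_univ_three]
  set Q0 := Q (sq c x)
  set Q1 := deriv Q (sq c x)
  set Q2 := deriv (deriv Q) (sq c x)
  rw [h]
  fin_cases k <;> simp <;> ring

end Pool.Agent.T2H10.DN.Ctr
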