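import Pool.Agent.Y303.LV.PubDef
import Pool.Agent.H772R2.NS.Space3

/-!
Vector fields given by their components, smooth functions with compact support, layers of waves.
-/

set_option autoImplicit false
set_option linter.unusedSectionVars false

open MeasureTheory Set Filter Topology
open scoped InnerProductSpace ENNReal ContDiff

namespace Pool.Agent.T2H10.DN

open H772R2.NS

/-- vector fields, given by their components -/
abbrev VF := Fin 3 → E3 → ℝ

/-- the partial derivative -/
noncomputable def pd (j : Fin 3) (f : E3 → ℝ) (x : E3) : ℝ :=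
  fderiv ℝ f x (EuclideanSpace.single j 1)

/-- smooth functions with compact support in `O` -/
structure CS (O : Set E3) (f : E3 → ℝ) : Prop where
  smooth : ContDiff ℝ ∞ f
  compact : HasCompactSupport f
  supp : tsupport f ⊆ O

/-- the field with values in `E3` -/
def toE (V : VF) (x : E3) : E3 := WithLp.toLp 2 fun i => V i x

/-- the divergence -/
noncomputable def dv (V : VF) (x : E3) : ℝ := ∑ i, pd i (V i) x

/-- the curl -/
noncomputable def cu (V : VF) : VF :=
  ![fun x => pd 1 (V 2) x - pd 2 (V 1) x, fun x => pd 2 (V 0) x - pd 0 (V 2) x,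
    fun x => pd 0 (V 1) x - pd 1 (V 0) x]

/-- the cross product -/
def cr (V U : VF) : VF :=
  ![fun x => V 1 x * U 2 x - V 2 x * U 1 x, fun x => V 2 x * U 0 x - V 0 x * U 2 x,
    fun x => V 0 x * U 1 x - V 1 x * U 0 x]

/-- `F` is the mean force of a layer of waves with the phase `φ` and the amplitudes `A` and `B`. -/
def IsLay (Ω : Set E3) (F : VF) : Prop :=
  ∃ (φ : E3 → ℝ) (O : Set E3) (A B : VF) (q : E3 → ℝ), ContDiff ℝ ∞ φ ∧ IsOpen O ∧
    (∀ x ∈ O, ∑ j, pd j φ x ^ 2 = 1) ∧ (∀ i, CS (Ω ∩ O) (A i)) ∧ (∀ i, CS (Ω ∩ O) (B i)) ∧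
    CS Ω q ∧ (∀ x, ∑ j, A j x * pd j φ x = 0) ∧ (∀ x, ∑ j, B j x * pd j φ x = 0) ∧
    (∀ i x, F i x = (∑ j, pd j (fun y => A i y * A j y + B i y * B j y) x) + pd i q x) ∧
    ∀ x, dv F x = 0

/-- finite sums of layers -/
def IsSum (Ω : Set E3) (F : VF) : Prop :=
  ∃ (n : ℕ) (G : Fin n → VF), (∀ l, IsLay Ω (G l)) ∧ ∀ i x, F i x = ∑ l, G l i x

/-- the field `x - c` -/
def rx (c : E3) : VF := fun i x => x i - c i

/-- `-v - (x - c) × ∇((x - c)·curl v) / 2` -/
noncomputable def FC (c : E3) (v : VF) : VF := fun i x =>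
  -v i x - 1 / 2 * cr (rx c) (fun j => pd j (fun y => ∑ l, rx c l y * cu v l y)) i x

end Pool.Agent.T2H10.DN
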