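import Pool.Agent.T2H10.DN.Prof
import Pool.Agent.Y303.LV.Fin

/-!
Layers with a bound for the amplitudes, residuals, families of waves, good initial velocities.
-/

set_option autoImplicit false
set_option linter.unusedSectionVars false

open MeasureTheory Set Filter Topology
open scoped InnerProductSpace ENNReal ContDiff

namespace Pool.Agent.T2H10.DN

open H772R2.NS
open Pool.Agent.W795.TQ
open Pool.Agent.Y303.LV (cl clj)

/-- a layer with a bound for the amplitudes -/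
def LayM (Ω : Set E3) (F : VF) (M : ℝ) : Prop :=
  ∃ (φ : E3 → ℝ) (O : Set E3) (A B : VF) (q : E3 → ℝ), ContDiff ℝ ∞ φ ∧ IsOpen O ∧
    (∀ x ∈ O, ∑ j, pd j φ x ^ 2 = 1) ∧ (∀ i, CS (Ω ∩ O) (A i)) ∧ (∀ i, CS (Ω ∩ O) (B i)) ∧
    CS Ω q ∧ (∀ x, ∑ j, A j x * pd j φ x = 0) ∧ (∀ x, ∑ j, B j x * pd j φ x = 0) ∧
    (∀ i x, F i x = (∑ j, pd j (fun y => A i y * A j y + B i y * B j y) x) + pd i q x) ∧
    (∀ x, dv F x = 0) ∧ (∀ i x, |A i x| ≤ M) ∧ ∀ i x, |B i x| ≤ M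

/-- the residual of the Navier-Stokes equations for the perturbation `D` of `v` -/
noncomputable def Rs (ν : ℝ) (v D D1 : VF) : VF := fun i x =>
  D1 i x - ν * ∑ j, pd j (pd j (D i)) x + ∑ j, (v j x + D j x) * pd j (D i) x
    + ∑ j, D j x * pd j (v i) x

/-- the properties of the wave `D` (with the derivative `D1` in time) for the number `k` -/
structure Fam (Ω : Set E3) (ν : ℝ) (v : VF) (s : Finset (ℕ × ℕ)) (X S : ℕ × ℕ → VF)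
    (C0 C k : ℝ) (K : Set E3) (D D1 : ℝ → VF) : Prop where
  smooth : ∀ i, ContDiff ℝ ∞ (fun q : ℝ × E3 => D q.1 i q.2)
  smooth1 : ∀ i, ContDiff ℝ ∞ (fun q : ℝ × E3 => D1 q.1 i q.2)
  der : ∀ i t x, HasDerivAt (fun t => D t i x) (D1 t i x) t
  off : ∀ i t x, x ∉ K → D t i x = 0
  off1 : ∀ i t x, x ∉ K → D1 t i x = 0
  div : ∀ t x, dv (D t) x = 0
  le0 : ∀ i t x, 0 ≤ t → |D t i x| ≤ (C0 * k + C) * Real.exp (-(ν / 2 * k ^ 2) * t)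
  le1 : ∀ i j t x, 0 ≤ t → |pd j (D t i) x| ≤ C * k ^ 2 * Real.exp (-(ν / 2 * k ^ 2) * t)
  le2 : ∀ i t x, 0 ≤ t →
    |D1 t i x| ≤ (C0 * k ^ 3 + C * k ^ 2) * Real.exp (-(ν / 2 * k ^ 2) * t)
  res : ∀ t, 0 ≤ t → ∃ π : E3 → ℝ, CS Ω π ∧ ∀ i x,
    |Rs ν v (D t) (D1 t) i x - pd i π x
      - k * ∑ a ∈ s, tb ν a.1 a.2 (k ^ 2 * t) * (X a i x - S a i x)|
        ≤ C * Real.exp (-(ν / 2 * k ^ 2) * t)

/-- the initial velocity `v` has strong solutions on all intervals, with a common bound -/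
def GoodS (Ω : Set E3) (ν : ℝ) (v : VF) (Y η : ℝ) : Prop :=
  ∀ T : ℝ, 0 < T → ∃ (u u1 : ℝ → L2V Ω) (z z1 : ℝ → L2M Ω),
    Str (graphW Ω) (tensL (Ω := Ω)) ν T (fun _ => 0) u u1 z z1 ∧ u 0 = cl Ω (toE v) ∧
    (∀ᵐ t ∂(volume.restrict (Ioc 0 T)), ‖u1 t‖ ≤ Y) ∧ ∀ t ∈ Icc 0 T, η ≤ t → ‖u t‖ ≤ η

end Pool.Agent.T2H10.DN
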