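import Pool.Agent.T2H10.DN.Defs2

/-!
Definitions for the version with forces and the norms of `B^{-1}_{∞,q}`.
-/

set_option autoImplicit false
set_option linter.unusedSectionVars false

open MeasureTheory Set Filter Topology
open scoped InnerProductSpace ENNReal ContDiff

namespace Pool.Agent.T2H10.DN

open H772R2.NS
open Pool.Agent.W795.TQ
open Pool.Agent.Y303.LV (heat cl clj)

/-- a bound for `∫ (√s sup |e^{sΔ} w|)^q ds/s`, by a majorant -/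
def Bq (q : ℝ) (w : VF) (E : ℝ) : Prop :=
  ∃ a : ℝ → ℝ, Measurable a ∧ (∀ s, 0 ≤ a s) ∧
    (∀ (s : ℝ) (x : E3), 0 < s → √s * ‖(heat s (toE w) x : E3)‖ ≤ a s) ∧
    IntegrableOn (fun s => a s ^ q * s⁻¹) (Ioi 0) ∧ ∫ s in Ioi (0 : ℝ), a s ^ q * s⁻¹ ≤ E

/-- the horizons `T` and the forces -/
structure ForceB (Ω : Set E3) (TT' : Set ℝ) (f f1 : ℝ → L2M Ω) (Φ : ℝ) : Prop where
  pos : ∀ T ∈ TT', 0 < T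
  Φ0 : 0 ≤ Φ
  fh : ∀ T ∈ TT', FH T f f1
  sup : ∀ T ∈ TT', ∀ t ∈ Icc 0 T, ‖f t‖ ≤ Φ
  int : ∀ T ∈ TT', ∫ s in (0 : ℝ)..T, ‖f s‖ ^ 2 ≤ Φ
  int1 : ∀ T ∈ TT', ∫ s in (0 : ℝ)..T, ‖f1 s‖ ^ 2 ≤ Φ ^ 2
  init : ∃ f0 : L2V Ω, ‖f0‖ ≤ Φ ∧ ∀ p ∈ graphW Ω, ⟪f 0, p.2⟫_ℝ = ⟪f0, p.1⟫_ℝ

/-- the initial velocity `v` has strong solutions on `[0, T]` for all `T` in `TT'`, with a common
bound, close to `U` after the time `η` -/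
def GoodF (Ω : Set E3) (ν : ℝ) (TT' : Set ℝ) (f : ℝ → L2M Ω) (U : ℝ → L2V Ω) (v : VF)
    (Y η : ℝ) : Prop :=
  ∀ T ∈ TT', ∃ (u u1 : ℝ → L2V Ω) (z z1 : ℝ → L2M Ω),
    Str (graphW Ω) (tensL (Ω := Ω)) ν T f u u1 z z1 ∧ u 0 = cl Ω (toE v) ∧
    (∀ᵐ t ∂(volume.restrict (Ioc 0 T)), ‖u1 t‖ ≤ Y) ∧ ∀ t ∈ Icc 0 T, η ≤ t → ‖u t - U t‖ ≤ η

end Pool.Agent.T2H10.DN
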