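import Pool.Agent.T2H10.DN.Prof2

/-!
Evaluation of profiles and the lifted differential operators.
-/

set_option autoImplicit false
set_option linter.unusedSectionVars false

open MeasureTheory Set Filter Topology
open scoped InnerProductSpace ENNReal ContDiff

namespace Pool.Agent.T2H10.DN

open H772R2.NS

variable {ν k t : ℝ} {O Ω : Set E3} {z : Bool} {φ : E3 → ℝ}

/-- fields of profiles -/
abbrev PV := Fin 3 → PP → ℝ

/-- evaluation at the fast variables -/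
noncomputable def ev (φ : E3 → ℝ) (k t : ℝ) (E : PP → ℝ) (x : E3) : ℝ := E (k ^ 2 * t, k * φ x, x)

/-- the gradient of the phase -/
noncomputable def nn (φ : E3 → ℝ) : PV := fun j p => pd j φ p.2.2

/-- functions of the position -/
def px (g : E3 → ℝ) : PP → ℝ := fun p => g p.2.2

/-- the lifted derivative -/
noncomputable def dl (φ : E3 → ℝ) (k : ℝ) (j : Fin 3) (E : PP → ℝ) (p : PP) : ℝ :=
  k * nn φ j p * dd eH E p + dd (eX j) E p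

theorem px_contDiff {g : E3 → ℝ} (hg : ContDiff ℝ ∞ g) : ContDiff ℝ ∞ (px g) :=
  hg.comp (contDiff_snd.comp contDiff_snd)

theorem nn_contDiff (hφ : ContDiff ℝ ∞ φ) (j : Fin 3) : ContDiff ℝ ∞ (nn φ j) :=
  px_contDiff (pd_contDiff hφ j)

theorem eH_px {g : E3 → ℝ} (hg : ContDiff ℝ ∞ g) : dd eH (px g) = fun _ => 0 := by
  unfold px
  rw [dd_trd hg]
  funext p
  simp [eH]

theorem eT_px {g : E3 → ℝ} (hg : ContDiff ℝ ∞ g) : dd eT (px g) = fun _ => 0 := by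
  unfold px
  rw [dd_trd hg]
  funext p
  simp [eT]

theorem eX_px {g : E3 → ℝ} (hg : ContDiff ℝ ∞ g) (j : Fin 3) :
    dd (eX j) (px g) = px (pd j g) := by
  unfold px
  rw [dd_trd hg]
  rfl

theorem hasFDerivAt_arg (hφ : ContDiff ℝ ∞ φ) (x : E3) :
    HasFDerivAt (fun x : E3 => ((k ^ 2 * t, k * φ x, x) : PP))
      ((0 : E3 →L[ℝ] ℝ).prod ((k • fderiv ℝ φ x).prod (ContinuousLinearMap.id ℝ E3))) x := by
  have h1 : HasFDerivAt φ (fderiv ℝ φ x) x := (hφ.differentiable (by simp) x).hasFDerivAt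
  exact (hasFDerivAt_const _ _).prodMk ((h1.const_mul k).prodMk (hasFDerivAt_id x))

theorem pd_ev (hφ : ContDiff ℝ ∞ φ) {E : PP → ℝ} (hE : ContDiff ℝ ∞ E) (j : Fin 3) :
    pd j (ev φ k t E) = ev φ k t (dl φ k j E) := by
  funext x
  have h1 := hasFDerivAt_arg (k := k) (t := t) hφ x
  have h2 : HasFDerivAt E (fderiv ℝ E (k ^ 2 * t, k * φ x, x)) (k ^ 2 * t, k * φ x, x) :=
    (hE.differentiable (by simp) _).hasFDerivAt
  have h3 := (h2.comp x h1).fderiv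
  have h4 : (E ∘ fun x : E3 => ((k ^ 2 * t, k * φ x, x) : PP)) = ev φ k t E := rfl
  rw [h4] at h3
  unfold pd
  rw [h3]
  unfold ev dl dd nn pd
  have e : (((0 : E3 →L[ℝ] ℝ).prod ((k • fderiv ℝ φ x).prod (ContinuousLinearMap.id ℝ E3)))
      (EuclideanSpace.single j 1) : PP)
      = (k * fderiv ℝ φ x (EuclideanSpace.single j 1)) • eH + eX j := by
    ext <;> simp [eH, eX]
  simp only [ContinuousLinearMap.comp_apply]
  rw [e, map_add, map_smul, smul_eq_mul]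

theorem hasDerivAt_ev {E : PP → ℝ} (hE : ContDiff ℝ ∞ E) (x : E3) (t : ℝ) :
    HasDerivAt (fun t => ev φ k t E x) (k ^ 2 * ev φ k t (dd eT E) x) t := by
  have h1 : HasDerivAt (fun t : ℝ => ((k ^ 2 * t, k * φ x, x) : PP)) (k ^ 2, 0, 0) t := by
    have h0 : HasDerivAt (fun t : ℝ => k ^ 2 * t) (k ^ 2) t := by
      simpa using (hasDerivAt_id t).const_mul (k ^ 2)
    exact h0.prodMk ((hasDerivAt_const t (k * φ x)).prodMk (hasDerivAt_const t x))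
  have h2 : HasFDerivAt E (fderiv ℝ E (k ^ 2 * t, k * φ x, x)) (k ^ 2 * t, k * φ x, x) :=
    (hE.differentiable (by simp) _).hasFDerivAt
  have h3 := h2.comp_hasDerivAt t h1
  refine h3.congr_deriv ?_
  have e : ((k ^ 2, 0, 0) : PP) = k ^ 2 • eT := by
    ext <;> simp [eT]
  rw [e, map_smul]
  rfl

theorem ev_contDiff (hφ : ContDiff ℝ ∞ φ) {E : PP → ℝ} (hE : ContDiff ℝ ∞ E) :
    ContDiff ℝ ∞ (ev φ k t E) :=
  hE.comp (contDiff_const.prodMk ((contDiff_const.mul hφ).prodMk contDiff_id))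

theorem ev_contDiff2 (hφ : ContDiff ℝ ∞ φ) {E : PP → ℝ} (hE : ContDiff ℝ ∞ E) :
    ContDiff ℝ ∞ (fun q : ℝ × E3 => ev φ k q.1 E q.2) :=
  hE.comp ((contDiff_const.mul contDiff_fst).prodMk ((contDiff_const.mul (hφ.comp contDiff_snd)).prodMk
    contDiff_snd))

theorem CS_of {f : E3 → ℝ} (hf : ContDiff ℝ ∞ f) {K : Set E3} (hK : IsCompact K) (hO : K ⊆ O)
    (h : ∀ x, x ∉ K → f x = 0) : CS O f := by
  have hs : tsupport f ⊆ K := by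
    refine closure_minimal ?_ hK.isClosed
    intro x hx
    by_contra h'
    exact hx (h x h')
  exact ⟨hf, hK.of_isClosed_subset (isClosed_tsupport f) hs, hs.trans hO⟩

theorem CS_ev (hφ : ContDiff ℝ ∞ φ) {E : PP → ℝ} (hE : E ∈ PQ ν z O) : CS O (ev φ k t E) := by
  obtain ⟨K, hK, hs, h⟩ := PQ_supp hE
  exact CS_of (ev_contDiff hφ (PQ_contDiff hE)) hK hs fun x hx => h _ hx

theorem dl_contDiff (hφ : ContDiff ℝ ∞ φ) {E : PP → ℝ} (hE : ContDiff ℝ ∞ E) (j : Fin 3) :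
    ContDiff ℝ ∞ (dl φ k j E) :=
  ((contDiff_const.mul (nn_contDiff hφ j)).mul (dd_contDiff hE)).add (dd_contDiff hE)

/-! ### operators -/

/-- the first order part of the Laplacian -/
noncomputable def Lp (φ : E3 → ℝ) (E : PP → ℝ) (p : PP) : ℝ :=
  ∑ j, (2 * nn φ j p * dd (eX j) (dd eH E) p + px (pd j (pd j φ)) p * dd eH E p)

/-- the Laplacian in the slow variables -/
noncomputable def Dp (E : PP → ℝ) (p : PP) : ℝ := ∑ j, dd (eX j) (dd (eX j) E) p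

/-- the normal component -/
noncomputable def nd (φ : E3 → ℝ) (U : PV) (p : PP) : ℝ := ∑ j, U j p * nn φ j p

/-- transport -/
noncomputable def Nx (U : PV) (E : PP → ℝ) (p : PP) : ℝ := ∑ j, U j p * dd (eX j) E p

theorem dl_dl (hφ : ContDiff ℝ ∞ φ) {E : PP → ℝ} (hE : ContDiff ℝ ∞ E) (p : PP) :
    ∑ j, dl φ k j (dl φ k j E) p = k ^ 2 * ((∑ j, nn φ j p ^ 2) * dd eH (dd eH E) p)
      + k * Lp φ E p + Dp E p := by
  have h : ∀ j, dl φ k j (dl φ k j E) p = k ^ 2 * (nn φ j p ^ 2 * dd eH (dd eH E) p)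
      + k * (2 * nn φ j p * dd (eX j) (dd eH E) p + px (pd j (pd j φ)) p * dd eH E p)
      + dd (eX j) (dd (eX j) E) p := by
    intro j
    have h1 : dl φ k j E = fun p => (k * nn φ j p) * dd eH E p + dd (eX j) E p := rfl
    have c1 : ContDiff ℝ ∞ (fun p => k * nn φ j p) := contDiff_const.mul (nn_contDiff hφ j)
    have c2 := dd_contDiff (v := eH) hE
    have c3 := dd_contDiff (v := eX j) hE
    have e1 : dd eH (fun p => k * nn φ j p) = fun _ => 0 := by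
      rw [dd_smul k (nn_contDiff hφ j)]
      have := eH_px (pd_contDiff hφ j)
      funext p
      have h2 : dd eH (nn φ j) p = 0 := congrFun this p
      rw [h2, mul_zero]
    have e2 : dd (eX j) (fun p => k * nn φ j p) = fun p => k * px (pd j (pd j φ)) p := by
      rw [dd_smul k (nn_contDiff hφ j)]
      have := eX_px (pd_contDiff hφ j) j
      funext p
      have h2 : dd (eX j) (nn φ j) p = px (pd j (pd j φ)) p := congrFun this p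
      rw [h2]
    have e3 : dd eH (dd (eX j) E) = dd (eX j) (dd eH E) := dd_comm hE
    unfold dl
    rw [dd_add (c1.mul c2) c3, dd_add (c1.mul c2) c3, dd_mul c1 c2, dd_mul c1 c2, e1, e2, e3]
    ring
  simp only [h, Finset.sum_add_distrib, ← Finset.mul_sum, ← Finset.sum_mul, Lp, Dp]

theorem sum_dl (U : PV) (E : PP → ℝ) (p : PP) :
    ∑ j, U j p * dl φ k j E p = k * (nd φ U p * dd eH E p) + Nx U E p := by
  unfold dl nd Nx
  rw [Finset.sum_mul, Finset.mul_sum, ← Finset.sum_add_distrib]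
  exact Finset.sum_congr rfl fun j _ => by ring

/-! ### sums in powers of `k` -/

/-- the ansatz -/
noncomputable def Dd (k : ℝ) (W Y0 Y1 Y2 : PP → ℝ) (p : PP) : ℝ :=
  k * W p + Y0 p + k⁻¹ * Y1 p + k⁻¹ ^ 2 * Y2 p

theorem dd_Dd {v : PP} {W Y0 Y1 Y2 : PP → ℝ} (hW : ContDiff ℝ ∞ W) (h0 : ContDiff ℝ ∞ Y0)
    (h1 : ContDiff ℝ ∞ Y1) (h2 : ContDiff ℝ ∞ Y2) :
    dd v (Dd k W Y0 Y1 Y2) = Dd k (dd v W) (dd v Y0) (dd v Y1) (dd v Y2) := by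
  have c1 : ContDiff ℝ ∞ (fun p => k * W p) := contDiff_const.mul hW
  have c2 : ContDiff ℝ ∞ (fun p => k⁻¹ * Y1 p) := contDiff_const.mul h1
  have c3 : ContDiff ℝ ∞ (fun p => k⁻¹ ^ 2 * Y2 p) := contDiff_const.mul h2
  unfold Dd
  rw [dd_add ((c1.add h0).add c2) c3, dd_add (c1.add h0) c2, dd_add c1 h0, dd_smul _ hW,
    dd_smul _ h1, dd_smul _ h2]

theorem Dd_contDiff {W Y0 Y1 Y2 : PP → ℝ} (hW : ContDiff ℝ ∞ W) (h0 : ContDiff ℝ ∞ Y0)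
    (h1 : ContDiff ℝ ∞ Y1) (h2 : ContDiff ℝ ∞ Y2) : ContDiff ℝ ∞ (Dd k W Y0 Y1 Y2) :=
  (((contDiff_const.mul hW).add h0).add (contDiff_const.mul h1)).add (contDiff_const.mul h2)

theorem HH_Dd {W Y0 Y1 Y2 : PP → ℝ} (hW : ContDiff ℝ ∞ W) (h0 : ContDiff ℝ ∞ Y0)
    (h1 : ContDiff ℝ ∞ Y1) (h2 : ContDiff ℝ ∞ Y2) :
    HH ν (Dd k W Y0 Y1 Y2) = Dd k (HH ν W) (HH ν Y0) (HH ν Y1) (HH ν Y2) := by
  funext p
  unfold HH
  rw [dd_Dd hW h0 h1 h2, dd_Dd hW h0 h1 h2, dd_Dd (dd_contDiff hW) (dd_contDiff h0)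
    (dd_contDiff h1) (dd_contDiff h2)]
  unfold Dd
  ring

theorem Lp_Dd {W Y0 Y1 Y2 : PP → ℝ} (hW : ContDiff ℝ ∞ W) (h0 : ContDiff ℝ ∞ Y0)
    (h1 : ContDiff ℝ ∞ Y1) (h2 : ContDiff ℝ ∞ Y2) :
    Lp φ (Dd k W Y0 Y1 Y2) = Dd k (Lp φ W) (Lp φ Y0) (Lp φ Y1) (Lp φ Y2) := by
  funext p
  unfold Lp
  rw [dd_Dd hW h0 h1 h2]
  simp only [dd_Dd (dd_contDiff hW) (dd_contDiff h0) (dd_contDiff h1) (dd_contDiff h2)]
  unfold Dd
  simp only [Finset.mul_sum, ← Finset.sum_add_distrib]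
  exact Finset.sum_congr rfl fun j _ => by ring

theorem Dp_Dd {W Y0 Y1 Y2 : PP → ℝ} (hW : ContDiff ℝ ∞ W) (h0 : ContDiff ℝ ∞ Y0)
    (h1 : ContDiff ℝ ∞ Y1) (h2 : ContDiff ℝ ∞ Y2) :
    Dp (Dd k W Y0 Y1 Y2) = Dd k (Dp W) (Dp Y0) (Dp Y1) (Dp Y2) := by
  funext p
  unfold Dp
  simp only [dd_Dd hW h0 h1 h2, dd_Dd (dd_contDiff hW) (dd_contDiff h0) (dd_contDiff h1)
    (dd_contDiff h2)]
  unfold Dd
  simp only [Finset.mul_sum, ← Finset.sum_add_distrib]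

theorem Nx_Dd {U : PV} {W Y0 Y1 Y2 : PP → ℝ} (hW : ContDiff ℝ ∞ W) (h0 : ContDiff ℝ ∞ Y0)
    (h1 : ContDiff ℝ ∞ Y1) (h2 : ContDiff ℝ ∞ Y2) :
    Nx U (Dd k W Y0 Y1 Y2) = Dd k (Nx U W) (Nx U Y0) (Nx U Y1) (Nx U Y2) := by
  funext p
  unfold Nx
  simp only [dd_Dd hW h0 h1 h2]
  unfold Dd
  simp only [Finset.mul_sum, ← Finset.sum_add_distrib]
  exact Finset.sum_congr rfl fun j _ => by ring

theorem Nx_Dd' {W Y0 Y1 Y2 : PV} {E : PP → ℝ} :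
    Nx (fun i => Dd k (W i) (Y0 i) (Y1 i) (Y2 i)) E
      = Dd k (Nx W E) (Nx Y0 E) (Nx Y1 E) (Nx Y2 E) := by
  funext p
  unfold Nx Dd
  simp only [Finset.mul_sum, ← Finset.sum_add_distrib]
  exact Finset.sum_congr rfl fun j _ => by ring

theorem nd_Dd {W Y0 Y1 Y2 : PV} :
    nd φ (fun i => Dd k (W i) (Y0 i) (Y1 i) (Y2 i))
      = Dd k (nd φ W) (nd φ Y0) (nd φ Y1) (nd φ Y2) := by
  funext p
  unfold nd Dd
  simp only [Finset.mul_sum, ← Finset.sum_add_distrib]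
  exact Finset.sum_congr rfl fun j _ => by ring

/-- the lifted residual -/
noncomputable def Rl (ν : ℝ) (φ : E3 → ℝ) (k : ℝ) (v : VF) (D : PV) (i : Fin 3) (p : PP) : ℝ :=
  k ^ 2 * dd eT (D i) p - ν * ∑ j, dl φ k j (dl φ k j (D i)) p
    + ∑ j, (px (v j) p + D j p) * dl φ k j (D i) p + ∑ j, D j p * px (pd j (v i)) p

/-- expansion of the residual -/
theorem Rl_eq (hφ : ContDiff ℝ ∞ φ) (hk : k ≠ 0) {v : VF} {W Y0 Y1 Y2 : PV}
    (hW : ∀ i, ContDiff ℝ ∞ (W i)) (h0 : ∀ i, ContDiff ℝ ∞ (Y0 i)) (h1 : ∀ i, ContDiff ℝ ∞ (Y1 i))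
    (h2 : ∀ i, ContDiff ℝ ∞ (Y2 i)) (p : PP)
    (eW : ∀ i, (∑ j, nn φ j p ^ 2) * dd eH (dd eH (W i)) p = dd eH (dd eH (W i)) p)
    (e0 : ∀ i, (∑ j, nn φ j p ^ 2) * dd eH (dd eH (Y0 i)) p = dd eH (dd eH (Y0 i)) p)
    (e1 : ∀ i, (∑ j, nn φ j p ^ 2) * dd eH (dd eH (Y1 i)) p = dd eH (dd eH (Y1 i)) p)
    (e2 : ∀ i, (∑ j, nn φ j p ^ 2) * dd eH (dd eH (Y2 i)) p = dd eH (dd eH (Y2 i)) p)
    (hHW : ∀ i, HH ν (W i) p = 0) (hnW : nd φ W p = 0) (i : Fin 3) :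
    Rl ν φ k v (fun i => Dd k (W i) (Y0 i) (Y1 i) (Y2 i)) i p
      = k ^ 2 * (HH ν (Y0 i) p - ν * Lp φ (W i) p
          + (nd φ (fun j => px (v j)) p + nd φ Y0 p) * dd eH (W i) p + Nx W (W i) p)
        + k * (HH ν (Y1 i) p - ν * Lp φ (Y0 i) p - ν * Dp (W i) p
          + (nd φ (fun j => px (v j)) p + nd φ Y0 p) * dd eH (Y0 i) p
          + nd φ Y1 p * dd eH (W i) p + Nx (fun j => px (v j)) (W i) p + Nx Y0 (W i) p
          + Nx W (Y0 i) p + ∑ j, W j p * px (pd j (v i)) p)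
        + (HH ν (Y2 i) p - ν * Lp φ (Y1 i) p - ν * Dp (Y0 i) p
          + (nd φ (fun j => px (v j)) p + nd φ Y0 p) * dd eH (Y1 i) p
          + nd φ Y1 p * dd eH (Y0 i) p + nd φ Y2 p * dd eH (W i) p
          + Nx (fun j => px (v j)) (Y0 i) p + Nx Y0 (Y0 i) p + Nx Y1 (W i) p + Nx W (Y1 i) p
          + ∑ j, Y0 j p * px (pd j (v i)) p)
        + k⁻¹ * (-ν * Lp φ (Y2 i) p - ν * Dp (Y1 i) p
          + (nd φ (fun j => px (v j)) p + nd φ Y0 p) * dd eH (Y2 i) p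
          + nd φ Y1 p * dd eH (Y1 i) p + nd φ Y2 p * dd eH (Y0 i) p
          + Nx (fun j => px (v j)) (Y1 i) p + Nx Y0 (Y1 i) p + Nx Y1 (Y0 i) p
          + Nx Y2 (W i) p + Nx W (Y2 i) p + ∑ j, Y1 j p * px (pd j (v i)) p)
        + k⁻¹ ^ 2 * (-ν * Dp (Y2 i) p + nd φ Y1 p * dd eH (Y2 i) p + nd φ Y2 p * dd eH (Y1 i) p
          + Nx (fun j => px (v j)) (Y2 i) p + Nx Y0 (Y2 i) p + Nx Y2 (Y0 i) p + Nx Y1 (Y1 i) p
          + ∑ j, Y2 j p * px (pd j (v i)) p)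
        + k⁻¹ ^ 3 * (nd φ Y2 p * dd eH (Y2 i) p + Nx Y1 (Y2 i) p + Nx Y2 (Y1 i) p)
        + k⁻¹ ^ 4 * Nx Y2 (Y2 i) p := by
  have hD := Dd_contDiff (k := k) (hW i) (h0 i) (h1 i) (h2 i)
  unfold Rl
  rw [dl_dl hφ hD]
  have hs : ∑ j, (px (v j) p + Dd k (W j) (Y0 j) (Y1 j) (Y2 j) p)
      * dl φ k j (Dd k (W i) (Y0 i) (Y1 i) (Y2 i)) p
      = (k * (nd φ (fun j => px (v j)) p * dd eH (Dd k (W i) (Y0 i) (Y1 i) (Y2 i)) p)
        + Nx (fun j => px (v j)) (Dd k (W i) (Y0 i) (Y1 i) (Y2 i)) p)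
        + (k * (nd φ (fun i => Dd k (W i) (Y0 i) (Y1 i) (Y2 i)) p
          * dd eH (Dd k (W i) (Y0 i) (Y1 i) (Y2 i)) p)
        + Nx (fun i => Dd k (W i) (Y0 i) (Y1 i) (Y2 i)) (Dd k (W i) (Y0 i) (Y1 i) (Y2 i)) p) := by
    rw [← sum_dl, ← sum_dl, ← Finset.sum_add_distrib]
    exact Finset.sum_congr rfl fun j _ => by ring
  rw [hs]
  have hh := congrFun (HH_Dd (k := k) (ν := ν) (hW i) (h0 i) (h1 i) (h2 i)) p
  have hH : dd eT (Dd k (W i) (Y0 i) (Y1 i) (Y2 i)) p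
      = Dd k (HH ν (W i)) (HH ν (Y0 i)) (HH ν (Y1 i)) (HH ν (Y2 i)) p
        + ν * dd eH (dd eH (Dd k (W i) (Y0 i) (Y1 i) (Y2 i))) p := by
    rw [← hh]; unfold HH; ring
  have hN : (∑ j, nn φ j p ^ 2) * dd eH (dd eH (Dd k (W i) (Y0 i) (Y1 i) (Y2 i))) p
      = dd eH (dd eH (Dd k (W i) (Y0 i) (Y1 i) (Y2 i))) p := by
    rw [dd_Dd (hW i) (h0 i) (h1 i) (h2 i), dd_Dd (dd_contDiff (hW i)) (dd_contDiff (h0 i))
      (dd_contDiff (h1 i)) (dd_contDiff (h2 i))]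
    unfold Dd
    have a1 := eW i
    have a2 := e0 i
    have a3 := e1 i
    have a4 := e2 i
    linear_combination k * a1 + a2 + k⁻¹ * a3 + k⁻¹ ^ 2 * a4
  rw [hH, hN, Lp_Dd (hW i) (h0 i) (h1 i) (h2 i), Dp_Dd (hW i) (h0 i) (h1 i) (h2 i),
    Nx_Dd (hW i) (h0 i) (h1 i) (h2 i), Nx_Dd', nd_Dd, Nx_Dd (hW i) (h0 i) (h1 i) (h2 i)]
  have hl : ∑ j, Dd k (W j) (Y0 j) (Y1 j) (Y2 j) p * px (pd j (v i)) p
      = k * ∑ j, W j p * px (pd j (v i)) p + ∑ j, Y0 j p * px (pd j (v i)) p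
        + k⁻¹ * ∑ j, Y1 j p * px (pd j (v i)) p + k⁻¹ ^ 2 * ∑ j, Y2 j p * px (pd j (v i)) p := by
    unfold Dd
    simp only [Finset.mul_sum, ← Finset.sum_add_distrib]
    exact Finset.sum_congr rfl fun j _ => by ring
  rw [hl, show dd eH (Dd k (W i) (Y0 i) (Y1 i) (Y2 i)) p
    = Dd k (dd eH (W i)) (dd eH (Y0 i)) (dd eH (Y1 i)) (dd eH (Y2 i)) p by
      rw [dd_Dd (hW i) (h0 i) (h1 i) (h2 i)]]
  have hHW' := hHW i
  have x0 := congrFun (Nx_Dd (k := k) (U := Y0) (hW i) (h0 i) (h1 i) (h2 i)) p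
  have x1 := congrFun (Nx_Dd (k := k) (U := Y1) (hW i) (h0 i) (h1 i) (h2 i)) p
  have x2 := congrFun (Nx_Dd (k := k) (U := Y2) (hW i) (h0 i) (h1 i) (h2 i)) p
  simp only [Dd] at x0 x1 x2 ⊢
  rw [hHW', hnW]
  rw [x0, x1, x2]
  generalize dd eH (dd eH (Dd k (W i) (Y0 i) (Y1 i) (Y2 i))) p = dH
  field_simp
  ring

end Pool.Agent.T2H10.DN
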