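import Pool.Agent.T2H10.DN.Lvl

/-!
The first profile of the expansion.
-/

set_option autoImplicit false
set_option linter.unusedSectionVars false

open MeasureTheory Set Filter Topology
open scoped InnerProductSpace ENNReal ContDiff

namespace Pool.Agent.T2H10.DN

open H772R2.NS

variable {ν k t : ℝ} {O Ω : Set E3} {z : Bool} {φ q : E3 → ℝ} {A B F v : VF}

theorem eH_nc (hφ : ContDiff ℝ ∞ φ) {V : PV} (hV : ∀ i, ContDiff ℝ ∞ (V i)) (i : Fin 3) :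
    dd eH (nc φ V i) = nc φ (fun j => dd eH (V j)) i := by
  have c : ∀ i j, ContDiff ℝ ∞ (fun p => nn φ i p * V j p) := fun i j =>
    (nn_contDiff hφ i).mul (hV j)
  have e : ∀ i j, dd eH (fun p => nn φ i p * V j p) = fun p => nn φ i p * dd eH (V j) p := by
    intro i j
    rw [dd_mul (nn_contDiff hφ i) (hV j)]
    have h : dd eH (nn φ i) = fun _ => 0 := eH_px (pd_contDiff hφ i)
    rw [h]
    funext p
    simp
  fin_cases i
  · show dd eH (fun p => nn φ 1 p * V 2 p - nn φ 2 p * V 1 p) = _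
    rw [dd_sub (c _ _) (c _ _), e, e]
    rfl
  · show dd eH (fun p => nn φ 2 p * V 0 p - nn φ 0 p * V 2 p) = _
    rw [dd_sub (c _ _) (c _ _), e, e]
    rfl
  · show dd eH (fun p => nn φ 0 p * V 1 p - nn φ 1 p * V 0 p) = _
    rw [dd_sub (c _ _) (c _ _), e, e]
    rfl

theorem eH_cx {V : PV} (hV : ∀ i, ContDiff ℝ ∞ (V i)) (i : Fin 3) :
    dd eH (cx V i) = cx (fun j => dd eH (V j)) i := by
  have c : ∀ i j, ContDiff ℝ ∞ (dd (eX i) (V j)) := fun i j => dd_contDiff (hV j)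
  fin_cases i
  · show dd eH (fun p => dd (eX 1) (V 2) p - dd (eX 2) (V 1) p) = _
    rw [dd_sub (c _ _) (c _ _), dd_comm (hV 2), dd_comm (hV 1)]
    rfl
  · show dd eH (fun p => dd (eX 2) (V 0) p - dd (eX 0) (V 2) p) = _
    rw [dd_sub (c _ _) (c _ _), dd_comm (hV 0), dd_comm (hV 2)]
    rfl
  · show dd eH (fun p => dd (eX 0) (V 1) p - dd (eX 1) (V 0) p) = _
    rw [dd_sub (c _ _) (c _ _), dd_comm (hV 1), dd_comm (hV 0)]
    rfl

/-- the stream field of the main wave -/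
noncomputable def Z0f (ν : ℝ) (φ : E3 → ℝ) (A B : VF) : PV := nc φ (Wt ν A B)

/-- the next part of the velocity -/
noncomputable def Y0f (ν : ℝ) (φ : E3 → ℝ) (A B F : VF) (Z1 : PV) : PV := fun i p =>
  (cx (Z0f ν φ A B) i p + nc φ (fun j => dd eH (Z1 j)) i p) + tb ν 0 1 p.1 * px (F i) p

theorem nc_zero (i : Fin 3) : nc φ (fun _ _ => 0) i = fun _ => 0 := by
  funext p
  fin_cases i
  · show nn φ 1 p * 0 - nn φ 2 p * 0 = 0
    ring
  · show nn φ 2 p * 0 - nn φ 0 p * 0 = 0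
    ring
  · show nn φ 0 p * 0 - nn φ 1 p * 0 = 0
    ring

theorem cx_zero (i : Fin 3) : cx (fun _ _ => 0) i = fun _ => 0 := by
  have h : ∀ j, dd (eX j) (fun _ => (0 : ℝ)) = fun _ => 0 := fun j => dd_zero _
  funext p
  fin_cases i
  · show dd (eX 1) (fun _ => (0 : ℝ)) p - dd (eX 2) (fun _ => (0 : ℝ)) p = 0
    rw [h, h]; ring
  · show dd (eX 2) (fun _ => (0 : ℝ)) p - dd (eX 0) (fun _ => (0 : ℝ)) p = 0
    rw [h, h]; ring
  · show dd (eX 0) (fun _ => (0 : ℝ)) p - dd (eX 1) (fun _ => (0 : ℝ)) p = 0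
    rw [h, h]; ring

/-- `n × Z0 = - W_θ` -/
theorem nc_Z0 (hn : ∀ x ∈ O, ∑ j, pd j φ x ^ 2 = 1) (hA : ∀ i, CS O (A i))
    (hB : ∀ i, CS O (B i)) (hAn : ∀ x, ∑ j, A j x * pd j φ x = 0)
    (hBn : ∀ x, ∑ j, B j x * pd j φ x = 0) (i : Fin 3) :
    nc φ (Z0f ν φ A B) i = fun p => -Wt ν A B i p := by
  funext p
  unfold Z0f
  rw [nc_nc hn (Wt_mem hA hB), nd_Wt hAn hBn]
  ring

theorem HH_Z0 (hφ : ContDiff ℝ ∞ φ) (hA : ∀ i, CS O (A i)) (hB : ∀ i, CS O (B i)) (i : Fin 3) :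
    HH ν (Z0f ν φ A B i) = fun _ => 0 := by
  unfold Z0f
  rw [HH_nc hφ (fun i => PQ_contDiff (Wt_mem hA hB i))]
  simp only [HH_Wt hA hB]
  exact nc_zero i

theorem Z0_mem (hφ : ContDiff ℝ ∞ φ) (hA : ∀ i, CS O (A i)) (hB : ∀ i, CS O (B i)) (i : Fin 3) :
    Z0f ν φ A B i ∈ PQ ν true O := nc_mem hφ (Wt_mem hA hB) i

theorem HH_cxZ0 (hφ : ContDiff ℝ ∞ φ) (hA : ∀ i, CS O (A i)) (hB : ∀ i, CS O (B i)) (i : Fin 3) :
    HH ν (cx (Z0f ν φ A B) i) = fun _ => 0 := by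
  rw [HH_cx (fun i => PQ_contDiff (Z0_mem hφ hA hB i))]
  simp only [HH_Z0 hφ hA hB]
  exact cx_zero i

/-- the normal component -/
theorem nd_cxZ0 (hφ : ContDiff ℝ ∞ φ) (hn : ∀ x ∈ O, ∑ j, pd j φ x ^ 2 = 1)
    (hA : ∀ i, CS O (A i)) (hB : ∀ i, CS O (B i)) (hAn : ∀ x, ∑ j, A j x * pd j φ x = 0)
    (hBn : ∀ x, ∑ j, B j x * pd j φ x = 0) (p : PP) :
    nd φ (cx (Z0f ν φ A B)) p = dx (Wt ν A B) p := by
  rw [nd_cx hφ (fun i => PQ_contDiff (Z0_mem hφ hA hB i))]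
  unfold dx
  simp only [nc_Z0 hn hA hB hAn hBn]
  rw [← Finset.sum_neg_distrib]
  refine Finset.sum_congr rfl fun i _ => ?_
  have h := dd_smul (v := eX i) (-1) (PQ_contDiff (Wt_mem (ν := ν) hA hB i))
  have e : (fun p => -Wt ν A B i p) = fun p => -1 * Wt ν A B i p := by funext p; ring
  rw [e, h]
  ring

/-- the first profile -/
theorem level2 (hν : 0 < ν) (hφ : ContDiff ℝ ∞ φ) (hn : ∀ x ∈ O, ∑ j, pd j φ x ^ 2 = 1)
    (hA : ∀ i, CS O (A i)) (hB : ∀ i, CS O (B i)) (hAn : ∀ x, ∑ j, A j x * pd j φ x = 0)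
    (hBn : ∀ x, ∑ j, B j x * pd j φ x = 0) (hF : ∀ i, ContDiff ℝ ∞ (F i))
    (hv : ∀ i, ContDiff ℝ ∞ (v i))
    (hFe : ∀ i x, F i x = (∑ j, pd j (fun y => A i y * A j y + B i y * B j y) x) + pd i q x) :
    ∃ (Z1 : PV) (P1 : PP → ℝ), (∀ i, Z1 i ∈ PQ ν true O) ∧ P1 ∈ PQ ν true O ∧ ∀ i p,
      HH ν (Y0f ν φ A B F Z1 i) p - ν * Lp φ (Wf ν A B i) p
        + (nd φ (fun j => px (v j)) p + nd φ (Y0f ν φ A B F Z1) p) * dd eH (Wf ν A B i) p
        + Nx (Wf ν A B) (Wf ν A B i) p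
      = nn φ i p * dd eH P1 p - 2 * ν * tb ν 0 1 p.1 * px (pd i q) p := by
  have hW := fun i => Wf_mem (ν := ν) hA hB i
  have hWt := fun i => Wt_mem (ν := ν) hA hB i
  -- the oscillating part
  set Qo : PV := fun i p => -ν * Lp φ (Wf ν A B i) p + nd φ (fun j => px (v j)) p * Wt ν A B i p
    + tb ν 0 1 p.1 * (nd φ (fun j => px (F j)) p * Wt ν A B i p)
    + (2 * ν * gn ν 0 1 2 false (Cc A B i) p + 2 * ν * gn ν 0 1 2 true (Cs A B i) p) with hQo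
  have hQm : ∀ i, Qo i ∈ PQ ν true O := by
    intro i
    refine PQ_add (PQ_add (PQ_add (PQ_smul _ (Lp_mem hφ (hW i))) (ndv_mul_mem hφ hv (hWt i)))
      (PQ_TT_mul (tb_mem 0 1) (ndv_mul_mem hφ hF (hWt i)))) ?_
    exact PQ_add (PQ_smul _ (gn_mem (by simp) (Cc_CS hA hB i)))
      (PQ_smul _ (gn_mem (by simp) (Cs_CS hA hB i)))
  choose Z hZ hZe using fun i => PQ_solve (hQm i)
  obtain ⟨P1, hPm, hPe⟩ := PQ_int (nd_mem hφ hQm)
  have hZc := fun i => PQ_contDiff (hZ i)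
  refine ⟨nc φ Z, P1, nc_mem hφ hZ, hPm, fun i p => ?_⟩
  have e1 : (fun j => dd eH (nc φ Z j)) = nc φ (fun j => dd eH (Z j)) :=
    funext fun j => eH_nc hφ hZc j
  have c2 : ∀ j, ContDiff ℝ ∞ (dd eH (Z j)) := fun j => dd_contDiff (hZc j)
  have c3 := nc_contDiff hφ c2
  have e2 : HH ν (nc φ (nc φ (fun j => dd eH (Z j))) i) p = nn φ i p * nd φ Qo p - Qo i p := by
    rw [HH_nc hφ c3]
    have e3 : (fun j => HH ν (nc φ (fun j => dd eH (Z j)) j)) = nc φ Qo := by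
      funext j
      rw [HH_nc hφ c2]
      simp only [hZe]
    rw [e3, nc_nc hn hQm]
  have cF : ContDiff ℝ ∞ (fun p : PP => tb ν 0 1 p.1 * px (F i) p) :=
    ((tb_contDiff 0 1).comp contDiff_fst).mul (px_contDiff (hF i))
  have cc : ContDiff ℝ ∞ (cx (Z0f ν φ A B) i) := cx_contDiff
    (fun i => PQ_contDiff (Z0_mem hφ hA hB i)) i
  have eY : HH ν (Y0f ν φ A B F (nc φ Z) i) p
      = nn φ i p * nd φ Qo p - Qo i p - 2 * ν * tb ν 0 1 p.1 * px (F i) p := by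
    unfold Y0f
    rw [e1, HH_add (cc.add (nc_contDiff hφ c3 i)) cF, HH_add cc (nc_contDiff hφ c3 i),
      HH_cxZ0 hφ hA hB, HH_TX (tb_contDiff 0 1) (hF i)]
    simp only []
    rw [e2, (hasDerivAt_tb 0 1 p.1).deriv]
    push_cast
    ring
  have eN : nd φ (Y0f ν φ A B F (nc φ Z)) p = dx (Wt ν A B) p
      + tb ν 0 1 p.1 * nd φ (fun j => px (F j)) p := by
    have h1 := nd_cxZ0 (ν := ν) hφ hn hA hB hAn hBn p
    have h2 := nd_nc (φ := φ) (fun j => dd eH (nc φ Z j)) p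
    unfold nd at h1 h2 ⊢
    unfold Y0f
    rw [← h1, Finset.mul_sum]
    calc ∑ j, (cx (Z0f ν φ A B) j p + nc φ (fun j => dd eH (nc φ Z j)) j p
          + tb ν 0 1 p.1 * px (F j) p) * nn φ j p
        = ∑ j, cx (Z0f ν φ A B) j p * nn φ j p
          + ∑ j, nc φ (fun j => dd eH (nc φ Z j)) j p * nn φ j p
          + ∑ j, tb ν 0 1 p.1 * (px (F j) p * nn φ j p) := by
          rw [← Finset.sum_add_distrib, ← Finset.sum_add_distrib]
          exact Finset.sum_congr rfl fun j _ => by ring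
      _ = _ := by rw [h2]; ring
  have hq := quad_eq hν hA hB i p
  have hFe' : px (F i) p = (∑ j, pd j (fun y => A i y * A j y + B i y * B j y) p.2.2)
      + px (pd i q) p := hFe i p.2.2
  rw [eY, eN, eH_Wf hA hB, hPe]
  have hQi : Qo i p = -ν * Lp φ (Wf ν A B i) p + nd φ (fun j => px (v j)) p * Wt ν A B i p
    + tb ν 0 1 p.1 * (nd φ (fun j => px (F j)) p * Wt ν A B i p)
    + (2 * ν * gn ν 0 1 2 false (Cc A B i) p + 2 * ν * gn ν 0 1 2 true (Cs A B i) p) := rfl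
  rw [hFe', hQi]
  linear_combination hq

end Pool.Agent.T2H10.DN
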