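import Pool.Agent.T2H10.DN.Exp1

/-!
The second profile of the expansion.
-/

set_option autoImplicit false
set_option linter.unusedSectionVars false

open MeasureTheory Set Filter Topology
open scoped InnerProductSpace ENNReal ContDiff

namespace Pool.Agent.T2H10.DN

open H772R2.NS

variable {ν k t : ℝ} {O Ω : Set E3} {z : Bool} {φ q : E3 → ℝ} {A B F v : VF}

theorem HH_sum {ι : Type*} (s : Finset ι) {E : ι → PP → ℝ} (hE : ∀ i, ContDiff ℝ ∞ (E i)) :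
    HH ν (fun p => ∑ i ∈ s, E i p) = fun p => ∑ i ∈ s, HH ν (E i) p := by
  funext p
  unfold HH
  rw [dd_sum s hE, dd_sum s hE, dd_sum s (fun i => dd_contDiff (hE i))]
  rw [Finset.mul_sum, ← Finset.sum_sub_distrib]

/-- common decomposition in mean and oscillation for fields -/
theorem PQ_meanV {R : PV} (hR : ∀ i, R i ∈ PQ ν z O) :
    ∃ (s : Finset (ℕ × ℕ)) (X : ℕ × ℕ → VF), (∀ a i, CS O (X a i)) ∧
      ∀ i, (fun p => R i p - ∑ a ∈ s, tb ν a.1 a.2 p.1 * X a i p.2.2) ∈ PQ ν true O := by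
  classical
  choose s X hX h using fun i => PQ_mean (hR i)
  refine ⟨Finset.univ.biUnion s, fun a i x => if a ∈ s i then X i a x else 0, fun a i => ?_,
    fun i => ?_⟩
  · by_cases ha : a ∈ s i
    · simp only [ha, if_true]
      exact hX i a
    · simp only [ha, if_false]
      exact CS.zero
  · have e : (fun p : PP => R i p - ∑ a ∈ Finset.univ.biUnion s,
        tb ν a.1 a.2 p.1 * (if a ∈ s i then X i a p.2.2 else 0))
        = fun p => R i p - ∑ a ∈ s i, tb ν a.1 a.2 p.1 * X i a p.2.2 := by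
      funext p
      congr 1
      rw [← Finset.sum_subset (Finset.subset_biUnion_of_mem s (Finset.mem_univ i))]
      · exact Finset.sum_congr rfl fun a ha => by simp [ha]
      · intro a _ ha; simp [ha]
    rw [e]
    exact h i

theorem Y0_mem (hφ : ContDiff ℝ ∞ φ) (hO : O ⊆ Ω) (hA : ∀ i, CS O (A i)) (hB : ∀ i, CS O (B i))
    (hF : ∀ i, CS Ω (F i)) {Z1 : PV} (hZ1 : ∀ i, Z1 i ∈ PQ ν true O) (i : Fin 3) :
    Y0f ν φ A B F Z1 i ∈ PQ ν false Ω :=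
  PQ_add (PQ_le (PQ_mono hO (PQ_add (cx_mem (Z0_mem hφ hA hB) i)
    (nc_mem hφ (fun j => PQ_eH (z' := true) (hZ1 j)) i)))) (PQ_TX (tb_mem 0 1) (hF i))

theorem eH_Y0 (hφ : ContDiff ℝ ∞ φ) (hA : ∀ i, CS O (A i)) (hB : ∀ i, CS O (B i))
    (hF : ∀ i, CS Ω (F i)) {Z1 : PV} (hZ1 : ∀ i, Z1 i ∈ PQ ν true O) (i : Fin 3) :
    dd eH (Y0f ν φ A B F Z1 i) ∈ PQ ν true O := by
  have m : (fun p => cx (Z0f ν φ A B) i p + nc φ (fun j => dd eH (Z1 j)) i p) ∈ PQ ν true O :=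
    PQ_add (cx_mem (Z0_mem hφ hA hB) i) (nc_mem hφ (fun j => PQ_eH (z' := true) (hZ1 j)) i)
  have e : dd eH (Y0f ν φ A B F Z1 i) = dd eH (fun p => cx (Z0f ν φ A B) i p
      + nc φ (fun j => dd eH (Z1 j)) i p) := by
    unfold Y0f
    rw [dd_add (PQ_contDiff m) (PQ_contDiff (PQ_TX (tb_mem (ν := ν) 0 1) (hF i))),
      eH_TX (tb_contDiff 0 1) (hF i).smooth]
    funext p
    simp
  rw [e]
  exact PQ_eH m

/-- the second part of the velocity -/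
noncomputable def Y1f (φ : E3 → ℝ) (Z1 Z2 : PV) (s : Finset (ℕ × ℕ)) (σ : ℕ × ℕ → ℝ → ℝ)
    (S : ℕ × ℕ → VF) : PV := fun i p =>
  (cx Z1 i p + nc φ (fun j => dd eH (Z2 j)) i p) + ∑ a ∈ s, σ a p.1 * px (S a i) p

theorem Y1_mem (hφ : ContDiff ℝ ∞ φ) (hO : O ⊆ Ω) {Z1 Z2 : PV} (hZ1 : ∀ i, Z1 i ∈ PQ ν true O)
    (hZ2 : ∀ i, Z2 i ∈ PQ ν true O) {s : Finset (ℕ × ℕ)} {σ : ℕ × ℕ → ℝ → ℝ}
    (hσ : ∀ a, σ a ∈ TT ν) {S : ℕ × ℕ → VF} (hS : ∀ a i, CS Ω (S a i)) (i : Fin 3) :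
    Y1f φ Z1 Z2 s σ S i ∈ PQ ν false Ω :=
  PQ_add (PQ_le (PQ_mono hO (PQ_add (cx_mem hZ1 i)
    (nc_mem hφ (fun j => PQ_eH (z' := true) (hZ2 j)) i))))
    (PQ_sum _ fun a _ => PQ_TX (hσ a) (hS a i))

theorem eH_sumTX {s : Finset (ℕ × ℕ)} {σ : ℕ × ℕ → ℝ → ℝ}
    (hσ : ∀ a, σ a ∈ TT ν) {S : ℕ × ℕ → VF} (hS : ∀ a i, CS Ω (S a i)) (i : Fin 3) :
    dd eH (fun p : PP => ∑ a ∈ s, σ a p.1 * px (S a i) p) = fun _ => 0 := by
  rw [dd_sum s (fun a => PQ_contDiff (PQ_TX (hσ a) (hS a i)))]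
  funext p
  refine Finset.sum_eq_zero fun a _ => ?_
  rw [eH_TX (TT_contDiff (hσ a)) (hS a i).smooth]

theorem eH_Y1 (hφ : ContDiff ℝ ∞ φ) {Z1 Z2 : PV} (hZ1 : ∀ i, Z1 i ∈ PQ ν true O)
    (hZ2 : ∀ i, Z2 i ∈ PQ ν true O) {s : Finset (ℕ × ℕ)} {σ : ℕ × ℕ → ℝ → ℝ}
    (hσ : ∀ a, σ a ∈ TT ν) {S : ℕ × ℕ → VF} (hS : ∀ a i, CS Ω (S a i)) (i : Fin 3) :
    dd eH (Y1f φ Z1 Z2 s σ S i) ∈ PQ ν true O := by
  have m : (fun p => cx Z1 i p + nc φ (fun j => dd eH (Z2 j)) i p) ∈ PQ ν true O :=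
    PQ_add (cx_mem hZ1 i) (nc_mem hφ (fun j => PQ_eH (z' := true) (hZ2 j)) i)
  have e : dd eH (Y1f φ Z1 Z2 s σ S i) = dd eH (fun p => cx Z1 i p
      + nc φ (fun j => dd eH (Z2 j)) i p) := by
    unfold Y1f
    rw [dd_add (PQ_contDiff m) (ContDiff.sum fun a _ => PQ_contDiff (PQ_TX (hσ a) (hS a i))),
      eH_sumTX hσ hS]
    funext p
    simp
  rw [e]
  exact PQ_eH m

/-- the second profile -/
theorem level1 (hφ : ContDiff ℝ ∞ φ) (hn : ∀ x ∈ O, ∑ j, pd j φ x ^ 2 = 1)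
    (hO : O ⊆ Ω) (hA : ∀ i, CS O (A i)) (hB : ∀ i, CS O (B i)) (hF : ∀ i, CS Ω (F i))
    (hv : ∀ i, ContDiff ℝ ∞ (v i)) {Z1 : PV} {P1 : PP → ℝ} (hZ1 : ∀ i, Z1 i ∈ PQ ν true O)
    (hP1 : P1 ∈ PQ ν true O) :
    ∃ (s : Finset (ℕ × ℕ)) (X : ℕ × ℕ → VF) (σ : ℕ × ℕ → ℝ → ℝ), (∀ a i, CS O (X a i)) ∧
      (∀ a, σ a ∈ TT ν) ∧ ∀ S : ℕ × ℕ → VF, (∀ a i, CS Ω (S a i)) →
        ∃ (Z2 : PV) (P2 : PP → ℝ), (∀ i, Z2 i ∈ PQ ν true O) ∧ P2 ∈ PQ ν true O ∧ ∀ i p,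
          HH ν (Y1f φ Z1 Z2 s σ S i) p - ν * Lp φ (Y0f ν φ A B F Z1 i) p
            - ν * Dp (Wf ν A B i) p
            + (nd φ (fun j => px (v j)) p + nd φ (Y0f ν φ A B F Z1) p)
              * dd eH (Y0f ν φ A B F Z1 i) p
            + nd φ (Y1f φ Z1 Z2 s σ S) p * dd eH (Wf ν A B i) p
            + Nx (fun j => px (v j)) (Wf ν A B i) p + Nx (Y0f ν φ A B F Z1) (Wf ν A B i) p
            + Nx (Wf ν A B) (Y0f ν φ A B F Z1 i) p + ∑ j, Wf ν A B j p * px (pd j (v i)) p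
          = dd (eX i) P1 p + nn φ i p * dd eH P2 p
            + ∑ a ∈ s, tb ν a.1 a.2 p.1 * (px (X a i) p - px (S a i) p) := by
  have hW := fun i => Wf_mem (ν := ν) hA hB i
  have hY0 := fun i => Y0_mem (ν := ν) hφ hO hA hB hF hZ1 i
  have hY0t := fun i => eH_Y0 (ν := ν) hφ hA hB hF hZ1 i
  set Y0 := Y0f ν φ A B F Z1 with hY0d
  set W := Wf ν A B with hWd
  set R' : PV := fun i p => (HH ν (cx Z1 i) p - ν * Lp φ (Y0 i) p - ν * Dp (W i) p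
    + (nd φ (fun j => px (v j)) p * dd eH (Y0 i) p + nd φ Y0 p * dd eH (Y0 i) p)
    + nd φ (cx Z1) p * dd eH (W i) p + Nx (fun j => px (v j)) (W i) p + Nx Y0 (W i) p
    + Nx W (Y0 i) p + ∑ j, W j p * px (pd j (v i)) p) - dd (eX i) P1 p with hR'
  have hRm : ∀ i, R' i ∈ PQ ν false O := by
    intro i
    refine PQ_sub (PQ_add (PQ_add (PQ_add (PQ_add (PQ_add (PQ_add (PQ_sub (PQ_sub ?_ ?_) ?_)
      (PQ_add ?_ ?_)) ?_) ?_) ?_) ?_) ?_) (PQ_le (PQ_eX i hP1))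
    · exact PQ_le (PQ_HH (cx_mem hZ1 i))
    · exact PQ_smul ν (PQ_le (Lp_mem' hφ (hY0t i)))
    · exact PQ_smul ν (PQ_le (Dp_mem (hW i)))
    · exact PQ_le (ndv_mul_mem hφ hv (hY0t i))
    · exact PQ_mul' (nd_mem hφ hY0) (hY0t i)
    · exact PQ_mul (nd_mem hφ (cx_mem hZ1)) (PQ_eH (z' := true) (hW i))
    · exact PQ_le (Nxv_mem hv (hW i))
    · exact Nx_mem' hY0 (hW i)
    · exact Nx_mem hW (hY0 i)
    · exact PQ_le (sv_mem hv hW i)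
  obtain ⟨s, X, hX, hosc⟩ := PQ_meanV hRm
  choose y hy hye using fun a : ℕ × ℕ => TT_solve 0 (tb_mem (ν := ν) a.1 a.2)
  refine ⟨s, X, fun a => -y a, hX, fun a => (TT ν).neg_mem (hy a), fun S hS => ?_⟩
  have hσ : ∀ a, (fun a => -y a) a ∈ TT ν := fun a => (TT ν).neg_mem (hy a)
  set σ : ℕ × ℕ → ℝ → ℝ := fun a => -y a with hσd
  have hσ' : ∀ a τ, deriv (σ a) τ = -tb ν a.1 a.2 τ := by
    intro a τ
    have h1 := hye a τ
    rw [zero_mul, add_zero] at h1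
    rw [← h1, hσd]
    exact deriv.neg
  set Ro : PV := fun i p => (R' i p - ∑ a ∈ s, tb ν a.1 a.2 p.1 * X a i p.2.2)
    + ∑ a ∈ s, σ a p.1 * (nd φ (fun j => px (S a j)) p * dd eH (W i) p) with hRo
  have hRom : ∀ i, Ro i ∈ PQ ν true O := by
    intro i
    exact PQ_add (hosc i) (PQ_sum _ fun a _ => PQ_TT_mul (hσ a)
      (ndv_mul_mem hφ (fun j => (hS a j).smooth) (PQ_eH (hW i))))
  choose Z hZ hZe using fun i => PQ_solve (hRom i)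
  obtain ⟨P2, hP2, hPe⟩ := PQ_int (nd_mem hφ hRom)
  have hZc := fun i => PQ_contDiff (hZ i)
  have hZ2 := nc_mem hφ hZ
  refine ⟨nc φ Z, P2, hZ2, hP2, fun i p => ?_⟩
  have e1 : (fun j => dd eH (nc φ Z j)) = nc φ (fun j => dd eH (Z j)) :=
    funext fun j => eH_nc hφ hZc j
  have c2 : ∀ j, ContDiff ℝ ∞ (dd eH (Z j)) := fun j => dd_contDiff (hZc j)
  have c3 := nc_contDiff hφ c2
  have e2 : HH ν (nc φ (nc φ (fun j => dd eH (Z j))) i) p = nn φ i p * nd φ Ro p - Ro i p := by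
    rw [HH_nc hφ c3]
    have e3 : (fun j => HH ν (nc φ (fun j => dd eH (Z j)) j)) = nc φ Ro := by
      funext j
      rw [HH_nc hφ c2]
      simp only [hZe]
    rw [e3, nc_nc hn hRom]
  have cc : ContDiff ℝ ∞ (cx Z1 i) := cx_contDiff (fun i => PQ_contDiff (hZ1 i)) i
  have cS : ∀ a, ContDiff ℝ ∞ (fun p : PP => σ a p.1 * px (S a i) p) := fun a =>
    PQ_contDiff (PQ_TX (hσ a) (hS a i))
  have eY : HH ν (Y1f φ Z1 (nc φ Z) s σ S i) p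
      = HH ν (cx Z1 i) p + (nn φ i p * nd φ Ro p - Ro i p)
        - ∑ a ∈ s, tb ν a.1 a.2 p.1 * px (S a i) p := by
    unfold Y1f
    rw [e1, HH_add (cc.add (nc_contDiff hφ c3 i)) (ContDiff.sum fun a _ => cS a),
      HH_add cc (nc_contDiff hφ c3 i), HH_sum s cS]
    simp only []
    rw [e2, sub_eq_add_neg _ (∑ a ∈ s, _), ← Finset.sum_neg_distrib]
    congr 1
    refine Finset.sum_congr rfl fun a _ => ?_
    rw [HH_TX (TT_contDiff (hσ a)) (hS a i).smooth]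
    simp only []
    rw [hσ']
    ring
  have eN : nd φ (Y1f φ Z1 (nc φ Z) s σ S) p = nd φ (cx Z1) p
      + ∑ a ∈ s, σ a p.1 * nd φ (fun j => px (S a j)) p := by
    have h2 := nd_nc (φ := φ) (fun j => dd eH (nc φ Z j)) p
    unfold nd at h2 ⊢
    unfold Y1f
    have h3 : ∑ a ∈ s, σ a p.1 * ∑ j, px (S a j) p * nn φ j p
        = ∑ j, (∑ a ∈ s, σ a p.1 * px (S a j) p) * nn φ j p := by
      simp only [Finset.mul_sum, Finset.sum_mul]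
      rw [Finset.sum_comm]
      exact Finset.sum_congr rfl fun j _ => Finset.sum_congr rfl fun a _ => by ring
    rw [h3]
    calc ∑ j, (cx Z1 j p + nc φ (fun j => dd eH (nc φ Z j)) j p
          + ∑ a ∈ s, σ a p.1 * px (S a j) p) * nn φ j p
        = ∑ j, cx Z1 j p * nn φ j p
          + ∑ j, nc φ (fun j => dd eH (nc φ Z j)) j p * nn φ j p
          + ∑ j, (∑ a ∈ s, σ a p.1 * px (S a j) p) * nn φ j p := by
          rw [← Finset.sum_add_distrib, ← Finset.sum_add_distrib]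
          exact Finset.sum_congr rfl fun j _ => by ring
      _ = _ := by rw [h2]; ring
  rw [eY, eN, hPe]
  have hRi : Ro i p = (R' i p - ∑ a ∈ s, tb ν a.1 a.2 p.1 * X a i p.2.2)
    + ∑ a ∈ s, σ a p.1 * (nd φ (fun j => px (S a j)) p * dd eH (W i) p) := rfl
  have hRi' : R' i p = (HH ν (cx Z1 i) p - ν * Lp φ (Y0 i) p - ν * Dp (W i) p
    + (nd φ (fun j => px (v j)) p * dd eH (Y0 i) p + nd φ Y0 p * dd eH (Y0 i) p)
    + nd φ (cx Z1) p * dd eH (W i) p + Nx (fun j => px (v j)) (W i) p + Nx Y0 (W i) p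
    + Nx W (Y0 i) p + ∑ j, W j p * px (pd j (v i)) p) - dd (eX i) P1 p := rfl
  have h4 : ∑ a ∈ s, σ a p.1 * (nd φ (fun j => px (S a j)) p * dd eH (W i) p)
      = (∑ a ∈ s, σ a p.1 * nd φ (fun j => px (S a j)) p) * dd eH (W i) p := by
    rw [Finset.sum_mul]
    exact Finset.sum_congr rfl fun a _ => by ring
  have h5 : ∑ a ∈ s, tb ν a.1 a.2 p.1 * (px (X a i) p - px (S a i) p)
      = ∑ a ∈ s, tb ν a.1 a.2 p.1 * X a i p.2.2 - ∑ a ∈ s, tb ν a.1 a.2 p.1 * px (S a i) p := by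
    rw [← Finset.sum_sub_distrib]
    exact Finset.sum_congr rfl fun a _ => by simp only [px]; ring
  rw [hRi, h4, h5, hRi']
  ring

end Pool.Agent.T2H10.DN
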