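import Pool.Agent.T2H10.DN.Exp2
import Pool.Agent.T2H10.DN.Defs2

/-!
The waves: the velocity and its properties.
-/

set_option autoImplicit false
set_option linter.unusedSectionVars false

open MeasureTheory Set Filter Topology
open scoped InnerProductSpace ENNReal ContDiff

namespace Pool.Agent.T2H10.DN

open H772R2.NS

variable {ν k t : ℝ} {O Ω : Set E3} {z : Bool} {φ q : E3 → ℝ} {A B F v : VF}

theorem PQ_bound3 (hν : 0 < ν) {E : PV} (hE : ∀ i, E i ∈ PQ ν z O) :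
    ∃ C : ℝ, 0 ≤ C ∧ ∀ i, ∀ p : PP, 0 ≤ p.1 → |E i p| ≤ C * Real.exp (-(ν / 2) * p.1) := by
  choose C hC h using fun i => PQ_bound hν (hE i)
  refine ⟨∑ i, C i, Finset.sum_nonneg fun i _ => hC i, fun i p hp => (h i p hp).trans ?_⟩
  refine mul_le_mul_of_nonneg_right ?_ (Real.exp_pos _).le
  exact Finset.single_le_sum (f := C) (fun i _ => hC i) (Finset.mem_univ i)

theorem PQ_supp3 {E : PV} (hE : ∀ i, E i ∈ PQ ν z O) :
    ∃ K : Set E3, IsCompact K ∧ K ⊆ O ∧ ∀ i, ∀ p : PP, p.2.2 ∉ K → E i p = 0 := by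
  choose K hK hs h using fun i => PQ_supp (hE i)
  refine ⟨⋃ i, K i, isCompact_iUnion hK, iUnion_subset hs, fun i p hp => h i p fun h' => hp ?_⟩
  exact mem_iUnion.2 ⟨i, h'⟩

theorem Dd_bound {a b c d e : ℝ} {W Y0 Y1 Y2 : PP → ℝ} {p : PP} (hk : 1 ≤ k) (h1 : |W p| ≤ a * e) (h2 : |Y0 p| ≤ b * e)
    (h3 : |Y1 p| ≤ c * e) (h4 : |Y2 p| ≤ d * e) :
    |Dd k W Y0 Y1 Y2 p| ≤ (a * k + (b + c + d)) * e := by
  have k0 : 0 < k := by linarith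
  have hi : k⁻¹ ≤ 1 := inv_le_one_of_one_le₀ hk
  have hi0 : 0 ≤ k⁻¹ := by positivity
  have hi2 : k⁻¹ ^ 2 ≤ 1 := pow_le_one₀ hi0 hi
  unfold Dd
  calc |k * W p + Y0 p + k⁻¹ * Y1 p + k⁻¹ ^ 2 * Y2 p|
      ≤ |k * W p| + |Y0 p| + |k⁻¹ * Y1 p| + |k⁻¹ ^ 2 * Y2 p| := by
        refine (abs_add_le _ _).trans (add_le_add ?_ le_rfl)
        refine (abs_add_le _ _).trans (add_le_add ?_ le_rfl)
        exact abs_add_le _ _
    _ = k * |W p| + |Y0 p| + k⁻¹ * |Y1 p| + k⁻¹ ^ 2 * |Y2 p| := by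
        rw [abs_mul, abs_mul, abs_mul, abs_of_pos k0, abs_of_nonneg hi0,
          abs_of_nonneg (by positivity : (0 : ℝ) ≤ k⁻¹ ^ 2)]
    _ ≤ k * (a * e) + b * e + 1 * (c * e) + 1 * (d * e) := by
        refine add_le_add (add_le_add (add_le_add ?_ h2) ?_) ?_
        · exact mul_le_mul_of_nonneg_left h1 k0.le
        · exact mul_le_mul hi h3 (abs_nonneg _) zero_le_one
        · exact mul_le_mul hi2 h4 (abs_nonneg _) zero_le_one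
    _ = _ := by ring

/-! ### the curl -/

theorem dv_cu' {Z : VF} (hZ : ∀ i, ContDiff ℝ ∞ (Z i)) (x : E3) : dv (cu Z) x = 0 := by
  have s : ∀ {f g : E3 → ℝ} (j : Fin 3), ContDiff ℝ ∞ f → ContDiff ℝ ∞ g →
      pd j (fun y => f y - g y) x = pd j f x - pd j g x := by
    intro f g j hf hg
    unfold pd
    rw [fderiv_fun_sub (hf.differentiable (by simp) x) (hg.differentiable (by simp) x)]
    rfl
  have c : ∀ i j, ContDiff ℝ ∞ (pd i (Z j)) := fun i j => pd_contDiff (hZ j) i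
  unfold dv
  rw [Fin.sum_univ_three]
  show pd 0 (fun x => pd 1 (Z 2) x - pd 2 (Z 1) x) x
    + pd 1 (fun x => pd 2 (Z 0) x - pd 0 (Z 2) x) x
    + pd 2 (fun x => pd 0 (Z 1) x - pd 1 (Z 0) x) x = 0
  rw [s 0 (c _ _) (c _ _), s 1 (c _ _) (c _ _), s 2 (c _ _) (c _ _)]
  rw [pd_pd_comm (hZ 2) 0 1, pd_pd_comm (hZ 1) 0 2, pd_pd_comm (hZ 0) 1 2]
  ring

theorem cu_ev (hφ : ContDiff ℝ ∞ φ) {Z : PV} (hZ : ∀ i, ContDiff ℝ ∞ (Z i)) (i : Fin 3)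
    (x : E3) : cu (fun j => ev φ k t (Z j)) i x
      = ev φ k t (fun p => k * nc φ (fun j => dd eH (Z j)) i p + cx Z i p) x := by
  fin_cases i
  · show pd 1 (ev φ k t (Z 2)) x - pd 2 (ev φ k t (Z 1)) x = _
    rw [pd_ev hφ (hZ _), pd_ev hφ (hZ _)]
    simp only [ev, dl]
    show _ = k * (nn φ 1 _ * dd eH (Z 2) _ - nn φ 2 _ * dd eH (Z 1) _)
      + (dd (eX 1) (Z 2) _ - dd (eX 2) (Z 1) _)
    ring
  · show pd 2 (ev φ k t (Z 0)) x - pd 0 (ev φ k t (Z 2)) x = _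
    rw [pd_ev hφ (hZ _), pd_ev hφ (hZ _)]
    simp only [ev, dl]
    show _ = k * (nn φ 2 _ * dd eH (Z 0) _ - nn φ 0 _ * dd eH (Z 2) _)
      + (dd (eX 2) (Z 0) _ - dd (eX 0) (Z 2) _)
    ring
  · show pd 0 (ev φ k t (Z 1)) x - pd 1 (ev φ k t (Z 0)) x = _
    rw [pd_ev hφ (hZ _), pd_ev hφ (hZ _)]
    simp only [ev, dl]
    show _ = k * (nn φ 0 _ * dd eH (Z 1) _ - nn φ 1 _ * dd eH (Z 0) _)
      + (dd (eX 0) (Z 1) _ - dd (eX 1) (Z 0) _)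
    ring

/-- the stream field -/
noncomputable def Ps (ν : ℝ) (φ : E3 → ℝ) (k : ℝ) (A B : VF) (Z1 Z2 : PV) : PV := fun j p =>
  Z0f ν φ A B j p + k⁻¹ * (Z1 j p + k⁻¹ * Z2 j p)

/-- the wave as a curl -/
theorem wave_eq (hφ : ContDiff ℝ ∞ φ) (hk : k ≠ 0) (hn : ∀ x ∈ O, ∑ j, pd j φ x ^ 2 = 1)
    (hA : ∀ i, CS O (A i)) (hB : ∀ i, CS O (B i)) (hAn : ∀ x, ∑ j, A j x * pd j φ x = 0)
    (hBn : ∀ x, ∑ j, B j x * pd j φ x = 0) {Z1 Z2 : PV} (hZ1 : ∀ i, Z1 i ∈ PQ ν true O)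
    (hZ2 : ∀ i, Z2 i ∈ PQ ν true O) (s : Finset (ℕ × ℕ)) (σ : ℕ × ℕ → ℝ → ℝ)
    (S : ℕ × ℕ → VF) (i : Fin 3) (x : E3) :
    ev φ k t (Dd k (Wf ν A B i) (Y0f ν φ A B F Z1 i) (Y1f φ Z1 Z2 s σ S i) (cx Z2 i)) x
      = tb ν 0 1 (k ^ 2 * t) * F i x + k⁻¹ * ∑ a ∈ s, σ a (k ^ 2 * t) * S a i x
        + cu (fun j => ev φ k t (Ps ν φ k A B Z1 Z2 j)) i x := by
  have hW := fun i => Wf_mem (ν := ν) hA hB i
  have hZ0 := fun i => Z0_mem (ν := ν) hφ hA hB i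
  have c0 := fun i => PQ_contDiff (hZ0 i)
  have c1 := fun i => PQ_contDiff (hZ1 i)
  have c2 := fun i => PQ_contDiff (hZ2 i)
  have cP : ∀ j, ContDiff ℝ ∞ (Ps ν φ k A B Z1 Z2 j) := fun j =>
    (c0 j).add (contDiff_const.mul ((c1 j).add (contDiff_const.mul (c2 j))))
  have hdd : ∀ (w : PP) (j : Fin 3) (p : PP), dd w (Ps ν φ k A B Z1 Z2 j) p
      = dd w (Z0f ν φ A B j) p + k⁻¹ * (dd w (Z1 j) p + k⁻¹ * dd w (Z2 j) p) := by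
    intro w j p
    unfold Ps
    rw [dd_add (c0 j) (contDiff_const.mul ((c1 j).add (contDiff_const.mul (c2 j)))),
      dd_smul _ ((c1 j).add (contDiff_const.mul (c2 j))),
      dd_add (c1 j) (contDiff_const.mul (c2 j)), dd_smul _ (c2 j)]
  have hW0 : ∀ i p, nc φ (fun j => dd eH (Z0f ν φ A B j)) i p = Wf ν A B i p := by
    intro i p
    have e1 : (fun j => dd eH (Z0f ν φ A B j)) = nc φ (fun j => dd eH (Wt ν A B j)) :=
      funext fun j => eH_nc hφ (fun i => PQ_contDiff (Wt_mem hA hB i)) j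
    rw [e1, nc_nc hn (fun j => PQ_eH (z' := true) (Wt_mem hA hB j)), eH_Wt hA hB]
    have h0 : nd φ (fun j => dd eH (Wt ν A B j)) p = 0 := by
      have h1 := nd_Wf (ν := ν) hAn hBn p
      unfold nd at h1 ⊢
      simp only [eH_Wt hA hB]
      simp only [neg_mul, Finset.sum_neg_distrib, h1, neg_zero]
    rw [h0]
    ring
  rw [cu_ev hφ cP]
  have hkk : k * k⁻¹ = 1 := mul_inv_cancel₀ hk
  have hnc : ∀ i p, nc φ (fun j => dd eH (Ps ν φ k A B Z1 Z2 j)) i p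
      = nc φ (fun j => dd eH (Z0f ν φ A B j)) i p
        + k⁻¹ * (nc φ (fun j => dd eH (Z1 j)) i p + k⁻¹ * nc φ (fun j => dd eH (Z2 j)) i p) := by
    intro i p
    fin_cases i
    · show nn φ 1 p * dd eH (Ps ν φ k A B Z1 Z2 2) p - nn φ 2 p * dd eH (Ps ν φ k A B Z1 Z2 1) p
        = (nn φ 1 p * dd eH (Z0f ν φ A B 2) p - nn φ 2 p * dd eH (Z0f ν φ A B 1) p)
          + k⁻¹ * ((nn φ 1 p * dd eH (Z1 2) p - nn φ 2 p * dd eH (Z1 1) p)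
            + k⁻¹ * (nn φ 1 p * dd eH (Z2 2) p - nn φ 2 p * dd eH (Z2 1) p))
      rw [hdd, hdd]; ring
    · show nn φ 2 p * dd eH (Ps ν φ k A B Z1 Z2 0) p - nn φ 0 p * dd eH (Ps ν φ k A B Z1 Z2 2) p
        = (nn φ 2 p * dd eH (Z0f ν φ A B 0) p - nn φ 0 p * dd eH (Z0f ν φ A B 2) p)
          + k⁻¹ * ((nn φ 2 p * dd eH (Z1 0) p - nn φ 0 p * dd eH (Z1 2) p)
            + k⁻¹ * (nn φ 2 p * dd eH (Z2 0) p - nn φ 0 p * dd eH (Z2 2) p))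
      rw [hdd, hdd]; ring
    · show nn φ 0 p * dd eH (Ps ν φ k A B Z1 Z2 1) p - nn φ 1 p * dd eH (Ps ν φ k A B Z1 Z2 0) p
        = (nn φ 0 p * dd eH (Z0f ν φ A B 1) p - nn φ 1 p * dd eH (Z0f ν φ A B 0) p)
          + k⁻¹ * ((nn φ 0 p * dd eH (Z1 1) p - nn φ 1 p * dd eH (Z1 0) p)
            + k⁻¹ * (nn φ 0 p * dd eH (Z2 1) p - nn φ 1 p * dd eH (Z2 0) p))
      rw [hdd, hdd]; ring
  have hcx : ∀ i p, cx (Ps ν φ k A B Z1 Z2) i p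
      = cx (Z0f ν φ A B) i p + k⁻¹ * (cx Z1 i p + k⁻¹ * cx Z2 i p) := by
    intro i p
    fin_cases i
    · show dd (eX 1) (Ps ν φ k A B Z1 Z2 2) p - dd (eX 2) (Ps ν φ k A B Z1 Z2 1) p
        = (dd (eX 1) (Z0f ν φ A B 2) p - dd (eX 2) (Z0f ν φ A B 1) p)
          + k⁻¹ * ((dd (eX 1) (Z1 2) p - dd (eX 2) (Z1 1) p)
            + k⁻¹ * (dd (eX 1) (Z2 2) p - dd (eX 2) (Z2 1) p))
      rw [hdd, hdd]; ring
    · show dd (eX 2) (Ps ν φ k A B Z1 Z2 0) p - dd (eX 0) (Ps ν φ k A B Z1 Z2 2) p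
        = (dd (eX 2) (Z0f ν φ A B 0) p - dd (eX 0) (Z0f ν φ A B 2) p)
          + k⁻¹ * ((dd (eX 2) (Z1 0) p - dd (eX 0) (Z1 2) p)
            + k⁻¹ * (dd (eX 2) (Z2 0) p - dd (eX 0) (Z2 2) p))
      rw [hdd, hdd]; ring
    · show dd (eX 0) (Ps ν φ k A B Z1 Z2 1) p - dd (eX 1) (Ps ν φ k A B Z1 Z2 0) p
        = (dd (eX 0) (Z0f ν φ A B 1) p - dd (eX 1) (Z0f ν φ A B 0) p)
          + k⁻¹ * ((dd (eX 0) (Z1 1) p - dd (eX 1) (Z1 0) p)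
            + k⁻¹ * (dd (eX 0) (Z2 1) p - dd (eX 1) (Z2 0) p))
      rw [hdd, hdd]; ring
  simp only [ev, Dd, hnc, hcx, hW0, Y0f, Y1f, px]
  linear_combination (-(nc φ (fun j => dd eH (Z1 j)) i (k ^ 2 * t, k * φ x, x)
    + k⁻¹ * nc φ (fun j => dd eH (Z2 j)) i (k ^ 2 * t, k * φ x, x))) * hkk

/-- the residual of the wave -/
theorem Rs_ev (hφ : ContDiff ℝ ∞ φ) {D : PV} (hD : ∀ i, ContDiff ℝ ∞ (D i)) (i : Fin 3) (x : E3) :
    Rs ν v (fun i => ev φ k t (D i)) (fun i x => k ^ 2 * ev φ k t (dd eT (D i)) x) i x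
      = ev φ k t (Rl ν φ k v D i) x := by
  unfold Rs
  simp only [pd_ev hφ (hD _), pd_ev hφ (dl_contDiff hφ (hD _) _)]
  rfl

end Pool.Agent.T2H10.DN
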