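import Pool.Agent.T2H10.DN.Exp3

/-!
The expansion of a layer.
-/

set_option autoImplicit false
set_option linter.unusedSectionVars false

open MeasureTheory Set Filter Topology
open scoped InnerProductSpace ENNReal ContDiff

namespace Pool.Agent.T2H10.DN

open H772R2.NS

variable {ν k t : ℝ} {O Ω : Set E3} {z : Bool} {φ q : E3 → ℝ} {A B F v : VF}

/-- the remainder -/
noncomputable def Rem (ν : ℝ) (φ : E3 → ℝ) (v : VF) (W Y0 Y1 Y2 : PV) (P2 : PP → ℝ) :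
    Fin 5 → PV := ![
  fun i p => (HH ν (Y2 i) p - ν * Lp φ (Y1 i) p - ν * Dp (Y0 i) p
    + (nd φ (fun j => px (v j)) p + nd φ Y0 p) * dd eH (Y1 i) p
    + nd φ Y1 p * dd eH (Y0 i) p + nd φ Y2 p * dd eH (W i) p
    + Nx (fun j => px (v j)) (Y0 i) p + Nx Y0 (Y0 i) p + Nx Y1 (W i) p + Nx W (Y1 i) p
    + ∑ j, Y0 j p * px (pd j (v i)) p) - dd (eX i) P2 p,
  fun i p => -ν * Lp φ (Y2 i) p - ν * Dp (Y1 i) p
    + (nd φ (fun j => px (v j)) p + nd φ Y0 p) * dd eH (Y2 i) p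
    + nd φ Y1 p * dd eH (Y1 i) p + nd φ Y2 p * dd eH (Y0 i) p
    + Nx (fun j => px (v j)) (Y1 i) p + Nx Y0 (Y1 i) p + Nx Y1 (Y0 i) p
    + Nx Y2 (W i) p + Nx W (Y2 i) p + ∑ j, Y1 j p * px (pd j (v i)) p,
  fun i p => -ν * Dp (Y2 i) p + nd φ Y1 p * dd eH (Y2 i) p + nd φ Y2 p * dd eH (Y1 i) p
    + Nx (fun j => px (v j)) (Y2 i) p + Nx Y0 (Y2 i) p + Nx Y2 (Y0 i) p + Nx Y1 (Y1 i) p
    + ∑ j, Y2 j p * px (pd j (v i)) p,
  fun i p => nd φ Y2 p * dd eH (Y2 i) p + Nx Y1 (Y2 i) p + Nx Y2 (Y1 i) p,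
  fun i p => Nx Y2 (Y2 i) p]

theorem Rem_mem (hφ : ContDiff ℝ ∞ φ) (hO : O ⊆ Ω) (hv : ∀ i, ContDiff ℝ ∞ (v i))
    {W Y0 Y1 Y2 : PV} {P2 : PP → ℝ} (hW : ∀ i, W i ∈ PQ ν true O)
    (h0 : ∀ i, Y0 i ∈ PQ ν false Ω) (h1 : ∀ i, Y1 i ∈ PQ ν false Ω) (h2 : ∀ i, Y2 i ∈ PQ ν true O)
    (hP : P2 ∈ PQ ν true O) (l : Fin 5) (i : Fin 3) : Rem ν φ v W Y0 Y1 Y2 P2 l i ∈ PQ ν false Ω := by
  have hW' : ∀ i, W i ∈ PQ ν false Ω := fun i => PQ_le (PQ_mono hO (hW i))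
  have h2' : ∀ i, Y2 i ∈ PQ ν false Ω := fun i => PQ_le (PQ_mono hO (h2 i))
  have hvn : ∀ {E : PP → ℝ} {U : PV}, (∀ i, U i ∈ PQ ν false Ω) → E ∈ PQ ν false Ω →
      (fun p => (nd φ (fun j => px (v j)) p + nd φ U p) * dd eH E p) ∈ PQ ν false Ω := by
    intro E U hU hE
    have e : (fun p => (nd φ (fun j => px (v j)) p + nd φ U p) * dd eH E p)
        = fun p => nd φ (fun j => px (v j)) p * dd eH E p + nd φ U p * dd eH E p := by
      funext p; ring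
    rw [e]
    exact PQ_add (ndv_mul_mem hφ hv (PQ_eH (z' := false) hE))
      (PQ_mul (nd_mem hφ hU) (PQ_eH (z' := false) hE))
  have hnn : ∀ {E : PP → ℝ} {U : PV}, (∀ i, U i ∈ PQ ν false Ω) → E ∈ PQ ν false Ω →
      (fun p => nd φ U p * dd eH E p) ∈ PQ ν false Ω := fun hU hE =>
    PQ_mul (nd_mem hφ hU) (PQ_eH (z' := false) hE)
  have hNN : ∀ {E : PP → ℝ} {U : PV}, (∀ i, U i ∈ PQ ν false Ω) → E ∈ PQ ν false Ω →
      Nx U E ∈ PQ ν false Ω := fun hU hE => Nx_mem hU hE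
  have hLL : ∀ {E : PP → ℝ}, E ∈ PQ ν false Ω → Lp φ E ∈ PQ ν false Ω := fun hE =>
    PQ_le (Lp_mem hφ hE)
  fin_cases l
  · show (fun p => (HH ν (Y2 i) p - ν * Lp φ (Y1 i) p - ν * Dp (Y0 i) p
      + (nd φ (fun j => px (v j)) p + nd φ Y0 p) * dd eH (Y1 i) p
      + nd φ Y1 p * dd eH (Y0 i) p + nd φ Y2 p * dd eH (W i) p
      + Nx (fun j => px (v j)) (Y0 i) p + Nx Y0 (Y0 i) p + Nx Y1 (W i) p + Nx W (Y1 i) p
      + ∑ j, Y0 j p * px (pd j (v i)) p) - dd (eX i) P2 p) ∈ PQ ν false Ω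
    refine PQ_sub (PQ_add (PQ_add (PQ_add (PQ_add (PQ_add (PQ_add (PQ_add (PQ_add (PQ_sub (PQ_sub
      (PQ_HH (h2' i)) (PQ_smul ν (hLL (h1 i)))) (PQ_smul ν (Dp_mem (h0 i)))) ?_) (hnn h1 (h0 i)))
      (hnn h2' (hW' i))) (Nxv_mem hv (h0 i))) (hNN h0 (h0 i))) (hNN h1 (hW' i)))
      (hNN hW' (h1 i))) (sv_mem hv h0 i)) (PQ_le (PQ_mono hO (PQ_eX i hP)))
    exact hvn h0 (h1 i)
  · show (fun p => -ν * Lp φ (Y2 i) p - ν * Dp (Y1 i) p
      + (nd φ (fun j => px (v j)) p + nd φ Y0 p) * dd eH (Y2 i) p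
      + nd φ Y1 p * dd eH (Y1 i) p + nd φ Y2 p * dd eH (Y0 i) p
      + Nx (fun j => px (v j)) (Y1 i) p + Nx Y0 (Y1 i) p + Nx Y1 (Y0 i) p
      + Nx Y2 (W i) p + Nx W (Y2 i) p + ∑ j, Y1 j p * px (pd j (v i)) p) ∈ PQ ν false Ω
    refine PQ_add (PQ_add (PQ_add (PQ_add (PQ_add (PQ_add (PQ_add (PQ_add (PQ_add (PQ_sub
      (PQ_smul (-ν) (hLL (h2' i))) (PQ_smul ν (Dp_mem (h1 i)))) ?_) (hnn h1 (h1 i)))
      (hnn h2' (h0 i))) (Nxv_mem hv (h1 i))) (hNN h0 (h1 i))) (hNN h1 (h0 i)))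
      (hNN h2' (hW' i))) (hNN hW' (h2' i))) (sv_mem hv h1 i)
    exact hvn h0 (h2' i)
  · show (fun p => -ν * Dp (Y2 i) p + nd φ Y1 p * dd eH (Y2 i) p + nd φ Y2 p * dd eH (Y1 i) p
      + Nx (fun j => px (v j)) (Y2 i) p + Nx Y0 (Y2 i) p + Nx Y2 (Y0 i) p + Nx Y1 (Y1 i) p
      + ∑ j, Y2 j p * px (pd j (v i)) p) ∈ PQ ν false Ω
    exact PQ_add (PQ_add (PQ_add (PQ_add (PQ_add (PQ_add (PQ_add
      (PQ_smul (-ν) (Dp_mem (h2' i))) (hnn h1 (h2' i))) (hnn h2' (h1 i))) (Nxv_mem hv (h2' i)))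
      (hNN h0 (h2' i))) (hNN h2' (h0 i))) (hNN h1 (h1 i))) (sv_mem hv h2' i)
  · show (fun p => nd φ Y2 p * dd eH (Y2 i) p + Nx Y1 (Y2 i) p + Nx Y2 (Y1 i) p) ∈ PQ ν false Ω
    exact PQ_add (PQ_add (hnn h2' (h2' i)) (hNN h1 (h2' i))) (hNN h2' (h1 i))
  · show (fun p => Nx Y2 (Y2 i) p) ∈ PQ ν false Ω
    exact hNN h2' (h2' i)

theorem n2_mul (hn : ∀ x ∈ O, ∑ j, pd j φ x ^ 2 = 1) {E : PP → ℝ} (hE : dd eH E ∈ PQ ν z O)
    (p : PP) : (∑ j, nn φ j p ^ 2) * dd eH (dd eH E) p = dd eH (dd eH E) p := by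
  by_cases hp : p.2.2 ∈ O
  · have h : ∑ j, nn φ j p ^ 2 = 1 := hn _ hp
    rw [h, one_mul]
  · have h : dd eH (dd eH E) p = 0 := PQ_out (PQ_eH (z' := true) hE) p hp
    rw [h, mul_zero]

theorem exp_arg (ν k t : ℝ) : Real.exp (-(ν / 2 * k ^ 2) * t) = Real.exp (-(ν / 2) * (k ^ 2 * t)) := by
  congr 1; ring

/-- the expansion -/
theorem layer_expansion2 (hν : 0 < ν) (hv : ∀ i, CS Ω (v i)) {M : ℝ} (hF : LayM Ω F M) :
    ∃ (φ : E3 → ℝ) (O : Set E3) (P Q : VF) (s : Finset (ℕ × ℕ)) (X : ℕ × ℕ → VF) (C0 : ℝ),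
      0 ≤ C0 ∧ ContDiff ℝ ∞ φ ∧ (∀ x ∈ O, ∑ j, pd j φ x ^ 2 = 1) ∧ (∀ i, CS (Ω ∩ O) (P i)) ∧
      (∀ i, CS (Ω ∩ O) (Q i)) ∧ (∀ i x, |P i x| ≤ 4 * √ν * M) ∧ (∀ i x, |Q i x| ≤ 4 * √ν * M) ∧
      (∀ a i, CS Ω (X a i)) ∧
      ∀ S : ℕ × ℕ → VF, (∀ a i, CS Ω (S a i)) → (∀ a x, dv (S a) x = 0) →
        ∃ (C : ℝ) (K : Set E3) (c : ℕ × ℕ → ℝ) (D D1 : ℝ → ℝ → VF) (R : ℝ → VF),
          0 ≤ C ∧ IsCompact K ∧ K ⊆ Ω ∧ ∀ k : ℝ, 1 ≤ k →
            Fam Ω ν v s X S C0 C k K (D k) (D1 k) ∧ (∀ i, CS Ω (R k i)) ∧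
            (∀ i x, |R k i x| ≤ C) ∧ (∀ i j x, |pd j (R k i) x| ≤ C * k) ∧
            ∀ i x, D k 0 i x = F i x + k⁻¹ * ∑ a ∈ s, c a * S a i x
              + cu (fun j y => P j y * Real.cos (k * φ y) + Q j y * Real.sin (k * φ y)
                + k⁻¹ * R k j y) i x := by
  obtain ⟨φ, O', A, B, q, hφ, hO', hn', hA, hB, hq, hAn, hBn, hFe, hdF, hAM, hBM⟩ := hF
  set O : Set E3 := Ω ∩ O' with hOd
  have hO : O ⊆ Ω := inter_subset_left
  have hn : ∀ x ∈ O, ∑ j, pd j φ x ^ 2 = 1 := fun x hx => hn' x hx.2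
  have hvs : ∀ i, ContDiff ℝ ∞ (v i) := fun i => (hv i).smooth
  have hFC : ∀ i, CS Ω (F i) := by
    intro i
    have e : F i = fun x => (∑ j, pd j (fun y => A i y * A j y + B i y * B j y) x) + pd i q x :=
      funext fun x => hFe i x
    rw [e]
    refine CS.add (CS.sum _ fun j _ => CS.mono hO ?_) (hq.pd i)
    exact (((hA i).mul_right (hA j).smooth).add ((hB i).mul_right (hB j).smooth)).pd j
  have hFs : ∀ i, ContDiff ℝ ∞ (F i) := fun i => (hFC i).smooth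
  obtain ⟨Z1, P1, hZ1, hP1, h2⟩ := level2 hν hφ hn hA hB hAn hBn hFs hvs hFe
  obtain ⟨s, X, σ, hX, hσ, h1⟩ := level1 hφ hn hO hA hB hFC hvs hZ1 hP1
  have hW := fun i => Wf_mem (ν := ν) hA hB i
  have hY0 := fun i => Y0_mem (ν := ν) hφ hO hA hB hFC hZ1 i
  have hY0t := fun i => eH_Y0 (ν := ν) hφ hA hB hFC hZ1 i
  -- the amplitudes
  have hnb : ∀ j x, x ∈ O → |pd j φ x| ≤ 1 := by
    intro j x hx
    have h := hn x hx
    have h3 : pd j φ x ^ 2 ≤ 1 := by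
      rw [← h]
      exact Finset.single_le_sum (f := fun j => pd j φ x ^ 2) (fun _ _ => sq_nonneg _)
        (Finset.mem_univ j)
    exact abs_le_one_iff_mul_self_le_one.2 (by nlinarith)
  have hM0 : 0 ≤ M := (abs_nonneg _).trans (hAM 0 0)
  have hamp : ∀ {V : VF}, (∀ i, CS O (V i)) → (∀ i x, |V i x| ≤ M) → ∀ a b c d : Fin 3, ∀ x,
      |2 * √ν * (pd a φ x * V b x - pd c φ x * V d x)| ≤ 4 * √ν * M := by
    intro V hV hVM a b c d x
    by_cases hx : x ∈ O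
    · have e1 : |pd a φ x * V b x| ≤ M := by
        rw [abs_mul]
        calc |pd a φ x| * |V b x| ≤ 1 * M := mul_le_mul (hnb a x hx) (hVM b x) (abs_nonneg _)
              zero_le_one
          _ = M := one_mul M
      have e2 : |pd c φ x * V d x| ≤ M := by
        rw [abs_mul]
        calc |pd c φ x| * |V d x| ≤ 1 * M := mul_le_mul (hnb c x hx) (hVM d x) (abs_nonneg _)
              zero_le_one
          _ = M := one_mul M
      rw [abs_mul, abs_of_nonneg (by positivity : 0 ≤ 2 * √ν)]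
      calc 2 * √ν * |pd a φ x * V b x - pd c φ x * V d x| ≤ 2 * √ν * (M + M) := by
            refine mul_le_mul_of_nonneg_left ?_ (by positivity)
            exact (abs_sub _ _).trans (add_le_add e1 e2)
        _ = 4 * √ν * M := by ring
    · rw [(hV b).eq_zero hx, (hV d).eq_zero hx]
      simp only [mul_zero, sub_zero, abs_zero]
      positivity
  -- constants
  obtain ⟨CW, hCW, bW⟩ := PQ_bound3 hν hW
  obtain ⟨CW1, hCW1, bW1⟩ := PQ_bound3 hν (fun i => PQ_eT (hW i))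
  refine ⟨φ, O', fun i => fun x => 2 * √ν * ![pd 1 φ x * B 2 x - pd 2 φ x * B 1 x,
      pd 2 φ x * B 0 x - pd 0 φ x * B 2 x, pd 0 φ x * B 1 x - pd 1 φ x * B 0 x] i,
    fun i => fun x => -(2 * √ν * ![pd 1 φ x * A 2 x - pd 2 φ x * A 1 x,
      pd 2 φ x * A 0 x - pd 0 φ x * A 2 x, pd 0 φ x * A 1 x - pd 1 φ x * A 0 x] i), s, X,
    CW + CW1, by positivity, hφ, hn', ?_, ?_, ?_, ?_, fun a i => (hX a i).mono hO, ?_⟩
  · intro i
    refine CS.const_mul _ ?_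
    fin_cases i
    · exact ((hB 2).mul_left (pd_contDiff hφ 1)).sub ((hB 1).mul_left (pd_contDiff hφ 2))
    · exact ((hB 0).mul_left (pd_contDiff hφ 2)).sub ((hB 2).mul_left (pd_contDiff hφ 0))
    · exact ((hB 1).mul_left (pd_contDiff hφ 0)).sub ((hB 0).mul_left (pd_contDiff hφ 1))
  · intro i
    refine CS.neg (CS.const_mul _ ?_)
    fin_cases i
    · exact ((hA 2).mul_left (pd_contDiff hφ 1)).sub ((hA 1).mul_left (pd_contDiff hφ 2))
    · exact ((hA 0).mul_left (pd_contDiff hφ 2)).sub ((hA 2).mul_left (pd_contDiff hφ 0))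
    · exact ((hA 1).mul_left (pd_contDiff hφ 0)).sub ((hA 0).mul_left (pd_contDiff hφ 1))
  · intro i x
    fin_cases i
    · exact hamp hB hBM 1 2 2 1 x
    · exact hamp hB hBM 2 0 0 2 x
    · exact hamp hB hBM 0 1 1 0 x
  · intro i x
    rw [abs_neg]
    fin_cases i
    · exact hamp hA hAM 1 2 2 1 x
    · exact hamp hA hAM 2 0 0 2 x
    · exact hamp hA hAM 0 1 1 0 x
  intro S hS hdS
  obtain ⟨Z2, P2, hZ2, hP2, h1'⟩ := h1 S hS
  have hY1 := fun i => Y1_mem (ν := ν) hφ hO hZ1 hZ2 hσ hS i (s := s)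
  have hY1t := fun i => eH_Y1 (ν := ν) hφ hZ1 hZ2 hσ hS i (s := s)
  have hY2 := fun i => cx_mem hZ2 i
  set W := Wf ν A B with hWd
  set Y0 := Y0f ν φ A B F Z1 with hY0d
  set Y1 := Y1f φ Z1 Z2 s σ S with hY1d
  set Y2 := cx Z2 with hY2d
  have cW := fun i => PQ_contDiff (hW i)
  have c0 := fun i => PQ_contDiff (hY0 i)
  have c1 := fun i => PQ_contDiff (hY1 i)
  have c2 := fun i => PQ_contDiff (hY2 i)
  have hY2' : ∀ i, Y2 i ∈ PQ ν false Ω := fun i => PQ_le (PQ_mono hO (hY2 i))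
  have hW' : ∀ i, W i ∈ PQ ν false Ω := fun i => PQ_le (PQ_mono hO (hW i))
  -- supports
  obtain ⟨KW, kW1, kW2, kW3⟩ := PQ_supp3 hW'
  obtain ⟨K0, k01, k02, k03⟩ := PQ_supp3 hY0
  obtain ⟨K1, k11, k12, k13⟩ := PQ_supp3 hY1
  obtain ⟨K2, k21, k22, k23⟩ := PQ_supp3 hY2'
  obtain ⟨LW, lW1, lW2, lW3⟩ := PQ_supp3 (fun i => PQ_eT (hW' i))
  obtain ⟨L0, l01, l02, l03⟩ := PQ_supp3 (fun i => PQ_eT (hY0 i))
  obtain ⟨L1, l11, l12, l13⟩ := PQ_supp3 (fun i => PQ_eT (hY1 i))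
  obtain ⟨L2, l21, l22, l23⟩ := PQ_supp3 (fun i => PQ_eT (hY2' i))
  -- bounds
  obtain ⟨a0, ha0, b0⟩ := PQ_bound3 hν hY0
  obtain ⟨a1, ha1, b1⟩ := PQ_bound3 hν hY1
  obtain ⟨a2, ha2, b2⟩ := PQ_bound3 hν hY2'
  obtain ⟨e0, he0, d0⟩ := PQ_bound3 hν (fun i => PQ_eT (hY0 i))
  obtain ⟨e1, he1, d1⟩ := PQ_bound3 hν (fun i => PQ_eT (hY1 i))
  obtain ⟨e2, he2, d2⟩ := PQ_bound3 hν (fun i => PQ_eT (hY2' i))
  have hx : ∀ {E : PV}, (∀ i, E i ∈ PQ ν false Ω) → ∃ C : ℝ, 0 ≤ C ∧ ∀ j i, ∀ p : PP, 0 ≤ p.1 →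
      |dd (eX j) (E i) p| ≤ C * Real.exp (-(ν / 2) * p.1) ∧
      |nn φ j p * dd eH (E i) p| ≤ C * Real.exp (-(ν / 2) * p.1) := by
    intro E hE
    choose C hC h using fun j => PQ_bound3 hν (fun i => PQ_eX j (hE i))
    choose C' hC' h' using fun j => PQ_bound3 hν (E := fun i p => nn φ j p * dd eH (E i) p)
      (fun i => PQ_px (pd_contDiff hφ j) (PQ_eH (z' := false) (hE i)))
    refine ⟨∑ j, (C j + C' j), Finset.sum_nonneg fun j _ => add_nonneg (hC j) (hC' j),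
      fun j i p hp => ⟨(h j i p hp).trans ?_, (h' j i p hp).trans ?_⟩⟩
    · refine mul_le_mul_of_nonneg_right ?_ (Real.exp_pos _).le
      refine le_trans ?_ (Finset.single_le_sum (f := fun j => C j + C' j)
        (fun i _ => add_nonneg (hC i) (hC' i)) (Finset.mem_univ j))
      exact le_add_of_nonneg_right (hC' j)
    · refine mul_le_mul_of_nonneg_right ?_ (Real.exp_pos _).le
      refine le_trans ?_ (Finset.single_le_sum (f := fun j => C j + C' j)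
        (fun i _ => add_nonneg (hC i) (hC' i)) (Finset.mem_univ j))
      exact le_add_of_nonneg_left (hC j)
  obtain ⟨gW, hgW, fW⟩ := hx hW'
  obtain ⟨g0, hg0, f0⟩ := hx hY0
  obtain ⟨g1, hg1, f1⟩ := hx hY1
  obtain ⟨g2, hg2, f2⟩ := hx hY2'
  choose r hr br using fun l => PQ_bound3 hν (Rem_mem (l := l) hφ hO hvs hW hY0 hY1 hY2 hP2)
  obtain ⟨m1, hm1, n1⟩ := PQ_bound3 hν hZ1
  obtain ⟨m2, hm2, n2⟩ := PQ_bound3 hν hZ2
  obtain ⟨h1c, hh1, j1⟩ := hx (fun i => PQ_le (PQ_mono hO (hZ1 i)))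
  obtain ⟨h2c, hh2, j2⟩ := hx (fun i => PQ_le (PQ_mono hO (hZ2 i)))
  set C : ℝ := (a0 + a1 + a2) + (e0 + e1 + e2) + 2 * (gW + (g0 + g1 + g2))
    + (r 0 + r 1 + r 2 + r 3 + r 4) + (m1 + m2) + 2 * (h1c + h2c) with hC
  have hr0 := hr 0
  have hr1 := hr 1
  have hr2 := hr 2
  have hr3 := hr 3
  have hr4 := hr 4
  refine ⟨C, (KW ∪ K0 ∪ K1 ∪ K2) ∪ (LW ∪ L0 ∪ L1 ∪ L2), fun a => σ a 0,
    fun k t i => ev φ k t (Dd k (W i) (Y0 i) (Y1 i) (Y2 i)),
    fun k t i x => k ^ 2 * ev φ k t (dd eT (Dd k (W i) (Y0 i) (Y1 i) (Y2 i))) x,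
    fun k j => ev φ k 0 (fun p => Z1 j p + k⁻¹ * Z2 j p), by positivity,
    (((kW1.union k01).union k11).union k21).union (((lW1.union l01).union l11).union l21),
    union_subset (union_subset (union_subset (union_subset kW2 k02) k12) k22)
      (union_subset (union_subset (union_subset lW2 l02) l12) l22), fun k hk => ?_⟩
  have k0 : 0 < k := by linarith
  have hk0 : k ≠ 0 := k0.ne'
  have hki : k⁻¹ ≤ 1 := inv_le_one_of_one_le₀ hk
  have hki0 : 0 ≤ k⁻¹ := by positivity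
  have cD : ∀ i, ContDiff ℝ ∞ (Dd k (W i) (Y0 i) (Y1 i) (Y2 i)) := fun i =>
    Dd_contDiff (cW i) (c0 i) (c1 i) (c2 i)
  have hk12 : k ≤ k ^ 2 := by nlinarith
  have hk02 : 1 ≤ k ^ 2 := by nlinarith
  refine ⟨?_, ?_, ?_, ?_, ?_⟩
  · refine ⟨fun i => ev_contDiff2 hφ (cD i), fun i => contDiff_const.mul (ev_contDiff2 hφ
      (dd_contDiff (cD i))), fun i t x => hasDerivAt_ev (cD i) x t, ?_, ?_, ?_, ?_, ?_, ?_, ?_⟩
    · intro i t x hx'
      simp only [mem_union, not_or] at hx'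
      obtain ⟨⟨⟨⟨x1, x2⟩, x3⟩, x4⟩, -⟩ := hx'
      show Dd k (W i) (Y0 i) (Y1 i) (Y2 i) (k ^ 2 * t, k * φ x, x) = 0
      unfold Dd
      rw [kW3 i _ x1, k03 i _ x2, k13 i _ x3, k23 i _ x4]
      ring
    · intro i t x hx'
      simp only [mem_union, not_or] at hx'
      obtain ⟨-, ⟨⟨x1, x2⟩, x3⟩, x4⟩ := hx'
      show k ^ 2 * dd eT (Dd k (W i) (Y0 i) (Y1 i) (Y2 i)) (k ^ 2 * t, k * φ x, x) = 0
      rw [dd_Dd (cW i) (c0 i) (c1 i) (c2 i)]
      unfold Dd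
      rw [lW3 i _ x1, l03 i _ x2, l13 i _ x3, l23 i _ x4]
      ring
    · -- the divergence
      intro t x
      have hw := fun i => wave_eq (k := k) (t := t) (F := F) hφ hk0 hn hA hB hAn hBn hZ1 hZ2 s σ S i
      have e : (fun i => ev φ k t (Dd k (W i) (Y0 i) (Y1 i) (Y2 i)))
          = fun i x => tb ν 0 1 (k ^ 2 * t) * F i x + k⁻¹ * ∑ a ∈ s, σ a (k ^ 2 * t) * S a i x
            + cu (fun j => ev φ k t (Ps ν φ k A B Z1 Z2 j)) i x :=
        funext fun i => funext fun x => hw i x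
      have cP : ∀ j, ContDiff ℝ ∞ (ev φ k t (Ps ν φ k A B Z1 Z2 j)) := fun j =>
        ev_contDiff hφ ((PQ_contDiff (Z0_mem hφ hA hB j)).add (contDiff_const.mul
          ((PQ_contDiff (hZ1 j)).add (contDiff_const.mul (PQ_contDiff (hZ2 j))))))
      have cC : ∀ i, ContDiff ℝ ∞ (cu (fun j => ev φ k t (Ps ν φ k A B Z1 Z2 j)) i) := by
        intro i
        fin_cases i
        · exact (pd_contDiff (cP 2) 1).sub (pd_contDiff (cP 1) 2)
        · exact (pd_contDiff (cP 0) 2).sub (pd_contDiff (cP 2) 0)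
        · exact (pd_contDiff (cP 1) 0).sub (pd_contDiff (cP 0) 1)
      have cSS : ∀ i, ContDiff ℝ ∞ (fun x => ∑ a ∈ s, σ a (k ^ 2 * t) * S a i x) := fun i =>
        ContDiff.sum fun a _ => contDiff_const.mul (hS a i).smooth
      have hpc : ∀ (c : ℝ) {f : E3 → ℝ} (j : Fin 3) (x : E3), ContDiff ℝ ∞ f →
          pd j (fun y => c * f y) x = c * pd j f x := by
        intro c f j x hf
        unfold pd
        rw [fderiv_const_mul (hf.differentiable (by simp) x)]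
        rfl
      have hps : ∀ (i j : Fin 3) (x : E3), pd j (fun y => ∑ a ∈ s, σ a (k ^ 2 * t) * S a i y) x
          = ∑ a ∈ s, σ a (k ^ 2 * t) * pd j (S a i) x := by
        intro i j x
        have h5 : pd j (fun y => ∑ a ∈ s, σ a (k ^ 2 * t) * S a i y) x
            = ∑ a ∈ s, pd j (fun y => σ a (k ^ 2 * t) * S a i y) x := by
          unfold pd
          rw [fderiv_fun_sum (fun a _ => (contDiff_const.mul
            (hS a i).smooth).differentiable (by simp) x)]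
          simp
        rw [h5]
        exact Finset.sum_congr rfl fun a _ => hpc _ j x (hS a i).smooth
      show dv (fun i => ev φ k t (Dd k (W i) (Y0 i) (Y1 i) (Y2 i))) x = 0
      rw [e]
      unfold dv
      have h3 : ∀ i, pd i (fun x => tb ν 0 1 (k ^ 2 * t) * F i x
            + k⁻¹ * ∑ a ∈ s, σ a (k ^ 2 * t) * S a i x
            + cu (fun j => ev φ k t (Ps ν φ k A B Z1 Z2 j)) i x) x
          = tb ν 0 1 (k ^ 2 * t) * pd i (F i) x
            + k⁻¹ * ∑ a ∈ s, σ a (k ^ 2 * t) * pd i (S a i) x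
            + pd i (cu (fun j => ev φ k t (Ps ν φ k A B Z1 Z2 j)) i) x := by
        intro i
        rw [pd_add ((contDiff_const.mul (hFs i)).add (contDiff_const.mul (cSS i))) (cC i),
          pd_add (contDiff_const.mul (hFs i)) (contDiff_const.mul (cSS i)), hpc _ i x (hFs i),
          hpc _ i x (cSS i), hps]
      simp only [h3, Finset.sum_add_distrib, ← Finset.mul_sum]
      have h4 : ∑ i, pd i (F i) x = 0 := hdF x
      have h5 : ∑ i, pd i (cu (fun j => ev φ k t (Ps ν φ k A B Z1 Z2 j)) i) x = 0 :=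
        dv_cu' cP x
      have h6 : ∑ i, ∑ a ∈ s, σ a (k ^ 2 * t) * pd i (S a i) x = 0 := by
        rw [Finset.sum_comm]
        refine Finset.sum_eq_zero fun a _ => ?_
        rw [← Finset.mul_sum]
        have : ∑ i, pd i (S a i) x = 0 := hdS a x
        rw [this, mul_zero]
      rw [h4, h5, h6]
      ring
    · -- the size
      intro i t x ht
      have hp : (0 : ℝ) ≤ ((k ^ 2 * t, k * φ x, x) : PP).1 := by
        show 0 ≤ k ^ 2 * t
        positivity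
      rw [exp_arg]
      refine (Dd_bound hk (bW i _ hp) (b0 i _ hp) (b1 i _ hp) (b2 i _ hp)).trans ?_
      refine mul_le_mul_of_nonneg_right ?_ (Real.exp_pos _).le
      have : CW * k ≤ (CW + CW1) * k := by
        refine mul_le_mul_of_nonneg_right ?_ k0.le
        linarith
      have : a0 + a1 + a2 ≤ C := by
        rw [hC]
        have : 0 ≤ (e0 + e1 + e2) + 2 * (gW + (g0 + g1 + g2))
          + (r 0 + r 1 + r 2 + r 3 + r 4) + (m1 + m2) + 2 * (h1c + h2c) := by positivity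
        linarith
      linarith
    · -- the gradient
      intro i j t x ht
      have hp : (0 : ℝ) ≤ ((k ^ 2 * t, k * φ x, x) : PP).1 := by
        show 0 ≤ k ^ 2 * t
        positivity
      rw [exp_arg, pd_ev hφ (cD i)]
      show |dl φ k j (Dd k (W i) (Y0 i) (Y1 i) (Y2 i)) (k ^ 2 * t, k * φ x, x)| ≤ _
      set p : PP := (k ^ 2 * t, k * φ x, x) with hpd
      have e : dl φ k j (Dd k (W i) (Y0 i) (Y1 i) (Y2 i)) p
          = k * Dd k (fun p => nn φ j p * dd eH (W i) p) (fun p => nn φ j p * dd eH (Y0 i) p)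
            (fun p => nn φ j p * dd eH (Y1 i) p) (fun p => nn φ j p * dd eH (Y2 i) p) p
            + Dd k (dd (eX j) (W i)) (dd (eX j) (Y0 i)) (dd (eX j) (Y1 i)) (dd (eX j) (Y2 i)) p := by
        unfold dl
        rw [dd_Dd (cW i) (c0 i) (c1 i) (c2 i), dd_Dd (cW i) (c0 i) (c1 i) (c2 i)]
        unfold Dd
        ring
      have q1 := Dd_bound (W := fun p => nn φ j p * dd eH (W i) p)
        (Y0 := fun p => nn φ j p * dd eH (Y0 i) p) (Y1 := fun p => nn φ j p * dd eH (Y1 i) p)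
        (Y2 := fun p => nn φ j p * dd eH (Y2 i) p) hk (fW j i p hp).2 (f0 j i p hp).2
        (f1 j i p hp).2 (f2 j i p hp).2
      have q2 := Dd_bound hk (fW j i p hp).1 (f0 j i p hp).1 (f1 j i p hp).1 (f2 j i p hp).1
      rw [e]
      refine (abs_add_le _ _).trans ?_
      rw [abs_mul, abs_of_pos k0]
      have hE := (Real.exp_pos (-(ν / 2) * p.1)).le
      have hG : 0 ≤ g0 + g1 + g2 := by positivity
      calc k * |Dd k (fun p => nn φ j p * dd eH (W i) p) (fun p => nn φ j p * dd eH (Y0 i) p)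
            (fun p => nn φ j p * dd eH (Y1 i) p) (fun p => nn φ j p * dd eH (Y2 i) p) p|
            + |Dd k (dd (eX j) (W i)) (dd (eX j) (Y0 i)) (dd (eX j) (Y1 i)) (dd (eX j) (Y2 i)) p|
          ≤ k * ((gW * k + (g0 + g1 + g2)) * Real.exp (-(ν / 2) * p.1))
            + (gW * k + (g0 + g1 + g2)) * Real.exp (-(ν / 2) * p.1) := by gcongr
        _ = (gW * k ^ 2 + (g0 + g1 + g2) * k + (gW * k + (g0 + g1 + g2)))
            * Real.exp (-(ν / 2) * p.1) := by ring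
        _ ≤ (gW * k ^ 2 + (g0 + g1 + g2) * k ^ 2 + (gW * k ^ 2 + (g0 + g1 + g2) * k ^ 2))
            * Real.exp (-(ν / 2) * p.1) := by
            refine mul_le_mul_of_nonneg_right ?_ hE
            refine add_le_add (add_le_add le_rfl ?_) (add_le_add ?_ ?_)
            · exact mul_le_mul_of_nonneg_left hk12 hG
            · exact mul_le_mul_of_nonneg_left hk12 hgW
            · exact le_mul_of_one_le_right hG hk02
        _ = 2 * (gW + (g0 + g1 + g2)) * k ^ 2 * Real.exp (-(ν / 2) * p.1) := by ring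
        _ ≤ C * k ^ 2 * Real.exp (-(ν / 2) * p.1) := by
            refine mul_le_mul_of_nonneg_right (mul_le_mul_of_nonneg_right ?_ (by positivity)) hE
            rw [hC]
            have : 0 ≤ (a0 + a1 + a2) + (e0 + e1 + e2)
              + (r 0 + r 1 + r 2 + r 3 + r 4) + (m1 + m2) + 2 * (h1c + h2c) := by positivity
            linarith
    · -- the time derivative
      intro i t x ht
      have hp : (0 : ℝ) ≤ ((k ^ 2 * t, k * φ x, x) : PP).1 := by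
        show 0 ≤ k ^ 2 * t
        positivity
      rw [exp_arg]
      show |k ^ 2 * dd eT (Dd k (W i) (Y0 i) (Y1 i) (Y2 i)) (k ^ 2 * t, k * φ x, x)| ≤ _
      rw [dd_Dd (cW i) (c0 i) (c1 i) (c2 i), abs_mul, abs_of_nonneg (by positivity : 0 ≤ k ^ 2)]
      have q1 := Dd_bound hk (bW1 i _ hp) (d0 i _ hp) (d1 i _ hp) (d2 i _ hp)
      refine (mul_le_mul_of_nonneg_left q1 (by positivity)).trans ?_
      have hE := (Real.exp_pos (-(ν / 2) * (k ^ 2 * t))).le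
      calc k ^ 2 * ((CW1 * k + (e0 + e1 + e2)) * Real.exp (-(ν / 2) * (k ^ 2 * t)))
          = (CW1 * k ^ 3 + (e0 + e1 + e2) * k ^ 2) * Real.exp (-(ν / 2) * (k ^ 2 * t)) := by ring
        _ ≤ ((CW + CW1) * k ^ 3 + C * k ^ 2) * Real.exp (-(ν / 2) * (k ^ 2 * t)) := by
          refine mul_le_mul_of_nonneg_right (add_le_add ?_ ?_) hE
          · refine mul_le_mul_of_nonneg_right ?_ (by positivity)
            linarith
          · refine mul_le_mul_of_nonneg_right ?_ (by positivity)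
            rw [hC]
            have : 0 ≤ (a0 + a1 + a2) + 2 * (gW + (g0 + g1 + g2))
              + (r 0 + r 1 + r 2 + r 3 + r 4) + (m1 + m2) + 2 * (h1c + h2c) := by positivity
            linarith
    · -- the residual
      intro t ht
      have hp0 : (0 : ℝ) ≤ k ^ 2 * t := by positivity
      refine ⟨fun x => (k * ev φ k t P1 x + ev φ k t P2 x)
        - 2 * ν * k ^ 2 * tb ν 0 1 (k ^ 2 * t) * q x, ?_, ?_⟩
      · refine CS.sub (CS.add (CS.const_mul _ ?_) ?_) (CS.const_mul _ hq)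
        · exact (CS_ev hφ hP1).mono hO
        · exact (CS_ev hφ hP2).mono hO
      intro i x
      rw [Rs_ev hφ cD, exp_arg]
      set p : PP := (k ^ 2 * t, k * φ x, x) with hpd
      have cP1 := PQ_contDiff hP1
      have cP2 := PQ_contDiff hP2
      have eπ : pd i (fun x => (k * ev φ k t P1 x + ev φ k t P2 x)
          - 2 * ν * k ^ 2 * tb ν 0 1 (k ^ 2 * t) * q x) x
          = k * dl φ k i P1 p + dl φ k i P2 p - 2 * ν * k ^ 2 * tb ν 0 1 (k ^ 2 * t) * pd i q x := by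
        have g1 : ContDiff ℝ ∞ (ev φ k t P1) := ev_contDiff hφ cP1
        have g2 : ContDiff ℝ ∞ (ev φ k t P2) := ev_contDiff hφ cP2
        have e1 : pd i (ev φ k t P1) x = dl φ k i P1 p := congrFun (pd_ev hφ cP1 i) x
        have e2 : pd i (ev φ k t P2) x = dl φ k i P2 p := congrFun (pd_ev hφ cP2 i) x
        rw [← e1, ← e2]
        unfold pd
        have w1 : DifferentiableAt ℝ (fun x => k * ev φ k t P1 x) x :=
          (contDiff_const.mul g1).differentiable (by simp) x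
        have w2 : DifferentiableAt ℝ (ev φ k t P2) x := g2.differentiable (by simp) x
        have w3 : DifferentiableAt ℝ (fun x => 2 * ν * k ^ 2 * tb ν 0 1 (k ^ 2 * t) * q x) x :=
          (contDiff_const.mul hq.smooth).differentiable (by simp) x
        have w12 : DifferentiableAt ℝ (fun x => k * ev φ k t P1 x + ev φ k t P2 x) x := w1.add w2
        rw [fderiv_fun_sub w12 w3, fderiv_fun_add w1 w2,
          fderiv_const_mul (g1.differentiable (by simp) x),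
          fderiv_const_mul (hq.smooth.differentiable (by simp) x)]
        rfl
      rw [eπ]
      show |Rl ν φ k v (fun i => Dd k (W i) (Y0 i) (Y1 i) (Y2 i)) i p - _ - _| ≤ _
      have hR := Rl_eq (ν := ν) hφ hk0 (v := v) cW c0 c1 c2 p
        (fun i => n2_mul hn (PQ_eH (z' := true) (hW i)) p) (fun i => n2_mul hn (hY0t i) p)
        (fun i => n2_mul hn (hY1t i) p) (fun i => n2_mul hn (PQ_eH (z' := true) (hY2 i)) p)
        (fun i => congrFun (HH_Wf hA hB i) p) (nd_Wf hAn hBn p) i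
      have h2i := h2 i p
      have h1i := h1' i p
      have hcomb : Rl ν φ k v (fun i => Dd k (W i) (Y0 i) (Y1 i) (Y2 i)) i p
          - (k * dl φ k i P1 p + dl φ k i P2 p
            - 2 * ν * k ^ 2 * tb ν 0 1 (k ^ 2 * t) * pd i q x)
          - k * ∑ a ∈ s, tb ν a.1 a.2 (k ^ 2 * t) * (X a i x - S a i x)
          = Rem ν φ v W Y0 Y1 Y2 P2 0 i p + k⁻¹ * Rem ν φ v W Y0 Y1 Y2 P2 1 i p
            + k⁻¹ ^ 2 * Rem ν φ v W Y0 Y1 Y2 P2 2 i p + k⁻¹ ^ 3 * Rem ν φ v W Y0 Y1 Y2 P2 3 i p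
            + k⁻¹ ^ 4 * Rem ν φ v W Y0 Y1 Y2 P2 4 i p := by
        rw [hR, h2i, h1i]
        have q1 : Rem ν φ v W Y0 Y1 Y2 P2 0 i p
            = (HH ν (Y2 i) p - ν * Lp φ (Y1 i) p - ν * Dp (Y0 i) p
            + (nd φ (fun j => px (v j)) p + nd φ Y0 p) * dd eH (Y1 i) p
            + nd φ Y1 p * dd eH (Y0 i) p + nd φ Y2 p * dd eH (W i) p
            + Nx (fun j => px (v j)) (Y0 i) p + Nx Y0 (Y0 i) p + Nx Y1 (W i) p + Nx W (Y1 i) p
            + ∑ j, Y0 j p * px (pd j (v i)) p) - dd (eX i) P2 p := rfl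
        have q2 : Rem ν φ v W Y0 Y1 Y2 P2 1 i p = -ν * Lp φ (Y2 i) p - ν * Dp (Y1 i) p
            + (nd φ (fun j => px (v j)) p + nd φ Y0 p) * dd eH (Y2 i) p
            + nd φ Y1 p * dd eH (Y1 i) p + nd φ Y2 p * dd eH (Y0 i) p
            + Nx (fun j => px (v j)) (Y1 i) p + Nx Y0 (Y1 i) p + Nx Y1 (Y0 i) p
            + Nx Y2 (W i) p + Nx W (Y2 i) p + ∑ j, Y1 j p * px (pd j (v i)) p := rfl
        have q3 : Rem ν φ v W Y0 Y1 Y2 P2 2 i p = -ν * Dp (Y2 i) p + nd φ Y1 p * dd eH (Y2 i) p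
            + nd φ Y2 p * dd eH (Y1 i) p
            + Nx (fun j => px (v j)) (Y2 i) p + Nx Y0 (Y2 i) p + Nx Y2 (Y0 i) p + Nx Y1 (Y1 i) p
            + ∑ j, Y2 j p * px (pd j (v i)) p := rfl
        have q4 : Rem ν φ v W Y0 Y1 Y2 P2 3 i p
            = nd φ Y2 p * dd eH (Y2 i) p + Nx Y1 (Y2 i) p + Nx Y2 (Y1 i) p := rfl
        have q5 : Rem ν φ v W Y0 Y1 Y2 P2 4 i p = Nx Y2 (Y2 i) p := rfl
        rw [q1, q2, q3, q4, q5]
        unfold dl
        have p1 : p.1 = k ^ 2 * t := rfl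
        have p2 : px (pd i q) p = pd i q x := rfl
        have p3 : ∀ a, px (X a i) p = X a i x := fun a => rfl
        have p4 : ∀ a, px (S a i) p = S a i x := fun a => rfl
        simp only [p1, p2, p3, p4]
        ring
      rw [hcomb]
      have hE := (Real.exp_pos (-(ν / 2) * (k ^ 2 * t))).le
      have b0' := br 0 i p hp0
      have b1' := br 1 i p hp0
      have b2' := br 2 i p hp0
      have b3' := br 3 i p hp0
      have b4' := br 4 i p hp0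
      have p1 : p.1 = k ^ 2 * t := rfl
      rw [p1] at b0' b1' b2' b3' b4'
      have hmul : ∀ (n : ℕ) {x y : ℝ}, |x| ≤ y → |k⁻¹ ^ n * x| ≤ y := by
        intro n x y hxy
        rw [abs_mul, abs_of_nonneg (by positivity : 0 ≤ k⁻¹ ^ n)]
        calc k⁻¹ ^ n * |x| ≤ 1 * y := mul_le_mul (pow_le_one₀ hki0 hki) hxy (abs_nonneg _)
              zero_le_one
          _ = y := one_mul y
      have t1 := hmul 1 b1'
      have t2 := hmul 2 b2'
      have t3 := hmul 3 b3'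
      have t4 := hmul 4 b4'
      rw [pow_one] at t1
      refine (abs_add_le _ _).trans ((add_le_add ((abs_add_le _ _).trans (add_le_add
        ((abs_add_le _ _).trans (add_le_add ((abs_add_le _ _).trans (add_le_add b0' t1)) t2)) t3))
        t4).trans ?_)
      rw [← add_mul, ← add_mul, ← add_mul, ← add_mul]
      refine mul_le_mul_of_nonneg_right ?_ hE
      rw [hC]
      have : 0 ≤ (a0 + a1 + a2) + (e0 + e1 + e2) + 2 * (gW + (g0 + g1 + g2)) + (m1 + m2)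
          + 2 * (h1c + h2c) := by
        positivity
      linarith
  · intro i
    exact CS_ev hφ (PQ_mono hO (PQ_add (hZ1 i) (PQ_smul _ (hZ2 i))))
  · intro i x
    have hp : (0 : ℝ) ≤ ((k ^ 2 * 0, k * φ x, x) : PP).1 := by
      show 0 ≤ k ^ 2 * (0 : ℝ)
      simp
    have q1 := n1 i (k ^ 2 * 0, k * φ x, x) hp
    have q2 := n2 i (k ^ 2 * 0, k * φ x, x) hp
    have e : Real.exp (-(ν / 2) * ((k ^ 2 * 0, k * φ x, x) : PP).1) = 1 := by
      show Real.exp (-(ν / 2) * (k ^ 2 * 0)) = 1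
      simp
    rw [e, mul_one] at q1 q2
    show |Z1 i (k ^ 2 * 0, k * φ x, x) + k⁻¹ * Z2 i (k ^ 2 * 0, k * φ x, x)| ≤ C
    refine (abs_add_le _ _).trans ?_
    rw [abs_mul, abs_of_nonneg hki0]
    have q3 : k⁻¹ * |Z2 i (k ^ 2 * 0, k * φ x, x)| ≤ 1 * m2 :=
      mul_le_mul hki q2 (abs_nonneg _) zero_le_one
    rw [hC]
    have : 0 ≤ (a0 + a1 + a2) + (e0 + e1 + e2) + 2 * (gW + (g0 + g1 + g2))
      + (r 0 + r 1 + r 2 + r 3 + r 4) + 2 * (h1c + h2c) := by positivity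
    linarith
  · intro i j x
    have hp : (0 : ℝ) ≤ ((k ^ 2 * 0, k * φ x, x) : PP).1 := by
      show 0 ≤ k ^ 2 * (0 : ℝ)
      simp
    have cR : ContDiff ℝ ∞ (fun p => Z1 i p + k⁻¹ * Z2 i p) :=
      (PQ_contDiff (hZ1 i)).add (contDiff_const.mul (PQ_contDiff (hZ2 i)))
    have q1 := j1 j i (k ^ 2 * 0, k * φ x, x) hp
    have q2 := j2 j i (k ^ 2 * 0, k * φ x, x) hp
    have e : Real.exp (-(ν / 2) * ((k ^ 2 * 0, k * φ x, x) : PP).1) = 1 := by
      show Real.exp (-(ν / 2) * (k ^ 2 * 0)) = 1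
      simp
    rw [e, mul_one] at q1 q2
    show |pd j (ev φ k 0 (fun p => Z1 i p + k⁻¹ * Z2 i p)) x| ≤ C * k
    rw [pd_ev hφ cR]
    show |dl φ k j (fun p => Z1 i p + k⁻¹ * Z2 i p) (k ^ 2 * 0, k * φ x, x)| ≤ C * k
    set p : PP := (k ^ 2 * 0, k * φ x, x) with hpd
    have e5 : dl φ k j (fun p => Z1 i p + k⁻¹ * Z2 i p) p
        = k * (nn φ j p * dd eH (Z1 i) p) + k * (k⁻¹ * (nn φ j p * dd eH (Z2 i) p))
          + (dd (eX j) (Z1 i) p + k⁻¹ * dd (eX j) (Z2 i) p) := by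
      unfold dl
      rw [dd_add (PQ_contDiff (hZ1 i)) (contDiff_const.mul (PQ_contDiff (hZ2 i))),
        dd_add (PQ_contDiff (hZ1 i)) (contDiff_const.mul (PQ_contDiff (hZ2 i))),
        dd_smul _ (PQ_contDiff (hZ2 i)), dd_smul _ (PQ_contDiff (hZ2 i))]
      ring
    have s1 : |k * (nn φ j p * dd eH (Z1 i) p)| ≤ k * h1c := by
      rw [abs_mul, abs_of_pos k0]
      exact mul_le_mul_of_nonneg_left q1.2 k0.le
    have s2 : |k * (k⁻¹ * (nn φ j p * dd eH (Z2 i) p))| ≤ k * h2c := by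
      rw [abs_mul, abs_of_pos k0, abs_mul, abs_of_nonneg hki0]
      refine mul_le_mul_of_nonneg_left ?_ k0.le
      calc k⁻¹ * |nn φ j p * dd eH (Z2 i) p| ≤ 1 * h2c :=
            mul_le_mul hki q2.2 (abs_nonneg _) zero_le_one
        _ = h2c := one_mul _
    have s3 : |dd (eX j) (Z1 i) p| ≤ k * h1c := q1.1.trans (le_mul_of_one_le_left hh1 hk)
    have s4 : |k⁻¹ * dd (eX j) (Z2 i) p| ≤ k * h2c := by
      rw [abs_mul, abs_of_nonneg hki0]
      calc k⁻¹ * |dd (eX j) (Z2 i) p| ≤ 1 * h2c :=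
            mul_le_mul hki q2.1 (abs_nonneg _) zero_le_one
        _ ≤ k * h2c := mul_le_mul_of_nonneg_right hk hh2
    rw [e5]
    refine (abs_add_le _ _).trans ((add_le_add ((abs_add_le _ _).trans (add_le_add s1 s2))
      ((abs_add_le _ _).trans (add_le_add s3 s4))).trans ?_)
    have : 2 * (h1c + h2c) ≤ C := by
      rw [hC]
      have : 0 ≤ (a0 + a1 + a2) + (e0 + e1 + e2) + 2 * (gW + (g0 + g1 + g2))
        + (r 0 + r 1 + r 2 + r 3 + r 4) + (m1 + m2) := by positivity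
      linarith
    have := mul_le_mul_of_nonneg_right this k0.le
    linarith
  · intro i x
    show ev φ k 0 (Dd k (Wf ν A B i) (Y0f ν φ A B F Z1 i) (Y1f φ Z1 Z2 s σ S i) (cx Z2 i)) x = _
    rw [wave_eq (k := k) (t := 0) (F := F) hφ hk0 hn hA hB hAn hBn hZ1 hZ2 s σ S i x]
    have e1 : tb ν 0 1 (k ^ 2 * 0) = 1 := by simp [tb]
    have e2 : ∀ a, σ a (k ^ 2 * 0) = σ a 0 := fun a => by rw [mul_zero]
    have e3 : (fun j => ev φ k 0 (Ps ν φ k A B Z1 Z2 j))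
        = fun j y => (2 * √ν * ![pd 1 φ y * B 2 y - pd 2 φ y * B 1 y,
          pd 2 φ y * B 0 y - pd 0 φ y * B 2 y, pd 0 φ y * B 1 y - pd 1 φ y * B 0 y] j)
          * Real.cos (k * φ y)
          + (-(2 * √ν * ![pd 1 φ y * A 2 y - pd 2 φ y * A 1 y,
          pd 2 φ y * A 0 y - pd 0 φ y * A 2 y, pd 0 φ y * A 1 y - pd 1 φ y * A 0 y] j))
          * Real.sin (k * φ y)
          + k⁻¹ * ev φ k 0 (fun p => Z1 j p + k⁻¹ * Z2 j p) y := by
      funext j y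
      have t0 : tb ν 0 0 (k ^ 2 * 0) = 1 := by simp [tb]
      have t1 : tr 1 false (k * φ y) = Real.cos (k * φ y) := by simp [tr]
      have t2 : tr 1 true (k * φ y) = Real.sin (k * φ y) := by simp [tr]
      simp only [ev, Ps]
      congr 1
      fin_cases j
      · show nn φ 1 _ * Wt ν A B 2 _ - nn φ 2 _ * Wt ν A B 1 _
          = (2 * √ν * (pd 1 φ y * B 2 y - pd 2 φ y * B 1 y)) * Real.cos (k * φ y)
            + (-(2 * √ν * (pd 1 φ y * A 2 y - pd 2 φ y * A 1 y))) * Real.sin (k * φ y)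
        simp only [Wt, gn, nn, t0, t1, t2]
        ring
      · show nn φ 2 _ * Wt ν A B 0 _ - nn φ 0 _ * Wt ν A B 2 _
          = (2 * √ν * (pd 2 φ y * B 0 y - pd 0 φ y * B 2 y)) * Real.cos (k * φ y)
            + (-(2 * √ν * (pd 2 φ y * A 0 y - pd 0 φ y * A 2 y))) * Real.sin (k * φ y)
        simp only [Wt, gn, nn, t0, t1, t2]
        ring
      · show nn φ 0 _ * Wt ν A B 1 _ - nn φ 1 _ * Wt ν A B 0 _
          = (2 * √ν * (pd 0 φ y * B 1 y - pd 1 φ y * B 0 y)) * Real.cos (k * φ y)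
            + (-(2 * √ν * (pd 0 φ y * A 1 y - pd 1 φ y * A 0 y))) * Real.sin (k * φ y)
        simp only [Wt, gn, nn, t0, t1, t2]
        ring
    rw [e1, e3, one_mul]
    simp only [e2]

/-- the expansion -/
theorem layer_expansion (hν : 0 < ν) (hv : ∀ i, CS Ω (v i)) {M : ℝ} (hF : LayM Ω F M) :
    ∃ (φ : E3 → ℝ) (O : Set E3) (P Q : VF) (s : Finset (ℕ × ℕ)) (X : ℕ × ℕ → VF) (C0 : ℝ),
      0 ≤ C0 ∧ ContDiff ℝ ∞ φ ∧ (∀ x ∈ O, ∑ j, pd j φ x ^ 2 = 1) ∧ (∀ i, CS (Ω ∩ O) (P i)) ∧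
      (∀ i, CS (Ω ∩ O) (Q i)) ∧ (∀ i x, |P i x| ≤ 4 * √ν * M) ∧ (∀ i x, |Q i x| ≤ 4 * √ν * M) ∧
      (∀ a i, CS Ω (X a i)) ∧
      ∀ S : ℕ × ℕ → VF, (∀ a i, CS Ω (S a i)) → (∀ a x, dv (S a) x = 0) →
        ∃ (C : ℝ) (K : Set E3) (c : ℕ × ℕ → ℝ) (D D1 : ℝ → ℝ → VF) (R : ℝ → VF),
          0 ≤ C ∧ IsCompact K ∧ K ⊆ Ω ∧ ∀ k : ℝ, 1 ≤ k →
            Fam Ω ν v s X S C0 C k K (D k) (D1 k) ∧ (∀ i, CS Ω (R k i)) ∧
            (∀ i x, |R k i x| ≤ C) ∧
            ∀ i x, D k 0 i x = F i x + k⁻¹ * ∑ a ∈ s, c a * S a i x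
              + cu (fun j y => P j y * Real.cos (k * φ y) + Q j y * Real.sin (k * φ y)
                + k⁻¹ * R k j y) i x := by
  obtain ⟨φ, O, P, Q, s, X, C0, h1, h2, h3, h4, h5, h6, h7, h8, h9⟩ := layer_expansion2 hν hv hF
  refine ⟨φ, O, P, Q, s, X, C0, h1, h2, h3, h4, h5, h6, h7, h8, fun S hS hdS => ?_⟩
  obtain ⟨C, K, c, D, D1, R, g1, g2, g3, g4⟩ := h9 S hS hdS
  refine ⟨C, K, c, D, D1, R, g1, g2, g3, fun k hk => ?_⟩
  obtain ⟨e1, e2, e3, e4, e5⟩ := g4 k hk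
  exact ⟨e1, e2, e3, e5⟩

end Pool.Agent.T2H10.DN
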