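import Pool.Agent.T2H10.DN.Defs2
import Pool.Agent.T2H10.DN.Mix

/-!
Families of functions in `L²`.
-/

set_option autoImplicit false
set_option linter.unusedSectionVars false

open MeasureTheory Set Filter Topology
open scoped InnerProductSpace ENNReal ContDiff

namespace Pool.Agent.T2H10.DN

open H772R2.NS
open Pool.Agent.Y303.LV (cl clj Adm hasDerivAt_cl continuousAt_cl R2_eq R2)

set_option linter.unusedVariables false in
theorem norm_cl_toE {Ω : Set E3} (hΩ : IsOpen Ω) (hb : Bornology.IsBounded Ω) :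
    ∃ A : ℝ, 0 < A ∧ ∀ (V : VF) (M : ℝ), (∀ i, Continuous (V i)) → 0 ≤ M →
      (∀ i x, |V i x| ≤ M) → ‖cl Ω (toE V)‖ ≤ A * M := by
  have hfin : volume Ω < ⊤ := hb.measure_lt_top
  have : IsFiniteMeasure (volume.restrict Ω) := ⟨by rwa [Measure.restrict_apply_univ]⟩
  set m : ℝ := (volume.restrict Ω).real univ ^ ((2 : ℝ≥0∞).toReal)⁻¹ with hm
  have hm0 : 0 ≤ m := by positivity
  refine ⟨m * 2 + 1, by positivity, fun V M _ hM hV => ?_⟩
  unfold cl
  split_ifs with h
  · have hle : ∀ᵐ x ∂(volume.restrict Ω), ‖(h.toLp (toE V) : E3 → E3) x‖ ≤ 2 * M := by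
      filter_upwards [h.coeFn_toLp] with x hx
      rw [hx]
      have h1 : ‖toE V x‖ ^ 2 ≤ (2 * M) ^ 2 := by
        rw [norm_sq_E3, Fin.sum_univ_three]
        have e : ∀ i, (toE V x) i ^ 2 ≤ M ^ 2 := by
          intro i
          have h2 := hV i x
          show V i x ^ 2 ≤ M ^ 2
          rw [← sq_abs]
          exact pow_le_pow_left₀ (abs_nonneg _) h2 2
        have e0 := e 0
        have e1 := e 1
        have e2 := e 2
        nlinarith [sq_nonneg M]
      exact (pow_le_pow_iff_left₀ (norm_nonneg _) (by positivity) (by norm_num)).1 h1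
    refine (Lp.norm_le_of_ae_bound (by positivity) hle).trans ?_
    calc m * (2 * M) = m * 2 * M := by ring
      _ ≤ (m * 2 + 1) * M := by
        refine mul_le_mul_of_nonneg_right ?_ hM
        linarith
  · rw [norm_zero]
    positivity

theorem hasDerivAt_clt {Ω K : Set E3} (hK : IsCompact K) {D D1 : ℝ → VF}
    (hD : ∀ i, ContDiff ℝ ∞ (fun q : ℝ × E3 => D q.1 i q.2))
    (hD1 : ∀ i, ContDiff ℝ ∞ (fun q : ℝ × E3 => D1 q.1 i q.2))
    (hd : ∀ i t x, HasDerivAt (fun t => D t i x) (D1 t i x) t)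
    (h0 : ∀ i t x, x ∉ K → D t i x = 0) (h1 : ∀ i t x, x ∉ K → D1 t i x = 0) :
    (∀ t, HasDerivAt (fun t => cl Ω (toE (D t))) (cl Ω (toE (D1 t))) t) ∧
      Continuous (fun t => cl Ω (toE (D1 t))) := by
  obtain ⟨R, hR⟩ := hK.isBounded.subset_closedBall (0 : E3)
  set ρ : ℝ := 2 * |R| + 1 with hρd
  have hρ : 0 < ρ := by positivity
  have hout : ∀ x : E3, ρ ^ 2 / 2 < R2 0 x → x ∉ K := by
    intro x hx hxK
    have h2 := hR hxK
    rw [Metric.mem_closedBall, dist_zero_right] at h2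
    rw [R2_eq, sub_zero] at hx
    have h3 : ‖x‖ ≤ |R| := h2.trans (le_abs_self R)
    have h4 : ‖x‖ ^ 2 ≤ |R| ^ 2 := pow_le_pow_left₀ (norm_nonneg _) h3 2
    have h5 : 0 ≤ |R| := abs_nonneg R
    rw [hρd] at hx
    nlinarith
  have hct : ∀ {G : ℝ → VF}, (∀ i, ContDiff ℝ ∞ (fun q : ℝ × E3 => G q.1 i q.2)) → 
      Continuous (fun q : ℝ × E3 => toE (G q.1) q.2) := by
    intro G hG
    exact (PiLp.continuous_toLp 2 _).comp (continuous_pi fun i => (hG i).continuous)
  have hadm : ∀ {G : ℝ → VF}, (∀ i, ContDiff ℝ ∞ (fun q : ℝ × E3 => G q.1 i q.2)) →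
      (∀ i t x, x ∉ K → G t i x = 0) → ∀ t, Adm 0 ρ (toE (G t)) := by
    intro G hG hG0 t
    refine ⟨(hct hG).comp (by fun_prop : Continuous fun x : E3 => (t, x)), fun x hx => ?_⟩
    ext i
    exact hG0 i t x (hout x hx)
  have hbd : ∀ t : ℝ, ∃ C : ℝ, ∀ r ∈ Metric.ball t 1, ∀ x, ‖toE (D1 r) x‖ ≤ C := by
    intro t
    have hKK : IsCompact (Metric.closedBall t 1 ×ˢ K) := (isCompact_closedBall t 1).prod hK
    obtain ⟨C, hC⟩ := hKK.exists_bound_of_continuousOn (hct hD1).continuousOn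
    refine ⟨max C 0, fun r hr x => ?_⟩
    by_cases hx : x ∈ K
    · exact (hC (r, x) ⟨Metric.ball_subset_closedBall hr, hx⟩).trans (le_max_left _ _)
    · have : toE (D1 r) x = 0 := by
        ext i
        exact h1 i r x hx
      rw [this, norm_zero]
      exact le_max_right _ _
  constructor
  · intro t
    obtain ⟨C, hC⟩ := hbd t
    refine hasDerivAt_cl hρ one_pos (fun r _ => hadm hD h0 r) (hadm hD1 h1 t) hC ?_
    intro r _ x
    have h2 : HasDerivAt (fun r => fun i => D r i x) (fun i => D1 r i x) r :=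
      hasDerivAt_pi.2 fun i => hd i r x
    exact (EuclideanSpace.equiv (Fin 3) ℝ).symm.toContinuousLinearMap.hasFDerivAt.comp_hasDerivAt
      r h2
  · refine continuous_iff_continuousAt.2 fun t => ?_
    obtain ⟨C, hC⟩ := hbd t
    refine continuousAt_cl hρ (Eventually.of_forall fun r => hadm hD1 h1 r) (C := C)
      (by filter_upwards [Metric.ball_mem_nhds t one_pos] with r hr using hC r hr) ?_
    intro x
    exact ((hct hD1).comp (by fun_prop : Continuous fun r : ℝ => (r, x))).continuousAt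

end Pool.Agent.T2H10.DN
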