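import Pool.Agent.T2H10.DN.Ev

/-!
The first two levels of the expansion.
-/

set_option autoImplicit false
set_option linter.unusedSectionVars false

open MeasureTheory Set Filter Topology
open scoped InnerProductSpace ENNReal ContDiff

namespace Pool.Agent.T2H10.DN

open H772R2.NS

variable {ν k t : ℝ} {O Ω : Set E3} {z : Bool} {φ : E3 → ℝ}

/-! ### functions of time -/

theorem PQ_TT_mul {T : ℝ → ℝ} (hT : T ∈ TT ν) {E : PP → ℝ} (hE : E ∈ PQ ν z O) :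
    (fun p => T p.1 * E p) ∈ PQ ν z O := by
  induction hT using Submodule.span_induction with
  | mem x h =>
    obtain ⟨j, m, rfl⟩ := h
    refine PQ_map (fun E p => tb ν j m p.1 * E p) ?_ ?_ ?_ ?_ hE
    · intro j' m' n σ X hn hX
      have e : (fun p : PP => tb ν j m p.1 * gn ν j' m' n σ X p)
          = gn ν (j + j') (m + m' + 1) n σ X := by
        funext p
        unfold gn
        rw [← tb_mul]
        ring
      simp only [e]
      exact gn_mem hn hX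
    · funext p; simp
    · intro E G _ _; funext p; simp [mul_add]
    · intro c E _; funext p; simp; ring
  | zero => simpa using PQ_zero
  | add x y _ _ h1 h2 =>
    have e : (fun p : PP => (x + y) p.1 * E p) = fun p => x p.1 * E p + y p.1 * E p := by
      funext p; simp [add_mul]
    rw [e]
    exact PQ_add h1 h2
  | smul a x _ h =>
    have e : (fun p : PP => (a • x) p.1 * E p) = fun p => a * (x p.1 * E p) := by
      funext p; simp; ring
    rw [e]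
    exact PQ_smul a h

theorem PQ_TX {T : ℝ → ℝ} (hT : T ∈ TT ν) {X : E3 → ℝ} (hX : CS O X) :
    (fun p : PP => T p.1 * px X p) ∈ PQ ν false O := by
  induction hT using Submodule.span_induction with
  | mem x h =>
    obtain ⟨j, m, rfl⟩ := h
    have e : (fun p : PP => tb ν j m p.1 * px X p) = gn ν j m 0 false X := by
      funext p
      simp [gn, tr, px]
    rw [e]
    exact gn_mem (by simp) hX
  | zero => simpa using PQ_zero
  | add x y _ _ h1 h2 =>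
    have e : (fun p : PP => (x + y) p.1 * px X p) = fun p => x p.1 * px X p + y p.1 * px X p := by
      funext p; simp [add_mul]
    rw [e]
    exact PQ_add h1 h2
  | smul a x _ h =>
    have e : (fun p : PP => (a • x) p.1 * px X p) = fun p => a * (x p.1 * px X p) := by
      funext p; simp; ring
    rw [e]
    exact PQ_smul a h

theorem eH_TX {T : ℝ → ℝ} (hT : ContDiff ℝ ∞ T) {X : E3 → ℝ} (hX : ContDiff ℝ ∞ X) :
    dd eH (fun p : PP => T p.1 * px X p) = fun _ => 0 := by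
  have c1 : ContDiff ℝ ∞ (fun p : PP => T p.1) := hT.comp contDiff_fst
  rw [dd_mul c1 (px_contDiff hX), dd_fst hT, eH_px hX]
  funext p
  simp [eH]

theorem HH_TX {T : ℝ → ℝ} (hT : ContDiff ℝ ∞ T) {X : E3 → ℝ} (hX : ContDiff ℝ ∞ X) :
    HH ν (fun p : PP => T p.1 * px X p) = fun p => deriv T p.1 * px X p := by
  have c1 : ContDiff ℝ ∞ (fun p : PP => T p.1) := hT.comp contDiff_fst
  funext p
  unfold HH
  rw [eH_TX hT hX, dd_mul c1 (px_contDiff hX), dd_fst hT, eT_px hX]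
  have : dd eH (fun _ : PP => (0 : ℝ)) p = 0 := congrFun (dd_zero eH) p
  rw [this]
  simp [eT]

/-! ### membership of the operators -/

theorem PQ_px {g : E3 → ℝ} (hg : ContDiff ℝ ∞ g) {E : PP → ℝ} (hE : E ∈ PQ ν z O) :
    (fun p => px g p * E p) ∈ PQ ν z O := PQ_mul_left hg hE

theorem PQ_px' {g : E3 → ℝ} (hg : ContDiff ℝ ∞ g) {E : PP → ℝ} (hE : E ∈ PQ ν z O) :
    (fun p => E p * px g p) ∈ PQ ν z O := by
  have e : (fun p => E p * px g p) = fun p => px g p * E p := by funext p; ring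
  rw [e]
  exact PQ_mul_left hg hE

theorem nd_mem (hφ : ContDiff ℝ ∞ φ) {U : PV} (hU : ∀ i, U i ∈ PQ ν z O) :
    nd φ U ∈ PQ ν z O :=
  PQ_sum _ fun j _ => PQ_px' (pd_contDiff hφ j) (hU j)

theorem nd_contDiff (hφ : ContDiff ℝ ∞ φ) {U : PV} (hU : ∀ i, ContDiff ℝ ∞ (U i)) :
    ContDiff ℝ ∞ (nd φ U) :=
  ContDiff.sum fun j _ => (hU j).mul (nn_contDiff hφ j)

theorem Nx_mem {z' : Bool} {O' : Set E3} {U : PV} {E : PP → ℝ} (hU : ∀ i, U i ∈ PQ ν z O)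
    (hE : E ∈ PQ ν z' O') : Nx U E ∈ PQ ν false O :=
  PQ_sum _ fun j _ => PQ_mul (hU j) (PQ_eX j hE)

theorem Nx_mem' {z' : Bool} {O' : Set E3} {U : PV} {E : PP → ℝ} (hU : ∀ i, U i ∈ PQ ν z O')
    (hE : E ∈ PQ ν z' O) : Nx U E ∈ PQ ν false O :=
  PQ_sum _ fun j _ => PQ_mul' (hU j) (PQ_eX j hE)

theorem Nxv_mem {v : VF} (hv : ∀ i, ContDiff ℝ ∞ (v i)) {E : PP → ℝ} (hE : E ∈ PQ ν z O) :
    Nx (fun j => px (v j)) E ∈ PQ ν z O :=
  PQ_sum _ fun j _ => PQ_px (hv j) (PQ_eX j hE)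

theorem Lp_mem' (hφ : ContDiff ℝ ∞ φ) {E : PP → ℝ} (hE : dd eH E ∈ PQ ν z O) :
    Lp φ E ∈ PQ ν z O := by
  refine PQ_sum _ fun j _ => PQ_add ?_ (PQ_px (pd_contDiff (pd_contDiff hφ j) j) hE)
  have h := PQ_smul 2 (PQ_px (pd_contDiff hφ j) (PQ_eX j hE))
  have e : (fun p => 2 * nn φ j p * dd (eX j) (dd eH E) p)
      = fun p => 2 * (px (pd j φ) p * dd (eX j) (dd eH E) p) := by
    funext p; simp only [nn, px]; ring
  rw [e]
  exact h

theorem Lp_mem (hφ : ContDiff ℝ ∞ φ) {E : PP → ℝ} (hE : E ∈ PQ ν z O) :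
    Lp φ E ∈ PQ ν true O := Lp_mem' hφ (PQ_eH hE)

theorem Dp_mem {E : PP → ℝ} (hE : E ∈ PQ ν z O) : Dp E ∈ PQ ν z O :=
  PQ_sum _ fun j _ => PQ_eX j (PQ_eX j hE)

theorem sv_mem {v : VF} (hv : ∀ i, ContDiff ℝ ∞ (v i)) {U : PV} (hU : ∀ i, U i ∈ PQ ν z O)
    (i : Fin 3) : (fun p => ∑ j, U j p * px (pd j (v i)) p) ∈ PQ ν z O :=
  PQ_sum _ fun j _ => PQ_px' (pd_contDiff (hv i) j) (hU j)

theorem ndv_mul_mem (hφ : ContDiff ℝ ∞ φ) {v : VF} (hv : ∀ i, ContDiff ℝ ∞ (v i)) {E : PP → ℝ}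
    (hE : E ∈ PQ ν z O) : (fun p => nd φ (fun j => px (v j)) p * E p) ∈ PQ ν z O := by
  have h : ContDiff ℝ ∞ (fun x => ∑ j, v j x * pd j φ x) :=
    ContDiff.sum fun j _ => (hv j).mul (pd_contDiff hφ j)
  exact PQ_px h hE

/-! ### cross products and curls -/

/-- the cross product with the gradient of the phase -/
noncomputable def nc (φ : E3 → ℝ) (V : PV) : PV :=
  ![fun p => nn φ 1 p * V 2 p - nn φ 2 p * V 1 p, fun p => nn φ 2 p * V 0 p - nn φ 0 p * V 2 p,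
    fun p => nn φ 0 p * V 1 p - nn φ 1 p * V 0 p]

/-- the curl in the slow variables -/
noncomputable def cx (V : PV) : PV :=
  ![fun p => dd (eX 1) (V 2) p - dd (eX 2) (V 1) p, fun p => dd (eX 2) (V 0) p - dd (eX 0) (V 2) p,
    fun p => dd (eX 0) (V 1) p - dd (eX 1) (V 0) p]

/-- the divergence in the slow variables -/
noncomputable def dx (V : PV) (p : PP) : ℝ := ∑ i, dd (eX i) (V i) p

theorem nc_mem (hφ : ContDiff ℝ ∞ φ) {V : PV} (hV : ∀ i, V i ∈ PQ ν z O) (i : Fin 3) :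
    nc φ V i ∈ PQ ν z O := by
  fin_cases i
  · exact PQ_sub (PQ_px (pd_contDiff hφ 1) (hV 2)) (PQ_px (pd_contDiff hφ 2) (hV 1))
  · exact PQ_sub (PQ_px (pd_contDiff hφ 2) (hV 0)) (PQ_px (pd_contDiff hφ 0) (hV 2))
  · exact PQ_sub (PQ_px (pd_contDiff hφ 0) (hV 1)) (PQ_px (pd_contDiff hφ 1) (hV 0))

theorem cx_mem {V : PV} (hV : ∀ i, V i ∈ PQ ν z O) (i : Fin 3) : cx V i ∈ PQ ν z O := by
  fin_cases i
  · exact PQ_sub (PQ_eX 1 (hV 2)) (PQ_eX 2 (hV 1))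
  · exact PQ_sub (PQ_eX 2 (hV 0)) (PQ_eX 0 (hV 2))
  · exact PQ_sub (PQ_eX 0 (hV 1)) (PQ_eX 1 (hV 0))

theorem dx_mem {V : PV} (hV : ∀ i, V i ∈ PQ ν z O) : dx V ∈ PQ ν z O :=
  PQ_sum _ fun i _ => PQ_eX i (hV i)

theorem nc_contDiff (hφ : ContDiff ℝ ∞ φ) {V : PV} (hV : ∀ i, ContDiff ℝ ∞ (V i)) (i : Fin 3) :
    ContDiff ℝ ∞ (nc φ V i) := by
  fin_cases i
  · exact ((nn_contDiff hφ 1).mul (hV 2)).sub ((nn_contDiff hφ 2).mul (hV 1))
  · exact ((nn_contDiff hφ 2).mul (hV 0)).sub ((nn_contDiff hφ 0).mul (hV 2))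
  · exact ((nn_contDiff hφ 0).mul (hV 1)).sub ((nn_contDiff hφ 1).mul (hV 0))

theorem cx_contDiff {V : PV} (hV : ∀ i, ContDiff ℝ ∞ (V i)) (i : Fin 3) :
    ContDiff ℝ ∞ (cx V i) := by
  fin_cases i
  · exact (dd_contDiff (hV 2)).sub (dd_contDiff (hV 1))
  · exact (dd_contDiff (hV 0)).sub (dd_contDiff (hV 2))
  · exact (dd_contDiff (hV 1)).sub (dd_contDiff (hV 0))

/-- `n × (n × V) = n (n·V) - V` -/
theorem nc_nc (hn : ∀ x ∈ O, ∑ j, pd j φ x ^ 2 = 1) {V : PV} (hV : ∀ i, V i ∈ PQ ν z O)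
    (i : Fin 3) (p : PP) : nc φ (nc φ V) i p = nn φ i p * nd φ V p - V i p := by
  by_cases hp : p.2.2 ∈ O
  · have h := hn _ hp
    rw [Fin.sum_univ_three] at h
    have h' : nn φ 0 p ^ 2 + nn φ 1 p ^ 2 + nn φ 2 p ^ 2 = 1 := h
    unfold nd
    rw [Fin.sum_univ_three]
    fin_cases i
    · show nn φ 1 p * (nn φ 0 p * V 1 p - nn φ 1 p * V 0 p)
        - nn φ 2 p * (nn φ 2 p * V 0 p - nn φ 0 p * V 2 p) = nn φ 0 p * _ - V 0 p
      linear_combination (-V 0 p) * h'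
    · show nn φ 2 p * (nn φ 1 p * V 2 p - nn φ 2 p * V 1 p)
        - nn φ 0 p * (nn φ 0 p * V 1 p - nn φ 1 p * V 0 p) = nn φ 1 p * _ - V 1 p
      linear_combination (-V 1 p) * h'
    · show nn φ 0 p * (nn φ 2 p * V 0 p - nn φ 0 p * V 2 p)
        - nn φ 1 p * (nn φ 1 p * V 2 p - nn φ 2 p * V 1 p) = nn φ 2 p * _ - V 2 p
      linear_combination (-V 2 p) * h'
  · have h0 : ∀ i, V i p = 0 := fun i => PQ_out (hV i) p hp
    unfold nd
    rw [Fin.sum_univ_three]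
    fin_cases i
    · show nn φ 1 p * (nn φ 0 p * V 1 p - nn φ 1 p * V 0 p)
        - nn φ 2 p * (nn φ 2 p * V 0 p - nn φ 0 p * V 2 p) = nn φ 0 p * _ - V 0 p
      simp [h0]
    · show nn φ 2 p * (nn φ 1 p * V 2 p - nn φ 2 p * V 1 p)
        - nn φ 0 p * (nn φ 0 p * V 1 p - nn φ 1 p * V 0 p) = nn φ 1 p * _ - V 1 p
      simp [h0]
    · show nn φ 0 p * (nn φ 2 p * V 0 p - nn φ 0 p * V 2 p)
        - nn φ 1 p * (nn φ 1 p * V 2 p - nn φ 2 p * V 1 p) = nn φ 2 p * _ - V 2 p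
      simp [h0]

theorem nd_nc (V : PV) (p : PP) : nd φ (nc φ V) p = 0 := by
  unfold nd
  rw [Fin.sum_univ_three]
  show (nn φ 1 p * V 2 p - nn φ 2 p * V 1 p) * nn φ 0 p
    + (nn φ 2 p * V 0 p - nn φ 0 p * V 2 p) * nn φ 1 p
    + (nn φ 0 p * V 1 p - nn φ 1 p * V 0 p) * nn φ 2 p = 0
  ring

theorem eX_nn_mul (hφ : ContDiff ℝ ∞ φ) {E : PP → ℝ} (hE : ContDiff ℝ ∞ E) (i j : Fin 3)
    (p : PP) : dd (eX i) (fun p => nn φ j p * E p) p
      = px (pd i (pd j φ)) p * E p + nn φ j p * dd (eX i) E p := by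
  rw [dd_mul (nn_contDiff hφ j) hE]
  have h : dd (eX i) (nn φ j) = px (pd i (pd j φ)) := eX_px (pd_contDiff hφ j) i
  rw [h]

/-- `n · curl Z = - div (n × Z)` -/
theorem nd_cx (hφ : ContDiff ℝ ∞ φ) {Z : PV} (hZ : ∀ i, ContDiff ℝ ∞ (Z i)) (p : PP) :
    nd φ (cx Z) p = -dx (nc φ Z) p := by
  have s : ∀ i j, px (pd i (pd j φ)) p = px (pd j (pd i φ)) p := fun i j => by
    rw [pd_pd_comm hφ]
  have c : ∀ i j, ContDiff ℝ ∞ (fun p => nn φ i p * Z j p) := fun i j =>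
    (nn_contDiff hφ i).mul (hZ j)
  unfold nd dx
  rw [Fin.sum_univ_three, Fin.sum_univ_three]
  show (dd (eX 1) (Z 2) p - dd (eX 2) (Z 1) p) * nn φ 0 p
    + (dd (eX 2) (Z 0) p - dd (eX 0) (Z 2) p) * nn φ 1 p
    + (dd (eX 0) (Z 1) p - dd (eX 1) (Z 0) p) * nn φ 2 p
    = -(dd (eX 0) (fun p => nn φ 1 p * Z 2 p - nn φ 2 p * Z 1 p) p
      + dd (eX 1) (fun p => nn φ 2 p * Z 0 p - nn φ 0 p * Z 2 p) p
      + dd (eX 2) (fun p => nn φ 0 p * Z 1 p - nn φ 1 p * Z 0 p) p)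
  rw [dd_sub (c 1 2) (c 2 1), dd_sub (c 2 0) (c 0 2), dd_sub (c 0 1) (c 1 0)]
  simp only [eX_nn_mul hφ (hZ _)]
  rw [s 1 0, s 2 0, s 2 1]
  ring

/-! ### the heat operator commutes -/

theorem HH_sub {E G : PP → ℝ} (hE : ContDiff ℝ ∞ E) (hG : ContDiff ℝ ∞ G) :
    HH ν (fun p => E p - G p) = fun p => HH ν E p - HH ν G p := by
  funext p
  unfold HH
  rw [dd_sub hE hG, dd_sub hE hG, dd_sub (dd_contDiff hE) (dd_contDiff hG)]
  ring

theorem HH_px {g : E3 → ℝ} (hg : ContDiff ℝ ∞ g) {E : PP → ℝ} (hE : ContDiff ℝ ∞ E) :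
    HH ν (fun p => px g p * E p) = fun p => px g p * HH ν E p := by
  have h : dd eH (fun p => px g p * E p) = fun p => px g p * dd eH E p := by
    rw [dd_mul (px_contDiff hg) hE, eH_px hg]
    funext p
    simp
  funext p
  unfold HH
  rw [h, dd_mul (px_contDiff hg) hE, dd_mul (px_contDiff hg) (dd_contDiff hE), eH_px hg, eT_px hg]
  ring

theorem HH_dd {v : PP} {E : PP → ℝ} (hE : ContDiff ℝ ∞ E) : HH ν (dd v E) = dd v (HH ν E) := by
  have h : HH ν E = fun p => dd eT E p - ν * dd eH (dd eH E) p := rfl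
  rw [h, dd_sub (dd_contDiff hE) (contDiff_const.mul (dd_contDiff (dd_contDiff hE))),
    dd_smul ν (dd_contDiff (dd_contDiff hE))]
  funext p
  unfold HH
  rw [dd_comm hE (v := eT) (w := v), dd_comm hE (v := eH) (w := v),
    dd_comm (dd_contDiff hE) (v := eH) (w := v)]

theorem HH_nc (hφ : ContDiff ℝ ∞ φ) {V : PV} (hV : ∀ i, ContDiff ℝ ∞ (V i)) (i : Fin 3) :
    HH ν (nc φ V i) = nc φ (fun j => HH ν (V j)) i := by
  have c : ∀ i j, ContDiff ℝ ∞ (fun p => nn φ i p * V j p) := fun i j =>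
    (nn_contDiff hφ i).mul (hV j)
  have e : ∀ i j, HH ν (fun p => nn φ i p * V j p) = fun p => nn φ i p * HH ν (V j) p :=
    fun i j => HH_px (pd_contDiff hφ i) (hV j)
  fin_cases i
  · show HH ν (fun p => nn φ 1 p * V 2 p - nn φ 2 p * V 1 p) = _
    rw [HH_sub (c _ _) (c _ _), e, e]
    rfl
  · show HH ν (fun p => nn φ 2 p * V 0 p - nn φ 0 p * V 2 p) = _
    rw [HH_sub (c _ _) (c _ _), e, e]
    rfl
  · show HH ν (fun p => nn φ 0 p * V 1 p - nn φ 1 p * V 0 p) = _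
    rw [HH_sub (c _ _) (c _ _), e, e]
    rfl

theorem HH_cx {V : PV} (hV : ∀ i, ContDiff ℝ ∞ (V i)) (i : Fin 3) :
    HH ν (cx V i) = cx (fun j => HH ν (V j)) i := by
  have c : ∀ i j, ContDiff ℝ ∞ (dd (eX i) (V j)) := fun i j => dd_contDiff (hV j)
  fin_cases i
  · show HH ν (fun p => dd (eX 1) (V 2) p - dd (eX 2) (V 1) p) = _
    rw [HH_sub (c _ _) (c _ _), HH_dd (hV _), HH_dd (hV _)]
    rfl
  · show HH ν (fun p => dd (eX 2) (V 0) p - dd (eX 0) (V 2) p) = _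
    rw [HH_sub (c _ _) (c _ _), HH_dd (hV _), HH_dd (hV _)]
    rfl
  · show HH ν (fun p => dd (eX 0) (V 1) p - dd (eX 1) (V 0) p) = _
    rw [HH_sub (c _ _) (c _ _), HH_dd (hV _), HH_dd (hV _)]
    rfl

theorem HH_contDiff {E : PP → ℝ} (hE : ContDiff ℝ ∞ E) : ContDiff ℝ ∞ (HH ν E) :=
  (dd_contDiff hE).sub (contDiff_const.mul (dd_contDiff (dd_contDiff hE)))

/-! ### the main wave -/

/-- the main wave -/
noncomputable def Wf (ν : ℝ) (A B : VF) : PV := fun i p =>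
  2 * √ν * (gn ν 0 0 1 false (A i) p + gn ν 0 0 1 true (B i) p)

/-- its derivative in the phase -/
noncomputable def Wt (ν : ℝ) (A B : VF) : PV := fun i p =>
  2 * √ν * (gn ν 0 0 1 false (B i) p - gn ν 0 0 1 true (A i) p)

theorem eH_gn (j m : ℕ) (n : ℤ) (σ : Bool) {X : E3 → ℝ} (hX : ContDiff ℝ ∞ X) :
    dd eH (gn ν j m n σ X) = fun p => sg σ * n * gn ν j m n (!σ) X p := by
  rw [dd_gn eH j m n σ hX]
  funext p
  simp [eH]

theorem eT_gn (j m : ℕ) (n : ℤ) (σ : Bool) {X : E3 → ℝ} (hX : ContDiff ℝ ∞ X) :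
    dd eT (gn ν j m n σ X) = fun p =>
      j * gn ν (j - 1) m n σ X p - (m + 1) * ν * gn ν j m n σ X p := by
  rw [dd_gn eT j m n σ hX]
  funext p
  simp [eT]

theorem eX_gn (i : Fin 3) (j m : ℕ) (n : ℤ) (σ : Bool) {X : E3 → ℝ} (hX : ContDiff ℝ ∞ X) :
    dd (eX i) (gn ν j m n σ X) = gn ν j m n σ (pd i X) := by
  rw [dd_gn (eX i) j m n σ hX]
  funext p
  simp [eX, gn, pd]

section wave

variable {A B : VF}

theorem Wf_mem (hA : ∀ i, CS O (A i)) (hB : ∀ i, CS O (B i)) (i : Fin 3) :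
    Wf ν A B i ∈ PQ ν true O :=
  PQ_smul _ (PQ_add (gn_mem (by simp) (hA i)) (gn_mem (by simp) (hB i)))

theorem Wt_mem (hA : ∀ i, CS O (A i)) (hB : ∀ i, CS O (B i)) (i : Fin 3) :
    Wt ν A B i ∈ PQ ν true O :=
  PQ_smul _ (PQ_sub (gn_mem (by simp) (hB i)) (gn_mem (by simp) (hA i)))

theorem eH_Wf (hA : ∀ i, CS O (A i)) (hB : ∀ i, CS O (B i)) (i : Fin 3) :
    dd eH (Wf ν A B i) = Wt ν A B i := by
  have c1 := gn_contDiff (ν := ν) 0 0 1 false (hA i).smooth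
  have c2 := gn_contDiff (ν := ν) 0 0 1 true (hB i).smooth
  unfold Wf Wt
  rw [dd_smul _ (c1.add c2), dd_add c1 c2, eH_gn _ _ _ _ (hA i).smooth,
    eH_gn _ _ _ _ (hB i).smooth]
  funext p
  simp only [sg, if_true, Bool.false_eq_true, if_false, Int.cast_one, Bool.not_true,
    Bool.not_false]
  ring

theorem eH_Wt (hA : ∀ i, CS O (A i)) (hB : ∀ i, CS O (B i)) (i : Fin 3) :
    dd eH (Wt ν A B i) = fun p => -Wf ν A B i p := by
  have c1 := gn_contDiff (ν := ν) 0 0 1 false (hB i).smooth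
  have c2 := gn_contDiff (ν := ν) 0 0 1 true (hA i).smooth
  unfold Wf Wt
  rw [dd_smul _ (c1.sub c2), dd_sub c1 c2, eH_gn _ _ _ _ (hA i).smooth,
    eH_gn _ _ _ _ (hB i).smooth]
  funext p
  simp only [sg, if_true, Bool.false_eq_true, if_false, Int.cast_one, Bool.not_true,
    Bool.not_false]
  ring

theorem HH_Wf (hA : ∀ i, CS O (A i)) (hB : ∀ i, CS O (B i)) (i : Fin 3) :
    HH ν (Wf ν A B i) = fun _ => 0 := by
  have c1 := gn_contDiff (ν := ν) 0 0 1 false (hA i).smooth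
  have c2 := gn_contDiff (ν := ν) 0 0 1 true (hB i).smooth
  funext p
  unfold HH
  rw [eH_Wf hA hB, eH_Wt hA hB]
  unfold Wf
  rw [dd_smul _ (c1.add c2), dd_add c1 c2, eT_gn _ _ _ _ (hA i).smooth,
    eT_gn _ _ _ _ (hB i).smooth]
  simp only [Nat.cast_zero, zero_mul, zero_sub, zero_add, one_mul]
  ring

theorem HH_Wt (hA : ∀ i, CS O (A i)) (hB : ∀ i, CS O (B i)) (i : Fin 3) :
    HH ν (Wt ν A B i) = fun _ => 0 := by
  rw [← eH_Wf hA hB, HH_dd (PQ_contDiff (Wf_mem hA hB i)), HH_Wf hA hB]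
  exact dd_zero eH

theorem nd_Wf (hAn : ∀ x, ∑ j, A j x * pd j φ x = 0) (hBn : ∀ x, ∑ j, B j x * pd j φ x = 0)
    (p : PP) : nd φ (Wf ν A B) p = 0 := by
  have h1 := hAn p.2.2
  have h2 := hBn p.2.2
  rw [Fin.sum_univ_three] at h1 h2
  unfold nd
  rw [Fin.sum_univ_three]
  simp only [Wf, gn, nn]
  linear_combination (2 * √ν * tb ν 0 0 p.1 * tr 1 false p.2.1) * h1
    + (2 * √ν * tb ν 0 0 p.1 * tr 1 true p.2.1) * h2

theorem nd_Wt (hAn : ∀ x, ∑ j, A j x * pd j φ x = 0) (hBn : ∀ x, ∑ j, B j x * pd j φ x = 0)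
    (p : PP) : nd φ (Wt ν A B) p = 0 := by
  have h1 := hAn p.2.2
  have h2 := hBn p.2.2
  rw [Fin.sum_univ_three] at h1 h2
  unfold nd
  rw [Fin.sum_univ_three]
  simp only [Wt, gn, nn]
  linear_combination (-2 * √ν * tb ν 0 0 p.1 * tr 1 true p.2.1) * h1
    + (2 * √ν * tb ν 0 0 p.1 * tr 1 false p.2.1) * h2

theorem pd_mul {f g : E3 → ℝ} (hf : ContDiff ℝ ∞ f) (hg : ContDiff ℝ ∞ g) (j : Fin 3) (x : E3) :
    pd j (fun y => f y * g y) x = pd j f x * g x + f x * pd j g x := by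
  unfold pd
  rw [fderiv_fun_mul (hf.differentiable (by simp) x) (hg.differentiable (by simp) x)]
  simp only [add_apply, smul_apply, smul_eq_mul]
  ring

theorem pd_add {f g : E3 → ℝ} (hf : ContDiff ℝ ∞ f) (hg : ContDiff ℝ ∞ g) (j : Fin 3) (x : E3) :
    pd j (fun y => f y + g y) x = pd j f x + pd j g x := by
  unfold pd
  rw [fderiv_fun_add (hf.differentiable (by simp) x) (hg.differentiable (by simp) x)]
  rfl

/-- the amplitudes of the second harmonic -/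
noncomputable def Cc (A B : VF) (i : Fin 3) : E3 → ℝ := fun x =>
  (∑ j, (A j x * pd j (A i) x - B j x * pd j (B i) x)) - dv A x * A i x + dv B x * B i x

noncomputable def Cs (A B : VF) (i : Fin 3) : E3 → ℝ := fun x =>
  (∑ j, (A j x * pd j (B i) x + B j x * pd j (A i) x)) - dv A x * B i x - dv B x * A i x

theorem dv_CS (hA : ∀ i, CS O (A i)) : CS O (dv A) := CS.sum _ fun i _ => (hA i).pd i

theorem Cc_CS (hA : ∀ i, CS O (A i)) (hB : ∀ i, CS O (B i)) (i : Fin 3) : CS O (Cc A B i) :=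
  ((CS.sum _ fun j _ => ((hA j).mul_right ((hA i).pd j).smooth).sub
    ((hB j).mul_right ((hB i).pd j).smooth)).sub
    ((dv_CS hA).mul_right (hA i).smooth)).add ((dv_CS hB).mul_right (hB i).smooth)

theorem Cs_CS (hA : ∀ i, CS O (A i)) (hB : ∀ i, CS O (B i)) (i : Fin 3) : CS O (Cs A B i) :=
  ((CS.sum _ fun j _ => ((hA j).mul_right ((hB i).pd j).smooth).add
    ((hB j).mul_right ((hA i).pd j).smooth)).sub
    ((dv_CS hA).mul_right (hB i).smooth)).sub ((dv_CS hB).mul_right (hA i).smooth)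

/-- the quadratic part -/
theorem quad_eq (hν : 0 < ν) (hA : ∀ i, CS O (A i)) (hB : ∀ i, CS O (B i)) (i : Fin 3) (p : PP) :
    dx (Wt ν A B) p * Wt ν A B i p + Nx (Wf ν A B) (Wf ν A B i) p
      = 2 * ν * tb ν 0 1 p.1 * (∑ j, pd j (fun y => A i y * A j y + B i y * B j y) p.2.2)
        + (2 * ν * gn ν 0 1 2 false (Cc A B i) p + 2 * ν * gn ν 0 1 2 true (Cs A B i) p) := by
  have hs : √ν ^ 2 = ν := Real.sq_sqrt hν.le
  have ht : tb ν 0 1 p.1 = tb ν 0 0 p.1 ^ 2 := by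
    rw [pow_two, tb_mul]
  have e1 : ∀ j, dd (eX j) (Wt ν A B j) p
      = 2 * √ν * (gn ν 0 0 1 false (pd j (B j)) p - gn ν 0 0 1 true (pd j (A j)) p) := by
    intro j
    have c1 := gn_contDiff (ν := ν) 0 0 1 false (hB j).smooth
    have c2 := gn_contDiff (ν := ν) 0 0 1 true (hA j).smooth
    unfold Wt
    rw [dd_smul _ (c1.sub c2), dd_sub c1 c2, eX_gn _ _ _ _ _ (hA j).smooth,
      eX_gn _ _ _ _ _ (hB j).smooth]
  have e2 : ∀ j, dd (eX j) (Wf ν A B i) p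
      = 2 * √ν * (gn ν 0 0 1 false (pd j (A i)) p + gn ν 0 0 1 true (pd j (B i)) p) := by
    intro j
    have c1 := gn_contDiff (ν := ν) 0 0 1 false (hA i).smooth
    have c2 := gn_contDiff (ν := ν) 0 0 1 true (hB i).smooth
    unfold Wf
    rw [dd_smul _ (c1.add c2), dd_add c1 c2, eX_gn _ _ _ _ _ (hA i).smooth,
      eX_gn _ _ _ _ _ (hB i).smooth]
  have e3 : ∀ j, pd j (fun y => A i y * A j y + B i y * B j y) p.2.2
      = (pd j (A i) p.2.2 * A j p.2.2 + A i p.2.2 * pd j (A j) p.2.2)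
        + (pd j (B i) p.2.2 * B j p.2.2 + B i p.2.2 * pd j (B j) p.2.2) := by
    intro j
    rw [pd_add ((hA i).smooth.mul (hA j).smooth) ((hB i).smooth.mul (hB j).smooth),
      pd_mul (hA i).smooth (hA j).smooth, pd_mul (hB i).smooth (hB j).smooth]
  unfold dx Nx
  simp only [e1, e2, e3, Fin.sum_univ_three]
  simp only [Wf, Wt, gn, Cc, Cs, dv, Fin.sum_univ_three]
  rw [ht]
  have t1 : tr 2 false p.2.1 = 2 * tr 1 false p.2.1 ^ 2 - 1 := by
    rw [tr_false, tr_false]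
    push_cast
    rw [one_mul, Real.cos_two_mul]
  have t2 : tr 2 true p.2.1 = 2 * tr 1 true p.2.1 * tr 1 false p.2.1 := by
    rw [tr_true, tr_false, tr_true]
    push_cast
    rw [one_mul, Real.sin_two_mul]
  have t3 : tr 1 true p.2.1 ^ 2 = 1 - tr 1 false p.2.1 ^ 2 := by
    rw [tr_true, tr_false]
    push_cast
    rw [one_mul]
    exact Real.sin_sq _
  rw [t1, t2]
  generalize tr 1 false p.2.1 = c at *
  generalize tr 1 true p.2.1 = s at *
  generalize tb ν 0 0 p.1 = e at *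
  generalize √ν = r at *
  subst hs
  linear_combination (4 * r ^ 2 * e ^ 2 * ((pd 0 (A 0) p.2.2 + pd 1 (A 1) p.2.2
    + pd 2 (A 2) p.2.2) * A i p.2.2 + (B 0 p.2.2 * pd 0 (B i) p.2.2 + B 1 p.2.2 * pd 1 (B i) p.2.2
    + B 2 p.2.2 * pd 2 (B i) p.2.2))) * t3

end wave

end Pool.Agent.T2H10.DN
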