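import Pool.Agent.T2H10.DN.Defs

/-!
On a connected open set, a smooth function with compact support and mean zero is the divergence of
a smooth field with compact support (helper86, for helper10).
-/

set_option autoImplicit false
set_option linter.unusedSectionVars false

open MeasureTheory Set Filter Topology
open scoped InnerProductSpace ENNReal ContDiff Convolution

namespace Pool.Agent.T2H10.DN

open H772R2.NS

namespace MZ

/-! ### smooth functions with compact support -/

theorem cs_zero (O : Set E3) : CS O (fun _ => (0 : ℝ)) :=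
  ⟨contDiff_const, HasCompactSupport.zero, by
    rw [show (fun _ : E3 => (0 : ℝ)) = 0 from rfl, tsupport_zero]
    exact empty_subset _⟩

theorem cs_mono {O O' : Set E3} (h : O ⊆ O') {f : E3 → ℝ} (hf : CS O f) : CS O' f :=
  ⟨hf.smooth, hf.compact, hf.supp.trans h⟩

theorem cs_add {O : Set E3} {f g : E3 → ℝ} (hf : CS O f) (hg : CS O g) :
    CS O (fun x => f x + g x) :=
  ⟨hf.smooth.add hg.smooth, hf.compact.add hg.compact,
    (tsupport_add f g).trans (union_subset hf.supp hg.supp)⟩

theorem cs_mul_left {O : Set E3} {f g : E3 → ℝ} (hf : ContDiff ℝ ∞ f) (hg : CS O g) :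
    CS O (fun x => f x * g x) :=
  ⟨hf.mul hg.smooth, hg.compact.mul_left, (tsupport_mul_subset_right).trans hg.supp⟩

theorem cs_const {O : Set E3} {g : E3 → ℝ} (c : ℝ) (hg : CS O g) : CS O (fun x => c * g x) :=
  cs_mul_left contDiff_const hg

theorem cs_sub {O : Set E3} {f g : E3 → ℝ} (hf : CS O f) (hg : CS O g) :
    CS O (fun x => f x - g x) := by
  have h := cs_add hf (cs_const (-1) hg)
  have e : (fun x => f x - g x) = fun x => f x + -1 * g x := by
    funext x
    ring
  rwa [e]

theorem cs_int {O : Set E3} {f : E3 → ℝ} (hf : CS O f) : Integrable f :=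
  hf.smooth.continuous.integrable_of_hasCompactSupport hf.compact

theorem pd_add {f g : E3 → ℝ} (hf : ContDiff ℝ ∞ f) (hg : ContDiff ℝ ∞ g) (j : Fin 3) (x : E3) :
    pd j (fun y => f y + g y) x = pd j f x + pd j g x := by
  unfold pd
  rw [fderiv_fun_add (hf.differentiable (by simp) x) (hg.differentiable (by simp) x)]
  rfl

theorem pd_sub {f g : E3 → ℝ} (hf : ContDiff ℝ ∞ f) (hg : ContDiff ℝ ∞ g) (j : Fin 3) (x : E3) :
    pd j (fun y => f y - g y) x = pd j f x - pd j g x := by
  unfold pd
  rw [fderiv_fun_sub (hf.differentiable (by simp) x) (hg.differentiable (by simp) x)]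
  rfl

theorem pd_const {f : E3 → ℝ} (hf : ContDiff ℝ ∞ f) (c : ℝ) (j : Fin 3) (x : E3) :
    pd j (fun y => c * f y) x = c * pd j f x := by
  unfold pd
  rw [fderiv_const_mul (hf.differentiable (by simp) x)]
  rfl

/-! ### averages of translates -/

/-- the measure on the pairs `(s, a)` -/
noncomputable def μ1 : Measure (ℝ × E3) := (volume.restrict (Icc (0 : ℝ) 1)).prod volume

instance : IsFiniteMeasureOnCompacts μ1 := by
  unfold μ1
  infer_instance

instance : SFinite μ1 := by
  unfold μ1
  infer_instance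

/-- a smooth function, equal to one on the unit interval -/
noncomputable def bb : ContDiffBump (0 : ℝ) := ⟨1, 2, one_pos, one_lt_two⟩

theorem bb_one {s : ℝ} (hs : s ∈ Icc (0 : ℝ) 1) : bb s = 1 := by
  refine bb.one_of_mem_closedBall ?_
  rw [Metric.mem_closedBall, dist_zero_right, Real.norm_eq_abs, abs_of_nonneg hs.1]
  exact hs.2

variable {f w : E3 → ℝ}

/-- the integrand -/
noncomputable def hh (f w : E3 → ℝ) (j : Fin 3) (x : E3) (t : ℝ × E3) : ℝ :=
  bb t.1 * (w t.2 * t.2 j) * f (x - t.1 • t.2)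

theorem hh_smooth (hf : ContDiff ℝ ∞ f) (hw : ContDiff ℝ ∞ w) (j : Fin 3) :
    ContDiff ℝ ∞ (fun q : E3 × (ℝ × E3) => hh f w j q.1 q.2) := by
  unfold hh
  have h1 : ContDiff ℝ ∞ (fun q : E3 × (ℝ × E3) => bb q.2.1) :=
    bb.contDiff.comp (contDiff_fst.comp contDiff_snd)
  have h2 : ContDiff ℝ ∞ (fun q : E3 × (ℝ × E3) => w q.2.2) :=
    hw.comp (contDiff_snd.comp contDiff_snd)
  have h3 : ContDiff ℝ ∞ (fun q : E3 × (ℝ × E3) => q.2.2 j) :=
    (EuclideanSpace.proj (𝕜 := ℝ) j : E3 →L[ℝ] ℝ).contDiff.comp (contDiff_snd.comp contDiff_snd)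
  have h4 : ContDiff ℝ ∞ (fun q : E3 × (ℝ × E3) => f (q.1 - q.2.1 • q.2.2)) := by
    refine hf.comp (contDiff_fst.sub ?_)
    exact (contDiff_fst.comp contDiff_snd).smul (contDiff_snd.comp contDiff_snd)
  exact (h1.mul (h2.mul h3)).mul h4

/-- the compact set of the pairs -/
def kk (w : E3 → ℝ) : Set (ℝ × E3) := Metric.closedBall (0 : ℝ) 2 ×ˢ tsupport w

theorem kk_compact (hc : HasCompactSupport w) : IsCompact (kk w) :=
  (isCompact_closedBall 0 2).prod hc

theorem hh_off (j : Fin 3) (x : E3) {t : ℝ × E3} (ht : t ∉ kk w) : hh f w j x t = 0 := by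
  unfold hh
  by_cases h : t.2 ∈ tsupport w
  · have h1 : t.1 ∉ Metric.closedBall (0 : ℝ) 2 := fun h1 => ht ⟨h1, h⟩
    have h2 : bb t.1 = 0 := by
      refine bb.zero_of_le_dist ?_
      rw [Metric.mem_closedBall, not_le] at h1
      exact h1.le
    rw [h2, zero_mul, zero_mul]
  · rw [image_eq_zero_of_notMem_tsupport h, zero_mul, mul_zero, zero_mul]

/-- the average -/
noncomputable def GG (f w : E3 → ℝ) (j : Fin 3) (x : E3) : ℝ := ∫ t, hh f w j x t ∂μ1

theorem GG_smooth (hf : ContDiff ℝ ∞ f) (hw : ContDiff ℝ ∞ w) (hwc : HasCompactSupport w)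
    (j : Fin 3) : ContDiff ℝ ∞ (GG f w j) := by
  have hk : IsCompact (-(kk w)) := (kk_compact hwc).neg
  have h := contDiffOn_convolution_right_with_param_comp (μ := μ1) (n := ⊤)
    (ContinuousLinearMap.mul ℝ ℝ) (s := (univ : Set E3)) (v := fun _ : E3 => (0 : ℝ × E3))
    contDiffOn_const (f := fun _ => (1 : ℝ)) (g := fun x t => hh f w j x (-t)) (k := -(kk w))
    isOpen_univ hk (fun x t _ ht => hh_off j x (fun h => ht (by simpa using h)))
    (locallyIntegrable_const 1) (by
      refine ContDiff.contDiffOn ?_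
      have h1 : ContDiff ℝ ∞ (fun q : E3 × (ℝ × E3) => (q.1, -q.2)) :=
        contDiff_fst.prodMk contDiff_snd.neg
      exact (hh_smooth hf hw j).comp h1)
  rw [contDiffOn_univ] at h
  have e : (fun x => ((fun _ => (1 : ℝ)) ⋆[ContinuousLinearMap.mul ℝ ℝ, μ1]
      (fun t => hh f w j x (-t))) 0) = GG f w j := by
    funext x
    rw [convolution_def]
    unfold GG
    congr 1
    funext t
    simp
  rw [e] at h
  exact h

theorem hh_cont (hf : ContDiff ℝ ∞ f) (hw : ContDiff ℝ ∞ w) (j : Fin 3) (x : E3) :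
    Continuous (hh f w j x) :=
  (hh_smooth hf hw j).continuous.comp (Continuous.prodMk_right x)

theorem hh_integrable (hf : ContDiff ℝ ∞ f) (hw : ContDiff ℝ ∞ w) (hwc : HasCompactSupport w)
    (j : Fin 3) (x : E3) : Integrable (hh f w j x) μ1 :=
  (hh_cont hf hw j x).integrable_of_hasCompactSupport
    (HasCompactSupport.intro (kk_compact hwc) fun _ ht => hh_off j x ht)

/-- the derivative of the average -/
theorem pd_GG (hf : ContDiff ℝ ∞ f) (hfc : HasCompactSupport f) (hw : ContDiff ℝ ∞ w)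
    (hwc : HasCompactSupport w) (j : Fin 3) (x : E3) :
    pd j (GG f w j) x = ∫ t, hh (pd j f) w j x t ∂μ1 := by
  have hfd : Differentiable ℝ f := hf.differentiable (by simp)
  have hpf : Continuous (pd j f) := (hf.continuous_fderiv (by simp)).clm_apply continuous_const
  have hpc : HasCompactSupport (pd j f) :=
    (hfc.fderiv ℝ).comp_left (g := fun L : E3 →L[ℝ] ℝ => L (EuclideanSpace.single j 1)) (by simp)
  obtain ⟨C, hC⟩ := hpc.exists_bound_of_continuous hpf
  have hpd : ContDiff ℝ ∞ (pd j f) :=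
    (hf.fderiv_right (m := ∞) (by simp)).clm_apply contDiff_const
  have h1 : HasDerivAt (fun u : ℝ => GG f w j (x + u • EuclideanSpace.single j (1 : ℝ)))
      (pd j (GG f w j) x) 0 :=
    (((GG_smooth hf hw hwc j).differentiable (by simp)) x).hasFDerivAt.hasLineDerivAt _
  refine h1.unique ?_
  have hB : Integrable (fun t : ℝ × E3 => |bb t.1 * (w t.2 * t.2 j)| * C) μ1 := by
    have hcont : Continuous (fun t : ℝ × E3 => |bb t.1 * (w t.2 * t.2 j)| * C) := by
      refine Continuous.mul (Continuous.abs ?_) continuous_const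
      exact (bb.continuous.comp continuous_fst).mul ((hw.continuous.comp continuous_snd).mul
        ((EuclideanSpace.proj (𝕜 := ℝ) j : E3 →L[ℝ] ℝ).continuous.comp continuous_snd))
    refine hcont.integrable_of_hasCompactSupport
      (HasCompactSupport.intro (kk_compact hwc) fun t ht => ?_)
    have h := hh_off (f := fun _ => (1 : ℝ)) (w := w) j x ht
    unfold hh at h
    rw [mul_one] at h
    rw [h, abs_zero, zero_mul]
  have h := hasDerivAt_integral_of_dominated_loc_of_deriv_le (μ := μ1)
    (F := fun (u : ℝ) t => hh f w j (x + u • EuclideanSpace.single j (1 : ℝ)) t)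
    (F' := fun (u : ℝ) t => hh (pd j f) w j (x + u • EuclideanSpace.single j (1 : ℝ)) t)
    (x₀ := (0 : ℝ)) (s := univ) (bound := fun t => |bb t.1 * (w t.2 * t.2 j)| * C)
    univ_mem
    (Eventually.of_forall fun u => (hh_cont hf hw j _).aestronglyMeasurable)
    (hh_integrable hf hw hwc j _)
    ((hh_cont hpd hw j _).aestronglyMeasurable)
    (Eventually.of_forall fun t u _ => by
      unfold hh
      rw [norm_mul, Real.norm_eq_abs]
      exact mul_le_mul_of_nonneg_left (hC _) (abs_nonneg _)) hB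
    (Eventually.of_forall fun t u _ => by
      unfold hh
      refine HasDerivAt.const_mul _ ?_
      have h2 : HasDerivAt (fun u : ℝ => x + u • EuclideanSpace.single j (1 : ℝ) - t.1 • t.2)
          (EuclideanSpace.single j (1 : ℝ)) u := by
        have h3 := (((hasDerivAt_id u).smul_const (EuclideanSpace.single j (1 : ℝ))).const_add
          x).sub_const (t.1 • t.2)
        simpa using h3
      exact (hfd _).hasFDerivAt.comp_hasDerivAt u h2)
  have h4 := h.2
  simp only [zero_smul, add_zero] at h4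
  exact h4

/-- the divergence of the average -/
theorem div_GG (hf : ContDiff ℝ ∞ f) (hfc : HasCompactSupport f) (hw : ContDiff ℝ ∞ w)
    (hwc : HasCompactSupport w) (x : E3) :
    ∑ j, pd j (GG f w j) x = (∫ a, w a) * f x - ∫ a, w a * f (x - a) := by
  have hpd : ∀ j, ContDiff ℝ ∞ (pd j f) := fun j =>
    (hf.fderiv_right (m := ∞) (by simp)).clm_apply contDiff_const
  have hfd : Differentiable ℝ f := hf.differentiable (by simp)
  simp only [pd_GG hf hfc hw hwc]
  rw [← integral_finsetSum _ (fun j _ => hh_integrable (hpd j) hw hwc j x)]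
  have hint : Integrable (fun t => ∑ j, hh (pd j f) w j x t) μ1 :=
    integrable_finsetSum _ fun j _ => hh_integrable (hpd j) hw hwc j x
  have e1 : ∫ t, ∑ j, hh (pd j f) w j x t ∂μ1
      = ∫ a, ∫ s in Icc (0 : ℝ) 1, ∑ j, hh (pd j f) w j x (s, a) := by
    unfold μ1 at hint ⊢
    exact integral_prod_symm _ hint
  rw [e1]
  have e2 : ∀ a : E3, ∫ s in Icc (0 : ℝ) 1, ∑ j, hh (pd j f) w j x (s, a)
      = w a * f x - w a * f (x - a) := by
    intro a
    have e3 : ∫ s in Icc (0 : ℝ) 1, ∑ j, hh (pd j f) w j x (s, a)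
        = ∫ s in Icc (0 : ℝ) 1, w a * (fderiv ℝ f (x - s • a)) a := by
      refine setIntegral_congr_fun measurableSet_Icc fun s hs => ?_
      simp only [hh, bb_one hs, one_mul]
      have e4 : a = ∑ j, a j • EuclideanSpace.single j (1 : ℝ) := by
        ext i
        simp [Pi.single_apply]
      have e5 : fderiv ℝ f (x - s • a) a = ∑ j, a j * pd j f (x - s • a) := by
        conv_lhs => rw [e4]
        rw [map_sum]
        refine Finset.sum_congr rfl fun j _ => ?_
        rw [map_smul, smul_eq_mul, ← e4]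
        rfl
      rw [e5, Finset.mul_sum]
      exact Finset.sum_congr rfl fun j _ => by ring
    rw [e3, integral_Icc_eq_integral_Ioc, ← intervalIntegral.integral_of_le zero_le_one,
      intervalIntegral.integral_const_mul]
    have e6 : ∀ s ∈ uIcc (0 : ℝ) 1, HasDerivAt (fun s : ℝ => -f (x - s • a))
        (fderiv ℝ f (x - s • a) a) s := by
      intro s _
      have h3 : HasDerivAt (fun s : ℝ => x - s • a) (-a) s := by
        have h4 := ((hasDerivAt_id s).smul_const a).const_sub x
        simpa using h4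
      have h5 := ((hfd (x - s • a)).hasFDerivAt.comp_hasDerivAt s h3).neg
      refine h5.congr_deriv ?_
      rw [map_neg, neg_neg]
    have hc : Continuous (fun s : ℝ => fderiv ℝ f (x - s • a) a) :=
      ((hf.continuous_fderiv (by simp)).comp
        (continuous_const.sub (continuous_id.smul continuous_const))).clm_apply continuous_const
    rw [intervalIntegral.integral_eq_sub_of_hasDerivAt e6 (hc.intervalIntegrable _ _)]
    simp only [one_smul, zero_smul, sub_zero]
    ring
  simp only [e2]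
  have i1 : Integrable (fun a => w a * f x) :=
    (hw.continuous.integrable_of_hasCompactSupport hwc).mul_const _
  have i2 : Integrable (fun a => w a * f (x - a)) :=
    (hw.continuous.mul (hf.continuous.comp
      (continuous_const.sub continuous_id))).integrable_of_hasCompactSupport hwc.mul_right
  rw [integral_sub i1 i2, integral_mul_const]

/-- the support of the average -/
theorem supp_GG (hf : ContDiff ℝ ∞ f) (hw : ContDiff ℝ ∞ w) (hwc : HasCompactSupport w)
    {x0 : E3} {r r' : ℝ} (hfs : tsupport f ⊆ Metric.closedBall x0 r)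
    (hws : tsupport w ⊆ Metric.closedBall 0 r') (j : Fin 3) :
    tsupport (GG f w j) ⊆ Metric.closedBall x0 (r + r') := by
  refine closure_minimal (fun x hx => ?_) Metric.isClosed_closedBall
  by_contra hcon
  refine hx ?_
  unfold GG
  have hint := hh_integrable hf hw hwc j x
  have e1 : ∫ t, hh f w j x t ∂μ1 = ∫ a, ∫ s in Icc (0 : ℝ) 1, hh f w j x (s, a) := by
    unfold μ1 at hint ⊢
    exact integral_prod_symm _ hint
  rw [e1]
  have e2 : ∀ a : E3, ∫ s in Icc (0 : ℝ) 1, hh f w j x (s, a) = 0 := by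
    intro a
    refine setIntegral_eq_zero_of_forall_eq_zero fun s hs => ?_
    unfold hh
    by_cases ha : a ∈ tsupport w
    · have h1 : x - s • a ∉ tsupport f := by
        intro h2
        have h3 := hfs h2
        have h4 := hws ha
        rw [Metric.mem_closedBall, dist_eq_norm] at h3 h4
        rw [sub_zero] at h4
        apply hcon
        rw [Metric.mem_closedBall, dist_eq_norm]
        have h5 : ‖s • a‖ ≤ r' := by
          rw [norm_smul, Real.norm_eq_abs, abs_of_nonneg hs.1]
          calc s * ‖a‖ ≤ 1 * ‖a‖ := mul_le_mul_of_nonneg_right hs.2 (norm_nonneg _)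
            _ ≤ r' := by rw [one_mul]; exact h4
        calc ‖x - x0‖ = ‖(x - s • a - x0) + s • a‖ := by congr 1; abel
          _ ≤ ‖x - s • a - x0‖ + ‖s • a‖ := norm_add_le _ _
          _ ≤ r + r' := add_le_add h3 h5
      rw [image_eq_zero_of_notMem_tsupport h1, mul_zero]
    · simp only [image_eq_zero_of_notMem_tsupport ha, zero_mul, mul_zero]
  simp only [e2, integral_zero]

/-! ### the divergences -/

/-- divergences of smooth fields with compact support -/
def Dv (Ω : Set E3) (f : E3 → ℝ) : Prop :=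
  ∃ g : VF, (∀ j, CS Ω (g j)) ∧ ∀ x, f x = ∑ j, pd j (g j) x

theorem Dv.zero {Ω : Set E3} : Dv Ω (fun _ => 0) := by
  refine ⟨fun _ _ => 0, fun j => cs_zero Ω, fun x => ?_⟩
  simp [pd]

theorem Dv.add {Ω : Set E3} {f g : E3 → ℝ} (hf : Dv Ω f) (hg : Dv Ω g) :
    Dv Ω (fun x => f x + g x) := by
  obtain ⟨F, hF, eF⟩ := hf
  obtain ⟨G, hG, eG⟩ := hg
  refine ⟨fun j x => F j x + G j x, fun j => cs_add (hF j) (hG j), fun x => ?_⟩
  show f x + g x = _
  rw [eF, eG, ← Finset.sum_add_distrib]
  exact Finset.sum_congr rfl fun j _ => (pd_add (hF j).smooth (hG j).smooth j x).symm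

theorem Dv.const {Ω : Set E3} {f : E3 → ℝ} (hf : Dv Ω f) (c : ℝ) :
    Dv Ω (fun x => c * f x) := by
  obtain ⟨F, hF, eF⟩ := hf
  refine ⟨fun j x => c * F j x, fun j => cs_const c (hF j), fun x => ?_⟩
  show c * f x = _
  rw [eF, Finset.mul_sum]
  exact Finset.sum_congr rfl fun j _ => (pd_const (hF j).smooth c j x).symm

theorem Dv.congr {Ω : Set E3} {f g : E3 → ℝ} (hf : Dv Ω f) (h : ∀ x, g x = f x) : Dv Ω g := by
  have : g = f := funext h
  rwa [this]

/-- two functions supported near a point -/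
theorem local_pair {Ω : Set E3} {x0 : E3} {δ : ℝ} (hδ : 0 < δ)
    (hb : Metric.closedBall x0 (2 * δ) ⊆ Ω) {f g : E3 → ℝ} (hf : CS (Metric.ball x0 δ) f)
    (hg : CS (Metric.ball x0 δ) g) :
    Dv Ω (fun x => (∫ a, g a) * f x - (∫ a, f a) * g x) := by
  have key : ∀ f g : E3 → ℝ, CS (Metric.ball x0 δ) f → CS (Metric.ball x0 δ) g →
      ∃ G : VF, (∀ j, CS Ω (G j)) ∧ ∀ x, ∑ j, pd j (G j) x
        = (∫ a, g a) * f x - ∫ a, g (x0 + a) * f (x - a) := by
    intro f g hf hg
    have hws : ContDiff ℝ ∞ (fun a => g (x0 + a)) :=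
      hg.smooth.comp (contDiff_const.add contDiff_id)
    have hwt : tsupport (fun a => g (x0 + a)) ⊆ Metric.closedBall 0 δ := by
      refine closure_minimal (fun a ha => ?_) Metric.isClosed_closedBall
      have h1 : x0 + a ∈ Metric.ball x0 δ := hg.supp (subset_tsupport _ ha)
      rw [Metric.mem_ball, dist_eq_norm, add_sub_cancel_left] at h1
      rw [Metric.mem_closedBall, dist_zero_right]
      exact h1.le
    have hwc : HasCompactSupport (fun a => g (x0 + a)) :=
      (isCompact_closedBall 0 δ).of_isClosed_subset (isClosed_tsupport _) hwt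
    have hfs : tsupport f ⊆ Metric.closedBall x0 δ := hf.supp.trans Metric.ball_subset_closedBall
    refine ⟨GG f (fun a => g (x0 + a)), fun j => ?_, fun x => ?_⟩
    · have h2 := supp_GG hf.smooth hws hwc hfs hwt j
      refine ⟨GG_smooth hf.smooth hws hwc j,
        (isCompact_closedBall x0 (δ + δ)).of_isClosed_subset (isClosed_tsupport _) h2, ?_⟩
      rw [← two_mul] at h2
      exact h2.trans hb
    · rw [div_GG hf.smooth hf.compact hws hwc x]
      rw [integral_add_left_eq_self (fun a => g a) x0]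
  obtain ⟨F1, hF1, e1⟩ := key f g hf hg
  obtain ⟨F2, hF2, e2⟩ := key g f hg hf
  refine ⟨fun j x => F1 j x - F2 j x, fun j => cs_sub (hF1 j) (hF2 j), fun x => ?_⟩
  have e3 : ∑ j, pd j (fun x => F1 j x - F2 j x) x
      = (∑ j, pd j (F1 j) x) - ∑ j, pd j (F2 j) x := by
    rw [← Finset.sum_sub_distrib]
    exact Finset.sum_congr rfl fun j _ => pd_sub (hF1 j).smooth (hF2 j).smooth j x
  have e4 : ∫ a, g (x0 + a) * f (x - a) = ∫ a, f (x0 + a) * g (x - a) := by
    rw [← integral_sub_left_eq_self (fun a => f (x0 + a) * g (x - a)) volume (x - x0)]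
    congr 1
    funext a
    have h1 : x0 + (x - x0 - a) = x - a := by abel
    have h2 : x - (x - x0 - a) = x0 + a := by abel
    rw [h1, h2]
    ring
  rw [e3, e1, e2, e4]
  ring

/-- from local to global, by a partition of unity -/
theorem local_global {Ω : Set E3} {P : (E3 → ℝ) → Prop} (h0 : P (fun _ => 0))
    (hadd : ∀ f g, CS Ω f → CS Ω g → P f → P g → P (fun x => f x + g x))
    (hloc : ∀ x ∈ Ω, ∃ ε : ℝ, 0 < ε ∧ ∀ f, CS (Metric.ball x ε) f → CS Ω f → P f)
    {f : E3 → ℝ} (hf : CS Ω f) : P f := by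
  choose! d hd hdl using hloc
  obtain ⟨s, hs⟩ := hf.compact.elim_finite_subcover (fun y : Ω => Metric.ball (y : E3) (d y))
    (fun y => Metric.isOpen_ball)
    (fun z hz => mem_iUnion.2 ⟨⟨z, hf.supp hz⟩, Metric.mem_ball_self (hd z (hf.supp hz))⟩)
  obtain ⟨ρ, hρ⟩ := SmoothPartitionOfUnity.exists_isSubordinate (modelWithCornersSelf ℝ E3)
    (isClosed_tsupport f) (fun y : s => Metric.ball ((y : Ω) : E3) (d (y : Ω)))
    (fun y => Metric.isOpen_ball) (by
      intro z hz
      obtain ⟨y, hy, hzy⟩ := mem_iUnion₂.1 (hs hz)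
      exact mem_iUnion.2 ⟨⟨y, hy⟩, hzy⟩)
  have hsmooth : ∀ l : s, ContDiff ℝ ∞ (fun x => ρ l x) := fun l => (ρ l).contMDiff.contDiff
  have hCS : ∀ l : s, CS (Metric.ball ((l : Ω) : E3) (d (l : Ω))) (fun x => ρ l x * f x) := by
    intro l
    exact ⟨(hsmooth l).mul hf.smooth, hf.compact.mul_left,
      (tsupport_mul_subset_left).trans (hρ l)⟩
  have hCS2 : ∀ l : s, CS Ω (fun x => ρ l x * f x) := fun l => cs_mul_left (hsmooth l) hf
  have h1 : ∀ t : Finset s, CS Ω (fun x => ∑ l ∈ t, ρ l x * f x) ∧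
      P (fun x => ∑ l ∈ t, ρ l x * f x) := by
    intro t
    classical
    induction t using Finset.induction_on with
    | empty =>
      simp only [Finset.sum_empty]
      exact ⟨cs_zero Ω, h0⟩
    | insert a t ha ih =>
      simp only [Finset.sum_insert ha]
      exact ⟨cs_add (hCS2 a) ih.1, hadd _ _ (hCS2 a) ih.1
        (hdl _ (a : Ω).2 _ (hCS a) (hCS2 a)) ih.2⟩
  have h2 := (h1 Finset.univ).2
  have e : (fun x => ∑ l : s, ρ l x * f x) = f := by
    funext x
    rw [← Finset.sum_mul]
    by_cases hx : x ∈ tsupport f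
    · have h3 := ρ.sum_eq_one hx
      rw [finsum_eq_sum_of_fintype] at h3
      rw [h3, one_mul]
    · rw [image_eq_zero_of_notMem_tsupport hx, mul_zero]
  rwa [e] at h2

/-- a bump function with integral one -/
theorem exists_bump {U : Set E3} (hU : IsOpen U) {x : E3} (hx : x ∈ U) :
    ∃ g : E3 → ℝ, CS U g ∧ ∫ a, g a = 1 := by
  obtain ⟨ε, hε, hb⟩ := Metric.isOpen_iff.1 hU x hx
  let φ : ContDiffBump x := ⟨ε / 4, ε / 2, by positivity, by linarith⟩
  refine ⟨φ.normed volume, ⟨φ.contDiff_normed, φ.hasCompactSupport_normed, ?_⟩,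
    φ.integral_normed⟩
  rw [φ.tsupport_normed_eq]
  exact (Metric.closedBall_subset_ball (show ε / 2 < ε by linarith)).trans hb

/-- **Functions with mean zero are divergences.** -/
theorem mean_zero {Ω : Set E3} (hΩ : IsOpen Ω) (hc : IsConnected Ω) {f : E3 → ℝ} (hf : CS Ω f)
    (h0 : ∫ x, f x = 0) : Dv Ω f := by
  obtain ⟨x0, hx0⟩ := hc.nonempty
  have hpair : ∀ y ∈ Ω, ∃ δ : ℝ, 0 < δ ∧ Metric.closedBall y (2 * δ) ⊆ Ω := by
    intro y hy
    obtain ⟨ε, hε, hb⟩ := Metric.isOpen_iff.1 hΩ y hy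
    exact ⟨ε / 4, by positivity, (Metric.closedBall_subset_ball (by linarith)).trans hb⟩
  -- change the base bump
  have base : ∃ ρ : E3 → ℝ, CS Ω ρ ∧ ∀ f, CS Ω f → Dv Ω (fun x => f x - (∫ a, f a) * ρ x) := by
    obtain ⟨δ0, hδ0, hb0⟩ := hpair x0 hx0
    obtain ⟨ρ, hρ, hρ1⟩ := exists_bump Metric.isOpen_ball (Metric.mem_ball_self hδ0 (x := x0))
    have hρΩ : CS Ω ρ := cs_mono ((Metric.ball_subset_closedBall.trans
      (Metric.closedBall_subset_closedBall (by linarith))).trans hb0) hρ
    refine ⟨ρ, hρΩ, ?_⟩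
    set A : Set E3 := {x | ∃ ε : ℝ, 0 < ε ∧ Metric.ball x ε ⊆ Ω ∧
      ∀ f, CS (Metric.ball x ε) f → Dv Ω (fun y => f y - (∫ a, f a) * ρ y)} with hA
    have hAo : IsOpen A := by
      rw [Metric.isOpen_iff]
      rintro x ⟨ε, hε, hb, hP⟩
      refine ⟨ε / 2, by positivity, fun y hy => ?_⟩
      have hsub : Metric.ball y (ε / 2) ⊆ Metric.ball x ε := by
        intro z hz
        rw [Metric.mem_ball] at hy hz ⊢
        linarith [dist_triangle z y x]
      exact ⟨ε / 2, by positivity, hsub.trans hb, fun f hf => hP f (cs_mono hsub hf)⟩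
    have hx0A : x0 ∈ A := by
      refine ⟨δ0, hδ0, (Metric.ball_subset_closedBall.trans
        (Metric.closedBall_subset_closedBall (by linarith))).trans hb0, fun f hf => ?_⟩
      refine (local_pair hδ0 hb0 hf hρ).congr fun x => ?_
      rw [hρ1, one_mul]
    have hcl : closure A ∩ Ω ⊆ A := by
      rintro y ⟨hyA, hyΩ⟩
      obtain ⟨δ, hδ, hb⟩ := hpair y hyΩ
      obtain ⟨x, hxA, hxy⟩ := Metric.mem_closure_iff.1 hyA δ hδ
      obtain ⟨ε, hε, hbε, hP⟩ := hxA
      have hmem : x ∈ Metric.ball x ε ∩ Metric.ball y δ := by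
        refine ⟨Metric.mem_ball_self hε, ?_⟩
        rw [Metric.mem_ball, dist_comm]
        exact hxy
      obtain ⟨g, hg, hg1⟩ := exists_bump (Metric.isOpen_ball.inter Metric.isOpen_ball) hmem
      refine ⟨δ, hδ, (Metric.ball_subset_closedBall.trans
        (Metric.closedBall_subset_closedBall (by linarith))).trans hb, fun f hf => ?_⟩
      have h1 := local_pair hδ hb hf (cs_mono inter_subset_right hg)
      have h2 := (hP g (cs_mono inter_subset_left hg)).const (∫ a, f a)
      refine (h1.add h2).congr fun z => ?_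
      rw [hg1]
      ring
    have hsub : Ω ⊆ A :=
      hc.isPreconnected.subset_of_closure_inter_subset hAo ⟨x0, hx0, hx0A⟩ hcl
    intro f hf
    refine local_global (P := fun f => Dv Ω (fun x => f x - (∫ a, f a) * ρ x)) ?_ ?_ ?_ hf
    · refine Dv.zero.congr fun x => ?_
      simp
    · intro f g hf hg h1 h2
      refine (h1.add h2).congr fun x => ?_
      rw [integral_add (cs_int hf) (cs_int hg)]
      ring
    · intro x hx
      obtain ⟨ε, hε, _, hP⟩ := hsub hx
      exact ⟨ε, hε, fun f hf _ => hP f hf⟩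
  obtain ⟨ρ, _, h⟩ := base
  refine (h f hf).congr fun x => ?_
  rw [h0, zero_mul, sub_zero]

end MZ

end Pool.Agent.T2H10.DN
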