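import Pool.Agent.T2H10.DN.Defs

/-!
Profiles: finite sums of products of a decaying function of the fast time, a trigonometric function
of the phase, and a smooth function of the position with compact support.
-/

set_option autoImplicit false
set_option linter.unusedSectionVars false

open MeasureTheory Set Filter Topology
open scoped InnerProductSpace ENNReal ContDiff

namespace Pool.Agent.T2H10.DN

open H772R2.NS

/-- time, phase, position -/
abbrev PP := ℝ × ℝ × E3

/-- derivatives in a direction -/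
noncomputable def dd (v : PP) (E : PP → ℝ) (p : PP) : ℝ := fderiv ℝ E p v

def eT : PP := (1, 0, 0)
def eH : PP := (0, 1, 0)
noncomputable def eX (j : Fin 3) : PP := (0, 0, EuclideanSpace.single j 1)

section dd

variable {E G : PP → ℝ} {v w : PP}

theorem dd_add (hE : ContDiff ℝ ∞ E) (hG : ContDiff ℝ ∞ G) :
    dd v (fun p => E p + G p) = fun p => dd v E p + dd v G p := by
  funext p
  unfold dd
  rw [fderiv_fun_add (hE.differentiable (by simp) p) (hG.differentiable (by simp) p)]
  rfl

theorem dd_sub (hE : ContDiff ℝ ∞ E) (hG : ContDiff ℝ ∞ G) :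
    dd v (fun p => E p - G p) = fun p => dd v E p - dd v G p := by
  funext p
  unfold dd
  rw [fderiv_fun_sub (hE.differentiable (by simp) p) (hG.differentiable (by simp) p)]
  rfl

theorem dd_mul (hE : ContDiff ℝ ∞ E) (hG : ContDiff ℝ ∞ G) :
    dd v (fun p => E p * G p) = fun p => dd v E p * G p + E p * dd v G p := by
  funext p
  unfold dd
  rw [fderiv_fun_mul (hE.differentiable (by simp) p) (hG.differentiable (by simp) p)]
  simp only [add_apply, smul_apply, smul_eq_mul]
  ring

theorem dd_smul (c : ℝ) (hE : ContDiff ℝ ∞ E) :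
    dd v (fun p => c * E p) = fun p => c * dd v E p := by
  funext p
  unfold dd
  rw [fderiv_const_mul (hE.differentiable (by simp) p)]
  rfl

theorem dd_contDiff (hE : ContDiff ℝ ∞ E) : ContDiff ℝ ∞ (dd v E) :=
  (hE.fderiv_right (m := ∞) (by simp)).clm_apply contDiff_const

theorem dd_comm (hE : ContDiff ℝ ∞ E) : dd v (dd w E) = dd w (dd v E) := by
  funext p
  unfold dd
  have h1 : DifferentiableAt ℝ (fderiv ℝ E) p :=
    (hE.fderiv_right (m := ∞) (by simp)).differentiable (by simp) p
  rw [fderiv_clm_apply h1 (differentiableAt_const _), fderiv_clm_apply h1 (differentiableAt_const _)]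
  simp only [fderiv_fun_const, Pi.zero_apply, ContinuousLinearMap.comp_zero, zero_add,
    ContinuousLinearMap.flip_apply]
  have h2 : IsSymmSndFDerivAt ℝ E p := (hE.contDiffAt).isSymmSndFDerivAt (by
    simp only [minSmoothness_of_isRCLikeNormedField]
    exact WithTop.coe_le_coe.2 le_top)
  exact h2 _ _

theorem dd_sum {ι : Type*} (s : Finset ι) {E : ι → PP → ℝ} (hE : ∀ i, ContDiff ℝ ∞ (E i)) :
    dd v (fun p => ∑ i ∈ s, E i p) = fun p => ∑ i ∈ s, dd v (E i) p := by
  funext p
  unfold dd
  rw [fderiv_fun_sum (fun i _ => (hE i).differentiable (by simp) p)]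
  simp

end dd

/-- time functions -/
noncomputable def tb (ν : ℝ) (j m : ℕ) (τ : ℝ) : ℝ := τ ^ j * Real.exp (-((m + 1) * ν) * τ)

/-- trigonometric functions -/
noncomputable def tr (n : ℤ) (σ : Bool) (θ : ℝ) : ℝ :=
  if σ then Real.sin (n * θ) else Real.cos (n * θ)

variable {ν : ℝ} {O Ω : Set E3}

theorem tb_mul (j m j' m' : ℕ) (τ : ℝ) :
    tb ν j m τ * tb ν j' m' τ = tb ν (j + j') (m + m' + 1) τ := by
  unfold tb
  rw [show τ ^ j * Real.exp (-((m + 1) * ν) * τ) * (τ ^ j' * Real.exp (-((m' + 1) * ν) * τ))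
      = τ ^ (j + j') * (Real.exp (-((m + 1) * ν) * τ) * Real.exp (-((m' + 1) * ν) * τ)) by
        rw [pow_add]; ring, ← Real.exp_add]
  congr 2
  push_cast
  ring

theorem hasDerivAt_tb (j m : ℕ) (τ : ℝ) :
    HasDerivAt (tb ν j m) (j * tb ν (j - 1) m τ - (m + 1) * ν * tb ν j m τ) τ := by
  unfold tb
  have h1 := (hasDerivAt_pow j τ)
  have h2 : HasDerivAt (fun τ : ℝ => Real.exp (-((m + 1) * ν) * τ))
      (Real.exp (-((m + 1) * ν) * τ) * (-((m + 1) * ν))) τ := by
    have h3 : HasDerivAt (fun τ : ℝ => -((m + 1) * ν) * τ) (-((m + 1) * ν)) τ := by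
      simpa using (hasDerivAt_id τ).const_mul (-((m + 1) * ν))
    exact h3.exp
  refine (h1.mul h2).congr_deriv ?_
  ring

theorem tb_contDiff (j m : ℕ) : ContDiff ℝ ∞ (tb ν j m) :=
  (contDiff_id.pow j).mul (Real.contDiff_exp.comp (contDiff_const.mul contDiff_id))

theorem tr_true (n : ℤ) : tr n true = fun θ => Real.sin (n * θ) := by
  funext θ; simp [tr]

theorem tr_false (n : ℤ) : tr n false = fun θ => Real.cos (n * θ) := by
  funext θ; simp [tr]

theorem tr_contDiff (n : ℤ) (σ : Bool) : ContDiff ℝ ∞ (tr n σ) := by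
  cases σ
  · rw [tr_false]
    exact Real.contDiff_cos.comp (contDiff_const.mul contDiff_id)
  · rw [tr_true]
    exact Real.contDiff_sin.comp (contDiff_const.mul contDiff_id)

/-- the span of the time functions -/
def TT (ν : ℝ) : Submodule ℝ (ℝ → ℝ) := Submodule.span ℝ {T | ∃ j m, T = tb ν j m}

theorem tb_mem (j m : ℕ) : tb ν j m ∈ TT ν := Submodule.subset_span ⟨j, m, rfl⟩

theorem TT_contDiff {T : ℝ → ℝ} (hT : T ∈ TT ν) : ContDiff ℝ ∞ T := by
  induction hT using Submodule.span_induction with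
  | mem x h => obtain ⟨j, m, rfl⟩ := h; exact tb_contDiff j m
  | zero => exact contDiff_const
  | add x y _ _ h1 h2 => exact h1.add h2
  | smul a x _ h => exact contDiff_const.mul h

theorem TT_deriv {T : ℝ → ℝ} (hT : T ∈ TT ν) : deriv T ∈ TT ν := by
  induction hT using Submodule.span_induction with
  | mem x h =>
    obtain ⟨j, m, rfl⟩ := h
    have e : deriv (tb ν j m) = (j : ℝ) • tb ν (j - 1) m - ((m + 1) * ν) • tb ν j m := by
      funext τ
      rw [(hasDerivAt_tb j m τ).deriv]
      simp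
    rw [e]
    exact (TT ν).sub_mem ((TT ν).smul_mem _ (tb_mem _ _)) ((TT ν).smul_mem _ (tb_mem _ _))
  | zero =>
    have e : deriv (0 : ℝ → ℝ) = 0 := by funext τ; exact deriv_const τ (0 : ℝ)
    rw [e]
    exact (TT ν).zero_mem
  | add x y hx hy h1 h2 =>
    have e : deriv (x + y) = deriv x + deriv y := by
      funext τ
      exact deriv_add ((TT_contDiff hx).differentiable (by simp) τ)
        ((TT_contDiff hy).differentiable (by simp) τ)
    rw [e]
    exact (TT ν).add_mem h1 h2
  | smul a x hx h =>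
    have e : deriv (a • x) = a • deriv x := by
      funext τ
      exact deriv_const_smul a ((TT_contDiff hx).differentiable (by simp) τ)
    rw [e]
    exact (TT ν).smul_mem _ h

theorem TT_mul {T T' : ℝ → ℝ} (hT : T ∈ TT ν) (hT' : T' ∈ TT ν) :
    (fun τ => T τ * T' τ) ∈ TT ν := by
  induction hT using Submodule.span_induction with
  | mem x h =>
    obtain ⟨j, m, rfl⟩ := h
    induction hT' using Submodule.span_induction with
    | mem x h =>
      obtain ⟨j', m', rfl⟩ := h
      have e : (fun τ => tb ν j m τ * tb ν j' m' τ) = tb ν (j + j') (m + m' + 1) :=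
        funext fun τ => tb_mul j m j' m' τ
      rw [e]
      exact tb_mem _ _
    | zero =>
      have e : (fun τ => tb ν j m τ * (0 : ℝ → ℝ) τ) = 0 := by funext τ; simp
      rw [e]
      exact (TT ν).zero_mem
    | add x y _ _ h1 h2 =>
      have e : (fun τ => tb ν j m τ * (x + y) τ) = (fun τ => tb ν j m τ * x τ)
          + fun τ => tb ν j m τ * y τ := by funext τ; simp [mul_add]
      rw [e]
      exact (TT ν).add_mem h1 h2
    | smul a x _ h =>
      have e : (fun τ => tb ν j m τ * (a • x) τ) = a • fun τ => tb ν j m τ * x τ := by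
        funext τ; simp; ring
      rw [e]
      exact (TT ν).smul_mem _ h
  | zero =>
    have e : (fun τ => (0 : ℝ → ℝ) τ * T' τ) = 0 := by funext τ; simp
    rw [e]
    exact (TT ν).zero_mem
  | add x y _ _ h1 h2 =>
    have e : (fun τ => (x + y) τ * T' τ) = (fun τ => x τ * T' τ) + fun τ => y τ * T' τ := by
      funext τ; simp [add_mul]
    rw [e]
    exact (TT ν).add_mem h1 h2
  | smul a x _ h =>
    have e : (fun τ => (a • x) τ * T' τ) = a • fun τ => x τ * T' τ := by
      funext τ; simp; ring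
    rw [e]
    exact (TT ν).smul_mem _ h

/-- decay -/
theorem TT_bound (hν : 0 < ν) {T : ℝ → ℝ} (hT : T ∈ TT ν) :
    ∃ C : ℝ, 0 ≤ C ∧ ∀ τ, 0 ≤ τ → |T τ| ≤ C * Real.exp (-(ν / 2) * τ) := by
  induction hT using Submodule.span_induction with
  | mem x h =>
    obtain ⟨j, m, rfl⟩ := h
    -- `τ ^ j ≤ j! (2/ν)^j exp (ν τ / 2)`
    refine ⟨(2 / ν) ^ j * j.factorial, by positivity, fun τ hτ => ?_⟩
    have h1 : (ν / 2 * τ) ^ j / j.factorial ≤ Real.exp (ν / 2 * τ) :=
      Real.pow_div_factorial_le_exp _ (by positivity) j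
    unfold tb
    rw [abs_of_nonneg (by positivity)]
    have h2 : τ ^ j ≤ (2 / ν) ^ j * j.factorial * Real.exp (ν / 2 * τ) := by
      have e : τ ^ j = (2 / ν) ^ j * (ν / 2 * τ) ^ j := by
        rw [← mul_pow]
        congr 1
        field_simp
      rw [div_le_iff₀ (by positivity)] at h1
      rw [e]
      calc (2 / ν) ^ j * (ν / 2 * τ) ^ j ≤ (2 / ν) ^ j * (Real.exp (ν / 2 * τ) * j.factorial) := by
            gcongr
        _ = _ := by ring
    calc τ ^ j * Real.exp (-((m + 1) * ν) * τ)
        ≤ ((2 / ν) ^ j * j.factorial * Real.exp (ν / 2 * τ)) * Real.exp (-(ν * τ)) := by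
          refine mul_le_mul h2 ?_ (Real.exp_pos _).le (by positivity)
          rw [Real.exp_le_exp]
          have : 0 ≤ (m : ℝ) * ν * τ := by positivity
          nlinarith
      _ = (2 / ν) ^ j * j.factorial * (Real.exp (ν / 2 * τ) * Real.exp (-(ν * τ))) := by ring
      _ = _ := by
          rw [← Real.exp_add]
          congr 2
          ring
  | zero => exact ⟨0, le_rfl, fun τ _ => by simp⟩
  | add x y _ _ h1 h2 =>
    obtain ⟨C, hC, h1⟩ := h1
    obtain ⟨C', hC', h2⟩ := h2
    refine ⟨C + C', by positivity, fun τ hτ => ?_⟩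
    rw [add_mul]
    exact (abs_add_le _ _).trans (add_le_add (h1 τ hτ) (h2 τ hτ))
  | smul a x _ h =>
    obtain ⟨C, hC, h⟩ := h
    refine ⟨|a| * C, by positivity, fun τ hτ => ?_⟩
    simp only [Pi.smul_apply, smul_eq_mul, abs_mul]
    rw [mul_assoc]
    exact mul_le_mul_of_nonneg_left (h τ hτ) (abs_nonneg _)

/-- the linear equation `y' + a y = T` -/
theorem TT_solve (a : ℝ) {T : ℝ → ℝ} (hT : T ∈ TT ν) :
    ∃ y ∈ TT ν, ∀ τ, deriv y τ + a * y τ = T τ := by
  induction hT using Submodule.span_induction with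
  | mem x h =>
    obtain ⟨j, m, rfl⟩ := h
    by_cases ha : a = (m + 1) * ν
    · refine ⟨((j + 1 : ℝ)⁻¹) • tb ν (j + 1) m, (TT ν).smul_mem _ (tb_mem _ _), fun τ => ?_⟩
      have e : deriv ((j + 1 : ℝ)⁻¹ • tb ν (j + 1) m) τ
          = (j + 1 : ℝ)⁻¹ * ((j + 1) * tb ν j m τ - (m + 1) * ν * tb ν (j + 1) m τ) := by
        rw [((hasDerivAt_tb (j + 1) m τ).const_smul _).deriv]
        simp
      rw [e, ha]
      have hj : (j + 1 : ℝ) ≠ 0 := by positivity
      simp only [Pi.smul_apply, smul_eq_mul]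
      field_simp
      ring
    · have hc : a - (m + 1) * ν ≠ 0 := sub_ne_zero.2 ha
      induction j with
      | zero =>
        refine ⟨(a - (m + 1) * ν)⁻¹ • tb ν 0 m, (TT ν).smul_mem _ (tb_mem _ _), fun τ => ?_⟩
        rw [((hasDerivAt_tb 0 m τ).const_smul _).deriv]
        simp only [Pi.smul_apply, smul_eq_mul, Nat.cast_zero, zero_mul, zero_sub]
        field_simp
        ring
      | succ j ih =>
        obtain ⟨y, hy, h⟩ := ih
        refine ⟨(a - (m + 1) * ν)⁻¹ • tb ν (j + 1) m - ((j + 1) * (a - (m + 1) * ν)⁻¹) • y,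
          (TT ν).sub_mem ((TT ν).smul_mem _ (tb_mem _ _)) ((TT ν).smul_mem _ hy), fun τ => ?_⟩
        have hd := (TT_contDiff hy).differentiable (by simp) τ
        have e := (((hasDerivAt_tb (ν := ν) (j + 1) m τ).const_smul
          ((a - (m + 1) * ν)⁻¹)).sub (hd.hasDerivAt.const_smul
            ((j + 1) * (a - (m + 1) * ν)⁻¹))).deriv
        rw [e]
        have h' := h τ
        simp only [Pi.sub_apply, Pi.smul_apply, smul_eq_mul, Nat.cast_add, Nat.cast_one,
          Nat.add_sub_cancel]
        have e2 : deriv y τ = tb ν j m τ - a * y τ := by linarith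
        rw [e2]
        field_simp
        ring
  | zero => exact ⟨0, (TT ν).zero_mem, fun τ => by
      have e : deriv (0 : ℝ → ℝ) τ = 0 := deriv_const τ (0 : ℝ)
      rw [e]; simp⟩
  | add x y _ _ h1 h2 =>
    obtain ⟨y1, hy1, h1⟩ := h1
    obtain ⟨y2, hy2, h2⟩ := h2
    refine ⟨y1 + y2, (TT ν).add_mem hy1 hy2, fun τ => ?_⟩
    rw [deriv_add ((TT_contDiff hy1).differentiable (by simp) τ)
      ((TT_contDiff hy2).differentiable (by simp) τ)]
    simp only [Pi.add_apply]
    rw [← h1 τ, ← h2 τ]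
    ring
  | smul b x _ h =>
    obtain ⟨y, hy, h⟩ := h
    refine ⟨b • y, (TT ν).smul_mem _ hy, fun τ => ?_⟩
    rw [deriv_const_smul b ((TT_contDiff hy).differentiable (by simp) τ)]
    simp only [Pi.smul_apply, smul_eq_mul]
    rw [← h τ]
    ring

end Pool.Agent.T2H10.DN
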