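import Pool.Agent.T2H10.DN.Defs2
import Pool.Agent.T2H10.DN.Mix

/-!
The projection on divergence free fields, approximated by test fields.
-/

set_option autoImplicit false
set_option linter.unusedSectionVars false

open MeasureTheory Set Filter Topology
open scoped InnerProductSpace ENNReal ContDiff

namespace Pool.Agent.T2H10.DN

open H772R2.NS
open Pool.Agent.Y303.LV (cl clj)

theorem cs_coord {Ω : Set E3} {ψ : E3 → E3} (h : IsTest Ω ψ) (i : Fin 3) :
    CS Ω (fun x => ψ x i) where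
  smooth := contDiff_coord h.smooth i
  compact := hasCompactSupport_coord h.compact i
  supp := by
    refine Subset.trans ?_ h.supp
    refine closure_mono fun x hx h0 => hx ?_
    show ψ x i = 0
    rw [h0]
    rfl

theorem dv_coord {Ω : Set E3} {ψ : E3 → E3} (h : IsTest Ω ψ) (x : E3) :
    dv (fun i x => ψ x i) x = 0 := by
  rw [← h.divfree x]
  refine Finset.sum_congr rfl fun i _ => ?_
  rw [jac_apply, ← fderiv_coord h.smooth]
  rfl

theorem toE_coord (ψ : E3 → E3) : toE (fun i x => ψ x i) = ψ := by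
  funext x
  ext i
  rfl

set_option linter.unusedVariables false in
theorem proj_approx {Ω : Set E3} (hΩ : IsOpen Ω) {X : VF} (hX : ∀ i, CS Ω (X i)) {δ : ℝ}
    (hδ : 0 < δ) : ∃ (S : VF) (r : L2V Ω), (∀ i, CS Ω (S i)) ∧ (∀ x, dv S x = 0) ∧ ‖r‖ ≤ δ ∧
      ∀ p ∈ graphW Ω, ⟪cl Ω (toE X), p.1⟫_ℝ = ⟪cl Ω (toE S) + r, p.1⟫_ℝ := by
  set M0 : Submodule ℝ (L2V Ω) := (preW Ω).map (LinearMap.fst ℝ (L2V Ω) (L2M Ω)) with hM0
  set M : Submodule ℝ (L2V Ω) := M0.topologicalClosure with hM
  have hMc : IsClosed (M : Set (L2V Ω)) := M0.isClosed_topologicalClosure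
  have : CompleteSpace M := hMc.completeSpace_coe
  have hmem : ∀ p ∈ graphW Ω, p.1 ∈ M := by
    intro p hp
    have h1 : p ∈ closure (preW Ω : Set (L2V Ω × L2M Ω)) := hp
    have h2 : p.1 ∈ closure (M0 : Set (L2V Ω)) := by
      refine map_mem_closure continuous_fst h1 ?_
      intro q hq
      exact ⟨q, hq, rfl⟩
    exact h2
  set x := cl Ω (toE X) with hx
  set P : L2V Ω := M.starProjection x with hP
  have hPM : P ∈ closure (M0 : Set (L2V Ω)) := M.starProjection_apply_mem x
  obtain ⟨y, hy, hyP⟩ := Metric.mem_closure_iff.1 hPM δ hδ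
  obtain ⟨q, ⟨ψ, k1, k2, k3⟩, hq⟩ := hy
  have hy2 : y = cl Ω (toE (fun i x => ψ x i)) := by
    rw [toE_coord]
    apply Lp.ext
    have hm : MemLp ψ 2 (volume.restrict Ω) :=
      (k1.smooth.continuous.memLp_of_hasCompactSupport k1.compact).restrict _
    have h5 : (y : E3 → E3) =ᵐ[volume.restrict Ω] ψ := by
      rw [← hq]
      exact k2
    exact h5.trans (cl_coe' hm).symm
  refine ⟨fun i x => ψ x i, P - y, cs_coord k1, dv_coord k1, ?_, fun p hp => ?_⟩
  · rw [dist_eq_norm] at hyP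
    exact hyP.le
  · rw [← hy2, add_sub_cancel]
    have h6 : x - P ∈ Mᗮ := Submodule.sub_starProjection_mem_orthogonal x
    have h7 := (Submodule.mem_orthogonal' M _).1 h6 p.1 (hmem p hp)
    rw [inner_sub_left] at h7
    linarith

end Pool.Agent.T2H10.DN
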