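import Pool.Agent.Y303.LV.PubDef

/-!
Public definitions: the curl and the norm of `B^{-1}_{∞,q}(ℝ³)`.
-/

set_option autoImplicit false

open MeasureTheory Set
open scoped InnerProductSpace ENNReal

namespace Pool.Agent.T2H10.DN

open H772R2.NS.Pub
open Pool.Agent.Y303.LV (heat)

/-- The curl of `ψ`. -/
noncomputable def curl (ψ : R3 → R3) (x : R3) : R3 :=
  (⟪e 2, fderiv ℝ ψ x (e 1)⟫_ℝ - ⟪e 1, fderiv ℝ ψ x (e 2)⟫_ℝ) • e 0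
    + (⟪e 0, fderiv ℝ ψ x (e 2)⟫_ℝ - ⟪e 2, fderiv ℝ ψ x (e 0)⟫_ℝ) • e 1
    + (⟪e 1, fderiv ℝ ψ x (e 0)⟫_ℝ - ⟪e 0, fderiv ℝ ψ x (e 1)⟫_ℝ) • e 2

/-- The norm `(∫₀^∞ (√s sup |e^{sΔ} φ|)^q ds/s)^{1/q}` of `φ` in `B^{-1}_{∞,q}(ℝ³)`. -/
noncomputable def besov (q : ℝ) (φ : R3 → R3) : ℝ≥0∞ :=
  (∫⁻ s in Ioi (0 : ℝ), (⨆ x, ENNReal.ofReal (√s * ‖heat s φ x‖)) ^ q * ENNReal.ofReal s⁻¹) ^ q⁻¹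

end Pool.Agent.T2H10.DN
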