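import Pool.Agent.T2H10.Ene
import Pool.Agent.W795.TQ.DPub
import Pool.Agent.Y303.NF.Pub

/-!
Strong solutions in the public sense are strong solutions in the internal sense.
-/

set_option autoImplicit false
set_option linter.unusedSectionVars false
set_option maxHeartbeats 1000000

open MeasureTheory Set Filter Topology
open scoped InnerProductSpace ENNReal ContDiff NNReal

namespace Pool.Agent.T2H10.DN

open H772R2.NS H772R2.NS.Pub
open Pool.Agent.W795.TQ Pool.Agent.Y303.NF Pool.Agent.Y303.RA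
open H772R2.NSR
open Pool.Agent.T2H10 (int_inner_const norm_sq_prim)

section

variable {H K : Type} [NormedAddCommGroup H] [InnerProductSpace ℝ H] [CompleteSpace H]
  [NormedAddCommGroup K] [InnerProductSpace ℝ K] [CompleteSpace K]
  {W : Submodule ℝ (H × K)} {m : H → K} {C ν T : ℝ}

/-- the energy equality, with a force -/
theorem energy_ofF (Fr : Frame W m C) (hT : 0 < T) {F : ℝ → K} (hF : ContinuousOn F (Icc 0 T))
    {u u1 : ℝ → H} {z : ℝ → K}
    (mem : ∀ t ∈ Icc 0 T, (u t, z t) ∈ W)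
    (u1m : MemLp u1 2 (volume.restrict (Ioc 0 T)))
    (pu : ∀ a b, 0 ≤ a → a ≤ b → b ≤ T → u b - u a = ∫ s in a..b, u1 s)
    (hzc : ContinuousOn z (Icc 0 T)) (hmc : ContinuousOn (fun s => m (u s)) (Icc 0 T))
    (weak : ∀ p ∈ W, ∀ t ∈ Icc 0 T, ⟪u t - u 0, p.1⟫_ℝ
      = ∫ s in (0 : ℝ)..t, ⟪F s - ν • z s + m (u s), p.2⟫_ℝ) :
    ∀ t ∈ Icc 0 T, ‖u t‖ ^ 2 / 2 + ν * (∫ s in (0 : ℝ)..t, ‖z s‖ ^ 2)
      = ‖u 0‖ ^ 2 / 2 + ∫ s in (0 : ℝ)..t, ⟪F s, z s⟫_ℝ := by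
  have hgc : ContinuousOn (fun s => F s - ν • z s + m (u s)) (Icc 0 T) :=
    (hF.sub (hzc.const_smul ν)).add hmc
  have hne : ∀ᵐ s ∂(volume.restrict (Ioc 0 T)), s ≠ T := by
    refine ae_restrict_of_ae ?_
    simp [ae_iff, measure_singleton]
  have key : ∀ᵐ s ∂(volume.restrict (Ioc 0 T)), ∀ p ∈ W,
      ⟪u1 s, p.1⟫_ℝ = ⟪F s - ν • z s + m (u s), p.2⟫_ℝ := by
    filter_upwards [ae_deriv_of_prim hT (memLp_ii hT.le u1m) pu,
      ae_restrict_mem measurableSet_Ioc, hne] with s hd hs hsT p hp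
    have hs' : s ∈ Ioo 0 T := ⟨hs.1, lt_of_le_of_ne hs.2 hsT⟩
    have h1 : HasDerivAt (fun t => ⟪u t, p.1⟫_ℝ) ⟪u1 s, p.1⟫_ℝ s := by
      have := hd.inner ℝ (hasDerivAt_const s p.1)
      simpa using this
    have h2 : HasDerivAt (fun t => ⟪u 0, p.1⟫_ℝ + ∫ r in (0 : ℝ)..t,
        ⟪F r - ν • z r + m (u r), p.2⟫_ℝ) ⟪F s - ν • z s + m (u s), p.2⟫_ℝ s :=
      (H772R2.NSR.hasDerivAt_prim (β := fun r => ⟪F r - ν • z r + m (u r), p.2⟫_ℝ)
        (hgc.inner continuousOn_const) hs').const_add _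
    refine h1.unique (h2.congr_of_eventuallyEq ?_)
    filter_upwards [Icc_mem_nhds hs'.1 hs'.2] with t ht
    rw [← weak p hp t ht, inner_sub_left]
    ring
  intro t ht
  have h1 := norm_sq_prim u1m pu ht
  have hsub : Icc 0 t ⊆ Icc 0 T := Icc_subset_Icc_right ht.2
  have i1 : IntervalIntegrable (fun s => ⟪F s, z s⟫_ℝ) volume 0 t := by
    refine ContinuousOn.intervalIntegrable ?_
    rw [uIcc_of_le ht.1]
    exact (hF.mono hsub).inner (hzc.mono hsub)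
  have i2 : IntervalIntegrable (fun s => ν * ‖z s‖ ^ 2) volume 0 t := by
    refine ContinuousOn.intervalIntegrable ?_
    rw [uIcc_of_le ht.1]
    exact continuousOn_const.mul ((hzc.mono hsub).norm.pow 2)
  have h2 : ∫ s in (0 : ℝ)..t, ⟪u1 s, u s⟫_ℝ
      = ∫ s in (0 : ℝ)..t, (⟪F s, z s⟫_ℝ - ν * ‖z s‖ ^ 2) := by
    rw [intervalIntegral.integral_of_le ht.1, intervalIntegral.integral_of_le ht.1]
    refine integral_congr_ae ?_
    filter_upwards [ae_mono (Measure.restrict_mono (Ioc_subset_Ioc_right ht.2) le_rfl) key,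
      ae_restrict_mem measurableSet_Ioc] with s hs hs2
    have hm := mem s ⟨hs2.1.le, hs2.2.trans ht.2⟩
    rw [hs _ hm, inner_add_left, inner_sub_left, Fr.ortho _ hm,
      real_inner_smul_left, real_inner_self_eq_norm_sq]
    ring
  rw [h2, intervalIntegral.integral_sub i1 i2, intervalIntegral.integral_const_mul] at h1
  linarith

end

theorem str_of_strong {Ω : Set E3} (hΩ : IsOpen Ω) {C : ℝ}
    (Fr : Frame (graphW Ω) (tensL (Ω := Ω)) C) {ν T : ℝ} (hT : 0 < T) {F : ℝ → L2M Ω}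
    (hF : ContinuousOn F (Icc 0 T)) {u u1 : ℝ → L2V Ω} {z z1 : ℝ → L2M Ω}
    (B : IsStrong (show Set R3 from Ω) ν T F u u1 z z1) :
    Str (graphW Ω) tensL ν T F u u1 z z1 := by
  have hm : MeasurableSet Ω := hΩ.measurableSet
  have mem : ∀ t ∈ Icc 0 T, (u t, z t) ∈ graphW Ω := fun t ht => mem_pub.mpr (B.grad t ht)
  have mem1 : ∀ᵐ s ∂(volume.restrict (Ioc 0 T)), (u1 s, z1 s) ∈ graphW Ω := by
    filter_upwards [B.gradDeriv] with t ht
    exact mem_pub.mpr ht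
  have u1m : MemLp u1 2 (volume.restrict (Ioc 0 T)) := B.hu.memLp
  have z1m : MemLp z1 2 (volume.restrict (Ioc 0 T)) := B.hG.memLp
  have pu : ∀ a b, 0 ≤ a → a ≤ b → b ≤ T → u b - u a = ∫ s in a..b, u1 s := B.hu.prim
  have pz : ∀ a b, 0 ≤ a → a ≤ b → b ≤ T → z b - z a = ∫ s in a..b, z1 s := B.hG.prim
  have hzc : ContinuousOn z (Icc 0 T) := prim_cont z1m pz
  have huc : ContinuousOn u (Icc 0 T) := prim_cont u1m pu
  have htc : ContinuousOn (fun s => tensL (u s)) (Icc 0 T) :=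
    (tensL_continuousOn hΩ.measurableSet).comp (f := fun s => (u s, z s)) (huc.prodMk hzc)
      (fun t ht => mem t ht)
  have hgc : ContinuousOn (fun s => F s - ν • z s + tensL (u s)) (Icc 0 T) :=
    (hF.sub (hzc.const_smul ν)).add htc
  have weak : ∀ p ∈ graphW Ω, ∀ t ∈ Icc 0 T, ⟪u t - u 0, p.1⟫_ℝ
      = ∫ s in (0 : ℝ)..t, ⟪F s - ν • z s + tensL (u s), p.2⟫_ℝ := by
    intro p hp t ht
    have hGt : Integrable (fun s => F s - ν • z s + tensL (u s)) (volume.restrict (Ioc 0 t)) :=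
      (hgc.mono (Icc_subset_Icc_right ht.2)).integrableOn_Icc.mono_set Ioc_subset_Icc_self
    set I : L2M Ω := ∫ s in (0 : ℝ)..t, (F s - ν • z s + tensL (u s)) with hI
    have hint : ∀ q : L2V Ω × L2M Ω,
        ∫ s in (0 : ℝ)..t, ⟪F s - ν • z s + tensL (u s), q.2⟫_ℝ = ⟪I, q.2⟫_ℝ :=
      fun q => int_inner_const ht.1 hGt q.2
    have key := graphW_induction (fun q : L2V Ω × L2M Ω => ⟪u t - u 0, q.1⟫_ℝ - ⟪I, q.2⟫_ℝ)
      (by fun_prop) (by
      rintro q ⟨φ, k1, k2, k3⟩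
      have e := B.eqn φ ((isTest_iff φ).mpr k1) t ht
      have e1 := pub_inner (Ω := Ω) (u t) k2
      have e2 := pub_inner (Ω := Ω) (u 0) k2
      have e3 : ∫ s in (0 : ℝ)..t, Pub.rhs (Ω := Ω) ν (u s) (z s) (F s) φ
          = ∫ s in (0 : ℝ)..t, ⟪F s - ν • z s + tensL (u s), q.2⟫_ℝ := by
        refine intervalIntegral.integral_congr ?_
        intro s hs
        rw [uIcc_of_le ht.1] at hs
        exact pub_rhs hm ν (F s) (mem s ⟨hs.1, hs.2.trans ht.2⟩) k3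
      have h2 : ⟪u t - u 0, q.1⟫_ℝ = ⟪u t, q.1⟫_ℝ - ⟪u 0, q.1⟫_ℝ := inner_sub_left _ _ _
      have e' := ((congrArg₂ (· - ·) e1 e2).symm.trans e).trans (e3.trans (hint q))
      show ⟪u t - u 0, q.1⟫_ℝ - ⟪I, q.2⟫_ℝ = 0
      rw [h2]
      exact sub_eq_zero.mpr e') hp
    have key' : ⟪u t - u 0, p.1⟫_ℝ = ⟪I, p.2⟫_ℝ := sub_eq_zero.mp key
    rw [key', ← hint p]
  exact ⟨mem, mem1, B.bdd, u1m, z1m, pu, pz, weak,
    energy_ofF Fr hT hF mem u1m pu hzc htc weak⟩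

end Pool.Agent.T2H10.DN
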