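import Pool.Agent.T2H10.DN.AsmF
import Pool.Agent.T2H10.DN.Proj
import Pool.Agent.T2H10.DN.Prof2
import Pool.Agent.T2H10.DN.StrOf
import Pool.Agent.T2H10.DN.PubDef
import Pool.Agent.T2H10.DN.DenseMid

/-!
The density theorem in terms of the public definitions.
-/

set_option autoImplicit false
set_option linter.unusedSectionVars false
set_option maxHeartbeats 1000000

open MeasureTheory Set Filter Topology
open scoped InnerProductSpace ENNReal ContDiff NNReal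

namespace Pool.Agent.T2H10.DN

open H772R2.NS H772R2.NS.Pub
open Pool.Agent.W795.TQ Pool.Agent.Y303.NF Pool.Agent.Y303.RA
open H772R2.NSR
open Pool.Agent.Y303.LV (heat cl clj)

theorem cs_of {Ω : Set E3} {ψ : E3 → E3} (h1 : ContDiff ℝ ∞ ψ) (h2 : HasCompactSupport ψ)
    (h3 : tsupport ψ ⊆ Ω) (i : Fin 3) : CS Ω (fun x => ψ x i) where
  smooth := contDiff_coord h1 i
  compact := hasCompactSupport_coord h2 i
  supp := by
    refine Subset.trans ?_ h3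
    refine closure_mono fun x hx h0 => hx ?_
    show ψ x i = 0
    rw [h0]
    rfl

theorem curl_eq {ψ : E3 → E3} (h1 : ContDiff ℝ ∞ ψ) (x : E3) :
    (curl ψ x : E3) = toE (cu (fun i x => ψ x i)) x := by
  have h : ∀ i j : Fin 3, ⟪(Pub.e i : E3), fderiv ℝ ψ x (Pub.e j : E3)⟫_ℝ
      = pd j (fun y => ψ y i) x := by
    intro i j
    rw [inner_e]
    exact (fderiv_coord h1 i x (Pub.e j : E3)).symm
  have e : (curl ψ x : E3) = (⟪(Pub.e 2 : E3), fderiv ℝ ψ x (Pub.e 1 : E3)⟫_ℝ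
        - ⟪(Pub.e 1 : E3), fderiv ℝ ψ x (Pub.e 2 : E3)⟫_ℝ) • (EuclideanSpace.single 0 1 : E3)
      + (⟪(Pub.e 0 : E3), fderiv ℝ ψ x (Pub.e 2 : E3)⟫_ℝ
        - ⟪(Pub.e 2 : E3), fderiv ℝ ψ x (Pub.e 0 : E3)⟫_ℝ) • (EuclideanSpace.single 1 1 : E3)
      + (⟪(Pub.e 1 : E3), fderiv ℝ ψ x (Pub.e 0 : E3)⟫_ℝ
        - ⟪(Pub.e 0 : E3), fderiv ℝ ψ x (Pub.e 1 : E3)⟫_ℝ) • (EuclideanSpace.single 2 1 : E3) :=
    rfl
  have e2 : ∀ a b c : ℝ, (a • (EuclideanSpace.single 0 1 : E3)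
      + b • (EuclideanSpace.single 1 1 : E3) + c • (EuclideanSpace.single 2 1 : E3))
      = (WithLp.toLp 2 ![a, b, c] : E3) := by
    intro a b c
    ext i
    fin_cases i <;> simp
  refine e.trans ?_
  rw [e2, h, h, h, h, h, h]
  show (_ : E3) = toE _ x
  unfold toE
  congr 1
  funext i
  fin_cases i
  · simp [cu]
  · simp [cu]
  · simp [cu]

theorem besov_le {q : ℝ} (hq : 0 < q) {w : VF} {ε : ℝ} (hε : 0 < ε) (h : Bq q w (ε ^ q)) :
    besov q (toE w) ≤ ENNReal.ofReal ε := by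
  obtain ⟨a, ha, ha0, hle, hi, hI⟩ := h
  have h1 : ∫⁻ s in Ioi (0 : ℝ), (⨆ x : E3, ENNReal.ofReal (√s * ‖(heat s (toE w) x : E3)‖)) ^ q
      * ENNReal.ofReal s⁻¹ ≤ ENNReal.ofReal (ε ^ q) := by
    refine le_trans ?_ (ENNReal.ofReal_le_ofReal hI)
    rw [ofReal_integral_eq_lintegral_ofReal hi]
    · refine setLIntegral_mono_ae' measurableSet_Ioi (Eventually.of_forall fun s hs => ?_)
      have hs0 : (0 : ℝ) < s := hs
      have h2 : (⨆ x : E3, ENNReal.ofReal (√s * ‖(heat s (toE w) x : E3)‖))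
          ≤ ENNReal.ofReal (a s) :=
        iSup_le fun x => ENNReal.ofReal_le_ofReal (hle s x hs0)
      rw [ENNReal.ofReal_mul (Real.rpow_nonneg (ha0 s) q)]
      refine mul_le_mul_left ?_ _
      rw [← ENNReal.ofReal_rpow_of_nonneg (ha0 s) hq.le]
      exact ENNReal.rpow_le_rpow h2 hq.le
    · filter_upwards [ae_restrict_mem measurableSet_Ioi] with s hs
      have hs0 : (0 : ℝ) < s := hs
      have := Real.rpow_nonneg (ha0 s) q
      positivity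
  have h3 : besov q (toE w) = (∫⁻ s in Ioi (0 : ℝ),
      (⨆ x : E3, ENNReal.ofReal (√s * ‖(heat s (toE w) x : E3)‖)) ^ q
        * ENNReal.ofReal s⁻¹) ^ q⁻¹ := rfl
  rw [h3]
  refine (ENNReal.rpow_le_rpow h1 (by positivity)).trans (le_of_eq ?_)
  rw [ENNReal.ofReal_rpow_of_nonneg (by positivity) (by positivity),
    Real.rpow_rpow_inv hε.le hq.ne']

theorem goodF_str {Ω : Set E3} {ν : ℝ} {f : ℝ → L2M Ω} {T : ℝ} {U U1 : ℝ → L2V Ω}
    {Z Z1 : ℝ → L2M Ω} {g : VF} (S : Str (graphW Ω) (tensL (Ω := Ω)) ν T f U U1 Z Z1)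
    (h0 : U 0 = cl Ω (toE g)) : ∃ Y : ℝ, 0 ≤ Y ∧ GoodF Ω ν {T} f U g Y 0 := by
  obtain ⟨c, hc⟩ := S.bd
  refine ⟨max c 0, le_max_right _ _, fun T' hT' => ?_⟩
  obtain rfl : T' = T := hT'
  refine ⟨U, U1, Z, Z1, S, h0, ?_, fun t _ _ => by simp⟩
  filter_upwards [hc] with t ht
  exact ht.trans (le_max_left _ _)

theorem test_add {V W : VF} {Ω : Set E3} (hV : ∀ i, CS Ω (V i)) (hW : ∀ i, CS Ω (W i))
    (hdV : ∀ x, dv V x = 0) (hdW : ∀ x, dv W x = 0) :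
    (∀ i, CS Ω (fun x => V i x + W i x)) ∧ ∀ x, dv (fun i x => V i x + W i x) x = 0 := by
  refine ⟨fun i => (hV i).add (hW i), fun x => ?_⟩
  have e : dv (fun i x => V i x + W i x) x = dv V x + dv W x := by
    unfold dv
    rw [← Finset.sum_add_distrib]
    refine Finset.sum_congr rfl fun i _ => ?_
    unfold pd
    rw [fderiv_fun_add ((hV i).smooth.differentiable (by simp) x)
      ((hW i).smooth.differentiable (by simp) x)]
    rfl
  rw [e, hdV, hdW, add_zero]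

/-- **The theorem on a finite interval of time, with a force.** -/
theorem pub_force (hloc : S_loc) (hun : S_univ) {Ω : Set E3} (hΩ : IsOpen Ω)
    (hb : Bornology.IsBounded Ω) {ν : ℝ} (hν : 0 < ν) {q : ℝ} (hq : 2 < q)
    {T : ℝ} (hT : 0 < T) {F F1 : ℝ → L2M Ω} (hF : FH T F F1)
    (hF0 : ∃ f0 : L2V Ω, ∀ p ∈ graphW Ω, ⟪F 0, p.2⟫_ℝ = ⟪f0, p.1⟫_ℝ)
    {g : E3 → E3} (hg : H772R2.NS.IsTest Ω g) {U U1 : ℝ → L2V Ω} {Z Z1 : ℝ → L2M Ω}
    (hU : Str (graphW Ω) (tensL (Ω := Ω)) ν T F U U1 Z Z1)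
    (hU0 : (U 0 : E3 → E3) =ᵐ[volume.restrict Ω] g)
    {ψ : E3 → E3} (h1 : ContDiff ℝ ∞ ψ) (h2 : HasCompactSupport ψ) (h3 : tsupport ψ ⊆ Ω)
    (hsum : IsSum Ω (cu (fun i x => ψ x i))) {ε : ℝ} (hε : 0 < ε) :
    ∃ w : E3 → E3, H772R2.NS.IsTest Ω w ∧ besov q w ≤ ENNReal.ofReal ε ∧
      ∃ (u u1 : ℝ → L2V Ω) (z z1 : ℝ → L2M Ω),
        (u 0 : E3 → E3) =ᵐ[volume.restrict Ω] (fun x => g x + toE (cu (fun i x => ψ x i)) x + w x) ∧
        (∀ t ∈ Icc ε T, ‖u t - U t‖ ≤ ε) ∧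
        Str (graphW Ω) (tensL (Ω := Ω)) ν T F u u1 z z1 := by
  have hgc := fun i => cs_coord hg i
  have hgd := fun x => dv_coord hg x
  have hψc := fun i => cs_of h1 h2 h3 i
  have hψs : ∀ i, ContDiff ℝ ∞ (fun x => ψ x i) := fun i => (hψc i).smooth
  have hFc : ContinuousOn F (Icc 0 T) := prim_cont hF.memLp hF.prim
  -- the force
  obtain ⟨f0, hf0⟩ := hF0
  obtain ⟨B, hB⟩ := (isCompact_Icc.image_of_continuousOn hFc).isBounded.exists_norm_le
  set Φ : ℝ := |B| + |∫ s in (0 : ℝ)..T, ‖F s‖ ^ 2| + (|∫ s in (0 : ℝ)..T, ‖F1 s‖ ^ 2| + 1)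
    + ‖f0‖ with hΦ
  have hfor : ForceB Ω {T} F F1 Φ := by
    refine ⟨?_, by positivity, ?_, ?_, ?_, ?_, f0, ?_, hf0⟩
    · rintro T' rfl; exact hT
    · rintro T' rfl; exact hF
    · rintro T' rfl t ht
      have h5 := (hB _ ⟨t, ht, rfl⟩).trans (le_abs_self B)
      rw [hΦ]
      have : 0 ≤ |∫ s in (0 : ℝ)..T', ‖F s‖ ^ 2| + (|∫ s in (0 : ℝ)..T', ‖F1 s‖ ^ 2| + 1)
        + ‖f0‖ := by positivity
      linarith
    · rintro T' rfl
      rw [hΦ]
      have h5 := le_abs_self (∫ s in (0 : ℝ)..T', ‖F s‖ ^ 2)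
      have : 0 ≤ |B| + (|∫ s in (0 : ℝ)..T', ‖F1 s‖ ^ 2| + 1) + ‖f0‖ := by positivity
      linarith
    · rintro T' rfl
      have h5 := le_abs_self (∫ s in (0 : ℝ)..T', ‖F1 s‖ ^ 2)
      have h6 : 0 ≤ |∫ s in (0 : ℝ)..T', ‖F1 s‖ ^ 2| := abs_nonneg _
      have h7 : |∫ s in (0 : ℝ)..T', ‖F1 s‖ ^ 2| + 1 ≤ Φ := by
        rw [hΦ]
        have : 0 ≤ |B| + |∫ s in (0 : ℝ)..T', ‖F s‖ ^ 2| + ‖f0‖ := by positivity
        linarith
      nlinarith
    · rw [hΦ]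
      have : 0 ≤ |B| + |∫ s in (0 : ℝ)..T, ‖F s‖ ^ 2| + (|∫ s in (0 : ℝ)..T, ‖F1 s‖ ^ 2| + 1) := by
        positivity
      linarith
  have hUcl : U 0 = cl Ω (toE (fun i x => g x i)) := by
    rw [toE_coord]
    apply Lp.ext
    have hm : MemLp g 2 (volume.restrict Ω) :=
      (hg.smooth.continuous.memLp_of_hasCompactSupport hg.compact).restrict _
    exact hU0.trans (cl_coe' hm).symm
  obtain ⟨Y, hY, hgood⟩ := goodF_str hU hUcl
  obtain ⟨w, Y', hw, hdw, hY', hBq, hG⟩ := dense_midF hloc hun hν hq hΩ hb hfor hgc hgd hY hgood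
    hsum (ε := min ε (ε ^ q)) (lt_min hε (by positivity))
  obtain ⟨u, u1, z, z1, S, hu0, -, hclose⟩ := hG T rfl
  have hcu : ∀ i, CS Ω (cu (fun i x => ψ x i) i) := by
    intro i
    fin_cases i
    · exact ((hψc 2).pd 1).sub ((hψc 1).pd 2)
    · exact ((hψc 0).pd 2).sub ((hψc 2).pd 0)
    · exact ((hψc 1).pd 0).sub ((hψc 0).pd 1)
  refine ⟨toE w, test_toE hw hdw, ?_, u, u1, z, z1, ?_, ?_, S⟩
  · refine besov_le (by linarith) hε ?_
    obtain ⟨a, ha, ha0, hle, hi, hI⟩ := hBq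
    exact ⟨a, ha, ha0, hle, hi, hI.trans (min_le_right _ _)⟩
  · rw [hu0]
    have hcs : ∀ i, CS Ω (fun x => ((fun x => g x i) x + cu (fun i x => ψ x i) i x) + w i x) :=
      fun i => ((hgc i).add (hcu i)).add (hw i)
    have hm : MemLp (toE (fun i x => ((fun x => g x i) x + cu (fun i x => ψ x i) i x) + w i x)) 2
        (volume.restrict Ω) :=
      ((contDiff_toE fun i => (hcs i).smooth).continuous.memLp_of_hasCompactSupport
        (toE_compact hcs)).restrict _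
    refine (cl_coe' hm).trans (Eventually.of_forall fun x => ?_)
    rfl
  · intro t ht
    exact (hclose t ⟨hε.le.trans ht.1, ht.2⟩ ((min_le_left _ _).trans ht.1)).trans
      (min_le_left _ _)

theorem goodS_iff {Ω : Set E3} {ν : ℝ} {v : VF} {Y η : ℝ} (h : GoodS Ω ν v Y η) :
    GoodF Ω ν (Ioi 0) (fun _ => 0) (fun _ => 0) v Y η := by
  intro T hT
  obtain ⟨u, u1, z, z1, S, h0, h1, h2⟩ := h T hT
  exact ⟨u, u1, z, z1, S, h0, h1, fun t ht hη => by simpa using h2 t ht hη⟩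

/-- **The theorem for all times, without force.** -/
theorem pub_free (hloc : S_loc) (huni : S_uni) (hun : S_univ) {Ω : Set E3} (hΩ : IsOpen Ω)
    (hb : Bornology.IsBounded Ω) {ν : ℝ} (hν : 0 < ν) {q : ℝ} (hq : 2 < q)
    {ψ : E3 → E3} (h1 : ContDiff ℝ ∞ ψ) (h2 : HasCompactSupport ψ) (h3 : tsupport ψ ⊆ Ω)
    (hsum : IsSum Ω (cu (fun i x => ψ x i))) {ε : ℝ} (hε : 0 < ε) :
    ∃ w : E3 → E3, H772R2.NS.IsTest Ω w ∧ besov q w ≤ ENNReal.ofReal ε ∧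
      ∃ u : ℝ → L2V Ω,
        (u 0 : E3 → E3) =ᵐ[volume.restrict Ω] (fun x => toE (cu (fun i x => ψ x i)) x + w x) ∧
        (∀ t, ε ≤ t → ‖u t‖ ≤ ε) ∧ ∀ T : ℝ, 0 < T →
        Str (graphW Ω) (tensL (Ω := Ω)) ν T (fun _ => 0) u (deriv u) (gz (graphW Ω) u)
          (deriv (gz (graphW Ω) u)) := by
  obtain ⟨C, Fr⟩ := exists_frame hΩ hb
  have hψc := fun i => cs_of h1 h2 h3 i
  have hfor : ForceB Ω (Ioi 0) (fun _ => (0 : L2M Ω)) (fun _ => 0) 0 := by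
    refine ⟨fun T hT => hT, le_rfl, fun T _ => ⟨?_, fun a b _ _ _ => by simp⟩, ?_, ?_, ?_, 0, ?_, ?_⟩
    · exact MemLp.zero' 
    · intro T _ t _; simp
    · intro T _; simp
    · intro T _; simp
    · simp
    · intro p _; simp
  obtain ⟨w, Y', hw, hdw, hY', hBq, hG⟩ := dense_midF hloc hun hν hq hΩ hb hfor
    (g := fun _ _ => 0) (fun _ => CS.zero) (fun x => by
      unfold dv pd
      simp) le_rfl (goodS_iff (DM.good_zero hun hΩ ν)) hsum (ε := min ε (ε ^ q))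
      (lt_min hε (by positivity))
  have hcu : ∀ i, CS Ω (cu (fun i x => ψ x i) i) := by
    intro i
    fin_cases i
    · exact ((hψc 2).pd 1).sub ((hψc 1).pd 2)
    · exact ((hψc 0).pd 2).sub ((hψc 2).pd 0)
    · exact ((hψc 1).pd 0).sub ((hψc 0).pd 1)
  have hcs : ∀ i, CS Ω (fun x => (0 + cu (fun i x => ψ x i) i x) + w i x) :=
    fun i => (CS.zero.add (hcu i)).add (hw i)
  obtain ⟨v, hv0, hv⟩ := glue_all (W := graphW Ω) (m := tensL (Ω := Ω)) (F := fun _ => (0 : L2M Ω))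
    (ν := ν) huni Fr hν (I := Ioi 0) (fun T hT => hT) (fun T _ => continuousOn_const)
    (x0 := cl Ω (toE (fun i x => (0 + cu (fun i x => ψ x i) i x) + w i x)))
    (fun T hT => by
      obtain ⟨u, u1, z, z1, S, hu, -, -⟩ := hG T hT
      exact ⟨u, u1, z, z1, S, hu⟩)
  refine ⟨toE w, test_toE hw hdw, ?_, v, ?_, ?_, fun T hT => hv T hT⟩
  · refine besov_le (by linarith) hε ?_
    obtain ⟨a, ha, ha0, hle, hi, hI⟩ := hBq
    exact ⟨a, ha, ha0, hle, hi, hI.trans (min_le_right _ _)⟩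
  · rw [hv0]
    have hm : MemLp (toE (fun i x => (0 + cu (fun i x => ψ x i) i x) + w i x)) 2
        (volume.restrict Ω) :=
      ((contDiff_toE fun i => (hcs i).smooth).continuous.memLp_of_hasCompactSupport
        (toE_compact hcs)).restrict _
    refine (cl_coe' hm).trans (Eventually.of_forall fun x => ?_)
    ext i
    show (0 + cu (fun i x => ψ x i) i x) + w i x = cu (fun i x => ψ x i) i x + w i x
    rw [zero_add]
  · intro t ht
    have ht0 : 0 < t := hε.trans_le ht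
    obtain ⟨u, u1, z, z1, S, hu, -, hcl⟩ := hG t ht0
    have h5 := str_unique huni Fr hν ht0 ht0 le_rfl continuousOn_const S (hv t ht0)
      (hv0.trans hu.symm) t ⟨ht0.le, le_rfl⟩
    have h6 := hcl t ⟨ht0.le, le_rfl⟩ ((min_le_left _ _).trans ht)
    rw [sub_zero, h5] at h6
    exact h6.trans (min_le_left _ _)

end Pool.Agent.T2H10.DN
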