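import Pool.Agent.T2H10.DN.PubF

/-!
The density theorem: the last steps.
-/

set_option autoImplicit false
set_option linter.unusedSectionVars false
set_option maxHeartbeats 1000000

open MeasureTheory Set Filter Topology
open scoped InnerProductSpace ENNReal ContDiff NNReal

namespace Pool.Agent.T2H10.DN

open H772R2.NS H772R2.NS.Pub
open Pool.Agent.W795.TQ Pool.Agent.Y303.NF Pool.Agent.Y303.RA
open H772R2.NSR
open Pool.Agent.Y303.LV (heat cl clj)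

theorem regular_of {Ω : Set E3} (hΩ : IsOpen Ω) (huni : S_uni) {C : ℝ}
    (Fr : Frame (graphW Ω) (tensL (Ω := Ω)) C) {ν T : ℝ} (hν : 0 < ν) (hT : 0 < T)
    {F : ℝ → L2M Ω} (hF : ContinuousOn F (Icc 0 T)) {u u1 : ℝ → L2V Ω} {z z1 : ℝ → L2M Ω}
    (S : Str (graphW Ω) (tensL (Ω := Ω)) ν T F u u1 z z1) :
    (∃ (u' : ℝ → L2 (show Set R3 from Ω) R3) (G G' : ℝ → L2 (show Set R3 from Ω) Mat),
      IsStrong (show Set R3 from Ω) ν T F u u' G G') ∧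
    ∀ (v : ℝ → L2 (show Set R3 from Ω) R3) (D : ℝ → L2 (show Set R3 from Ω) Mat),
      IsLerayHopf (show Set R3 from Ω) ν T F v D → v 0 = u 0 → ∀ t ∈ Icc 0 T, v t = u t := by
  refine ⟨⟨u1, z, z1, strong_of_str hΩ hT S (fun _ _ => rfl)⟩, fun v D L h0 => ?_⟩
  have hLH := lh_mid (F := F) hΩ hF Fr L.meas (by
    filter_upwards [L.grad] with t ht
    exact mem_pub.mpr ht) L.gradL2
    (fun φ hφ t ht => L.eqn φ ((isTest_iff φ).mpr hφ) t ht) L.energy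
  exact (huni (L2V Ω) (L2M Ω) (graphW Ω) tensL C ν T T F (v 0) v u
    u1 D z z1 Fr hν hT le_rfl hF hLH S h0.symm).1

theorem forceW {Ω : Set E3} {F0 : L2M Ω} {h : L2V Ω}
    (hF : ∀ φ : E3 → E3, H772R2.NS.IsTest Ω φ →
      (∫ x in (show Set R3 from Ω), ⟪L2.fn (Ω := Ω) (E := Mat) F0 x, Pub.jac φ x⟫_ℝ)
        = ∫ x in (show Set R3 from Ω), ⟪L2.fn (Ω := Ω) (E := R3) h x, (φ : R3 → R3) x⟫_ℝ) :
    ∀ p ∈ graphW Ω, ⟪F0, p.2⟫_ℝ = ⟪h, p.1⟫_ℝ := by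
  intro p hp
  have key := graphW_induction (fun q : L2V Ω × L2M Ω => ⟪F0, q.2⟫_ℝ - ⟪h, q.1⟫_ℝ)
    (by fun_prop) (by
      rintro q ⟨φ, k1, k2, k3⟩
      have e1 := hF φ k1
      have e2 := pub_inner_jac (Ω := Ω) F0 k3
      have e3 := pub_inner (Ω := Ω) h k2
      exact sub_eq_zero.mpr ((e2.symm.trans e1).trans e3)) hp
  exact sub_eq_zero.mp key

theorem mean_zero {ψ : E3 → E3}
    (h : ∀ i, ∫ x : E3, ⟪(Pub.e i : E3), ψ x⟫_ℝ = 0) (i : Fin 3) : ∫ x, ψ x i = 0 := by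
  rw [← h i]
  exact integral_congr_ae (Filter.Eventually.of_forall fun x => (inner_e i (ψ x)).symm)

theorem fcont {Ω : Set E3} {T : ℝ} {F F1 : ℝ → L2M Ω}
    (h : IsH1 (E := L2 (show Set R3 from Ω) Mat) T F F1) :
    ContinuousOn F (Icc 0 T) ∧ FH T F F1 := by
  have h1 : MemLp F1 2 (volume.restrict (Ioc 0 T)) := h.memLp
  have h2 : ∀ a b, 0 ≤ a → a ≤ b → b ≤ T → F b - F a = ∫ s in a..b, F1 s := h.prim
  exact ⟨prim_cont h1 h2, h1, h2⟩

theorem add_aux {g c c' w : E3 → E3} (h : ∀ x, c' x = c x) (x : E3) :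
    g x + c x + w x = g x + c' x + w x := by
  rw [h]

theorem add_aux' {c c' w : E3 → E3} (h : ∀ x, c' x = c x) (x : E3) :
    c x + w x = c' x + w x := by
  rw [h]

end Pool.Agent.T2H10.DN
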