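import Pool.Agent.T2H10.DN.PubG

/-!
The density theorem for a set of horizons.
-/

set_option autoImplicit false
set_option linter.unusedSectionVars false
set_option maxHeartbeats 1000000

open MeasureTheory Set Filter Topology
open scoped InnerProductSpace ENNReal ContDiff NNReal

namespace Pool.Agent.T2H10.DN

open H772R2.NS H772R2.NS.Pub
open Pool.Agent.W795.TQ Pool.Agent.Y303.NF Pool.Agent.Y303.RA
open H772R2.NSR
open Pool.Agent.Y303.LV (heat cl clj)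

/-- a bound for the values of functions in `H¹` -/
theorem sup_of_h1 {Y : Type} [NormedAddCommGroup Y] [InnerProductSpace ℝ Y] [CompleteSpace Y]
    {T M : ℝ} {u u1 : ℝ → Y} (hu1 : MemLp u1 2 (volume.restrict (Ioc 0 T)))
    (hpu : ∀ a b, 0 ≤ a → a ≤ b → b ≤ T → u b - u a = ∫ s in a..b, u1 s)
    (h2 : ∫ s in (0 : ℝ)..T, ‖u s‖ ^ 2 ≤ M) (h3 : ∫ s in (0 : ℝ)..T, ‖u1 s‖ ^ 2 ≤ M) {t : ℝ}
    (ht : t ∈ Icc 0 T) : ‖u t‖ ^ 2 ≤ ‖u 0‖ ^ 2 + 2 * M := by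
  have huc : ContinuousOn u (Icc 0 T) := prim_cont hu1 hpu
  have h1 := Pool.Agent.T2H10.norm_sq_prim hu1 hpu ht
  have hT0 : 0 ≤ T := ht.1.trans ht.2
  have iu : IntervalIntegrable (fun s => ‖u s‖ ^ 2) volume 0 T := by
    refine ContinuousOn.intervalIntegrable ?_
    rw [uIcc_of_le hT0]
    exact huc.norm.pow 2
  have iu1 : IntervalIntegrable (fun s => ‖u1 s‖ ^ 2) volume 0 T := by
    rw [intervalIntegrable_iff_integrableOn_Ioc_of_le hT0]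
    exact hu1.integrable_norm_pow (by norm_num)
  have hmeas : AEStronglyMeasurable u (volume.restrict (Ioc 0 T)) :=
    (huc.mono Ioc_subset_Icc_self).aestronglyMeasurable measurableSet_Ioc
  have ii : IntervalIntegrable (fun s => ⟪u1 s, u s⟫_ℝ) volume 0 T := by
    rw [intervalIntegrable_iff_integrableOn_Ioc_of_le hT0]
    refine Integrable.mono' (((intervalIntegrable_iff_integrableOn_Ioc_of_le hT0).mp iu).add
      ((intervalIntegrable_iff_integrableOn_Ioc_of_le hT0).mp iu1))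
      (hu1.aestronglyMeasurable.inner hmeas) (Eventually.of_forall fun s => ?_)
    have e1 := abs_real_inner_le_norm (u1 s) (u s)
    rw [Real.norm_eq_abs]
    show _ ≤ ‖u s‖ ^ 2 + ‖u1 s‖ ^ 2
    nlinarith [sq_nonneg (‖u1 s‖ - ‖u s‖), norm_nonneg (u1 s), norm_nonneg (u s)]
  have key : ∫ s in (0 : ℝ)..t, ⟪u1 s, u s⟫_ℝ ≤ M := by
    have hsub : Icc 0 t ⊆ Icc 0 T := Icc_subset_Icc_right ht.2
    have m1 : ∫ s in (0 : ℝ)..t, ⟪u1 s, u s⟫_ℝ
        ≤ ∫ s in (0 : ℝ)..t, (‖u s‖ ^ 2 / 2 + ‖u1 s‖ ^ 2 / 2) := by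
      refine intervalIntegral.integral_mono_on ht.1 (ii.mono_set ?_)
        (((iu.mono_set ?_).div_const 2).add ((iu1.mono_set ?_).div_const 2)) fun s _ => ?_
      · rw [uIcc_of_le ht.1, uIcc_of_le hT0]; exact hsub
      · rw [uIcc_of_le ht.1, uIcc_of_le hT0]; exact hsub
      · rw [uIcc_of_le ht.1, uIcc_of_le hT0]; exact hsub
      · have e1 := real_inner_le_norm (u1 s) (u s)
        nlinarith [sq_nonneg (‖u1 s‖ - ‖u s‖)]
    have m2 : ∫ s in (0 : ℝ)..t, (‖u s‖ ^ 2 / 2 + ‖u1 s‖ ^ 2 / 2)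
        ≤ ∫ s in (0 : ℝ)..T, (‖u s‖ ^ 2 / 2 + ‖u1 s‖ ^ 2 / 2) := by
      refine intervalIntegral.integral_mono_interval le_rfl ht.1 ht.2
        (Eventually.of_forall fun s => ?_) ((iu.div_const 2).add (iu1.div_const 2))
      show (0 : ℝ) ≤ ‖u s‖ ^ 2 / 2 + ‖u1 s‖ ^ 2 / 2
      positivity
    have m3 : ∫ s in (0 : ℝ)..T, (‖u s‖ ^ 2 / 2 + ‖u1 s‖ ^ 2 / 2)
        = (∫ s in (0 : ℝ)..T, ‖u s‖ ^ 2) / 2 + (∫ s in (0 : ℝ)..T, ‖u1 s‖ ^ 2) / 2 := by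
      rw [intervalIntegral.integral_add (iu.div_const 2) (iu1.div_const 2),
        intervalIntegral.integral_div, intervalIntegral.integral_div]
    linarith
  linarith

/-- **The theorem for a set of horizons.** -/
theorem pub_all (hloc : S_loc) (huni : S_uni) (hun : S_univ) {Ω : Set E3} (hΩ : IsOpen Ω)
    (hb : Bornology.IsBounded Ω) {ν : ℝ} (hν : 0 < ν) {q : ℝ} (hq : 2 < q)
    {I : Set ℝ} (hne : I.Nonempty) (hI : ∀ T ∈ I, 0 < T) {F F1 : ℝ → L2M Ω} {M : ℝ}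
    (hF : ∀ T ∈ I, FH T F F1) (hF2 : ∀ T ∈ I, ∫ s in (0 : ℝ)..T, ‖F s‖ ^ 2 ≤ M)
    (hF3 : ∀ T ∈ I, ∫ s in (0 : ℝ)..T, ‖F1 s‖ ^ 2 ≤ M)
    (hF0 : ∃ f0 : L2V Ω, ∀ p ∈ graphW Ω, ⟪F 0, p.2⟫_ℝ = ⟪f0, p.1⟫_ℝ)
    {g : E3 → E3} (hg : H772R2.NS.IsTest Ω g) {U : ℝ → L2V Ω} {Y : ℝ}
    (hU : ∀ T ∈ I, ∃ (U1 : ℝ → L2V Ω) (Z Z1 : ℝ → L2M Ω),
      Str (graphW Ω) (tensL (Ω := Ω)) ν T F U U1 Z Z1 ∧
      ∀ᵐ t ∂(volume.restrict (Ioc 0 T)), ‖U1 t‖ ≤ Y)
    (hU0 : (U 0 : E3 → E3) =ᵐ[volume.restrict Ω] g)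
    {ψ : E3 → E3} (h1 : ContDiff ℝ ∞ ψ) (h2 : HasCompactSupport ψ) (h3 : tsupport ψ ⊆ Ω)
    (hsum : IsSum Ω (cu (fun i x => ψ x i))) {ε : ℝ} (hε : 0 < ε) :
    ∃ w : E3 → E3, H772R2.NS.IsTest Ω w ∧ besov q w ≤ ENNReal.ofReal ε ∧
      ∃ (u : ℝ → L2V Ω) (Y' : ℝ),
        (u 0 : E3 → E3) =ᵐ[volume.restrict Ω] (fun x => g x + toE (cu (fun i x => ψ x i)) x + w x) ∧
        (∀ T ∈ I, ∀ t ∈ Icc ε T, ‖u t - U t‖ ≤ ε) ∧
        ∀ T ∈ I, ∃ (v u1 : ℝ → L2V Ω) (z z1 : ℝ → L2M Ω),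
          Str (graphW Ω) (tensL (Ω := Ω)) ν T F v u1 z z1 ∧ (∀ t ∈ Icc 0 T, u t = v t) ∧
          ∀ᵐ t ∂(volume.restrict (Ioc 0 T)), ‖u1 t‖ ≤ Y' := by
  obtain ⟨C, Fr⟩ := exists_frame hΩ hb
  obtain ⟨T0, hT0⟩ := hne
  have hgc := fun i => cs_coord hg i
  have hgd := fun x => dv_coord hg x
  have hψc := fun i => cs_of h1 h2 h3 i
  have hFc : ∀ T ∈ I, ContinuousOn F (Icc 0 T) := fun T hT => prim_cont (hF T hT).memLp (hF T hT).prim
  have hM : 0 ≤ M := le_trans (intervalIntegral.integral_nonneg (hI T0 hT0).le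
    fun s _ => sq_nonneg _) (hF2 T0 hT0)
  -- the force
  obtain ⟨f0, hf0⟩ := hF0
  set Φ : ℝ := √(‖F 0‖ ^ 2 + 2 * M) + M + 1 + ‖f0‖ with hΦ
  have hs0 : 0 ≤ √(‖F 0‖ ^ 2 + 2 * M) := Real.sqrt_nonneg _
  have hΦ0 : 0 ≤ Φ := by positivity
  have hfor : ForceB Ω I F F1 Φ := by
    refine ⟨hI, hΦ0, hF, ?_, ?_, ?_, f0, ?_, hf0⟩
    · intro T hT t ht
      have h5 := sup_of_h1 (hF T hT).memLp (hF T hT).prim (hF2 T hT) (hF3 T hT) ht
      have h6 : ‖F t‖ ≤ √(‖F 0‖ ^ 2 + 2 * M) := Real.le_sqrt_of_sq_le h5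
      have := norm_nonneg f0
      linarith
    · intro T hT
      have := hF2 T hT
      have := norm_nonneg f0
      linarith
    · intro T hT
      have h5 := hF3 T hT
      have h6 : M + 1 ≤ Φ := by
        have := norm_nonneg f0
        linarith
      nlinarith
    · have := norm_nonneg f0
      linarith
  have hUcl : U 0 = cl Ω (toE (fun i x => g x i)) := by
    rw [toE_coord]
    apply Lp.ext
    have hm : MemLp g 2 (volume.restrict Ω) :=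
      (hg.smooth.continuous.memLp_of_hasCompactSupport hg.compact).restrict _
    exact hU0.trans (cl_coe' hm).symm
  have hgood : GoodF Ω ν I F U (fun i x => g x i) (max Y 0) 0 := by
    intro T hT
    obtain ⟨U1, Z, Z1, S, hS⟩ := hU T hT
    refine ⟨U, U1, Z, Z1, S, hUcl, ?_, fun t _ _ => by simp⟩
    filter_upwards [hS] with t ht
    exact ht.trans (le_max_left _ _)
  obtain ⟨w, Y', hw, hdw, hY', hBq, hG⟩ := dense_midF hloc hun hν hq hΩ hb hfor hgc hgd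
    (le_max_right _ _) hgood hsum (ε := min ε (ε ^ q)) (lt_min hε (by positivity))
  have hcu : ∀ i, CS Ω (cu (fun i x => ψ x i) i) := by
    intro i
    fin_cases i
    · exact ((hψc 2).pd 1).sub ((hψc 1).pd 2)
    · exact ((hψc 0).pd 2).sub ((hψc 2).pd 0)
    · exact ((hψc 1).pd 0).sub ((hψc 0).pd 1)
  have hcs : ∀ i, CS Ω (fun x => ((fun x => g x i) x + cu (fun i x => ψ x i) i x) + w i x) :=
    fun i => ((hgc i).add (hcu i)).add (hw i)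
  obtain ⟨v, hv0, hv⟩ := glue_all (W := graphW Ω) (m := tensL (Ω := Ω)) (F := F)
    (ν := ν) huni Fr hν (I := I) hI hFc
    (x0 := cl Ω (toE (fun i x => ((fun x => g x i) x + cu (fun i x => ψ x i) i x) + w i x)))
    (fun T hT => by
      obtain ⟨u, u1, z, z1, S, hu, -, -⟩ := hG T hT
      exact ⟨u, u1, z, z1, S, hu⟩)
  refine ⟨toE w, test_toE hw hdw, ?_, v, Y', ?_, ?_, ?_⟩
  · refine besov_le (by linarith) hε ?_
    obtain ⟨a, ha, ha0, hle, hi, hI'⟩ := hBq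
    exact ⟨a, ha, ha0, hle, hi, hI'.trans (min_le_right _ _)⟩
  · rw [hv0]
    have hm : MemLp (toE (fun i x => ((fun x => g x i) x + cu (fun i x => ψ x i) i x) + w i x)) 2
        (volume.restrict Ω) :=
      ((contDiff_toE fun i => (hcs i).smooth).continuous.memLp_of_hasCompactSupport
        (toE_compact hcs)).restrict _
    refine (cl_coe' hm).trans (Eventually.of_forall fun x => ?_)
    rfl
  · intro T hT t ht
    obtain ⟨u, u1, z, z1, S, hu, -, hcl⟩ := hG T hT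
    have ht' : t ∈ Icc 0 T := ⟨hε.le.trans ht.1, ht.2⟩
    have h5 := str_unique huni Fr hν (hI T hT) (hI T hT) le_rfl (hFc T hT) S (hv T hT)
      (hv0.trans hu.symm) t ht'
    have h6 := hcl t ht' ((min_le_left _ _).trans ht.1)
    rw [h5] at h6
    exact h6.trans (min_le_left _ _)
  · intro T hT
    obtain ⟨u, u1, z, z1, S, hu, hY, -⟩ := hG T hT
    exact ⟨u, u1, z, z1, S, fun t ht => (str_unique huni Fr hν (hI T hT) (hI T hT) le_rfl
      (hFc T hT) S (hv T hT) (hv0.trans hu.symm) t ht).symm, hY⟩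

/-- a strong solution which agrees with a given function -/
theorem strong_all {Ω : Set E3} (hΩ : IsOpen Ω) {ν T : ℝ} (hT : 0 < T) {F : ℝ → L2M Ω}
    {u v u1 : ℝ → L2V Ω} {z z1 : ℝ → L2M Ω} (S : Str (graphW Ω) tensL ν T F v u1 z z1)
    (hv : ∀ t ∈ Icc 0 T, u t = v t) : IsStrong (show Set R3 from Ω) ν T F u u1 z z1 :=
  strong_of_str hΩ hT S hv

/-- uniqueness for a function which agrees with a strong solution -/
theorem unique_all {Ω : Set E3} (hΩ : IsOpen Ω) (huni : S_uni) {C : ℝ}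
    (Fr : Frame (graphW Ω) (tensL (Ω := Ω)) C) {ν T : ℝ} (hν : 0 < ν) (hT : 0 < T)
    {F : ℝ → L2M Ω} (hF : ContinuousOn F (Icc 0 T)) {u v u1 : ℝ → L2V Ω} {z z1 : ℝ → L2M Ω}
    (S : Str (graphW Ω) (tensL (Ω := Ω)) ν T F v u1 z z1) (hv : ∀ t ∈ Icc 0 T, u t = v t) :
    ∀ (y : ℝ → L2 (show Set R3 from Ω) R3) (D : ℝ → L2 (show Set R3 from Ω) Mat),
      IsLerayHopf (show Set R3 from Ω) ν T F y D → y 0 = u 0 → ∀ t ∈ Icc 0 T, y t = u t := by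
  intro y D L h0 t ht
  have h1 := (regular_of hΩ huni Fr hν hT hF S).2 y D L
    (h0.trans (hv 0 ⟨le_rfl, hT.le⟩)) t ht
  exact h1.trans (hv t ht).symm

end Pool.Agent.T2H10.DN
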