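import Pool.Agent.T2H10.DN.Defs

/-!
A smooth field with compact support in a bounded open set is, up to a field supported off a given
compact set, the sum of second differences with small steps along a ray; the curls of these are
finite sums of layers as soon as this holds locally.
-/

set_option autoImplicit false
set_option linter.unusedSectionVars false

open MeasureTheory Set Filter Topology
open scoped InnerProductSpace ENNReal ContDiff Convolution

namespace Pool.Agent.T2H10.DN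

open H772R2.NS

namespace Rc

/-- the first unit vector -/
noncomputable def e0 : E3 := EuclideanSpace.single 0 1

theorem norm_e0 : ‖e0‖ = 1 := by simp [e0]

theorem pd0_eq (f : E3 → ℝ) (x : E3) : pd 0 f x = fderiv ℝ f x e0 := rfl

/-- the primitive of `f - f (· - τ e0)` along the first axis -/
theorem prim {f : E3 → ℝ} (hf : ContDiff ℝ ∞ f) (hc : HasCompactSupport f) {τ : ℝ}
    (hτ : 0 ≤ τ) : ∃ g : E3 → ℝ, ContDiff ℝ ∞ g ∧
      (∀ x r, tsupport f ⊆ Metric.closedBall x r → tsupport g ⊆ Metric.closedBall x (r + τ)) ∧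
      ∀ x, pd 0 g x = f x - f (x - τ • e0) := by
  have hcont : Continuous f := hf.continuous
  set g : E3 → ℝ := fun x => ∫ s in (0 : ℝ)..τ, f (x - s • e0) with hg
  have hsm : ContDiff ℝ ∞ g := by
    set μ : Measure E3 := Measure.map (fun s : ℝ => s • e0) (volume.restrict (Ioc 0 τ)) with hμ
    have hm : Measurable (fun s : ℝ => s • e0) := (continuous_id.smul continuous_const).measurable
    have : IsFiniteMeasure μ := by
      rw [hμ]
      infer_instance
    have h1 : ContDiff ℝ ∞ ((fun _ => (1 : ℝ)) ⋆[ContinuousLinearMap.mul ℝ ℝ, μ] f) :=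
      hc.contDiff_convolution_right _ (locallyIntegrable_const 1) hf
    have h2 : ((fun _ => (1 : ℝ)) ⋆[ContinuousLinearMap.mul ℝ ℝ, μ] f) = g := by
      funext x
      rw [convolution_def, hg]
      simp only [ContinuousLinearMap.mul_apply', one_mul]
      have h3 : Continuous fun t : E3 => f (x - t) := hcont.comp (continuous_const.sub continuous_id)
      rw [hμ, integral_map hm.aemeasurable h3.aestronglyMeasurable,
        intervalIntegral.integral_of_le hτ]
    rwa [h2] at h1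
  refine ⟨g, hsm, ?_, ?_⟩
  · intro x r hs
    refine closure_minimal ?_ Metric.isClosed_closedBall
    intro y hy
    by_contra hny
    apply hy
    have : ∀ s ∈ uIcc (0 : ℝ) τ, f (y - s • e0) = 0 := by
      intro s hs'
      rw [uIcc_of_le hτ] at hs'
      by_contra hne
      have h1 : y - s • e0 ∈ Metric.closedBall x r := hs (subset_tsupport _ hne)
      apply hny
      rw [Metric.mem_closedBall] at h1 ⊢
      have h2 : dist y (y - s • e0) = s := by
        rw [dist_eq_norm, sub_sub_cancel, norm_smul, norm_e0, mul_one, Real.norm_eq_abs,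
          abs_of_nonneg hs'.1]
      have := dist_triangle y (y - s • e0) x
      rw [h2] at this
      linarith [hs'.2]
    rw [hg]
    simp only
    rw [intervalIntegral.integral_congr (g := fun _ => (0 : ℝ)) this]
    simp
  · intro x
    rw [pd0_eq]
    have h1 : HasDerivAt (fun u : ℝ => g (x + u • e0)) (fderiv ℝ g x e0) 0 :=
      ((hsm.differentiable (by simp)) x).hasFDerivAt.hasLineDerivAt e0
    set φ : ℝ → ℝ := fun r => f (x + r • e0) with hφ
    have hφc : Continuous φ := by fun_prop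
    have h3 : (fun u : ℝ => g (x + u • e0)) =
        fun u => (∫ r in (0 : ℝ)..u, φ r) - ∫ r in (0 : ℝ)..(u - τ), φ r := by
      funext u
      rw [intervalIntegral.integral_interval_sub_left (hφc.intervalIntegrable _ _)
        (hφc.intervalIntegrable _ _)]
      have : (∫ s in (0 : ℝ)..τ, φ (u - s)) = ∫ r in (u - τ)..(u - 0), φ r :=
        intervalIntegral.integral_comp_sub_left φ u
      rw [sub_zero] at this
      rw [← this, hg]
      simp only [hφ]
      congr 1
      funext s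
      congr 1
      rw [sub_smul]
      abel
    have h4 : HasDerivAt (fun u : ℝ => g (x + u • e0)) (φ 0 - φ (0 - τ)) 0 := by
      rw [h3]
      refine HasDerivAt.sub ?_ ?_
      · exact (hφc.integral_hasStrictDerivAt 0 0).hasDerivAt
      · have h5 := (hφc.integral_hasStrictDerivAt 0 (0 - τ)).hasDerivAt
        have h6 : HasDerivAt (fun u : ℝ => u - τ) 1 0 := (hasDerivAt_id 0).sub_const τ
        have h7 := HasDerivAt.comp (0 : ℝ) h5 h6
        rw [mul_one] at h7
        exact h7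
    have := h1.unique h4
    rw [this, hφ]
    simp only [zero_smul, add_zero, zero_sub, neg_smul]
    rw [← sub_eq_add_neg]

theorem pd_shift (j : Fin 3) (f : E3 → ℝ) (a x : E3) :
    pd j (fun y => f (y - a)) x = pd j f (x - a) := by
  unfold pd
  rw [fderiv_comp_sub]

theorem tsupport_shift {f : E3 → ℝ} {x a : E3} {r : ℝ} (h : tsupport f ⊆ Metric.closedBall x r) :
    tsupport (fun y => f (y - a)) ⊆ Metric.closedBall (x + a) r := by
  refine closure_minimal ?_ Metric.isClosed_closedBall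
  intro y hy
  have h1 : y - a ∈ Metric.closedBall x r := h (subset_tsupport _ hy)
  rw [Metric.mem_closedBall, dist_eq_norm] at h1 ⊢
  rwa [show y - (x + a) = y - a - x by abel]

theorem compact_of_ball {f : E3 → ℝ} {x : E3} {r : ℝ} (h : tsupport f ⊆ Metric.closedBall x r) :
    HasCompactSupport f :=
  (isCompact_closedBall x r).of_isClosed_subset (isClosed_tsupport _) h

theorem second {f : E3 → ℝ} (hf : ContDiff ℝ ∞ f) {τ : ℝ} (hτ : 0 ≤ τ) {x : E3} {r : ℝ}
    (hs : tsupport f ⊆ Metric.closedBall x r) :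
    ∃ χ : E3 → ℝ, ContDiff ℝ ∞ χ ∧ tsupport χ ⊆ Metric.closedBall x (r + τ + τ) ∧
      pd 0 (pd 0 χ) = fun y => f y - 2 * f (y - τ • e0) + f (y - τ • e0 - τ • e0) := by
  obtain ⟨g, hg, hgs, hgd⟩ := prim hf (compact_of_ball hs) hτ
  obtain ⟨χ, hχ, hχs, hχd⟩ := prim hg (compact_of_ball (hgs x r hs)) hτ
  refine ⟨χ, hχ, hχs _ _ (hgs _ _ hs), ?_⟩
  have h1 : pd 0 χ = fun y => g y - g (y - τ • e0) := funext hχd
  rw [h1]
  funext y
  have hd : Differentiable ℝ g := hg.differentiable (by simp)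
  have h2 : pd 0 (fun y => g y - g (y - τ • e0)) y = pd 0 g y - pd 0 (fun y => g (y - τ • e0)) y := by
    have h3 : Differentiable ℝ fun y => g (y - τ • e0) :=
      hd.comp (differentiable_id.sub_const _)
    unfold pd
    rw [fderiv_fun_sub (hd y) (h3 y)]
    rfl
  rw [h2, pd_shift, hgd, hgd]
  ring

/-! ### Sums of layers and the curl -/

theorem isSum_zero {Ω : Set E3} : IsSum Ω (fun _ _ => 0) :=
  ⟨0, fun l => l.elim0, fun l => l.elim0, fun i x => by simp⟩

theorem _root_.Pool.Agent.T2H10.DN.IsSum.rcAdd {Ω : Set E3} {F G : VF} (hF : IsSum Ω F) (hG : IsSum Ω G) :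
    IsSum Ω (fun i x => F i x + G i x) := by
  obtain ⟨n, A, hA, hFA⟩ := hF
  obtain ⟨m, B, hB, hGB⟩ := hG
  refine ⟨n + m, Fin.append A B, ?_, ?_⟩
  · intro l
    refine Fin.addCases (fun l => ?_) (fun l => ?_) l
    · rw [Fin.append_left]
      exact hA l
    · rw [Fin.append_right]
      exact hB l
  · intro i x
    rw [Fin.sum_univ_add]
    simp only [Fin.append_left, Fin.append_right]
    rw [hFA, hGB]

theorem _root_.Pool.Agent.T2H10.DN.IsSum.rcCongr {Ω : Set E3} {F G : VF} (hF : IsSum Ω F) (h : ∀ i x, G i x = F i x) :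
    IsSum Ω G := by
  have : G = F := by
    funext i x
    exact h i x
  rwa [this]

theorem pd_add (j : Fin 3) {f g : E3 → ℝ} (hf : Differentiable ℝ f) (hg : Differentiable ℝ g)
    (x : E3) : pd j (fun y => f y + g y) x = pd j f x + pd j g x := by
  unfold pd
  rw [fderiv_fun_add (hf x) (hg x)]
  rfl

theorem cu_add {V U : VF} (hV : ∀ i, Differentiable ℝ (V i)) (hU : ∀ i, Differentiable ℝ (U i))
    (i : Fin 3) (x : E3) : cu (fun i x => V i x + U i x) i x = cu V i x + cu U i x := by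
  fin_cases i
  · simp only [cu, Fin.zero_eta, Matrix.cons_val_zero, pd_add _ (hV _) (hU _)]
    ring
  · simp only [cu, Fin.mk_one, Matrix.cons_val_one, Matrix.cons_val_zero, pd_add _ (hV _) (hU _)]
    ring
  · simp only [cu, Fin.reduceFinMk, Matrix.cons_val, pd_add _ (hV _) (hU _)]
    ring

/-- the field `g e_p` -/
def ev (p : Fin 3) (g : E3 → ℝ) : VF := fun i => if i = p then g else 0

theorem ev_add (p : Fin 3) (f g : E3 → ℝ) (i : Fin 3) (x : E3) :
    ev p (fun y => f y + g y) i x = ev p f i x + ev p g i x := by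
  unfold ev
  by_cases h : i = p <;> simp [h]

theorem ev_diff (p : Fin 3) {f : E3 → ℝ} (hf : Differentiable ℝ f) (i : Fin 3) :
    Differentiable ℝ (ev p f i) := by
  unfold ev
  by_cases h : i = p
  · simpa [h] using hf
  · simp only [h, if_false]
    exact differentiable_const 0

theorem _root_.Pool.Agent.T2H10.DN.CS.rcZero (O : Set E3) : CS O (0 : E3 → ℝ) :=
  ⟨contDiff_const, HasCompactSupport.zero, by simp [tsupport]⟩

theorem _root_.Pool.Agent.T2H10.DN.CS.rcZero2 (O : Set E3) : CS O (fun _ => (0 : ℝ)) := CS.rcZero O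

theorem _root_.Pool.Agent.T2H10.DN.CS.rcDiff {O : Set E3} {f : E3 → ℝ} (h : CS O f) : Differentiable ℝ f :=
  h.smooth.differentiable (by simp)

theorem _root_.Pool.Agent.T2H10.DN.CS.rcMono {O O' : Set E3} {f : E3 → ℝ} (h : CS O f) (ho : O ⊆ O') : CS O' f :=
  ⟨h.smooth, h.compact, h.supp.trans ho⟩

theorem _root_.Pool.Agent.T2H10.DN.CS.rcAdd {O : Set E3} {f g : E3 → ℝ} (hf : CS O f) (hg : CS O g) :
    CS O (fun x => f x + g x) :=
  ⟨hf.smooth.add hg.smooth, hf.compact.add hg.compact,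
    (tsupport_add f g).trans (union_subset hf.supp hg.supp)⟩

theorem _root_.Pool.Agent.T2H10.DN.CS.rcSmul {O : Set E3} {f g : E3 → ℝ} (hf : ContDiff ℝ ∞ f) (hg : CS O g) :
    CS O (fun x => f x * g x) :=
  ⟨hf.mul hg.smooth, hg.compact.mul_left, (tsupport_mul_subset_right).trans hg.supp⟩

theorem _root_.Pool.Agent.T2H10.DN.CS.rcEv {O : Set E3} {f : E3 → ℝ} (hf : CS O f) (p i : Fin 3) :
    CS O (ev p f i) := by
  unfold ev
  by_cases h : i = p
  · simpa [h] using hf
  · simp only [h, if_false]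
    exact CS.rcZero O

/-- the curl of the field is, up to a field supported off `K`, a sum of layers -/
def Rch (Ω K : Set E3) (ψ : VF) : Prop :=
  ∃ ψ' : VF, (∀ i, CS (Ω \ K) (ψ' i)) ∧ IsSum Ω (cu fun i x => ψ i x + ψ' i x)

theorem isSum_cu_zero {Ω : Set E3} : IsSum Ω (cu fun _ _ => 0) := by
  refine isSum_zero.rcCongr fun i x => ?_
  have : ∀ (j : Fin 3), pd j (fun _ : E3 => (0 : ℝ)) x = 0 := by
    intro j
    simp [pd]
  fin_cases i <;> simp [cu, this]

theorem Rch.zero {Ω K : Set E3} : Rch Ω K (fun _ _ => 0) := by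
  refine ⟨fun _ _ => 0, fun i => CS.rcZero2 _, ?_⟩
  simpa using isSum_cu_zero

theorem Rch.congr {Ω K : Set E3} {F G : VF} (hF : Rch Ω K F) (h : ∀ i x, G i x = F i x) :
    Rch Ω K G := by
  have : G = F := by
    funext i x
    exact h i x
  rwa [this]

theorem Rch.add {Ω K : Set E3} {F G : VF} (hF : Rch Ω K F) (hG : Rch Ω K G)
    (dF : ∀ i, Differentiable ℝ (F i)) (dG : ∀ i, Differentiable ℝ (G i)) :
    Rch Ω K (fun i x => F i x + G i x) := by
  obtain ⟨F', hF', hF2⟩ := hF
  obtain ⟨G', hG', hG2⟩ := hG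
  refine ⟨fun i x => F' i x + G' i x, fun i => (hF' i).rcAdd (hG' i), ?_⟩
  refine (hF2.rcAdd hG2).rcCongr fun i x => ?_
  have h := cu_add (V := fun i x => F i x + F' i x) (U := fun i x => G i x + G' i x)
    (fun i => (dF i).add (hF' i).rcDiff) (fun i => (dG i).add (hG' i).rcDiff) i x
  rw [← h]
  congr 1
  funext i x
  ring

theorem Rch.sum {Ω K : Set E3} {ι : Type} (s : Finset ι) (F : ι → VF)
    (hF : ∀ l ∈ s, Rch Ω K (F l)) (dF : ∀ l ∈ s, ∀ i, Differentiable ℝ (F l i)) :
    Rch Ω K (fun i x => ∑ l ∈ s, F l i x) := by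
  classical
  induction s using Finset.induction_on with
  | empty => simpa using Rch.zero
  | insert a s ha ih =>
    simp only [Finset.sum_insert ha]
    refine Rch.add (hF a (Finset.mem_insert_self _ _))
      (ih (fun l hl => hF l (Finset.mem_insert_of_mem hl))
        (fun l hl => dF l (Finset.mem_insert_of_mem hl)))
      (dF a (Finset.mem_insert_self _ _)) fun i => ?_
    exact Differentiable.fun_sum fun l hl => dF l (Finset.mem_insert_of_mem hl) i

/-- the telescoping sum of second differences -/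
theorem tele {Ω : Set E3} {f : E3 → ℝ} (hf : ContDiff ℝ ∞ f) {p : Fin 3} {τ : ℝ} (m : ℕ)
    (hD : ∀ j < m, IsSum Ω (cu (ev p fun y => ((j : ℝ) + 1) * (f (y - ((j : ℝ) * τ) • e0)
      - 2 * f (y - ((j + 1 : ℝ) * τ) • e0) + f (y - ((j + 2 : ℝ) * τ) • e0))))) :
    IsSum Ω (cu (ev p fun y => f y - ((m : ℝ) + 1) * f (y - ((m : ℝ) * τ) • e0)
      + (m : ℝ) * f (y - ((m + 1 : ℝ) * τ) • e0))) := by
  have hd : Differentiable ℝ f := hf.differentiable (by simp)
  induction m with
  | zero =>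
    refine isSum_cu_zero.rcCongr fun i x => ?_
    congr 1
    funext i x
    unfold ev
    by_cases h : i = p <;> simp [h]
  | succ m ih =>
    have h1 := ih fun j hj => hD j (hj.trans (Nat.lt_succ_self m))
    have h2 := hD m (Nat.lt_succ_self m)
    refine (h1.rcAdd h2).rcCongr fun i x => ?_
    rw [← cu_add]
    · congr 1
      funext i x
      rw [← ev_add]
      congr 1
      funext y
      push_cast
      rw [show ((m : ℝ) + 1 + 1) = (m : ℝ) + 2 by ring]
      ring
    · intro i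
      refine ev_diff p ?_ i
      have : ∀ a : E3, Differentiable ℝ fun y => f (y - a) := fun a =>
        hd.comp (differentiable_id.sub_const _)
      exact (hd.sub ((this _).const_mul _)).add ((this _).const_mul _)
    · intro i
      refine ev_diff p ?_ i
      have : ∀ a : E3, Differentiable ℝ fun y => f (y - a) := fun a =>
        hd.comp (differentiable_id.sub_const _)
      exact (((this _).sub ((this _).const_mul _)).add (this _)).const_mul _

/-! ### Moving a field along a ray out of the compact set -/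

/-- the ray from `x` leaves the bounded open set -/
theorem exit {Ω K : Set E3} (hΩ : IsOpen Ω) (hb : Bornology.IsBounded Ω) (hK : IsCompact K)
    (hKΩ : K ⊆ Ω) {x : E3} (hx : x ∈ Ω) : ∃ t ε : ℝ, 0 ≤ t ∧ 0 < ε ∧
      (∀ s ∈ Icc 0 t, x + s • e0 ∈ Ω) ∧ Metric.ball (x + t • e0) ε ⊆ Ω \ K := by
  set A : Set ℝ := {t | 0 ≤ t ∧ ∀ s ∈ Icc 0 t, x + s • e0 ∈ Ω} with hA
  have h0 : (0 : ℝ) ∈ A := by
    refine ⟨le_rfl, fun s hs => ?_⟩
    have : s = 0 := le_antisymm hs.2 hs.1
    simpa [this] using hx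
  obtain ⟨R, hR⟩ := hb.subset_closedBall x
  have hbd : BddAbove A := by
    refine ⟨R, fun t ht => ?_⟩
    have h1 := hR (ht.2 t ⟨ht.1, le_rfl⟩)
    rw [Metric.mem_closedBall, dist_eq_norm, add_sub_cancel_left, norm_smul, norm_e0, mul_one,
      Real.norm_eq_abs, abs_of_nonneg ht.1] at h1
    exact h1
  set T : ℝ := sSup A with hT
  have hT0 : 0 ≤ T := le_csSup hbd h0
  have hlt : ∀ s, 0 ≤ s → s < T → x + s • e0 ∈ Ω := by
    intro s hs hsT
    obtain ⟨t, ht, hst⟩ := exists_lt_of_lt_csSup ⟨0, h0⟩ hsT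
    exact ht.2 s ⟨hs, hst.le⟩
  have hdist : ∀ a b : ℝ, dist (x + a • e0) (x + b • e0) = |a - b| := by
    intro a b
    rw [dist_eq_norm, add_sub_add_left_eq_sub, ← sub_smul, norm_smul, norm_e0, mul_one,
      Real.norm_eq_abs]
  have hTn : x + T • e0 ∉ Ω := by
    intro hTΩ
    obtain ⟨ε, hε, hball⟩ := Metric.isOpen_iff.1 hΩ _ hTΩ
    have h1 : T + ε / 2 ∈ A := by
      refine ⟨by positivity, fun s hs => ?_⟩
      by_cases hsT : s < T
      · exact hlt s hs.1 hsT
      · apply hball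
        rw [Metric.mem_ball, hdist, abs_of_nonneg (by linarith)]
        linarith [hs.2]
    have := le_csSup hbd h1
    linarith
  have hTK : x + T • e0 ∈ Kᶜ := fun h => hTn (hKΩ h)
  obtain ⟨ε, hε, hball⟩ := Metric.isOpen_iff.1 hK.isClosed.isOpen_compl _ hTK
  have hTpos : 0 < T := by
    rcases hT0.lt_or_eq with h | h
    · exact h
    · exfalso
      apply hTn
      rw [← h]
      simpa using hx
  set t : ℝ := max 0 (T - ε / 2) with ht
  have ht0 : 0 ≤ t := le_max_left _ _
  have htT : t < T := max_lt hTpos (by linarith)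
  have htΩ : x + t • e0 ∈ Ω := hlt t ht0 htT
  obtain ⟨ε', hε', hball'⟩ := Metric.isOpen_iff.1 hΩ _ htΩ
  refine ⟨t, min ε' (ε / 2), ht0, lt_min hε' (by positivity),
    fun s hs => hlt s hs.1 (hs.2.trans_lt htT), ?_⟩
  intro y hy
  rw [Metric.mem_ball] at hy
  refine ⟨hball' (hy.trans_le (min_le_left _ _)), ?_⟩
  apply hball
  rw [Metric.mem_ball]
  have h1 : dist (x + t • e0) (x + T • e0) ≤ ε / 2 := by
    rw [hdist, abs_sub_comm, abs_of_nonneg (by linarith)]
    have : T - ε / 2 ≤ t := le_max_right _ _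
    linarith
  have h2 := dist_triangle y (x + t • e0) (x + T • e0)
  have h3 := min_le_right ε' (ε / 2)
  linarith

theorem ray {Ω K : Set E3} (hΩ : IsOpen Ω) (hb : Bornology.IsBounded Ω) (hK : IsCompact K)
    (hKΩ : K ⊆ Ω)
    (hl : ∀ x0 ∈ Ω, ∃ δ : ℝ, 0 < δ ∧ ∀ χ : E3 → ℝ, CS (Metric.ball x0 δ) χ → ∀ p : Fin 3,
      IsSum Ω (cu (fun i => if i = p then pd 0 (pd 0 χ) else 0)))
    {x : E3} (hx : x ∈ Ω) :
    ∃ δ : ℝ, 0 < δ ∧ ∀ f : E3 → ℝ, CS (Metric.ball x δ) f → ∀ p : Fin 3, Rch Ω K (ev p f) := by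
  obtain ⟨t, ε, ht, hε, hseg, hend⟩ := exit hΩ hb hK hKΩ hx
  choose! d hd hdl using hl
  set S : Set E3 := (fun s : ℝ => x + s • e0) '' Icc 0 t with hS
  have hSc : IsCompact S := isCompact_Icc.image (by fun_prop)
  have hSΩ : ∀ z ∈ S, z ∈ Ω := by
    rintro z ⟨s, hs, rfl⟩
    exact hseg s hs
  obtain ⟨η, hη, hleb⟩ := lebesgue_number_lemma_of_metric
    (c := fun y : Ω => Metric.ball (y : E3) (d y)) hSc (fun y => Metric.isOpen_ball)
    (fun z hz => mem_iUnion.2 ⟨⟨z, hSΩ z hz⟩, Metric.mem_ball_self (hd z (hSΩ z hz))⟩)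
  set δ : ℝ := min η ε / 4 with hδ
  have hm0 : 0 < min η ε := lt_min hη hε
  have hδ0 : 0 < δ := by positivity
  have hδη : 4 * δ ≤ η := by
    rw [hδ]
    linarith [min_le_left η ε]
  have hδε : 4 * δ ≤ ε := by
    rw [hδ]
    linarith [min_le_right η ε]
  refine ⟨δ, hδ0, fun f hf p => ?_⟩
  obtain ⟨m, hm, hmt⟩ : ∃ m : ℕ, (0 : ℝ) < m ∧ t ≤ m * δ := by
    refine ⟨⌈t / δ⌉₊ + 1, by positivity, ?_⟩
    have h1 := Nat.le_ceil (t / δ)
    rw [div_le_iff₀ hδ0] at h1
    push_cast
    nlinarith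
  set τ : ℝ := t / m with hτ
  have hτ0 : 0 ≤ τ := by positivity
  have hτδ : τ ≤ δ := by
    rw [hτ, div_le_iff₀ hm]
    linarith
  have hmτ : (m : ℝ) * τ = t := by
    rw [hτ]
    field_simp
  have hfs : tsupport f ⊆ Metric.closedBall x δ := hf.supp.trans Metric.ball_subset_closedBall
  have hsum : IsSum Ω (cu (ev p fun y => f y - ((m : ℝ) + 1) * f (y - ((m : ℝ) * τ) • e0)
      + (m : ℝ) * f (y - ((m + 1 : ℝ) * τ) • e0))) := by
    refine tele hf.smooth m fun j hj => ?_
    have hj' : (j : ℝ) ≤ m := by exact_mod_cast hj.le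
    set a : E3 := ((j : ℝ) * τ) • e0 with ha
    have hsm : ContDiff ℝ ∞ fun y => ((j : ℝ) + 1) * f (y - a) :=
      contDiff_const.mul (hf.smooth.comp (contDiff_id.sub contDiff_const))
    have hsp : tsupport (fun y => ((j : ℝ) + 1) * f (y - a)) ⊆ Metric.closedBall (x + a) δ :=
      (tsupport_mul_subset_right).trans (tsupport_shift hfs)
    obtain ⟨χ, hχ, hχs, hχd⟩ := second hsm hτ0 hsp
    have hmem : x + a ∈ S := by
      refine ⟨(j : ℝ) * τ, ⟨by positivity, ?_⟩, rfl⟩
      rw [← hmτ]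
      exact mul_le_mul_of_nonneg_right hj' hτ0
    obtain ⟨y, hy⟩ := hleb _ hmem
    have hCS : CS (Metric.ball (y : E3) (d y)) χ := by
      refine ⟨hχ, compact_of_ball hχs, hχs.trans (Subset.trans ?_ hy)⟩
      apply Metric.closedBall_subset_ball
      linarith
    have h := hdl y y.2 χ hCS p
    rw [hχd] at h
    have hfun : (fun y => ((j : ℝ) + 1) * f (y - a) - 2 * (((j : ℝ) + 1) * f (y - τ • e0 - a))
        + ((j : ℝ) + 1) * f (y - τ • e0 - τ • e0 - a)) =
        fun y => ((j : ℝ) + 1) * (f (y - a) - 2 * f (y - ((j + 1 : ℝ) * τ) • e0)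
          + f (y - ((j + 2 : ℝ) * τ) • e0)) := by
      funext y
      have e1 : y - τ • e0 - a = y - ((j + 1 : ℝ) * τ) • e0 := by
        rw [ha, add_mul, add_smul, one_mul]
        abel
      have e2 : y - τ • e0 - τ • e0 - a = y - ((j + 2 : ℝ) * τ) • e0 := by
        rw [ha, add_mul, add_smul, two_mul, add_smul]
        abel
      rw [e1, e2]
      ring
    rw [hfun] at h
    exact h
  refine ⟨ev p fun y => (m : ℝ) * f (y - ((m + 1 : ℝ) * τ) • e0)
    - ((m : ℝ) + 1) * f (y - ((m : ℝ) * τ) • e0), fun i => ?_, ?_⟩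
  · apply CS.rcEv
    have h1 : ∀ (c : ℝ) (a : E3), ‖a - t • e0‖ ≤ δ → CS (Ω \ K) fun y => c * f (y - a) := by
      intro c a ha
      have hsp : tsupport (fun y => c * f (y - a)) ⊆ Metric.closedBall (x + a) δ :=
        (tsupport_mul_subset_right).trans (tsupport_shift hfs)
      refine ⟨contDiff_const.mul (hf.smooth.comp (contDiff_id.sub contDiff_const)),
        compact_of_ball hsp, hsp.trans (Subset.trans ?_ hend)⟩
      intro y hy
      rw [Metric.mem_closedBall] at hy
      rw [Metric.mem_ball]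
      have h2 : dist (x + a) (x + t • e0) ≤ δ := by
        rwa [dist_eq_norm, add_sub_add_left_eq_sub]
      have h3 := dist_triangle y (x + a) (x + t • e0)
      linarith
    have h2 := h1 (m : ℝ) (((m + 1 : ℝ) * τ) • e0) (by
      rw [← sub_smul, norm_smul, norm_e0, mul_one, Real.norm_eq_abs, add_mul, hmτ]
      rw [show t + 1 * τ - t = τ by ring, abs_of_nonneg hτ0]
      exact hτδ)
    have h3 := h1 (-((m : ℝ) + 1)) (((m : ℝ) * τ) • e0) (by
      rw [hmτ, sub_self, norm_zero]
      exact hδ0.le)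
    have h4 := h2.rcAdd h3
    have h5 : (fun y => (m : ℝ) * f (y - ((m + 1 : ℝ) * τ) • e0)
        - ((m : ℝ) + 1) * f (y - ((m : ℝ) * τ) • e0)) = fun y =>
        (m : ℝ) * f (y - ((m + 1 : ℝ) * τ) • e0) + -((m : ℝ) + 1) * f (y - ((m : ℝ) * τ) • e0) := by
      funext y
      ring
    rw [h5]
    exact h4
  · refine hsum.rcCongr fun i y => ?_
    congr 1
    funext i y
    rw [← ev_add]
    congr 1
    funext y
    ring

end Rc

open Rc in
/-- TASK T4c, from the local statement -/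
theorem reach_of_local {Ω K : Set E3} (hΩ : IsOpen Ω) (hb : Bornology.IsBounded Ω)
    (hK : IsCompact K) (hKΩ : K ⊆ Ω)
    (hl : ∀ x0 ∈ Ω, ∃ δ : ℝ, 0 < δ ∧ ∀ χ : E3 → ℝ, CS (Metric.ball x0 δ) χ → ∀ p : Fin 3,
      IsSum Ω (cu (fun i => if i = p then pd 0 (pd 0 χ) else 0)))
    {ψ : VF} (hψ : ∀ i, CS Ω (ψ i)) :
    ∃ ψ' : VF, (∀ i, CS (Ω \ K) (ψ' i)) ∧ IsSum Ω (fun i x => cu ψ i x + cu ψ' i x) := by
  have hray := fun (x : E3) (hx : x ∈ Ω) => ray hΩ hb hK hKΩ hl hx
  choose! d hd hdl using hray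
  set C : Set E3 := ⋃ i : Fin 3, tsupport (ψ i) with hC
  have hCc : IsCompact C := isCompact_iUnion fun i => (hψ i).compact
  have hCΩ : C ⊆ Ω := iUnion_subset fun i => (hψ i).supp
  obtain ⟨s, hs⟩ := hCc.elim_finite_subcover (fun y : Ω => Metric.ball (y : E3) (d y))
    (fun y => Metric.isOpen_ball)
    (fun z hz => mem_iUnion.2 ⟨⟨z, hCΩ hz⟩, Metric.mem_ball_self (hd z (hCΩ hz))⟩)
  obtain ⟨ρ, hρ⟩ := SmoothPartitionOfUnity.exists_isSubordinate (modelWithCornersSelf ℝ E3)
    hCc.isClosed (fun y : s => Metric.ball ((y : Ω) : E3) (d (y : Ω)))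
    (fun y => Metric.isOpen_ball) (by
      intro z hz
      obtain ⟨y, hy, hzy⟩ := mem_iUnion₂.1 (hs hz)
      exact mem_iUnion.2 ⟨⟨y, hy⟩, hzy⟩)
  have hsmooth : ∀ l : s, ContDiff ℝ ∞ (fun x => ρ l x) := fun l => (ρ l).contMDiff.contDiff
  have hCS : ∀ (l : s) (p : Fin 3), CS (Metric.ball ((l : Ω) : E3) (d (l : Ω)))
      (fun x => ρ l x * ψ p x) := by
    intro l p
    refine ⟨(hsmooth l).mul (hψ p).smooth, (hψ p).compact.mul_left, ?_⟩
    exact (tsupport_mul_subset_left).trans (hρ l)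
  have hR : Rch Ω K ψ := by
    have h1 : Rch Ω K (fun i x => ∑ l ∈ (Finset.univ : Finset (s × Fin 3)),
        ev l.2 (fun x => ρ l.1 x * ψ l.2 x) i x) := by
      refine Rch.sum _ (fun (l : s × Fin 3) => ev l.2 (fun x => ρ l.1 x * ψ l.2 x)) ?_ ?_
      · intro l _
        exact hdl _ (l.1 : Ω).2 _ (hCS l.1 l.2) l.2
      · intro l _ i
        exact ((hCS l.1 l.2).rcEv l.2 i).rcDiff
    refine h1.congr fun i x => ?_
    rw [Fintype.sum_prod_type]
    have h2 : ∀ l : s, ∑ p : Fin 3, ev p (fun x => ρ l x * ψ p x) i x = ρ l x * ψ i x := by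
      intro l
      rw [Finset.sum_eq_single i]
      · simp [Rc.ev]
      · intro p _ hp
        simp [Rc.ev, hp.symm]
      · intro h
        exact absurd (Finset.mem_univ _) h
    simp only [h2]
    rw [← Finset.sum_mul]
    by_cases hx : x ∈ C
    · have h3 := ρ.sum_eq_one hx
      rw [finsum_eq_sum_of_fintype] at h3
      rw [h3, one_mul]
    · have : ψ i x = 0 := by
        by_contra hne
        exact hx (mem_iUnion.2 ⟨i, subset_tsupport _ hne⟩)
      rw [this, mul_zero]
  obtain ⟨ψ', hψ', hsum⟩ := hR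
  refine ⟨ψ', hψ', hsum.rcCongr fun i x => ?_⟩
  rw [cu_add (fun i => (hψ i).rcDiff) (fun i => (hψ' i).rcDiff)]

end Pool.Agent.T2H10.DN
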