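import Pool.Agent.T2H10.DN.Local
import Pool.Agent.T2H10.DN.ReachLoc

/-!
Task T4c modulo the layers around a centre.
-/

set_option autoImplicit false

open Set

namespace Pool.Agent.T2H10.DN

open H772R2.NS

theorem reach_of {Ω K : Set E3} (hΩ : IsOpen Ω) (lc : Loc.LC Ω) (hb : Bornology.IsBounded Ω)
    (hK : IsCompact K) (hKΩ : K ⊆ Ω) {ψ : VF} (hψ : ∀ i, CS Ω (ψ i)) :
    ∃ ψ' : VF, (∀ i, CS (Ω \ K) (ψ' i)) ∧ IsSum Ω (fun i x => cu ψ i x + cu ψ' i x) :=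
  reach_of_local hΩ hb hK hKΩ (fun _ hx => lay_local_of hΩ lc hx) hψ

end Pool.Agent.T2H10.DN
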