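import Pool.Agent.T2H10.DN.StepB

/-!
One step: a wave of large frequency with small mean force of its divergence free part.
-/

set_option autoImplicit false
set_option linter.unusedSectionVars false

open MeasureTheory Set Filter Topology
open scoped InnerProductSpace ENNReal ContDiff

namespace Pool.Agent.T2H10.DN

open H772R2.NS
open H772R2.NSR (Frame prim_cont exists_frame rellich_W)
open H772R2.NSG (mem_cont ii_of_int)
open Pool.Agent.W795.TQ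
open Pool.Agent.W790.TQ (toSt)
open Pool.Agent.Y303.RA (Hom hom_tensL)
open Pool.Agent.Y303.LV (heat cl clj)
open StepAux

/-- the new approximate solution -/
theorem step_appr {Ω : Set E3} (hΩ : IsOpen Ω) (hb : Bornology.IsBounded Ω) {ν : ℝ} (hν : 0 < ν)
    {c : ℝ} (Un : Univ (graphW Ω) (tensL (Ω := Ω)) c) {CF : ℝ}
    (Fr : Frame (graphW Ω) (tensL (Ω := Ω)) CF) {A : ℝ} (hA0 : 0 < A)
    (hA : ∀ (V : VF) (M : ℝ), (∀ i, Continuous (V i)) → 0 ≤ M → (∀ i x, |V i x| ≤ M) →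
      ‖cl Ω (toE V)‖ ≤ A * M)
    {v : VF} (hv : ∀ i, CS Ω (v i)) (hd : ∀ x, dv v x = 0) {Cb : ℝ} (hCb : 0 ≤ Cb)
    {CT : ℝ} (hCT : 0 ≤ CT) {s : Finset (ℕ × ℕ)}
    (hCT' : ∀ τ, 0 ≤ τ → ∑ a ∈ s, |tb ν a.1 a.2 τ| ≤ CT * Real.exp (-(ν / 2) * τ))
    {X S : ℕ × ℕ → VF} (hX : ∀ a i, CS Ω (X a i)) (hS : ∀ a i, CS Ω (S a i))
    {r : ℕ × ℕ → L2V Ω} {δ : ℝ} (hδ : 0 < δ) (hr : ∀ a, ‖r a‖ ≤ δ)
    (hXS : ∀ a, ∀ p ∈ graphW Ω,
      ⟪cl Ω (toE (X a)), p.1⟫_ℝ = ⟪cl Ω (toE (S a)) + r a, p.1⟫_ℝ)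
    {C0 C k : ℝ} (hC0 : 0 ≤ C0) (hC : 0 ≤ C) (hk : 1 ≤ k) (hCk : C ≤ k) {K : Set E3}
    (hK : IsCompact K) (hKΩ : K ⊆ Ω) {D D1 : ℝ → VF} (F : Fam Ω ν v s X S C0 C k K D D1)
    {T : ℝ} (hT : 0 < T) {u u1 : ℝ → L2V Ω} {z z1 : ℝ → L2M Ω}
    (hSt : Str (graphW Ω) (tensL (Ω := Ω)) ν T (fun _ => 0) u u1 z z1)
    (b1 : ∀ t ∈ Icc 0 T, ‖u t - cl Ω (toE v)‖ ≤ Cb * t)
    (b2 : ∀ t ∈ Icc 0 T, ‖z t - clj Ω (toE v)‖ ≤ Cb * √t) :
    ∃ G : ℝ → L2V Ω,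
      (∀ t ∈ Icc 0 T, ‖G t‖ ≤ (CT * δ * k + (A * C + 9 * Cb * (C * (4 / ν)
          + (C0 + 1) * (1 + 4 / ν)) + 1)) * Real.exp (-(ν / 4 * k ^ 2) * t)) ∧
      (∀ t ∈ Icc 0 T, ∀ p ∈ graphW Ω, ⟪cl Ω (toE (D1 t)), p.1⟫_ℝ
        = ⟪tensL (Ω := Ω) (u t + cl Ω (toE (D t))) - tensL (u t) - ν • clj Ω (toE (D t)), p.2⟫_ℝ
          + ⟪G t, p.1⟫_ℝ) ∧
      Appr2 (graphW Ω) (tensL (Ω := Ω)) ν T (fun _ => 0) (fun t => u t + cl Ω (toE (D t)))
        (fun t => u1 t + cl Ω (toE (D1 t))) G (fun t => z t + clj Ω (toE (D t)))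
        (fun t => 3 * ((C0 + 1) * k * Real.exp (-(ν / 2 * k ^ 2) * t))) (fun t => c * ‖z t‖)
        (fun t => (CT * δ * k + (A * C + 9 * Cb * (C * (4 / ν)
          + (C0 + 1) * (1 + 4 / ν)) + 1)) * Real.exp (-(ν / 4 * k ^ 2) * t)) := by
  have hk0 : 0 < k := by linarith
  have hDc : ∀ t i, CS Ω (D t i) := fun t i =>
    fam_cs hK hKΩ (f := fun t => D t i) (F.smooth i) (F.off i) t
  have hD1c : ∀ t i, CS Ω (D1 t i) := fun t i =>
    fam_cs hK hKΩ (f := fun t => D1 t i) (F.smooth1 i) (F.off1 i) t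
  have hDle : ∀ t, 0 ≤ t → ∀ i x, |D t i x| ≤ (C0 + 1) * k * Real.exp (-(ν / 2 * k ^ 2) * t) := by
    intro t ht i x
    refine (F.le0 i t x ht).trans ?_
    have : C0 * k + C ≤ (C0 + 1) * k := by linarith
    gcongr
  have hpt : ∀ t ∈ Icc 0 T, ∃ G : L2V Ω,
      ‖G‖ ≤ (CT * δ * k + (A * C + 9 * Cb * (C * (4 / ν) + (C0 + 1) * (1 + 4 / ν)) + 1))
        * Real.exp (-(ν / 4 * k ^ 2) * t) ∧
      ∀ p ∈ graphW Ω, ⟪cl Ω (toE (D1 t)), p.1⟫_ℝ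
        = ⟪tensL (Ω := Ω) (u t + cl Ω (toE (D t))) - tensL (u t) - ν • clj Ω (toE (D t)), p.2⟫_ℝ
          + ⟪G, p.1⟫_ℝ := by
    intro t ht
    obtain ⟨π, hπ, hπ2⟩ := F.res t ht.1
    obtain ⟨G, hG1, hG2⟩ := pt hΩ hb hA (hDc t) (hD1c t) hv (F.div t) hd (hDle t ht.1)
      (fun i j x => F.le1 i j t x ht.1) hπ hX hS hr hXS hk0.le
      (b := fun a => tb ν a.1 a.2 (k ^ 2 * t)) (by positivity) hπ2 (hSt.mem t ht)
    refine ⟨G, hG1.trans ?_, hG2⟩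
    refine le_trans ?_ (gam_le hν hk0.le ht.1 hδ.le hCT hA0.le hC hC0 hCb)
    have h1 : ∑ a ∈ s, |tb ν a.1 a.2 (k ^ 2 * t)| ≤ CT * Real.exp (-(ν / 2 * k ^ 2) * t) := by
      have h2 : 0 ≤ k ^ 2 * t := by have := ht.1; positivity
      refine (hCT' _ h2).trans (le_of_eq ?_)
      congr 2
      ring
    have h3 := b1 t ht
    have h4 := b2 t ht
    simp only at h3 h4 ⊢
    gcongr
  choose! G hG1 hG2 using hpt
  have hcz : ContinuousOn z (Icc 0 T) := prim_cont hSt.z1m hSt.pz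
  have hder := hasDerivAt_clt (Ω := Ω) hK F.smooth F.smooth1 F.der F.off F.off1
  have hFH : FH T (fun _ => (0 : L2M Ω)) (fun _ => 0) := ⟨MemLp.zero', fun a b _ _ _ => by simp⟩
  obtain ⟨Z, St1⟩ := toSt hFH hSt
  refine ⟨G, hG1, hG2, ?_⟩
  constructor
  · intro t ht
    exact (graphW Ω).add_mem (hSt.mem t ht) (mem_W (hDc t) (F.div t))
  · exact hSt.u1m.add (mem_cont hder.2.continuousOn)
  · intro a b ha hab hbT
    have i1 : IntervalIntegrable u1 volume a b :=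
      ii_of_int (hSt.u1m.integrable (by norm_num)) ha hab hbT
    have i2 : IntervalIntegrable (fun t => cl Ω (toE (D1 t))) volume a b :=
      hder.2.intervalIntegrable _ _
    rw [intervalIntegral.integral_add i1 i2, ← hSt.pu a b ha hab hbT,
      intervalIntegral.integral_eq_sub_of_hasDerivAt (f := fun t => cl Ω (toE (D t)))
        (fun t _ => hder.1 t) i2]
    abel
  · filter_upwards [St1.deriv_weak Fr hT, ae_restrict_mem measurableSet_Ioc] with t h1 h2 p hp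
    have h3 := h1 p hp
    have h4 := hG2 t (Ioc_subset_Icc_self h2) p hp
    rw [inner_add_left, h3, h4, ← add_assoc, ← inner_add_left]
    congr 2
    rw [smul_add]
    abel
  · intro t ht p hp
    have h1 := tri_clj hΩ (hDc t) (F.div t) (hDle t ht.1) hp
    have h2 := Un.quart p hp
    have h3 : |⟪tensL (Ω := Ω) p.1, z t⟫_ℝ| ≤ c * ‖z t‖ * (√‖p.1‖ * (‖p.2‖ * √‖p.2‖)) := by
      refine (abs_real_inner_le_norm _ _).trans ?_
      have e : √‖p.2‖ ^ 3 = ‖p.2‖ * √‖p.2‖ := by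
        calc √‖p.2‖ ^ 3 = √‖p.2‖ ^ 2 * √‖p.2‖ := by ring
          _ = _ := by rw [Real.sq_sqrt (norm_nonneg _)]
      rw [e] at h2
      calc ‖tensL (Ω := Ω) p.1‖ * ‖z t‖ ≤ c * (√‖p.1‖ * (‖p.2‖ * √‖p.2‖)) * ‖z t‖ := by gcongr
        _ = _ := by ring
    rw [inner_add_right]
    refine (abs_add_le _ _).trans ?_
    have h5 := add_le_add h3 h1
    refine h5.trans (le_of_eq ?_)
    ring
  · filter_upwards [ae_restrict_mem measurableSet_Ioc] with t ht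
    exact hG1 t (Ioc_subset_Icc_self ht)
  · intro t
    positivity
  · intro t
    have := Un.c0
    positivity
  · intro t
    positivity
  · fun_prop
  · exact continuousOn_const.mul hcz.norm
  · fun_prop

theorem step (hloc : S_loc) (hun : S_univ) {Ω : Set E3} (hΩ : IsOpen Ω)
    (hb : Bornology.IsBounded Ω) {ν : ℝ} (hν : 0 < ν) {v : VF} (hv : ∀ i, CS Ω (v i))
    (hd : ∀ x, dv v x = 0) {Y η η' : ℝ} (hY : 0 ≤ Y) (hη : 0 ≤ η) (hη' : η < η')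
    (hG : GoodS Ω ν v Y η) (s : Finset (ℕ × ℕ)) {X : ℕ × ℕ → VF} (hX : ∀ a i, CS Ω (X a i))
    {C0 : ℝ} (hC0 : 0 ≤ C0) :
    ∃ S : ℕ × ℕ → VF, (∀ a i, CS Ω (S a i)) ∧ (∀ a x, dv (S a) x = 0) ∧
      ∀ C : ℝ, 0 ≤ C → ∀ K : Set E3, IsCompact K → K ⊆ Ω → ∃ k0 : ℝ, 1 ≤ k0 ∧
        ∀ k : ℝ, k0 ≤ k → ∀ D D1 : ℝ → VF, Fam Ω ν v s X S C0 C k K D D1 →
          ∃ Y' : ℝ, 0 ≤ Y' ∧ GoodS Ω ν (fun i x => v i x + D 0 i x) Y' η' := by
  obtain ⟨c, hc, hU⟩ := hun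
  have Un := hU Ω hΩ
  obtain ⟨CF, Fr⟩ := exists_frame hΩ hb
  obtain ⟨A, hA0, hA⟩ := norm_cl_toE hΩ hb
  obtain ⟨Cb, hCb0, hbg⟩ := bg hΩ hb hν hv hd hY
  obtain ⟨CT, hCT, hCT'⟩ := CT_exists hν s
  set L : ℝ := 9 * (C0 + 1) ^ 2 / ν + c ^ 4 * Cb ^ 3 with hL
  have hL0 : 0 ≤ L := by positivity
  set Mb : ℝ := c * Cb with hMb
  have hMb0 : 0 ≤ Mb := by positivity
  obtain ⟨κ, hκ, hpert⟩ := pert2 hloc hc hν hL0 hMb0
  obtain ⟨δ, hδ, hδκ⟩ := delta_exists (A := A) hν hκ hA0 hC0 hCT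
  set Gc : ℝ := 4 * (CT + 1) * δ / ν with hGc
  have hGc0 : 0 < Gc := by positivity
  choose S r hS hdS hr hXS using fun a => proj_approx hΩ (hX a) hδ
  refine ⟨S, hS, hdS, fun C hC K hK hKΩ => ?_⟩
  set C2 : ℝ := A * C + 9 * Cb * (C * (4 / ν) + (C0 + 1) * (1 + 4 / ν)) + 1 with hC2
  have hC20 : 0 ≤ C2 := by positivity
  obtain ⟨k0, hk01, hk0⟩ := freq_exists (Y := Y) (C2 := C2) (G := Gc) hν hκ hA0 hC0 hC hCT hCb0 hδ
    hη hη' hY hC20 hGc0.le hδκ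
  refine ⟨k0, hk01, fun k hk D D1 F => ?_⟩
  have Q := hk0 k hk
  have hk1 := Q.hone
  have hkp : 0 < k := by linarith
  set Y1 : ℝ := (A * C0 + 1) * k ^ 3 with hY1
  have hY10 : 0 ≤ Y1 := by positivity
  refine ⟨(1 + Y1 + 0) / κ, by positivity, fun T hT => ?_⟩
  obtain ⟨u, u1, z, z1, hSt, hu0, hu1, hηu⟩ := hG T hT
  obtain ⟨b1, b2, b3, b4, b5, b6, g, b7, b8⟩ := hbg T u u1 z z1 hT hSt hu0 hu1
  obtain ⟨G, hG1, hG2, Ap⟩ := step_appr hΩ hb hν Un Fr hA0 hA hv hd hCb0 hCT hCT' hX hS hδ hr hXS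
    hC0 hC hk1 Q.hC hK hKΩ F hT hSt b4 b5
  rw [← hC2] at Ap hG1
  have hDc : ∀ t i, CS Ω (D t i) := fun t i =>
    fam_cs hK hKΩ (f := fun t => D t i) (F.smooth i) (F.off i) t
  have hD1c : ∀ t i, CS Ω (D1 t i) := fun t i =>
    fam_cs hK hKΩ (f := fun t => D1 t i) (F.smooth1 i) (F.off1 i) t
  have h0T : (0 : ℝ) ∈ Icc 0 T := ⟨le_rfl, hT.le⟩
  have hcz : ContinuousOn z (Icc 0 T) := prim_cont hSt.z1m hSt.pz
  have hD1n : ∀ t, 0 ≤ t → ‖cl Ω (toE (D1 t))‖ ≤ A * (C0 * k ^ 3 + C * k ^ 2) := by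
    intro t ht
    refine hA _ _ (fun i => (hD1c t i).smooth.continuous) (by positivity) fun i x => ?_
    refine (F.le2 i t x ht).trans ?_
    have h1 : Real.exp (-(ν / 2 * k ^ 2) * t) ≤ 1 := by
      rw [Real.exp_le_one_iff]
      have : 0 ≤ ν / 2 * k ^ 2 * t := by positivity
      linarith
    exact mul_le_of_le_one_right (by positivity) h1
  have hDn : ∀ t, 0 ≤ t →
      ‖cl Ω (toE (D t))‖ ≤ A * ((C0 + 1) * k * Real.exp (-(ν / 2 * k ^ 2) * t)) := by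
    intro t ht
    refine hA _ _ (fun i => (hDc t i).smooth.continuous) (by positivity) fun i x => ?_
    refine (F.le0 i t x ht).trans ?_
    have : C0 * k + C ≤ (C0 + 1) * k := by linarith [Q.hC]
    gcongr
  have hγ1 : ∀ t ∈ Icc 0 T, (CT * δ * k + C2) * Real.exp (-(ν / 4 * k ^ 2) * t)
      ≤ CT * δ * k + C2 := fun t ht =>
    mul_le_of_le_one_right (by positivity) (exp_le_one' hν ht.1)
  have hCTY : CT * δ * k + C2 ≤ Y1 := by
    have h1 := Q.hg0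
    have h2 : 0 ≤ A * (C0 * k ^ 3 + C * k ^ 2) := by positivity
    linarith
  obtain ⟨w, w1, y, y1, hStr, hw0, hw1, hw2⟩ := hpert (L2V Ω) (L2M Ω) (graphW Ω)
    (tensL (Ω := Ω)) CF Fr (hom_tensL hΩ.measurableSet) Un (rellich_W hΩ hb) T (fun _ => 0)
    (fun _ => 0) _ _ G _ _ _ _ (g + cl Ω (toE (D1 0)) - G 0) (Gc / k) Y1 (3 * (C0 + 1) * k) 0
    hT ⟨MemLp.zero', fun a b _ _ _ => by simp⟩ Ap
    (by
      intro p hp
      have k1 := b8 p hp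
      have k2 := hG2 0 h0T p hp
      have q1 : ⟪(0 : L2M Ω) - ν • (z 0 + clj Ω (toE (D 0)))
          + tensL (Ω := Ω) (u 0 + cl Ω (toE (D 0))), p.2⟫_ℝ
          = ⟪-(ν • z 0) + tensL (Ω := Ω) (u 0), p.2⟫_ℝ
            + ⟪tensL (Ω := Ω) (u 0 + cl Ω (toE (D 0))) - tensL (u 0)
              - ν • clj Ω (toE (D 0)), p.2⟫_ℝ := by
        rw [← inner_add_left]
        congr 1
        rw [smul_add]
        abel
      have q2 : ⟪g + cl Ω (toE (D1 0)) - G 0, p.1⟫_ℝ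
          = ⟪g, p.1⟫_ℝ + ⟪cl Ω (toE (D1 0)), p.1⟫_ℝ - ⟪G 0, p.1⟫_ℝ := by
        rw [inner_sub_left, inner_add_left]
      rw [q1, q2, k1, k2]
      ring)
    (by
      have k1 := hG1 0 h0T
      have k2 := hγ1 0 h0T
      have k3 := hD1n 0 le_rfl
      have k4 := Q.hg0
      have k5 := norm_sub_le (g + cl Ω (toE (D1 0))) (G 0)
      have k6 := norm_add_le g (cl Ω (toE (D1 0)))
      linarith)
    (by
      filter_upwards [hu1, ae_restrict_mem measurableSet_Ioc] with t ht htm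
      have k3 := hD1n t htm.1.le
      have k4 := Q.hV1
      exact (norm_add_le _ _).trans (by linarith))
    (fun t ht => (hγ1 t ht).trans hCTY)
    (by
      intro t ht
      have k1 : Real.exp (-(ν / 2 * k ^ 2) * t) ≤ 1 := by
        rw [Real.exp_le_one_iff]
        have h1 := ht.1
        have : 0 ≤ ν / 2 * k ^ 2 * t := by positivity
        linarith
      have k2 : (C0 + 1) * k * Real.exp (-(ν / 2 * k ^ 2) * t) ≤ (C0 + 1) * k :=
        mul_le_of_le_one_right (by positivity) k1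
      show 3 * ((C0 + 1) * k * Real.exp (-(ν / 2 * k ^ 2) * t)) ≤ 3 * (C0 + 1) * k
      linarith)
    (by
      intro t ht
      have := b2 t ht
      show c * ‖z t‖ ≤ Mb
      rw [hMb]
      gcongr)
    (by
      refine (int_N hν hC0 hk1).trans ?_
      have : 0 ≤ c ^ 4 * Cb ^ 3 := by positivity
      rw [hL]
      linarith)
    (by
      have hz2 : IntervalIntegrable (fun s => ‖z s‖ ^ 2) volume 0 T := by
        refine ContinuousOn.intervalIntegrable ?_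
        rw [uIcc_of_le hT.le]
        exact hcz.norm.pow 2
      have hz4 : IntervalIntegrable (fun s => (c * ‖z s‖) ^ 4) volume 0 T := by
        refine ContinuousOn.intervalIntegrable ?_
        rw [uIcc_of_le hT.le]
        exact (continuousOn_const.mul hcz.norm).pow 4
      have k1 : ∫ t in (0 : ℝ)..T, (c * ‖z t‖) ^ 4
          ≤ ∫ t in (0 : ℝ)..T, (c ^ 4 * Cb ^ 2) * ‖z t‖ ^ 2 := by
        refine intervalIntegral.integral_mono_on hT.le hz4 (hz2.const_mul _) fun t ht => ?_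
        have k2 := b2 t ht
        calc (c * ‖z t‖) ^ 4 = c ^ 4 * ‖z t‖ ^ 2 * ‖z t‖ ^ 2 := by ring
          _ ≤ c ^ 4 * Cb ^ 2 * ‖z t‖ ^ 2 := by gcongr
      rw [intervalIntegral.integral_const_mul] at k1
      refine k1.trans ?_
      have k3 : c ^ 4 * Cb ^ 2 * ∫ t in (0 : ℝ)..T, ‖z t‖ ^ 2 ≤ c ^ 4 * Cb ^ 2 * Cb := by
        gcongr
      have k4 : 0 ≤ 9 * (C0 + 1) ^ 2 / ν := by positivity
      rw [hL]
      linarith)
    (int_gam hν hCT hδ hC20 hk1 Q.hC2)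
    (by positivity) le_rfl (by simp) Q.hGk Q.hG3 Q.hG4
  have hcl : ∀ t, cl Ω (toE (fun i x => v i x + D t i x))
      = cl Ω (toE v) + cl Ω (toE (D t)) := by
    intro t
    rw [← cl_add (memLp_toE_CS hv) (memLp_toE_CS (hDc t))]
    rfl
  refine ⟨w, w1, y, y1, hStr, ?_, hw1, fun t ht hηt => ?_⟩
  · rw [hw0, hcl 0, ← hu0]
  · have k1 := hw2 t ht
    have k2 := hDn t ht.1
    have ht' : η ≤ t := hη'.le.trans hηt
    have k3 := hηu t ht ht'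
    have k4 := Q.heta
    have k5 : Real.exp (-(ν / 2 * k ^ 2) * t) ≤ Real.exp (-(ν / 2 * k ^ 2) * η') := by
      rw [Real.exp_le_exp]
      have : 0 ≤ ν / 2 * k ^ 2 := by positivity
      nlinarith
    have k6 : A * ((C0 + 1) * k * Real.exp (-(ν / 2 * k ^ 2) * t))
        ≤ A * ((C0 + 1) * k * Real.exp (-(ν / 2 * k ^ 2) * η')) := by gcongr
    have k7 : ‖w t‖ ≤ ‖w t - (u t + cl Ω (toE (D t)))‖ + (‖u t‖ + ‖cl Ω (toE (D t))‖) := by
      have h1 := norm_add_le (w t - (u t + cl Ω (toE (D t)))) (u t + cl Ω (toE (D t)))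
      rw [sub_add_cancel] at h1
      exact h1.trans (by gcongr; exact norm_add_le _ _)
    linarith

end Pool.Agent.T2H10.DN
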