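import Pool.Agent.T2H10.DN.Defs2
import Pool.Agent.T2H10.DN.Mix

/-!
The bound of the quadratic term tested with a smooth field.
-/

set_option autoImplicit false
set_option linter.unusedSectionVars false

open MeasureTheory Set Filter Topology
open scoped InnerProductSpace ENNReal ContDiff

namespace Pool.Agent.T2H10.DN

open H772R2.NS
open H772R2.NSR (Frame)
open Pool.Agent.W52.TQ (ibp tns norm_tns graphW_le)
open Pool.Agent.W795.TQ
open Pool.Agent.Y303.LV (cl clj)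

namespace Tri

theorem norm_toE {D : VF} {P : ℝ} (hP : ∀ i x, |D i x| ≤ P) (x : E3) : ‖toE D x‖ ≤ 3 * P := by
  have hP0 : 0 ≤ P := (abs_nonneg _).trans (hP 0 x)
  have h1 : ‖toE D x‖ ^ 2 ≤ (3 * P) ^ 2 := by
    rw [EuclideanSpace.norm_sq_eq, Fin.sum_univ_three]
    have h : ∀ i, ‖toE D x i‖ ^ 2 ≤ P ^ 2 := fun i => by
      have h2 : ‖toE D x i‖ ≤ P := hP i x
      exact pow_le_pow_left₀ (norm_nonneg _) h2 2
    nlinarith [h 0, h 1, h 2, sq_nonneg P]
  exact le_of_sq_le_sq h1 (by positivity)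

end Tri

theorem tri_clj {Ω : Set E3} (hΩ : IsOpen Ω) {D : VF} (hD : ∀ i, CS Ω (D i))
    (hdD : ∀ x, dv D x = 0) {P : ℝ} (hP : ∀ i x, |D i x| ≤ P) {p : L2V Ω × L2M Ω}
    (hp : p ∈ graphW Ω) :
    |⟪tensL (Ω := Ω) p.1, clj Ω (toE D)⟫_ℝ| ≤ 3 * P * (‖p.1‖ * ‖p.2‖) := by
  have hm : MeasurableSet Ω := hΩ.measurableSet
  have hV : IsTest Ω (toE D) := test_toE hD hdD
  have hN : ∀ x, ‖toE D x‖ ≤ 3 * P := Tri.norm_toE hP
  have hN0 : 0 ≤ 3 * P := (norm_nonneg _).trans (hN 0)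
  refine graphW_le (fun p : L2V Ω × L2M Ω => |⟪tensL p.1, clj Ω (toE D)⟫_ℝ|)
    (fun p : L2V Ω × L2M Ω => 3 * P * (‖p.1‖ * ‖p.2‖)) ?_ ?_ ?_ hp
  · exact ((tensL_continuousOn hm).inner continuousOn_const).abs
  · exact Continuous.continuousOn (by fun_prop)
  · rintro q ⟨φ, k1, k2, k3⟩
    have hq : q ∈ graphW Ω := Submodule.le_topologicalClosure _ ⟨φ, k1, k2, k3⟩
    have e1 : ⟪tensL q.1, clj Ω (toE D)⟫_ℝ = ∫ x, ⟪tens (φ x), jac (toE D) x⟫_ℝ := by
      rw [L2.inner_def, ← Pool.Agent.Y303.LV.integral_restrict_of_off hm (fun x hx => by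
        rw [Pool.Agent.Y303.LV.jac_off hV hx, inner_zero_right])]
      refine integral_congr_ae ?_
      filter_upwards [tensL_coe hm hq, Pool.Agent.Y303.LV.clj_coe hV, k2] with x c1 c2 c3
      rw [c1, c2, c3]
    have hcφ : Continuous φ := k1.smooth.continuous
    have hcV : Continuous (toE D) := hV.smooth.continuous
    have hct : Continuous (fun x => tns (toE D x) (φ x)) := continuous_tns hcφ hcV
    have hmt : MemLp (fun x => tns (toE D x) (φ x)) 2 (volume.restrict Ω) := by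
      refine (hct.memLp_of_hasCompactSupport ?_).restrict _
      refine k1.compact.mono fun x hx h0 => hx ?_
      ext p
      simp [tns, h0]
    have e2 : ∫ x, ⟪jac φ x, tns (toE D x) (φ x)⟫_ℝ = ⟪q.2, hmt.toLp _⟫_ℝ := by
      rw [L2.inner_def, ← Pool.Agent.Y303.LV.integral_restrict_of_off hm (fun x hx => by
        rw [Pool.Agent.Y303.LV.jac_off k1 hx, inner_zero_left])]
      refine integral_congr_ae ?_
      filter_upwards [k3, hmt.coeFn_toLp] with x c1 c2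
      rw [c1, c2]
    have e3 : ‖hmt.toLp _‖ ≤ 3 * P * ‖q.1‖ := by
      refine Lp.norm_le_mul_norm_of_ae_le_mul ?_
      filter_upwards [k2, hmt.coeFn_toLp] with x c1 c2
      rw [c1, c2, norm_tns]
      exact mul_le_mul_of_nonneg_right (hN x) (norm_nonneg _)
    rw [e1, ibp k1 hV, e2, abs_neg]
    refine (abs_real_inner_le_norm _ _).trans ?_
    calc ‖q.2‖ * ‖hmt.toLp _‖ ≤ ‖q.2‖ * (3 * P * ‖q.1‖) := by gcongr
      _ = 3 * P * (‖q.1‖ * ‖q.2‖) := by ring

end Pool.Agent.T2H10.DN
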