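import Pool.Agent.T2H10.DN.Defs2
import Pool.Agent.T2H10.DN.Mix

/-!
The weak equation of a wave on a background flow (helper86, for helper10).
-/

set_option autoImplicit false
set_option linter.unusedSectionVars false

open MeasureTheory Set Filter Topology
open scoped InnerProductSpace ENNReal ContDiff

namespace Pool.Agent.T2H10.DN

open H772R2.NS
open H772R2.NSR (compat_ext)
open Pool.Agent.W795.TQ
open Pool.Agent.Y303.LV (cl clj clj_coe integral_restrict_of_off test_off jac_off ibp_grad ibp_lap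
  lap)
open Pool.Agent.W52.TQ (tns ibp)

namespace WI

variable {Ω : Set E3}

theorem cs_add {f g : E3 → ℝ} (hf : CS Ω f) (hg : CS Ω g) : CS Ω (fun x => f x + g x) :=
  ⟨hf.smooth.add hg.smooth, hf.compact.add hg.compact,
    (tsupport_add f g).trans (union_subset hf.supp hg.supp)⟩

theorem cs_mul_left {f g : E3 → ℝ} (hf : ContDiff ℝ ∞ f) (hg : CS Ω g) :
    CS Ω (fun x => f x * g x) :=
  ⟨hf.mul hg.smooth, hg.compact.mul_left, (tsupport_mul_subset_right).trans hg.supp⟩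

theorem cs_neg {f : E3 → ℝ} (hf : CS Ω f) : CS Ω (fun x => -f x) := by
  have h := cs_mul_left (Ω := Ω) (f := fun _ => (-1 : ℝ)) contDiff_const hf
  simpa using h

theorem cs_sub {f g : E3 → ℝ} (hf : CS Ω f) (hg : CS Ω g) : CS Ω (fun x => f x - g x) := by
  simpa [sub_eq_add_neg] using cs_add hf (cs_neg hg)

theorem cs_sum3 {f : Fin 3 → E3 → ℝ} (hf : ∀ i, CS Ω (f i)) : CS Ω (fun x => ∑ i, f i x) := by
  have e : (fun x => ∑ i, f i x) = fun x => (f 0 x + f 1 x) + f 2 x := by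
    funext x
    rw [Fin.sum_univ_three]
  rw [e]
  exact cs_add (cs_add (hf 0) (hf 1)) (hf 2)

theorem cs_pd {f : E3 → ℝ} (hf : CS Ω f) (j : Fin 3) : CS Ω (pd j f) := by
  refine ⟨(hf.smooth.fderiv_right (m := ∞) (by simp)).clm_apply contDiff_const, ?_, ?_⟩
  · have h := hf.compact.fderiv ℝ
    exact h.comp_left (g := fun L : E3 →L[ℝ] ℝ => L (EuclideanSpace.single j 1)) (by simp)
  · refine Subset.trans ?_ hf.supp
    refine Subset.trans ?_ (tsupport_fderiv_subset ℝ (f := f))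
    exact tsupport_comp_subset (g := fun L : E3 →L[ℝ] ℝ => L (EuclideanSpace.single j 1))
      (by simp) _

theorem cs_eq_zero {f : E3 → ℝ} (hf : CS Ω f) {x : E3} (hx : x ∉ Ω) : f x = 0 :=
  image_eq_zero_of_notMem_tsupport fun h => hx (hf.supp h)

theorem memLp_toE {V : VF} (hV : ∀ i, CS Ω (V i)) : MemLp (toE V) 2 (volume.restrict Ω) :=
  ((contDiff_toE fun i => (hV i).smooth).continuous.memLp_of_hasCompactSupport
    (toE_compact hV)).restrict Ω

theorem cl_toE {V : VF} (hV : ∀ i, CS Ω (V i)) :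
    (cl Ω (toE V) : E3 → E3) =ᵐ[volume.restrict Ω] toE V := cl_coe' (memLp_toE hV)

theorem mem_graph {V : VF} (hV : ∀ i, CS Ω (V i)) (hd : ∀ x, dv V x = 0) :
    (cl Ω (toE V), clj Ω (toE V)) ∈ graphW Ω :=
  Submodule.le_topologicalClosure _
    ⟨toE V, test_toE hV hd, cl_toE hV, clj_coe (test_toE hV hd)⟩

/-- the integral of the product of a smooth field with a test field -/
theorem inner_cl (hm : MeasurableSet Ω) {w : L2V Ω} {V : VF}
    (hw : (w : E3 → E3) =ᵐ[volume.restrict Ω] toE V) {ψ : E3 → E3} (k1 : IsTest Ω ψ)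
    {p : L2V Ω} (k2 : (p : E3 → E3) =ᵐ[volume.restrict Ω] ψ) :
    ⟪w, p⟫_ℝ = ∫ x, ∑ i, V i x * ψ x i := by
  rw [L2.inner_def, ← integral_restrict_of_off hm (fun x hx => by
    rw [test_off k1 hx]; simp)]
  refine integral_congr_ae ?_
  filter_upwards [hw, k2] with x c1 c2
  rw [c1, c2, inner_E3]
  rfl

theorem integrable_sum {V : VF} (hV : ∀ i, Continuous (V i)) {ψ : E3 → E3} (k1 : IsTest Ω ψ) :
    Integrable fun x => ∑ i, V i x * ψ x i := by
  refine integrable_finsetSum _ fun i _ => ?_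
  exact ((hV i).mul (contDiff_coord k1.smooth i).continuous).integrable_of_hasCompactSupport
    ((hasCompactSupport_coord k1.compact i).mul_left)

theorem lap_toE {V : VF} (hV : ∀ i, ContDiff ℝ ∞ (V i)) (x : E3) (i : Fin 3) :
    lap (toE V) x i = ∑ j, pd j (pd j (V i)) x := by
  unfold lap
  refine Finset.sum_congr rfl fun j _ => ?_
  have e : (fun y => jac (toE V) y (i, j)) = pd j (V i) := by
    funext y
    exact jac_toE hV y i j
  rw [e]
  rfl

/-- the residual without the gradient, minus the gradient -/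
theorem cs_R {ν : ℝ} {D D1 v : VF} (hD : ∀ i, CS Ω (D i)) (hD1 : ∀ i, CS Ω (D1 i))
    (hv : ∀ i, CS Ω (v i)) {π : E3 → ℝ} (hπ : CS Ω π) (i : Fin 3) :
    CS Ω (fun x => Rs ν v D D1 i x - pd i π x) := by
  have h1 : CS Ω (fun x => ν * ∑ j, pd j (pd j (D i)) x) :=
    cs_mul_left contDiff_const (cs_sum3 fun j => cs_pd (cs_pd (hD i) j) j)
  have h2 : CS Ω (fun x => ∑ j, (v j x + D j x) * pd j (D i) x) :=
    cs_sum3 fun j => cs_mul_left ((hv j).smooth.add (hD j).smooth) (cs_pd (hD i) j)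
  have h3 : CS Ω (fun x => ∑ j, D j x * pd j (v i) x) :=
    cs_sum3 fun j => cs_mul_left (hD j).smooth (cs_pd (hv i) j)
  exact cs_sub (cs_add (cs_add (cs_sub (hD1 i) h1) h2) h3) (cs_pd hπ i)

/-- the linear terms -/
theorem cs_W {D v : VF} (hD : ∀ i, CS Ω (D i)) (hv : ∀ i, CS Ω (v i)) (i : Fin 3) :
    CS Ω (fun x => ∑ j, (v j x * pd j (D i) x + D j x * pd j (v i) x)) :=
  cs_sum3 fun j => cs_add (cs_mul_left (hv j).smooth (cs_pd (hD i) j))
    (cs_mul_left (hD j).smooth (cs_pd (hv i) j))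

/-- the identity for test fields -/
theorem test_id {ν : ℝ} {D D1 v : VF} (hD : ∀ i, CS Ω (D i)) (hD1 : ∀ i, CS Ω (D1 i))
    (hv : ∀ i, CS Ω (v i)) (hdD : ∀ x, dv D x = 0) {π : E3 → ℝ} (hπ : CS Ω π) {ψ : E3 → E3}
    (k1 : IsTest Ω ψ) :
    (∫ x, ⟪tens (toE D x), jac ψ x⟫_ℝ) - ν * ∫ x, ⟪jac (toE D) x, jac ψ x⟫_ℝ
      = (∫ x, ∑ i, D1 i x * ψ x i) - (∫ x, ∑ i, (Rs ν v D D1 i x - pd i π x) * ψ x i)
        + ∫ x, ∑ i, (∑ j, (v j x * pd j (D i) x + D j x * pd j (v i) x)) * ψ x i := by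
  have hT : IsTest Ω (toE D) := test_toE hD hdD
  have g0 := ibp_grad (Ω := Ω) hπ.smooth hπ.compact k1
  rw [ibp hT k1, ibp_lap hT k1]
  have j1 : ∀ x, ⟪jac (toE D) x, tns (ψ x) (toE D x)⟫_ℝ
      = ∑ i, (∑ j, D j x * pd j (D i) x) * ψ x i := by
    intro x
    rw [inner_M3]
    refine Finset.sum_congr rfl fun i _ => ?_
    rw [Finset.sum_mul]
    refine Finset.sum_congr rfl fun j _ => ?_
    rw [jac_toE fun i => (hD i).smooth]
    simp only [tns, toE]
    ring
  have j2 : ∀ x, ∑ i, lap (toE D) x i * ψ x i = ∑ i, (∑ j, pd j (pd j (D i)) x) * ψ x i := by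
    intro x
    refine Finset.sum_congr rfl fun i _ => ?_
    rw [lap_toE fun i => (hD i).smooth]
  have j3 : ∀ x, ∑ i, fderiv ℝ π x (ev i) * ψ x i = ∑ i, pd i π x * ψ x i := fun x => rfl
  simp only [j1, j2]
  simp only [j3] at g0
  have ct : ∀ {f : E3 → ℝ}, CS Ω f → Continuous f := fun hf => hf.smooth.continuous
  have I1 : Integrable fun x => ∑ i, (∑ j, D j x * pd j (D i) x) * ψ x i :=
    integrable_sum (V := fun i x => ∑ j, D j x * pd j (D i) x)
      (fun i => ct (cs_sum3 fun j => cs_mul_left (hD j).smooth (cs_pd (hD i) j))) k1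
  have I2 : Integrable fun x => ∑ i, (∑ j, pd j (pd j (D i)) x) * ψ x i :=
    integrable_sum (V := fun i x => ∑ j, pd j (pd j (D i)) x)
      (fun i => ct (cs_sum3 fun j => cs_pd (cs_pd (hD i) j) j)) k1
  have I3 : Integrable fun x => ∑ i, D1 i x * ψ x i :=
    integrable_sum (fun i => ct (hD1 i)) k1
  have I4 : Integrable fun x => ∑ i, (Rs ν v D D1 i x - pd i π x) * ψ x i :=
    integrable_sum (V := fun i x => Rs ν v D D1 i x - pd i π x)
      (fun i => ct (cs_R hD hD1 hv hπ i)) k1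
  have I5 : Integrable fun x =>
      ∑ i, (∑ j, (v j x * pd j (D i) x + D j x * pd j (v i) x)) * ψ x i :=
    integrable_sum (V := fun i x => ∑ j, (v j x * pd j (D i) x + D j x * pd j (v i) x))
      (fun i => ct (cs_W hD hv i)) k1
  have I6 : Integrable fun x => ∑ i, pd i π x * ψ x i :=
    integrable_sum (V := fun i x => pd i π x) (fun i => ct (cs_pd hπ i)) k1
  have hpt : ∀ x, (∑ i, D1 i x * ψ x i) - (∑ i, (Rs ν v D D1 i x - pd i π x) * ψ x i)
        + (∑ i, (∑ j, (v j x * pd j (D i) x + D j x * pd j (v i) x)) * ψ x i)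
      = ν * (∑ i, (∑ j, pd j (pd j (D i)) x) * ψ x i)
        - (∑ i, (∑ j, D j x * pd j (D i) x) * ψ x i) + ∑ i, pd i π x * ψ x i := by
    intro x
    rw [Finset.mul_sum, ← Finset.sum_sub_distrib, ← Finset.sum_add_distrib,
      ← Finset.sum_sub_distrib, ← Finset.sum_add_distrib]
    refine Finset.sum_congr rfl fun i _ => ?_
    have h1 : ∑ j, (v j x * pd j (D i) x + D j x * pd j (v i) x)
        = (∑ j, v j x * pd j (D i) x) + ∑ j, D j x * pd j (v i) x := Finset.sum_add_distrib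
    have h2 : ∑ j, (v j x + D j x) * pd j (D i) x
        = (∑ j, v j x * pd j (D i) x) + ∑ j, D j x * pd j (D i) x := by
      rw [← Finset.sum_add_distrib]
      exact Finset.sum_congr rfl fun j _ => by ring
    rw [h1, Rs, h2]
    ring
  have a1 := integral_sub I3 I4
  have a2 := integral_add (I3.sub I4) I5
  have a3 := integral_sub (I2.const_mul ν) I1
  have a4 := integral_add ((I2.const_mul ν).sub I1) I6
  have a5 := integral_const_mul (μ := (volume : Measure E3)) ν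
    (fun x => ∑ i, (∑ j, pd j (pd j (D i)) x) * ψ x i)
  have a6 := integral_congr_ae (μ := (volume : Measure E3)) (Eventually.of_forall hpt)
  simp only [Pi.sub_apply] at a2 a4
  linarith

end WI

open WI in
/-- the weak equation of a wave -/
theorem weak_id {Ω : Set E3} (hΩ : IsOpen Ω) {ν : ℝ} {D D1 v : VF} (hD : ∀ i, CS Ω (D i))
    (hD1 : ∀ i, CS Ω (D1 i)) (hv : ∀ i, CS Ω (v i)) (hdD : ∀ x, dv D x = 0)
    (hdv : ∀ x, dv v x = 0) {π : E3 → ℝ} (hπ : CS Ω π)
    {B : (L2V Ω × L2M Ω) →ₗ[ℝ] L2V Ω}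
    (hB : ∀ p ∈ graphW Ω, ∀ p' ∈ graphW Ω,
      ⟪tensL (Ω := Ω) (p.1 + cl Ω (toE D)) - tensL p.1 - tensL (cl Ω (toE D)), p'.2⟫_ℝ
        = -⟪B p, p'.1⟫_ℝ)
    (hB2 : ∀ (p : L2V Ω × L2M Ω) (v : VF), (∀ i, CS Ω (v i)) →
      p.1 =ᵐ[volume.restrict Ω] toE v → p.2 =ᵐ[volume.restrict Ω] jac (toE v) →
      B p =ᵐ[volume.restrict Ω] toE (fun i x => ∑ j, (v j x * pd j (D i) x
        + D j x * pd j (v i) x)))
    {q : L2V Ω × L2M Ω} (hq : q ∈ graphW Ω) {p : L2V Ω × L2M Ω} (hp : p ∈ graphW Ω) :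
    ⟪cl Ω (toE D1), p.1⟫_ℝ = ⟪tensL (Ω := Ω) (q.1 + cl Ω (toE D)) - tensL q.1
        - ν • clj Ω (toE D), p.2⟫_ℝ
      + ⟪cl Ω (toE (fun i x => Rs ν v D D1 i x - pd i π x))
        + B (q.1 - cl Ω (toE v), q.2 - clj Ω (toE v)), p.1⟫_ℝ := by
  have hm : MeasurableSet Ω := hΩ.measurableSet
  have hT : IsTest Ω (toE D) := test_toE hD hdD
  have hTv : IsTest Ω (toE v) := test_toE hv hdv
  have hgD := mem_graph hD hdD
  have hgv := mem_graph hv hdv
  set V0 : L2V Ω := cl Ω (toE v) with hV0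
  set Z0 : L2M Ω := clj Ω (toE v) with hZ0
  set c : L2V Ω := cl Ω (toE D) with hc
  set z : L2M Ω := clj Ω (toE D) with hz
  have hBW : B (V0, Z0) =ᵐ[volume.restrict Ω]
      toE (fun i x => ∑ j, (v j x * pd j (D i) x + D j x * pd j (v i) x)) :=
    hB2 (V0, Z0) v hv (cl_toE hv) (clj_coe hTv)
  have hcR := cl_toE (V := fun i x => Rs ν v D D1 i x - pd i π x) (cs_R hD hD1 hv hπ)
  set rr : L2V Ω := cl Ω (toE (fun i x => Rs ν v D D1 i x - pd i π x)) with hrr
  have hcD1 := cl_toE hD1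
  set d1 : L2V Ω := cl Ω (toE D1) with hd1
  have hcD := cl_toE hD
  have hzD := clj_coe hT
  have key : ∀ p ∈ graphW Ω, ⟪tensL (Ω := Ω) c - ν • z, p.2⟫_ℝ
      = ⟪d1 - rr + B (V0, Z0), p.1⟫_ℝ := by
    refine compat_ext ?_
    rintro p ⟨ψ, k1, k2, k3⟩
    have e1 : ⟪tensL (Ω := Ω) c, p.2⟫_ℝ = ∫ x, ⟪tens (toE D x), jac ψ x⟫_ℝ := by
      rw [L2.inner_def, ← integral_restrict_of_off hm (fun x hx => by rw [jac_off k1 hx,
        inner_zero_right])]
      refine integral_congr_ae ?_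
      filter_upwards [tensL_coe hm hgD, k3, hcD] with x c1 c2 c3
      rw [c1, c2, c3]
    have e2 : ⟪z, p.2⟫_ℝ = ∫ x, ⟪jac (toE D) x, jac ψ x⟫_ℝ := by
      rw [L2.inner_def, ← integral_restrict_of_off hm (fun x hx => by rw [jac_off k1 hx,
        inner_zero_right])]
      refine integral_congr_ae ?_
      filter_upwards [hzD, k3] with x c1 c2
      rw [c1, c2]
    have e3 := inner_cl hm hcD1 k1 k2
    have e4 := inner_cl hm hcR k1 k2
    have e5 := inner_cl hm hBW k1 k2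
    have e6 := test_id (ν := ν) hD hD1 hv hdD hπ k1
    rw [inner_sub_left, real_inner_smul_left, e1, e2, inner_add_left,
      inner_sub_left, e3, e4, e5, e6]
  have h1 := hB q hq p hp
  have h2 := key p hp
  have h3 : B (q.1 - V0, q.2 - Z0) = B q - B (V0, Z0) := by
    rw [← map_sub]
    rfl
  rw [h3]
  simp only [inner_sub_left, inner_add_left] at h1 h2 ⊢
  linarith

end Pool.Agent.T2H10.DN
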