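import Pool.Agent.T2H10.DN.Bg
import Pool.Agent.T2H10.DN.Proj
import Pool.Agent.T2H10.DN.Fam3
import Pool.Agent.T2H10.DN.WeakId
import Pool.Agent.T2H10.DN.Tri

/-!
Auxiliary statements for one step of the construction: the residual at a fixed time, and
elementary estimates of exponentials.
-/

set_option autoImplicit false
set_option linter.unusedSectionVars false

open MeasureTheory Set Filter Topology
open scoped InnerProductSpace ENNReal ContDiff

namespace Pool.Agent.T2H10.DN.StepAux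

open H772R2.NS
open Pool.Agent.Y303.LV (cl clj)

variable {Ω : Set E3}

theorem continuous_toE {V : VF} (hV : ∀ i, Continuous (V i)) : Continuous (toE V) :=
  (PiLp.continuous_toLp 2 _).comp (continuous_pi fun i => hV i)

theorem norm_toE_le {V : VF} {M : ℝ} (hM : ∀ i x, |V i x| ≤ M) (x : E3) : ‖toE V x‖ ≤ 3 * M := by
  have hM0 : 0 ≤ M := (abs_nonneg _).trans (hM 0 x)
  rw [EuclideanSpace.norm_eq]
  refine Real.sqrt_le_iff.2 ⟨by positivity, ?_⟩
  have h : ∀ i, ‖(toE V x) i‖ ^ 2 ≤ M ^ 2 := fun i => by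
    have : (toE V x) i = V i x := rfl
    rw [this, Real.norm_eq_abs]
    exact pow_le_pow_left₀ (abs_nonneg _) (hM i x) 2
  calc ∑ i, ‖(toE V x) i‖ ^ 2 ≤ ∑ _i : Fin 3, M ^ 2 := Finset.sum_le_sum fun i _ => h i
    _ = 3 * M ^ 2 := by simp
    _ ≤ (3 * M) ^ 2 := by nlinarith [sq_nonneg M]

theorem memLp_toE (hb : Bornology.IsBounded Ω) {V : VF} (hV : ∀ i, Continuous (V i)) {M : ℝ}
    (hM : ∀ i x, |V i x| ≤ M) : MemLp (toE V) 2 (volume.restrict Ω) := by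
  have : IsFiniteMeasure (volume.restrict Ω) :=
    ⟨by rw [Measure.restrict_apply_univ]; exact hb.measure_lt_top⟩
  exact MemLp.of_bound (continuous_toE hV).aestronglyMeasurable (3 * M)
    (ae_of_all _ (norm_toE_le hM))

theorem memLp_toE_CS {V : VF} (hV : ∀ i, CS Ω (V i)) : MemLp (toE V) 2 (volume.restrict Ω) :=
  ((continuous_toE fun i => (hV i).smooth.continuous).memLp_of_hasCompactSupport
    (toE_compact hV)).restrict _

theorem cl_of {F : E3 → E3} (h : MemLp F 2 (volume.restrict Ω)) : cl Ω F = h.toLp F := by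
  unfold cl
  rw [dif_pos h]

theorem cl_add {F G : E3 → E3} (hF : MemLp F 2 (volume.restrict Ω))
    (hG : MemLp G 2 (volume.restrict Ω)) : cl Ω (F + G) = cl Ω F + cl Ω G := by
  rw [cl_of hF, cl_of hG, cl_of (hF.add hG)]
  rfl

theorem cl_sub {F G : E3 → E3} (hF : MemLp F 2 (volume.restrict Ω))
    (hG : MemLp G 2 (volume.restrict Ω)) : cl Ω (F - G) = cl Ω F - cl Ω G := by
  rw [cl_of hF, cl_of hG, cl_of (hF.sub hG)]
  rfl

theorem cl_smul {F : E3 → E3} (c : ℝ) (hF : MemLp F 2 (volume.restrict Ω)) :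
    cl Ω (c • F) = c • cl Ω F := by
  rw [cl_of hF, cl_of (hF.const_smul c)]
  rfl

theorem cl_zero : cl Ω (0 : E3 → E3) = 0 := by
  rw [cl_of (MemLp.zero : MemLp (0 : E3 → E3) 2 (volume.restrict Ω))]
  rfl

theorem cl_sum {ι : Type*} (s : Finset ι) {F : ι → E3 → E3}
    (hF : ∀ a, MemLp (F a) 2 (volume.restrict Ω)) :
    cl Ω (∑ a ∈ s, F a) = ∑ a ∈ s, cl Ω (F a) ∧ MemLp (∑ a ∈ s, F a) 2 (volume.restrict Ω) := by
  classical
  induction s using Finset.induction_on with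
  | empty => exact ⟨by simp [cl_zero], by simp⟩
  | insert a s ha ih =>
    rw [Finset.sum_insert ha, Finset.sum_insert ha]
    exact ⟨by rw [cl_add (hF a) ih.2, ih.1], (hF a).add ih.2⟩

theorem Rs_cont {ν : ℝ} {v D D1 : VF} (hD : ∀ i, CS Ω (D i)) (hD1 : ∀ i, CS Ω (D1 i))
    (hv : ∀ i, CS Ω (v i)) (i : Fin 3) : Continuous (Rs ν v D D1 i) := by
  have h2 : ∀ j, Continuous (pd j (pd j (D i))) := fun j => by
    have h3 : ContDiff ℝ ∞ (pd j (D i)) :=
      ((hD i).smooth.fderiv_right (m := ∞) (by simp)).clm_apply contDiff_const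
    exact (h3.continuous_fderiv (by simp)).clm_apply continuous_const
  have h3 : ∀ j, Continuous (pd j (D i)) := fun j => (hD i).pd_cont j
  have h4 : ∀ j, Continuous (pd j (v i)) := fun j => (hv i).pd_cont j
  have h5 : ∀ j, Continuous (D j) := fun j => (hD j).smooth.continuous
  have h6 : ∀ j, Continuous (v j) := fun j => (hv j).smooth.continuous
  have h7 : Continuous (D1 i) := (hD1 i).smooth.continuous
  unfold Rs
  fun_prop

/-- the residual at a fixed time -/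
theorem pt (hΩ : IsOpen Ω) (hb : Bornology.IsBounded Ω) {ν A : ℝ}
    (hA : ∀ (V : VF) (M : ℝ), (∀ i, Continuous (V i)) → 0 ≤ M → (∀ i x, |V i x| ≤ M) →
      ‖cl Ω (toE V)‖ ≤ A * M)
    {D D1 v : VF} (hD : ∀ i, CS Ω (D i)) (hD1 : ∀ i, CS Ω (D1 i)) (hv : ∀ i, CS Ω (v i))
    (hdD : ∀ x, dv D x = 0) (hdv : ∀ x, dv v x = 0) {P Q : ℝ} (hP : ∀ i x, |D i x| ≤ P)
    (hQ : ∀ i j x, |pd j (D i) x| ≤ Q) {π : E3 → ℝ} (hπ : CS Ω π) {s : Finset (ℕ × ℕ)}
    {X S : ℕ × ℕ → VF} (hX : ∀ a i, CS Ω (X a i)) (hS : ∀ a i, CS Ω (S a i))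
    {r : ℕ × ℕ → L2V Ω} {δ : ℝ} (hr : ∀ a, ‖r a‖ ≤ δ)
    (hXS : ∀ a, ∀ p ∈ graphW Ω,
      ⟪cl Ω (toE (X a)), p.1⟫_ℝ = ⟪cl Ω (toE (S a)) + r a, p.1⟫_ℝ)
    {k M : ℝ} (hk : 0 ≤ k) {b : ℕ × ℕ → ℝ} (hM : 0 ≤ M)
    (hρ : ∀ i x, |Rs ν v D D1 i x - pd i π x
      - k * ∑ a ∈ s, b a * (X a i x - S a i x)| ≤ M)
    {q : L2V Ω × L2M Ω} (hq : q ∈ graphW Ω) :
    ∃ G : L2V Ω, ‖G‖ ≤ k * ((∑ a ∈ s, |b a|) * δ) + A * M
        + 9 * (Q * ‖q.1 - cl Ω (toE v)‖ + P * ‖q.2 - clj Ω (toE v)‖) ∧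
      ∀ p ∈ graphW Ω, ⟪cl Ω (toE D1), p.1⟫_ℝ
        = ⟪tensL (Ω := Ω) (q.1 + cl Ω (toE D)) - tensL q.1 - ν • clj Ω (toE D), p.2⟫_ℝ
          + ⟪G, p.1⟫_ℝ := by
  obtain ⟨B, hB1, hB2, hB3⟩ := exists_mix hΩ hD hdD hP hQ
  set ρ : VF := fun i x => Rs ν v D D1 i x - pd i π x
      - k * ∑ a ∈ s, b a * (X a i x - S a i x) with hρdef
  have hρc : ∀ i, Continuous (ρ i) := by
    intro i
    have h1 := Rs_cont (ν := ν) hD hD1 hv i
    have h2 := hπ.pd_cont i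
    have h3 : ∀ a, Continuous (X a i) := fun a => (hX a i).smooth.continuous
    have h4 : ∀ a, Continuous (S a i) := fun a => (hS a i).smooth.continuous
    rw [hρdef]
    fun_prop
  have hρm : MemLp (toE ρ) 2 (volume.restrict Ω) := memLp_toE hb hρc hρ
  have hρn : ‖cl Ω (toE ρ)‖ ≤ A * M := hA ρ M hρc hM hρ
  have hXm : ∀ a, MemLp (toE (X a)) 2 (volume.restrict Ω) := fun a => memLp_toE_CS (hX a)
  have hSm : ∀ a, MemLp (toE (S a)) 2 (volume.restrict Ω) := fun a => memLp_toE_CS (hS a)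
  have hcl : cl Ω (toE (fun i x => Rs ν v D D1 i x - pd i π x))
      = cl Ω (toE ρ) + k • ∑ a ∈ s, b a • (cl Ω (toE (X a)) - cl Ω (toE (S a))) := by
    have e : toE (fun i x => Rs ν v D D1 i x - pd i π x)
        = toE ρ + k • ∑ a ∈ s, b a • (toE (X a) - toE (S a)) := by
      funext x
      ext i
      simp only [toE, hρdef, PiLp.add_apply, PiLp.smul_apply, smul_eq_mul, PiLp.sub_apply,
        WithLp.ofLp_sum, Finset.sum_apply, Pi.add_apply, Pi.smul_apply, Pi.sub_apply]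
      ring
    have m1 : ∀ a, MemLp (toE (X a) - toE (S a)) 2 (volume.restrict Ω) :=
      fun a => (hXm a).sub (hSm a)
    have m2 : ∀ a, MemLp (b a • (toE (X a) - toE (S a))) 2
      (volume.restrict Ω) := fun a => (m1 a).const_smul (b a)
    obtain ⟨m3, m4⟩ := cl_sum s m2
    rw [e, cl_add hρm (m4.const_smul k), cl_smul k m4, m3]
    congr 2
    refine Finset.sum_congr rfl fun a _ => ?_
    rw [cl_smul (b a) (m1 a), cl_sub (hXm a) (hSm a)]
  refine ⟨k • ∑ a ∈ s, b a • r a + cl Ω (toE ρ)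
    + B (q.1 - cl Ω (toE v), q.2 - clj Ω (toE v)), ?_, ?_⟩
  · have h1 : ‖k • ∑ a ∈ s, b a • r a‖ ≤ k * ((∑ a ∈ s, |b a|) * δ) := by
      rw [norm_smul, Real.norm_eq_abs, abs_of_nonneg hk]
      refine mul_le_mul_of_nonneg_left ?_ hk
      refine (norm_sum_le _ _).trans ?_
      rw [Finset.sum_mul]
      refine Finset.sum_le_sum fun a _ => ?_
      rw [norm_smul, Real.norm_eq_abs]
      exact mul_le_mul_of_nonneg_left (hr a) (abs_nonneg _)
    have h2 := hB1 (q.1 - cl Ω (toE v), q.2 - clj Ω (toE v))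
    exact (norm_add_le _ _).trans (add_le_add ((norm_add_le _ _).trans (add_le_add h1 hρn)) h2)
  · intro p hp
    rw [weak_id hΩ hD hD1 hv hdD hdv hπ hB2 hB3 hq hp (ν := ν)]
    congr 1
    rw [inner_add_left, inner_add_left, hcl, inner_add_left, inner_add_left]
    have h1 : ⟪k • ∑ a ∈ s, b a • (cl Ω (toE (X a)) - cl Ω (toE (S a))), p.1⟫_ℝ
        = ⟪k • ∑ a ∈ s, b a • r a, p.1⟫_ℝ := by
      rw [real_inner_smul_left, real_inner_smul_left, sum_inner, sum_inner]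
      congr 1
      refine Finset.sum_congr rfl fun a _ => ?_
      rw [real_inner_smul_left, real_inner_smul_left, inner_sub_left, hXS a p hp, inner_add_left]
      ring
    rw [h1]
    ring

/-! ### Exponentials -/

theorem exp_mul_le {y : ℝ} : y * Real.exp (-y) ≤ 1 := by
  have h1 := Real.add_one_le_exp y
  have h2 : y ≤ Real.exp y := by linarith
  calc y * Real.exp (-y) ≤ Real.exp y * Real.exp (-y) :=
        mul_le_mul_of_nonneg_right h2 (Real.exp_pos _).le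
    _ = 1 := by rw [← Real.exp_add]; simp

theorem e1 {ν k t : ℝ} (hν : 0 < ν) :
    k ^ 2 * t * Real.exp (-(ν / 4 * k ^ 2) * t) ≤ 4 / ν := by
  have h := @exp_mul_le (ν / 4 * k ^ 2 * t)
  have e : k ^ 2 * t * Real.exp (-(ν / 4 * k ^ 2) * t)
      = 4 / ν * (ν / 4 * k ^ 2 * t * Real.exp (-(ν / 4 * k ^ 2 * t))) := by
    rw [show -(ν / 4 * k ^ 2) * t = -(ν / 4 * k ^ 2 * t) by ring]
    field_simp
  rw [e]
  calc 4 / ν * (ν / 4 * k ^ 2 * t * Real.exp (-(ν / 4 * k ^ 2 * t))) ≤ 4 / ν * 1 := by gcongr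
    _ = 4 / ν := mul_one _

theorem exp_le_one' {ν k t : ℝ} (hν : 0 < ν) (ht : 0 ≤ t) :
    Real.exp (-(ν / 4 * k ^ 2) * t) ≤ 1 := by
  rw [Real.exp_le_one_iff]
  have : 0 ≤ ν / 4 * k ^ 2 * t := by positivity
  linarith

theorem e2 {ν k t : ℝ} (hν : 0 < ν) (hk : 0 ≤ k) (ht : 0 ≤ t) :
    k * √t * Real.exp (-(ν / 4 * k ^ 2) * t) ≤ 1 + 4 / ν := by
  have h1 := @e1 ν k t hν
  have h2 : k * √t ≤ 1 + k ^ 2 * t := by
    have h3 : (k * √t) ^ 2 = k ^ 2 * t := by rw [mul_pow, Real.sq_sqrt ht]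
    have h4 : 0 ≤ k * √t := by positivity
    nlinarith [sq_nonneg (k * √t - 1)]
  have h3 := Real.exp_pos (-(ν / 4 * k ^ 2) * t)
  have h4 := @exp_le_one' ν k t hν ht
  calc k * √t * Real.exp (-(ν / 4 * k ^ 2) * t)
      ≤ (1 + k ^ 2 * t) * Real.exp (-(ν / 4 * k ^ 2) * t) := by gcongr
    _ = Real.exp (-(ν / 4 * k ^ 2) * t) + k ^ 2 * t * Real.exp (-(ν / 4 * k ^ 2) * t) := by ring
    _ ≤ 1 + 4 / ν := add_le_add h4 h1

theorem e3 {ν k t : ℝ} : Real.exp (-(ν / 2 * k ^ 2) * t)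
    = Real.exp (-(ν / 4 * k ^ 2) * t) * Real.exp (-(ν / 4 * k ^ 2) * t) := by
  rw [← Real.exp_add]
  congr 1
  ring

theorem int_exp {c T : ℝ} (hc : 0 < c) :
    ∫ t in (0 : ℝ)..T, Real.exp (-c * t) ≤ 1 / c := by
  have hd : ∀ t ∈ uIcc 0 T, HasDerivAt (fun t => -(1 / c) * Real.exp (-c * t))
      (Real.exp (-c * t)) t := by
    intro t _
    have h1 : HasDerivAt (fun t : ℝ => -c * t) (-c) t := by
      simpa using (hasDerivAt_id t).const_mul (-c)
    refine (h1.exp.const_mul (-(1 / c))).congr_deriv ?_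
    field_simp
  have hcont : IntervalIntegrable (fun t => Real.exp (-c * t)) volume 0 T :=
    Continuous.intervalIntegrable (by fun_prop) _ _
  rw [intervalIntegral.integral_eq_sub_of_hasDerivAt hd hcont]
  simp only [mul_zero, Real.exp_zero]
  have h2 := Real.exp_pos (-c * T)
  have h3 : 0 ≤ 1 / c * Real.exp (-c * T) := by positivity
  linarith

/-- the bound of the residual -/
theorem gam_le {ν k t δ CT A C C0 Cb : ℝ} (hν : 0 < ν) (hk : 0 ≤ k) (ht : 0 ≤ t) (hδ : 0 ≤ δ)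
    (hCT : 0 ≤ CT) (hA : 0 ≤ A) (hC : 0 ≤ C) (hC0 : 0 ≤ C0) (hCb : 0 ≤ Cb) :
    k * ((CT * Real.exp (-(ν / 2 * k ^ 2) * t)) * δ)
      + A * (C * Real.exp (-(ν / 2 * k ^ 2) * t))
      + 9 * (C * k ^ 2 * Real.exp (-(ν / 2 * k ^ 2) * t) * (Cb * t)
        + (C0 + 1) * k * Real.exp (-(ν / 2 * k ^ 2) * t) * (Cb * √t))
      ≤ (CT * δ * k + (A * C + 9 * Cb * (C * (4 / ν) + (C0 + 1) * (1 + 4 / ν)) + 1))
        * Real.exp (-(ν / 4 * k ^ 2) * t) := by
  rw [e3]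
  have h1 := @e1 ν k t hν
  have h2 := @e2 ν k t hν hk ht
  have h3 := @exp_le_one' ν k t hν ht
  have h4 := Real.exp_pos (-(ν / 4 * k ^ 2) * t)
  set E := Real.exp (-(ν / 4 * k ^ 2) * t) with hE
  have k1 : k * (CT * (E * E) * δ) ≤ CT * δ * k * E := by
    have : k * (CT * (E * E) * δ) = CT * δ * k * E * E := by ring
    rw [this]
    have h5 : 0 ≤ CT * δ * k * E := by positivity
    exact mul_le_of_le_one_right h5 h3
  have k2 : A * (C * (E * E)) ≤ A * C * E := by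
    have : A * (C * (E * E)) = A * C * E * E := by ring
    rw [this]
    have h5 : 0 ≤ A * C * E := by positivity
    exact mul_le_of_le_one_right h5 h3
  have k3 : C * k ^ 2 * (E * E) * (Cb * t) ≤ Cb * (C * (4 / ν)) * E := by
    calc C * k ^ 2 * (E * E) * (Cb * t) = Cb * (C * (k ^ 2 * t * E)) * E := by ring
      _ ≤ Cb * (C * (4 / ν)) * E := by gcongr
  have k4 : (C0 + 1) * k * (E * E) * (Cb * √t) ≤ Cb * ((C0 + 1) * (1 + 4 / ν)) * E := by
    calc (C0 + 1) * k * (E * E) * (Cb * √t) = Cb * ((C0 + 1) * (k * √t * E)) * E := by ring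
      _ ≤ Cb * ((C0 + 1) * (1 + 4 / ν)) * E := by gcongr
  calc k * (CT * (E * E) * δ) + A * (C * (E * E)) + 9 * (C * k ^ 2 * (E * E) * (Cb * t)
        + (C0 + 1) * k * (E * E) * (Cb * √t))
      ≤ CT * δ * k * E + A * C * E + 9 * (Cb * (C * (4 / ν)) * E
        + Cb * ((C0 + 1) * (1 + 4 / ν)) * E) := by gcongr
    _ = (CT * δ * k + (A * C + 9 * Cb * (C * (4 / ν) + (C0 + 1) * (1 + 4 / ν)))) * E := by ring
    _ ≤ (CT * δ * k + (A * C + 9 * Cb * (C * (4 / ν) + (C0 + 1) * (1 + 4 / ν)) + 1)) * E :=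
      mul_le_mul_of_nonneg_right (by linarith) h4.le

end Pool.Agent.T2H10.DN.StepAux
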