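import Pool.Agent.T2H10.DN.StepA

/-!
Auxiliary statements for one step of the construction: the choice of the frequency.
-/

set_option autoImplicit false
set_option linter.unusedSectionVars false

open MeasureTheory Set Filter Topology
open scoped InnerProductSpace ENNReal ContDiff

namespace Pool.Agent.T2H10.DN.StepAux

open H772R2.NS
open Pool.Agent.Y303.LV (cl clj clj_coe)

variable {Ω K : Set E3}

theorem fam_cs (hK : IsCompact K) (hKΩ : K ⊆ Ω) {f : ℝ → E3 → ℝ}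
    (hf : ContDiff ℝ ∞ (fun q : ℝ × E3 => f q.1 q.2)) (h0 : ∀ t x, x ∉ K → f t x = 0) (t : ℝ) :
    CS Ω (f t) where
  smooth := hf.comp (contDiff_const.prodMk contDiff_id : ContDiff ℝ ∞ fun x : E3 => (t, x))
  compact := HasCompactSupport.intro hK fun x hx => h0 t x hx
  supp := by
    refine (closure_minimal (fun x hx => ?_) hK.isClosed).trans hKΩ
    by_contra hcon
    exact hx (h0 t x hcon)

theorem mem_W {D : VF} (hD : ∀ i, CS Ω (D i)) (hd : ∀ x, dv D x = 0) :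
    (cl Ω (toE D), clj Ω (toE D)) ∈ graphW Ω :=
  Submodule.le_topologicalClosure _ ⟨toE D, test_toE hD hd, cl_coe' (memLp_toE_CS hD),
    clj_coe (test_toE hD hd)⟩

theorem CT_exists {ν : ℝ} (hν : 0 < ν) (s : Finset (ℕ × ℕ)) :
    ∃ CT : ℝ, 0 ≤ CT ∧ ∀ τ, 0 ≤ τ → ∑ a ∈ s, |tb ν a.1 a.2 τ| ≤ CT * Real.exp (-(ν / 2) * τ) := by
  choose c hc0 hc using fun a : ℕ × ℕ => TT_bound hν (tb_mem (ν := ν) a.1 a.2)
  refine ⟨∑ a ∈ s, c a, Finset.sum_nonneg fun a _ => hc0 a, fun τ hτ => ?_⟩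
  rw [Finset.sum_mul]
  exact Finset.sum_le_sum fun a _ => hc a τ hτ

/-- the number `δ` -/
theorem delta_exists {ν κ A C0 CT : ℝ} (hν : 0 < ν) (hκ : 0 < κ) (hA : 0 < A) (hC0 : 0 ≤ C0)
    (hCT : 0 ≤ CT) : ∃ δ : ℝ, 0 < δ ∧ (4 * (CT + 1) * δ / ν) ^ 3 * (A * C0 + 2) ≤ κ := by
  set Z : ℝ := (4 * (CT + 1) / ν) ^ 3 * (A * C0 + 2) with hZ
  have hZ0 : 0 < Z := by positivity
  refine ⟨min 1 (κ / Z), lt_min one_pos (by positivity), ?_⟩
  set δ := min 1 (κ / Z)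
  have h0 : 0 < δ := lt_min one_pos (by positivity)
  have h1 : δ ≤ 1 := min_le_left _ _
  have h2 : δ ≤ κ / Z := min_le_right _ _
  have h3 : δ ^ 3 ≤ δ := by
    calc δ ^ 3 = δ ^ 2 * δ := by ring
      _ ≤ 1 * δ := by
        gcongr
        exact pow_le_one₀ h0.le h1
      _ = δ := one_mul δ
  calc (4 * (CT + 1) * δ / ν) ^ 3 * (A * C0 + 2) = Z * δ ^ 3 := by rw [hZ]; ring
    _ ≤ Z * (κ / Z) := by gcongr; exact h3.trans h2
    _ = κ := by field_simp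

/-- the conditions for the frequency -/
structure Freq (ν κ A C0 C CT Cb δ η η' Y C2 G k : ℝ) : Prop where
  hone : 1 ≤ k
  hC : C ≤ k
  hC2 : C2 ≤ δ * k
  hGk : G / k ≤ κ
  hG4 : (G / k) ^ 4 * (3 * (C0 + 1) * k) ^ 2 ≤ κ
  hG3 : (G / k) ^ 3 * (1 + (A * C0 + 1) * k ^ 3 + 0) ≤ κ
  hV1 : Y + A * (C0 * k ^ 3 + C * k ^ 2) ≤ (A * C0 + 1) * k ^ 3
  hg0 : Cb + A * (C0 * k ^ 3 + C * k ^ 2) + (CT * δ * k + C2) ≤ (A * C0 + 1) * k ^ 3
  heta : A * ((C0 + 1) * k * Real.exp (-(ν / 2 * k ^ 2) * η')) + G / k / κ ≤ η' - η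

theorem freq_exists {ν κ A C0 C CT Cb δ η η' Y C2 G : ℝ} (hν : 0 < ν) (hκ : 0 < κ) (hA : 0 < A)
    (hC0 : 0 ≤ C0) (hC : 0 ≤ C) (hCT : 0 ≤ CT) (hCb : 0 ≤ Cb) (hδ : 0 < δ) (hη : 0 ≤ η)
    (hηη : η < η') (hY : 0 ≤ Y) (hC2 : 0 ≤ C2) (hG : 0 ≤ G) (hG3 : G ^ 3 * (A * C0 + 2) ≤ κ) :
    ∃ k0 : ℝ, 1 ≤ k0 ∧ ∀ k, k0 ≤ k → Freq ν κ A C0 C CT Cb δ η η' Y C2 G k := by
  have hη0 : 0 < η' := hη.trans_lt hηη
  have hd : 0 < η' - η := sub_pos.2 hηη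
  set t1 : ℝ := C2 / δ with ht1
  set t2 : ℝ := G / κ with ht2
  set t3 : ℝ := 9 * (C0 + 1) ^ 2 * G ^ 4 / κ with ht3
  set t4 : ℝ := Y + A * C with ht4
  set t5 : ℝ := Cb + A * C + CT * δ + C2 with ht5
  set t6 : ℝ := (A * (C0 + 1) * (2 / (ν * η')) + G / κ) / (η' - η) with ht6
  have h1 : 0 ≤ t1 := by positivity
  have h2 : 0 ≤ t2 := by positivity
  have h3 : 0 ≤ t3 := by positivity
  have h4 : 0 ≤ t4 := by positivity
  have h5 : 0 ≤ t5 := by positivity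
  have h6 : 0 ≤ t6 := by positivity
  refine ⟨1 + C + t1 + t2 + t3 + t4 + t5 + t6, by linarith, fun k hk => ?_⟩
  have hk1 : 1 ≤ k := by linarith
  have hk0 : 0 < k := by linarith
  have q1 : t1 ≤ k := by linarith
  have q2 : t2 ≤ k := by linarith
  have q3 : t3 ≤ k := by linarith
  have q4 : t4 ≤ k := by linarith
  have q5 : t5 ≤ k := by linarith
  have q6 : t6 ≤ k := by linarith
  have hk2 : k ≤ k ^ 2 := by nlinarith
  have hk3 : 1 ≤ k ^ 3 := one_le_pow₀ hk1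
  refine ⟨hk1, by linarith, ?_, ?_, ?_, ?_, ?_, ?_, ?_⟩
  · rw [ht1, div_le_iff₀ hδ] at q1
    linarith
  · rw [ht2, div_le_iff₀ hκ] at q2
    rw [div_le_iff₀ hk0]
    linarith
  · rw [ht3, div_le_iff₀ hκ] at q3
    have e : (G / k) ^ 4 * (3 * (C0 + 1) * k) ^ 2 = 9 * (C0 + 1) ^ 2 * G ^ 4 / k ^ 2 := by
      field_simp
      ring
    rw [e, div_le_iff₀ (by positivity)]
    calc 9 * (C0 + 1) ^ 2 * G ^ 4 ≤ k * κ := q3
      _ ≤ k ^ 2 * κ := by gcongr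
      _ = κ * k ^ 2 := by ring
  · have e : (G / k) ^ 3 * (1 + (A * C0 + 1) * k ^ 3 + 0)
        = G ^ 3 * (1 / k ^ 3 + (A * C0 + 1)) := by
      field_simp
      ring
    rw [e]
    have h7 : 1 / k ^ 3 ≤ 1 := by
      rw [div_le_one (by positivity)]
      exact hk3
    calc G ^ 3 * (1 / k ^ 3 + (A * C0 + 1)) ≤ G ^ 3 * (1 + (A * C0 + 1)) := by gcongr
      _ = G ^ 3 * (A * C0 + 2) := by ring
      _ ≤ κ := hG3
  · have h7 : Y ≤ Y * k ^ 2 := le_mul_of_one_le_right hY (one_le_pow₀ hk1)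
    have h8 : (Y + A * C) * k ^ 2 ≤ k * k ^ 2 := by gcongr
    nlinarith
  · have h7 : Cb ≤ Cb * k ^ 2 := le_mul_of_one_le_right hCb (one_le_pow₀ hk1)
    have h8 : (Cb + A * C + CT * δ + C2) * k ^ 2 ≤ k * k ^ 2 := by gcongr
    have h9 : C2 ≤ C2 * k ^ 2 := le_mul_of_one_le_right hC2 (one_le_pow₀ hk1)
    have h10 : CT * δ * k ≤ CT * δ * k ^ 2 := by gcongr
    nlinarith
  · have h7 : k * Real.exp (-(ν / 2 * k ^ 2) * η') ≤ 2 / (ν * η') / k := by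
      have h8 := @exp_mul_le (ν / 2 * k ^ 2 * η')
      have e : -(ν / 2 * k ^ 2) * η' = -(ν / 2 * k ^ 2 * η') := by ring
      rw [e, le_div_iff₀ hk0]
      have e2 : k * Real.exp (-(ν / 2 * k ^ 2 * η')) * k
          = 2 / (ν * η') * (ν / 2 * k ^ 2 * η' * Real.exp (-(ν / 2 * k ^ 2 * η'))) := by
        field_simp
      rw [e2]
      exact mul_le_of_le_one_right (by positivity) h8
    rw [ht6, div_le_iff₀ hd] at q6
    calc A * ((C0 + 1) * k * Real.exp (-(ν / 2 * k ^ 2) * η')) + G / k / κ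
        = A * (C0 + 1) * (k * Real.exp (-(ν / 2 * k ^ 2) * η')) + G / κ / k := by
          field_simp
      _ ≤ A * (C0 + 1) * (2 / (ν * η') / k) + G / κ / k := by gcongr
      _ = (A * (C0 + 1) * (2 / (ν * η')) + G / κ) / k := by ring
      _ ≤ η' - η := by
        rw [div_le_iff₀ hk0]
        linarith

/-- the integral of the bound of the residual -/
theorem int_gam {ν CT δ C2 k T : ℝ} (hν : 0 < ν) (hCT : 0 ≤ CT) (hδ : 0 < δ) (hC2 : 0 ≤ C2)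
    (hk : 1 ≤ k) (h2 : C2 ≤ δ * k) :
    ∫ t in (0 : ℝ)..T, (CT * δ * k + C2) * Real.exp (-(ν / 4 * k ^ 2) * t)
      ≤ 4 * (CT + 1) * δ / ν / k := by
  have hk0 : 0 < k := by linarith
  rw [intervalIntegral.integral_const_mul]
  have h1 := int_exp (c := ν / 4 * k ^ 2) (T := T) (by positivity)
  calc (CT * δ * k + C2) * ∫ t in (0 : ℝ)..T, Real.exp (-(ν / 4 * k ^ 2) * t)
      ≤ (CT * δ * k + C2) * (1 / (ν / 4 * k ^ 2)) := by gcongr
    _ ≤ (CT * δ * k + δ * k) * (1 / (ν / 4 * k ^ 2)) := by gcongr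
    _ = 4 * (CT + 1) * δ / ν / k := by
      field_simp

theorem int_N {ν C0 k T : ℝ} (hν : 0 < ν) (hC0 : 0 ≤ C0) (hk : 1 ≤ k) :
    ∫ t in (0 : ℝ)..T, (3 * ((C0 + 1) * k * Real.exp (-(ν / 2 * k ^ 2) * t))) ^ 2
      ≤ 9 * (C0 + 1) ^ 2 / ν := by
  have hk0 : 0 < k := by linarith
  have e : (fun t : ℝ => (3 * ((C0 + 1) * k * Real.exp (-(ν / 2 * k ^ 2) * t))) ^ 2)
      = fun t => (9 * (C0 + 1) ^ 2 * k ^ 2) * Real.exp (-(ν * k ^ 2) * t) := by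
    funext t
    have e1 : Real.exp (-(ν * k ^ 2) * t) = Real.exp (-(ν / 2 * k ^ 2) * t)
        * Real.exp (-(ν / 2 * k ^ 2) * t) := by
      rw [← Real.exp_add]
      congr 1
      ring
    rw [e1]
    ring
  rw [e, intervalIntegral.integral_const_mul]
  have h1 := int_exp (c := ν * k ^ 2) (T := T) (by positivity)
  calc 9 * (C0 + 1) ^ 2 * k ^ 2 * ∫ t in (0 : ℝ)..T, Real.exp (-(ν * k ^ 2) * t)
      ≤ 9 * (C0 + 1) ^ 2 * k ^ 2 * (1 / (ν * k ^ 2)) := by gcongr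
    _ = 9 * (C0 + 1) ^ 2 / ν := by
      field_simp

end Pool.Agent.T2H10.DN.StepAux
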